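import Pool.Agent.PFS.StmtsB

/-!
# Project PFS, module BCP: the caps with phases
-/

set_option autoImplicit false

namespace Pool.Agent.PFS

open Finset Pool.Agent.Lib27 Pool.Agent.SapR Pool.Agent.Gap Pool.Agent.FL Pool.Agent.EXW Filter
  Topology Pool.Agent.AreaLaw Pool.Agent.FS

namespace BCPx

lemma near_one (θ v : ℝ) (hv0 : 0 ≤ v) (hv1 : v ≤ 1) (m k : ℕ) (hk : k ≤ m) :
    ‖ph θ v (m, k) - 1‖ ≤ |θ| * m := by
  have h1 : ph θ v (m, k) = Complex.exp (Complex.I * ((θ * ((k : ℝ) - v * m) : ℝ) : ℂ)) := by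
    unfold ph
    rw [mul_comm]
  rw [h1]
  refine (Real.norm_exp_I_mul_ofReal_sub_one_le (x := θ * ((k : ℝ) - v * m))).trans ?_
  rw [Real.norm_eq_abs, abs_mul]
  refine mul_le_mul_of_nonneg_left ?_ (abs_nonneg _)
  have hk' : (k : ℝ) ≤ m := by exact_mod_cast hk
  have hk0 : (0 : ℝ) ≤ k := Nat.cast_nonneg _
  have hm0 : (0 : ℝ) ≤ m := Nat.cast_nonneg _
  have h2 : v * m ≤ m := by nlinarith
  have h3 : 0 ≤ v * m := mul_nonneg hv0 hm0
  rw [abs_le]
  constructor <;> linarith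

end BCPx

theorem t_BCP (h : HG_Stmt) : BCP_Stmt := by
  intro n s θ v hs hv0 hv1 m g
  by_cases hg : 1 ≤ g
  · have hpos : ∀ T : Wd, 0 ≤ s ^ (m - hgt T) := fun T => pow_nonneg hs.le _
    have hT : ∀ T ∈ CapSet (2 * n - 1) g (2 * m), hgt T ≤ m := by
      intro T hT
      have h1 := (M41.mem_CapSet _ _ _ _).1 hT
      have h2 := h.2.1 g T hg h1.2.1
      rw [h1.1] at h2
      omega
    unfold capP capW
    rw [if_pos hg, if_pos hg]
    constructor
    · refine (norm_sum_le _ _).trans (sum_le_sum fun T _ => ?_)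
      rw [norm_mul, norm_ph, mul_one, Complex.norm_real, Real.norm_eq_abs, abs_of_nonneg (hpos T)]
    · rw [Complex.ofReal_sum, ← sum_sub_distrib, mul_sum]
      refine (norm_sum_le _ _).trans (sum_le_sum fun T hT' => ?_)
      have e1 : ((s ^ (m - hgt T) : ℝ) : ℂ) * ph θ v (m, hgt T) - ((s ^ (m - hgt T) : ℝ) : ℂ)
          = ((s ^ (m - hgt T) : ℝ) : ℂ) * (ph θ v (m, hgt T) - 1) := by ring
      rw [e1, norm_mul, Complex.norm_real, Real.norm_eq_abs, abs_of_nonneg (hpos T), mul_comm]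
      exact mul_le_mul_of_nonneg_right (BCPx.near_one θ v hv0 hv1 m _ (hT T hT')) (hpos T)
  · unfold capP capW
    rw [if_neg hg, if_neg hg]
    simp

end Pool.Agent.PFS
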