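import Pool.Agent.PFS.StmtsB

/-!
# PFS, module BKB: skeletons with few tokens
-/

set_option autoImplicit false

namespace Pool.Agent.PFS.BKBx

open Finset Pool.Agent.Lib27 Pool.Agent.SapR Pool.Agent.Gap Pool.Agent.FL Filter
  Topology Pool.Agent.AreaLaw Pool.Agent.FS

/-- `exp u - 1 ≤ u exp u` -/
lemma exp_sub_one_le (u : ℝ) : Real.exp u - 1 ≤ u * Real.exp u := by
  have h := Real.add_one_le_exp (-u)
  have h1 : Real.exp (-u) * Real.exp u = 1 := by
    rw [← Real.exp_add]; simp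
  nlinarith [Real.exp_pos u]

/-- the sum over the pieces, grouped by the half length -/
lemma pieces {n : ℕ} {s rho C θ κ : ℝ} (hC : 0 < C) (hθ : 0 < θ) (hκ : 0 < κ)
    (hcrit : Crit n s rho) (ht : Tails C θ n s rho) {θ' : ℝ} (hθ' : 0 < θ') (hθ'1 : θ' < 1)
    (hle : Real.exp κ * θ ≤ θ') :
    ∑ p ∈ Pc (2 * n - 1), (rho * Real.exp κ) ^ hl p * s ^ (hl p - htn p) ≤
      1 + C * κ * ∑' m : ℕ, (m : ℝ) * θ' ^ m := by
  have hrho := hcrit.1
  have hsum := hcrit.2
  have hsm : Summable (fun m : ℕ => (m : ℝ) * θ' ^ m) := by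
    have := summable_pow_mul_geometric_of_norm_lt_one (R := ℝ) 1
      (r := θ') (by rw [Real.norm_eq_abs, abs_of_pos hθ']; exact hθ'1)
    simpa using this
  have h1 : ∑ p ∈ Pc (2 * n - 1), (rho * Real.exp κ) ^ hl p * s ^ (hl p - htn p) =
      1 + ∑ p ∈ Pc (2 * n - 1), rho ^ hl p * s ^ (hl p - htn p) * (Real.exp (κ * hl p) - 1) := by
    have h0 : ∑ p ∈ Pc (2 * n - 1), (rho * Real.exp κ) ^ hl p * s ^ (hl p - htn p) =
        ∑ p ∈ Pc (2 * n - 1), (rho ^ hl p * s ^ (hl p - htn p) +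
          rho ^ hl p * s ^ (hl p - htn p) * (Real.exp (κ * hl p) - 1)) := by
      refine Finset.sum_congr rfl fun p _ => ?_
      rw [mul_pow, ← Real.exp_nat_mul, mul_comm (hl p : ℝ) κ]
      ring
    rw [h0, Finset.sum_add_distrib, hsum]
  rw [h1]
  refine (add_le_add_iff_left 1).mpr ?_
  have h2 : ∑ p ∈ Pc (2 * n - 1), rho ^ hl p * s ^ (hl p - htn p) * (Real.exp (κ * hl p) - 1) =
      ∑ m ∈ (Pc (2 * n - 1)).image hl, ∑ p ∈ (Pc (2 * n - 1)).filter (fun p => hl p = m),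
        rho ^ hl p * s ^ (hl p - htn p) * (Real.exp (κ * hl p) - 1) := by
    rw [Finset.sum_fiberwise_of_maps_to]
    intro p hp
    exact Finset.mem_image_of_mem _ hp
  rw [h2]
  calc ∑ m ∈ (Pc (2 * n - 1)).image hl, ∑ p ∈ (Pc (2 * n - 1)).filter (fun p => hl p = m),
        rho ^ hl p * s ^ (hl p - htn p) * (Real.exp (κ * hl p) - 1)
      ≤ ∑ m ∈ (Pc (2 * n - 1)).image hl, C * κ * ((m : ℝ) * θ' ^ m) := by
        refine Finset.sum_le_sum fun m _ => ?_
        have h3 : ∑ p ∈ (Pc (2 * n - 1)).filter (fun p => hl p = m),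
            rho ^ hl p * s ^ (hl p - htn p) * (Real.exp (κ * hl p) - 1) =
            (Real.exp (κ * m) - 1) * ∑ p ∈ (Pc (2 * n - 1)).filter (fun p => hl p = m),
              rho ^ m * s ^ (m - htn p) := by
          rw [Finset.mul_sum]
          refine Finset.sum_congr rfl fun p hp => ?_
          rw [Finset.mem_filter] at hp
          rw [hp.2]
          ring
        rw [h3]
        have h4 := ht.1 m
        have h5 : 0 ≤ Real.exp (κ * m) - 1 := by
          have := Real.add_one_le_exp (κ * m)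
          have h6 : 0 ≤ κ * m := by positivity
          linarith
        calc (Real.exp (κ * m) - 1) * ∑ p ∈ (Pc (2 * n - 1)).filter (fun p => hl p = m),
              rho ^ m * s ^ (m - htn p)
            ≤ (Real.exp (κ * m) - 1) * (C * θ ^ m) := mul_le_mul_of_nonneg_left h4 h5
          _ ≤ (κ * m * Real.exp (κ * m)) * (C * θ ^ m) := by
              refine mul_le_mul_of_nonneg_right (exp_sub_one_le _) (by positivity)
          _ = C * κ * (m * (Real.exp κ * θ) ^ m) := by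
              rw [mul_pow, ← Real.exp_nat_mul, mul_comm (m : ℝ) κ]
              ring
          _ ≤ C * κ * ((m : ℝ) * θ' ^ m) := by
              have h7 : (Real.exp κ * θ) ^ m ≤ θ' ^ m :=
                pow_le_pow_left₀ (by positivity) hle m
              have h8 : 0 ≤ C * κ := by positivity
              have h9 : (0 : ℝ) ≤ m := Nat.cast_nonneg m
              exact mul_le_mul_of_nonneg_left (mul_le_mul_of_nonneg_left h7 h9) h8
    _ = C * κ * ∑ m ∈ (Pc (2 * n - 1)).image hl, ((m : ℝ) * θ' ^ m) := by rw [Finset.mul_sum]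
    _ ≤ C * κ * ∑' m : ℕ, (m : ℝ) * θ' ^ m := by
        refine mul_le_mul_of_nonneg_left ?_ (by positivity)
        refine hsm.sum_le_tsum _ fun m _ => by positivity

/-- the caps -/
lemma caps {n : ℕ} {s rho C θ κ : ℝ} (hs : 0 < s) (hC : 0 < C) (hθ : 0 < θ)
    (hcrit : Crit n s rho) (ht : Tails C θ n s rho) {θ' : ℝ} (hθ' : 0 < θ') (hθ'1 : θ' < 1)
    (hle : Real.exp κ * θ ≤ θ') :
    0 ≤ capK n s (rho * Real.exp κ) ∧ capK n s (rho * Real.exp κ) ≤ C * (1 - θ')⁻¹ := by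
  have hrho := hcrit.1
  unfold capK
  refine ⟨?_, ?_⟩
  · refine Finset.sum_nonneg fun m _ => Finset.sum_nonneg fun x _ => Finset.sum_nonneg fun T _ => ?_
    positivity
  · have hg : Summable (fun m : ℕ => θ' ^ m) := summable_geometric_of_lt_one hθ'.le hθ'1
    calc ∑ m ∈ range (n + 1), ∑ x ∈ Icc (1 : ℤ) m, ∑ T ∈ CapSet (2 * n - 1) x (2 * m),
          (rho * Real.exp κ) ^ m * s ^ (m - hgt T)
        ≤ ∑ m ∈ range (n + 1), C * θ' ^ m := by
          refine Finset.sum_le_sum fun m _ => ?_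
          have h1 : ∑ x ∈ Icc (1 : ℤ) m, ∑ T ∈ CapSet (2 * n - 1) x (2 * m),
              (rho * Real.exp κ) ^ m * s ^ (m - hgt T) =
              Real.exp κ ^ m * ∑ x ∈ Icc (1 : ℤ) m, ∑ T ∈ CapSet (2 * n - 1) x (2 * m),
                rho ^ m * s ^ (m - hgt T) := by
            rw [Finset.mul_sum]
            refine Finset.sum_congr rfl fun x _ => ?_
            rw [Finset.mul_sum]
            refine Finset.sum_congr rfl fun T _ => ?_
            rw [mul_pow]
            ring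
          rw [h1]
          calc Real.exp κ ^ m * ∑ x ∈ Icc (1 : ℤ) m, ∑ T ∈ CapSet (2 * n - 1) x (2 * m),
                rho ^ m * s ^ (m - hgt T)
              ≤ Real.exp κ ^ m * (C * θ ^ m) :=
                mul_le_mul_of_nonneg_left (ht.2.1 m) (by positivity)
            _ = C * (Real.exp κ * θ) ^ m := by rw [mul_pow]; ring
            _ ≤ C * θ' ^ m :=
                mul_le_mul_of_nonneg_left (pow_le_pow_left₀ (by positivity) hle m) hC.le
      _ = C * ∑ m ∈ range (n + 1), θ' ^ m := by rw [Finset.mul_sum]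
      _ ≤ C * (1 - θ')⁻¹ := by
          refine mul_le_mul_of_nonneg_left ?_ hC.le
          rw [← tsum_geometric_of_lt_one hθ'.le hθ'1]
          exact hg.sum_le_tsum _ fun m _ => by positivity

/-- the bound for one kernel: `D` large against `s`, `κ = D⁻⁴` -/
lemma core {n : ℕ} {s rho D : ℝ} (hs : 0 < s) (hs1 : s ≤ 1) (hD2 : 2 ≤ D)
    (hD : 8 * 10 ^ 12 ≤ D * s ^ 2) (hr : 1 / 100 ≤ rho)
    (hcrit : Crit n s rho) (ht : Tails D (1 - D⁻¹) n s rho) {k : ℕ} {σ : Fin k → Sk}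
    (hσ : IsSkel n k σ) :
    ∑ i ∈ univ.filter (fun i : Fin k => ((σ i).l.length : ℝ) < n / D ^ 6),
      vsk n s (σ i) ≤ D ^ 6 * Real.exp (-(n / D ^ 6)) / rho ^ n := by
  have hrho := hcrit.1
  have hD0 : 0 < D := by linarith
  have hDi : D⁻¹ ≤ 1 / 2 := by
    rw [← one_div]
    exact one_div_le_one_div_of_le (by norm_num) hD2
  have hDi0 : 0 < D⁻¹ := inv_pos.2 hD0
  set θ : ℝ := 1 - D⁻¹ with hθdef
  have hθ : 0 < θ := by rw [hθdef]; linarith
  set θ' : ℝ := 1 - D⁻¹ / 2 with hθ'def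
  have hθ' : 0 < θ' := by rw [hθ'def]; linarith
  have hθ'1 : θ' < 1 := by rw [hθ'def]; linarith
  have hθ'i : (1 - θ')⁻¹ = 2 * D := by
    rw [hθ'def]
    have h1 : 1 - (1 - D⁻¹ / 2) = D⁻¹ / 2 := by ring
    rw [h1]
    field_simp
  set κ : ℝ := (D ^ 4)⁻¹ with hκdef
  have hκ : 0 < κ := by rw [hκdef]; positivity
  have hκ2 : κ ≤ D⁻¹ / 2 := by
    rw [hκdef]
    have h1 : D⁻¹ / 2 = (2 * D)⁻¹ := by
      rw [mul_inv]
      ring
    rw [h1]
    refine inv_anti₀ (by positivity) ?_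
    have h2 : (2 : ℝ) ≤ D ^ 3 := by
      have h3 : (2 : ℝ) ^ 3 ≤ D ^ 3 := pow_le_pow_left₀ (by norm_num) hD2 3
      linarith
    calc 2 * D ≤ D ^ 3 * D := mul_le_mul_of_nonneg_right h2 hD0.le
      _ = D ^ 4 := by ring
  have hle : Real.exp κ * θ ≤ θ' := by
    have h1 := Real.add_one_le_exp (-κ)
    have h2 : Real.exp κ * Real.exp (-κ) = 1 := by
      rw [← Real.exp_add]
      simp
    have h3 : θ ≤ θ' * Real.exp (-κ) := by
      have h4 : θ' * (-κ + 1) ≤ θ' * Real.exp (-κ) := mul_le_mul_of_nonneg_left h1 hθ'.le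
      have h5 : θ ≤ θ' * (-κ + 1) := by
        have h6 : θ' * κ ≤ 1 * (D⁻¹ / 2) :=
          mul_le_mul hθ'1.le hκ2 hκ.le (by norm_num)
        rw [hθdef]
        have h7 : θ' * (-κ + 1) = θ' - θ' * κ := by ring
        rw [h7]
        rw [hθ'def] at h6 ⊢
        linarith
      exact h5.trans h4
    calc Real.exp κ * θ ≤ Real.exp κ * (θ' * Real.exp (-κ)) :=
          mul_le_mul_of_nonneg_left h3 (Real.exp_pos _).le
      _ = θ' * (Real.exp κ * Real.exp (-κ)) := by ring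
      _ = θ' := by rw [h2, mul_one]
  have hp := pieces hD0 hθ hκ hcrit ht hθ' hθ'1 hle
  obtain ⟨hc0, hc1⟩ := caps hs hD0 hθ hcrit ht hθ' hθ'1 hle
  rw [hθ'i] at hc1
  have hS : ∑' m : ℕ, (m : ℝ) * θ' ^ m ≤ 4 * D ^ 2 := by
    rw [tsum_coe_mul_geometric_of_norm_lt_one
      (by rw [Real.norm_eq_abs, abs_of_pos hθ']; exact hθ'1)]
    rw [div_eq_mul_inv, ← inv_pow, hθ'i]
    calc θ' * (2 * D) ^ 2 ≤ 1 * (2 * D) ^ 2 :=
          mul_le_mul_of_nonneg_right hθ'1.le (by positivity)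
      _ = 4 * D ^ 2 := by ring
  set rho' : ℝ := rho * Real.exp κ with hrho'def
  have hrho' : 0 < rho' := by positivity
  have hrr : rho ≤ rho' := by
    rw [hrho'def]
    have := Real.add_one_le_exp κ
    nlinarith
  have hcount := hσ.count s (1 / 2) rho' hs (by norm_num) hrho' (by
    refine hp.trans ?_
    have h1 : (1 / 100 : ℝ) ^ 6 ≤ rho' ^ 6 := pow_le_pow_left₀ (by norm_num) (hr.trans hrr) 6
    have h2 : s ^ 2 ≤ s ^ 2 + s ^ 3 := by
      have h3 : 0 < s ^ 3 := by positivity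
      linarith
    have h3 : (1 / 100 : ℝ) ^ 6 * s ^ 2 ≤ rho' ^ 6 * (s ^ 2 + s ^ 3) :=
      mul_le_mul h1 h2 (by positivity) (by positivity)
    have h4 : D * κ * ∑' m : ℕ, (m : ℝ) * θ' ^ m ≤ 4 * D⁻¹ := by
      calc D * κ * ∑' m : ℕ, (m : ℝ) * θ' ^ m ≤ D * κ * (4 * D ^ 2) :=
            mul_le_mul_of_nonneg_left hS (by positivity)
        _ = 4 * D⁻¹ := by
            rw [hκdef]
            field_simp
    have h5 : 4 * D⁻¹ ≤ (1 / 2) * ((1 / 100 : ℝ) ^ 6 * s ^ 2) := by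
      rw [← div_eq_mul_inv, div_le_iff₀ hD0]
      have h6 : (1 / 2) * ((1 / 100 : ℝ) ^ 6 * s ^ 2) * D =
          (1 / 2) * (1 / 100) ^ 6 * (D * s ^ 2) := by ring
      rw [h6]
      calc (4 : ℝ) = (1 / 2) * (1 / 100) ^ 6 * (8 * 10 ^ 12) := by norm_num
        _ ≤ _ := mul_le_mul_of_nonneg_left hD (by norm_num)
    linarith)
  have hcap2 : (capK n s rho') ^ 2 ≤ D ^ 6 := by
    calc (capK n s rho') ^ 2 ≤ (D * (2 * D)) ^ 2 := pow_le_pow_left₀ hc0 hc1 2
      _ = 4 * D ^ 4 := by ring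
      _ ≤ D ^ 2 * D ^ 4 := by
          refine mul_le_mul_of_nonneg_right ?_ (by positivity)
          nlinarith
      _ = D ^ 6 := by ring
  have hcount2 := hcount.trans hcap2
  set E : ℝ := ∑ i, s ^ (n - (σ i).H) * ((1 + s) * (1 / 2)) ^ (σ i).l.length with hEdef
  have hE : E ≤ D ^ 6 * (rho' ^ n)⁻¹ := by
    rw [← div_eq_mul_inv, le_div_iff₀ (by positivity)]
    linarith
  have hfew : ∑ i ∈ univ.filter (fun i : Fin k => ((σ i).l.length : ℝ) < n / D ^ 6),
      vsk n s (σ i) ≤ Real.exp (n / D ^ 6) * E := by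
    rw [hEdef, Finset.mul_sum]
    refine (Finset.sum_le_sum (fun i hi => ?_)).trans
      (Finset.sum_le_sum_of_subset_of_nonneg (Finset.filter_subset _ _) fun i _ _ => ?_)
    · rw [Finset.mem_filter] at hi
      unfold vsk
      have h1 : (1 + s) ^ (σ i).l.length =
          2 ^ (σ i).l.length * ((1 + s) * (1 / 2)) ^ (σ i).l.length := by
        rw [← mul_pow]
        congr 1
        ring
      rw [h1]
      have h2 : (2 : ℝ) ^ (σ i).l.length ≤ Real.exp (n / D ^ 6) := by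
        have h3 : (2 : ℝ) ≤ Real.exp 1 := by
          have := Real.add_one_le_exp (1 : ℝ)
          linarith
        calc (2 : ℝ) ^ (σ i).l.length ≤ Real.exp 1 ^ (σ i).l.length :=
              pow_le_pow_left₀ (by norm_num) h3 _
          _ = Real.exp ((σ i).l.length : ℝ) := by
              rw [← Real.exp_nat_mul, mul_one]
          _ ≤ Real.exp (n / D ^ 6) := Real.exp_le_exp.mpr hi.2.le
      have h4 : 0 ≤ s ^ (n - (σ i).H) * ((1 + s) * (1 / 2)) ^ (σ i).l.length := by positivity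
      calc s ^ (n - (σ i).H) * (2 ^ (σ i).l.length * ((1 + s) * (1 / 2)) ^ (σ i).l.length)
          = 2 ^ (σ i).l.length * (s ^ (n - (σ i).H) * ((1 + s) * (1 / 2)) ^ (σ i).l.length) := by
            ring
        _ ≤ Real.exp (n / D ^ 6) *
            (s ^ (n - (σ i).H) * ((1 + s) * (1 / 2)) ^ (σ i).l.length) :=
            mul_le_mul_of_nonneg_right h2 h4
    · positivity
  have hr' : (rho' ^ n)⁻¹ = Real.exp (-(κ * n)) * (rho ^ n)⁻¹ := by
    rw [hrho'def, mul_pow, mul_inv, ← Real.exp_nat_mul, Real.exp_neg, mul_comm (n : ℝ) κ,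
      mul_comm]
  have hexp : Real.exp (n / D ^ 6) * Real.exp (-(κ * n)) ≤ Real.exp (-(n / D ^ 6)) := by
    rw [← Real.exp_add]
    refine Real.exp_le_exp.mpr ?_
    have hn0 : (0 : ℝ) ≤ n := Nat.cast_nonneg n
    have h1 : 2 * (n / D ^ 6) ≤ κ * n := by
      rw [hκdef]
      have h2 : 2 * ((n : ℝ) / D ^ 6) = (2 / D ^ 2) * ((D ^ 4)⁻¹ * n) := by
        field_simp
      rw [h2]
      have h3 : 2 / D ^ 2 ≤ 1 := by
        rw [div_le_one (by positivity)]
        nlinarith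
      calc 2 / D ^ 2 * ((D ^ 4)⁻¹ * n) ≤ 1 * ((D ^ 4)⁻¹ * n) :=
            mul_le_mul_of_nonneg_right h3 (by positivity)
        _ = _ := by rw [one_mul]
    linarith
  calc ∑ i ∈ univ.filter (fun i : Fin k => ((σ i).l.length : ℝ) < n / D ^ 6), vsk n s (σ i)
      ≤ Real.exp (n / D ^ 6) * E := hfew
    _ ≤ Real.exp (n / D ^ 6) * (D ^ 6 * (rho' ^ n)⁻¹) :=
        mul_le_mul_of_nonneg_left hE (Real.exp_pos _).le
    _ = D ^ 6 * (Real.exp (n / D ^ 6) * Real.exp (-(κ * n))) * (rho ^ n)⁻¹ := by rw [hr']; ring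
    _ ≤ D ^ 6 * Real.exp (-(n / D ^ 6)) * (rho ^ n)⁻¹ := by
        refine mul_le_mul_of_nonneg_right ?_ (by positivity)
        exact mul_le_mul_of_nonneg_left hexp (by positivity)
    _ = D ^ 6 * Real.exp (-(n / D ^ 6)) / rho ^ n := (div_eq_mul_inv _ _).symm

end Pool.Agent.PFS.BKBx

namespace Pool.Agent.PFS

open Finset Pool.Agent.Lib27 Pool.Agent.SapR Pool.Agent.Gap Pool.Agent.FL Pool.Agent.EXW Filter
  Topology Pool.Agent.AreaLaw Pool.Agent.FS
open Pool.Agent.PFW (Mp)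

theorem t_BKB (h1 : PTL_Stmt) (h2 : MGI2_Stmt) : BKB_Stmt := by
  intro f1 _hf1
  obtain ⟨A1, hA1, N1, hN1, hT⟩ := h1
  obtain ⟨a, ha⟩ := exists_nat_ge (8 * 10 ^ 12 * Real.exp (2 * f1))
  refine ⟨max A1 a, le_trans hA1 (le_max_left _ _), fun A hA => ?_⟩
  have hA1A : A1 ≤ A := le_trans (le_max_left _ _) hA
  have haA : a ≤ A := le_trans (le_max_right _ _) hA
  have h2A : 2 ≤ A := le_trans hA1 hA1A
  refine ⟨6, max 6 N1, le_max_left _ _, ?_⟩
  intro n f rho hn hf hff1 hMn hcrit k σ hσ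
  have hnN : N1 ≤ n := (le_max_right _ _).trans hn
  have hn6 : 6 ≤ n := (le_max_left _ _).trans hn
  have hD2 : 2 ≤ Mp A f := PFW.two_le_Mp h2A hf
  have hDn : Mp A f ≤ n := by
    refine le_trans ?_ hMn
    exact le_self_pow₀ (by linarith) (by norm_num)
  have ht := hT A hA1A n f rho hnN hf hDn hcrit
  have hs : 0 < Real.exp (-f) := Real.exp_pos _
  have hs1 : Real.exp (-f) ≤ 1 := by
    rw [Real.exp_le_one_iff]
    linarith
  have hr := (h2.2 n (Real.exp (-f)) rho (by omega) hs hs1 hcrit.1 hcrit.2).1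
  refine BKBx.core hs hs1 hD2 ?_ hr hcrit ht hσ
  have h3 : (A : ℝ) ≤ Mp A f := PFW.A_le_Mp h2A hf
  have h4 : 8 * 10 ^ 12 * Real.exp (2 * f1) ≤ Mp A f :=
    ha.trans ((by exact_mod_cast haA : (a : ℝ) ≤ A).trans h3)
  have h5 : Real.exp (-(2 * f1)) ≤ Real.exp (-f) ^ 2 := by
    rw [← Real.exp_nat_mul]
    refine Real.exp_le_exp.mpr ?_
    push_cast
    linarith
  calc (8 * 10 ^ 12 : ℝ) = 8 * 10 ^ 12 * Real.exp (2 * f1) * Real.exp (-(2 * f1)) := by
        rw [mul_assoc, ← Real.exp_add]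
        simp
    _ ≤ Mp A f * Real.exp (-f) ^ 2 :=
        mul_le_mul h4 h5 (Real.exp_pos _).le (by linarith)

end Pool.Agent.PFS
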