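import Pool.Agent.PFS.StmtsB
import Pool.Agent.EXW.QDAT
import Pool.Agent.Lib_helper74.FS.Tok

/-!
# Project PFS, module BKER: the kernel of a force is in the class
-/

set_option autoImplicit false

namespace Pool.Agent.PFS

open Finset Pool.Agent.Lib27 Pool.Agent.SapR Pool.Agent.Gap Pool.Agent.FL Pool.Agent.EXW
  Pool.Agent.AreaLaw Pool.Agent.FS
open Pool.Agent.PFW (Mp)

namespace BKERx

/-! ### The critical weight -/

theorem crit_uniq {n : ℕ} {s a b : ℝ} (hs : 0 < s) (ha : Crit n s a) (hb : Crit n s b) :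
    a = b := by
  have key : ∀ a b : ℝ, 0 < a → a < b →
      ∑ p ∈ Pc (2 * n - 1), a ^ hl p * s ^ (hl p - htn p) = 1 →
      ∑ p ∈ Pc (2 * n - 1), b ^ hl p * s ^ (hl p - htn p) = 1 → False := by
    intro a b ha hab h1 h2
    have hne : (Pc (2 * n - 1)).Nonempty := by
      by_contra hE
      rw [Finset.not_nonempty_iff_eq_empty] at hE
      rw [hE] at h1
      simp at h1
    have : ∑ p ∈ Pc (2 * n - 1), a ^ hl p * s ^ (hl p - htn p) <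
        ∑ p ∈ Pc (2 * n - 1), b ^ hl p * s ^ (hl p - htn p) := by
      refine Finset.sum_lt_sum_of_nonempty hne fun p hp => ?_
      refine mul_lt_mul_of_pos_right ?_ (pow_pos hs _)
      exact pow_lt_pow_left₀ hab ha.le (by have := (FL.KW.len_hl hp).2.1; omega)
    rw [h1, h2] at this
    exact lt_irrefl _ this
  by_contra hne
  rcases lt_or_gt_of_ne hne with h | h
  · exact key a b ha.1 h ha.2 hb.2
  · exact key b a hb.1 h hb.2 ha.2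

theorem crit_Kf (h3 : HG_Stmt) (n : ℕ) (f : ℝ) : Crit n (Real.exp (-f)) (Kf n f).rho :=
  ⟨(Kf n f).rho_pos, FL.KW.kern_crit h3 _ _ _⟩

/-! ### The classes -/

theorem cls_Kf (h2 : MGI2_Stmt) (h3 : HG_Stmt) {C : ℝ} {n : ℕ} {f : ℝ} (hC : 100 ≤ C)
    (hn : 1 ≤ n) (hf : 0 < f) (hT : Tails C (1 - C⁻¹) n (Real.exp (-f)) (Kf n f).rho) :
    Cls C (1 - C⁻¹) (Kf n f) ∧
      ClsCap C (1 - C⁻¹) (Kf n f) (2 * n) (capW n (Real.exp (-f))) := by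
  have hs : 0 < Real.exp (-f) := Real.exp_pos _
  have hs1 : Real.exp (-f) ≤ 1 := by
    rw [Real.exp_le_one_iff]; linarith
  have hrho := h2.2 n (Real.exp (-f)) (Kf n f).rho hn hs hs1 (Kf n f).rho_pos
    (crit_Kf h3 n f).2
  have hCi : C⁻¹ ≤ 1 / 100 := by
    rw [← one_div]
    exact one_div_le_one_div_of_le (by norm_num) hC
  refine ⟨⟨FL.KW.kern_loc _ _ _, hCi.trans hrho.1, ?_⟩,
    ⟨FL.KW.isCap n _ hn hs, ?_, FL.KW.cap_supp n _, ?_⟩⟩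
  · intro m
    have h4 := hT.1 m
    rw [← Finset.mul_sum] at h4 ⊢
    have h5 : ∑ i ∈ (Kf n f).S.filter (fun i => i.1 = m), (Kf n f).tot i =
        ∑ p ∈ (Pc (2 * n - 1)).filter (fun p => hl p = m), Real.exp (-f) ^ (m - htn p) :=
      FL.KW.kern_level h3 _ _ _ m
    rw [h5]
    exact h4
  · exact (hCi.trans (by norm_num)).trans (FL.KW.cap_one n _ hn hs)
  · intro m
    have h4 := hT.2.1 m
    refine le_trans (le_of_eq ?_) h4
    refine Finset.sum_congr rfl fun g hg => ?_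
    rw [Finset.mem_Icc] at hg
    unfold capW
    rw [if_pos hg.1, Finset.mul_sum]

/-! ### The moments -/

theorem tot_nonneg (G : GapKernel) (i : ℕ × ℕ) : 0 ≤ G.tot i :=
  Finset.sum_nonneg fun d _ => G.T_nonneg i d

theorem w_nonneg (G : GapKernel) (i : ℕ × ℕ) : 0 ≤ G.rho ^ i.1 * G.tot i :=
  mul_nonneg (pow_nonneg G.rho_pos.le _) (tot_nonneg G i)

theorem hbar_ge (G : GapKernel) : 1 ≤ G.hbar := by
  have h : ∑ i ∈ G.S, G.rho ^ i.1 * G.tot i = 1 := G.crit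
  rw [← h]
  unfold GapKernel.hbar
  refine Finset.sum_le_sum fun i hi => ?_
  have h1 : (1 : ℝ) ≤ (i.2 : ℝ) := by exact_mod_cast (G.pos_mem i hi).2
  have h2 := w_nonneg G i
  calc G.rho ^ i.1 * G.tot i = 1 * (G.rho ^ i.1 * G.tot i) := (one_mul _).symm
    _ ≤ (i.2 : ℝ) * (G.rho ^ i.1 * G.tot i) := mul_le_mul_of_nonneg_right h1 h2
    _ = _ := by ring

theorem hbar_le {G : GapKernel} (hG : Loc G) : G.hbar ≤ G.mbar := by
  unfold GapKernel.hbar GapKernel.mbar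
  refine Finset.sum_le_sum fun i hi => ?_
  have h1 : (i.2 : ℝ) ≤ (i.1 : ℝ) := by exact_mod_cast hG.h_le i hi
  have h2 := w_nonneg G i
  rw [mul_assoc, mul_assoc]
  exact mul_le_mul_of_nonneg_right h1 h2

theorem tot_tok {n : ℕ} {s : ℝ} (hs : 0 < s) {i : ℕ × ℕ} {d : ℤ} {t : Wd × Wd}
    (ht : t ∈ M41.PcT (2 * n - 1) i d) (hd : d ∈ Icc (-((2 * n - 1 + 2 : ℕ) : ℤ))
      (2 * n - 1 + 2 : ℕ)) :
    s ^ (i.1 - i.2) ≤ (FL.KW.kern (2 * n - 1) s hs).tot i := by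
  rw [FL.KW.kern_tot]
  have h1 : (1 : ℝ) ≤ ((M41.PcT (2 * n - 1) i d).card : ℝ) := by
    exact_mod_cast Finset.card_pos.2 ⟨t, ht⟩
  have h2 := Finset.single_le_sum (f := fun d : ℤ => ((M41.PcT (2 * n - 1) i d).card : ℝ))
    (s := Icc (-((2 * n - 1 + 2 : ℕ) : ℤ)) (2 * n - 1 + 2 : ℕ)) (fun d _ => Nat.cast_nonneg _) hd
  calc s ^ (i.1 - i.2) = s ^ (i.1 - i.2) * 1 := (mul_one _).symm
    _ ≤ _ := mul_le_mul_of_nonneg_left (h1.trans h2) (pow_nonneg hs.le _)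

theorem tok1 {n : ℕ} (hn : 6 ≤ n) : tk1 ∈ M41.PcT (2 * n - 1) (6, 4) 2 := by
  rw [M41.mem_PcT]
  have h1 := ((M41.mem_allowed _ _ _).1 (SKEL.tk1_mem (2 * n - 1) (by omega) 1 le_rfl)).1
  exact ⟨h1, by decide, SKEL.tk1_ht, SKEL.tk1_jump⟩

theorem tok2 {n : ℕ} (hn : 6 ≤ n) : tk2 ∈ M41.PcT (2 * n - 1) (6, 3) 2 := by
  rw [M41.mem_PcT]
  have h1 := ((M41.mem_allowed _ _ _).1 (SKEL.tk2_mem (2 * n - 1) (by omega) 1 le_rfl)).1
  exact ⟨h1, by decide, SKEL.tk2_ht, SKEL.tk2_jump⟩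

/-- the lower bound of the variance -/
theorem var_ge {n : ℕ} {f f1 v : ℝ} (hn : 6 ≤ n) (hf : 0 < f) (hf1 : f ≤ f1)
    (hr : 1 / 100 ≤ (Kf n f).rho) :
    (1 / 100) ^ 6 * Real.exp (-f1) ^ 3 / 2 ≤
      ∑ i ∈ (Kf n f).S, (Kf n f).rho ^ i.1 * (Kf n f).tot i * ((i.2 : ℝ) - v * i.1) ^ 2 := by
  have hs : 0 < Real.exp (-f) := Real.exp_pos _
  have hs1 : Real.exp (-f) ≤ 1 := by
    rw [Real.exp_le_one_iff]; linarith
  have hse : Real.exp (-f1) ≤ Real.exp (-f) := Real.exp_le_exp.2 (by linarith)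
  have hd : (2 : ℤ) ∈ Icc (-((2 * n - 1 + 2 : ℕ) : ℤ)) (2 * n - 1 + 2 : ℕ) := by
    rw [Finset.mem_Icc]
    constructor <;> omega
  have e1 : Real.exp (-f) ^ 2 ≤ (Kf n f).tot (6, 4) := tot_tok hs (tok1 hn) hd
  have e2 : Real.exp (-f) ^ 3 ≤ (Kf n f).tot (6, 3) := tot_tok hs (tok2 hn) hd
  have hS : (Kf n f).S = FL.KW.SS (2 * n - 1) := rfl
  have hsub : ({(6, 4), (6, 3)} : Finset (ℕ × ℕ)) ⊆ (Kf n f).S := by
    intro i hi
    rw [Finset.mem_insert, Finset.mem_singleton] at hi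
    rw [hS, FL.KW.mem_SS]
    rcases hi with rfl | rfl
    · simp only
      omega
    · simp only
      omega
  have h1 : ∑ i ∈ ({(6, 4), (6, 3)} : Finset (ℕ × ℕ)),
      (Kf n f).rho ^ i.1 * (Kf n f).tot i * ((i.2 : ℝ) - v * i.1) ^ 2 ≤
      ∑ i ∈ (Kf n f).S, (Kf n f).rho ^ i.1 * (Kf n f).tot i * ((i.2 : ℝ) - v * i.1) ^ 2 := by
    refine Finset.sum_le_sum_of_subset_of_nonneg hsub fun i _ _ => ?_
    exact mul_nonneg (w_nonneg _ i) (sq_nonneg _)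
  refine le_trans ?_ h1
  rw [Finset.sum_insert (by decide), Finset.sum_singleton]
  simp only [Nat.cast_ofNat]
  have hr6 : (1 / 100 : ℝ) ^ 6 ≤ (Kf n f).rho ^ 6 := pow_le_pow_left₀ (by norm_num) hr 6
  have hs3 : Real.exp (-f1) ^ 3 ≤ Real.exp (-f) ^ 3 :=
    pow_le_pow_left₀ (Real.exp_pos _).le hse 3
  have hs32 : Real.exp (-f) ^ 3 ≤ Real.exp (-f) ^ 2 :=
    pow_le_pow_of_le_one hs.le hs1 (by norm_num)
  have hρ6 : 0 ≤ (Kf n f).rho ^ 6 := pow_nonneg (Kf n f).rho_pos.le 6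
  have e3 : (1 / 100) ^ 6 * Real.exp (-f1) ^ 3 ≤ (Kf n f).rho ^ 6 * (Kf n f).tot (6, 4) :=
    mul_le_mul hr6 (hs3.trans (hs32.trans e1)) (by positivity) hρ6
  have e4 : (1 / 100) ^ 6 * Real.exp (-f1) ^ 3 ≤ (Kf n f).rho ^ 6 * (Kf n f).tot (6, 3) :=
    mul_le_mul hr6 (hs3.trans e2) (by positivity) hρ6
  have hc : 0 ≤ (1 / 100 : ℝ) ^ 6 * Real.exp (-f1) ^ 3 := by positivity
  have e5 := mul_le_mul_of_nonneg_right e3 (sq_nonneg ((4 : ℝ) - v * 6))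
  have e6 := mul_le_mul_of_nonneg_right e4 (sq_nonneg ((3 : ℝ) - v * 6))
  have e7 : 1 / 2 ≤ ((4 : ℝ) - v * 6) ^ 2 + ((3 : ℝ) - v * 6) ^ 2 := by
    nlinarith [sq_nonneg ((7 : ℝ) - 12 * v)]
  have e8 := mul_le_mul_of_nonneg_left e7 hc
  linarith

/-- the upper bound of the variance -/
theorem var_le {G : GapKernel} (hG : Loc G) {v : ℝ} (hv0 : 0 ≤ v) (hv1 : v ≤ 1) :
    ∑ i ∈ G.S, G.rho ^ i.1 * G.tot i * ((i.2 : ℝ) - v * i.1) ^ 2 ≤
      ∑ i ∈ G.S, (i.1 : ℝ) ^ 2 * (G.rho ^ i.1 * G.tot i) := by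
  refine Finset.sum_le_sum fun i hi => ?_
  rw [mul_comm ((i.1 : ℝ) ^ 2)]
  refine mul_le_mul_of_nonneg_left ?_ (w_nonneg G i)
  have h1 : (i.2 : ℝ) ≤ (i.1 : ℝ) := by exact_mod_cast hG.h_le i hi
  have h2 : (0 : ℝ) ≤ (i.2 : ℝ) := Nat.cast_nonneg _
  have h3 : (0 : ℝ) ≤ (i.1 : ℝ) := Nat.cast_nonneg _
  refine sq_le_sq' ?_ ?_
  · nlinarith
  · nlinarith

theorem mbar_eq (G : GapKernel) :
    G.mbar = ∑ i ∈ G.S, (i.1 : ℝ) ^ 1 * (G.rho ^ i.1 * G.tot i) := by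
  unfold GapKernel.mbar
  refine Finset.sum_congr rfl fun i _ => ?_
  rw [pow_one, mul_assoc]

end BKERx

open BKERx in
theorem t_BKER (h1 : PTL_Stmt) (h2 : MGI2_Stmt) (h3 : HG_Stmt) : BKER_Stmt := by
  intro f1 hf1
  obtain ⟨a0, ha0, N0, hN0, hP⟩ := h1
  obtain ⟨K1, hK1⟩ := sum_pow 1
  obtain ⟨K2, hK2⟩ := sum_pow 2
  obtain ⟨c, hc⟩ : ∃ c : ℝ, c = (1 / 100) ^ 6 * Real.exp (-f1) ^ 3 / 2 := ⟨_, rfl⟩
  have hc0 : 0 < c := by
    rw [hc]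
    positivity
  obtain ⟨a2, ha2⟩ := exists_nat_ge (2 / c)
  obtain ⟨K, hK⟩ : ∃ K : ℕ, K = K1 + K2 + 1 := ⟨_, rfl⟩
  obtain ⟨A1, hA1⟩ : ∃ A1 : ℕ, A1 = max a0 100 := ⟨_, rfl⟩
  obtain ⟨B, hB⟩ : ∃ B : ℕ, B = max (A1 * K) (max a2 2) := ⟨_, rfl⟩
  have hA1a : a0 ≤ A1 := by rw [hA1]; exact le_max_left _ _
  have hA1b : 100 ≤ A1 := by rw [hA1]; exact le_max_right _ _
  have hA12 : 2 ≤ A1 := by omega
  have hKone : 1 ≤ K := by omega
  have hB1 : A1 * K ≤ B := by rw [hB]; exact le_max_left _ _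
  have hB2 : a2 ≤ B := by rw [hB]; exact (le_max_left _ _).trans (le_max_right _ _)
  have hB3 : 2 ≤ B := by rw [hB]; exact (le_max_right _ _).trans (le_max_right _ _)
  have hA1K : A1 ≤ A1 * K := Nat.le_mul_of_pos_right A1 hKone
  have hAK2 : 2 ≤ A1 * K := hA12.trans hA1K
  refine ⟨B * 2, by omega, fun A hA => ⟨max N0 6, fun n f hn hf hff hM => ?_⟩⟩
  have hn0 : N0 ≤ n := (le_max_left _ _).trans hn
  have hn6 : 6 ≤ n := (le_max_right _ _).trans hn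
  have hA1A : A1 ≤ A := by omega
  have hMA1 : Mp A1 f ≤ Mp A f := PFW.Mp_mono hA12 hA1A hf
  have hM1 : Mp A1 f ≤ n := hMA1.trans hM
  have hcr := crit_Kf h3 n f
  have h100 : (100 : ℝ) ≤ Mp A1 f := by
    have e1 : (100 : ℝ) ≤ A1 := by exact_mod_cast hA1b
    exact e1.trans (PFW.A_le_Mp hA12 hf)
  have hT1 := hP A1 hA1a n f _ hn0 hf hM1 hcr
  have hTA := hP A (hA1a.trans hA1A) n f _ hn0 hf hM hcr
  obtain ⟨hc1, -⟩ := cls_Kf h2 h3 h100 (by omega) hf hT1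
  obtain ⟨hcA, hcapA⟩ := cls_Kf h2 h3 (h100.trans hMA1) (by omega) hf hTA
  have hD1 : (2 : ℝ) ≤ Mp A1 f := by linarith
  -- the key inequality
  have hMB : Mp A1 f ^ K ≤ Mp B f :=
    (PFW.Mp_pow hA12 hKone hf).trans (PFW.Mp_mono hAK2 hB1 hf)
  have hcB : 2 / c ≤ Mp B f := by
    have e1 : (a2 : ℝ) ≤ B := by exact_mod_cast hB2
    exact ha2.trans (e1.trans (PFW.A_le_Mp hB3 hf))
  have hB2le : (2 : ℝ) ≤ Mp B f := PFW.two_le_Mp hB3 hf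
  have hBA : Mp B f ^ 2 ≤ Mp A f :=
    (PFW.Mp_pow hB3 (by norm_num) hf).trans (PFW.Mp_mono (by omega) hA hf)
  have hDK0 : 0 < Mp A1 f ^ K := by positivity
  have key1 : 2 / c * Mp A1 f ^ K ≤ Mp A f := by
    refine le_trans ?_ hBA
    rw [sq]
    exact mul_le_mul hcB hMB hDK0.le (by linarith)
  have key2 : Mp A1 f ^ K ≤ Mp A f := by
    refine hMB.trans (le_trans ?_ hBA)
    nlinarith
  -- the moments
  have hloc : Loc (Kf n f) := hc1.loc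
  have hh1 := hbar_ge (Kf n f)
  have hhm := hbar_le hloc
  have hm1 : 1 ≤ (Kf n f).mbar := hh1.trans hhm
  have hm0 : 0 < (Kf n f).mbar := by linarith
  have hone : (1 : ℝ) ≤ Mp A1 f := by linarith
  have hmK : (Kf n f).mbar ≤ Mp A1 f ^ K := by
    rw [mbar_eq]
    exact (hK1 _ hD1 _ hc1).trans (pow_le_pow_right₀ hone (by omega))
  have hv0 : 0 ≤ vf n f := by
    unfold vf
    exact div_nonneg (by linarith) hm0.le
  have hv1 : vf n f ≤ 1 := by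
    unfold vf
    exact (div_le_one hm0).2 hhm
  have hrho := (h2.2 n (Real.exp (-f)) (Kf n f).rho (by omega) (Real.exp_pos _) (by
    rw [Real.exp_le_one_iff]; linarith) (Kf n f).rho_pos hcr.2).1
  have hvar1 := var_ge (v := vf n f) hn6 hf hff hrho
  rw [← hc] at hvar1
  have hvar2 : ∑ i ∈ (Kf n f).S, (Kf n f).rho ^ i.1 * (Kf n f).tot i *
      ((i.2 : ℝ) - vf n f * i.1) ^ 2 ≤ Mp A1 f ^ K :=
    (var_le hloc hv0 hv1).trans ((hK2 _ hD1 _ hc1).trans (pow_le_pow_right₀ hone (by omega)))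
  have hMA0 : 0 < Mp A f := by linarith
  have hkge : (Mp A f)⁻¹ ≤ kf n f := by
    unfold kf
    rw [inv_le_comm₀ hMA0 (div_pos (lt_of_lt_of_le hc0 hvar1) (by linarith)), inv_div,
      div_le_iff₀ (lt_of_lt_of_le hc0 hvar1)]
    have e1 : Mp A f * c ≤ Mp A f * ∑ i ∈ (Kf n f).S, (Kf n f).rho ^ i.1 * (Kf n f).tot i *
        ((i.2 : ℝ) - vf n f * i.1) ^ 2 := mul_le_mul_of_nonneg_left hvar1 hMA0.le
    refine le_trans ?_ e1
    have e2 := mul_le_mul_of_nonneg_right key1 hc0.le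
    have e3 : 2 / c * Mp A1 f ^ K * c = 2 * Mp A1 f ^ K := by
      field_simp
    rw [e3] at e2
    linarith
  refine ⟨⟨hcA, ?_, ?_, hkge⟩, hcapA, ?_, hv1, ?_, hcr, fun rho hr =>
    crit_uniq (Real.exp_pos _) hr hcr⟩
  · unfold vf
    field_simp
  · unfold kf
    field_simp
  · unfold vf
    rw [inv_eq_one_div, div_le_div_iff₀ hMA0 hm0]
    have e1 : (Kf n f).mbar ≤ Mp A f := hmK.trans key2
    nlinarith
  · unfold kf
    rw [div_le_iff₀ (by linarith)]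
    have e1 : Mp A f * 1 ≤ Mp A f * (2 * (Kf n f).mbar) :=
      mul_le_mul_of_nonneg_left (by linarith) hMA0.le
    linarith [hvar2.trans key2]

end Pool.Agent.PFS
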