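import Pool.Agent.PFS.StmtsC

/-!
# Project PFS (MP_f6626d_co), module BLC: moments in the classes
-/

set_option autoImplicit false

namespace Pool.Agent.PFS

open Finset Filter Topology MeasureTheory
open Pool.Agent.Lib27 Pool.Agent.SapR Pool.Agent.Gap Pool.Agent.AreaLaw Pool.Agent.FL
open Pool.Agent.FS
open Pool.Agent.PFW (Mp CritW)

namespace BLC

lemma geo_le {s : ℝ} (hs : 0 < s) (hs1 : s < 1) (N : ℕ) :
    ∑ i ∈ Finset.range N, s ^ i ≤ 1 / (1 - s) := by
  rw [le_div_iff₀ (by linarith), geom_sum_mul_neg]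
  have := pow_pos hs N
  linarith

lemma wtq_nonneg (n : ℕ) {s : ℝ} (hs : 0 ≤ s) (q : QI) : 0 ≤ wtq n s q := by
  unfold wtq
  positivity

open Classical in
lemma key (h3 : Pool.Agent.FL.HG_Stmt) {n : ℕ} {s : ℝ} (hs : 0 < s) (hs1 : s < 1) {F : QI → ℝ}
    (hF : ∀ q, 0 ≤ F q) {X : ℝ}
    (hX : ∀ k : ℕ, ∑ q ∈ (Omn n).filter (fun q => sp q = k), wtq n s q * F q ≤ X) (h : ℕ)
    (b : Bool) :
    s ^ (n - h) * ∑ q ∈ (Omn n).filter (fun q => inC b h (sp q)), F q ≤ 1 / (1 - s) * X := by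
  have hX0 : 0 ≤ X := (Finset.sum_nonneg fun q _ =>
    mul_nonneg (wtq_nonneg n hs.le q) (hF q)).trans (hX 0)
  have h0 : ∀ q ∈ (Omn n).filter (fun q => h ≤ sp q),
      s ^ (n - h) * F q = s ^ (sp q - h) * (wtq n s q * F q) := by
    intro q hq
    rw [Finset.mem_filter] at hq
    have h4 : sp q ≤ n := height_le h3 n q hq.1
    have h5 : n - h = (sp q - h) + (n - sp q) := by omega
    have h6 : wtq n s q = s ^ (n - sp q) := rfl
    rw [h5, pow_add, h6]
    ring
  have hsub : (Omn n).filter (fun q => inC b h (sp q)) ⊆ (Omn n).filter (fun q => h ≤ sp q) := by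
    intro q hq
    rw [Finset.mem_filter] at hq ⊢
    refine ⟨hq.1, ?_⟩
    rcases hq.2 with h4 | h4
    · exact h4.2.ge
    · exact h4.2
  have h1 : ∑ q ∈ (Omn n).filter (fun q => inC b h (sp q)), F q
      ≤ ∑ q ∈ (Omn n).filter (fun q => h ≤ sp q), F q :=
    Finset.sum_le_sum_of_subset_of_nonneg hsub fun q _ _ => hF q
  have hmaps : ∀ q ∈ (Omn n).filter (fun q => h ≤ sp q), sp q ∈ Finset.Ico h (n + 1) := by
    intro q hq
    rw [Finset.mem_filter] at hq
    have h4 : sp q ≤ n := height_le h3 n q hq.1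
    rw [Finset.mem_Ico]
    exact ⟨hq.2, by omega⟩
  calc s ^ (n - h) * ∑ q ∈ (Omn n).filter (fun q => inC b h (sp q)), F q
      ≤ s ^ (n - h) * ∑ q ∈ (Omn n).filter (fun q => h ≤ sp q), F q :=
        mul_le_mul_of_nonneg_left h1 (pow_nonneg hs.le _)
    _ = ∑ q ∈ (Omn n).filter (fun q => h ≤ sp q), s ^ (sp q - h) * (wtq n s q * F q) := by
        rw [Finset.mul_sum]
        exact Finset.sum_congr rfl h0
    _ = ∑ k ∈ Finset.Ico h (n + 1), ∑ q ∈ ((Omn n).filter (fun q => h ≤ sp q)).filter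
          (fun q => sp q = k), s ^ (sp q - h) * (wtq n s q * F q) :=
        (Finset.sum_fiberwise_of_maps_to hmaps _).symm
    _ ≤ ∑ k ∈ Finset.Ico h (n + 1), s ^ (k - h) * X := by
        refine Finset.sum_le_sum fun k hk => ?_
        have e1 : ∑ q ∈ ((Omn n).filter (fun q => h ≤ sp q)).filter
            (fun q => sp q = k), s ^ (sp q - h) * (wtq n s q * F q)
            = s ^ (k - h) * ∑ q ∈ ((Omn n).filter (fun q => h ≤ sp q)).filter
              (fun q => sp q = k), wtq n s q * F q := by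
          rw [Finset.mul_sum]
          refine Finset.sum_congr rfl fun q hq => ?_
          rw [(Finset.mem_filter.1 hq).2]
        rw [e1]
        refine mul_le_mul_of_nonneg_left ?_ (pow_nonneg hs.le _)
        refine le_trans ?_ (hX k)
        refine Finset.sum_le_sum_of_subset_of_nonneg ?_ fun q _ _ =>
          mul_nonneg (wtq_nonneg n hs.le q) (hF q)
        intro q hq
        rw [Finset.mem_filter, Finset.mem_filter] at hq
        rw [Finset.mem_filter]
        exact ⟨hq.1.1, hq.2⟩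
    _ = (∑ i ∈ Finset.range (n + 1 - h), s ^ i) * X := by
        rw [Finset.sum_Ico_eq_sum_range, Finset.sum_mul]
        refine Finset.sum_congr rfl fun i _ => ?_
        rw [Nat.add_sub_cancel_left]
    _ ≤ 1 / (1 - s) * X := mul_le_mul_of_nonneg_right (geo_le hs hs1 _) hX0

lemma inv_le {f : ℝ} (hf : 0 < f) : 1 / (1 - Real.exp (-f)) ≤ Mp 2 f ^ 1 := by
  have h1 : 0 < min f 1 := lt_min hf one_pos
  have h2 : min f 1 ≤ 1 := min_le_right _ _
  have h3 : min f 1 ≤ f := min_le_left _ _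
  have h4 : Real.exp (-f) ≤ 1 / (1 + f) := by
    rw [Real.exp_neg, ← one_div]
    refine one_div_le_one_div_of_le (by linarith) ?_
    have := Real.add_one_le_exp f
    linarith
  have h5 : min f 1 / 2 ≤ 1 - Real.exp (-f) := by
    have h6 : 1 - 1 / (1 + f) = f / (1 + f) := by
      field_simp
      ring
    have h7 : min f 1 / 2 ≤ f / (1 + f) := by
      rw [div_le_div_iff₀ (by norm_num) (by linarith)]
      nlinarith
    linarith
  have h6 : 1 / (1 - Real.exp (-f)) ≤ 2 / min f 1 := by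
    have h7 : 1 / (1 - Real.exp (-f)) ≤ 1 / (min f 1 / 2) :=
      one_div_le_one_div_of_le (by positivity) h5
    rwa [one_div_div] at h7
  have h7 : (1 : ℝ) ≤ 2 / min f 1 := by
    rw [le_div_iff₀ h1]
    linarith
  refine h6.trans ?_
  unfold Mp
  rw [pow_one]
  push_cast
  nlinarith

end BLC

theorem t_BLC (h1 : BLP_Stmt) (h2 : SLOWN_Stmt) (h3 : FL.HG_Stmt) : BLC_Stmt := by
  intro f1 p δ hδ
  obtain ⟨c, hc, N, hN⟩ := h1 f1 p (δ / 2) (half_pos hδ)
  obtain ⟨c', hc', N', hN'⟩ := h2 2 1 le_rfl (δ / 2) (half_pos hδ)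
  refine ⟨min c c', lt_min hc hc', max (max N N') 1, fun n hn f hf hf1 h hh b => ?_⟩
  have hn1 : 1 ≤ n := (le_max_right _ _).trans hn
  have hnN : N ≤ n := (le_max_left _ _).trans ((le_max_left _ _).trans hn)
  have hnN' : N' ≤ n := (le_max_right _ _).trans ((le_max_left _ _).trans hn)
  obtain ⟨hf0, hM⟩ := hN' n hnN' f (win_mono (min_le_right _ _) hn1 hf)
  have hB := hN n hnN f (win_mono (min_le_left _ _) hn1 hf) hf1
  have hs : 0 < Real.exp (-f) := Real.exp_pos _
  have hs1 : Real.exp (-f) < 1 := Real.exp_lt_one_iff.2 (by linarith)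
  have hnpos : (0 : ℝ) < n := by exact_mod_cast hn1
  have hZ : 0 ≤ Zq n (Real.exp (-f)) :=
    Finset.sum_nonneg fun q _ => BLC.wtq_nonneg n hs.le q
  have hI : 1 / (1 - Real.exp (-f)) ≤ (n : ℝ) ^ (δ / 2) := (BLC.inv_le hf0).trans hM
  have hfin : ∀ Y : ℝ, 0 ≤ Y → 1 / (1 - Real.exp (-f)) * ((n : ℝ) ^ (-(1 / 2) + δ / 2) * Y)
      ≤ (n : ℝ) ^ (-(1 / 2) + δ) * Y := by
    intro Y hY
    have e : (n : ℝ) ^ (-(1 / 2) + δ) = (n : ℝ) ^ (δ / 2) * (n : ℝ) ^ (-(1 / 2) + δ / 2) := by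
      rw [← Real.rpow_add hnpos]
      congr 1
      ring
    rw [e, mul_assoc]
    exact mul_le_mul_of_nonneg_right hI (mul_nonneg (Real.rpow_nonneg hnpos.le _) hY)
  constructor
  · refine (BLC.key h3 hs hs1 (F := fun q => (arq n q : ℝ) ^ p) (fun q => by positivity)
      (fun k => (hB k).1) h b).trans (hfin _ ?_)
    have : 0 ≤ sc n := by unfold sc; positivity
    positivity
  · refine (BLC.key h3 hs hs1 (F := fun q => |(|(dq q : ℝ)| - (arq n q : ℝ))| ^ p)
      (fun q => by positivity) (fun k => (hB k).2) h b).trans (hfin _ ?_)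
    positivity

end Pool.Agent.PFS
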