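import Pool.Agent.PFS.StmtsB
import Pool.Agent.Lib_helper74.FS.LOC
import Pool.Agent.Lib_helper74.FS.SMP

/-!
# PFS_BLU: upper bounds for the moments at fixed span (helper15)
-/

set_option autoImplicit false

namespace Pool.Agent.PFS.BLUx

open Finset Pool.Agent.Lib27 Pool.Agent.SapR Pool.Agent.Gap Pool.Agent.FL Pool.Agent.EXW Filter
  Topology Pool.Agent.AreaLaw Pool.Agent.FS
open Pool.Agent.PFW (Mp)

variable {n k : ℕ} {σ : Fin k → Sk}

lemma vsk_nonneg {s : ℝ} (hs : 0 < s) (a : Sk) : 0 ≤ vsk n s a := by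
  unfold vsk
  positivity

lemma Z_eq (h : IsSkel n k σ) (s : ℝ) : Zq n s = ∑ i, vsk n s (σ i) := by
  have h := LOC.key h s (fun _ _ _ => 1)
  simp only [mul_one] at h
  unfold Zq
  rw [h]
  refine sum_congr rfl fun i _ => ?_
  rw [LOC.rs_pow]
  rfl

/-- the general bound at fixed span -/
lemma core (h : IsSkel n k σ) (hS : SMP_Stmt) {s β W : ℝ} (hs : 0 < s) (hβ : 0 ≤ β)
    (hh : ℕ) (G : ℤ → ℤ → ℝ) (g R : Fin k → ℝ) (P : Fin k → Prop) [DecidablePred P]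
    (hg : ∀ i, 0 ≤ g i) (hR : ∀ i, vsk n s (σ i) * g i ≤ R i) (hR0 : ∀ i, 0 ≤ R i)
    (ha : ∀ i, ∀ j t : ℕ, j ≤ (σ i).l.length → t ≤ (σ i).l.sum → (j : ℤ) = (σ i).H - hh →
      G ((σ i).A - t) ((σ i).L - t + dlt * j) ≤ g i)
    (hbig : ∀ i, ¬ P i → bp (σ i).l.length (s / (1 + s)) ((σ i).H - hh) ≤ β)
    (hsmall : ∀ i, P i → g i ≤ W) :
    ∑ q ∈ (Omn n).filter (fun q => sp q = hh), wtq n s q * G (arq n q) (dq q) ≤
      β * ∑ i, R i + W * ∑ i ∈ univ.filter P, vsk n s (σ i) := by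
  rw [LOC.keyh h s hh G]
  have h1 : ∀ i : Fin k, s ^ (n - (σ i).H) * rs (σ i).l (fun j t => s ^ j *
      (if (j : ℤ) = (σ i).H - hh then G ((σ i).A - t) ((σ i).L - t + dlt * j) else 0)) ≤
      β * R i + W * (if P i then vsk n s (σ i) else 0) := by
    intro i
    have hv := vsk_nonneg (n := n) hs (σ i)
    by_cases hP : P i
    · rw [if_pos hP]
      have h2 : s ^ (n - (σ i).H) * rs (σ i).l (fun j t => s ^ j *
          (if (j : ℤ) = (σ i).H - hh then G ((σ i).A - t) ((σ i).L - t + dlt * j) else 0)) ≤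
          vsk n s (σ i) * g i := by
        unfold vsk
        rw [mul_assoc]
        refine mul_le_mul_of_nonneg_left ?_ (by positivity)
        rw [← LOC.rs_pow, mul_comm (rs (σ i).l _), ← rs_mul]
        refine rs_mono _ _ _ fun j t hj ht => ?_
        rw [mul_comm (g i)]
        refine mul_le_mul_of_nonneg_left ?_ (by positivity)
        split_ifs with hj2
        · exact ha i j t hj ht hj2
        · exact hg i
      have h3 : vsk n s (σ i) * g i ≤ vsk n s (σ i) * W :=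
        mul_le_mul_of_nonneg_left (hsmall i hP) hv
      have h4 : 0 ≤ β * R i := mul_nonneg hβ (hR0 i)
      linarith [mul_comm W (vsk n s (σ i))]
    · rw [if_neg hP, mul_zero, add_zero]
      have h2 : s ^ (n - (σ i).H) * rs (σ i).l (fun j t => s ^ j *
          (if (j : ℤ) = (σ i).H - hh then G ((σ i).A - t) ((σ i).L - t + dlt * j) else 0)) ≤
          vsk n s (σ i) * (bp (σ i).l.length (s / (1 + s)) ((σ i).H - hh) * g i) := by
        unfold vsk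
        rw [mul_assoc]
        refine mul_le_mul_of_nonneg_left ?_ (by positivity)
        rw [← LOC.rs_ind hS hs]
        refine rs_mono _ _ _ fun j t hj ht => ?_
        refine mul_le_mul_of_nonneg_left ?_ (by positivity)
        split_ifs with hj2
        · exact ha i j t hj ht hj2
        · exact le_rfl
      refine h2.trans ?_
      calc vsk n s (σ i) * (bp (σ i).l.length (s / (1 + s)) ((σ i).H - hh) * g i)
          ≤ vsk n s (σ i) * (β * g i) :=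
            mul_le_mul_of_nonneg_left (mul_le_mul_of_nonneg_right (hbig i hP) (hg i)) hv
        _ = β * (vsk n s (σ i) * g i) := by ring
        _ ≤ β * R i := mul_le_mul_of_nonneg_left (hR i) hβ
  refine (sum_le_sum fun i _ => h1 i).trans (le_of_eq ?_)
  rw [sum_add_distrib, ← mul_sum, ← mul_sum, sum_filter]

lemma exp_big (C : ℝ) (p : ℕ) : ∃ N : ℕ, ∀ n : ℕ, N ≤ n →
    (C * (n : ℝ) ^ 2) ^ p ≤ Real.exp (Real.sqrt n / 2) := by
  refine ⟨⌈C ^ p * 2 ^ (4 * p + 2) * ((4 * p + 2).factorial : ℝ)⌉₊, fun n hn => ?_⟩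
  have h1 : C ^ p * 2 ^ (4 * p + 2) * ((4 * p + 2).factorial : ℝ) ≤ n :=
    (Nat.le_ceil _).trans (by exact_mod_cast hn)
  have h2 := Real.pow_div_factorial_le_exp (Real.sqrt n / 2) (by positivity) (4 * p + 2)
  refine le_trans ?_ h2
  have h3 : (Real.sqrt n) ^ (4 * p + 2) = (n : ℝ) ^ (2 * p + 1) := by
    rw [show 4 * p + 2 = 2 * (2 * p + 1) by ring, pow_mul, Real.sq_sqrt (by positivity)]
  rw [div_pow, h3, mul_pow, ← pow_mul, le_div_iff₀ (by positivity), le_div_iff₀ (by positivity)]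
  calc C ^ p * (n : ℝ) ^ (2 * p) * ((4 * p + 2).factorial : ℝ) * 2 ^ (4 * p + 2)
      = (n : ℝ) ^ (2 * p) * (C ^ p * 2 ^ (4 * p + 2) * ((4 * p + 2).factorial : ℝ)) := by ring
    _ ≤ (n : ℝ) ^ (2 * p) * n := mul_le_mul_of_nonneg_left h1 (by positivity)
    _ = (n : ℝ) ^ (2 * p + 1) := by ring

lemma add_pow_le_two {a b : ℝ} (ha : 0 ≤ a) (hb : 0 ≤ b) (p : ℕ) :
    (a + b) ^ p ≤ 2 ^ p * (a ^ p + b ^ p) := by
  rcases le_total a b with h | h
  · calc (a + b) ^ p ≤ (2 * b) ^ p := pow_le_pow_left₀ (by linarith) (by linarith) p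
      _ = 2 ^ p * b ^ p := by rw [mul_pow]
      _ ≤ 2 ^ p * (a ^ p + b ^ p) :=
        mul_le_mul_of_nonneg_left (by linarith [pow_nonneg ha p]) (by positivity)
  · calc (a + b) ^ p ≤ (2 * a) ^ p := pow_le_pow_left₀ (by linarith) (by linarith) p
      _ = 2 ^ p * a ^ p := by rw [mul_pow]
      _ ≤ 2 ^ p * (a ^ p + b ^ p) :=
        mul_le_mul_of_nonneg_left (by linarith [pow_nonneg hb p]) (by positivity)

/-- part (1) -/
lemma part1 (h : IsSkel n k σ) (hS : SMP_Stmt) {s β : ℝ} (hs : 0 < s) (hβ : 0 ≤ β) (p : ℕ)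
    (hh : ℕ) (P : Fin k → Prop) [DecidablePred P]
    (hbig : ∀ i, ¬ P i → bp (σ i).l.length (s / (1 + s)) ((σ i).H - hh) ≤ β) :
    ∑ q ∈ (Omn n).filter (fun q => sp q = hh), wtq n s q * (arq n q : ℝ) ^ p ≤
      β * ((4 / 3) ^ p * ∑ q ∈ Omn n, wtq n s q * (arq n q : ℝ) ^ p) +
        (2 * (n : ℝ) ^ 2) ^ p * ∑ i ∈ univ.filter P, vsk n s (σ i) := by
  have hA : ∀ i, ∀ t : ℕ, t ≤ (σ i).l.sum →
      (3 / 4 * ((σ i).A : ℝ) ≤ ((((σ i).A : ℤ) - (t : ℤ) : ℤ) : ℝ)) ∧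
      ((((σ i).A : ℤ) - (t : ℤ) : ℤ) : ℝ) ≤ ((σ i).A : ℝ) := by
    intro i t ht
    have h1 := h.sum_le i
    have h2 : (4 * t : ℝ) ≤ (σ i).A := by exact_mod_cast (by omega : 4 * t ≤ (σ i).A)
    have h3 : (0 : ℝ) ≤ t := Nat.cast_nonneg t
    push_cast
    constructor <;> linarith
  have h1 := core h hS (s := s) (β := β) (W := (2 * (n : ℝ) ^ 2) ^ p) hs hβ hh
    (fun b _ => (b : ℝ) ^ p) (fun i => ((σ i).A : ℝ) ^ p)
    (fun i => (4 / 3) ^ p * (s ^ (n - (σ i).H) * rs (σ i).l (fun j t => s ^ j *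
      ((((σ i).A : ℤ) - (t : ℤ) : ℤ) : ℝ) ^ p))) P ?_ ?_ ?_ ?_ hbig ?_
  · have h2 := LOC.key h s (fun _ b _ => (b : ℝ) ^ p)
    simp only [Int.cast_natCast] at h1 h2
    rw [h2]
    refine h1.trans (le_of_eq ?_)
    rw [← mul_sum]
  · intro i
    positivity
  · intro i
    unfold vsk
    rw [mul_assoc, mul_left_comm ((4 / 3 : ℝ) ^ p)]
    refine mul_le_mul_of_nonneg_left ?_ (by positivity)
    rw [← LOC.rs_pow, mul_comm (rs (σ i).l _), ← rs_mul, ← rs_mul]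
    refine rs_mono _ _ _ fun j t hj ht => ?_
    have h3 : ((σ i).A : ℝ) ^ p ≤ (4 / 3) ^ p * ((((σ i).A : ℤ) - (t : ℤ) : ℤ) : ℝ) ^ p := by
      rw [← mul_pow]
      refine pow_le_pow_left₀ (by positivity) ?_ p
      have := (hA i t ht).1
      linarith
    calc ((σ i).A : ℝ) ^ p * s ^ j
        ≤ ((4 / 3) ^ p * ((((σ i).A : ℤ) - (t : ℤ) : ℤ) : ℝ) ^ p) * s ^ j :=
          mul_le_mul_of_nonneg_right h3 (by positivity)
      _ = _ := by ring
  · intro i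
    have h4 : 0 ≤ rs (σ i).l (fun j t => s ^ j * ((((σ i).A : ℤ) - (t : ℤ) : ℤ) : ℝ) ^ p) := by
      refine rs_nonneg _ _ fun j t hj ht => ?_
      have h5 : (0 : ℝ) ≤ ((((σ i).A : ℤ) - (t : ℤ) : ℤ) : ℝ) :=
        le_trans (show (0 : ℝ) ≤ 3 / 4 * ((σ i).A : ℝ) by positivity) (hA i t ht).1
      positivity
    positivity
  · intro i j t hj ht _
    have h5 : (0 : ℝ) ≤ ((((σ i).A : ℤ) - (t : ℤ) : ℤ) : ℝ) :=
      le_trans (show (0 : ℝ) ≤ 3 / 4 * ((σ i).A : ℝ) by positivity) (hA i t ht).1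
    exact pow_le_pow_left₀ h5 (hA i t ht).2 p
  · intro i _
    refine pow_le_pow_left₀ (by positivity) ?_ p
    exact_mod_cast h.A_le i

/-- part (2) -/
lemma part2 (h : IsSkel n k σ) (hS : SMP_Stmt) {s β : ℝ} (hs : 0 < s) (hβ : 0 ≤ β) (p : ℕ)
    (hn : 1 ≤ n) (hh : ℕ) (P : Fin k → Prop) [DecidablePred P]
    (hbig : ∀ i, ¬ P i → bp (σ i).l.length (s / (1 + s)) ((σ i).H - hh) ≤ β) :
    ∑ q ∈ (Omn n).filter (fun q => sp q = hh), wtq n s q *
        |(dq q : ℝ) - (arq n q : ℝ)| ^ p ≤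
      β * (2 ^ p * (∑ q ∈ Omn n, wtq n s q * |(dq q : ℝ) - (arq n q : ℝ)| ^ p +
        (|(dlt : ℝ)| * n) ^ p * Zq n s)) +
        ((6 + |(dlt : ℝ)|) * (n : ℝ) ^ 2) ^ p * ∑ i ∈ univ.filter P, vsk n s (σ i) := by
  have hn1 : (1 : ℝ) ≤ n := by exact_mod_cast hn
  have hd := abs_nonneg (dlt : ℝ)
  -- the value at `m`
  have hx : ∀ i, ∀ m j : ℝ, 0 ≤ m → m ≤ n → 0 ≤ j → j ≤ n →
      |((σ i).L : ℝ) - ((σ i).A : ℝ) + dlt * m| ^ p ≤
        2 ^ p * (|((σ i).L : ℝ) - ((σ i).A : ℝ) + dlt * j| ^ p + (|(dlt : ℝ)| * n) ^ p) := by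
    intro i m j hm0 hm1 hj0 hj1
    have e : ((σ i).L : ℝ) - ((σ i).A : ℝ) + dlt * m =
        (((σ i).L : ℝ) - ((σ i).A : ℝ) + dlt * j) + dlt * (m - j) := by ring
    have h2 : |((σ i).L : ℝ) - ((σ i).A : ℝ) + dlt * m| ≤
        |((σ i).L : ℝ) - ((σ i).A : ℝ) + dlt * j| + |(dlt : ℝ)| * n := by
      rw [e]
      refine (abs_add_le _ _).trans ?_
      rw [abs_mul]
      have h3 : |m - j| ≤ n := by
        rw [abs_le]
        constructor <;> linarith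
      have := mul_le_mul_of_nonneg_left h3 hd
      linarith
    exact (pow_le_pow_left₀ (abs_nonneg _) h2 p).trans
      (add_pow_le_two (abs_nonneg _) (by positivity) p)
  have hlen : ∀ i, ((σ i).l.length : ℝ) ≤ n := by
    intro i
    have h1 := h.len_le i
    have h2 := h.H_le i
    exact_mod_cast h1.trans h2
  have hbd : ∀ i, ∀ m : ℝ, 0 ≤ m → m ≤ n →
      |((σ i).L : ℝ) - ((σ i).A : ℝ) + dlt * m| ^ p ≤ ((6 + |(dlt : ℝ)|) * (n : ℝ) ^ 2) ^ p := by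
    intro i m hm0 hm1
    refine pow_le_pow_left₀ (abs_nonneg _) ?_ p
    have h1 : |((σ i).L : ℝ)| ≤ 4 * (n : ℝ) ^ 2 := by
      have h := h.all (fun _ _ z => |z| ≤ 4 * (n : ℤ) ^ 2)
        (fun q hq => LOC.dq_bound n q hq hn) i
      exact_mod_cast h
    have h2 : ((σ i).A : ℝ) ≤ 2 * (n : ℝ) ^ 2 := by exact_mod_cast h.A_le i
    have h3 : (0 : ℝ) ≤ (σ i).A := Nat.cast_nonneg _
    have h4 := abs_add_le (((σ i).L : ℝ) - ((σ i).A : ℝ)) (dlt * m)
    have h5 := abs_sub ((σ i).L : ℝ) ((σ i).A : ℝ)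
    rw [abs_of_nonneg h3] at h5
    rw [abs_mul, abs_of_nonneg hm0] at h4
    have h6 : |(dlt : ℝ)| * m ≤ |(dlt : ℝ)| * (n : ℝ) ^ 2 := by
      refine mul_le_mul_of_nonneg_left ?_ hd
      nlinarith
    nlinarith
  have h1 := core h hS (s := s) (β := β) (W := ((6 + |(dlt : ℝ)|) * (n : ℝ) ^ 2) ^ p) hs hβ hh
    (fun b c => |(c : ℝ) - (b : ℝ)| ^ p)
    (fun i => if 0 ≤ ((σ i).H : ℤ) - hh ∧ ((σ i).H : ℤ) - hh ≤ (σ i).l.length then
      |((σ i).L : ℝ) - ((σ i).A : ℝ) + dlt * ((((σ i).H : ℤ) - hh : ℤ) : ℝ)| ^ p else 0)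
    (fun i => 2 ^ p * (s ^ (n - (σ i).H) * rs (σ i).l (fun j t => s ^ j *
      |((((σ i).L - (t : ℤ) + dlt * (j : ℤ) : ℤ)) : ℝ) -
        (((((σ i).A : ℤ) - (t : ℤ) : ℤ)) : ℝ)| ^ p) + (|(dlt : ℝ)| * n) ^ p * vsk n s (σ i)))
    P ?_ ?_ ?_ ?_ hbig ?_
  · have h2 := LOC.key h s (fun _ b c => |(c : ℝ) - (b : ℝ)| ^ p)
    simp only [Int.cast_natCast] at h1 h2
    rw [h2, Z_eq h s]
    refine h1.trans (le_of_eq ?_)
    rw [← mul_sum, sum_add_distrib, ← mul_sum]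
  · intro i
    split_ifs <;> positivity
  · intro i
    have hv := vsk_nonneg (n := n) hs (σ i)
    have hrs : 0 ≤ rs (σ i).l (fun j t => s ^ j *
      |((((σ i).L - (t : ℤ) + dlt * (j : ℤ) : ℤ)) : ℝ) -
        (((((σ i).A : ℤ) - (t : ℤ) : ℤ)) : ℝ)| ^ p) :=
      rs_nonneg _ _ fun j t hj ht => by positivity
    split_ifs with hm
    · have hm0 : (0 : ℝ) ≤ ((((σ i).H : ℤ) - hh : ℤ) : ℝ) := by exact_mod_cast hm.1
      have hm1 : ((((σ i).H : ℤ) - hh : ℤ) : ℝ) ≤ n := by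
        have h3 : ((((σ i).H : ℤ) - hh : ℤ) : ℝ) ≤ ((σ i).l.length : ℝ) := by
          exact_mod_cast hm.2
        exact h3.trans (hlen i)
      have h4 : vsk n s (σ i) * (|((σ i).L : ℝ) - ((σ i).A : ℝ) +
          dlt * ((((σ i).H : ℤ) - hh : ℤ) : ℝ)| ^ p -
          2 ^ p * (|(dlt : ℝ)| * n) ^ p) ≤ s ^ (n - (σ i).H) * rs (σ i).l (fun j t =>
          2 ^ p * (s ^ j * |((((σ i).L - (t : ℤ) + dlt * (j : ℤ) : ℤ)) : ℝ) -
            (((((σ i).A : ℤ) - (t : ℤ) : ℤ)) : ℝ)| ^ p)) := by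
        unfold vsk
        rw [mul_assoc]
        refine mul_le_mul_of_nonneg_left ?_ (by positivity)
        rw [← LOC.rs_pow, mul_comm (rs (σ i).l _), ← rs_mul]
        refine rs_mono _ _ _ fun j t hj ht => ?_
        have hj1 : (j : ℝ) ≤ n := le_trans (by exact_mod_cast hj) (hlen i)
        have h5 := hx i _ (j : ℝ) hm0 hm1 (Nat.cast_nonneg j) hj1
        have e : ((((σ i).L - (t : ℤ) + dlt * (j : ℤ) : ℤ)) : ℝ) -
            (((((σ i).A : ℤ) - (t : ℤ) : ℤ)) : ℝ) =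
            ((σ i).L : ℝ) - ((σ i).A : ℝ) + dlt * j := by
          push_cast
          ring
        rw [e]
        calc (|((σ i).L : ℝ) - ((σ i).A : ℝ) + dlt * ((((σ i).H : ℤ) - hh : ℤ) : ℝ)| ^ p -
              2 ^ p * (|(dlt : ℝ)| * n) ^ p) * s ^ j
            ≤ (2 ^ p * |((σ i).L : ℝ) - ((σ i).A : ℝ) + dlt * j| ^ p) * s ^ j :=
              mul_le_mul_of_nonneg_right (by linarith) (by positivity)
          _ = _ := by ring
      rw [rs_mul] at h4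
      nlinarith [h4]
    · rw [mul_zero]
      positivity
  · intro i
    have hv := vsk_nonneg (n := n) hs (σ i)
    have hrs : 0 ≤ rs (σ i).l (fun j t => s ^ j *
      |((((σ i).L - (t : ℤ) + dlt * (j : ℤ) : ℤ)) : ℝ) -
        (((((σ i).A : ℤ) - (t : ℤ) : ℤ)) : ℝ)| ^ p) :=
      rs_nonneg _ _ fun j t hj ht => by positivity
    positivity
  · intro i j t hj ht hm
    rw [← hm, if_pos ⟨by positivity, by exact_mod_cast hj⟩]
    refine le_of_eq ?_
    congr 2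
    push_cast
    ring
  · intro i _
    split_ifs with hm
    · have hm0 : (0 : ℝ) ≤ ((((σ i).H : ℤ) - hh : ℤ) : ℝ) := by exact_mod_cast hm.1
      have hm1 : ((((σ i).H : ℤ) - hh : ℤ) : ℝ) ≤ n := by
        have h3 : ((((σ i).H : ℤ) - hh : ℤ) : ℝ) ≤ ((σ i).l.length : ℝ) := by
          exact_mod_cast hm.2
        exact h3.trans (hlen i)
      exact hbd i _ hm0 hm1
    · positivity

/-- the error term -/
lemma small_term {C D x S ρ : ℝ} {p K' K1 n : ℕ} (hD : 2 ≤ D) (hC : 0 ≤ C)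
    (hn : 1 ≤ n) (hKn : D ^ (2 * K' + K1 + 1) ≤ n)
    (hexp : (C * (n : ℝ) ^ 2) ^ p ≤ Real.exp (Real.sqrt n / 2)) (hρ : 0 < ρ)
    (hx : x = (n : ℝ) / D ^ K') (hS : S ≤ D ^ K' * Real.exp (-x) / ρ ^ n) :
    (C * (n : ℝ) ^ 2) ^ p * S ≤ D ^ (2 * K' + K1 + 1) *
      Real.exp (-(n / D ^ (2 * K' + K1 + 1))) / ρ ^ n := by
  have hD1 : 1 ≤ D := by linarith
  have hn0 : (0 : ℝ) < n := by exact_mod_cast hn
  have hDK : 0 < D ^ K' := by positivity
  have h1 : D ^ K' ≤ Real.sqrt n := by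
    refine Real.le_sqrt_of_sq_le (le_trans ?_ hKn)
    rw [← pow_mul]
    exact pow_le_pow_right₀ hD1 (by omega)
  have hsq : Real.sqrt n * Real.sqrt n = n := Real.mul_self_sqrt hn0.le
  have hs0 : 0 ≤ Real.sqrt n := Real.sqrt_nonneg _
  have h2 : Real.sqrt n ≤ x := by
    rw [hx, le_div_iff₀ hDK]
    nlinarith
  have h3 : (n : ℝ) / D ^ (2 * K' + K1 + 1) ≤ x / 2 := by
    rw [hx, div_div]
    refine div_le_div_of_nonneg_left hn0.le (by positivity) ?_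
    calc D ^ K' * 2 ≤ D ^ K' * D := mul_le_mul_of_nonneg_left hD hDK.le
      _ = D ^ (K' + 1) := by ring
      _ ≤ D ^ (2 * K' + K1 + 1) := pow_le_pow_right₀ hD1 (by omega)
  have h4 : (C * (n : ℝ) ^ 2) ^ p * Real.exp (-x) ≤ Real.exp (-(n / D ^ (2 * K' + K1 + 1))) := by
    calc (C * (n : ℝ) ^ 2) ^ p * Real.exp (-x)
        ≤ Real.exp (Real.sqrt n / 2) * Real.exp (-x) :=
          mul_le_mul_of_nonneg_right hexp (Real.exp_nonneg _)
      _ = Real.exp (Real.sqrt n / 2 + -x) := by rw [Real.exp_add]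
      _ ≤ _ := Real.exp_le_exp.2 (by linarith)
  have h5 : D ^ K' ≤ D ^ (2 * K' + K1 + 1) := pow_le_pow_right₀ hD1 (by omega)
  calc (C * (n : ℝ) ^ 2) ^ p * S ≤ (C * (n : ℝ) ^ 2) ^ p * (D ^ K' * Real.exp (-x) / ρ ^ n) :=
        mul_le_mul_of_nonneg_left hS (by positivity)
    _ = D ^ K' * ((C * (n : ℝ) ^ 2) ^ p * Real.exp (-x)) / ρ ^ n := by ring
    _ ≤ D ^ (2 * K' + K1 + 1) * Real.exp (-(n / D ^ (2 * K' + K1 + 1))) / ρ ^ n := by
        refine div_le_div_of_nonneg_right ?_ (by positivity)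
        exact mul_le_mul h5 h4 (by positivity) (by positivity)

end Pool.Agent.PFS.BLUx

namespace Pool.Agent.PFS

open Finset Pool.Agent.Lib27 Pool.Agent.SapR Pool.Agent.Gap Pool.Agent.FL Pool.Agent.EXW Filter
  Topology Pool.Agent.AreaLaw Pool.Agent.FS
open Pool.Agent.PFW (Mp)

theorem t_BLU (h1 : BKB_Stmt) (h2 : FS.SKEL_Stmt) (h3 : FS.BIN_Stmt) : BLU_Stmt := by
  intro f1 p hf1
  obtain ⟨A0, hA0, hBKB⟩ := h1 f1 hf1
  refine ⟨A0, hA0, fun A hA => ?_⟩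
  obtain ⟨K', N', hN'6, hB⟩ := hBKB A hA
  have hA2 : 2 ≤ A := hA0.trans hA
  have hs1 : 0 < Real.exp (-f1) := Real.exp_pos _
  have hs1' : Real.exp (-f1) < 1 := by
    rw [Real.exp_lt_one_iff]
    linarith
  obtain ⟨⟨CB, hCB, hbin⟩, -⟩ := h3 (Real.exp (-f1) / (1 + Real.exp (-f1))) (1 / 2)
    (by positivity) (by
      rw [div_le_div_iff₀ (by positivity) (by norm_num)]
      linarith) (by norm_num)
  obtain ⟨C0, hC0⟩ : ∃ C0 : ℝ, C0 = 6 + |(dlt : ℝ)| := ⟨_, rfl⟩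
  have hd := abs_nonneg (dlt : ℝ)
  obtain ⟨N1, hN1⟩ := BLUx.exp_big 2 p
  obtain ⟨N2, hN2⟩ := BLUx.exp_big C0 p
  -- the constant
  obtain ⟨M, hM⟩ : ∃ M : ℝ, M = CB * 2 ^ p * (1 + |(dlt : ℝ)| ^ p) := ⟨_, rfl⟩
  obtain ⟨K1, hK1⟩ := pow_unbounded_of_one_lt M (one_lt_two)
  refine ⟨2 * K' + K1 + 1, max (max N' (max N1 N2)) 6, le_max_right _ _, ?_⟩
  intro n f rho hn hf hff hMp hcrit h
  have hn6 : 6 ≤ n := (le_max_right _ _).trans hn
  have hnN' : N' ≤ n := (le_max_left _ _).trans ((le_max_left _ _).trans hn)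
  have hnN1 : N1 ≤ n := (le_max_left _ _).trans ((le_max_right _ _).trans
    ((le_max_left _ _).trans hn))
  have hnN2 : N2 ≤ n := (le_max_right _ _).trans ((le_max_right _ _).trans
    ((le_max_left _ _).trans hn))
  obtain ⟨D, hD⟩ : ∃ D : ℝ, D = Mp A f := ⟨_, rfl⟩
  have hD2 : 2 ≤ D := by
    rw [hD]
    exact PFW.two_le_Mp hA2 hf
  have hD1 : 1 ≤ D := by linarith
  rw [← hD] at hMp ⊢
  have hn0 : (0 : ℝ) < n := by
    have : 0 < n := by omega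
    exact_mod_cast this
  obtain ⟨k, σ, hσ⟩ := h2 n hn6
  have hMpK' : D ^ K' ≤ n := (pow_le_pow_right₀ hD1 (by omega)).trans hMp
  have hkb := hB n f rho hnN' hf hff (by rw [← hD]; exact hMpK') hcrit k σ hσ
  rw [← hD] at hkb
  obtain ⟨s, hs⟩ : ∃ s : ℝ, s = Real.exp (-f) := ⟨_, rfl⟩
  rw [← hs] at hkb ⊢
  have hs0 : 0 < s := by
    rw [hs]
    exact Real.exp_pos _
  have hss : s ≤ 1 := by
    rw [hs, Real.exp_le_one_iff]
    linarith
  have hsl : Real.exp (-f1) ≤ s := by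
    rw [hs]
    exact Real.exp_le_exp.2 (by linarith)
  have hp0 : Real.exp (-f1) / (1 + Real.exp (-f1)) ≤ s / (1 + s) := by
    rw [div_le_div_iff₀ (by positivity) (by positivity)]
    nlinarith
  have hp1 : s / (1 + s) ≤ 1 / 2 := by
    rw [div_le_div_iff₀ (by positivity) (by norm_num)]
    linarith
  have hsqn : 0 < Real.sqrt n := Real.sqrt_pos.2 hn0
  obtain ⟨β, hβ⟩ : ∃ β : ℝ, β = CB * D ^ K' / Real.sqrt n := ⟨_, rfl⟩
  have hβ0 : 0 ≤ β := by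
    rw [hβ]
    positivity
  have hbig : ∀ i : Fin k, ¬ (((σ i).l.length : ℝ) < n / D ^ K') →
      bp (σ i).l.length (s / (1 + s)) ((σ i).H - h) ≤ β := by
    intro i hi
    rw [not_lt] at hi
    have hDK : 0 < D ^ K' := by positivity
    have h5 : 1 ≤ (n : ℝ) / D ^ K' := by
      rw [le_div_iff₀ hDK, one_mul]
      exact hMpK'
    have h6 : (1 : ℝ) ≤ ((σ i).l.length : ℝ) := h5.trans hi
    have h7 : 1 ≤ (σ i).l.length := by exact_mod_cast h6
    refine (hbin _ hp0 hp1 _ _ h7).1.trans ?_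
    have h8 : Real.sqrt n / D ^ K' ≤ Real.sqrt ((σ i).l.length : ℝ) := by
      refine Real.le_sqrt_of_sq_le ?_
      rw [div_pow, Real.sq_sqrt hn0.le]
      refine le_trans ?_ hi
      refine div_le_div_of_nonneg_left hn0.le hDK ?_
      exact le_self_pow₀ (one_le_pow₀ hD1) (by norm_num)
    rw [hβ]
    calc CB / Real.sqrt ((σ i).l.length : ℝ) ≤ CB / (Real.sqrt n / D ^ K') :=
          div_le_div_of_nonneg_left hCB.le (by positivity) h8
      _ = CB * D ^ K' / Real.sqrt n := by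
          field_simp
  have hZ0 : 0 ≤ Zq n s := by
    rw [BLUx.Z_eq hσ s]
    exact sum_nonneg fun i _ => BLUx.vsk_nonneg hs0 _
  have hrho := hcrit.1
  -- the constant at the main terms
  have hconst : CB * D ^ K' * (2 ^ p * (1 + |(dlt : ℝ)| ^ p)) ≤ D ^ (2 * K' + K1 + 1) := by
    have h5 : M ≤ D ^ K1 := hK1.le.trans (pow_le_pow_left₀ (by norm_num) hD2 K1)
    calc CB * D ^ K' * (2 ^ p * (1 + |(dlt : ℝ)| ^ p)) = D ^ K' * M := by rw [hM]; ring
      _ ≤ D ^ K' * D ^ K1 := mul_le_mul_of_nonneg_left h5 (by positivity)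
      _ = D ^ (K' + K1) := by rw [pow_add]
      _ ≤ _ := pow_le_pow_right₀ hD1 (by omega)
  have hdp : 0 ≤ |(dlt : ℝ)| ^ p := by positivity
  constructor
  · have h5 := BLUx.part1 hσ SMP_thm hs0 hβ0 p h (fun i => ((σ i).l.length : ℝ) < n / D ^ K') hbig
    have h6 := BLUx.small_term (C := 2) (p := p) (K' := K') (K1 := K1) hD2 (by norm_num)
      (by omega : 1 ≤ n) hMp (hN1 n hnN1) hrho rfl hkb
    refine h5.trans (add_le_add ?_ h6)
    have h7 : 0 ≤ ∑ q ∈ Omn n, wtq n s q * (arq n q : ℝ) ^ p := by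
      refine sum_nonneg fun q _ => ?_
      unfold wtq
      positivity
    rw [← mul_assoc]
    refine mul_le_mul_of_nonneg_right ?_ h7
    rw [hβ, div_mul_eq_mul_div]
    refine div_le_div_of_nonneg_right ?_ hsqn.le
    refine le_trans ?_ hconst
    refine mul_le_mul_of_nonneg_left ?_ (by positivity)
    have h8 : ((4 : ℝ) / 3) ^ p ≤ 2 ^ p := pow_le_pow_left₀ (by norm_num) (by norm_num) p
    have h9 : (0 : ℝ) ≤ 2 ^ p := by positivity
    nlinarith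
  · have h5 := BLUx.part2 hσ SMP_thm hs0 hβ0 p (by omega) h
      (fun i => ((σ i).l.length : ℝ) < n / D ^ K') hbig
    have h6 := BLUx.small_term (C := C0) (p := p) (K' := K') (K1 := K1) hD2 (by rw [hC0]; positivity)
      (by omega : 1 ≤ n) hMp (hN2 n hnN2) hrho rfl hkb
    rw [hC0] at h6
    refine h5.trans (add_le_add ?_ h6)
    have h7 : 0 ≤ ∑ q ∈ Omn n, wtq n s q * |(dq q : ℝ) - (arq n q : ℝ)| ^ p := by
      refine sum_nonneg fun q _ => ?_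
      unfold wtq
      positivity
    have h8 : 0 ≤ (n : ℝ) ^ p * Zq n s := by positivity
    have h9 : ∑ q ∈ Omn n, wtq n s q * |(dq q : ℝ) - (arq n q : ℝ)| ^ p +
        (|(dlt : ℝ)| * n) ^ p * Zq n s ≤ (1 + |(dlt : ℝ)| ^ p) *
        (∑ q ∈ Omn n, wtq n s q * |(dq q : ℝ) - (arq n q : ℝ)| ^ p + (n : ℝ) ^ p * Zq n s) := by
      rw [mul_pow]
      nlinarith [mul_nonneg hdp h7]
    have h10 : 0 ≤ ∑ q ∈ Omn n, wtq n s q * |(dq q : ℝ) - (arq n q : ℝ)| ^ p +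
        (n : ℝ) ^ p * Zq n s := by positivity
    calc β * (2 ^ p * (∑ q ∈ Omn n, wtq n s q * |(dq q : ℝ) - (arq n q : ℝ)| ^ p +
          (|(dlt : ℝ)| * n) ^ p * Zq n s))
        ≤ β * (2 ^ p * ((1 + |(dlt : ℝ)| ^ p) *
          (∑ q ∈ Omn n, wtq n s q * |(dq q : ℝ) - (arq n q : ℝ)| ^ p + (n : ℝ) ^ p * Zq n s))) :=
          mul_le_mul_of_nonneg_left (mul_le_mul_of_nonneg_left h9 (by positivity)) hβ0
      _ = (β * (2 ^ p * (1 + |(dlt : ℝ)| ^ p))) *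
          (∑ q ∈ Omn n, wtq n s q * |(dq q : ℝ) - (arq n q : ℝ)| ^ p + (n : ℝ) ^ p * Zq n s) := by
          ring
      _ ≤ _ := by
          refine mul_le_mul_of_nonneg_right ?_ h10
          rw [hβ, div_mul_eq_mul_div]
          exact div_le_div_of_nonneg_right hconst hsqn.le

end Pool.Agent.PFS
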