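import Pool.Agent.PFS.StmtsB
import Pool.Agent.Lib_helper74.FS.LOC
import Pool.Agent.Lib_helper74.FS.KBIG

/-!
# PFS, module BTK: large `θ` (helper85)
-/

set_option autoImplicit false

namespace Pool.Agent.PFS

open Finset Pool.Agent.Lib27 Pool.Agent.SapR Pool.Agent.Gap Pool.Agent.FL Pool.Agent.EXW Filter
  Topology Pool.Agent.AreaLaw Pool.Agent.FS
open Pool.Agent.PFW (Mp)

namespace BTKx

/-! ### complex sums over subsets -/

/-- the complex version of `rs` -/
noncomputable def rc : List ℕ → (ℕ → ℕ → ℂ) → ℂ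
  | [], F => F 0 0
  | (y :: l), F => rc l F + rc l (fun j t => F (j + 1) (t + y))

lemma rc_nil (F : ℕ → ℕ → ℂ) : rc [] F = F 0 0 := rfl

lemma rc_cons (y : ℕ) (l : List ℕ) (F : ℕ → ℕ → ℂ) :
    rc (y :: l) F = rc l F + rc l (fun j t => F (j + 1) (t + y)) := rfl

lemma rc_re (l : List ℕ) (F : ℕ → ℕ → ℂ) : (rc l F).re = rs l (fun j t => (F j t).re) := by
  induction l generalizing F with
  | nil => rfl
  | cons y l ih =>
    rw [rc_cons, rs_cons, Complex.add_re, ih, ih]

lemma rc_im (l : List ℕ) (F : ℕ → ℕ → ℂ) : (rc l F).im = rs l (fun j t => (F j t).im) := by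
  induction l generalizing F with
  | nil => rfl
  | cons y l ih =>
    rw [rc_cons, rs_cons, Complex.add_im, ih, ih]

/-- the product over the tokens -/
noncomputable def PC (u : ℂ) (eps : ℝ) : List ℕ → ℂ
  | [] => 1
  | (y :: l) => (1 + u * (Real.exp (eps * y) : ℂ)) * PC u eps l

/-- the product over the tokens, real version -/
noncomputable def PR (s eps : ℝ) : List ℕ → ℝ
  | [] => 1
  | (y :: l) => (1 + s * Real.exp (eps * y)) * PR s eps l

lemma rc_prod (l : List ℕ) (c u : ℂ) (eps : ℝ) :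
    rc l (fun j t => c * (u ^ j * (Real.exp (eps * t) : ℂ))) = c * PC u eps l := by
  induction l generalizing c with
  | nil => simp [rc_nil, PC]
  | cons y l ih =>
    have e : (fun j t : ℕ => c * (u ^ (j + 1) * (Real.exp (eps * (t + y : ℕ)) : ℂ))) =
        fun j t : ℕ => (c * u * (Real.exp (eps * y) : ℂ)) * (u ^ j * (Real.exp (eps * t) : ℂ)) := by
      funext j t
      push_cast
      rw [mul_add, Complex.exp_add]
      ring
    rw [rc_cons, ih, e, ih]
    show _ = c * ((1 + u * (Real.exp (eps * y) : ℂ)) * PC u eps l)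
    ring

lemma rs_prod (l : List ℕ) (c s eps : ℝ) :
    rs l (fun j t => c * (s ^ j * Real.exp (eps * t))) = c * PR s eps l := by
  induction l generalizing c with
  | nil => simp [PR]
  | cons y l ih =>
    have e : (fun j t : ℕ => c * (s ^ (j + 1) * Real.exp (eps * (t + y : ℕ)))) =
        fun j t : ℕ => (c * s * Real.exp (eps * y)) * (s ^ j * Real.exp (eps * t)) := by
      funext j t
      push_cast
      rw [mul_add, Real.exp_add]
      ring
    rw [rs_cons, ih, e, ih]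
    show _ = c * ((1 + s * Real.exp (eps * y)) * PR s eps l)
    ring

lemma PR_pos {s : ℝ} (hs : 0 < s) (eps : ℝ) (l : List ℕ) : 0 < PR s eps l := by
  induction l with
  | nil => exact one_pos
  | cons y l ih =>
    show 0 < (1 + s * Real.exp (eps * y)) * PR s eps l
    positivity

lemma PR_le {s : ℝ} (hs : 0 < s) {eps : ℝ} (he : 0 ≤ eps) (l : List ℕ) :
    PR s eps l ≤ (1 + s) ^ l.length * Real.exp (eps * l.sum) := by
  induction l with
  | nil => simp [PR]
  | cons y l ih =>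
    show (1 + s * Real.exp (eps * y)) * PR s eps l ≤ _
    have h1 : 1 ≤ Real.exp (eps * y) := Real.one_le_exp (by positivity)
    have h2 : 1 + s * Real.exp (eps * y) ≤ (1 + s) * Real.exp (eps * y) := by nlinarith
    calc (1 + s * Real.exp (eps * y)) * PR s eps l
        ≤ ((1 + s) * Real.exp (eps * y)) * ((1 + s) ^ l.length * Real.exp (eps * l.sum)) :=
          mul_le_mul h2 ih (PR_pos hs eps l).le (by positivity)
      _ = (1 + s) ^ (y :: l).length * Real.exp (eps * (y :: l).sum) := by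
          rw [List.length_cons, List.sum_cons]
          push_cast
          rw [mul_add, Real.exp_add]
          ring

/-- one factor -/
lemma factor {s s' θ : ℝ} (hs : 0 < s) (h1 : s ≤ s') (h2 : s' ≤ 3) (hθ : |θ| ≤ Real.pi) :
    ‖1 + (s' : ℂ) * Complex.exp (((-θ : ℝ) : ℂ) * Complex.I)‖ ≤
      Real.exp (-(s * θ ^ 2 / 80)) * (1 + s') := by
  have hs' : 0 < s' := lt_of_lt_of_le hs h1
  have hc : Real.cos θ ≤ 1 - θ ^ 2 / 5 := by
    have h3 := Real.cos_le_one_sub_mul_cos_sq hθ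
    have h4 := Real.pi_lt_d2
    have h5 := Real.pi_pos
    have h6 : (1 : ℝ) / 5 ≤ 2 / Real.pi ^ 2 := by
      rw [div_le_div_iff₀ (by norm_num) (by positivity)]
      nlinarith
    nlinarith [sq_nonneg θ]
  have hn : ‖1 + (s' : ℂ) * Complex.exp (((-θ : ℝ) : ℂ) * Complex.I)‖ ^ 2 =
      1 + 2 * s' * Real.cos θ + s' ^ 2 := by
    rw [Complex.sq_norm, Complex.normSq_apply]
    have hre : (1 + (s' : ℂ) * Complex.exp (((-θ : ℝ) : ℂ) * Complex.I)).re =
        1 + s' * Real.cos θ := by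
      rw [Complex.add_re, Complex.re_ofReal_mul, Complex.exp_ofReal_mul_I_re, Real.cos_neg,
        Complex.one_re]
    have him : (1 + (s' : ℂ) * Complex.exp (((-θ : ℝ) : ℂ) * Complex.I)).im =
        -(s' * Real.sin θ) := by
      rw [Complex.add_im, Complex.im_ofReal_mul, Complex.exp_ofReal_mul_I_im, Real.sin_neg,
        Complex.one_im]
      ring
    rw [hre, him]
    have := Real.sin_sq_add_cos_sq θ
    nlinarith
  have hx := Real.add_one_le_exp (-(s * θ ^ 2 / 40))
  have he : Real.exp (-(s * θ ^ 2 / 80)) ^ 2 = Real.exp (-(s * θ ^ 2 / 40)) := by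
    rw [← Real.exp_nat_mul]
    congr 1
    push_cast
    ring
  rw [← pow_le_pow_iff_left₀ (norm_nonneg _) (by positivity) two_ne_zero, hn, mul_pow, he]
  have h16 : (1 + s') ^ 2 ≤ 16 := by nlinarith
  have ht : 0 ≤ s * θ ^ 2 / 40 := by positivity
  calc 1 + 2 * s' * Real.cos θ + s' ^ 2 ≤ 1 + 2 * s' * (1 - θ ^ 2 / 5) + s' ^ 2 := by
        have := mul_le_mul_of_nonneg_left hc (show 0 ≤ 2 * s' by positivity)
        linarith
    _ ≤ (1 + s') ^ 2 - 16 * (s * θ ^ 2 / 40) := by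
        have := mul_le_mul_of_nonneg_right h1 (sq_nonneg θ)
        nlinarith
    _ ≤ (1 + s') ^ 2 - (1 + s') ^ 2 * (s * θ ^ 2 / 40) := by
        have := mul_le_mul_of_nonneg_right h16 ht
        linarith
    _ = (-(s * θ ^ 2 / 40) + 1) * (1 + s') ^ 2 := by ring
    _ ≤ _ := mul_le_mul_of_nonneg_right hx (by positivity)

lemma PC_le {s θ eps : ℝ} (hs : 0 < s) (hs1 : s ≤ 1) (hθ : |θ| ≤ Real.pi) (he : 0 ≤ eps)
    (l : List ℕ) (hl : ∀ y ∈ l, eps * y ≤ 1) :
    ‖PC ((s : ℂ) * Complex.exp (((-θ : ℝ) : ℂ) * Complex.I)) eps l‖ ≤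
      Real.exp (-(s * θ ^ 2 / 80 * l.length)) * PR s eps l := by
  induction l with
  | nil => simp [PC, PR]
  | cons y l ih =>
    have ih' := ih fun z hz => hl z (List.mem_cons_of_mem _ hz)
    have hy := hl y List.mem_cons_self
    show ‖(1 + (s : ℂ) * Complex.exp (((-θ : ℝ) : ℂ) * Complex.I) * (Real.exp (eps * y) : ℂ)) *
      PC ((s : ℂ) * Complex.exp (((-θ : ℝ) : ℂ) * Complex.I)) eps l‖ ≤ _
    rw [norm_mul]
    have h1 : 1 ≤ Real.exp (eps * y) := Real.one_le_exp (by positivity)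
    have h2 : Real.exp (eps * y) ≤ 3 := by
      calc Real.exp (eps * y) ≤ Real.exp 1 := Real.exp_le_exp.2 hy
        _ ≤ 3 := by
          have := Real.exp_one_lt_d9
          linarith
    have e : (1 + (s : ℂ) * Complex.exp (((-θ : ℝ) : ℂ) * Complex.I) * (Real.exp (eps * y) : ℂ)) =
        1 + ((s * Real.exp (eps * y) : ℝ) : ℂ) * Complex.exp (((-θ : ℝ) : ℂ) * Complex.I) := by
      push_cast
      ring
    have hf := factor (s := s) (s' := s * Real.exp (eps * y)) (θ := θ) hs (by nlinarith)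
      (by nlinarith) hθ
    rw [e]
    calc _ ≤ (Real.exp (-(s * θ ^ 2 / 80)) * (1 + s * Real.exp (eps * y))) *
          (Real.exp (-(s * θ ^ 2 / 80 * l.length)) * PR s eps l) :=
          mul_le_mul hf ih' (norm_nonneg _) (by positivity)
      _ = Real.exp (-(s * θ ^ 2 / 80 * (y :: l).length)) * PR s eps (y :: l) := by
          have e2 : Real.exp (-(s * θ ^ 2 / 80 * ((y :: l).length : ℕ))) =
              Real.exp (-(s * θ ^ 2 / 80)) * Real.exp (-(s * θ ^ 2 / 80 * l.length)) := by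
            rw [← Real.exp_add, List.length_cons]
            congr 1
            push_cast
            ring
          rw [e2]
          show _ = _ * ((1 + s * Real.exp (eps * y)) * PR s eps l)
          ring

/-! ### The sums over the words -/

/-- the term of a skeleton, without phases -/
noncomputable def R0 (n : ℕ) (s eps : ℝ) (a : Sk) : ℝ :=
  s ^ (n - a.H) * (Real.exp (-(eps * a.A)) * PR s eps a.l)

/-- the term of a skeleton -/
noncomputable def R1 (n : ℕ) (s θ v eps : ℝ) (a : Sk) : ℂ :=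
  ((s ^ (n - a.H) : ℝ) : ℂ) * (((Real.exp (-(eps * a.A)) : ℝ) : ℂ) *
    Complex.exp (((θ * ((a.H : ℝ) - v * n) : ℝ) : ℂ) * Complex.I) *
      PC ((s : ℂ) * Complex.exp (((-θ : ℝ) : ℂ) * Complex.I)) eps a.l)

lemma Ta_eq {n k : ℕ} {σ : Fin k → Sk} (h : IsSkel n k σ) (s eps : ℝ) :
    Ta n s eps = ∑ i, R0 n s eps (σ i) := by
  have h1 := LOC.key h s (fun _ b _ => Real.exp (-(eps * b)))
  unfold Ta
  have e : ∀ q : QI, wtq n s q * Real.exp (-(eps * (arq n q : ℝ))) =
      wtq n s q * Real.exp (-(eps * ((arq n q : ℤ) : ℝ))) := fun q => by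
    rw [Int.cast_natCast]
  rw [Finset.sum_congr rfl fun q _ => e q, h1]
  refine Finset.sum_congr rfl fun i _ => ?_
  unfold R0
  rw [← rs_prod]
  congr 1
  refine rs_congr _ _ _ fun j t _ _ => ?_
  push_cast
  have e2 : Real.exp (-(eps * ((σ i).A - (t : ℝ)))) =
      Real.exp (-(eps * (σ i).A)) * Real.exp (eps * t) := by
    rw [← Real.exp_add]
    congr 1
    ring
  rw [e2]
  ring

lemma ZT_eq {n k : ℕ} {σ : Fin k → Sk} (h : IsSkel n k σ) (s θ v eps : ℝ) :
    ZT n s θ v eps = ∑ i, R1 n s θ v eps (σ i) := by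
  have key1 := LOC.key h s
    (fun a b _ => Real.exp (-(eps * b)) * Real.cos (θ * ((a : ℝ) - v * n)))
  have key2 := LOC.key h s
    (fun a b _ => Real.exp (-(eps * b)) * Real.sin (θ * ((a : ℝ) - v * n)))
  -- the term as a sum over subsets
  have hR : ∀ i, R1 n s θ v eps (σ i) = ((s ^ (n - (σ i).H) : ℝ) : ℂ) *
      rc (σ i).l (fun j t => ((s ^ j * Real.exp (-(eps * ((σ i).A - (t : ℝ)))) : ℝ) : ℂ) *
        Complex.exp (((θ * (((σ i).H : ℝ) - j - v * n) : ℝ) : ℂ) * Complex.I)) := by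
    intro i
    unfold R1
    rw [← rc_prod]
    congr 2
    funext j t
    have e1 : Real.exp (-(eps * ((σ i).A - (t : ℝ)))) =
        Real.exp (-(eps * (σ i).A)) * Real.exp (eps * t) := by
      rw [← Real.exp_add]
      congr 1
      ring
    have e2 : Complex.exp (((θ * (((σ i).H : ℝ) - j - v * n) : ℝ) : ℂ) * Complex.I) =
        Complex.exp (((θ * (((σ i).H : ℝ) - v * n) : ℝ) : ℂ) * Complex.I) *
          Complex.exp (((-θ : ℝ) : ℂ) * Complex.I) ^ j := by
      rw [← Complex.exp_nat_mul, ← Complex.exp_add]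
      congr 1
      push_cast
      ring
    rw [e1, e2, mul_pow]
    push_cast
    ring
  have hre : ∀ i, (R1 n s θ v eps (σ i)).re = s ^ (n - (σ i).H) * rs (σ i).l (fun j t => s ^ j *
      (Real.exp (-(eps * (((σ i).A - t : ℤ) : ℝ))) *
        Real.cos (θ * ((((σ i).H - j : ℤ) : ℝ) - v * n)))) := by
    intro i
    rw [hR, Complex.re_ofReal_mul, rc_re]
    congr 1
    refine rs_congr _ _ _ fun j t _ _ => ?_
    rw [Complex.re_ofReal_mul, Complex.exp_ofReal_mul_I_re]
    push_cast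
    ring
  have him : ∀ i, (R1 n s θ v eps (σ i)).im = s ^ (n - (σ i).H) * rs (σ i).l (fun j t => s ^ j *
      (Real.exp (-(eps * (((σ i).A - t : ℤ) : ℝ))) *
        Real.sin (θ * ((((σ i).H - j : ℤ) : ℝ) - v * n)))) := by
    intro i
    rw [hR, Complex.im_ofReal_mul, rc_im]
    congr 1
    refine rs_congr _ _ _ fun j t _ _ => ?_
    rw [Complex.im_ofReal_mul, Complex.exp_ofReal_mul_I_im]
    push_cast
    ring
  refine Complex.ext ?_ ?_
  · unfold ZT
    rw [Complex.re_sum, Complex.re_sum, Finset.sum_congr rfl fun i _ => hre i]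
    refine Eq.trans ?_ key1
    refine Finset.sum_congr rfl fun q _ => ?_
    rw [Complex.re_ofReal_mul]
    unfold ph
    rw [Complex.exp_ofReal_mul_I_re, Int.cast_natCast, Int.cast_natCast]
    ring
  · unfold ZT
    rw [Complex.im_sum, Complex.im_sum, Finset.sum_congr rfl fun i _ => him i]
    refine Eq.trans ?_ key2
    refine Finset.sum_congr rfl fun q _ => ?_
    rw [Complex.im_ofReal_mul]
    unfold ph
    rw [Complex.exp_ofReal_mul_I_im, Int.cast_natCast, Int.cast_natCast]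
    ring

lemma R0_nonneg {s : ℝ} (hs : 0 < s) (n : ℕ) (eps : ℝ) (a : Sk) : 0 ≤ R0 n s eps a := by
  have := PR_pos hs eps a.l
  unfold R0
  positivity

lemma R0_le {n k : ℕ} {σ : Fin k → Sk} (h : IsSkel n k σ) {s eps : ℝ} (hs : 0 < s)
    (he : 0 ≤ eps) (i : Fin k) : R0 n s eps (σ i) ≤ vsk n s (σ i) := by
  unfold R0 vsk
  refine mul_le_mul_of_nonneg_left ?_ (by positivity)
  have h1 := PR_le hs he (σ i).l
  have h2 := h.sum_le i
  have h3 : ((σ i).l.sum : ℝ) ≤ (σ i).A := by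
    have : (σ i).l.sum ≤ (σ i).A := by omega
    exact_mod_cast this
  have h4 : Real.exp (-(eps * (σ i).A)) * Real.exp (eps * (σ i).l.sum) ≤ 1 := by
    rw [← Real.exp_add]
    refine Real.exp_le_one_iff.2 ?_
    nlinarith
  calc Real.exp (-(eps * (σ i).A)) * PR s eps (σ i).l
      ≤ Real.exp (-(eps * (σ i).A)) *
          ((1 + s) ^ (σ i).l.length * Real.exp (eps * (σ i).l.sum)) :=
        mul_le_mul_of_nonneg_left h1 (Real.exp_pos _).le
    _ = (1 + s) ^ (σ i).l.length *
          (Real.exp (-(eps * (σ i).A)) * Real.exp (eps * (σ i).l.sum)) := by ring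
    _ ≤ (1 + s) ^ (σ i).l.length * 1 := mul_le_mul_of_nonneg_left h4 (by positivity)
    _ = _ := mul_one _

lemma R1_le {n k : ℕ} {σ : Fin k → Sk} (h : IsSkel n k σ) {s θ eps : ℝ} (v : ℝ) (hs : 0 < s)
    (hs1 : s ≤ 1) (hθ : |θ| ≤ Real.pi) (he : 0 ≤ eps) (hen : eps * (2 * n + 2) ≤ 1) (i : Fin k) :
    ‖R1 n s θ v eps (σ i)‖ ≤
      Real.exp (-(s * θ ^ 2 / 80 * (σ i).l.length)) * R0 n s eps (σ i) := by
  have h1 := PC_le hs hs1 hθ he (σ i).l (fun y hy => by
    have h2 := h.y_le i y hy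
    have h3 : (y : ℝ) ≤ 2 * n + 2 := by exact_mod_cast h2
    exact (mul_le_mul_of_nonneg_left h3 he).trans hen)
  have e0 : ‖R1 n s θ v eps (σ i)‖ = s ^ (n - (σ i).H) * (Real.exp (-(eps * (σ i).A)) *
      ‖PC ((s : ℂ) * Complex.exp (((-θ : ℝ) : ℂ) * Complex.I)) eps (σ i).l‖) := by
    unfold R1
    rw [norm_mul, norm_mul, norm_mul, Complex.norm_real, Complex.norm_real,
      Complex.norm_exp_ofReal_mul_I, mul_one, Real.norm_of_nonneg (Real.exp_pos _).le,
      Real.norm_of_nonneg (by positivity)]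
  rw [e0]
  unfold R0
  calc _ ≤ s ^ (n - (σ i).H) * (Real.exp (-(eps * (σ i).A)) *
        (Real.exp (-(s * θ ^ 2 / 80 * (σ i).l.length)) * PR s eps (σ i).l)) := by
        refine mul_le_mul_of_nonneg_left (mul_le_mul_of_nonneg_left h1 (Real.exp_pos _).le) ?_
        positivity
    _ = _ := by ring

lemma Ta_le {n : ℕ} {s eps : ℝ} (hs : 0 < s) (he : 0 ≤ eps) : Ta n s eps ≤ Zq n s := by
  unfold Ta Zq
  refine Finset.sum_le_sum fun q _ => ?_
  have h1 : 0 ≤ wtq n s q := by
    unfold wtq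
    positivity
  have h2 : Real.exp (-(eps * (arq n q : ℝ))) ≤ 1 := by
    refine Real.exp_le_one_iff.2 ?_
    have : 0 ≤ eps * (arq n q : ℝ) := by positivity
    linarith
  calc wtq n s q * Real.exp (-(eps * (arq n q : ℝ))) ≤ wtq n s q * 1 :=
        mul_le_mul_of_nonneg_left h2 h1
    _ = _ := mul_one _

/-- the bound with a cutoff -/
lemma main {n k : ℕ} {σ : Fin k → Sk} (h : IsSkel n k σ) {s θ eps : ℝ} (v : ℝ) (hs : 0 < s)
    (hs1 : s ≤ 1) (hθ : |θ| ≤ Real.pi) (he : 0 ≤ eps) (hen : eps * (2 * n + 2) ≤ 1) (k0 : ℝ) :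
    ‖ZT n s θ v eps‖ ≤ Real.exp (-(s * θ ^ 2 / 80 * k0)) * Zq n s +
      ∑ i ∈ univ.filter (fun i : Fin k => ((σ i).l.length : ℝ) < k0), vsk n s (σ i) := by
  rw [ZT_eq h]
  refine (norm_sum_le _ _).trans ?_
  rw [← Finset.sum_filter_not_add_sum_filter univ
    (fun i : Fin k => ((σ i).l.length : ℝ) < k0) (fun i => ‖R1 n s θ v eps (σ i)‖)]
  refine add_le_add ?_ ?_
  · calc ∑ i ∈ univ.filter (fun i : Fin k => ¬ ((σ i).l.length : ℝ) < k0),
          ‖R1 n s θ v eps (σ i)‖
        ≤ ∑ i ∈ univ.filter (fun i : Fin k => ¬ ((σ i).l.length : ℝ) < k0),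
          Real.exp (-(s * θ ^ 2 / 80 * k0)) * R0 n s eps (σ i) := by
          refine Finset.sum_le_sum fun i hi => ?_
          have h1 := not_lt.1 (Finset.mem_filter.1 hi).2
          refine (R1_le h v hs hs1 hθ he hen i).trans ?_
          refine mul_le_mul_of_nonneg_right (Real.exp_le_exp.2 ?_) (R0_nonneg hs n eps _)
          have h2 : 0 ≤ s * θ ^ 2 / 80 := by positivity
          have := mul_le_mul_of_nonneg_left h1 h2
          linarith
      _ ≤ ∑ i, Real.exp (-(s * θ ^ 2 / 80 * k0)) * R0 n s eps (σ i) := by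
          refine Finset.sum_le_sum_of_subset_of_nonneg (Finset.filter_subset _ _) fun i _ _ => ?_
          have := R0_nonneg hs n eps (σ i)
          positivity
      _ = Real.exp (-(s * θ ^ 2 / 80 * k0)) * Ta n s eps := by
          rw [Ta_eq h, Finset.mul_sum]
      _ ≤ _ := mul_le_mul_of_nonneg_left (Ta_le hs he) (Real.exp_pos _).le
  · refine Finset.sum_le_sum fun i _ => ?_
    refine (R1_le h v hs hs1 hθ he hen i).trans ?_
    have h0 := R0_nonneg hs n eps (σ i)
    have h1 : Real.exp (-(s * θ ^ 2 / 80 * (σ i).l.length)) ≤ 1 := by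
      refine Real.exp_le_one_iff.2 ?_
      have : 0 ≤ s * θ ^ 2 / 80 * (σ i).l.length := by positivity
      linarith
    calc _ ≤ 1 * R0 n s eps (σ i) := mul_le_mul_of_nonneg_right h1 h0
      _ = R0 n s eps (σ i) := one_mul _
      _ ≤ _ := R0_le h hs he i

end BTKx

theorem t_BTK (h1 : BKB_Stmt) (h2 : FS.SKEL_Stmt) : BTK_Stmt := by
  intro f1 hf1
  obtain ⟨A0, hA0, hA⟩ := h1 f1 hf1
  obtain ⟨a, ha⟩ := exists_nat_ge (80 * Real.exp f1)
  refine ⟨max A0 a, hA0.trans (le_max_left _ _), fun A hAA => ?_⟩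
  have hA1 : A0 ≤ A := (le_max_left _ _).trans hAA
  have hA2 : a ≤ A := (le_max_right _ _).trans hAA
  have h2A : 2 ≤ A := hA0.trans hA1
  obtain ⟨K, N0, hN0, hB⟩ := hA A hA1
  refine ⟨K + 1, N0, hN0, fun n f rho hn hf hff hM hC θ v eps hθ he hen => ?_⟩
  have hM2 := PFW.two_le_Mp h2A hf
  have hMA : 80 * Real.exp f1 ≤ Mp A f := by
    refine ha.trans (le_trans ?_ (PFW.A_le_Mp h2A hf))
    exact_mod_cast hA2
  have hM1 : (1 : ℝ) ≤ Mp A f := by linarith
  have hMpos : 0 < Mp A f := by linarith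
  have hMK : Mp A f ^ K ≤ Mp A f ^ (K + 1) := pow_le_pow_right₀ hM1 (Nat.le_succ K)
  obtain ⟨k, σ, hσ⟩ := h2 n (hN0.trans hn)
  have hb := hB n f rho hn hf hff (hMK.trans hM) hC k σ hσ
  have hs : 0 < Real.exp (-f) := Real.exp_pos _
  have hs1 : Real.exp (-f) ≤ 1 := Real.exp_le_one_iff.2 (by linarith)
  have hm := BTKx.main hσ v hs hs1 hθ he hen (n / Mp A f ^ K)
  have hn0 : (0 : ℝ) ≤ n := Nat.cast_nonneg n
  have hZ : 0 ≤ Zq n (Real.exp (-f)) := KBIG.Zq_nonneg n hs
  refine hm.trans (add_le_add ?_ (hb.trans ?_))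
  · refine mul_le_mul_of_nonneg_right (Real.exp_le_exp.2 ?_) hZ
    rw [neg_le_neg_iff]
    have h3 : 1 / Mp A f ≤ Real.exp (-f) / 80 := by
      rw [div_le_div_iff₀ hMpos (by norm_num), one_mul]
      calc (80 : ℝ) = Real.exp (-f1) * (80 * Real.exp f1) := by
            rw [mul_left_comm, ← Real.exp_add]
            simp
        _ ≤ Real.exp (-f) * Mp A f := by
            refine mul_le_mul (Real.exp_le_exp.2 (by linarith)) hMA (by positivity) hs.le
    calc θ ^ 2 * n / Mp A f ^ (K + 1) = (1 / Mp A f) * (θ ^ 2 * (n / Mp A f ^ K)) := by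
          rw [pow_succ (Mp A f) K, ← div_div]
          ring
      _ ≤ (Real.exp (-f) / 80) * (θ ^ 2 * (n / Mp A f ^ K)) :=
          mul_le_mul_of_nonneg_right h3 (by positivity)
      _ = _ := by ring
  · have hr := hC.1
    refine div_le_div_of_nonneg_right ?_ (by positivity)
    refine mul_le_mul hMK (Real.exp_le_exp.2 ?_) (Real.exp_pos _).le (by positivity)
    rw [neg_le_neg_iff]
    exact div_le_div_of_nonneg_left hn0 (by positivity) hMK

end Pool.Agent.PFS
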