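import Pool.Agent.PFS.StmtsB

/-!
# PFS, module BTW: the arrays with phases of the model
-/

set_option autoImplicit false

namespace Pool.Agent.PFS.BTWx

open Finset Pool.Agent.Lib27 Pool.Agent.SapR Pool.Agent.Gap Pool.Agent.FL Pool.Agent.FL.KW
open Pool.Agent.PFS Pool.Agent.FS

/-- complex form of K2 -/
lemma k2C (r : ℕ) (x : ℤ) (N : ℕ) (hx : 1 ≤ x) (F : List (Fin 4) → ℂ) :
    ∑ w ∈ ArchSet r x N, F w = ∑ w ∈ CapSet r x N, F w +
      ∑ p ∈ allowed r x, ∑ w ∈ ArchSet r (x + jump p) (N - (p.1.length + p.2.length)),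
        F (p.1 ++ w ++ p.2) := by
  apply Complex.ext
  · have := FL.KW.k2' r x N hx (fun w => (F w).re)
    simp only [Complex.add_re, Complex.re_sum]
    exact this
  · have := FL.KW.k2' r x N hx (fun w => (F w).im)
    simp only [Complex.add_im, Complex.im_sum]
    exact this

lemma ph_add (θ v : ℝ) (a b c d : ℕ) :
    ph θ v (a + c, b + d) = ph θ v (a, b) * ph θ v (c, d) := by
  unfold ph
  rw [← Complex.exp_add]
  congr 1
  push_cast
  ring

/-- the weight of an arch -/
noncomputable def Phi (r : ℕ) (s θ v eps : ℝ) (m : ℕ) (w : List (Fin 4)) : ℂ :=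
  ((s ^ (m - hgt w) * Real.exp (-(eps * (M41.Ar r w : ℝ))) : ℝ) : ℂ) * ph θ v (m, hgt w)

noncomputable def Wm (r : ℕ) (s θ v eps : ℝ) (m : ℕ) (g : ℤ) : ℂ :=
  if 1 ≤ g then ∑ w ∈ ArchSet r g (2 * m), Phi r s θ v eps m w else 0

noncomputable def capC (r : ℕ) (s θ v : ℝ) (m : ℕ) (g : ℤ) : ℂ :=
  if 1 ≤ g then ∑ T ∈ CapSet r g (2 * m), ((s ^ (m - hgt T) : ℝ) : ℂ) * ph θ v (m, hgt T) else 0

lemma capP_eq (n : ℕ) (s θ v : ℝ) : capP n s θ v = capC (2 * n - 1) s θ v := rfl

lemma ArchSet_empty (r : ℕ) (g : ℤ) (m : ℕ) (hg : 1 ≤ g) (h : (m : ℤ) < g) :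
    ArchSet r g (2 * m) = ∅ := by
  by_contra hne
  obtain ⟨w, hw⟩ := nonempty_iff_ne_empty.2 hne
  have := (H66.k5cap.2.2 r g (2 * m) w hg hw).2
  push_cast at this
  omega

lemma Wm_supp (r : ℕ) (s θ v eps : ℝ) (m : ℕ) (g : ℤ) (h : (m : ℤ) < g ∨ g < 1) :
    Wm r s θ v eps m g = 0 := by
  unfold Wm
  split_ifs with hg
  · rw [ArchSet_empty r g m hg (by omega), sum_empty]
  · rfl

/-- one step of the decomposition -/
lemma Phi_cap (r : ℕ) (s θ v eps : ℝ) (m : ℕ) (x : ℤ) (N : ℕ) (hx : 1 ≤ x) (w : List (Fin 4))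
    (hw : w ∈ CapSet r x N) :
    Phi r s θ v eps m w = ((s ^ (m - hgt w) : ℝ) : ℂ) * ph θ v (m, hgt w) := by
  unfold Phi
  rw [M41.Ar_cap k2' r x N hx w hw]
  simp

lemma Wm_step (h : HG_Stmt) (r : ℕ) (s : ℝ) (hs : 0 < s) (θ v eps : ℝ) (n : ℕ) (g : ℤ)
    (hg : 1 ≤ g) :
    Wm r s θ v eps n g = capC r s θ v n g + ∑ i ∈ (kern r s hs).S, if i.1 ≤ n then
      ∑ g' ∈ Icc (g - (r + 2 : ℕ)) (g + (r + 2 : ℕ)),
        ph θ v i * (((kern r s hs).K i g g' * GapKernel.wt eps i g g' : ℝ) : ℂ) *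
          Wm r s θ v eps (n - i.1) g' else 0 := by
  classical
  have hS : (kern r s hs).S = SS r := rfl
  have hK : (kern r s hs).K = fun i g g' => s ^ (i.1 - i.2) * ((M41.alT r i g g').card : ℝ) :=
    rfl
  rw [hS, hK]
  simp only
  have e0 : Wm r s θ v eps n g = ∑ w ∈ ArchSet r g (2 * n), Phi r s θ v eps n w := by
    unfold Wm; rw [if_pos hg]
  have e1 : capC r s θ v n g =
      ∑ T ∈ CapSet r g (2 * n), ((s ^ (n - hgt T) : ℝ) : ℂ) * ph θ v (n, hgt T) := by
    unfold capC; rw [if_pos hg]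
  rw [e0, e1, k2C r g (2 * n) hg]
  congr 1
  · apply sum_congr rfl
    intro w hw
    exact Phi_cap r s θ v eps n g (2 * n) hg w hw
  -- group the pieces by type and target gap
  have hmap : ∀ p ∈ allowed r g, (((hl p, htn p), g + jump p) : (ℕ × ℕ) × ℤ) ∈
      SS r ×ˢ Icc (g - (r + 2 : ℕ)) (g + (r + 2 : ℕ)) := by
    intro p hp
    have hp1 := ((M41.mem_allowed _ _ _).1 hp).1
    obtain ⟨a1, a2⟩ := piece_mem h hp1
    rw [mem_Icc] at a2
    rw [mem_product, mem_Icc]
    refine ⟨a1, ?_, ?_⟩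
    · simp only
      omega
    · simp only
      omega
  rw [← sum_fiberwise_of_maps_to hmap, sum_product]
  apply sum_congr rfl
  intro i hi
  rw [mem_SS] at hi
  have hfib : ∀ g' : ℤ, (allowed r g).filter (fun p =>
      (((hl p, htn p), g + jump p) : (ℕ × ℕ) × ℤ) = (i, g')) =
      M41.alT r i g g' := by
    intro g'
    ext p
    rw [mem_filter, M41.mem_alT]
    constructor
    · rintro ⟨h1, h3⟩
      have hp1 := ((M41.mem_allowed _ _ _).1 h1).1
      have := len_hl hp1
      have := ht_eq hp1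
      rw [Prod.mk.injEq, Prod.ext_iff] at h3
      obtain ⟨⟨b1, b2⟩, b3⟩ := h3
      simp only at b1 b2 b3
      exact ⟨h1, by omega, by omega, by omega⟩
    · rintro ⟨h1, h3, h4, h5⟩
      refine ⟨h1, ?_⟩
      have hp1 := ((M41.mem_allowed _ _ _).1 h1).1
      have := len_hl hp1
      have := ht_eq hp1
      rw [Prod.mk.injEq, Prod.ext_iff]
      simp only
      exact ⟨⟨by omega, by omega⟩, by omega⟩
  by_cases hin : i.1 ≤ n
  · rw [if_pos hin]
    apply sum_congr rfl
    intro g' _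
    rw [hfib g']
    by_cases hg' : 1 ≤ g'
    · have e2 : Wm r s θ v eps (n - i.1) g' =
          ∑ w ∈ ArchSet r g' (2 * (n - i.1)), Phi r s θ v eps (n - i.1) w := by
        unfold Wm; rw [if_pos hg']
      rw [e2]
      have hconst : ∀ p ∈ M41.alT r i g g',
          ∑ w ∈ ArchSet r (g + jump p) (2 * n - (p.1.length + p.2.length)),
            Phi r s θ v eps n (p.1 ++ w ++ p.2) =
          ph θ v i * ((s ^ (i.1 - i.2) * GapKernel.wt eps i g g' : ℝ) : ℂ) *
            ∑ w ∈ ArchSet r g' (2 * (n - i.1)), Phi r s θ v eps (n - i.1) w := by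
        intro p hp
        obtain ⟨h1, h3, h4, h5⟩ := (M41.mem_alT _ _ _ _ _).1 hp
        have hp1 := ((M41.mem_allowed _ _ _).1 h1).1
        have hx' := ((M41.mem_allowed _ _ _).1 h1).2.2.1
        have hht := ht_eq hp1
        rw [mul_sum]
        have hset : ArchSet r (g + jump p) (2 * n - (p.1.length + p.2.length)) =
            ArchSet r g' (2 * (n - i.1)) := by
          rw [h3, h5, show g + (g' - g) = g' by ring,
            show 2 * n - 2 * i.1 = 2 * (n - i.1) by omega]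
        rw [hset]
        apply sum_congr rfl
        intro w hw
        have hw' := (M41.mem_ArchSet _ _ _ _).1 hw
        have hhg := h.2.1 g' w hg' hw'.2.1
        rw [hw'.1] at hhg
        have hwb : w ∈ ArchSet r (g + jump p) (2 * (n - i.1)) := by
          rw [h5, show g + (g' - g) = g' by ring]; exact hw
        have hh := h.1 r g (2 * (n - i.1)) p w hg h1 hwb
        have hA := M41.Ar_step k2' r g (2 * n) hg p h1 w (by
          rw [h3, show 2 * n - 2 * i.1 = 2 * (n - i.1) by omega]; exact hwb)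
        have htn_eq : htn p = i.2 := by omega
        have e5 : s ^ (n - (i.2 + hgt w)) = s ^ (i.1 - i.2) * s ^ (n - i.1 - hgt w) := by
          rw [← pow_add]
          congr 1
          omega
        have e6 : ph θ v (n, i.2 + hgt w) = ph θ v i * ph θ v (n - i.1, hgt w) := by
          have := ph_add θ v i.1 i.2 (n - i.1) (hgt w)
          rw [show i.1 + (n - i.1) = n by omega] at this
          exact this
        have e7 : (((ht p * (2 * g + jump p)).toNat : ℕ) : ℝ) = (i.2 : ℝ) * ((g : ℝ) + (g' : ℝ)) := by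
          rw [h4, h5, show 2 * g + (g' - g) = g + g' by ring]
          have hnn : 0 ≤ (i.2 : ℤ) * (g + g') := by positivity
          have : ((((i.2 : ℤ) * (g + g')).toNat : ℕ) : ℤ) = (i.2 : ℤ) * (g + g') :=
            Int.toNat_of_nonneg hnn
          calc (((((i.2 : ℤ) * (g + g')).toNat : ℕ)) : ℝ)
              = (((((i.2 : ℤ) * (g + g')).toNat : ℕ) : ℤ) : ℝ) := by norm_cast
            _ = (((i.2 : ℤ) * (g + g') : ℤ) : ℝ) := by rw [this]
            _ = _ := by push_cast; ring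
        have e8 : Real.exp (-(eps * ((M41.Ar r w + (ht p * (2 * g + jump p)).toNat : ℕ) : ℝ))) =
            GapKernel.wt eps i g g' * Real.exp (-(eps * (M41.Ar r w : ℝ))) := by
          unfold GapKernel.wt
          rw [← Real.exp_add]
          congr 1
          push_cast [e7]
          ring
        unfold Phi
        rw [hA, hh, htn_eq, e5, e6, e8]
        push_cast
        ring
      rw [sum_congr rfl hconst, sum_const, nsmul_eq_mul]
      push_cast
      ring
    · rw [Wm_supp r s θ v eps (n - i.1) g' (Or.inr (by omega)), mul_zero]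
      apply sum_eq_zero
      intro p hp
      exfalso
      obtain ⟨h1, h3, h4, h5⟩ := (M41.mem_alT _ _ _ _ _).1 hp
      have := ((M41.mem_allowed _ _ _).1 h1).2.2.1
      omega
  · rw [if_neg hin]
    apply sum_eq_zero
    intro g' _
    rw [hfib g']
    apply sum_eq_zero
    intro p hp
    obtain ⟨h1, h3, h4, h5⟩ := (M41.mem_alT _ _ _ _ _).1 hp
    rw [h3, show 2 * n - 2 * i.1 = 0 by omega, M41.ArchSet_zero, sum_empty]

/-- the truncated recursion -/
lemma Wm_trunc (h : HG_Stmt) (r : ℕ) (s : ℝ) (hs : 0 < s) (θ v eps : ℝ) (N n : ℕ)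
    (hN : n ≤ N) (g : ℤ) (hg : 1 ≤ g) :
    Wm r s θ v eps n g = capC r s θ v n g + ∑ i ∈ (kern r s hs).S, if i.1 ≤ n then
      ∑ g' ∈ Icc (1 : ℤ) N,
        ph θ v i * (((kern r s hs).K i g g' * GapKernel.wt eps i g g' : ℝ) : ℂ) *
          Wm r s θ v eps (n - i.1) g' else 0 := by
  rw [Wm_step h r s hs θ v eps n g hg]
  congr 1
  apply sum_congr rfl
  intro i _
  split_ifs with hi
  · set f : ℤ → ℂ := fun g' =>
      ph θ v i * (((kern r s hs).K i g g' * GapKernel.wt eps i g g' : ℝ) : ℂ) *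
          Wm r s θ v eps (n - i.1) g' with hf
    have hz1 : ∀ g' : ℤ, g' ∉ Icc (1 : ℤ) N → f g' = 0 := by
      intro g' hg'
      rw [mem_Icc] at hg'
      rw [hf]
      simp only
      rw [Wm_supp, mul_zero]
      have : ((n - i.1 : ℕ) : ℤ) ≤ N := by omega
      omega
    have hz2 : ∀ g' : ℤ, g' ∉ Icc (g - (r + 2 : ℕ)) (g + (r + 2 : ℕ)) → f g' = 0 := by
      intro g' hg'
      rw [mem_Icc] at hg'
      have hR : ((kern r s hs).R : ℤ) < |g' - g| := by
        have : (kern r s hs).R = r + 2 := rfl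
        rw [this]
        rw [lt_abs]
        omega
      have h1 := (kern r s hs).K_le i g g'
      rw [(kern r s hs).T_range i (g' - g) hR] at h1
      have h2 := (kern r s hs).K_nonneg i g g'
      have h3 : (kern r s hs).K i g g' = 0 := le_antisymm h1 h2
      rw [hf]
      simp only
      rw [h3]
      simp
    have a1 : ∑ g' ∈ Icc (g - (r + 2 : ℕ)) (g + (r + 2 : ℕ)) ∩ Icc (1 : ℤ) N, f g' =
        ∑ g' ∈ Icc (g - (r + 2 : ℕ)) (g + (r + 2 : ℕ)), f g' := by
      apply sum_subset inter_subset_left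
      intro x hx hx'
      exact hz1 x (fun hh => hx' (mem_inter.2 ⟨hx, hh⟩))
    have a2 : ∑ g' ∈ Icc (g - (r + 2 : ℕ)) (g + (r + 2 : ℕ)) ∩ Icc (1 : ℤ) N, f g' =
        ∑ g' ∈ Icc (1 : ℤ) N, f g' := by
      apply sum_subset inter_subset_right
      intro x hx hx'
      exact hz2 x (fun hh => hx' (mem_inter.2 ⟨hh, hx⟩))
    rw [← a1, a2]
  · rfl

lemma bt_eq (h : HG_Stmt) (r : ℕ) (s : ℝ) (hs : 0 < s) (θ v eps : ℝ) (N n : ℕ)
    (hN : n ≤ N) (bt : ℕ → ℤ → ℂ)
    (hb : IsArrT (kern r s hs) (ph θ v) (capC r s θ v) eps N bt) :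
    ∀ m ≤ n, ∀ g : ℤ, bt m g = Wm r s θ v eps m g := by
  intro m
  induction m using Nat.strong_induction_on with
  | _ m ih =>
    intro hm g
    by_cases hg : 1 ≤ g
    · by_cases hgN : g ≤ N
      · rw [hb.step m g hg hgN, Wm_trunc h r s hs θ v eps N m (by omega) g hg]
        congr 1
        apply sum_congr rfl
        intro i hi
        have hi1 := ((kern r s hs).pos_mem i hi).1
        split_ifs with him
        · apply sum_congr rfl
          intro g' _
          rw [ih (m - i.1) (by omega) (by omega) g']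
        · rfl
      · rw [hb.zero m g (Or.inr (by omega)), Wm_supp]
        left
        have : (m : ℤ) ≤ N := by omega
        omega
    · rw [hb.zero m g (Or.inl (by omega)), Wm_supp]
      right
      omega

lemma sum_range_evenC (f : ℕ → ℂ) (hf : ∀ m, f (2 * m + 1) = 0) (n : ℕ) :
    ∑ M ∈ range (2 * (n + 1)), f M = ∑ m ∈ range (n + 1), f (2 * m) := by
  induction n with
  | zero =>
    have := hf 0
    simp only [mul_zero, zero_add] at this
    simp [sum_range_succ, this]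
  | succ n ih =>
    rw [sum_range_succ (fun m => f (2 * m)) (n + 1), ← ih,
      show 2 * (n + 1 + 1) = (2 * (n + 1)) + 1 + 1 by ring, sum_range_succ, sum_range_succ,
      hf (n + 1), add_zero]

lemma cap_suppC (r : ℕ) (s θ v : ℝ) (m : ℕ) (g : ℤ) (hg : (m : ℤ) < g) :
    capC r s θ v m g = 0 := by
  unfold capC
  split_ifs with h
  · rw [M41.CapSet_empty H66.k5cap r g (2 * m) h (by omega)]
    simp
  · rfl

lemma countC (h : HG_Stmt) (n : ℕ) (hn : 1 ≤ n) (s θ v eps : ℝ) :
    ZT n s θ v eps = ∑ m ∈ range (n + 1), ∑ g ∈ Icc (1 : ℤ) ((2 * n : ℕ) : ℤ),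
      capC (2 * n - 1) s θ v m g * Wm (2 * n - 1) s θ v eps (n - m) g := by
  unfold ZT
  have hO : Omn n = M41.Om (2 * n - 1) n := rfl
  rw [hO]
  unfold M41.Om
  rw [sum_sigma]
  simp_rw [sum_sigma, sum_product]
  rw [sum_comm]
  set r : ℕ := 2 * n - 1 with hr
  set f : ℕ → ℂ := fun M => ∑ x ∈ Icc (1 : ℤ) r,
    ∑ T ∈ CapSet r x M, ∑ w ∈ ArchSet r x (2 * n - M),
      ((s ^ (n - (hgt w + hgt T)) * Real.exp (-(eps * (M41.Ar r w : ℝ))) : ℝ) : ℂ) *
        ph θ v (n, hgt w + hgt T) with hf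
  have hodd : ∀ m, f (2 * m + 1) = 0 := by
    intro m
    apply sum_eq_zero
    intro x hx
    rw [M41.CapSet_empty H66.k5cap r x (2 * m + 1) (mem_Icc.1 hx).1 (by omega)]
    simp
  have hbig : ∀ M, r + 2 ≤ M → f M = 0 := by
    intro M hM
    apply sum_eq_zero
    intro x hx
    rw [M41.CapSet_empty H66.k5cap r x M (mem_Icc.1 hx).1 (by omega)]
    simp
  have e1 : ∑ M ∈ range (r + 2), f M = ∑ M ∈ range (2 * (n + 1)), f M := by
    apply sum_subset
    · intro a ha; rw [mem_range] at *; omega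
    · intro a _ ha
      rw [mem_range] at ha
      exact hbig a (by omega)
  have e0 : ∑ M ∈ range (r + 2), ∑ x ∈ Icc (1 : ℤ) r, ∑ T ∈ CapSet r x M,
      ∑ w ∈ ArchSet r x (2 * n - M),
        ((wtq n s ⟨x, M, T, w⟩ * Real.exp (-(eps * (arq n ⟨x, M, T, w⟩ : ℝ))) : ℝ) : ℂ) *
          ph θ v (n, sp ⟨x, M, T, w⟩) = ∑ M ∈ range (r + 2), f M := rfl
  rw [e0, e1, sum_range_evenC f hodd n]
  apply sum_congr rfl
  intro m hm
  rw [mem_range] at hm
  rw [hf]
  simp only
  have e2 : ∑ g ∈ Icc (1 : ℤ) ((2 * n : ℕ) : ℤ),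
        capC r s θ v m g * Wm r s θ v eps (n - m) g =
      ∑ g ∈ Icc (1 : ℤ) r, capC r s θ v m g * Wm r s θ v eps (n - m) g := by
    symm
    apply sum_subset
    · intro a ha; rw [mem_Icc] at *; push_cast; omega
    · intro a ha ha'
      rw [mem_Icc] at ha ha'
      push_cast at ha
      rw [cap_suppC r s θ v m a (by omega)]
      simp
  rw [e2]
  apply sum_congr rfl
  intro g hg
  have hg1 := (mem_Icc.1 hg).1
  unfold capC Wm
  rw [if_pos hg1, if_pos hg1, sum_mul]
  apply sum_congr rfl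
  intro T hT
  have hT' := (M41.mem_CapSet _ _ _ _).1 hT
  have hhT := h.2.1 g T hg1 hT'.2.1
  rw [hT'.1] at hhT
  rw [show 2 * n - 2 * m = 2 * (n - m) by omega, mul_sum]
  apply sum_congr rfl
  intro w hw
  have hw' := (M41.mem_ArchSet _ _ _ _).1 hw
  have hhw := h.2.1 g w hg1 hw'.2.1
  rw [hw'.1] at hhw
  have e3 : s ^ (n - (hgt w + hgt T)) = s ^ (m - hgt T) * s ^ (n - m - hgt w) := by
    rw [← pow_add]
    congr 1
    omega
  have e4 : ph θ v (n, hgt w + hgt T) = ph θ v (m, hgt T) * ph θ v (n - m, hgt w) := by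
    have := ph_add θ v m (hgt T) (n - m) (hgt w)
    rw [show m + (n - m) = n by omega, add_comm (hgt T) (hgt w)] at this
    exact this
  unfold Phi
  rw [e3, e4]
  push_cast
  ring

end Pool.Agent.PFS.BTWx

namespace Pool.Agent.PFS

open Finset Pool.Agent.FL Pool.Agent.Gap

/-- Module BTW. -/
theorem t_BTW (h : HG_Stmt) : BTW_Stmt := by
  intro n s hs θ v eps hn heps N hN bt hb
  have hb' : IsArrT (FL.KW.kern (2 * n - 1) s hs) (ph θ v) (BTWx.capC (2 * n - 1) s θ v) eps N
      bt := hb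
  have key := BTWx.bt_eq h (2 * n - 1) s hs θ v eps N n (by omega) bt hb'
  rw [BTWx.countC h n (by omega) s θ v eps, closec]
  apply sum_congr rfl
  intro m hm
  apply sum_congr rfl
  intro g _
  rw [key (n - m) (by omega) g, BTWx.capP_eq]

end Pool.Agent.PFS
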