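import Pool.Agent.PFS.StmtsC

/-!
# Project PFS (MP_f6626d_co), module CENS: the centre for the canonical words
-/

set_option autoImplicit false

namespace Pool.Agent.PFS

open Finset Filter Topology MeasureTheory
open Pool.Agent.Lib27 Pool.Agent.SapR Pool.Agent.Gap Pool.Agent.AreaLaw Pool.Agent.FL
open Pool.Agent.FS

namespace CENSx

/-- the sum in the definition of the centre -/
lemma force_cen (hHG : Pool.Agent.FL.HG_Stmt) (hTR : Pool.Agent.FL.TR_Stmt) (n : ℕ) (hn : 1 ≤ n)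
    (f m : ℝ) :
    ∑ s ∈ SAP n, Real.exp (f * span n s) * ((span n s : ℝ) - m) =
      Real.exp (f * n) * (4 * n * ∑ q ∈ Omn n, wtq n (Real.exp (-f)) q * ((sp q : ℝ) - m) +
        ∑ w ∈ NoCut n, Real.exp (-f) ^ (n - spn w) * ((spn w : ℝ) - m)) := by
  have h := hTR n hn (fun _ b => Real.exp (f * b) * ((b : ℝ) - m))
  rw [h]
  have hexp : ∀ b : ℕ, b ≤ n → Real.exp (f * b) = Real.exp (f * n) * Real.exp (-f) ^ (n - b) := by
    intro b hb
    rw [← Real.exp_nat_mul, ← Real.exp_add]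
    congr 1
    rw [Nat.cast_sub hb]
    ring
  rw [mul_add, mul_sum, mul_sum, mul_sum, mul_sum]
  congr 1
  · refine sum_congr rfl fun q hq => ?_
    have h3 := hexp _ (height_le hHG n q hq)
    rw [h3]
    unfold wtq sp
    ring
  · refine sum_congr rfl fun w hw => ?_
    have hw' : w ∈ W n := by
      classical
      exact (Finset.mem_filter.1 hw).1
    have h3 := hexp _ (spn_le n w hw')
    rw [h3]
    ring

/-- the words without cut -/
lemma rest_le (n : ℕ) (s m : ℝ) (hs : 0 < s) (hm0 : 0 ≤ m) (hmn : m ≤ n) :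
    |∑ w ∈ NoCut n, s ^ (n - spn w) * ((spn w : ℝ) - m)| ≤ n * FS.EXPM.NCs n s := by
  unfold FS.EXPM.NCs
  rw [mul_sum]
  refine (abs_sum_le_sum_abs _ _).trans (sum_le_sum fun w hw => ?_)
  have hw' : w ∈ W n := by
    classical
    exact (Finset.mem_filter.1 hw).1
  have h1 : ((spn w : ℕ) : ℝ) ≤ n := by exact_mod_cast spn_le n w hw'
  have h2 : (0 : ℝ) ≤ spn w := Nat.cast_nonneg _
  have h3 : 0 < s ^ (n - spn w) := pow_pos hs _
  rw [abs_mul, abs_of_pos h3, mul_comm (n : ℝ)]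
  refine mul_le_mul_of_nonneg_left ?_ h3.le
  rw [abs_le]
  constructor <;> linarith

end CENSx

open CENSx in
theorem t_CENS (h1 : NCB_Stmt) (h2 : FL.TR_Stmt) (h3 : FL.HG_Stmt) : CENS_Stmt := by
  obtain ⟨c, hc, N, hN⟩ := h1 1
  refine ⟨c, hc, max N 1, fun n hn f hf m hm0 hmn hcen => ?_⟩
  have hn1 : 1 ≤ n := (le_max_right _ _).trans hn
  have hNC := hN n ((le_max_left _ _).trans hn) f hf
  rw [pow_one] at hNC
  have hnr : (1 : ℝ) ≤ n := by exact_mod_cast hn1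
  have hs : 0 < Real.exp (-f) := Real.exp_pos _
  have hR := rest_le n (Real.exp (-f)) m hs hm0 hmn
  unfold Cen at hcen
  rw [force_cen h3 h2 n hn1 f m, EXPM.forceZ_eq h3 h2 n hn1 f, abs_mul,
    abs_of_pos (Real.exp_pos _)] at hcen
  have hcen' := le_of_mul_le_mul_left hcen (Real.exp_pos _)
  have hNC0 : 0 ≤ FS.EXPM.NCs n (Real.exp (-f)) := by
    unfold FS.EXPM.NCs
    exact sum_nonneg fun w _ => by positivity
  obtain ⟨S, hS⟩ : ∃ S, S = ∑ q ∈ Omn n, wtq n (Real.exp (-f)) q * ((sp q : ℝ) - m) := ⟨_, rfl⟩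
  obtain ⟨R, hRd⟩ : ∃ R, R = ∑ w ∈ NoCut n, Real.exp (-f) ^ (n - spn w) * ((spn w : ℝ) - m) :=
    ⟨_, rfl⟩
  obtain ⟨Z, hZ⟩ : ∃ Z, Z = Zq n (Real.exp (-f)) := ⟨_, rfl⟩
  obtain ⟨K, hK⟩ : ∃ K, K = FS.EXPM.NCs n (Real.exp (-f)) := ⟨_, rfl⟩
  rw [← hRd, ← hK] at hR
  rw [← hK] at hNC0
  rw [← hK, ← hZ] at hNC
  rw [← hS, ← hRd, ← hZ, ← hK] at hcen'
  rw [← hS, ← hZ]
  have h4 : |4 * n * S| ≤ 4 * n * Z + K + n * K := by
    have h5 : 4 * n * S = (4 * n * S + R) - R := by ring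
    rw [h5]
    refine (abs_sub _ _).trans ?_
    linarith
  have h6 : K ≤ n * K := by nlinarith
  have hZ0 : 0 ≤ Z := by nlinarith
  have h7 : Z ≤ n * Z := by nlinarith
  have h8 : |4 * n * S| ≤ 4 * n * (2 * Z) := by nlinarith
  rw [abs_mul, abs_of_pos (by linarith : (0 : ℝ) < 4 * n)] at h8
  exact le_of_mul_le_mul_left h8 (by linarith)

end Pool.Agent.PFS
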