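import Pool.Agent.PFS.StmtsC
import Pool.Agent.Lib_helper89.FL.FinB

/-!
# Project PFS (MP_f6626d_co), module CENT: the centre of the Gaussian
-/

set_option autoImplicit false

namespace Pool.Agent.PFS

open Finset Filter Topology MeasureTheory
open Pool.Agent.Lib27 Pool.Agent.SapR Pool.Agent.Gap Pool.Agent.AreaLaw Pool.Agent.FL
open Pool.Agent.FS

namespace CENTx

/-- the bell function is Lipschitz -/
theorem bell (a b : ℝ) (_ha : 0 ≤ a) (hab : a ≤ b) :
    Real.exp (-a ^ 2) - Real.exp (-b ^ 2) ≤ (b - a) * (1 + (b - a)) := by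
  have h1 : Real.exp (-b ^ 2) = Real.exp (-a ^ 2) * Real.exp (-(b ^ 2 - a ^ 2)) := by
    rw [← Real.exp_add]
    congr 1
    ring
  have h2 : 1 - (b ^ 2 - a ^ 2) ≤ Real.exp (-(b ^ 2 - a ^ 2)) := by
    linarith [Real.add_one_le_exp (-(b ^ 2 - a ^ 2))]
  have h3 : Real.exp (-a ^ 2) * (2 * a) ≤ 1 := by
    rw [Real.exp_neg, inv_mul_le_iff₀ (Real.exp_pos _)]
    nlinarith [Real.add_one_le_exp (a ^ 2), sq_nonneg (a - 1)]
  have h4 : Real.exp (-a ^ 2) ≤ 1 := Real.exp_le_one_iff.2 (by nlinarith [sq_nonneg a])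
  have h5 : 0 ≤ Real.exp (-a ^ 2) := (Real.exp_pos _).le
  have h6 : Real.exp (-a ^ 2) * (1 - Real.exp (-(b ^ 2 - a ^ 2))) ≤
      Real.exp (-a ^ 2) * (b ^ 2 - a ^ 2) := mul_le_mul_of_nonneg_left (by linarith) h5
  have h7 : Real.exp (-a ^ 2) * (b ^ 2 - a ^ 2) =
      (Real.exp (-a ^ 2) * (2 * a)) * (b - a) + Real.exp (-a ^ 2) * (b - a) ^ 2 := by ring
  have h8 : (Real.exp (-a ^ 2) * (2 * a)) * (b - a) ≤ 1 * (b - a) :=
    mul_le_mul_of_nonneg_right h3 (by linarith)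
  have h9 : Real.exp (-a ^ 2) * (b - a) ^ 2 ≤ 1 * (b - a) ^ 2 :=
    mul_le_mul_of_nonneg_right h4 (sq_nonneg _)
  rw [h1]
  nlinarith

theorem bell_mono (a b : ℝ) (ha : 0 ≤ a) (hab : a ≤ b) :
    Real.exp (-b ^ 2) ≤ Real.exp (-a ^ 2) := by
  refine Real.exp_le_exp.2 ?_
  nlinarith

/-- the Gaussian weight in terms of the bell function -/
theorem gau_eq (n : ℕ) (v κ h Q : ℝ) (hQ : 0 < Q) (hQ2 : κ * n = Q ^ 2) :
    gau n v κ h = Real.exp (-(|h - v * n| / (2 * Q)) ^ 2) / (2 * (Real.sqrt Real.pi * Q)) := by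
  unfold gau
  have h1 : Real.sqrt (Real.pi * κ * n) = Real.sqrt Real.pi * Q := by
    rw [mul_assoc, hQ2, Real.sqrt_mul Real.pi_pos.le, Real.sqrt_sq hQ.le]
  have h2 : 4 * κ * n = (2 * Q) ^ 2 := by
    rw [mul_assoc, hQ2]
    ring
  rw [h1, h2, div_pow, sq_abs]

theorem sqrt_pi : (1 : ℝ) ≤ Real.sqrt Real.pi := by
  rw [Real.one_le_sqrt]
  linarith [Real.pi_gt_three]

/-- symmetry of the Gaussian weight about its centre -/
theorem gau_diff (n : ℕ) (v κ : ℝ) (j i : ℕ) (hi : i ≤ j) (hj : (j : ℝ) ≤ v * n)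
    (hj' : v * n ≤ j + 1) (hκ : 1 ≤ κ * n) :
    |gau n v κ ((j + i : ℕ) : ℝ) - gau n v κ ((j - i : ℕ) : ℝ)| ≤ 1 / (κ * n) := by
  set Q := Real.sqrt (κ * n) with hQdef
  have hQ1 : 1 ≤ Q := by
    rw [hQdef, Real.one_le_sqrt]
    exact hκ
  have hQ : 0 < Q := by linarith
  have hQ2 : κ * n = Q ^ 2 := (Real.sq_sqrt (by linarith)).symm
  rw [gau_eq n v κ _ Q hQ hQ2, gau_eq n v κ _ Q hQ hQ2]
  push_cast [Nat.cast_sub hi]
  set r := v * n - j with hr
  have hr0 : 0 ≤ r := by linarith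
  have hr1 : r ≤ 1 := by linarith
  have hi0 : (0 : ℝ) ≤ i := Nat.cast_nonneg i
  have e1 : (j : ℝ) + i - v * n = i - r := by rw [hr]; ring
  have e2 : (j : ℝ) - i - v * n = -(i + r) := by rw [hr]; ring
  rw [e1, e2, abs_neg, abs_of_nonneg (by linarith : (0 : ℝ) ≤ i + r)]
  set a := |(i : ℝ) - r| / (2 * Q) with ha
  set b := ((i : ℝ) + r) / (2 * Q) with hb
  have ha0 : 0 ≤ a := by positivity
  have h3 : |(i : ℝ) - r| ≤ i + r := by
    rw [abs_le]
    constructor <;> linarith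
  have hab : a ≤ b := div_le_div_of_nonneg_right h3 (by linarith)
  have h4 : (i : ℝ) - r ≤ |(i : ℝ) - r| := le_abs_self _
  have h5 : b - a ≤ 1 / Q := by
    rw [ha, hb, ← sub_div, div_le_div_iff₀ (by linarith) hQ]
    nlinarith
  have h6 : 1 / Q ≤ 1 := by
    rw [div_le_one hQ]
    exact hQ1
  have h7 := bell a b ha0 hab
  have h8 := bell_mono a b ha0 hab
  have h9 : (b - a) * (1 + (b - a)) ≤ 1 / Q * 2 :=
    mul_le_mul h5 (by linarith) (by linarith) (by positivity)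
  have hs := sqrt_pi
  rw [← sub_div, abs_of_nonneg (div_nonneg (by linarith) (by positivity)), hQ2,
    div_le_div_iff₀ (by positivity) (by positivity)]
  have h10 : 1 / Q * Q = 1 := by field_simp
  have h11 : (Real.exp (-a ^ 2) - Real.exp (-b ^ 2)) * Q ^ 2 ≤ (1 / Q * 2) * Q ^ 2 :=
    mul_le_mul_of_nonneg_right (by linarith) (sq_nonneg _)
  have h12 : (1 / Q * 2) * Q ^ 2 = 2 * Q := by
    field_simp
  nlinarith

/-- the Gaussian weight is small away from its centre -/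
theorem gau_far (n : ℕ) (v κ h d Q : ℝ) (hd : 0 < d) (hQ : 0 < Q) (hQ2 : Q ^ 2 ≤ κ * n)
    (hh : d ≤ |h - v * n|) :
    gau n v κ h ≤ 4 * (κ * n) / d ^ 2 / (2 * Q) := by
  have hκ : 0 < κ * n := lt_of_lt_of_le (by positivity) hQ2
  unfold gau
  have h0 : d ^ 2 ≤ (h - v * n) ^ 2 := by
    rw [← sq_abs (h - v * n)]
    exact pow_le_pow_left₀ hd.le hh 2
  have hd2 : 0 < d ^ 2 := by positivity
  have h1 : 0 < (h - v * n) ^ 2 / (4 * κ * n) := by
    rw [mul_assoc]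
    exact div_pos (by linarith) (by linarith)
  have h2 : Real.exp (-((h - v * n) ^ 2 / (4 * κ * n))) ≤ 4 * (κ * n) / d ^ 2 := by
    have h3 : Real.exp (-((h - v * n) ^ 2 / (4 * κ * n))) ≤
        1 / ((h - v * n) ^ 2 / (4 * κ * n)) := by
      rw [Real.exp_neg, ← one_div]
      refine one_div_le_one_div_of_le h1 ?_
      linarith [Real.add_one_le_exp ((h - v * n) ^ 2 / (4 * κ * n))]
    refine h3.trans ?_
    rw [one_div_div, mul_assoc]
    exact div_le_div_of_nonneg_left (by linarith) hd2 h0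
  have h4 : Q ≤ Real.sqrt (Real.pi * κ * n) := by
    refine Real.le_sqrt_of_sq_le ?_
    rw [mul_assoc]
    nlinarith [Real.pi_gt_three]
  exact div_le_div₀ (by positivity) h2 (by positivity) (by linarith)

/-- the window around the centre -/
theorem window (p : ℕ → ℝ) (j : ℕ) (ε : ℝ) (hε : 0 ≤ ε) (B : ℕ) (hB : B ≤ j)
    (hp : ∀ i : ℕ, i ≤ B → |p (j + i) - p (j - i)| ≤ ε) :
    |∑ k ∈ Ico (j - B) (j + B + 1), p k * ((k : ℝ) - j)| ≤ (B : ℝ) ^ 2 * ε := by
  induction B with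
  | zero => simp
  | succ B ih =>
    have h1 := ih (by omega) (fun i hi => hp i (by omega))
    have h2 : ∑ k ∈ Ico (j - (B + 1)) (j + (B + 1) + 1), p k * ((k : ℝ) - j) =
        (∑ k ∈ Ico (j - B) (j + B + 1), p k * ((k : ℝ) - j)) +
          ((B : ℝ) + 1) * (p (j + (B + 1)) - p (j - (B + 1))) := by
      rw [Finset.sum_Ico_succ_top (by omega), Finset.sum_eq_sum_Ico_succ_bot (by omega)]
      have h3 : j - (B + 1) + 1 = j - B := by omega
      rw [h3]
      push_cast [Nat.cast_sub hB]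
      have h4 : j + (B + 1) = j + B + 1 := rfl
      rw [h4]
      ring
    have h5 := hp (B + 1) le_rfl
    rw [h2]
    refine (abs_add_le _ _).trans ?_
    rw [abs_mul, abs_of_nonneg (by positivity : (0 : ℝ) ≤ (B : ℝ) + 1)]
    have h6 : ((B : ℝ) + 1) * |p (j + (B + 1)) - p (j - (B + 1))| ≤ ((B : ℝ) + 1) * ε :=
      mul_le_mul_of_nonneg_left h5 (by positivity)
    have h7 : (0 : ℝ) ≤ B := Nat.cast_nonneg B
    push_cast
    nlinarith [mul_nonneg h7 hε]

/-- the sum of `p k (k - j)` -/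
theorem mean_bound (p : ℕ → ℝ) (R j B : ℕ) (ε W : ℝ) (hε : 0 ≤ ε) (hB : B ≤ j) (hB0 : 0 < B)
    (hR : j + B < R) (hp0 : ∀ k, 0 ≤ p k)
    (hp : ∀ i : ℕ, i ≤ B → |p (j + i) - p (j - i)| ≤ ε)
    (hW : ∑ k ∈ range R, p k * ((k : ℝ) - j) ^ 2 ≤ W) :
    |∑ k ∈ range R, p k * ((k : ℝ) - j)| ≤ (B : ℝ) ^ 2 * ε + W / B := by
  have hBr : (0 : ℝ) < B := by exact_mod_cast hB0
  have h1 : (range R).filter (fun k => j ≤ k + B ∧ k ≤ j + B) = Ico (j - B) (j + B + 1) := by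
    ext k
    simp only [Finset.mem_filter, Finset.mem_range, Finset.mem_Ico]
    omega
  have h2 := window p j ε hε B hB hp
  rw [← h1, Finset.sum_filter] at h2
  have h3 : |(∑ k ∈ range R, p k * ((k : ℝ) - j)) -
      ∑ k ∈ range R, (if j ≤ k + B ∧ k ≤ j + B then p k * ((k : ℝ) - j) else 0)| ≤ W / B := by
    rw [← Finset.sum_sub_distrib]
    refine (Finset.abs_sum_le_sum_abs _ _).trans ?_
    have h4 : ∑ k ∈ range R, |p k * ((k : ℝ) - j) -
        (if j ≤ k + B ∧ k ≤ j + B then p k * ((k : ℝ) - j) else 0)| ≤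
        ∑ k ∈ range R, p k * ((k : ℝ) - j) ^ 2 / B := by
      refine Finset.sum_le_sum fun k _ => ?_
      split_ifs with hk
      · rw [sub_self, abs_zero]
        exact div_nonneg (mul_nonneg (hp0 k) (sq_nonneg _)) hBr.le
      · rw [sub_zero, abs_mul, abs_of_nonneg (hp0 k), mul_div_assoc]
        refine mul_le_mul_of_nonneg_left ?_ (hp0 k)
        rw [le_div_iff₀ hBr, ← sq_abs]
        have h5 : (B : ℝ) ≤ |(k : ℝ) - j| := by
          rw [le_abs]
          by_cases h6 : j ≤ k + B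
          · have h7 : j + B ≤ k := by
              by_contra h8
              exact hk ⟨h6, by omega⟩
            left
            have h9 : (j : ℝ) + B ≤ k := by exact_mod_cast h7
            linarith
          · right
            have h9 : (k : ℝ) + B ≤ j := by
              have : k + B ≤ j := by omega
              exact_mod_cast this
            linarith
        nlinarith [abs_nonneg ((k : ℝ) - j)]
    refine h4.trans ?_
    rw [← Finset.sum_div]
    exact div_le_div_of_nonneg_right hW hBr.le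
  have h5 := abs_sub_abs_le_abs_sub (∑ k ∈ range R, p k * ((k : ℝ) - j))
    (∑ k ∈ range R, (if j ≤ k + B ∧ k ≤ j + B then p k * ((k : ℝ) - j) else 0))
  linarith

/-- Chebyshev -/
theorem cheb (p : ℕ → ℝ) (R h b : ℕ) (τ V : ℝ) (hb : 0 < b) (hτ0 : 0 ≤ τ)
    (hp0 : ∀ k, 0 ≤ p k) (h1 : ∑ k ∈ range R, p k = 1)
    (hV : ∑ k ∈ range R, p k * ((k : ℝ) - h) ^ 2 ≤ V)
    (hτ : ∀ k : ℕ, |(k : ℝ) - h| ≤ b → p k ≤ τ) :
    1 ≤ (2 * (b : ℝ) + 1) * τ + V / (b : ℝ) ^ 2 := by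
  have hbr : (0 : ℝ) < b := by exact_mod_cast hb
  have h2 : ∑ k ∈ range R, p k ≤ ∑ k ∈ range R,
      ((if k ∈ Icc (h - b) (h + b) then τ else 0) + p k * ((k : ℝ) - h) ^ 2 / (b : ℝ) ^ 2) := by
    refine Finset.sum_le_sum fun k _ => ?_
    split_ifs with hk
    · rw [Finset.mem_Icc] at hk
      have h3 : |(k : ℝ) - h| ≤ b := by
        rw [abs_le]
        have h4 : (h : ℝ) ≤ k + b := by
          have : h ≤ k + b := by omega
          exact_mod_cast this
        have h5 : (k : ℝ) ≤ h + b := by exact_mod_cast hk.2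
        constructor <;> linarith
      have h4 := hτ k h3
      have h5 : 0 ≤ p k * ((k : ℝ) - h) ^ 2 / (b : ℝ) ^ 2 :=
        div_nonneg (mul_nonneg (hp0 k) (sq_nonneg _)) (sq_nonneg _)
      linarith
    · rw [zero_add, mul_div_assoc]
      have h3 : (b : ℝ) ≤ |(k : ℝ) - h| := by
        rw [le_abs]
        by_cases h6 : h ≤ k + b
        · left
          have h7 : h + b ≤ k := by
            by_contra h8
            exact hk (Finset.mem_Icc.2 ⟨by omega, by omega⟩)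
          have h9 : (h : ℝ) + b ≤ k := by exact_mod_cast h7
          linarith
        · right
          have h9 : (k : ℝ) + b ≤ h := by
            have : k + b ≤ h := by omega
            exact_mod_cast this
          linarith
      have h4 : 1 ≤ ((k : ℝ) - h) ^ 2 / (b : ℝ) ^ 2 := by
        rw [one_le_div (by positivity), ← sq_abs ((k : ℝ) - h)]
        exact pow_le_pow_left₀ hbr.le h3 2
      nlinarith [hp0 k]
  rw [h1, Finset.sum_add_distrib, Finset.sum_ite_mem, Finset.sum_const, nsmul_eq_mul,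
    ← Finset.sum_div] at h2
  have h3 : ((range R ∩ Icc (h - b) (h + b)).card : ℝ) ≤ 2 * (b : ℝ) + 1 := by
    have h4 : (range R ∩ Icc (h - b) (h + b)).card ≤ 2 * b + 1 := by
      refine (Finset.card_le_card Finset.inter_subset_right).trans ?_
      rw [Nat.card_Icc]
      omega
    exact_mod_cast h4
  have h4 : (∑ k ∈ range R, p k * ((k : ℝ) - h) ^ 2) / (b : ℝ) ^ 2 ≤ V / (b : ℝ) ^ 2 :=
    div_le_div_of_nonneg_right hV (sq_nonneg _)
  have h5 := mul_le_mul_of_nonneg_right h3 hτ0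
  linarith

theorem core (n : ℕ) (X U v κ : ℝ) (hX : 64 ≤ X) (hU : X ^ 29 ≤ U) (hn : (n : ℝ) = (U * X ^ 3) ^ 2)
    (hv : 1 / X ≤ v) (hv1 : v ≤ 1) (hκ : 1 / X ≤ κ) (hκ1 : κ ≤ X) (p : ℕ → ℝ)
    (hp : ∀ k, 0 ≤ p k) (h1 : ∑ k ∈ range (2 * n + 1), p k = 1)
    (hg : ∀ k : ℕ, |p k - gau n v κ k| ≤ 1 / (U * X ^ 18)) (h : ℕ)
    (hV : ∑ k ∈ range (2 * n + 1), p k * ((k : ℝ) - h) ^ 2 ≤ (U * X ^ 3) ^ 2 * X)
    (hM : |∑ k ∈ range (2 * n + 1), p k * ((k : ℝ) - h)| ≤ 2) :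
    |(h : ℝ) - v * n| ≤ U * X ^ 2 := by
  have hX0 : 0 < X := by linarith
  have hX1 : 1 ≤ X := by linarith
  have hU1 : 1 ≤ U := le_trans (one_le_pow₀ hX1) hU
  have hU0 : 0 < U := by linarith
  have hpow : ∀ m : ℕ, 1 ≤ X ^ m := fun m => one_le_pow₀ hX1
  -- the numbers `B` and `b`
  obtain ⟨B, hB1, hB2⟩ : ∃ B : ℕ, U * X ^ 9 ≤ B ∧ (B : ℝ) ≤ 2 * (U * X ^ 9) := by
    refine ⟨⌈U * X ^ 9⌉₊, Nat.le_ceil _, ?_⟩
    have h2 := Nat.ceil_lt_add_one (show 0 ≤ U * X ^ 9 by positivity)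
    have h3 : 1 ≤ U * X ^ 9 := one_le_mul_of_one_le_of_one_le hU1 (hpow 9)
    linarith
  obtain ⟨b, hb1, hb2⟩ : ∃ b : ℕ, U * X ^ 4 ≤ b ∧ (b : ℝ) ≤ 2 * (U * X ^ 4) := by
    refine ⟨⌈U * X ^ 4⌉₊, Nat.le_ceil _, ?_⟩
    have h2 := Nat.ceil_lt_add_one (show 0 ≤ U * X ^ 4 by positivity)
    have h3 : 1 ≤ U * X ^ 4 := one_le_mul_of_one_le_of_one_le hU1 (hpow 4)
    linarith
  have hBr : (0 : ℝ) < B := lt_of_lt_of_le (by positivity) hB1
  have hbr : (0 : ℝ) < b := lt_of_lt_of_le (by positivity) hb1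
  have hB0 : 0 < B := by exact_mod_cast hBr
  have hb0 : 0 < b := by exact_mod_cast hbr
  have hv0 : 0 < v := lt_of_lt_of_le (by positivity) hv
  have hκ0 : 0 < κ := lt_of_lt_of_le (by positivity) hκ
  have hn0 : (0 : ℝ) < n := by rw [hn]; positivity
  -- the centre
  obtain ⟨j, hj1, hj2⟩ : ∃ j : ℕ, (j : ℝ) ≤ v * n ∧ v * n ≤ j + 1 :=
    ⟨⌊v * n⌋₊, Nat.floor_le (by positivity), (Nat.lt_floor_add_one _).le⟩
  have hκn1 : U ^ 2 * X ^ 5 ≤ κ * n := by
    have h2 : 1 / X * n ≤ κ * n := mul_le_mul_of_nonneg_right hκ hn0.le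
    have h3 : 1 / X * (n : ℝ) = U ^ 2 * X ^ 5 := by
      rw [hn]
      field_simp
    linarith
  have hκn2 : κ * n ≤ U ^ 2 * X ^ 7 := by
    have h2 : κ * n ≤ X * n := mul_le_mul_of_nonneg_right hκ1 hn0.le
    have h3 : X * (n : ℝ) = U ^ 2 * X ^ 7 := by
      rw [hn]
      ring
    linarith
  have hvn : U ^ 2 * X ^ 5 ≤ v * n := by
    have h2 : 1 / X * n ≤ v * n := mul_le_mul_of_nonneg_right hv hn0.le
    have h3 : 1 / X * (n : ℝ) = U ^ 2 * X ^ 5 := by
      rw [hn]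
      field_simp
    linarith
  have hκn3 : 1 ≤ κ * n :=
    le_trans (one_le_mul_of_one_le_of_one_le (one_le_pow₀ hU1) (hpow 5)) hκn1
  have hBj : B ≤ j := by
    have h2 : (B : ℝ) ≤ j := by
      have h3 : 3 * (U * X ^ 9) ≤ U ^ 2 * X ^ 5 := by
        have h4 : 3 * X ^ 4 ≤ U := by
          have h5 : X ^ 29 = X ^ 4 * X ^ 25 := by ring
          have h6 : X ≤ X ^ 25 := le_self_pow₀ hX1 (by norm_num)
          have h7 : X ^ 4 * 3 ≤ X ^ 4 * X ^ 25 :=
            mul_le_mul_of_nonneg_left (by linarith) (by positivity)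
          linarith
        have h8 : (3 * X ^ 4) * (U * X ^ 5) ≤ U * (U * X ^ 5) :=
          mul_le_mul_of_nonneg_right h4 (by positivity)
        nlinarith
      have h4 : 1 ≤ U * X ^ 9 := one_le_mul_of_one_le_of_one_le hU1 (hpow 9)
      linarith
    exact_mod_cast h2
  have hjn : j ≤ n := by
    have h2 : (j : ℝ) ≤ n := by nlinarith
    exact_mod_cast h2
  -- differences
  set ε : ℝ := 2 * (1 / (U * X ^ 18)) + 1 / (U ^ 2 * X ^ 5) with hε
  have hε0 : 0 ≤ ε := by positivity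
  have hpε : ∀ i : ℕ, i ≤ B → |p (j + i) - p (j - i)| ≤ ε := by
    intro i hi
    have h2 := hg (j + i)
    have h3 := hg (j - i)
    have h4 := gau_diff n v κ j i (hi.trans hBj) hj1 hj2 hκn3
    have h5 : 1 / (κ * n) ≤ 1 / (U ^ 2 * X ^ 5) :=
      one_div_le_one_div_of_le (by positivity) hκn1
    rw [abs_le] at h2 h3 h4 ⊢
    constructor
    · linarith [h2.1, h3.2, h4.1]
    · linarith [h2.2, h3.1, h4.2]
  have hW : ∑ k ∈ range (2 * n + 1), p k * ((k : ℝ) - j) ^ 2 ≤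
      2 * ((U * X ^ 3) ^ 2 * X) + 2 * ((h : ℝ) - j) ^ 2 := by
    have h2 : ∑ k ∈ range (2 * n + 1), p k * ((k : ℝ) - j) ^ 2 ≤
        ∑ k ∈ range (2 * n + 1),
          (2 * (p k * ((k : ℝ) - h) ^ 2) + 2 * ((h : ℝ) - j) ^ 2 * p k) := by
      refine Finset.sum_le_sum fun k _ => ?_
      have h3 : ((k : ℝ) - j) ^ 2 ≤ 2 * ((k : ℝ) - h) ^ 2 + 2 * ((h : ℝ) - j) ^ 2 := by
        nlinarith [sq_nonneg (((k : ℝ) - h) - ((h : ℝ) - j))]
      have h4 := mul_le_mul_of_nonneg_left h3 (hp k)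
      linarith
    rw [Finset.sum_add_distrib, ← Finset.mul_sum, ← Finset.mul_sum, h1] at h2
    linarith
  have hmean := mean_bound p (2 * n + 1) j B ε _ hε0 hBj hB0 (by omega) hp hpε hW
  have hdiff : (h : ℝ) - j = (∑ k ∈ range (2 * n + 1), p k * ((k : ℝ) - j)) -
      ∑ k ∈ range (2 * n + 1), p k * ((k : ℝ) - h) := by
    rw [← Finset.sum_sub_distrib]
    have h2 : ∀ k ∈ range (2 * n + 1), p k * ((k : ℝ) - j) - p k * ((k : ℝ) - h) =
        p k * ((h : ℝ) - j) := fun k _ => by ring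
    rw [Finset.sum_congr rfl h2, ← Finset.sum_mul, h1, one_mul]
  set L := |(h : ℝ) - j| with hL
  have hL0 : 0 ≤ L := abs_nonneg _
  have hLle : L ≤ (B : ℝ) ^ 2 * ε + (2 * ((U * X ^ 3) ^ 2 * X) + 2 * ((h : ℝ) - j) ^ 2) / B + 2 := by
    rw [hL, hdiff]
    rw [← hdiff]
    have h2 : |(h : ℝ) - j| ≤ |∑ k ∈ range (2 * n + 1), p k * ((k : ℝ) - j)| +
        |∑ k ∈ range (2 * n + 1), p k * ((k : ℝ) - h)| := by
      conv_lhs => rw [hdiff]
      exact abs_sub _ _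
    linarith
  -- the a priori bound
  have hprior : L ≤ B / 4 := by
    by_contra hc
    rw [not_le] at hc
    have hτ : ∀ k : ℕ, |(k : ℝ) - h| ≤ b → p k ≤ 129 / (U * X ^ 13) := by
      intro k hk
      have h2 : U * X ^ 9 / 8 ≤ |(k : ℝ) - v * n| := by
        have h3 : L ≤ |(k : ℝ) - h| + |(k : ℝ) - v * n| + |v * n - j| := by
          have h4 : (h : ℝ) - j = -((k : ℝ) - h) + ((k : ℝ) - v * n) + (v * n - j) := by ring
          rw [hL, h4]
          refine (abs_add_le _ _).trans (add_le_add ((abs_add_le _ _).trans ?_) le_rfl)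
          rw [abs_neg]
        have h5 : |v * n - j| ≤ 1 := by
          rw [abs_le]
          constructor <;> linarith
        have h6 : 24 * (U * X ^ 4) ≤ U * X ^ 9 := by
          have h7 : U * X ^ 9 = (U * X ^ 4) * X ^ 5 := by ring
          have h8 : X ≤ X ^ 5 := le_self_pow₀ hX1 (by norm_num)
          have h9 : (U * X ^ 4) * 24 ≤ (U * X ^ 4) * X ^ 5 :=
            mul_le_mul_of_nonneg_left (by linarith) (by positivity)
          linarith
        have h7 : 1 ≤ U * X ^ 4 := one_le_mul_of_one_le_of_one_le hU1 (hpow 4)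
        linarith
      have h3 := gau_far n v κ k (U * X ^ 9 / 8) (U * X ^ 2) (by positivity) (by positivity)
        (by
          refine le_trans ?_ hκn1
          have h4 : (U * X ^ 2) ^ 2 * 1 ≤ (U * X ^ 2) ^ 2 * X :=
            mul_le_mul_of_nonneg_left hX1 (by positivity)
          nlinarith) h2
      have h4 : 4 * (κ * n) / (U * X ^ 9 / 8) ^ 2 / (2 * (U * X ^ 2)) ≤
          4 * (U ^ 2 * X ^ 7) / (U * X ^ 9 / 8) ^ 2 / (2 * (U * X ^ 2)) := by
        gcongr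
      have h5 : 4 * (U ^ 2 * X ^ 7) / (U * X ^ 9 / 8) ^ 2 / (2 * (U * X ^ 2)) =
          128 / (U * X ^ 13) := by
        field_simp
        ring
      have h6 : 1 / (U * X ^ 18) ≤ 1 / (U * X ^ 13) := by
        refine one_div_le_one_div_of_le (by positivity) ?_
        refine mul_le_mul_of_nonneg_left ?_ hU0.le
        exact pow_le_pow_right₀ hX1 (by norm_num)
      have h7 := (abs_le.1 (hg k)).2
      have h8 : 129 / (U * X ^ 13) = 128 / (U * X ^ 13) + 1 / (U * X ^ 13) := by ring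
      rw [h8]
      linarith
    have h2 := cheb p (2 * n + 1) h b _ _ hb0 (by positivity) hp h1 hV hτ
    have h3 : (2 * (b : ℝ) + 1) * (129 / (U * X ^ 13)) ≤ 645 / X ^ 9 := by
      have h4 : 1 ≤ U * X ^ 4 := one_le_mul_of_one_le_of_one_le hU1 (hpow 4)
      have h5 : 2 * (b : ℝ) + 1 ≤ 5 * (U * X ^ 4) := by linarith
      refine (mul_le_mul_of_nonneg_right h5 (by positivity)).trans (le_of_eq ?_)
      field_simp
      ring
    have h4 : 645 / X ^ 9 ≤ 1 / 2 := by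
      have h5 : X ^ 2 ≤ X ^ 9 := pow_le_pow_right₀ hX1 (by norm_num)
      rw [div_le_div_iff₀ (by positivity) (by norm_num)]
      nlinarith
    have h5 : (U * X ^ 3) ^ 2 * X / (b : ℝ) ^ 2 ≤ 1 / 4 := by
      rw [div_le_div_iff₀ (by positivity) (by norm_num)]
      have h6 : (U * X ^ 4) ^ 2 ≤ (b : ℝ) ^ 2 := pow_le_pow_left₀ (by positivity) hb1 2
      have h7 : (U * X ^ 3) ^ 2 * X * 4 ≤ (U * X ^ 3) ^ 2 * X * X :=
        mul_le_mul_of_nonneg_left (by linarith) (by positivity)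
      nlinarith
    linarith
  -- the end
  have e1 : (B : ℝ) ^ 2 * ε ≤ 12 * U := by
    have h2 : (B : ℝ) ^ 2 ≤ (2 * (U * X ^ 9)) ^ 2 := pow_le_pow_left₀ hBr.le hB2 2
    refine (mul_le_mul_of_nonneg_right h2 hε0).trans ?_
    have h3 : (2 * (U * X ^ 9)) ^ 2 * ε = 8 * U + 4 * X ^ 13 := by
      rw [hε]
      field_simp
      ring
    have h4 : X ^ 13 ≤ X ^ 29 := pow_le_pow_right₀ hX1 (by norm_num)
    linarith
  have e2 : 2 * ((U * X ^ 3) ^ 2 * X) / B ≤ 2 * U := by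
    rw [div_le_iff₀ hBr]
    have h2 : 2 * U * (U * X ^ 9) ≤ 2 * U * B := mul_le_mul_of_nonneg_left hB1 (by positivity)
    have h3 : X ^ 7 ≤ X ^ 9 := pow_le_pow_right₀ hX1 (by norm_num)
    have h4 : 2 * U ^ 2 * X ^ 7 ≤ 2 * U ^ 2 * X ^ 9 :=
      mul_le_mul_of_nonneg_left h3 (by positivity)
    nlinarith
  have e3 : 2 * ((h : ℝ) - j) ^ 2 / B ≤ L / 2 := by
    rw [div_le_iff₀ hBr, ← sq_abs ((h : ℝ) - j)]
    have h2 := mul_le_mul_of_nonneg_left hprior hL0
    nlinarith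
  rw [add_div] at hLle
  have h5 : |(h : ℝ) - v * n| ≤ L + 1 := by
    have h6 : (h : ℝ) - v * n = ((h : ℝ) - j) + ((j : ℝ) - v * n) := by ring
    rw [h6]
    refine (abs_add_le _ _).trans (add_le_add le_rfl ?_)
    rw [abs_le]
    constructor <;> linarith
  have h6 : U * 33 ≤ U * X ^ 2 := mul_le_mul_of_nonneg_left (by nlinarith) hU0.le
  linarith

/-- sums over the words in terms of the span -/
theorem fib (hHG : FL.HG_Stmt) (n : ℕ) (s : ℝ) (F : ℕ → ℝ) :
    ∑ q ∈ Omn n, wtq n s q * F (sp q) = ∑ k ∈ range (2 * n + 1), Th n s k 0 * F k := by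
  rw [← Finset.sum_fiberwise_of_maps_to (s := Omn n) (t := range (2 * n + 1)) (g := sp)
    (fun q hq => by
      rw [Finset.mem_range]
      have h1 : sp q ≤ n := height_le hHG n q hq
      omega)]
  refine Finset.sum_congr rfl fun k _ => ?_
  unfold Th
  rw [Finset.sum_mul]
  refine Finset.sum_congr rfl fun q hq => ?_
  rw [(Finset.mem_filter.1 hq).2, zero_mul, neg_zero, Real.exp_zero, mul_one]

end CENTx

open CENTx in
/-- **CENT**: the centre of the Gaussian. -/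
theorem t_CENT (h1 : FL.HG_Stmt) : CENT_Stmt := by
  intro c1 hc1
  have hδ : 0 < min (c1 / 16) (1 / 64) := lt_min (by linarith) (by norm_num)
  refine ⟨min (c1 / 16) (1 / 64), min (c1 / 16) (1 / 64), hδ, hδ, ?_⟩
  have hd1 : 16 * min (c1 / 16) (1 / 64) ≤ c1 := by
    have := min_le_left (c1 / 16) (1 / 64)
    linarith
  have hd2 : min (c1 / 16) (1 / 64) ≤ 1 / 64 := min_le_right _ _
  generalize min (c1 / 16) (1 / 64) = δ at hδ hd1 hd2 ⊢
  obtain ⟨N, hN⟩ := eventually_atTop.1 (((tendsto_rpow_atTop hδ).comp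
    tendsto_natCast_atTop_atTop).eventually_ge_atTop 64)
  refine ⟨max N 1, ?_⟩
  intro n hn f ρ v κ hρ hZ hv hv1 hκ hκ1 hLL h hh hV hM
  have hX : 64 ≤ (n : ℝ) ^ δ := hN n ((le_max_left _ _).trans hn)
  have hn1 : (1 : ℝ) ≤ n := by exact_mod_cast (le_max_right _ _).trans hn
  have hn0 : (0 : ℝ) < n := by linarith
  have hs0 : 0 ≤ Real.exp (-f) := (Real.exp_pos _).le
  set s := Real.exp (-f) with hs
  set A := sc n * ρ ^ n with hA
  have hA0 : 0 ≤ A := by
    rw [hA]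
    unfold sc
    positivity
  have hZ0 : 0 ≤ Zq n s := Finset.sum_nonneg fun _ _ => pow_nonneg hs0 _
  have hAZ : 0 < A * Zq n s := lt_of_lt_of_le (Real.rpow_pos_of_pos hn0 _) hZ
  have hZp : 0 < Zq n s := by
    rcases hZ0.lt_or_eq with h2 | h2
    · exact h2
    · rw [← h2, mul_zero] at hAZ
      exact absurd hAZ (lt_irrefl _)
  have hAp : 0 < A := by
    rcases hA0.lt_or_eq with h2 | h2
    · exact h2
    · rw [← h2, zero_mul] at hAZ
      exact absurd hAZ (lt_irrefl _)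
  have hTa : Ta n s 0 = Zq n s := by
    unfold Ta Zq
    refine Finset.sum_congr rfl fun q _ => ?_
    rw [zero_mul, neg_zero, Real.exp_zero, mul_one]
  have hU : (n : ℝ) ^ (1 / 2 - 3 * δ) * ((n : ℝ) ^ δ) ^ 3 = (n : ℝ) ^ (1 / 2 : ℝ) := by
    rw [← Real.rpow_natCast, ← Real.rpow_mul hn0.le, ← Real.rpow_add hn0]
    congr 1
    push_cast
    ring
  have hres := core n ((n : ℝ) ^ δ) ((n : ℝ) ^ (1 / 2 - 3 * δ)) v κ hX ?_ ?_ ?_ hv1 ?_ hκ1
    (fun k => Th n s k 0 / Zq n s) ?_ ?_ ?_ h ?_ ?_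
  · refine hres.trans (le_of_eq ?_)
    rw [← Real.rpow_natCast, ← Real.rpow_mul hn0.le, ← Real.rpow_add hn0]
    congr 1
    push_cast
    ring
  · rw [← Real.rpow_natCast, ← Real.rpow_mul hn0.le]
    refine Real.rpow_le_rpow_of_exponent_le hn1 ?_
    push_cast
    linarith
  · rw [hU, ← Real.rpow_natCast, ← Real.rpow_mul hn0.le]
    rw [show (1 / 2 : ℝ) * ((2 : ℕ) : ℝ) = 1 by norm_num, Real.rpow_one]
  · rw [one_div, ← Real.rpow_neg hn0.le]
    exact hv
  · rw [one_div, ← Real.rpow_neg hn0.le]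
    exact hκ
  · intro k
    refine div_nonneg (Finset.sum_nonneg fun q _ => ?_) hZ0
    exact mul_nonneg (pow_nonneg hs0 _) (Real.exp_pos _).le
  · rw [← Finset.sum_div]
    have h2 := fib h1 n s (fun _ => 1)
    simp only [mul_one] at h2
    rw [← h2]
    exact div_self hZp.ne'
  · intro k
    have h2 := hLL k 0 le_rfl (by rw [zero_mul]; norm_num)
    rw [hTa] at h2
    have h3 : Th n s k 0 / Zq n s - gau n v κ k =
        (A * (Th n s k 0 - gau n v κ k * Zq n s)) / (A * Zq n s) := by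
      field_simp
    show |Th n s k 0 / Zq n s - gau n v κ k| ≤ _
    rw [h3, abs_div, abs_of_pos hAZ, div_le_div_iff₀ hAZ (by positivity), one_mul]
    have h4 : (n : ℝ) ^ (1 / 2 - 3 * δ) * ((n : ℝ) ^ δ) ^ 18 = (n : ℝ) ^ (1 / 2 + 15 * δ) := by
      rw [← Real.rpow_natCast, ← Real.rpow_mul hn0.le, ← Real.rpow_add hn0]
      congr 1
      push_cast
      ring
    rw [h4]
    refine le_trans (mul_le_mul_of_nonneg_right h2 (Real.rpow_nonneg hn0.le _)) (le_trans ?_ hZ)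
    rw [← Real.rpow_add hn0]
    exact Real.rpow_le_rpow_of_exponent_le hn1 (by linarith)
  · have h2 := fib h1 n s (fun k => ((k : ℝ) - h) ^ 2)
    have h3 : ∑ k ∈ range (2 * n + 1), Th n s k 0 / Zq n s * ((k : ℝ) - h) ^ 2 =
        (∑ q ∈ Omn n, wtq n s q * ((sp q : ℝ) - h) ^ 2) / Zq n s := by
      rw [h2, Finset.sum_div]
      exact Finset.sum_congr rfl fun k _ => by ring
    show ∑ k ∈ range (2 * n + 1), Th n s k 0 / Zq n s * ((k : ℝ) - h) ^ 2 ≤ _
    rw [h3, div_le_iff₀ hZp]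
    refine hV.trans (le_of_eq ?_)
    rw [hU]
    congr 1
    rw [← Real.rpow_natCast, ← Real.rpow_mul hn0.le, ← Real.rpow_add hn0]
    congr 1
    push_cast
    ring
  · have h2 := fib h1 n s (fun k => (k : ℝ) - h)
    have h3 : ∑ k ∈ range (2 * n + 1), Th n s k 0 / Zq n s * ((k : ℝ) - h) =
        (∑ q ∈ Omn n, wtq n s q * ((sp q : ℝ) - h)) / Zq n s := by
      rw [h2, Finset.sum_div]
      exact Finset.sum_congr rfl fun k _ => by ring
    show |∑ k ∈ range (2 * n + 1), Th n s k 0 / Zq n s * ((k : ℝ) - h)| ≤ 2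
    rw [h3, abs_div, abs_of_pos hZp, div_le_iff₀ hZp]
    exact hM

end Pool.Agent.PFS
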