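import Pool.Agent.PFS.StmtsC
import Pool.Agent.Lib_helper74.FS.CHOICE

/-!
# Project PFS (MP_f6626d_co): module CHOP (choice of the force)
-/

set_option autoImplicit false

namespace Pool.Agent.PFS

open Finset Filter Topology MeasureTheory
open Pool.Agent.Lib27 Pool.Agent.SapR Pool.Agent.Gap Pool.Agent.AreaLaw Pool.Agent.FL
open Pool.Agent.FS Pool.Agent.FS.CHOICE

theorem t_CHOP : CHOP_Stmt := by
  have hlog : 1 < Real.log 4 := by
    rw [Real.lt_log_iff_exp_lt (by norm_num)]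
    have := Real.exp_one_lt_d9
    linarith
  refine ⟨4 * Real.log 4, by linarith, ?_⟩
  intro c hc0 hc4
  refine ⟨64, ?_⟩
  intro n hn h hh hcard
  have hn1 : 1 ≤ n := by omega
  have hn64 : (64 : ℝ) ≤ n := by exact_mod_cast hn
  have hnpos : (0 : ℝ) < n := by linarith
  have hn1' : (1 : ℝ) ≤ n := by linarith
  have he : 0 < (n : ℝ) ^ (-c) := Real.rpow_pos_of_pos hnpos _
  have he1 : (n : ℝ) ^ (-c) ≤ 1 := Real.rpow_le_one_of_one_le_of_nonpos hn1' (by linarith)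
  have hen : (n : ℝ) ^ (-c) * n = (n : ℝ) ^ (1 - c) := by
    rw [sub_eq_add_neg, Real.rpow_add hnpos, Real.rpow_one, mul_comm]
  have h8 : 8 / ((n : ℝ) ^ (-c)) ^ 2 ≤ (n : ℝ) := by
    rw [div_le_iff₀ (by positivity)]
    have h1 : ((n : ℝ) ^ (-c)) ^ 2 = (n : ℝ) ^ (-(2 * c)) := by
      rw [← Real.rpow_natCast, ← Real.rpow_mul hnpos.le]
      congr 1
      push_cast
      ring
    have h2 : (n : ℝ) ^ (-(1 / 2) : ℝ) ≤ (n : ℝ) ^ (-(2 * c)) :=
      Real.rpow_le_rpow_of_exponent_le hn1' (by linarith)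
    have h3 : (n : ℝ) * (n : ℝ) ^ (-(1 / 2) : ℝ) = Real.sqrt n := by
      rw [Real.sqrt_eq_rpow]
      nth_rewrite 1 [← Real.rpow_one (n : ℝ)]
      rw [← Real.rpow_add hnpos]
      norm_num
    have h4 : (8 : ℝ) ≤ Real.sqrt n := by
      apply Real.le_sqrt_of_sq_le
      linarith
    calc (8 : ℝ) ≤ Real.sqrt n := h4
      _ = (n : ℝ) * (n : ℝ) ^ (-(1 / 2) : ℝ) := h3.symm
      _ ≤ (n : ℝ) * (n : ℝ) ^ (-(2 * c)) := mul_le_mul_of_nonneg_left h2 hnpos.le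
      _ = (n : ℝ) * ((n : ℝ) ^ (-c)) ^ 2 := by rw [h1]
  have hlow := FF_low ((n : ℝ) ^ (-c)) he n h h8 (by rw [hen]; exact hcard)
  have hh' : (h : ℝ) ≤ (1 - 1 / 2) * n := by
    have h5 : ((2 * h : ℕ) : ℝ) ≤ n := by exact_mod_cast hh
    push_cast at h5
    linarith
  have hhigh := FF_high (1 / 2) (by norm_num) n h hn1 (4 * Real.log 4)
    (by apply le_of_eq; ring) hh'
  have hle : (n : ℝ) ^ (-c) / 2 ≤ 4 * Real.log 4 := by linarith
  obtain ⟨f, hf, hf0⟩ := intermediate_value_Icc hle (FF_cont n h).continuousOn ⟨hlow, hhigh⟩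
  refine ⟨f, hf.1, hf.2, ?_⟩
  unfold Cen
  unfold FF at hf0
  rw [hf0, abs_zero]
  unfold forceZ
  exact Finset.sum_nonneg fun s _ => (Real.exp_pos _).le

end Pool.Agent.PFS
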