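import Pool.Agent.PFS.StmtsC

/-!
Module CLSF (project PFS, MP_f6626d_co): law and moments in the classes.
-/

set_option autoImplicit false

namespace Pool.Agent.PFS

open Finset Filter Topology MeasureTheory
open Pool.Agent.Lib27 Pool.Agent.SapR Pool.Agent.Gap Pool.Agent.AreaLaw Pool.Agent.FL
open Pool.Agent.FS
open Pool.Agent.KCS (airyMoment)
open Pool.Agent.KCC (areaMoment)

namespace CLSF

/-- the mean of twice the area under the force -/
noncomputable def mf (f : ℝ) (n : ℕ) : ℝ :=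
  (∑ x ∈ SAP n, Real.exp (f * span n x) * (2 * area n x)) / forceZ f n

lemma mf_nonneg (f : ℝ) (n : ℕ) : 0 ≤ mf f n :=
  div_nonneg (Finset.sum_nonneg fun s _ => mul_nonneg (Real.exp_pos _).le
    (mul_nonneg (by norm_num) (area_nonneg n s))) (forceZ_nonneg f n)

lemma Adm_mono {f1 c c' : ℝ} {f : ℕ → ℝ} {h : ℕ → ℕ} (hc : c ≤ c') (H : Adm f1 c f h) :
    Adm f1 c' f h := by
  unfold Adm at H ⊢
  filter_upwards [H, eventually_ge_atTop 1] with n hn h1
  exact ⟨win_mono hc h1 hn.1, hn.2⟩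

lemma sc_eq {n : ℕ} (hn : 1 ≤ n) : sc n = (n : ℝ) ^ (3 / 2 : ℝ) := by
  have h0 : (0 : ℝ) < n := by exact_mod_cast hn
  unfold sc
  rw [Real.sqrt_eq_rpow]
  nth_rewrite 1 [← Real.rpow_one (n : ℝ)]
  rw [← Real.rpow_add h0]
  norm_num

lemma mf_ge {n : ℕ} {f δ : ℝ} (hZ : 0 < forceZ f n)
    (b3 : (n : ℝ) ^ (-δ) * (sc n * forceZ f n) ≤
      ∑ x ∈ SAP n, Real.exp (f * span n x) * (2 * area n x)) :
    (n : ℝ) ^ (-δ) * sc n ≤ mf f n := by
  unfold mf
  rw [le_div_iff₀ hZ]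
  calc (n : ℝ) ^ (-δ) * sc n * forceZ f n = (n : ℝ) ^ (-δ) * (sc n * forceZ f n) := by ring
    _ ≤ _ := b3

lemma L1 (h1 : SAPL_Stmt) (h2 : SAPM_Stmt) (f1 : ℝ) : ∃ c3 : ℝ, 0 < c3 ∧ ∃ c : ℝ, 0 < c ∧
    ∀ K : ℝ, ∃ N : ℕ, ∀ n : ℕ, N ≤ n → ∀ f : ℝ, (n : ℝ) ^ (-c) ≤ f → f ≤ f1 → ∀ h : ℕ, h ≤ n →
    Cen n f h → ∀ b : Bool, 0 < (cls n b h).card ∧ 0 < forceZ f n ∧ 0 < mf f n ∧
    ∀ u : ℝ, 0 ≤ u → u ≤ K →
      |∑ x ∈ cls n b h, 1 / ((cls n b h).card : ℝ) * Real.exp (-(u * (2 * area n x / mf f n))) -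
        ∑ x ∈ SAP n, Real.exp (f * span n x) / forceZ f n *
          Real.exp (-(u * (2 * area n x / mf f n)))| ≤ (n : ℝ) ^ (-c3) := by
  obtain ⟨c3, hc3, c, hc, N, hN⟩ := h1 f1
  obtain ⟨c', hc', N', hN'⟩ := h2 f1 1 (c3 / 2) (by positivity)
  refine ⟨c3, hc3, min c c', lt_min hc hc', fun K => ?_⟩
  have hev : ∀ᶠ n : ℕ in atTop, K ≤ (n : ℝ) ^ (c3 / 2) :=
    ((tendsto_rpow_atTop (by positivity)).comp
      tendsto_natCast_atTop_atTop).eventually_ge_atTop K
  obtain ⟨N'', hN''⟩ := eventually_atTop.1 hev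
  refine ⟨max (max N N') (max N'' 1), fun n hn f hf hf1 h hh hcen b => ?_⟩
  have hnN : N ≤ n := (le_max_left _ _).trans ((le_max_left _ _).trans hn)
  have hnN' : N' ≤ n := (le_max_right _ _).trans ((le_max_left _ _).trans hn)
  have hnN'' : N'' ≤ n := (le_max_left _ _).trans ((le_max_right _ _).trans hn)
  have hn1 : 1 ≤ n := (le_max_right _ _).trans ((le_max_right _ _).trans hn)
  have h0 : (0 : ℝ) < n := by exact_mod_cast hn1
  obtain ⟨a1, a2, a3⟩ := hN n hnN f (win_mono (min_le_left _ _) hn1 hf) hf1 h hh hcen b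
  obtain ⟨-, -, b3, -⟩ := hN' n hnN' f (win_mono (min_le_right _ _) hn1 hf) hf1 h hh hcen b
  have hs := sc_pos hn1
  have hm := mf_ge a2 b3
  have hm0 : 0 < mf f n := lt_of_lt_of_le (mul_pos (Real.rpow_pos_of_pos h0 _) hs) hm
  refine ⟨a1, a2, hm0, fun u hu0 huK => ?_⟩
  have ht : u / mf f n ≤ (n : ℝ) ^ (-(3 / 2) + c3) := by
    rw [div_le_iff₀ hm0]
    calc u ≤ K := huK
      _ ≤ (n : ℝ) ^ (c3 / 2) := hN'' n hnN''
      _ = (n : ℝ) ^ (-(3 / 2) + c3) * ((n : ℝ) ^ (-(c3 / 2)) * sc n) := by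
        rw [sc_eq hn1, ← Real.rpow_add h0, ← Real.rpow_add h0]
        congr 1
        ring
      _ ≤ (n : ℝ) ^ (-(3 / 2) + c3) * mf f n :=
        mul_le_mul_of_nonneg_left hm (Real.rpow_nonneg h0.le _)
  have key := a3 (u / mf f n) (div_nonneg hu0 hm0.le) ht
  refine le_trans (le_of_eq ?_) key
  have e : ∀ x, u / mf f n * (2 * area n x) = u * (2 * area n x / mf f n) := fun x => by ring
  have e1 : ∑ x ∈ cls n b h, 1 / ((cls n b h).card : ℝ) *
      Real.exp (-(u * (2 * area n x / mf f n))) =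
      (∑ x ∈ cls n b h, Real.exp (-(u / mf f n * (2 * area n x)))) / (cls n b h).card := by
    rw [Finset.sum_div]
    refine Finset.sum_congr rfl fun x _ => ?_
    rw [e]
    ring
  have e2 : ∑ x ∈ SAP n, Real.exp (f * span n x) / forceZ f n *
      Real.exp (-(u * (2 * area n x / mf f n))) =
      (∑ x ∈ SAP n, Real.exp (f * span n x) * Real.exp (-(u / mf f n * (2 * area n x)))) /
        forceZ f n := by
    rw [Finset.sum_div]
    refine Finset.sum_congr rfl fun x _ => ?_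
    rw [e]
    ring
  rw [e1, e2]

lemma L2 (h2 : SAPM_Stmt) (f1 : ℝ) (r : ℕ) (δ : ℝ) (hδ : 0 < δ) : ∃ c : ℝ, 0 < c ∧
    ∃ N : ℕ, ∀ n : ℕ, N ≤ n → ∀ f : ℝ, (n : ℝ) ^ (-c) ≤ f → f ≤ f1 → ∀ h : ℕ, h ≤ n →
    Cen n f h → ∀ b : Bool, 0 < (cls n b h).card → 0 < forceZ f n →
    ∑ x ∈ cls n b h, 1 / ((cls n b h).card : ℝ) * (2 * area n x / mf f n) ^ (r + 1) ≤
      (n : ℝ) ^ (δ * (r + 2)) ∧
    ∑ x ∈ SAP n, Real.exp (f * span n x) / forceZ f n * (2 * area n x / mf f n) ^ (r + 1) ≤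
      (n : ℝ) ^ (δ * (r + 2)) := by
  obtain ⟨c, hc, N, hN⟩ := h2 f1 1 δ hδ
  obtain ⟨c', hc', N', hN'⟩ := h2 f1 (r + 1) δ hδ
  refine ⟨min c c', lt_min hc hc', max (max N N') 1, fun n hn f hf hf1 h hh hcen b hcard hZ => ?_⟩
  have hnN : N ≤ n := (le_max_left _ _).trans ((le_max_left _ _).trans hn)
  have hnN' : N' ≤ n := (le_max_right _ _).trans ((le_max_left _ _).trans hn)
  have hn1 : 1 ≤ n := (le_max_right _ _).trans hn
  have h0 : (0 : ℝ) < n := by exact_mod_cast hn1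
  obtain ⟨-, -, b3, -⟩ := hN n hnN f (win_mono (min_le_left _ _) hn1 hf) hf1 h hh hcen b
  obtain ⟨c1, c2, -, -⟩ := hN' n hnN' f (win_mono (min_le_right _ _) hn1 hf) hf1 h hh hcen b
  have hs := sc_pos hn1
  have hm := mf_ge hZ b3
  have hm0 : 0 < mf f n := lt_of_lt_of_le (mul_pos (Real.rpow_pos_of_pos h0 _) hs) hm
  have hcard' : (0 : ℝ) < (cls n b h).card := by exact_mod_cast hcard
  have k1 : sc n ≤ (n : ℝ) ^ δ * mf f n := by
    have := mul_le_mul_of_nonneg_left hm (Real.rpow_nonneg h0.le δ)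
    rw [← mul_assoc, ← Real.rpow_add h0, add_neg_cancel, Real.rpow_zero, one_mul] at this
    exact this
  have k2 : (n : ℝ) ^ δ * sc n ^ (r + 1) ≤ (n : ℝ) ^ (δ * (r + 2)) * mf f n ^ (r + 1) := by
    have k3 := pow_le_pow_left₀ hs.le k1 (r + 1)
    calc (n : ℝ) ^ δ * sc n ^ (r + 1) ≤ (n : ℝ) ^ δ * ((n : ℝ) ^ δ * mf f n) ^ (r + 1) :=
          mul_le_mul_of_nonneg_left k3 (Real.rpow_nonneg h0.le _)
      _ = ((n : ℝ) ^ δ * ((n : ℝ) ^ δ) ^ (r + 1)) * mf f n ^ (r + 1) := by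
          rw [mul_pow]; ring
      _ = (n : ℝ) ^ (δ * (r + 2)) * mf f n ^ (r + 1) := by
          congr 1
          rw [← Real.rpow_natCast ((n : ℝ) ^ δ) (r + 1), ← Real.rpow_mul h0.le,
            ← Real.rpow_add h0]
          congr 1
          push_cast
          ring
  constructor
  · have e1 : ∑ x ∈ cls n b h, 1 / ((cls n b h).card : ℝ) * (2 * area n x / mf f n) ^ (r + 1) =
        (∑ x ∈ cls n b h, (2 * area n x) ^ (r + 1)) /
          ((cls n b h).card * mf f n ^ (r + 1)) := by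
      rw [Finset.sum_div]
      refine Finset.sum_congr rfl fun x _ => ?_
      rw [div_pow]
      field_simp
    rw [e1, div_le_iff₀ (mul_pos hcard' (pow_pos hm0 _))]
    calc ∑ x ∈ cls n b h, (2 * area n x) ^ (r + 1) ≤
          (n : ℝ) ^ δ * (sc n ^ (r + 1) * (cls n b h).card) := c1
      _ = ((n : ℝ) ^ δ * sc n ^ (r + 1)) * (cls n b h).card := by ring
      _ ≤ ((n : ℝ) ^ (δ * (r + 2)) * mf f n ^ (r + 1)) * (cls n b h).card :=
          mul_le_mul_of_nonneg_right k2 hcard'.le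
      _ = _ := by ring
  · have e2 : ∑ x ∈ SAP n, Real.exp (f * span n x) / forceZ f n *
        (2 * area n x / mf f n) ^ (r + 1) =
        (∑ x ∈ SAP n, Real.exp (f * span n x) * (2 * area n x) ^ (r + 1)) /
          (forceZ f n * mf f n ^ (r + 1)) := by
      rw [Finset.sum_div]
      refine Finset.sum_congr rfl fun x _ => ?_
      rw [div_pow]
      field_simp
    rw [e2, div_le_iff₀ (mul_pos hZ (pow_pos hm0 _))]
    calc ∑ x ∈ SAP n, Real.exp (f * span n x) * (2 * area n x) ^ (r + 1) ≤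
          (n : ℝ) ^ δ * (sc n ^ (r + 1) * forceZ f n) := c2
      _ = ((n : ℝ) ^ δ * sc n ^ (r + 1)) * forceZ f n := by ring
      _ ≤ ((n : ℝ) ^ (δ * (r + 2)) * mf f n ^ (r + 1)) * forceZ f n :=
          mul_le_mul_of_nonneg_right k2 hZ.le
      _ = _ := by ring

/-- averages in the class -/
noncomputable def aC (n : ℕ) (b : Bool) (h : ℕ) (g : (Fin (2 * n) → Fin 4) → ℝ) : ℝ :=
  ∑ x ∈ cls n b h, 1 / ((cls n b h).card : ℝ) * g x

/-- averages under the force -/
noncomputable def aF (n : ℕ) (f : ℝ) (g : (Fin (2 * n) → Fin 4) → ℝ) : ℝ :=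
  ∑ x ∈ SAP n, Real.exp (f * span n x) / forceZ f n * g x

lemma tend_rpow {a : ℝ} (ha : 0 < a) (K : ℝ) :
    Tendsto (fun n : ℕ => K * (n : ℝ) ^ (-a)) atTop (𝓝 0) := by
  have := ((tendsto_rpow_neg_atTop ha).comp tendsto_natCast_atTop_atTop).const_mul K
  simpa using this

lemma L3 (h1 : SAPL_Stmt) (h2 : SAPM_Stmt) (h3 : MOML_Stmt) (f1 : ℝ) (r : ℕ) :
    ∃ c : ℝ, 0 < c ∧ ∀ (f : ℕ → ℝ) (h : ℕ → ℕ), Adm f1 c f h → ∀ b : Bool,
    Tendsto (fun n : ℕ => aC n b (h n) (fun x => (2 * area n x / mf (f n) n) ^ r) -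
      aF n (f n) (fun x => (2 * area n x / mf (f n) n) ^ r)) atTop (𝓝 0) := by
  obtain ⟨c3, hc3, c, hc, HL⟩ := L1 h1 h2 f1
  obtain ⟨N, HL⟩ := HL r
  set κ : ℝ := c3 / (2 * r + 2) with hκ
  have hκ0 : 0 < κ := by positivity
  set δ : ℝ := κ / (2 * (r + 2)) with hδ
  have hδ0 : 0 < δ := by positivity
  obtain ⟨c', hc', N', HM⟩ := L2 h2 f1 r δ hδ0
  refine ⟨min c c', lt_min hc hc', fun f h hA b => ?_⟩
  have hA1 := Adm_mono (min_le_left c c') hA
  have hA2 := Adm_mono (min_le_right c c') hA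
  have T1 := tend_rpow (a := c3 / 2) (by positivity) (2 ^ r)
  have T2 := tend_rpow (a := κ / 2) (by positivity) r
  have T3 := T1.add T2
  rw [add_zero] at T3
  refine squeeze_zero_norm' ?_ T3
  unfold Adm at hA1 hA2
  filter_upwards [hA1, hA2, eventually_ge_atTop N, eventually_ge_atTop N',
    eventually_ge_atTop 1] with n g1 g2 gN gN' gn
  have h0 : (0 : ℝ) < n := by exact_mod_cast gn
  have h1' : (1 : ℝ) ≤ n := by exact_mod_cast gn
  obtain ⟨a1, a2, a3, a4⟩ := HL n gN (f n) g1.1 g1.2.1 (h n) g1.2.2.1 g1.2.2.2 b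
  obtain ⟨b1, b2⟩ := HM n gN' (f n) g2.1 g2.2.1 (h n) g2.2.2.1 g2.2.2.2 b a1 a2
  have hlam : (0 : ℝ) < (n : ℝ) ^ (-κ) := Real.rpow_pos_of_pos h0 _
  have hlam1 : (n : ℝ) ^ (-κ) ≤ 1 := by
    rw [← Real.rpow_zero (n : ℝ)]
    exact Real.rpow_le_rpow_of_exponent_le h1' (by linarith)
  have key := h3 (Fin (2 * n) → Fin 4) (Fin (2 * n) → Fin 4) (SAP n) (cls n b (h n))
    (fun x => Real.exp (f n * span n x) / forceZ (f n) n) (fun x => 2 * area n x / mf (f n) n)
    (fun _ => 1 / ((cls n b (h n)).card : ℝ)) (fun x => 2 * area n x / mf (f n) n) r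
    ((n : ℝ) ^ (-κ)) ((n : ℝ) ^ (-c3)) ((n : ℝ) ^ (δ * (r + 2))) hlam
    (fun x _ => ⟨div_nonneg (Real.exp_pos _).le a2.le,
      div_nonneg (mul_nonneg (by norm_num) (area_nonneg n x)) a3.le⟩)
    (fun x _ => ⟨by positivity, div_nonneg (mul_nonneg (by norm_num) (area_nonneg n x)) a3.le⟩)
    (fun j hj => a4 (j * (n : ℝ) ^ (-κ)) (by positivity) (by
      have hj' : (j : ℝ) ≤ r := by exact_mod_cast hj
      calc (j : ℝ) * (n : ℝ) ^ (-κ) ≤ r * 1 :=
            mul_le_mul hj' hlam1 hlam.le (Nat.cast_nonneg _)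
        _ = r := mul_one _)) b2 b1
  rw [Real.norm_eq_abs]
  refine key.trans ?_
  apply add_le_add
  · rw [mul_div_assoc]
    apply mul_le_mul_of_nonneg_left _ (by positivity)
    rw [← Real.rpow_natCast ((n : ℝ) ^ (-κ)) r, ← Real.rpow_mul h0.le, ← Real.rpow_sub h0]
    apply Real.rpow_le_rpow_of_exponent_le h1'
    have : κ * r ≤ c3 / 2 := by
      rw [hκ, div_mul_eq_mul_div, div_le_div_iff₀ (by positivity) (by norm_num)]
      nlinarith
    linarith
  · rw [mul_assoc]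
    apply mul_le_mul_of_nonneg_left _ (Nat.cast_nonneg _)
    rw [← Real.rpow_add h0]
    apply Real.rpow_le_rpow_of_exponent_le h1'
    have : δ * (r + 2) = κ / 2 := by
      rw [hδ]
      field_simp
    linarith

open Classical in
/-- distribution function of a finite set in terms of the rescaled area -/
lemma areaCdf_eq (n : ℕ) (F : Finset (Fin (2 * n) → Fin 4)) (hF : 0 < F.card) (m : ℝ)
    (hs : 0 < m) (x : ℝ) : areaCdf n F x = ∑ y ∈ F.filter (fun y => 2 * area n y / m ≤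
      x * ∑ z ∈ F, (1 / (F.card : ℝ)) * (2 * area n z / m)), (1 / (F.card : ℝ)) := by
  have hc : (0 : ℝ) < F.card := by exact_mod_cast hF
  unfold areaCdf
  rw [Finset.sum_const, nsmul_eq_mul, mul_one_div]
  congr 2
  apply congrArg
  apply Finset.filter_congr
  intro s _
  have e1 : ∑ z ∈ F, (1 / (F.card : ℝ)) * (2 * area n z / m) =
      2 / (F.card * m) * ∑ z ∈ F, area n z := by
    rw [Finset.mul_sum]
    refine Finset.sum_congr rfl fun z _ => ?_
    field_simp
  rw [e1]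
  have e2 : x * (2 / (F.card * m) * ∑ z ∈ F, area n z) =
      (2 / (F.card * m)) * (x * ∑ z ∈ F, area n z) := by ring
  have e3 : 2 * area n s / m = (2 / (F.card * m)) * (area n s * F.card) := by
    field_simp
  rw [e2, e3]
  constructor
  · intro h
    exact mul_le_mul_of_nonneg_left h (by positivity)
  · intro h
    exact le_of_mul_le_mul_left h (by positivity)

open Classical in
/-- the same for the force -/
lemma forceCdf_eq (f : ℝ) (n : ℕ) (hZ : 0 < forceZ f n) (m : ℝ) (hs : 0 < m) (x : ℝ) :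
    forceCdf f n x = ∑ y ∈ (SAP n).filter (fun y => 2 * area n y / m ≤
      x * ∑ z ∈ SAP n, (Real.exp (f * span n z) / forceZ f n) * (2 * area n z / m)),
        Real.exp (f * span n y) / forceZ f n := by
  unfold forceCdf
  rw [Finset.sum_div]
  apply Finset.sum_congr _ (fun _ _ => rfl)
  apply Finset.filter_congr
  intro s _
  have e1 : ∑ z ∈ SAP n, (Real.exp (f * span n z) / forceZ f n) * (2 * area n z / m) =
      2 / (forceZ f n * m) * ∑ z ∈ SAP n, Real.exp (f * span n z) * area n z := by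
    rw [Finset.mul_sum]
    refine Finset.sum_congr rfl fun z _ => ?_
    field_simp
  rw [e1]
  have e2 : x * (2 / (forceZ f n * m) * ∑ z ∈ SAP n, Real.exp (f * span n z) * area n z) =
      (2 / (forceZ f n * m)) * (x * ∑ z ∈ SAP n, Real.exp (f * span n z) * area n z) := by
    ring
  have e3 : 2 * area n s / m = (2 / (forceZ f n * m)) * (area n s * forceZ f n) := by
    field_simp
  rw [e2, e3]
  constructor
  · intro h
    exact mul_le_mul_of_nonneg_left h (by positivity)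
  · intro h
    exact le_of_mul_le_mul_left h (by positivity)

lemma aF_one {n : ℕ} {f : ℝ} (hZ : 0 < forceZ f n) (hm : 0 < mf f n) :
    aF n f (fun x => 2 * area n x / mf f n) = 1 := by
  unfold aF
  have e1 : ∑ x ∈ SAP n, Real.exp (f * span n x) / forceZ f n * (2 * area n x / mf f n) =
      ((∑ x ∈ SAP n, Real.exp (f * span n x) * (2 * area n x)) / forceZ f n) / mf f n := by
    rw [Finset.sum_div, Finset.sum_div]
    refine Finset.sum_congr rfl fun x _ => ?_
    ring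
  rw [e1]
  exact div_self hm.ne'

lemma forceMoment_eq {n : ℕ} {f : ℝ} (hZ : 0 < forceZ f n) (hm : 0 < mf f n) (r : ℕ) :
    forceMoment f n r = aF n f (fun x => (2 * area n x / mf f n) ^ r) := by
  unfold forceMoment aF
  have e1 : (∑ s ∈ SAP n, Real.exp (f * span n s) * area n s) / forceZ f n = mf f n / 2 := by
    unfold mf
    rw [div_div, mul_comm (forceZ f n) 2, ← div_div, Finset.sum_div _ _ (2 : ℝ)]
    congr 1
    refine Finset.sum_congr rfl fun x _ => ?_
    ring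
  rw [e1, Finset.sum_div, Finset.sum_div]
  refine Finset.sum_congr rfl fun x _ => ?_
  have h2 : mf f n ^ r ≠ 0 := (pow_pos hm r).ne'
  beta_reduce
  rw [div_pow, div_pow, mul_pow]
  field_simp

lemma areaMoment_eq {n : ℕ} {b : Bool} {h : ℕ} {m : ℝ} (hm : 0 < m) (r : ℕ) :
    areaMoment n (cls n b h) r = aC n b h (fun x => (2 * area n x / m) ^ r) /
      (aC n b h (fun x => 2 * area n x / m)) ^ r := by
  unfold areaMoment aC
  have h2 : (2 / m) ^ r ≠ 0 := (pow_pos (by positivity) r).ne'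
  have e1 : ∑ x ∈ cls n b h, 1 / ((cls n b h).card : ℝ) * (2 * area n x / m) =
      2 / m * ((∑ x ∈ cls n b h, area n x) / (cls n b h).card) := by
    rw [Finset.sum_div, Finset.mul_sum]
    refine Finset.sum_congr rfl fun x _ => ?_
    ring
  have e2 : ∑ x ∈ cls n b h, 1 / ((cls n b h).card : ℝ) * (2 * area n x / m) ^ r =
      (2 / m) ^ r * ((∑ x ∈ cls n b h, area n x ^ r) / (cls n b h).card) := by
    rw [Finset.sum_div, Finset.mul_sum]
    refine Finset.sum_congr rfl fun x _ => ?_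
    have : 2 * area n x / m = 2 / m * area n x := by ring
    rw [this, mul_pow]
    ring
  rw [e1, e2, mul_pow, mul_div_mul_left _ _ h2]

end CLSF

open CLSF in
open Classical in
theorem t_CLSF (h1 : SAPL_Stmt) (h2 : SAPM_Stmt) (h3 : MOML_Stmt) (h4 : LIPL_Stmt)
    (h5 : FS.CDF_Stmt) : CLSF_Stmt := by
  intro μ hμ f1
  obtain ⟨hP, hlaw, hmom⟩ := hμ
  obtain ⟨c3, hc3, c, hc, HL⟩ := L1 h1 h2 f1
  obtain ⟨c1, hc1, HM1⟩ := L3 h1 h2 h3 f1 1
  have hpos : ∀ c', c' ≤ c → ∀ (f : ℕ → ℝ) (h : ℕ → ℕ), Adm f1 c' f h → ∀ b : Bool,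
      ∀ᶠ n in atTop, 0 < (cls n b (h n)).card ∧ 0 < forceZ (f n) n ∧ 0 < mf (f n) n := by
    intro c' hc' f h hA b
    have hA' := Adm_mono hc' hA
    obtain ⟨N, HN⟩ := HL 0
    unfold Adm at hA'
    filter_upwards [hA', eventually_ge_atTop N] with n g1 gN
    obtain ⟨a1, a2, a3, -⟩ := HN n gN (f n) g1.1 g1.2.1 (h n) g1.2.2.1 g1.2.2.2 b
    exact ⟨a1, a2, a3⟩
  have hone : ∀ c', c' ≤ min c c1 → ∀ (f : ℕ → ℝ) (h : ℕ → ℕ), Adm f1 c' f h → ∀ b : Bool,
      Tendsto (fun n : ℕ => aC n b (h n) (fun x => 2 * area n x / mf (f n) n)) atTop (𝓝 1) := by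
    intro c' hc' f h hA b
    have e1 := HM1 f h (Adm_mono (hc'.trans (min_le_right _ _)) hA) b
    have e2 : Tendsto (fun n : ℕ => (aC n b (h n) (fun x => (2 * area n x / mf (f n) n) ^ 1) -
      aF n (f n) (fun x => (2 * area n x / mf (f n) n) ^ 1)) + 1) atTop (𝓝 (0 + 1)) :=
      e1.add tendsto_const_nhds
    rw [zero_add] at e2
    refine e2.congr' ?_
    filter_upwards [hpos c' (hc'.trans (min_le_left _ _)) f h hA b] with n hn
    simp only [pow_one]
    rw [aF_one hn.2.1 hn.2.2]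
    ring
  refine ⟨?_, ?_⟩
  · obtain ⟨c0, hc0, hlaw⟩ := hlaw
    refine ⟨min (min c c1) c0, lt_min (lt_min hc hc1) hc0, fun f h hA b x hx => ?_⟩
    have hm1 : min (min c c1) c0 ≤ min c c1 := min_le_left _ _
    have hp := hpos _ (hm1.trans (min_le_left _ _)) f h hA b
    have ho := hone _ hm1 f h hA b
    have hw1 : ∀ᶠ n : ℕ in atTop,
        ∑ x ∈ SAP n, Real.exp (f n * span n x) / forceZ (f n) n = 1 := by
      filter_upwards [hp] with n hn
      rw [← Finset.sum_div]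
      exact div_self hn.2.1.ne'
    have hv1 : ∀ᶠ n : ℕ in atTop,
        ∑ x ∈ cls n b (h n), 1 / ((cls n b (h n)).card : ℝ) = 1 := by
      filter_upwards [hp] with n hn
      have : (0 : ℝ) < (cls n b (h n)).card := by exact_mod_cast hn.1
      rw [Finset.sum_const, nsmul_eq_mul]
      field_simp
    have hwn : ∀ n (s : Fin (2 * n) → Fin 4),
        0 ≤ Real.exp (f n * span n s) / forceZ (f n) n := fun n s =>
      div_nonneg (Real.exp_pos _).le (forceZ_nonneg _ _)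
    have hvn : ∀ n (s : Fin (2 * n) → Fin 4), 0 ≤ 1 / ((cls n b (h n)).card : ℝ) := fun n s => by
      positivity
    have hSn : ∀ n (s : Fin (2 * n) → Fin 4), 0 ≤ 2 * area n s / mf (f n) n := fun n s =>
      div_nonneg (mul_nonneg (by norm_num) (area_nonneg n s)) (mf_nonneg _ _)
    have key := h5 μ hP (fun n => Fin (2 * n) → Fin 4) (fun n => Fin (2 * n) → Fin 4)
      (fun n => SAP n) (fun n => cls n b (h n))
      (fun n s => Real.exp (f n * span n s) / forceZ (f n) n)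
      (fun n s => 2 * area n s / mf (f n) n)
      (fun n _ => 1 / ((cls n b (h n)).card : ℝ)) (fun n s => 2 * area n s / mf (f n) n)
      hwn hvn hSn hSn hw1 hv1 ?_ ?_ ?_ ?_ x hx
    · refine key.congr' ?_
      filter_upwards [hp] with n hn
      rw [areaCdf_eq n (cls n b (h n)) hn.1 (mf (f n) n) hn.2.2 x]
    · refine ⟨1, 1, one_pos, ?_⟩
      filter_upwards [hp] with n hn
      have := aF_one hn.2.1 hn.2.2
      unfold aF at this
      rw [this]
      exact ⟨le_rfl, le_rfl⟩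
    · refine (HM1 f h (Adm_mono (hm1.trans (min_le_right _ _)) hA) b).congr fun n => ?_
      unfold aC aF
      simp only [pow_one]
    · refine h4 (fun n => Fin (2 * n) → Fin 4) (fun n => Fin (2 * n) → Fin 4)
        (fun n => SAP n) (fun n => cls n b (h n))
        (fun n s => Real.exp (f n * span n s) / forceZ (f n) n)
        (fun n s => 2 * area n s / mf (f n) n)
        (fun n _ => 1 / ((cls n b (h n)).card : ℝ)) (fun n s => 2 * area n s / mf (f n) n)
        hwn hvn hSn hSn hw1 hv1 ?_ ?_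
      · refine ⟨2, ?_⟩
        filter_upwards [hp, ho.eventually_le_const (by norm_num : (1 : ℝ) < 2)] with n hn hn2
        have := aF_one hn.2.1 hn.2.2
        unfold aF at this
        rw [this]
        exact ⟨by norm_num, hn2⟩
      · intro j
        obtain ⟨N, HN⟩ := HL j
        have T1 := tend_rpow hc3 1
        refine squeeze_zero_norm' ?_ T1
        have hA' := Adm_mono (hm1.trans (min_le_left _ _)) hA
        unfold Adm at hA'
        filter_upwards [hA', eventually_ge_atTop N] with n g1 gN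
        obtain ⟨a1, a2, a3, a4⟩ := HN n gN (f n) g1.1 g1.2.1 (h n) g1.2.2.1 g1.2.2.2 b
        rw [Real.norm_eq_abs, one_mul]
        exact a4 j (Nat.cast_nonneg _) le_rfl
    · intro y hy
      have hA' := Adm_mono (min_le_right (min c c1) c0) hA
      unfold Adm at hA'
      refine (hlaw f (hA'.mono fun n hn => hn.1) y hy).congr' ?_
      filter_upwards [hp] with n hn
      exact forceCdf_eq (f n) n hn.2.1 (mf (f n) n) hn.2.2 y
  · intro r
    obtain ⟨c0, hc0, hmom⟩ := hmom r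
    obtain ⟨c2, hc2, HM2⟩ := L3 h1 h2 h3 f1 r
    refine ⟨min (min c c1) (min c0 c2), lt_min (lt_min hc hc1) (lt_min hc0 hc2),
      fun f h hA b => ?_⟩
    have hm1 : min (min c c1) (min c0 c2) ≤ min c c1 := min_le_left _ _
    have hp := hpos _ (hm1.trans (min_le_left _ _)) f h hA b
    have ho := hone _ hm1 f h hA b
    have hA' := Adm_mono ((min_le_right (min c c1) (min c0 c2)).trans (min_le_left _ _)) hA
    have hA'' := Adm_mono ((min_le_right (min c c1) (min c0 c2)).trans (min_le_right _ _)) hA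
    unfold Adm at hA'
    have t1 := hmom f (hA'.mono fun n hn => hn.1)
    have t2 := (HM2 f h hA'' b).add t1
    rw [zero_add] at t2
    have t3 : Tendsto (fun n : ℕ => aC n b (h n) (fun x => (2 * area n x / mf (f n) n) ^ r))
        atTop (𝓝 (airyMoment r)) := by
      refine t2.congr' ?_
      filter_upwards [hp] with n hn
      rw [forceMoment_eq hn.2.1 hn.2.2 r]
      ring
    have t4 := t3.div (ho.pow r) (by norm_num)
    rw [one_pow, div_one] at t4
    refine t4.congr' ?_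
    filter_upwards [hp] with n hn
    exact (areaMoment_eq hn.2.2 r).symm

end Pool.Agent.PFS
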