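import Pool.Agent.PFS.StmtsC

/-!
# Project PFS (MP_f6626d_co): polygons with large lateral span (module DIAP)
-/

set_option autoImplicit false

namespace Pool.Agent.PFS

open Finset Filter Topology MeasureTheory
open Pool.Agent.Lib27 Pool.Agent.SapR Pool.Agent.Gap Pool.Agent.AreaLaw Pool.Agent.FL
open Pool.Agent.FS
open Pool.Agent.DIA (wp wZ wErr lspan fl)

namespace DIAP

/-- the pointwise error -/
theorem pt (a b : ℕ) (f : ℝ) :
    |Real.exp (f * ((max a b : ℕ) : ℝ)) - (Real.exp (f * a) + Real.exp (f * b))| =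
      Real.exp (f * ((min a b : ℕ) : ℝ)) := by
  rcases le_total a b with h | h
  · rw [max_eq_right h, min_eq_left h]
    have h2 : Real.exp (f * b) - (Real.exp (f * a) + Real.exp (f * b)) =
        -Real.exp (f * a) := by ring
    rw [h2, abs_neg, abs_of_pos (Real.exp_pos _)]
  · rw [max_eq_left h, min_eq_right h]
    have h2 : Real.exp (f * a) - (Real.exp (f * a) + Real.exp (f * b)) =
        -Real.exp (f * b) := by ring
    rw [h2, abs_neg, abs_of_pos (Real.exp_pos _)]

/-- the number of bad polygons -/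
theorem bad_le (hD : DIA.DMX_Stmt) (hR : DIA.RFL_Stmt) (n : ℕ) (b : Bool) (h : ℕ) {f : ℝ}
    (hf : 0 ≤ f) : Real.exp (f * h) * (DIA.bad n b h).card ≤
      wErr n (fun s => Real.exp (f * span n s)) (fun s => Real.exp (f * diam n s)) := by
  classical
  unfold wErr
  have h1 : ∀ s ∈ SAP n, |Real.exp (f * diam n s) -
      (Real.exp (f * span n s) + Real.exp (f * span n (fl n s)))| =
      Real.exp (f * ((min (span n s) (lspan n s) : ℕ) : ℝ)) := by
    intro s _
    rw [hD n s, (hR n s).2.2.2.1]
    exact pt _ _ f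
  rw [Finset.sum_congr rfl h1]
  calc Real.exp (f * h) * (DIA.bad n b h).card
      = ∑ s ∈ DIA.bad n b h, Real.exp (f * h) := by
        rw [Finset.sum_const, nsmul_eq_mul, mul_comm]
    _ ≤ ∑ s ∈ DIA.bad n b h, Real.exp (f * ((min (span n s) (lspan n s) : ℕ) : ℝ)) := by
        apply Finset.sum_le_sum
        intro s hs
        unfold DIA.bad at hs
        rw [Finset.mem_filter] at hs
        obtain ⟨_, h2, h3⟩ := hs
        have h4 : h ≤ span n s := by
          rcases h2 with ⟨_, h2⟩ | ⟨_, h2⟩
          · exact h2.ge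
          · exact h2
        apply Real.exp_le_exp.mpr
        apply mul_le_mul_of_nonneg_left _ hf
        exact_mod_cast le_min h4 h3
    _ ≤ _ := by
        apply Finset.sum_le_sum_of_subset_of_nonneg
        · unfold DIA.bad
          exact Finset.filter_subset _ _
        · intro s _ _
          exact (Real.exp_pos _).le

end DIAP

/-- DIAP: polygons of the class with large lateral span are negligible. -/
theorem t_DIAP (h1 : PFW.FERP_Stmt) (h2 : SAPM_Stmt) (h3 : DIA.DMX_Stmt) (h4 : DIA.RFL_Stmt) :
    DIAP_Stmt := by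
  classical
  intro f1
  obtain ⟨c1, hc1, hF⟩ := h1
  obtain ⟨c2, hc2, N, hS⟩ := h2 f1 1 (1 / 2) (by norm_num)
  refine ⟨min c1 c2, lt_min hc1 hc2, fun f h hA b j => ?_⟩
  have hF' := hF f (by
    filter_upwards [hA, eventually_ge_atTop 1] with n hn h1
    exact win_mono (min_le_left _ _) h1 hn.1) (j + 1)
  apply squeeze_zero' _ _ hF'
  · exact Eventually.of_forall fun n => by positivity
  · filter_upwards [hA, eventually_ge_atTop 1, eventually_ge_atTop N] with n hn hn1 hnN
    obtain ⟨e1, e2, e3, e4⟩ := hn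
    have hn0 : (0 : ℝ) < n := by exact_mod_cast hn1
    have hf0 : 0 < f n := lt_of_lt_of_le (Real.rpow_pos_of_pos hn0 _) e1
    have hb := DIAP.bad_le h3 h4 n b (h n) hf0.le
    have hc := (hS n hnN (f n) (win_mono (min_le_right _ _) hn1 e1) e2 (h n) e3 e4 b).2.2.2
    have hexp : (n : ℝ) ^ (-(1 / 2 : ℝ) - 1 / 2) = (n : ℝ)⁻¹ := by
      rw [show (-(1 / 2 : ℝ) - 1 / 2) = -1 by norm_num, Real.rpow_neg_one]
    rw [hexp] at hc
    have hz : forceZ (f n) n = wZ n (fun s => Real.exp (f n * span n s)) := rfl
    rw [hz] at hc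
    set Z := wZ n (fun s => Real.exp (f n * span n s)) with hZ
    set W := wErr n (fun s => Real.exp (f n * span n s)) (fun s => Real.exp (f n * diam n s))
      with hW
    have hZ0 : 0 ≤ Z := by
      rw [hZ]
      unfold wZ
      exact Finset.sum_nonneg fun s _ => (Real.exp_pos _).le
    have hE : 0 < Real.exp (f n * (h n : ℝ)) := Real.exp_pos _
    rcases hZ0.eq_or_lt with h0 | h0
    · -- no polygons
      have h5 : SAP n = ∅ := by
        by_contra hne
        obtain ⟨s, hs⟩ := Finset.nonempty_iff_ne_empty.mpr hne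
        have : 0 < Z := by
          rw [hZ]
          unfold wZ
          exact Finset.sum_pos (fun s _ => Real.exp_pos _) ⟨s, hs⟩
        linarith
      have h6 : DIA.bad n b (h n) = ∅ := by
        unfold DIA.bad
        rw [h5, Finset.filter_empty]
      rw [h6, Finset.card_empty, ← h0]
      simp
    · have hcl : 0 < Real.exp (f n * (h n : ℝ)) * ((cls n b (h n)).card : ℝ) :=
        lt_of_lt_of_le (by positivity) hc
      have hcl' : (0 : ℝ) < ((cls n b (h n)).card : ℝ) := by
        by_contra hneg
        have : Real.exp (f n * (h n : ℝ)) * ((cls n b (h n)).card : ℝ) ≤ 0 :=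
          mul_nonpos_of_nonneg_of_nonpos hE.le (not_lt.mp hneg)
        linarith
      have h7 : ((DIA.bad n b (h n)).card : ℝ) / ((cls n b (h n)).card : ℝ) ≤ n * (W / Z) := by
        rw [div_le_iff₀ hcl']
        have h8 : Z ≤ n * (Real.exp (f n * (h n : ℝ)) * ((cls n b (h n)).card : ℝ)) := by
          have := mul_le_mul_of_nonneg_left hc hn0.le
          rwa [← mul_assoc, mul_inv_cancel₀ hn0.ne', one_mul] at this
        have hW0 : 0 ≤ W := le_trans (by positivity) hb
        have h9 : W ≤ n * (W / Z) * (Real.exp (f n * (h n : ℝ)) * ((cls n b (h n)).card : ℝ)) := by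
          calc W = W / Z * Z := by field_simp
            _ ≤ W / Z * (n * (Real.exp (f n * (h n : ℝ)) * ((cls n b (h n)).card : ℝ))) :=
              mul_le_mul_of_nonneg_left h8 (by positivity)
            _ = _ := by ring
        have h10 : Real.exp (f n * (h n : ℝ)) * ((DIA.bad n b (h n)).card : ℝ) ≤
            Real.exp (f n * (h n : ℝ)) * (n * (W / Z) * ((cls n b (h n)).card : ℝ)) := by
          calc _ ≤ W := hb
            _ ≤ _ := h9
            _ = _ := by ring
        exact le_of_mul_le_mul_left h10 hE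
      calc (n : ℝ) ^ j * (((DIA.bad n b (h n)).card : ℝ) / ((cls n b (h n)).card : ℝ))
          ≤ (n : ℝ) ^ j * (n * (W / Z)) := mul_le_mul_of_nonneg_left h7 (by positivity)
        _ = (n : ℝ) ^ (j + 1) * (W / Z) := by rw [pow_succ]; ring

end Pool.Agent.PFS
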