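import Pool.Agent.PFW.Par
import Pool.Agent.Lib_helper74.FS.Stmts

/-!
# Project PFS (MP_f6626d_co): uniform polygons of prescribed span in the large deviation regime,
definitions

`Omn n` canonical polygon words, `sp q` span, `arq n q` integer area functional, `dq q` shoelace
sum, `wtq n s q = s ^ (n - sp q)`, `sc n = n √n`, `Zq n s` total weight.
-/

set_option autoImplicit false

namespace Pool.Agent.PFS

open Finset Filter Topology MeasureTheory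
open Pool.Agent.Lib27 Pool.Agent.SapR Pool.Agent.Gap Pool.Agent.AreaLaw Pool.Agent.FL
open Pool.Agent.FS

/-- Laplace transform of the area functional over the words of span `h` -/
noncomputable def Th (n : ℕ) (s : ℝ) (h : ℕ) (eps : ℝ) : ℝ :=
  ∑ q ∈ (Omn n).filter (fun q => sp q = h), wtq n s q * Real.exp (-(eps * arq n q))

/-- Laplace transform of the area functional over all words -/
noncomputable def Ta (n : ℕ) (s : ℝ) (eps : ℝ) : ℝ :=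
  ∑ q ∈ Omn n, wtq n s q * Real.exp (-(eps * arq n q))

/-- the local Gaussian weight with mean `v n` and variance `2 κ n` -/
noncomputable def gau (n : ℕ) (v κ h : ℝ) : ℝ :=
  Real.exp (-((h - v * n) ^ 2 / (4 * κ * n))) / (2 * Real.sqrt (Real.pi * κ * n))

/-- a property of the force `f` at length `n` which holds with loss `n ^ δ` in a window
`n ^ (-c) ≤ f`, for every `δ > 0` -/
def Win (P : ℝ → ℕ → ℝ → Prop) : Prop := ∀ δ : ℝ, 0 < δ → ∃ c : ℝ, 0 < c ∧ ∃ N : ℕ,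
  ∀ n : ℕ, N ≤ n → ∀ f : ℝ, (n : ℝ) ^ (-c) ≤ f → P δ n f

theorem Win.mono {P Q : ℝ → ℕ → ℝ → Prop} (h : Win P)
    (hPQ : ∀ (δ : ℝ) (n : ℕ) (f : ℝ), P δ n f → Q δ n f) : Win Q := by
  intro δ hδ
  obtain ⟨c, hc, N, hN⟩ := h δ hδ
  exact ⟨c, hc, N, fun n hn f hf => hPQ δ n f (hN n hn f hf)⟩

/-- a smaller window -/
theorem win_mono {a b : ℝ} (hab : a ≤ b) {n : ℕ} (hn : 1 ≤ n) {f : ℝ}
    (hf : (n : ℝ) ^ (-a) ≤ f) : (n : ℝ) ^ (-b) ≤ f := by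
  have h3 : (1 : ℝ) ≤ n := by exact_mod_cast hn
  exact (Real.rpow_le_rpow_of_exponent_le h3 (by linarith)).trans hf

/-- two properties with losses `a * δ` and `b * δ` -/
theorem Win.and {P Q : ℝ → ℕ → ℝ → Prop} (h : Win P) (h' : Win Q) {a b : ℝ} (ha : 0 < a)
    (hb : 0 < b) : Win (fun δ n f => P (a * δ) n f ∧ Q (b * δ) n f) := by
  intro δ hδ
  obtain ⟨c, hc, N, hN⟩ := h (a * δ) (mul_pos ha hδ)
  obtain ⟨c', hc', N', hN'⟩ := h' (b * δ) (mul_pos hb hδ)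
  refine ⟨min c c', lt_min hc hc', max (max N N') 1, fun n hn f hf => ?_⟩
  have hn1 : 1 ≤ n := (le_max_right _ _).trans hn
  have hnN : N ≤ n := (le_max_left _ _).trans ((le_max_left _ _).trans hn)
  have hnN' : N' ≤ n := (le_max_right _ _).trans ((le_max_left _ _).trans hn)
  exact ⟨hN n hnN f (win_mono (min_le_left _ _) hn1 hf),
    hN' n hnN' f (win_mono (min_le_right _ _) hn1 hf)⟩

/-- the property holds for a given value of the loss -/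
theorem Win.at {P : ℝ → ℕ → ℝ → Prop} (h : Win P) {δ : ℝ} (hδ : 0 < δ) : ∃ c : ℝ, 0 < c ∧
    ∃ N : ℕ, ∀ n : ℕ, N ≤ n → ∀ f : ℝ, (n : ℝ) ^ (-c) ≤ f → P δ n f := h δ hδ

/-- the local law: `Th` is `gau` times `Ta` up to `n ^ (-(1/2) - c1)` -/
def LLat (c1 : ℝ) (n : ℕ) (f ρ v κ : ℝ) : Prop := ∀ (h : ℕ) (eps : ℝ), 0 ≤ eps →
  eps * (2 * n + 2) ≤ 1 →
    |sc n * ρ ^ n * (Th n (Real.exp (-f)) h eps - gau n v κ h * Ta n (Real.exp (-f)) eps)| ≤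
      (n : ℝ) ^ (-(1 / 2) - c1)

/-- INTERFACE (parts A, B, helper27). LLP: the local law for the span, uniformly in the Laplace
parameter of the area functional. -/
def LLP_Stmt : Prop := ∀ f1 : ℝ, ∃ c1 : ℝ, 0 < c1 ∧ ∀ δ : ℝ, 0 < δ → ∃ c : ℝ, 0 < c ∧ ∃ N : ℕ,
  ∀ n : ℕ, N ≤ n → ∀ f : ℝ, (n : ℝ) ^ (-c) ≤ f → f ≤ f1 → ∀ ρ : ℝ,
    Crit n (Real.exp (-f)) ρ → ∃ v κ : ℝ, (n : ℝ) ^ (-δ) ≤ v ∧ v ≤ 1 ∧ (n : ℝ) ^ (-δ) ≤ κ ∧
      κ ≤ (n : ℝ) ^ δ ∧ LLat c1 n f ρ v κ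

/-- INTERFACE (part B, helper27). BLP: moments at fixed span. -/
def BLP_Stmt : Prop := ∀ (f1 : ℝ) (p : ℕ) (δ : ℝ), 0 < δ → ∃ c : ℝ, 0 < c ∧ ∃ N : ℕ,
  ∀ n : ℕ, N ≤ n → ∀ f : ℝ, (n : ℝ) ^ (-c) ≤ f → f ≤ f1 → ∀ h : ℕ,
    ∑ q ∈ (Omn n).filter (fun q => sp q = h), wtq n (Real.exp (-f)) q * (arq n q : ℝ) ^ p ≤
      (n : ℝ) ^ (-(1 / 2) + δ) * (sc n ^ p * Zq n (Real.exp (-f))) ∧
    ∑ q ∈ (Omn n).filter (fun q => sp q = h), wtq n (Real.exp (-f)) q *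
        |(|(dq q : ℝ)| - (arq n q : ℝ))| ^ p ≤
      (n : ℝ) ^ (-(1 / 2) + δ) * ((n : ℝ) ^ p * Zq n (Real.exp (-f)))

end Pool.Agent.PFS
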