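import Pool.Agent.PFS.DefsA
import Pool.Agent.PFS.DefsC

/-!
# Project PFS (MP_f6626d_co): all definitions (parts A, B and C)
-/
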