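import Pool.Agent.EXW.StmtsA
import Pool.Agent.Lib_helper22.Gap.J2

/-!
# Project PFS (MP_f6626d_co, prescribed span in the polynomial regime): definitions

A kernel with complex phases: the piece of half length `m` and height `h` gets the additional factor
`exp (i θ (h - v m))`, `v = hbar / mbar`.
-/

set_option autoImplicit false

open Finset Filter Topology

namespace Pool.Agent.PFS

open Pool.Agent.Gap Pool.Agent.FL Pool.Agent.EXW

/-- the phases -/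
noncomputable def ph (θ v : ℝ) (i : ℕ × ℕ) : ℂ :=
  Complex.exp (((θ * ((i.2 : ℝ) - v * i.1) : ℝ) : ℂ) * Complex.I)

lemma norm_ph (θ v : ℝ) (i : ℕ × ℕ) : ‖ph θ v i‖ = 1 := Complex.norm_exp_ofReal_mul_I _

lemma ph_zero (v : ℝ) (i : ℕ × ℕ) : ph 0 v i = 1 := by simp [ph]

/-- kernel with phases `p` and `j` marks on the half length -/
noncomputable def KzT (G : GapKernel) (p : ℕ × ℕ → ℂ) (j : ℕ) (eps : ℝ) (z : ℂ) (g g' : ℤ) : ℂ :=
  ∑ i ∈ G.S, ((i.1 : ℂ)) ^ j * (z ^ i.1 * p i) * ((G.K i g g' * GapKernel.wt eps i g g' : ℝ) : ℂ)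

/-- application of the kernel with phases (gaps restricted to `1..N`) -/
noncomputable def KapT (G : GapKernel) (p : ℕ × ℕ → ℂ) (j : ℕ) (eps : ℝ) (z : ℂ) (N : ℕ)
    (f : ℤ → ℂ) (g : ℤ) : ℂ := ∑ g' ∈ Icc (1 : ℤ) N, KzT G p j eps z g g' * f g'

/-- the operator `1 - K` with phases -/
noncomputable def LopT (G : GapKernel) (p : ℕ × ℕ → ℂ) (eps : ℝ) (z : ℂ) (N : ℕ)
    (f : ℤ → ℂ) (g : ℤ) : ℂ := f g - KapT G p 0 eps z N f g

/-- `v` (supported on `1..N`) solves `(1 - K) v = e` on `1..N` -/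
def SolvesT (G : GapKernel) (p : ℕ × ℕ → ℂ) (eps : ℝ) (z : ℂ) (N : ℕ) (v e : ℤ → ℂ) : Prop :=
  (∀ g : ℤ, (g < 1 ∨ (N : ℤ) < g) → v g = 0) ∧
    ∀ g ∈ Icc (1 : ℤ) N, LopT G p eps z N v g = e g

/-- source of complex caps with `j` marks -/
noncomputable def capc (C0 : ℕ) (cs : ℕ → ℤ → ℂ) (j : ℕ) (z : ℂ) (g : ℤ) : ℂ :=
  ∑ m ∈ range (C0 + 1), ((m : ℂ)) ^ j * z ^ m * cs m g

/-- coefficient arrays of the truncated model with phases -/
structure IsArrT (G : GapKernel) (p : ℕ × ℕ → ℂ) (cs : ℕ → ℤ → ℂ) (eps : ℝ) (N : ℕ)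
    (b : ℕ → ℤ → ℂ) : Prop where
  zero : ∀ n (g : ℤ), (g < 1 ∨ (N : ℤ) < g) → b n g = 0
  step : ∀ n (g : ℤ), 1 ≤ g → g ≤ N → b n g = cs n g + ∑ i ∈ G.S, if i.1 ≤ n then
    ∑ g' ∈ Icc (1 : ℤ) N, p i * ((G.K i g g' * GapKernel.wt eps i g g' : ℝ) : ℂ) *
      b (n - i.1) g' else 0

/-- generating function of a complex array with `j` marks -/
noncomputable def gfc (j : ℕ) (b : ℕ → ℤ → ℂ) (z : ℂ) (g : ℤ) : ℂ :=
  ∑' n : ℕ, ((n : ℂ)) ^ j * b n g * z ^ n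

/-- closing a complex array by complex caps -/
noncomputable def closec (C0 : ℕ) (ct b : ℕ → ℤ → ℂ) (n : ℕ) : ℂ :=
  ∑ m ∈ range (n + 1), ∑ g ∈ Icc (1 : ℤ) C0, ct m g * b (n - m) g

/-- generating function of a complex sequence with `j` marks -/
noncomputable def cgf (j : ℕ) (a : ℕ → ℂ) (z : ℂ) : ℂ := ∑' n : ℕ, ((n : ℂ)) ^ j * a n * z ^ n

/-- the parameters `v` (mean height per half length) and `κ` (half the variance per half length)
of a kernel of the class -/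
structure TwP (D : ℝ) (G : GapKernel) (v κ : ℝ) : Prop where
  cls : Cls D (1 - D⁻¹) G
  v_eq : G.hbar = v * G.mbar
  var : ∑ i ∈ G.S, G.rho ^ i.1 * G.tot i * ((i.2 : ℝ) - v * i.1) ^ 2 = 2 * κ * G.mbar
  var_ge : D⁻¹ ≤ κ

/-- complex caps close to the caps `s` -/
structure CapT (D θ : ℝ) (G : GapKernel) (C0 : ℕ) (s : ℕ → ℤ → ℝ) (cs : ℕ → ℤ → ℂ) : Prop where
  cap : ClsCap D (1 - D⁻¹) G C0 s
  le : ∀ m g, ‖cs m g‖ ≤ s m g
  near : ∀ m g, ‖cs m g - (s m g : ℂ)‖ ≤ |θ| * m * s m g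

/-- the scales: `n` is larger than every fixed power of `D` and `W`, and `θ² n` is at most `W` -/
structure ScT (K : ℕ) (D W : ℝ) (G : GapKernel) (v κ θ : ℝ) (n : ℕ) : Prop where
  D2 : 2 ≤ D
  W2 : 2 ≤ W
  tw : TwP D G v κ
  big : (D * W) ^ K ≤ n
  th : θ ^ 2 * n * D ^ K ≤ W

end Pool.Agent.PFS
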