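import Pool.Agent.PFS.StmtsC

/-!
# Project PFS, module FFA: critical weight, tails, total weight, mean area
-/

set_option autoImplicit false

namespace Pool.Agent.PFS

open Finset Filter Topology MeasureTheory
open Pool.Agent.Lib27 Pool.Agent.SapR Pool.Agent.Gap Pool.Agent.AreaLaw Pool.Agent.FL
open Pool.Agent.FS
open Pool.Agent.PFW (Mp CritW two_le_Mp)
open Pool.Agent.EXW (Dat2 cls_mono clsCap_mono)

theorem t_FFA (h1 : Pool.Agent.PFW.DATP_Stmt) (h2 : Pool.Agent.PFW.WCS_Stmt) (h3 : GUB_Stmt)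
    (h4 : Pool.Agent.FL.MGI2_Stmt) (h5 : SLOWN_Stmt) : FFA_Stmt := by
  obtain ⟨A1, hA1, N1, hN1, hDat⟩ := h1
  obtain ⟨A2, hA2, hC⟩ := h2
  obtain ⟨A, hAdef⟩ : ∃ A : ℕ, A = max A1 A2 := ⟨_, rfl⟩
  have hAA1 : A1 ≤ A := by omega
  have hAA2 : A2 ≤ A := by omega
  have hA : 2 ≤ A := by omega
  obtain ⟨K, hK⟩ := hC A hAA2
  obtain ⟨K0, K1, hG⟩ := h3
  obtain ⟨E, hE⟩ : ∃ E : ℕ, E = (K + 1) * K0 + (K + 1) * K1 + K + 1 := ⟨_, rfl⟩
  intro δ hδ
  obtain ⟨c, hc, N, hN⟩ := h5 A E hA (min δ 1) (lt_min hδ one_pos)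
  refine ⟨c, hc, max N N1, fun n hn f hf => ?_⟩
  have hnN : N ≤ n := (le_max_left _ _).trans hn
  have hnN1 : N1 ≤ n := (le_max_right _ _).trans hn
  have hn1 : 1 ≤ n := by omega
  have hnr : (1 : ℝ) ≤ n := by exact_mod_cast hn1
  obtain ⟨hf0, hME⟩ := hN n hnN f hf
  have hM2 : 2 ≤ Mp A f := two_le_Mp hA hf0
  have hM1 : 1 ≤ Mp A f := by linarith
  have hpd : ∀ k : ℕ, k ≤ E → Mp A f ^ k ≤ (n : ℝ) ^ δ := fun k hk =>
    (pow_le_pow_right₀ hM1 hk).trans (hME.trans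
      (Real.rpow_le_rpow_of_exponent_le hnr (min_le_left _ _)))
  have hpn : ∀ k : ℕ, k ≤ E → Mp A f ^ k ≤ n := fun k hk =>
    (pow_le_pow_right₀ hM1 hk).trans (hME.trans (by
      have := Real.rpow_le_rpow_of_exponent_le hnr (min_le_right δ 1)
      rwa [Real.rpow_one] at this))
  have hM : Mp A f ≤ n := by
    have := hpn 1 (by omega)
    rwa [pow_one] at this
  have hMd : Mp A f ≤ (n : ℝ) ^ δ := by
    have := hpd 1 (by omega)
    rwa [pow_one] at this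
  obtain ⟨d⟩ := hDat A hAA1 n f hnN1 hf0 hM
  obtain ⟨V, hV⟩ := hK n f hf0 (hpn K (by omega)) d
  have hs0 : 0 < Real.exp (-f) := Real.exp_pos _
  have hs1 : Real.exp (-f) ≤ 1 := Real.exp_le_one_iff.2 (by linarith)
  obtain ⟨hr1, hr2⟩ := h4.2 n (Real.exp (-f)) d.G.rho hn1 hs0 hs1 d.G.rho_pos d.crit
  have hMD : Mp A f ≤ Mp A f ^ (K + 1) := le_self_pow₀ hM1 (by omega)
  have hD2 : 2 ≤ Mp A f ^ (K + 1) := hM2.trans hMD
  have hcls : Cls (Mp A f ^ (K + 1)) (1 - (Mp A f ^ (K + 1))⁻¹) d.G :=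
    cls_mono hM2 hMD d.cls
  have hcap : ClsCap (Mp A f ^ (K + 1)) (1 - (Mp A f ^ (K + 1))⁻¹) d.G (2 * n)
      (capW n (Real.exp (-f))) := clsCap_mono hM2 hMD d.cap
  have hcrit : CritW (Mp A f ^ (K + 1)) d.G
      (GE.sr d.G.rho (2 * n) (capW n (Real.exp (-f)))) V :=
    hV.mono (pow_pos (by linarith) K) (pow_le_pow_right₀ hM1 (by omega))
  obtain ⟨g1, g2, g3⟩ := hG (Mp A f ^ (K + 1)) hD2 d.G hcls (2 * n) (capW n (Real.exp (-f)))
    (capW n (Real.exp (-f))) V V d.B hcap hcap hcrit hcrit d.sol n (by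
      rw [← pow_mul]
      exact hpn _ (by rw [hE]; omega))
  have e1 : (closeP (2 * n) (capW n (Real.exp (-f))) d.B n).eval 1 = Zq n (Real.exp (-f)) := by
    rw [← d.count, Polynomial.eval_finsetSum]
    unfold Zq
    refine Finset.sum_congr rfl fun q _ => ?_
    simp
  have e2 : (closeP (2 * n) (capW n (Real.exp (-f))) d.B n).derivative.eval 1 =
      ∑ q ∈ Omn n, wtq n (Real.exp (-f)) q * (arq n q : ℝ) := by
    rw [← d.count, Polynomial.derivative_sum, Polynomial.eval_finsetSum]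
    refine Finset.sum_congr rfl fun q _ => ?_
    simp [arq, Polynomial.derivative_X_pow]
  rw [e1] at g1 g2 g3
  rw [e2] at g3
  rw [← pow_mul] at g1 g2 g3
  have hK1 : Mp A f ^ ((K + 1) * K1) ≤ (n : ℝ) ^ δ := hpd _ (by rw [hE]; omega)
  have hinv : (n : ℝ) ^ (-δ) ≤ (Mp A f ^ ((K + 1) * K1))⁻¹ := by
    rw [Real.rpow_neg (by linarith)]
    exact inv_anti₀ (pow_pos (by linarith) _) hK1
  have hsc : 0 ≤ sc n := by unfold sc; positivity
  have hZ : 0 ≤ Zq n (Real.exp (-f)) := by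
    unfold Zq wtq
    exact Finset.sum_nonneg fun q _ => pow_nonneg hs0.le _
  refine ⟨hf0, d.G.rho, Mp A f, hr1, hr2, ⟨d.G.rho_pos, d.crit⟩, hM2, hMd, d.tails,
    hinv.trans g1, g2.trans hK1, ?_⟩
  refine le_trans (mul_le_mul_of_nonneg_right hinv (mul_nonneg hsc hZ)) ?_
  rw [← mul_assoc]
  exact g3

end Pool.Agent.PFS
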