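import Pool.Agent.PFS.StmtsC
import Pool.Agent.DIA.ZBF

/-!
# Project PFS, module FFP: moments of the area functional and of the error
-/

set_option autoImplicit false

namespace Pool.Agent.PFS

open Finset Filter Topology MeasureTheory
open Pool.Agent.Lib27 Pool.Agent.SapR Pool.Agent.Gap Pool.Agent.AreaLaw Pool.Agent.FL
open Pool.Agent.FS
open Pool.Agent.PFW (Mp CritW)
open Pool.Agent.EXW (Dat2 Sc0 cls_mono clsCap_mono)
open Pool.Agent.KCG (mr)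

namespace FFPx

/-! ### The moments of the area polynomials -/

theorem mr_eq (r : ℕ) (P : Polynomial ℝ) :
    mr r P = Polynomial.lsum (fun m => LinearMap.mulRight ℝ ((m : ℝ) ^ r)) P := rfl

theorem mr_sum (r : ℕ) {ι : Type} (s : Finset ι) (f : ι → Polynomial ℝ) :
    mr r (∑ i ∈ s, f i) = ∑ i ∈ s, mr r (f i) := by
  simp only [mr_eq, map_sum]

theorem mr_CX (r a : ℕ) (c : ℝ) :
    mr r (Polynomial.C c * Polynomial.X ^ a) = c * (a : ℝ) ^ r := by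
  rw [Polynomial.C_mul_X_pow_eq_monomial]
  unfold mr
  rw [Polynomial.sum_monomial_index]
  simp

theorem mr_count {C θ : ℝ} {n : ℕ} {s : ℝ} (d : Dat2 C θ n s) (p : ℕ) :
    mr p (closeP (2 * n) (capW n s) d.B n) = ∑ q ∈ Omn n, wtq n s q * (arq n q : ℝ) ^ p := by
  rw [← d.count, mr_sum]
  exact Finset.sum_congr rfl fun q _ => mr_CX _ _ _

theorem eval_count {C θ : ℝ} {n : ℕ} {s : ℝ} (d : Dat2 C θ n s) :
    (closeP (2 * n) (capW n s) d.B n).eval 1 = Zq n s := by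
  rw [← d.count, Polynomial.eval_finsetSum]
  unfold Zq
  refine Finset.sum_congr rfl fun q _ => ?_
  simp

/-! ### The critical weight is unique -/

theorem crit_uniq {n : ℕ} {s a b : ℝ} (hs : 0 < s) (ha : Crit n s a) (hb : Crit n s b) :
    a = b := by
  have key : ∀ a b : ℝ, 0 < a → a < b →
      ∑ p ∈ Pc (2 * n - 1), a ^ hl p * s ^ (hl p - htn p) = 1 →
      ∑ p ∈ Pc (2 * n - 1), b ^ hl p * s ^ (hl p - htn p) = 1 → False := by
    intro a b ha hab h1 h2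
    have hne : (Pc (2 * n - 1)).Nonempty := by
      by_contra hE
      rw [Finset.not_nonempty_iff_eq_empty] at hE
      rw [hE] at h1
      simp at h1
    have : ∑ p ∈ Pc (2 * n - 1), a ^ hl p * s ^ (hl p - htn p) <
        ∑ p ∈ Pc (2 * n - 1), b ^ hl p * s ^ (hl p - htn p) := by
      refine Finset.sum_lt_sum_of_nonempty hne fun p hp => ?_
      refine mul_lt_mul_of_pos_right ?_ (pow_pos hs _)
      exact pow_lt_pow_left₀ hab ha.le (by have := (FL.KW.len_hl hp).2.1; omega)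
    rw [h1, h2] at this
    exact lt_irrefl _ this
  by_contra hne
  rcases lt_or_gt_of_ne hne with h | h
  · exact key a b ha.1 h ha.2 hb.2
  · exact key b a hb.1 h hb.2 ha.2

/-! ### Powers of the logarithm -/

theorem log_pow (p : ℕ) {η : ℝ} (hη : 0 < η) :
    ∃ N : ℕ, ∀ n : ℕ, N ≤ n → Real.log n ^ p ≤ (n : ℝ) ^ η := by
  have h1 := (isLittleO_log_rpow_rpow_atTop (p : ℝ) hη).bound (one_pos)
  have h2 := (tendsto_natCast_atTop_atTop (R := ℝ)).eventually h1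
  obtain ⟨N, hN⟩ := eventually_atTop.1 h2
  refine ⟨max N 1, fun n hn => ?_⟩
  have h3 := hN n ((le_max_left _ _).trans hn)
  have hn1 : (1 : ℝ) ≤ n := by exact_mod_cast (le_max_right N 1).trans hn
  have hlog : 0 ≤ Real.log n := Real.log_nonneg hn1
  rw [Real.rpow_natCast, one_mul, Real.norm_of_nonneg (pow_nonneg hlog p),
    Real.norm_of_nonneg (Real.rpow_nonneg (by linarith) _)] at h3
  exact h3

/-- the two losses -/
theorem two_le (δ : ℝ) (hδ : 0 < δ) : ∃ N : ℕ, ∀ n : ℕ, N ≤ n → 2 ≤ (n : ℝ) ^ (δ / 4) := by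
  have h : ∀ᶠ n : ℕ in atTop, 2 ≤ (n : ℝ) ^ (δ / 4) :=
    ((tendsto_rpow_atTop (by positivity : 0 < δ / 4)).comp
      (tendsto_natCast_atTop_atTop (R := ℝ))).eventually_ge_atTop _
  exact eventually_atTop.1 h

theorem Zq_nonneg (n : ℕ) {s : ℝ} (hs : 0 < s) : 0 ≤ Zq n s := by
  unfold Zq
  refine Finset.sum_nonneg fun q _ => ?_
  unfold wtq
  positivity

/-! ### The two estimates -/

/-- first part -/
theorem fin1 {M x L Z S δ : ℝ} {a p : ℕ} (hx : 1 ≤ x) (hδ : 0 < δ) (hM : M ^ a ≤ x ^ (δ / 4))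
    (hL0 : 0 ≤ L) (hL : L ^ p ≤ x ^ (δ / 4)) (hZ : 0 ≤ Z)
    (h : S ≤ M ^ a * (x * Real.sqrt x * L) ^ p * Z) :
    S ≤ x ^ δ * ((x * Real.sqrt x) ^ p * Z) := by
  have hx0 : 0 < x := by linarith
  have h1 : x ^ (δ / 4) * x ^ (δ / 4) ≤ x ^ δ := by
    rw [← Real.rpow_add hx0]
    exact Real.rpow_le_rpow_of_exponent_le hx (by linarith)
  have h2 : M ^ a * L ^ p ≤ x ^ δ :=
    (mul_le_mul hM hL (pow_nonneg hL0 p) (Real.rpow_nonneg hx0.le _)).trans h1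
  have h3 : 0 ≤ (x * Real.sqrt x) ^ p * Z := by positivity
  refine h.trans ?_
  calc M ^ a * (x * Real.sqrt x * L) ^ p * Z =
        (M ^ a * L ^ p) * ((x * Real.sqrt x) ^ p * Z) := by
        rw [mul_pow (x * Real.sqrt x) L p]
        ring
    _ ≤ _ := mul_le_mul_of_nonneg_right h2 h3

/-- second part -/
theorem fin2 {M x L Z S R δ : ℝ} {a b p : ℕ} (hx : 1 ≤ x)
    (hb : b = a * p) (hM : M ^ a ≤ x ^ (δ / 4)) (hMb : M ^ b ≤ x ^ (δ / 4))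
    (h2 : 2 ≤ x ^ (δ / 4))
    (hL0 : 0 ≤ L) (hL : L ^ p ≤ x ^ (δ / 4)) (hZ : 0 ≤ Z) (hR : 0 < R)
    (hF : x ^ (-(δ / 4)) ≤ x * Real.sqrt x * R * Z)
    (h : S ≤ (M ^ a * x * L) ^ p * Z + M ^ a * (1 / (x ^ 2 * R))) :
    S ≤ x ^ δ * (x ^ p * Z) := by
  have hx0 : 0 < x := by linarith
  obtain ⟨y, hy⟩ : ∃ y : ℝ, y = x ^ (δ / 4) := ⟨_, rfl⟩
  have hy4 : x ^ δ = y ^ 4 := by
    rw [hy, ← Real.rpow_natCast, ← Real.rpow_mul hx0.le]
    congr 1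
    push_cast
    ring
  have hyi : x ^ (-(δ / 4)) = y⁻¹ := by
    rw [hy, Real.rpow_neg hx0.le]
  rw [hyi] at hF
  rw [hy4]
  rw [← hy] at hM hMb h2 hL
  have hy0 : 0 < y := by linarith
  have hxp : 1 ≤ x ^ p := one_le_pow₀ hx
  have hs : Real.sqrt x ≤ x := by
    rw [Real.sqrt_le_left hx0.le]
    nlinarith
  -- the first term
  have e1 : (M ^ a * x * L) ^ p * Z ≤ y ^ 2 * (x ^ p * Z) := by
    have e2 : (M ^ a * x * L) ^ p * Z = (M ^ b * L ^ p) * (x ^ p * Z) := by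
      rw [hb, mul_pow, mul_pow, ← pow_mul]
      ring
    rw [e2]
    refine mul_le_mul_of_nonneg_right ?_ (by positivity)
    calc M ^ b * L ^ p ≤ y * y := mul_le_mul hMb hL (pow_nonneg hL0 p) hy0.le
      _ = y ^ 2 := by ring
  -- the second term
  have e3 : 1 ≤ y * (x * Real.sqrt x * R * Z) := by
    calc (1 : ℝ) = y * y⁻¹ := (mul_inv_cancel₀ hy0.ne').symm
      _ ≤ _ := mul_le_mul_of_nonneg_left hF hy0.le
  have e4 : 1 / (x ^ 2 * R) ≤ y * Z := by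
    rw [div_le_iff₀ (by positivity)]
    refine e3.trans ?_
    have : x * Real.sqrt x ≤ x * x := mul_le_mul_of_nonneg_left hs hx0.le
    have h5 : x * Real.sqrt x * (R * Z) ≤ x * x * (R * Z) :=
      mul_le_mul_of_nonneg_right this (by positivity)
    calc y * (x * Real.sqrt x * R * Z) = y * (x * Real.sqrt x * (R * Z)) := by ring
      _ ≤ y * (x * x * (R * Z)) := mul_le_mul_of_nonneg_left h5 hy0.le
      _ = y * Z * (x ^ 2 * R) := by ring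
  have e5 : M ^ a * (1 / (x ^ 2 * R)) ≤ y ^ 2 * (x ^ p * Z) := by
    calc M ^ a * (1 / (x ^ 2 * R)) ≤ y * (y * Z) := mul_le_mul hM e4 (by positivity) hy0.le
      _ = y ^ 2 * (1 * Z) := by ring
      _ ≤ y ^ 2 * (x ^ p * Z) :=
        mul_le_mul_of_nonneg_left (mul_le_mul_of_nonneg_right hxp hZ) (by positivity)
  have e6 : 2 * y ^ 2 ≤ y ^ 4 := by
    have : 2 ≤ y ^ 2 := by nlinarith
    nlinarith [sq_nonneg y]
  have e7 : 0 ≤ x ^ p * Z := by positivity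
  calc S ≤ y ^ 2 * (x ^ p * Z) + y ^ 2 * (x ^ p * Z) := h.trans (add_le_add e1 e5)
    _ = 2 * y ^ 2 * (x ^ p * Z) := by ring
    _ ≤ _ := mul_le_mul_of_nonneg_right e6 e7

end FFPx

open FFPx

open Pool.Agent.DIA.ZBF (near) in
theorem t_FFP (h1 : Pool.Agent.PFW.DATP_Stmt) (h2 : Pool.Agent.PFW.WCS_Stmt)
    (h3 : Pool.Agent.PFW.WMA_Stmt) (h4 : Pool.Agent.EXW.PDIF_Stmt) (h5 : FFA_Stmt)
    (h6 : SLOWN_Stmt) : FFP_Stmt := by
  intro p δ hδ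
  obtain ⟨A1, hA1, N0, hN0, hDat⟩ := h1
  obtain ⟨A2, hA2, hC⟩ := h2
  obtain ⟨A, hAdef⟩ : ∃ A : ℕ, A = max A1 A2 := ⟨_, rfl⟩
  have hAA1 : A1 ≤ A := by omega
  have hAA2 : A2 ≤ A := by omega
  have hA : 2 ≤ A := by omega
  obtain ⟨K, hK⟩ := hC A hAA2
  obtain ⟨K0, K1, hW⟩ := h3 p
  obtain ⟨Kd, hPD⟩ := h4 p
  obtain ⟨E, hE⟩ : ∃ E : ℕ, E = (K + 1) * (K0 + 2) * K0 + K + 1 + (K + 1) * K1 + Kd * p + Kd :=
    ⟨_, rfl⟩
  obtain ⟨η, hηd⟩ : ∃ η : ℝ, η = min (δ / 4) 1 := ⟨_, rfl⟩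
  have hη0 : 0 < η := by
    rw [hηd]
    exact lt_min (by positivity) one_pos
  have hη1 : η ≤ δ / 4 := by
    rw [hηd]
    exact min_le_left _ _
  have hη2 : η ≤ 1 := by
    rw [hηd]
    exact min_le_right _ _
  obtain ⟨c1, hc1, n1, hS⟩ := h6 A E hA η hη0
  obtain ⟨c2, hc2, n2, hF⟩ := h5 (δ / 4) (by positivity)
  obtain ⟨n3, hLog⟩ := log_pow p (by positivity : 0 < δ / 4)
  obtain ⟨n4, hTwo⟩ := two_le δ hδ
  obtain ⟨N, hN⟩ : ∃ N : ℕ, N = n1 + n2 + n3 + n4 + N0 + 2 := ⟨_, rfl⟩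
  refine ⟨min c1 c2, lt_min hc1 hc2, N, fun n hn f hf => ?_⟩
  have hn2 : 2 ≤ n := by omega
  have hn1' : 1 ≤ n := by omega
  have hx : (1 : ℝ) ≤ n := by exact_mod_cast hn1'
  obtain ⟨hf0, hME⟩ := hS n (by omega) f (win_mono (min_le_left _ _) hn1' hf)
  obtain ⟨-, ρ, -, -, -, hcr, -, -, -, hlow, -, -⟩ :=
    hF n (by omega) f (win_mono (min_le_right _ _) hn1' hf)
  have hM2 : 2 ≤ Mp A f := PFW.two_le_Mp hA hf0
  have hM1 : 1 ≤ Mp A f := by linarith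
  have hpow : ∀ k : ℕ, k ≤ E → Mp A f ^ k ≤ (n : ℝ) ^ η := fun k hk =>
    (pow_le_pow_right₀ hM1 hk).trans hME
  have hpn : ∀ k : ℕ, k ≤ E → Mp A f ^ k ≤ n := fun k hk => (hpow k hk).trans (by
    calc (n : ℝ) ^ η ≤ (n : ℝ) ^ (1 : ℝ) := Real.rpow_le_rpow_of_exponent_le hx hη2
      _ = n := Real.rpow_one _)
  have hpd : ∀ k : ℕ, k ≤ E → Mp A f ^ k ≤ (n : ℝ) ^ (δ / 4) := fun k hk => (hpow k hk).trans
    (Real.rpow_le_rpow_of_exponent_le hx hη1)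
  have hM : Mp A f ≤ n := by
    have := hpn 1 (by omega)
    rwa [pow_one] at this
  have hnK := hpn K (by omega)
  have hnB := hpn ((K + 1) * (K0 + 2) * K0) (by omega)
  have hs0 : 0 < Real.exp (-f) := Real.exp_pos _
  have hs1 : Real.exp (-f) ≤ 1 := by
    rw [Real.exp_le_one_iff]
    linarith
  have hZ0 := Zq_nonneg n hs0
  have hlog : 0 ≤ Real.log n := Real.log_nonneg hx
  obtain ⟨d⟩ := hDat A hAA1 n f (by omega) hf0 hM
  obtain ⟨V, hV⟩ := hK n f hf0 hnK d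
  have hρ : ρ = d.G.rho := crit_uniq hs0 hcr ⟨d.G.rho_pos, d.crit⟩
  have hMD : Mp A f ≤ Mp A f ^ (K + 1) := le_self_pow₀ hM1 (by omega)
  have hD2 : 2 ≤ Mp A f ^ (K + 1) := hM2.trans hMD
  have hD1 : 1 ≤ Mp A f ^ (K + 1) := by linarith
  have hcls : Cls (Mp A f ^ (K + 1)) (1 - (Mp A f ^ (K + 1))⁻¹) d.G :=
    cls_mono hM2 hMD d.cls
  have hcap : ClsCap (Mp A f ^ (K + 1)) (1 - (Mp A f ^ (K + 1))⁻¹) d.G (2 * n)
      (capW n (Real.exp (-f))) := clsCap_mono hM2 hMD d.cap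
  have hcrit : CritW (Mp A f ^ (K + 1)) d.G
      (GE.sr d.G.rho (2 * n) (capW n (Real.exp (-f)))) V :=
    hV.mono (pow_pos (by linarith) K) (pow_le_pow_right₀ hM1 (by omega))
  have hW2 : 2 ≤ (Mp A f ^ (K + 1)) ^ (K0 + 1) :=
    hD2.trans (le_self_pow₀ hD1 (by omega))
  have hSc : Sc0 K0 (Mp A f ^ (K + 1)) ((Mp A f ^ (K + 1)) ^ (K0 + 1)) d.G n
      ⌊2 * d.G.sig2 * n / d.G.mbar⌋₊ := by
    refine ⟨hD2, hW2, hcls, ?_, near hD2 d.G hcls n⟩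
    have e : (Mp A f ^ (K + 1) * (Mp A f ^ (K + 1)) ^ (K0 + 1)) ^ K0 =
        Mp A f ^ ((K + 1) * (K0 + 2) * K0) := by
      have e1 : ∀ x : ℝ, x * x ^ (K0 + 1) = x ^ (K0 + 2) := fun x => by ring
      rw [e1, pow_mul, pow_mul]
    rw [e]
    exact hnB
  have g1 := hW (Mp A f ^ (K + 1)) hD2 d.G hcls (2 * n) (capW n (Real.exp (-f)))
    (capW n (Real.exp (-f))) V V d.B hcap hcap hcrit hcrit d.sol
    ((Mp A f ^ (K + 1)) ^ (K0 + 1)) n ⌊2 * d.G.sig2 * n / d.G.mbar⌋₊ hSc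
    (pow_le_pow_right₀ hD1 (by omega))
  rw [mr_count, eval_count, ← pow_mul] at g1
  have g2 := hPD (Mp A f) hM2 n (Real.exp (-f)) d.G.rho hn2 hs0 hs1 d.G.rho_pos d.crit d.tails
  refine ⟨?_, ?_⟩
  · exact fin1 hx hδ (hpd _ (by omega)) hlog (hLog n (by omega)) hZ0 g1
  · refine fin2 (a := Kd) (b := Kd * p) (p := p) (M := Mp A f) (x := (n : ℝ)) (L := Real.log n)
      (Z := Zq n (Real.exp (-f))) (R := d.G.rho ^ n) hx rfl (hpd _ (by omega))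
      (hpd _ (by omega)) (hTwo n (by omega)) hlog (hLog n (by omega)) hZ0
      (pow_pos d.G.rho_pos n) ?_ ?_
    · rw [hρ] at hlow
      exact hlow
    · exact g2

end Pool.Agent.PFS
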