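import Pool.Agent.PFS.StmtsC
import Pool.Agent.DIA.MainPre
import Pool.Agent.Lib_helper74.FS.CHOICE

/-!
# Project PFS (MP_f6626d_co): the theorem from the modules of part C

`FINP_Stmt`: as `T1_Stmt`, the hypothesis on `h n` includes `e n * n ≤ h n` for some `e n → 0`.
-/

set_option autoImplicit false

namespace Pool.Agent.PFS

open Finset Filter Topology MeasureTheory
open Pool.Agent.Lib27 Pool.Agent.SapR Pool.Agent.Gap Pool.Agent.AreaLaw Pool.Agent.FL
open Pool.Agent.FS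
open Pool.Agent.KCS (airyMoment)
open Pool.Agent.KCC (areaMoment)
open Pool.Agent.DIA (dcl bad wZ wErr wCdf wMom TRW_Stmt CER_Stmt DMX_Stmt FINC)

/-- the hypothesis: `h n ≤ n`, and `h n` is at least `e n * n` or in the large deviation regime -/
def Hyp (g : ∀ n : ℕ, (Fin (2 * n) → Fin 4) → ℕ) (e : ℕ → ℝ) (c : ℝ) (h : ℕ → ℕ) : Prop :=
  ∀ᶠ n : ℕ in atTop, h n ≤ n ∧ (e n * n ≤ (h n : ℝ) ∨
    (((SAP n).filter (fun s => h n ≤ g n s)).card : ℝ) ≤
      Real.exp (-((n : ℝ) ^ (1 - c))) * (SAP n).card)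

/-- the final theorem -/
def FINP_Stmt : Prop := ∃ μ : Measure ℝ, IsProbabilityMeasure μ ∧
  (∀ r : ℕ, Integrable (fun x : ℝ => x ^ r) μ ∧ ∫ x, x ^ r ∂μ = airyMoment r) ∧
  (∀ x : ℝ, μ {x} = 0 →
    Tendsto (fun n : ℕ => areaCdf n (Staircase n) x) atTop (𝓝 (μ (Set.Iic x)).toReal)) ∧
  ∃ e : ℕ → ℝ, (∀ n, 0 < e n) ∧ Tendsto e atTop (𝓝 0) ∧
  ∃ c : ℕ → ℝ, (∀ r, 0 < c r) ∧
  ∀ g : ∀ n : ℕ, (Fin (2 * n) → Fin 4) → ℕ, (g = span ∨ g = diam) →
  ∀ h : ℕ → ℕ,
    (Hyp g e (c 0) h → ∀ x : ℝ, μ {x} = 0 →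
      Tendsto (fun n : ℕ => areaCdf n ((SAP n).filter (fun s => g n s = h n)) x) atTop
        (𝓝 (μ (Set.Iic x)).toReal) ∧
      Tendsto (fun n : ℕ => areaCdf n ((SAP n).filter (fun s => h n ≤ g n s)) x) atTop
        (𝓝 (μ (Set.Iic x)).toReal)) ∧
    ∀ r : ℕ, Hyp g e (c r) h →
      Tendsto (fun n : ℕ => areaMoment n ((SAP n).filter (fun s => g n s = h n)) r) atTop
        (𝓝 (airyMoment r)) ∧
      Tendsto (fun n : ℕ => areaMoment n ((SAP n).filter (fun s => h n ≤ g n s)) r) atTop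
        (𝓝 (airyMoment r))

namespace FIN

/-- every force is centered at some integer not larger than `n` -/
lemma exists_cen (n : ℕ) (hn : 1 ≤ n) (f : ℝ) : ∃ h : ℕ, h ≤ n ∧ Cen n f h := by
  have hZ : 0 < forceZ f n := by
    have h1 := Finset.single_le_sum (f := fun s => Real.exp (f * span n s))
        (fun s _ => (Real.exp_pos _).le) (CHOICE.ext_mem n hn)
    unfold forceZ
    exact (Real.exp_pos _).trans_le h1
  set m : ℝ := (∑ s ∈ SAP n, Real.exp (f * span n s) * (span n s : ℝ)) / forceZ f n with hm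
  have hm0 : 0 ≤ m := by
    rw [hm]
    exact div_nonneg (Finset.sum_nonneg fun s _ => by positivity) hZ.le
  have hmn : m ≤ n := by
    rw [hm, div_le_iff₀ hZ]
    unfold forceZ
    rw [Finset.mul_sum]
    refine Finset.sum_le_sum fun s hs => ?_
    have h1 : (span n s : ℝ) ≤ n := by exact_mod_cast CHOICE.span_le n s hs
    have h2 := (Real.exp_pos (f * span n s)).le
    nlinarith
  refine ⟨⌊m⌋₊, ?_, ?_⟩
  · have h1 : ⌊m⌋₊ ≤ ⌊(n : ℝ)⌋₊ := Nat.floor_le_floor hmn
    simpa using h1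
  unfold Cen
  have e1 : ∑ s ∈ SAP n, Real.exp (f * span n s) * ((span n s : ℝ) - (⌊m⌋₊ : ℝ)) =
      (m - ⌊m⌋₊) * forceZ f n := by
    rw [sub_mul, hm, div_mul_cancel₀ _ hZ.ne', ← hm]
    unfold forceZ
    rw [Finset.mul_sum, ← Finset.sum_sub_distrib]
    refine Finset.sum_congr rfl fun s _ => ?_
    ring
  rw [e1, abs_mul, abs_of_pos hZ]
  have h1 := Nat.floor_le hm0
  have h2 := Nat.lt_floor_add_one m
  have h3 : |m - ⌊m⌋₊| ≤ 1 := by
    rw [abs_le]
    constructor <;> linarith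
  exact mul_le_of_le_one_left hZ.le h3

/-- combination of two sequences -/
lemma comb {F : ℕ → ℕ → ℝ} {L : ℝ} {h h1 h2 : ℕ → ℕ} (H : ∀ᶠ n in atTop, h n = h1 n ∨ h n = h2 n)
    (T1 : Tendsto (fun n => F n (h1 n)) atTop (𝓝 L))
    (T2 : Tendsto (fun n => F n (h2 n)) atTop (𝓝 L)) :
    Tendsto (fun n => F n (h n)) atTop (𝓝 L) := by
  rw [Metric.tendsto_atTop] at T1 T2 ⊢
  intro d hd
  obtain ⟨N1, g1⟩ := T1 d hd
  obtain ⟨N2, g2⟩ := T2 d hd
  obtain ⟨N3, g3⟩ := eventually_atTop.1 H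
  refine ⟨max N1 (max N2 N3), fun n hn => ?_⟩
  have k1 : N1 ≤ n := (le_max_left _ _).trans hn
  have k2 : N2 ≤ n := ((le_max_left _ _).trans (le_max_right _ _)).trans hn
  have k3 : N3 ≤ n := ((le_max_right _ _).trans (le_max_right _ _)).trans hn
  rcases g3 n k3 with h3 | h3
  · rw [h3]; exact g1 n k1
  · rw [h3]; exact g2 n k2

/-- a smaller window is a stronger hypothesis -/
lemma Hyp.mono {g : ∀ n : ℕ, (Fin (2 * n) → Fin 4) → ℕ} {e : ℕ → ℝ} {c c' : ℝ} {h : ℕ → ℕ}
    (hc : c ≤ c') (H : Hyp g e c h) : Hyp g e c' h := by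
  filter_upwards [H, eventually_ge_atTop 1] with n hn h1
  refine ⟨hn.1, hn.2.imp id fun k => k.trans ?_⟩
  have h3 : (1 : ℝ) ≤ n := by exact_mod_cast h1
  exact mul_le_mul_of_nonneg_right (Real.exp_le_exp.2 (neg_le_neg
    (Real.rpow_le_rpow_of_exponent_le h3 (by linarith)))) (Nat.cast_nonneg _)

/-- the hypothesis for the diameter implies the one for the span -/
lemma Hyp.span_of_diam (hM : DMX_Stmt) {e : ℕ → ℝ} {c : ℝ} {h : ℕ → ℕ} (H : Hyp diam e c h) :
    Hyp span e c h := by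
  filter_upwards [H] with n hn
  refine ⟨hn.1, hn.2.imp id fun k => le_trans ?_ k⟩
  have h1 : (SAP n).filter (fun s => h n ≤ span n s) ⊆ (SAP n).filter (fun s => h n ≤ diam n s) := by
    intro s hs
    rw [Finset.mem_filter] at hs ⊢
    refine ⟨hs.1, ?_⟩
    rw [hM]
    exact hs.2.trans (le_max_left _ _)
  exact_mod_cast Finset.card_le_card h1

/-- the decomposition of a sequence -/
lemma split {f1 : ℝ} (hf1 : 1 ≤ f1)
    (hCH : ∀ c : ℝ, 0 < c → c ≤ 1 / 4 → ∃ N : ℕ,
      ∀ n : ℕ, N ≤ n → ∀ h : ℕ, 2 * h ≤ n →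
        (((SAP n).filter (fun s => h ≤ span n s)).card : ℝ) ≤
          Real.exp (-((n : ℝ) ^ (1 - c))) * (SAP n).card →
        ∃ f : ℝ, (n : ℝ) ^ (-c) / 2 ≤ f ∧ f ≤ f1 ∧ Cen n f h)
    {c' : ℝ} (hc' : 0 < c') {e : ℕ → ℝ} (he : Tendsto e atTop (𝓝 0)) {h : ℕ → ℕ}
    (H : Hyp span e (min (c' / 2) (1 / 4)) h) :
    ∃ (f : ℕ → ℝ) (h2 h1 : ℕ → ℕ), Adm f1 c' f h2 ∧
      (∀ᶠ n in atTop, e n * n ≤ (h1 n : ℝ) ∧ h1 n ≤ n) ∧
      ∀ᶠ n in atTop, h n = h1 n ∨ h n = h2 n := by
  classical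
  set c : ℝ := min (c' / 2) (1 / 4) with hc
  have hc0 : 0 < c := lt_min (by linarith) (by norm_num)
  obtain ⟨N, hN⟩ := hCH c hc0 (min_le_right _ _)
  -- the force is in the window
  have hbig : ∀ᶠ n : ℕ in atTop, (2 : ℝ) ≤ (n : ℝ) ^ (c' / 2) :=
    ((tendsto_rpow_atTop (by linarith : 0 < c' / 2)).comp
      tendsto_natCast_atTop_atTop).eventually_ge_atTop 2
  obtain ⟨N1, hN1⟩ := eventually_atTop.1 hbig
  set M : ℕ := max N (max N1 1) with hM
  set B : ℕ → Prop := fun n => 2 * h n ≤ n ∧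
    (((SAP n).filter (fun s => h n ≤ span n s)).card : ℝ) ≤
      Real.exp (-((n : ℝ) ^ (1 - c))) * (SAP n).card with hB
  have hex : ∀ n : ℕ, ∃ (f : ℝ) (k : ℕ), (M ≤ n → (n : ℝ) ^ (-c') ≤ f ∧ f ≤ f1 ∧ k ≤ n ∧
      Cen n f k) ∧ (M ≤ n → B n → k = h n) := by
    intro n
    by_cases hn : M ≤ n
    · have n1 : N ≤ n := (le_max_left _ _).trans hn
      have n2 : N1 ≤ n := ((le_max_left _ _).trans (le_max_right _ _)).trans hn
      have n3 : 1 ≤ n := ((le_max_right _ _).trans (le_max_right _ _)).trans hn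
      have n3' : (1 : ℝ) ≤ n := by exact_mod_cast n3
      have n0 : (0 : ℝ) < n := by linarith
      by_cases hb : B n
      · obtain ⟨f, g1, g2, g3⟩ := hN n n1 (h n) hb.1 hb.2
        refine ⟨f, h n, fun _ => ⟨le_trans ?_ g1, g2, ?_, g3⟩, fun _ _ => rfl⟩
        · have k1 := hN1 n n2
          have k2 : (n : ℝ) ^ (-c') * (n : ℝ) ^ (c' / 2) = (n : ℝ) ^ (-(c' / 2)) := by
            rw [← Real.rpow_add n0]
            congr 1
            ring
          have k3 : (n : ℝ) ^ (-(c' / 2)) ≤ (n : ℝ) ^ (-c) :=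
            Real.rpow_le_rpow_of_exponent_le n3' (neg_le_neg (min_le_left _ _))
          have k4 : 0 < (n : ℝ) ^ (-c') := Real.rpow_pos_of_pos n0 _
          nlinarith
        · have := hb.1
          omega
      · obtain ⟨k, hk, hk2⟩ := exists_cen n n3 1
        exact ⟨1, k, fun _ => ⟨Real.rpow_le_one_of_one_le_of_nonpos n3' (by linarith), hf1, hk,
          hk2⟩, fun _ g => absurd g hb⟩
    · exact ⟨1, 0, fun g => absurd g hn, fun g => absurd g hn⟩
  choose f k g1 g2 using hex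
  refine ⟨f, k, fun n => if e n * n ≤ (h n : ℝ) ∧ h n ≤ n then h n else n, ?_, ?_, ?_⟩
  · filter_upwards [eventually_ge_atTop M] with n hn
    exact g1 n hn
  · filter_upwards [he.eventually_le_const (by norm_num : (0 : ℝ) < 1)] with n hn
    split_ifs with hh
    · exact hh
    · exact ⟨mul_le_of_le_one_left (Nat.cast_nonneg n) hn, le_rfl⟩
  · filter_upwards [H, eventually_ge_atTop M,
      he.eventually_le_const (by norm_num : (0 : ℝ) < 1 / 2)] with n hn hnM hen
    by_cases h3 : e n * n ≤ (h n : ℝ)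
    · left
      rw [if_pos ⟨h3, hn.1⟩]
    · right
      rcases hn.2 with h4 | h4
      · exact absurd h4 h3
      · refine (g2 n hnM ⟨?_, h4⟩).symm
        push Not at h3
        have h5 : (0 : ℝ) ≤ n := Nat.cast_nonneg n
        have h6 : (2 : ℝ) * h n ≤ n := by nlinarith
        exact_mod_cast h6

/-- the classes of the diameter -/
lemma dia (hD : ∀ f1 : ℝ, ∃ c : ℝ, 0 < c ∧ ∀ (f : ℕ → ℝ) (h : ℕ → ℕ), Adm f1 c f h →
      ∀ (b : Bool) (j : ℕ), Tendsto (fun n : ℕ => (n : ℝ) ^ j *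
        ((bad n b (h n)).card / ((cls n b (h n)).card : ℝ))) atTop (𝓝 0))
    (hC : CER_Stmt) (hT : TRW_Stmt) (hCL : CLSF_Stmt)
    (μ : Measure ℝ) (hμ : IsProbabilityMeasure μ) (hF : FORCEP μ) (h0 : airyMoment 0 = 1)
    (f1 : ℝ) : ∃ c0 : ℝ, 0 < c0 ∧ ∀ (f : ℕ → ℝ) (h : ℕ → ℕ), Adm f1 c0 f h → ∀ b : Bool,
      ((∀ x : ℝ, μ {x} = 0 →
        Tendsto (fun n : ℕ => areaCdf n (cls n b (h n)) x) atTop (𝓝 (μ (Set.Iic x)).toReal)) →
        ∀ x : ℝ, μ {x} = 0 →
        Tendsto (fun n : ℕ => areaCdf n (dcl n b (h n)) x) atTop (𝓝 (μ (Set.Iic x)).toReal)) ∧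
      ∀ (r : ℕ) (L : ℝ),
        Tendsto (fun n : ℕ => areaMoment n (cls n b (h n)) r) atTop (𝓝 L) →
        Tendsto (fun n : ℕ => areaMoment n (dcl n b (h n)) r) atTop (𝓝 L) := by
  classical
  obtain ⟨c1, hc1, hD1⟩ := hD f1
  obtain ⟨c2, hc2, hM0⟩ := (hCL μ hF f1).2 0
  refine ⟨min c1 c2, lt_min hc1 hc2, ?_⟩
  intro f h hA b
  have hA1 : Adm f1 c1 f h := by
    filter_upwards [hA, eventually_ge_atTop 1] with n hn h1
    exact ⟨win_mono (min_le_left _ _) h1 hn.1, hn.2⟩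
  have hA2 : Adm f1 c2 f h := by
    filter_upwards [hA, eventually_ge_atTop 1] with n hn h1
    exact ⟨win_mono (min_le_right _ _) h1 hn.1, hn.2⟩
  have hcS : ∀ n b h, cls n b h ⊆ SAP n := fun n b h => by
    unfold cls
    exact Finset.filter_subset _ _
  have hdS : ∀ n b h, dcl n b h ⊆ SAP n := fun n b h => by
    unfold dcl
    exact Finset.filter_subset _ _
  have hcard : ∀ᶠ n : ℕ in atTop, 0 < (cls n b (h n)).card := by
    have h1 := hM0 f h hA2 b
    rw [h0] at h1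
    filter_upwards [h1.eventually_ne one_ne_zero] with n hn
    rw [Nat.pos_iff_ne_zero]
    intro hz
    apply hn
    unfold areaMoment
    rw [hz]
    simp
  have hZ : ∀ n, wZ n (fun s => if s ∈ cls n b (h n) then (1 : ℝ) else 0) =
      (cls n b (h n)).card := fun n => ((hC n b (h n)).2.1 _ (hcS n b (h n))).1
  have hpos : ∀ᶠ n : ℕ in atTop,
      0 < wZ n (fun s => if s ∈ cls n b (h n) then (1 : ℝ) else 0) := by
    filter_upwards [hcard] with n hn
    rw [hZ]
    exact_mod_cast hn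
  have herr : ∀ j : ℕ, Tendsto (fun n : ℕ => (n : ℝ) ^ j *
      (wErr n (fun s => if s ∈ cls n b (h n) then (1 : ℝ) else 0)
        (fun s => if s ∈ dcl n b (h n) then (1 : ℝ) else 0) /
        wZ n (fun s => if s ∈ cls n b (h n) then (1 : ℝ) else 0))) atTop (𝓝 0) := by
    intro j
    have h6 := (hD1 f h hA1 b j).const_mul 2
    simp only [mul_zero] at h6
    refine squeeze_zero' (Filter.Eventually.of_forall fun n => ?_) ?_ h6
    · have h7 : 0 ≤ wErr n (fun s => if s ∈ cls n b (h n) then (1 : ℝ) else 0)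
        (fun s => if s ∈ dcl n b (h n) then (1 : ℝ) else 0) :=
        Finset.sum_nonneg fun s _ => abs_nonneg _
      have h8 : 0 ≤ wZ n (fun s => if s ∈ cls n b (h n) then (1 : ℝ) else 0) := by
        rw [hZ]
        exact Nat.cast_nonneg _
      positivity
    · filter_upwards [hcard] with n hn
      have hc0 : (0 : ℝ) < (cls n b (h n)).card := by exact_mod_cast hn
      have h7 := (hC n b (h n)).1
      rw [hZ]
      have h9 : (n : ℝ) ^ j * (wErr n (fun s => if s ∈ cls n b (h n) then (1 : ℝ) else 0)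
        (fun s => if s ∈ dcl n b (h n) then (1 : ℝ) else 0) / (cls n b (h n)).card) ≤
          (n : ℝ) ^ j * (2 * (bad n b (h n)).card / (cls n b (h n)).card) :=
        mul_le_mul_of_nonneg_left (div_le_div_of_nonneg_right h7 hc0.le) (by positivity)
      refine h9.trans (le_of_eq ?_)
      ring
  have key := hT μ hμ (fun n s => if s ∈ cls n b (h n) then (1 : ℝ) else 0)
    (fun n s => if s ∈ dcl n b (h n) then (1 : ℝ) else 0)
    (fun n s => by
      show (0 : ℝ) ≤ (if s ∈ cls n b (h n) then (1 : ℝ) else 0)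
      split_ifs <;> norm_num)
    (fun n s => by
      show (0 : ℝ) ≤ (if s ∈ dcl n b (h n) then (1 : ℝ) else 0)
      split_ifs <;> norm_num) hpos herr
  refine ⟨fun hk x hx => ?_, fun r L hk => ?_⟩
  · have h4 := key.1 (fun y hy => (hk y hy).congr fun n =>
      (((hC n b (h n)).2.1 _ (hcS n b (h n))).2.1 y).symm) x hx
    exact h4.congr fun n => ((hC n b (h n)).2.1 _ (hdS n b (h n))).2.1 x
  · have h4 := key.2 r L (hk.congr fun n =>
      (((hC n b (h n)).2.1 _ (hcS n b (h n))).2.2 r).symm)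
    exact h4.congr fun n => ((hC n b (h n)).2.1 _ (hdS n b (h n))).2.2 r

open Classical in
lemma clst (n h : ℕ) : cls n true h = (SAP n).filter (fun s => span n s = h) := by
  unfold cls
  apply Finset.filter_congr
  intro s _
  unfold inC
  simp

open Classical in
lemma clsf (n h : ℕ) : cls n false h = (SAP n).filter (fun s => h ≤ span n s) := by
  unfold cls
  apply Finset.filter_congr
  intro s _
  unfold inC
  simp

end FIN

open FIN in
/-- the theorem from the modules -/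
theorem t_FINP (h4 : PFW.FINAL4_Stmt) (hE : FINC) (hU : NSP.UNQ_Stmt) (hCH : CHOP_Stmt)
    (hCL : CLSF_Stmt) (hDI : DIAP_Stmt) (hC : CER_Stmt) (hM : DMX_Stmt) (hT : TRW_Stmt) :
    FINP_Stmt := by
  classical
  obtain ⟨μ, hμ, hmom, hst, cf, hcf, hfor⟩ := h4
  obtain ⟨μ', hμ', hmom', hst', e, he, hle, hold⟩ := hE
  have hμμ : μ' = μ := hU μ' μ hμ' hμ (fun n x => areaCdf n (Staircase n) x) hst' hst
  subst hμμ
  have h0 : airyMoment 0 = 1 := by
    have := (hmom 0).2
    simp at this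
    exact this.symm
  have hF : FORCEP μ' := ⟨hμ', ⟨cf 0, hcf 0, fun f hf x hx => (hfor f).1 hf x hx⟩,
    fun r => ⟨cf r, hcf r, fun f hf => (hfor f).2 r hf⟩⟩
  obtain ⟨f1, hf1, hch⟩ := hCH
  obtain ⟨⟨cL, hcL, hlaw⟩, hmo⟩ := hCL μ' hF f1
  choose cM hcM hmo using hmo
  obtain ⟨cD, hcD, hdia⟩ := dia hDI hC hT hCL μ' hμ' hF h0 f1
  -- the windows
  set w : ℕ → ℝ := fun r => min cD (min (cM r) (if r = 0 then cL else cM r)) with hw
  have hw0 : ∀ r, 0 < w r := fun r => by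
    refine lt_min hcD (lt_min (hcM r) ?_)
    split_ifs
    · exact hcL
    · exact hcM r
  refine ⟨μ', hμ', hmom, hst, e, he, hle, fun r => min (w r / 2) (1 / 4),
    fun r => lt_min (by have := hw0 r; linarith) (by norm_num), ?_⟩
  have adm : ∀ {a b : ℝ} {f : ℕ → ℝ} {h : ℕ → ℕ}, a ≤ b → Adm f1 a f h → Adm f1 b f h := by
    intro a b f h hab hA
    filter_upwards [hA, eventually_ge_atTop 1] with n hn h1
    exact ⟨win_mono hab h1 hn.1, hn.2⟩
  -- the classes of the span and of the diameter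
  have keyL : ∀ h : ℕ → ℕ, Hyp span e (min (w 0 / 2) (1 / 4)) h → ∀ x : ℝ, μ' {x} = 0 →
      ∀ b : Bool, Tendsto (fun n : ℕ => areaCdf n (cls n b (h n)) x) atTop
        (𝓝 (μ' (Set.Iic x)).toReal) ∧
      Tendsto (fun n : ℕ => areaCdf n (dcl n b (h n)) x) atTop
        (𝓝 (μ' (Set.Iic x)).toReal) := by
    intro h hh x hx b
    obtain ⟨f, h2, h1, hA, hh1, hor⟩ := split hf1 hch (hw0 0) hle hh
    have hA1 : Adm f1 cL f h2 := adm (((min_le_right _ _).trans (min_le_right _ _)).trans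
      (by rw [if_pos rfl])) hA
    have hA2 : Adm f1 cD f h2 := adm (min_le_left _ _) hA
    have k1 := fun y hy => hlaw f h2 hA1 b y hy
    have k2 := (hdia f h2 hA2 b).1 k1
    have k3 := (hold h1 hh1 span (Or.inl rfl)).1 x hx
    have k4 := (hold h1 hh1 diam (Or.inr rfl)).1 x hx
    constructor
    · refine comb (F := fun n k => areaCdf n (cls n b k) x) hor ?_ (k1 x hx)
      cases b with
      | true => exact k3.1.congr fun n => by rw [clst]
      | false => exact k3.2.congr fun n => by rw [clsf]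
    · refine comb (F := fun n k => areaCdf n (dcl n b k) x) hor ?_ (k2 x hx)
      cases b with
      | true => exact k4.1.congr fun n => by rw [(hC n true (h1 n)).2.2.1]
      | false => exact k4.2.congr fun n => by rw [(hC n false (h1 n)).2.2.2]
  have keyM : ∀ h : ℕ → ℕ, ∀ r : ℕ, Hyp span e (min (w r / 2) (1 / 4)) h →
      ∀ b : Bool, Tendsto (fun n : ℕ => areaMoment n (cls n b (h n)) r) atTop
        (𝓝 (airyMoment r)) ∧
      Tendsto (fun n : ℕ => areaMoment n (dcl n b (h n)) r) atTop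
        (𝓝 (airyMoment r)) := by
    intro h r hh b
    obtain ⟨f, h2, h1, hA, hh1, hor⟩ := split hf1 hch (hw0 r) hle hh
    have hA1 : Adm f1 (cM r) f h2 := adm ((min_le_right _ _).trans (min_le_left _ _)) hA
    have hA2 : Adm f1 cD f h2 := adm (min_le_left _ _) hA
    have k1 := hmo r f h2 hA1 b
    have k2 := (hdia f h2 hA2 b).2 r _ k1
    have k3 := (hold h1 hh1 span (Or.inl rfl)).2 r
    have k4 := (hold h1 hh1 diam (Or.inr rfl)).2 r
    constructor
    · refine comb (F := fun n k => areaMoment n (cls n b k) r) hor ?_ k1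
      cases b with
      | true => exact k3.1.congr fun n => by rw [clst]
      | false => exact k3.2.congr fun n => by rw [clsf]
    · refine comb (F := fun n k => areaMoment n (dcl n b k) r) hor ?_ k2
      cases b with
      | true => exact k4.1.congr fun n => by rw [(hC n true (h1 n)).2.2.1]
      | false => exact k4.2.congr fun n => by rw [(hC n false (h1 n)).2.2.2]
  rintro g (rfl | rfl) h
  · refine ⟨fun hh x hx => ⟨?_, ?_⟩, fun r hh => ⟨?_, ?_⟩⟩
    · exact ((keyL h hh x hx true).1).congr fun n => by rw [clst]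
    · exact ((keyL h hh x hx false).1).congr fun n => by rw [clsf]
    · exact ((keyM h r hh true).1).congr fun n => by rw [clst]
    · exact ((keyM h r hh false).1).congr fun n => by rw [clsf]
  · refine ⟨fun hh x hx => ⟨?_, ?_⟩, fun r hh => ⟨?_, ?_⟩⟩
    · exact ((keyL h (Hyp.span_of_diam hM hh) x hx true).2).congr fun n => by
        rw [(hC n true (h n)).2.2.1]
    · exact ((keyL h (Hyp.span_of_diam hM hh) x hx false).2).congr fun n => by
        rw [(hC n false (h n)).2.2.2]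
    · exact ((keyM h r (Hyp.span_of_diam hM hh) true).2).congr fun n => by
        rw [(hC n true (h n)).2.2.1]
    · exact ((keyM h r (Hyp.span_of_diam hM hh) false).2).congr fun n => by
        rw [(hC n false (h n)).2.2.2]

end Pool.Agent.PFS
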