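import Pool.Agent.PFS.FIN

/-!
# Project PFS (MP_f6626d_co): the theorem with an explicit window

`QSB_Stmt` (quantitative sub-ballisticity) makes the first alternative of `FINP_Stmt` explicit.
-/

set_option autoImplicit false

namespace Pool.Agent.PFS

open Finset Filter Topology MeasureTheory
open Pool.Agent.Lib27 Pool.Agent.SapR Pool.Agent.Gap Pool.Agent.AreaLaw Pool.Agent.FL
open Pool.Agent.FS
open Pool.Agent.KCS (airyMoment)
open Pool.Agent.KCC (areaMoment)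
open Pool.Agent.DIA (DMX_Stmt RFL_Stmt lspan fl)

/-- quantitative sub-ballisticity -/
def QSB_Stmt : Prop := ∃ a : ℝ, 0 < a ∧ ∀ c : ℝ, 0 < c → ∃ N : ℕ, ∀ n : ℕ, N ≤ n → ∀ h : ℕ,
  (n : ℝ) / Real.log n ^ a ≤ h →
    (((SAP n).filter (fun s => h ≤ span n s)).card : ℝ) ≤
      Real.exp (-((n : ℝ) ^ (1 - c))) * (SAP n).card

/-- the hypothesis: `h n ≤ n`, and `h n` is at least `n / (log n) ^ a` or in the large deviation
regime -/
def HypQ (g : ∀ n : ℕ, (Fin (2 * n) → Fin 4) → ℕ) (a c : ℝ) (h : ℕ → ℕ) : Prop :=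
  ∀ᶠ n : ℕ in atTop, h n ≤ n ∧ ((n : ℝ) / Real.log n ^ a ≤ (h n : ℝ) ∨
    (((SAP n).filter (fun s => h n ≤ g n s)).card : ℝ) ≤
      Real.exp (-((n : ℝ) ^ (1 - c))) * (SAP n).card)

/-- the final theorem with an explicit window -/
def FINQ_Stmt : Prop := ∃ μ : Measure ℝ, IsProbabilityMeasure μ ∧
  (∀ r : ℕ, Integrable (fun x : ℝ => x ^ r) μ ∧ ∫ x, x ^ r ∂μ = airyMoment r) ∧
  (∀ x : ℝ, μ {x} = 0 →
    Tendsto (fun n : ℕ => areaCdf n (Staircase n) x) atTop (𝓝 (μ (Set.Iic x)).toReal)) ∧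
  ∃ a : ℝ, 0 < a ∧ ∃ c : ℕ → ℝ, (∀ r, 0 < c r) ∧
  ∀ g : ∀ n : ℕ, (Fin (2 * n) → Fin 4) → ℕ, (g = span ∨ g = diam) →
  ∀ h : ℕ → ℕ,
    (HypQ g a (c 0) h → ∀ x : ℝ, μ {x} = 0 →
      Tendsto (fun n : ℕ => areaCdf n ((SAP n).filter (fun s => g n s = h n)) x) atTop
        (𝓝 (μ (Set.Iic x)).toReal) ∧
      Tendsto (fun n : ℕ => areaCdf n ((SAP n).filter (fun s => h n ≤ g n s)) x) atTop
        (𝓝 (μ (Set.Iic x)).toReal)) ∧
    ∀ r : ℕ, HypQ g a (c r) h →
      Tendsto (fun n : ℕ => areaMoment n ((SAP n).filter (fun s => g n s = h n)) r) atTop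
        (𝓝 (airyMoment r)) ∧
      Tendsto (fun n : ℕ => areaMoment n ((SAP n).filter (fun s => h n ≤ g n s)) r) atTop
        (𝓝 (airyMoment r))

namespace FINQ

/-- polygons of large diameter -/
lemma diam_card (hM : DMX_Stmt) (hR : RFL_Stmt) (n h : ℕ) :
    (((SAP n).filter (fun s => h ≤ diam n s)).card : ℝ) ≤
      2 * ((SAP n).filter (fun s => h ≤ span n s)).card := by
  classical
  have h1 : (SAP n).filter (fun s => h ≤ diam n s) ⊆
      (SAP n).filter (fun s => h ≤ span n s) ∪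
        ((SAP n).filter (fun s => h ≤ span n s)).image (fl n) := by
    intro s hs
    rw [Finset.mem_filter] at hs
    rw [Finset.mem_union, Finset.mem_filter, Finset.mem_image]
    have h2 := hs.2
    rw [hM] at h2
    rcases le_max_iff.1 h2 with h3 | h3
    · exact Or.inl ⟨hs.1, h3⟩
    · refine Or.inr ⟨fl n s, ?_, (hR n s).2.1⟩
      rw [Finset.mem_filter]
      refine ⟨(hR n s).1 hs.1, ?_⟩
      rw [(hR n s).2.2.2.1]
      exact h3
  have h4 := (Finset.card_le_card h1).trans (Finset.card_union_le _ _)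
  have h5 := Finset.card_image_le (s := (SAP n).filter (fun s => h ≤ span n s)) (f := fl n)
  have h6 : ((SAP n).filter (fun s => h ≤ diam n s)).card ≤
      2 * ((SAP n).filter (fun s => h ≤ span n s)).card := by omega
  exact_mod_cast h6

/-- a factor two is absorbed by a smaller exponent -/
lemma two_exp {c : ℝ} (hc : 0 < c) (hc1 : c ≤ 1) : ∃ N : ℕ, ∀ n : ℕ, N ≤ n →
    2 * Real.exp (-((n : ℝ) ^ (1 - c / 2))) ≤ Real.exp (-((n : ℝ) ^ (1 - c))) := by
  have h1 : ∀ᶠ n : ℕ in atTop, (2 : ℝ) ≤ (n : ℝ) ^ (c / 2) :=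
    ((tendsto_rpow_atTop (by linarith : 0 < c / 2)).comp
      tendsto_natCast_atTop_atTop).eventually_ge_atTop 2
  obtain ⟨N, hN⟩ := eventually_atTop.1 h1
  refine ⟨max N 1, fun n hn => ?_⟩
  have n1 : (1 : ℝ) ≤ n := by exact_mod_cast (le_max_right _ _).trans hn
  have n0 : (0 : ℝ) < n := by linarith
  have h2 := hN n ((le_max_left _ _).trans hn)
  have h3 : (n : ℝ) ^ (1 - c / 2) = (n : ℝ) ^ (c / 2) * (n : ℝ) ^ (1 - c) := by
    rw [← Real.rpow_add n0]
    congr 1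
    ring
  have h4 : (1 : ℝ) ≤ (n : ℝ) ^ (1 - c) := Real.one_le_rpow n1 (by linarith)
  have h5 : Real.log 2 ≤ 1 := by
    have := Real.log_two_lt_d9
    linarith
  have h6 : (2 : ℝ) = Real.exp (Real.log 2) := (Real.exp_log (by norm_num)).symm
  calc 2 * Real.exp (-((n : ℝ) ^ (1 - c / 2)))
      = Real.exp (Real.log 2) * Real.exp (-((n : ℝ) ^ (1 - c / 2))) := by rw [← h6]
    _ = Real.exp (Real.log 2 + -((n : ℝ) ^ (1 - c / 2))) := (Real.exp_add _ _).symm
    _ ≤ Real.exp (-((n : ℝ) ^ (1 - c))) := by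
        apply Real.exp_le_exp.2
        rw [h3]
        nlinarith

/-- the explicit window is inside the large deviation regime -/
lemma hyp (hM : DMX_Stmt) (hR : RFL_Stmt) {a : ℝ}
    (hQ : ∀ c : ℝ, 0 < c → ∃ N : ℕ, ∀ n : ℕ, N ≤ n → ∀ h : ℕ,
      (n : ℝ) / Real.log n ^ a ≤ h →
        (((SAP n).filter (fun s => h ≤ span n s)).card : ℝ) ≤
          Real.exp (-((n : ℝ) ^ (1 - c))) * (SAP n).card)
    {g : ∀ n : ℕ, (Fin (2 * n) → Fin 4) → ℕ} (hg : g = span ∨ g = diam)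
    {c : ℝ} (hc : 0 < c) (hc1 : c ≤ 1) (e : ℕ → ℝ) {h : ℕ → ℕ} (H : HypQ g a c h) :
    Hyp g e c h := by
  obtain ⟨N1, hN1⟩ := two_exp hc hc1
  obtain ⟨N2, hN2⟩ := hQ (c / 2) (by linarith)
  filter_upwards [H, eventually_ge_atTop N1, eventually_ge_atTop N2] with n hn h1 h2
  refine ⟨hn.1, Or.inr ?_⟩
  rcases hn.2 with h3 | h3
  · have h4 := hN2 n h2 (h n) h3
    have h5 := hN1 n h1
    have h6 : (0 : ℝ) ≤ (SAP n).card := Nat.cast_nonneg _
    have h7 : (((SAP n).filter (fun s => h n ≤ g n s)).card : ℝ) ≤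
        2 * ((SAP n).filter (fun s => h n ≤ span n s)).card := by
      rcases hg with rfl | rfl
      · have : (0 : ℝ) ≤ ((SAP n).filter (fun s => h n ≤ span n s)).card := Nat.cast_nonneg _
        linarith
      · exact diam_card hM hR n (h n)
    calc (((SAP n).filter (fun s => h n ≤ g n s)).card : ℝ)
        ≤ 2 * ((SAP n).filter (fun s => h n ≤ span n s)).card := h7
      _ ≤ 2 * (Real.exp (-((n : ℝ) ^ (1 - c / 2))) * (SAP n).card) := by linarith
      _ = (2 * Real.exp (-((n : ℝ) ^ (1 - c / 2)))) * (SAP n).card := by ring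
      _ ≤ _ := mul_le_mul_of_nonneg_right h5 h6
  · exact h3

end FINQ

open FINQ in
/-- the theorem with an explicit window -/
theorem t_FINQ (h1 : FINP_Stmt) (h2 : QSB_Stmt) (hM : DMX_Stmt) (hR : RFL_Stmt) :
    FINQ_Stmt := by
  obtain ⟨μ, hμ, hmom, hst, e, he, hle, c, hc, H⟩ := h1
  obtain ⟨a, ha, hQ⟩ := h2
  refine ⟨μ, hμ, hmom, hst, a, ha, fun r => min (c r) 1, fun r => lt_min (hc r) one_pos, ?_⟩
  intro g hg h
  have key : ∀ r, HypQ g a (min (c r) 1) h → Hyp g e (c r) h := fun r hh =>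
    FIN.Hyp.mono (min_le_left _ _)
      (hyp hM hR hQ hg (lt_min (hc r) one_pos) (min_le_right _ _) e hh)
  exact ⟨fun hh => (H g hg h).1 (key 0 hh), fun r hh => (H g hg h).2 r (key r hh)⟩

end Pool.Agent.PFS
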