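import Pool.Agent.PFS.StmtsB

set_option autoImplicit false

open Finset Filter Topology MeasureTheory

namespace Pool.Agent.PFS

namespace FOUx

/-- orthogonality of the characters -/
theorem int_char (k h : ℕ) (m : ℝ) :
    ∫ θ in (-Real.pi)..Real.pi, Complex.exp (((θ * ((k : ℝ) - m) : ℝ) : ℂ) * Complex.I) *
      Complex.exp (((-(θ * ((h : ℝ) - m)) : ℝ) : ℂ) * Complex.I) =
      if k = h then (2 * Real.pi : ℂ) else 0 := by
  have h1 : ∀ θ : ℝ, Complex.exp (((θ * ((k : ℝ) - m) : ℝ) : ℂ) * Complex.I) *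
      Complex.exp (((-(θ * ((h : ℝ) - m)) : ℝ) : ℂ) * Complex.I) =
      Complex.exp ((((k : ℝ) - (h : ℝ) : ℝ) : ℂ) * Complex.I * (θ : ℂ)) := by
    intro θ
    rw [← Complex.exp_add]
    congr 1
    push_cast
    ring
  simp only [h1]
  by_cases hkh : k = h
  · subst hkh
    simp
    ring
  · rw [if_neg hkh]
    have hc : ((((k : ℝ) - (h : ℝ) : ℝ) : ℂ) * Complex.I) ≠ 0 := by
      apply mul_ne_zero _ Complex.I_ne_zero
      rw [Complex.ofReal_ne_zero, sub_ne_zero]
      exact_mod_cast hkh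
    rw [integral_exp_mul_complex hc]
    have h2 : Complex.exp ((((k : ℝ) - (h : ℝ) : ℝ) : ℂ) * Complex.I * ((Real.pi : ℝ) : ℂ)) =
        Complex.exp ((((k : ℝ) - (h : ℝ) : ℝ) : ℂ) * Complex.I * ((-Real.pi : ℝ) : ℂ)) := by
      rw [Complex.exp_eq_exp_iff_exists_int]
      refine ⟨(k : ℤ) - h, ?_⟩
      push_cast
      ring
    rw [h2, sub_self, zero_div]

theorem int_gauss (b t : ℝ) (hb : 0 < b) :
    ∫ θ : ℝ, Complex.exp (((-(b * θ ^ 2) : ℝ) : ℂ)) *
      Complex.exp (((-(θ * t) : ℝ) : ℂ) * Complex.I) =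
      ((Real.sqrt (Real.pi / b) * Real.exp (-(t ^ 2 / (4 * b))) : ℝ) : ℂ) := by
  have h1 := fourierIntegral_gaussian (b := (b : ℂ)) (by simpa using hb) (-(t : ℂ))
  have h2 : ∀ θ : ℝ, Complex.exp (((-(b * θ ^ 2) : ℝ) : ℂ)) *
      Complex.exp (((-(θ * t) : ℝ) : ℂ) * Complex.I) =
      Complex.exp (Complex.I * -(t : ℂ) * (θ : ℂ)) * Complex.exp (-(b : ℂ) * (θ : ℂ) ^ 2) := by
    intro θ
    rw [mul_comm]
    congr 1
    · congr 1
      push_cast
      ring
    · congr 1
      push_cast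
      ring
  simp only [h2]
  rw [h1]
  have h3 : ((Real.pi : ℂ) / (b : ℂ)) ^ (1 / 2 : ℂ) = ((Real.sqrt (Real.pi / b) : ℝ) : ℂ) := by
    rw [Real.sqrt_eq_rpow, Complex.ofReal_cpow (by positivity)]
    push_cast
    rfl
  rw [h3]
  push_cast
  congr 2
  ring

end FOUx

open FOUx in
theorem t_FOU : FOU_Stmt := by
  intro n u v κ θ1 δ η hn hκ hθ1 hθ1π hδ hη hu H1 H2 h
  have hpi := Real.pi_pos
  have hn' : (0 : ℝ) < n := by exact_mod_cast (by omega : 0 < n)
  have hb : 0 < κ * n := by positivity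
  set b : ℝ := κ * n with hbdef
  set S : ℝ := ∑ k ∈ range (n + 1), u k with hS
  set t : ℝ := (h : ℝ) - v * n with ht
  -- the two functions
  let e : ℝ → ℂ := fun θ => Complex.exp (((-(θ * t) : ℝ) : ℂ) * Complex.I)
  let a : ℝ → ℂ := fun θ => ∑ k ∈ range (n + 1), (u k : ℂ) * ph θ v (n, k)
  let A : ℝ → ℂ := fun θ => a θ * e θ
  let g : ℝ → ℂ := fun θ => Complex.exp (((-(b * θ ^ 2) : ℝ) : ℂ))
  let B : ℝ → ℂ := fun θ => (S : ℂ) * (g θ * e θ)
  have he : ∀ θ, ‖e θ‖ = 1 := fun θ => Complex.norm_exp_ofReal_mul_I _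
  have hce : Continuous e := by
    apply Complex.continuous_exp.comp
    fun_prop
  have hca : Continuous a := by
    apply continuous_finsetSum
    intro k _
    apply Continuous.mul continuous_const
    unfold ph
    apply Complex.continuous_exp.comp
    fun_prop
  have hcA : Continuous A := hca.mul hce
  have hcg : Continuous g := by
    apply Complex.continuous_exp.comp
    fun_prop
  have hcB : Continuous B := continuous_const.mul (hcg.mul hce)
  have hng : ∀ θ, ‖g θ‖ = Real.exp (-(b * θ ^ 2)) := by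
    intro θ
    show ‖Complex.exp (((-(b * θ ^ 2) : ℝ) : ℂ))‖ = _
    rw [← Complex.ofReal_exp, Complex.norm_real, Real.norm_eq_abs, Real.abs_exp]
  have hnB : ∀ θ, ‖B θ‖ = |S| * Real.exp (-(b * θ ^ 2)) := by
    intro θ
    show ‖(S : ℂ) * (g θ * e θ)‖ = _
    rw [norm_mul, norm_mul, he, hng, mul_one, Complex.norm_real, Real.norm_eq_abs]
  -- inversion
  have hinvA : ∫ θ in (-Real.pi)..Real.pi, A θ = 2 * Real.pi * (u h : ℂ) := by
    have h1 : ∀ θ, A θ = ∑ k ∈ range (n + 1), (u k : ℂ) *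
        (Complex.exp (((θ * ((k : ℝ) - v * n) : ℝ) : ℂ) * Complex.I) *
        Complex.exp (((-(θ * ((h : ℝ) - v * n)) : ℝ) : ℂ) * Complex.I)) := by
      intro θ
      show (∑ k ∈ range (n + 1), (u k : ℂ) * ph θ v (n, k)) * e θ = _
      rw [Finset.sum_mul]
      refine Finset.sum_congr rfl fun k _ => ?_
      rw [mul_assoc]
      rfl
    simp only [h1]
    rw [intervalIntegral.integral_finsetSum]
    · simp only [intervalIntegral.integral_const_mul, int_char]
      by_cases hh : h ≤ n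
      · rw [Finset.sum_eq_single h]
        · rw [if_pos rfl]
          ring
        · intro k _ hk
          rw [if_neg hk, mul_zero]
        · intro hk
          exact absurd (Finset.mem_range.2 (by omega)) hk
      · rw [hu h (by omega)]
        rw [Finset.sum_eq_zero]
        · simp
        · intro k hk
          have : k ≠ h := by
            have := Finset.mem_range.1 hk
            omega
          rw [if_neg this, mul_zero]
    · intro k _
      apply Continuous.intervalIntegrable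
      apply Continuous.mul continuous_const
      apply Continuous.mul
      · apply Complex.continuous_exp.comp
        fun_prop
      · apply Complex.continuous_exp.comp
        fun_prop
  have hgi : Integrable (fun θ : ℝ => Real.exp (-(b * θ ^ 2))) := by
    have := integrable_exp_neg_mul_sq hb
    simpa [neg_mul] using this
  have hgi2 : Integrable (fun θ : ℝ => Real.exp (-(b / 2 * θ ^ 2))) := by
    have := integrable_exp_neg_mul_sq (half_pos hb)
    simpa [neg_mul] using this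
  have hBi : Integrable B := by
    refine Integrable.mono' (hgi.const_mul |S|) hcB.aestronglyMeasurable ?_
    exact Filter.Eventually.of_forall fun θ => (hnB θ).le
  have hinvB : ∫ θ : ℝ, B θ = 2 * Real.pi * ((gau n v κ h * S : ℝ) : ℂ) := by
    show ∫ θ : ℝ, (S : ℂ) * (g θ * e θ) = _
    rw [integral_const_mul]
    have h1 := int_gauss b t hb
    rw [show (∫ θ : ℝ, g θ * e θ) = ((Real.sqrt (Real.pi / b) *
      Real.exp (-(t ^ 2 / (4 * b))) : ℝ) : ℂ) from h1]
    have h2 : Real.sqrt (Real.pi / b) = 2 * Real.pi * (1 / (2 * Real.sqrt (Real.pi * κ * n))) := by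
      have h3 : Real.pi * κ * n = Real.pi * b := by rw [hbdef]; ring
      rw [h3, Real.sqrt_div hpi.le, Real.sqrt_mul hpi.le]
      have h4 : Real.sqrt Real.pi ≠ 0 := (Real.sqrt_pos.2 hpi).ne'
      have h5 : Real.sqrt b ≠ 0 := (Real.sqrt_pos.2 hb).ne'
      field_simp
      rw [Real.sq_sqrt hpi.le]
    have h6 : gau n v κ h = Real.exp (-(t ^ 2 / (4 * b))) * (1 / (2 * Real.sqrt (Real.pi * κ * n))) := by
      unfold gau
      rw [hbdef, mul_one_div, ← mul_assoc 4 κ (n : ℝ)]
    rw [h2, h6]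
    push_cast
    ring
  -- the pieces
  have hdiff : ∀ θ, |θ| ≤ θ1 → ‖A θ - B θ‖ ≤ δ := by
    intro θ hθ
    have h1 : A θ - B θ = (a θ - (Real.exp (-(κ * θ ^ 2 * n)) : ℂ) * (S : ℂ)) * e θ := by
      have h2 : g θ = (Real.exp (-(κ * θ ^ 2 * n)) : ℂ) := by
        show Complex.exp (((-(b * θ ^ 2) : ℝ) : ℂ)) = _
        rw [← Complex.ofReal_exp]
        congr 3
        rw [hbdef]
        ring
      show a θ * e θ - (S : ℂ) * (g θ * e θ) = _
      rw [h2]
      ring
    rw [h1, norm_mul, he, mul_one]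
    exact H1 θ hθ
  have hAη : ∀ θ, θ1 ≤ |θ| → |θ| ≤ Real.pi → ‖A θ‖ ≤ η := by
    intro θ h1 h2
    show ‖a θ * e θ‖ ≤ η
    rw [norm_mul, he, mul_one]
    exact H2 θ h1 h2
  have hsplitA : ∫ θ in (-Real.pi)..Real.pi, A θ = (∫ θ in (-Real.pi)..(-θ1), A θ) +
      (∫ θ in (-θ1)..θ1, A θ) + ∫ θ in θ1..Real.pi, A θ := by
    rw [intervalIntegral.integral_add_adjacent_intervals (hcA.intervalIntegrable _ _)
      (hcA.intervalIntegrable _ _), intervalIntegral.integral_add_adjacent_intervals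
      (hcA.intervalIntegrable _ _) (hcA.intervalIntegrable _ _)]
  have hsplitB : ∫ θ : ℝ, B θ = (∫ θ in (-θ1)..θ1, B θ) +
      ∫ θ in (Set.Ioc (-θ1) θ1)ᶜ, B θ := by
    rw [intervalIntegral.integral_of_le (by linarith), integral_add_compl measurableSet_Ioc hBi]
  have hsub : (∫ θ in (-θ1)..θ1, A θ) - (∫ θ in (-θ1)..θ1, B θ) =
      ∫ θ in (-θ1)..θ1, (A θ - B θ) :=
    (intervalIntegral.integral_sub (hcA.intervalIntegrable _ _)
      (hcB.intervalIntegrable _ _)).symm
  have N1 : ‖∫ θ in (-Real.pi)..(-θ1), A θ‖ ≤ η * (Real.pi - θ1) := by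
    have := intervalIntegral.norm_integral_le_of_norm_le_const (a := -Real.pi) (b := -θ1)
      (C := η) (f := A) (by
        intro x hx
        rw [Set.uIoc_of_le (by linarith)] at hx
        have hx0 : x < 0 ∨ x = -θ1 := by
          rcases lt_or_eq_of_le hx.2 with h' | h'
          · left
            linarith
          · right
            exact h'
        have hxn : x ≤ 0 := by linarith [hx.2]
        apply hAη
        · rw [abs_of_nonpos hxn]
          linarith [hx.2]
        · rw [abs_of_nonpos hxn]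
          linarith [hx.1])
    rw [abs_of_nonneg (by linarith)] at this
    linarith
  have N2 : ‖∫ θ in θ1..Real.pi, A θ‖ ≤ η * (Real.pi - θ1) := by
    have := intervalIntegral.norm_integral_le_of_norm_le_const (a := θ1) (b := Real.pi)
      (C := η) (f := A) (by
        intro x hx
        rw [Set.uIoc_of_le hθ1π] at hx
        have hxp : 0 ≤ x := by linarith [hx.1]
        apply hAη
        · rw [abs_of_nonneg hxp]
          exact hx.1.le
        · rw [abs_of_nonneg hxp]
          exact hx.2)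
    rwa [abs_of_nonneg (by linarith)] at this
  have N3 : ‖∫ θ in (-θ1)..θ1, (A θ - B θ)‖ ≤ δ * (2 * θ1) := by
    have := intervalIntegral.norm_integral_le_of_norm_le_const (a := -θ1) (b := θ1)
      (C := δ) (f := fun θ => A θ - B θ) (by
        intro x hx
        rw [Set.uIoc_of_le (by linarith)] at hx
        exact hdiff x (abs_le.2 ⟨hx.1.le, hx.2⟩))
    rw [abs_of_nonneg (by linarith)] at this
    linarith
  have N4 : ‖∫ θ in (Set.Ioc (-θ1) θ1)ᶜ, B θ‖ ≤
      |S| * Real.exp (-(b * θ1 ^ 2 / 2)) * Real.sqrt (2 * Real.pi / b) := by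
    have h1 : ‖∫ θ in (Set.Ioc (-θ1) θ1)ᶜ, B θ‖ ≤
        ∫ θ in (Set.Ioc (-θ1) θ1)ᶜ, |S| * Real.exp (-(b * θ1 ^ 2 / 2)) *
          Real.exp (-(b / 2 * θ ^ 2)) := by
      refine norm_integral_le_of_norm_le ((hgi2.const_mul _).integrableOn) ?_
      refine (ae_restrict_iff' measurableSet_Ioc.compl).2 (Filter.Eventually.of_forall ?_)
      intro θ hθ
      rw [hnB, mul_assoc |S|]
      refine mul_le_mul_of_nonneg_left ?_ (abs_nonneg S)
      rw [← Real.exp_add]
      apply Real.exp_le_exp.2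
      have hθ' : θ1 ≤ |θ| := by
        by_contra hlt
        push Not at hlt
        apply hθ
        have := abs_lt.1 hlt
        exact ⟨this.1, this.2.le⟩
      have hsq : θ1 ^ 2 ≤ θ ^ 2 := by
        rw [← sq_abs θ]
        exact pow_le_pow_left₀ hθ1.le hθ' 2
      nlinarith [mul_le_mul_of_nonneg_left hsq hb.le]
    refine h1.trans ?_
    have h2 : ∫ θ in (Set.Ioc (-θ1) θ1)ᶜ, |S| * Real.exp (-(b * θ1 ^ 2 / 2)) *
          Real.exp (-(b / 2 * θ ^ 2)) ≤ ∫ θ : ℝ, |S| * Real.exp (-(b * θ1 ^ 2 / 2)) *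
          Real.exp (-(b / 2 * θ ^ 2)) := by
      refine setIntegral_le_integral (hgi2.const_mul _) (Filter.Eventually.of_forall ?_)
      intro θ
      show (0 : ℝ) ≤ _
      positivity
    refine h2.trans ?_
    rw [integral_const_mul]
    have h3 : ∫ θ : ℝ, Real.exp (-(b / 2 * θ ^ 2)) = Real.sqrt (Real.pi / (b / 2)) := by
      have := integral_gaussian (b / 2)
      simpa [neg_mul] using this
    rw [h3]
    refine mul_le_mul_of_nonneg_left (le_of_eq ?_) (by positivity)
    congr 1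
    field_simp
  -- conclusion
  have hmain : (2 * Real.pi : ℂ) * ((u h - gau n v κ h * S : ℝ) : ℂ) =
      (∫ θ in (-Real.pi)..(-θ1), A θ) + (∫ θ in θ1..Real.pi, A θ) +
      (∫ θ in (-θ1)..θ1, (A θ - B θ)) - ∫ θ in (Set.Ioc (-θ1) θ1)ᶜ, B θ := by
    rw [← hsub]
    have h1 : (2 * Real.pi : ℂ) * ((u h - gau n v κ h * S : ℝ) : ℂ) =
        2 * Real.pi * (u h : ℂ) - 2 * Real.pi * ((gau n v κ h * S : ℝ) : ℂ) := by
      push_cast
      ring
    rw [h1, ← hinvA, ← hinvB, hsplitA, hsplitB]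
    ring
  have hnorm : 2 * Real.pi * |u h - gau n v κ h * S| ≤ 2 * (η * (Real.pi - θ1)) + δ * (2 * θ1) +
      |S| * Real.exp (-(b * θ1 ^ 2 / 2)) * Real.sqrt (2 * Real.pi / b) := by
    have h1 : 2 * Real.pi * |u h - gau n v κ h * S| =
        ‖(2 * Real.pi : ℂ) * ((u h - gau n v κ h * S : ℝ) : ℂ)‖ := by
      rw [norm_mul, Complex.norm_real, Real.norm_eq_abs]
      congr 1
      rw [norm_mul, Complex.norm_real, Real.norm_eq_abs, abs_of_pos hpi]
      simp
    rw [h1, hmain]
    refine (norm_sub_le _ _).trans ?_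
    have h2 := norm_add_le ((∫ θ in (-Real.pi)..(-θ1), A θ) + (∫ θ in θ1..Real.pi, A θ))
      (∫ θ in (-θ1)..θ1, (A θ - B θ))
    have h3 := norm_add_le (∫ θ in (-Real.pi)..(-θ1), A θ) (∫ θ in θ1..Real.pi, A θ)
    linarith
  have hpi3 : 3 < Real.pi := Real.pi_gt_three
  have hE : Real.exp (-(κ * θ1 ^ 2 * n / 2)) = Real.exp (-(b * θ1 ^ 2 / 2)) := by
    congr 2
    rw [hbdef]
    ring
  rw [hE]
  set X : ℝ := |S| * Real.exp (-(b * θ1 ^ 2 / 2)) with hX
  have hX0 : 0 ≤ X := by positivity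
  have hsb : 0 < Real.sqrt b := Real.sqrt_pos.2 hb
  have hsq : Real.sqrt (2 * Real.pi / b) ≤ 2 * Real.pi / Real.sqrt b := by
    rw [Real.sqrt_div (by positivity)]
    apply div_le_div_of_nonneg_right _ hsb.le
    rw [Real.sqrt_le_left (by positivity)]
    nlinarith
  have h4 : X * Real.sqrt (2 * Real.pi / b) ≤ 2 * Real.pi * (X / Real.sqrt b) := by
    calc X * Real.sqrt (2 * Real.pi / b) ≤ X * (2 * Real.pi / Real.sqrt b) :=
          mul_le_mul_of_nonneg_left hsq hX0
      _ = 2 * Real.pi * (X / Real.sqrt b) := by ring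
  have h5 : 2 * Real.pi * |u h - gau n v κ h * S| ≤
      2 * Real.pi * (θ1 * δ + η + X / Real.sqrt b) := by
    have h6 : 0 ≤ θ1 * δ := by positivity
    have h7 : 0 ≤ η * θ1 := by positivity
    nlinarith
  exact le_of_mul_le_mul_left h5 (by positivity)

end Pool.Agent.PFS
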