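import Pool.Agent.PFS.DefsC
import Pool.Agent.PFW.StmtsD
import Pool.Agent.NSP.StmtsM
import Pool.Agent.Lib_helper74.FS.EXPM
import Pool.Agent.Lib_helper74.FS.Final

/-!
# Project PFS (MP_f6626d_co), part C: from the local law to the theorem

THEOREM (`T1_Stmt`): uniform self-avoiding polygons with prescribed span or diameter `h n` obey the
area law of staircase polygons for all `h n` in the large deviation regime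
`#{g ≥ h n} ≤ exp (-n^(1-c)) #SAP`, `g` the span or the diameter.
Every doc string contains the proof. Notation: `s = exp (-f)`, `Z = Zq n s`, `w q = wtq n s q =
s^(n - sp q)`, `a = arq n q`, `δ(q) = | |dq q| - a |`, `sc n = n √n`; `D` the class parameter,
`Mp A f = (A / min f 1)^A`. `Win P`: for every `δ > 0` there are `c > 0`, `N` such that `P δ n f` for
all `n ≥ N`, `f ≥ n^(-c)` (`Defs.lean`). The numbers `δ`, `δ'`, ... are small, not always the same.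
-/

set_option autoImplicit false

namespace Pool.Agent.PFS

open Finset Filter Topology MeasureTheory
open Pool.Agent.Lib27 Pool.Agent.SapR Pool.Agent.Gap Pool.Agent.AreaLaw Pool.Agent.FL
open Pool.Agent.FS
open Pool.Agent.PFW (Mp CritW)
open Pool.Agent.KCS (airyMoment)
open Pool.Agent.KCC (areaMoment)

/-! ### Bounds for the force -/

/-- SLOWN (pure analysis). PROOF. `n ≥ 1`, `f ≥ n^(-c)` gives `0 < min f 1`, `min f 1 ≥ n^(-c)`, so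
`Mp A f ^ K ≤ A^(A K) n^(c A K)`. Take `c = δ / (2 (A K + 1))` and `N` with `A^(A K) ≤ N^(δ/2)`. -/
def SLOWN_Stmt : Prop := ∀ A K : ℕ, 2 ≤ A → Win (fun δ n f => 0 < f ∧ Mp A f ^ K ≤ (n : ℝ) ^ δ)

/-- GUB (from WRAT, BAL, QGM2, QPAR; old modules): the area polynomials, two-sided. PROOF. Let
`P = closeP C0 t B n`, `n0 = ⌊2 σ² n / mbar⌋₊` (`Sc0.near`: `DIA.ZBF.near`), `W = D^k`, `k` large, `D^K0 ≤ n`
gives `Sc0.big`. (1) WRAT, first part. (3) WRAT, third part, `lam = D^(-j)`, and BAL (`c ≤ P0'(1) /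
(n0^(3/2) P0(1))` for the staircase polynomial `P0 = closeP 1 cap1 B0 n0`, `n0 ≥ 3`): with `j` large, then `k`
large, `K0` large the error is at most `c/2` (`D ≥ 2`), so `P'(1)/P(1) ≥ (c/2) hbar n0^(3/2) / (2 σ²)`, and
`n0 ≥ n / D^K` (QPAR), `hbar ≥ 1`, `σ² ≤ D^K` (`par_bounds`). (2) The coefficients of `P` are nonnegative, so
by Cauchy-Schwarz `P'(1)^2 ≤ P(1) (P''(1) + P'(1))`; with (3) and QGM2
`P(1) (D^(-K) n^(3/2))^2 ≤ P'(1)^2 / P(1) ≤ D^K n^(3/2) ρ^(-n)`. (Compare `PFW/WRAT.lean`, `EXW/QRAT.lean`, where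
the same is done for the staircase polynomials.) -/
def GUB_Stmt : Prop := ∃ K0 K1 : ℕ, ∀ D : ℝ, 2 ≤ D → ∀ G : GapKernel, Cls D (1 - D⁻¹) G →
  ∀ (C0 : ℕ) (s t : ℕ → ℤ → ℝ) (Vs Vt : ℤ → ℝ) (B : ℕ → ℤ → Polynomial ℝ),
    ClsCap D (1 - D⁻¹) G C0 s → ClsCap D (1 - D⁻¹) G C0 t →
    CritW D G (GE.sr G.rho C0 s) Vs → CritW D G (GE.sr G.rho C0 t) Vt → IsSol G s B →
  ∀ n : ℕ, D ^ K0 ≤ n →
    (D ^ K1)⁻¹ ≤ ((n : ℝ) * Real.sqrt n) * G.rho ^ n * (closeP C0 t B n).eval 1 ∧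
    ((n : ℝ) * Real.sqrt n) * G.rho ^ n * (closeP C0 t B n).eval 1 ≤ D ^ K1 ∧
    (D ^ K1)⁻¹ * ((n : ℝ) * Real.sqrt n) * (closeP C0 t B n).eval 1 ≤
      (closeP C0 t B n).derivative.eval 1

/-- FFA (from `PFW.DATP`, `PFW.WCS`, GUB, MGI2, SLOWN): critical weight, tails, total weight, mean
area. PROOF. `A` the maximum of the constants of DATP and WCS, `M = Mp A f`; DATP: `d : Dat2 M ..`, WCS: `V`
with `CritW (M^K)`; GUB with `D = M^(K+1)` (monotonicity as in `PFW/ZBFP.lean`); `d.count` at `X = 1`: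
`closeP.eval 1 = Z`, and its derivative at `1`: `∑ w a`. `ρ = d.G.rho`, `d.crit`, `d.tails`, MGI2:
`1/100 ≤ ρ ≤ 1/4`. SLOWN for the finitely many powers of `M`. -/
def FFA_Stmt : Prop := Win (fun δ n f => 0 < f ∧ ∃ ρ D : ℝ, 1 / 100 ≤ ρ ∧ ρ ≤ 1 / 4 ∧
  Crit n (Real.exp (-f)) ρ ∧ 2 ≤ D ∧ D ≤ (n : ℝ) ^ δ ∧
  Tails D (1 - D⁻¹) n (Real.exp (-f)) ρ ∧
  (n : ℝ) ^ (-δ) ≤ sc n * ρ ^ n * Zq n (Real.exp (-f)) ∧
  sc n * ρ ^ n * Zq n (Real.exp (-f)) ≤ (n : ℝ) ^ δ ∧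
  (n : ℝ) ^ (-δ) * (sc n * Zq n (Real.exp (-f))) ≤
    ∑ q ∈ Omn n, wtq n (Real.exp (-f)) q * (arq n q : ℝ))

/-- FFP (from `PFW.DATP`, `PFW.WCS`, `PFW.WMA`, PDIF, FFA, SLOWN): moments. PROOF. First part: WMA for
`r = p` with `D = M^(K+1)`, `W = D^K0`, `n0` as in GUB, `mr p (closeP ..) = ∑ w a^p` (`d.count`, definition
of `mr`), `log n ≤ n^δ'`. Second part: PDIF with `D = M`: `(M^K n log n)^p Z + M^K / (n^2 ρ^n)`, and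
`1 / ρ^n ≤ n^δ' sc n Z` (FFA; the numbers `ρ` agree, both are `d.G.rho`, or by uniqueness). -/
def FFP_Stmt : Prop := ∀ p : ℕ, Win (fun δ n f =>
  ∑ q ∈ Omn n, wtq n (Real.exp (-f)) q * (arq n q : ℝ) ^ p ≤
    (n : ℝ) ^ δ * (sc n ^ p * Zq n (Real.exp (-f))) ∧
  ∑ q ∈ Omn n, wtq n (Real.exp (-f)) q * |(|(dq q : ℝ)| - (arq n q : ℝ))| ^ p ≤
    (n : ℝ) ^ δ * ((n : ℝ) ^ p * Zq n (Real.exp (-f))))

/-- NCB (from FFA): words without cut are negligible. PROOF. `FS.EXPM.NCs n s = ∑_(NoCut) s^(n - spn w)`.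
`Tails` (3): `ρ^n NCs ≤ D n (1 - D⁻¹)^n ≤ D n exp(-n/D)`, and `1 ≤ n^δ sc n ρ^n Z`; `D ≤ n^δ`, `δ = 1/4`:
`NCs ≤ n^(2δ + 1) sc n exp(-n^(1-δ)) Z`. -/
def NCB_Stmt : Prop := ∀ j : ℕ, ∃ c : ℝ, 0 < c ∧ ∃ N : ℕ, ∀ n : ℕ, N ≤ n → ∀ f : ℝ,
  (n : ℝ) ^ (-c) ≤ f → (n : ℝ) ^ j * FS.EXPM.NCs n (Real.exp (-f)) ≤ Zq n (Real.exp (-f))

/-- SECM (from FFA, NCB, TR, HG): second moment of the span. PROOF. The text of `FS.EXPM_thm`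
(`Lib_helper74/FS/EXPM.lean`; the lemmas `second_diff`, `tilt`, `forceZ_eq`, `jensen` are used as they are) with
`u = ± n^(-1/2 - δ')`: `FFA` at `f` and `f ± u` (`f ≥ n^(-c)`, `c ≤ 1/4`, gives `f ± u ≥ n^(-2c)` for large `n`),
`∑ w_p hl^2 exp(|u| hl) ≤ D ∑_m m^2 exp(-m/(2D)) ≤ C D^4` for `2 D |u| ≤ 1` (`tail_sum` with explicit
constants), so the second difference is at most `exp(2 u^2 n C D^4) ≤ 2`. Result: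
`∑ w exp(u (sp - m)) ≤ n^δ'' Z` for both signs of `u`; `y^2 ≤ exp y + exp(-y)`. -/
def SECM_Stmt : Prop := Win (fun δ n f => ∀ m : ℝ, Cen n f m →
  ∑ q ∈ Omn n, wtq n (Real.exp (-f)) q * ((sp q : ℝ) - m) ^ 2 ≤
    (n : ℝ) ^ (1 + δ) * Zq n (Real.exp (-f)))

/-- CENS (from NCB, TR, HG): the centre for the canonical words. PROOF. By TR (as in
`FS.EXPM.forceZ_eq`, `FS.SAPC.force_sum`; `span ≤ n`) the sum in `Cen` is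
`exp(f n) (4 n ∑ w (sp - m) + ∑_(NoCut) s^(n - spn w) (spn w - m))`, the last sum is at most `2 n NCs` in absolute
value (`0 ≤ spn ≤ n`, `0 ≤ m ≤ n`), and `forceZ = exp(f n) (4 n Z + NCs)`. So
`4 n |∑ w (sp - m)| ≤ 4 n Z + (2 n + 1) NCs ≤ 8 n Z` (NCB, `j = 1`). -/
def CENS_Stmt : Prop := ∃ c : ℝ, 0 < c ∧ ∃ N : ℕ, ∀ n : ℕ, N ≤ n → ∀ f : ℝ,
  (n : ℝ) ^ (-c) ≤ f → ∀ m : ℝ, 0 ≤ m → m ≤ n → Cen n f m →
    |∑ q ∈ Omn n, wtq n (Real.exp (-f)) q * ((sp q : ℝ) - m)| ≤ 2 * Zq n (Real.exp (-f))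

/-! ### The centre -/

/-- CENT (pure): the centre of the Gaussian. PROOF. `p_k = Th n s k 0 / Z` (`∑ p_k = 1`, `p_k = 0` for
`k > n`, HG), `g_k = gau n v κ k`. By LLat at `eps = 0` and the lower bound of `sc n ρ^n Z`:
`|p_k - g_k| ≤ n^(-1/2 - c1 + δ)` for all `k`. Let `δ = min (c1 / 16) (1 / 64)`, `c2 = δ`, `L = |h - v n|`.
(A) `B0 = n^(1/2 + 2δ)`. Chebyshev: `∑_(|k-h| ≤ B0) p_k ≥ 1 - n^(1+δ)/B0^2 ≥ 3/4`, so `∑_(|k-h| ≤ B0) g_k ≥ 3/4 -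
3 B0 n^(-1/2 - c1 + δ) ≥ 1/2`. If `L > 2 B0` then `|k - v n| ≥ B0` for these `k`, `g_k ≤ n^(δ/2) exp(-n^(3δ)/4)`, the sum is
at most `3 B0 n^(δ/2) exp(-n^(3δ)/4) < 1/2`: contradiction. So `L ≤ 2 B0`.
(B) `∑ p_k (k - v n)^2 ≤ 2 n^(1+δ) + 2 L^2 ≤ 10 n^(1+4δ)`.
(C) `B = ⌈n^(1/2 + 6δ)⌉₊`, `j0 = ⌊v n⌋₊ ≥ 2 B` (`v ≥ n^(-δ)`), `J` the set of `k` with `|k - j0| ≤ B`. Outside `J`:
`|∑ p_k (k - v n)| ≤ 10 n^(1+4δ) / (B - 1) ≤ 20 n^(1/2 - 2δ)`. Inside: `|∑ (k - v n)(p_k - g_k)| ≤ (2 B + 1)(B + 1)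
n^(-1/2 - c1 + δ) ≤ 10 n^(1/2 + 13δ - c1) ≤ 10 n^(1/2 - 2δ)`... (`c1 ≥ 16 δ`: exponent `1/2 - 3δ`).
(D) `∑_J (k - j0) g_k = (1/2) ∑_(|i| ≤ B) i (g_(j0+i) - g_(j0-i))`, and with `r = v n - j0` in `[0, 1)`
`|g_(j0+i) - g_(j0-i)| ≤ 2 sup |g'| ≤ 2/(κ n)` (`g` is even about `v n`; `|x| exp(-x^2/(4 κ n)) ≤ √(2 κ n)`), so this
is at most `3 B^2/(κ n) ≤ n^(15 δ)`; `|j0 - v n| ∑_J g_k ≤ 1 + 3 B n^(-1/2 - c1 + δ) ≤ 2`.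
(E) `|h - v n| ≤ |∑ p_k (k - h)| + |∑ p_k (k - v n)| ≤ 2 + 30 n^(1/2 - 2δ) + n^(15δ) + 2 ≤ n^(1/2 - δ)`. -/
def CENT_Stmt : Prop := ∀ c1 : ℝ, 0 < c1 → ∃ δ c2 : ℝ, 0 < δ ∧ 0 < c2 ∧ ∃ N : ℕ, ∀ n : ℕ, N ≤ n →
  ∀ f ρ v κ : ℝ, 0 < ρ → (n : ℝ) ^ (-δ) ≤ sc n * ρ ^ n * Zq n (Real.exp (-f)) →
    (n : ℝ) ^ (-δ) ≤ v → v ≤ 1 → (n : ℝ) ^ (-δ) ≤ κ → κ ≤ (n : ℝ) ^ δ →
    LLat c1 n f ρ v κ → ∀ h : ℕ, h ≤ n →
    ∑ q ∈ Omn n, wtq n (Real.exp (-f)) q * ((sp q : ℝ) - h) ^ 2 ≤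
      (n : ℝ) ^ (1 + δ) * Zq n (Real.exp (-f)) →
    |∑ q ∈ Omn n, wtq n (Real.exp (-f)) q * ((sp q : ℝ) - h)| ≤ 2 * Zq n (Real.exp (-f)) →
    |(h : ℝ) - v * n| ≤ (n : ℝ) ^ (1 / 2 - c2)

/-! ### The classes -/

open Classical in
/-- LCL (from LLP, FFA, SECM, CENS, CENT, SLOWN): both classes, local form. PROOF. LLP gives `c1`, CENT
`δ0`, `c2`; all for the losses `δ' ≤ min δ0 (min (δ/4) (min (2 c2) (c1/4)))`. `ρ` from FFA, `v`, `κ` from LLP, `|h - v n| ≤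
n^(1/2 - c2)` (CENT with SECM, CENS), so `(h - v n)^2/(4 κ n) ≤ 1` and `gau n v κ h ≥ exp(-1)/(2 √(π κ n)) ≥
n^(-1/2-δ)`. `b = true`: `G = gau n v κ h`, `s^(n-h) ∑_(sp q = h) exp(-eps a) = Th n s h eps`; LLat and
`1/(sc n ρ^n) ≤ n^δ' Z` (FFA). `b = false`: `G = ∑_(k ∈ Icc h n) s^(k-h) gau n v κ k`, the sum over the class is
`∑_(k ∈ Icc h n) s^(k-h) Th n s k eps` (`sp q ≤ n`, HG in the form `height_le`), error at most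
`(∑_j s^j) n^(-1/2 - c1 + δ') Z`, `1/(1 - s) ≤ 2/min f 1 ≤ Mp 2 f ≤ n^δ'` (SLOWN). Conclusion with `c1/2`. -/
def LCL_Stmt : Prop := ∀ f1 : ℝ, ∃ c2 : ℝ, 0 < c2 ∧ ∀ δ : ℝ, 0 < δ → ∃ c : ℝ, 0 < c ∧ ∃ N : ℕ,
  ∀ n : ℕ, N ≤ n → ∀ f : ℝ, (n : ℝ) ^ (-c) ≤ f → f ≤ f1 → ∀ h : ℕ, h ≤ n → Cen n f h →
    ∀ b : Bool, ∃ G : ℝ, (n : ℝ) ^ (-(1 / 2) - δ) ≤ G ∧ ∀ eps : ℝ, 0 ≤ eps →
      eps * (2 * n + 2) ≤ 1 →
      |Real.exp (-f) ^ (n - h) * ∑ q ∈ (Omn n).filter (fun q => inC b h (sp q)),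
          Real.exp (-(eps * arq n q)) - G * Ta n (Real.exp (-f)) eps| ≤
        (n : ℝ) ^ (-(1 / 2) - c2) * Zq n (Real.exp (-f))

open Classical in
/-- BLC (from BLP, SLOWN, HG): moments in the classes. PROOF. `b = true`: BLP (`s^(n-h) = wtq` on `sp q = h`).
`b = false`: `∑_(k ∈ Icc h n) s^(k-h) ∑_(sp q = k) w (..)`, BLP for every `k`, `1/(1 - s) ≤ n^δ'` as in LCL. -/
def BLC_Stmt : Prop := ∀ (f1 : ℝ) (p : ℕ) (δ : ℝ), 0 < δ → ∃ c : ℝ, 0 < c ∧ ∃ N : ℕ,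
  ∀ n : ℕ, N ≤ n → ∀ f : ℝ, (n : ℝ) ^ (-c) ≤ f → f ≤ f1 → ∀ h : ℕ, h ≤ n → ∀ b : Bool,
    Real.exp (-f) ^ (n - h) * ∑ q ∈ (Omn n).filter (fun q => inC b h (sp q)),
        (arq n q : ℝ) ^ p ≤
      (n : ℝ) ^ (-(1 / 2) + δ) * (sc n ^ p * Zq n (Real.exp (-f))) ∧
    Real.exp (-f) ^ (n - h) * ∑ q ∈ (Omn n).filter (fun q => inC b h (sp q)),
        |(|(dq q : ℝ)| - (arq n q : ℝ))| ^ p ≤
      (n : ℝ) ^ (-(1 / 2) + δ) * ((n : ℝ) ^ p * Zq n (Real.exp (-f)))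

/-- SAPL (from LCL, BLC, FFA, FFP, NCB, TR, HG): Laplace transforms in the frozen encoding. PROOF.
`2 area = |dbl|` (`FS.SAPC.area2`). By TR (`FS.SAPC.cls_sum`, `force_sum`, also for functions which do not
involve `sc n`) `s^(n-h) ∑_(cls) exp(-t 2 area) = 4 n s^(n-h) ∑_(q, inC) exp(-t |dq|) + R` with `0 ≤ R ≤ NCs`
(`s^(n-h) ≤ s^(n - spn w)` if `h ≤ spn w`, `s ≤ 1`) and `exp(-f n) ∑_(SAP) exp(f span) exp(-t 2 area) =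
4 n ∑ w exp(-t |dq|) + R'`, `0 ≤ R' ≤ NCs ≤ n^(-1) Z` (NCB). `|exp(-t |dq|) - exp(-t a)| ≤ t δ(q)`; BLC and FFP for
`p = 1`, `t ≤ n^(-3/2 + c3)`: the errors are at most `n^(-1 + c3 + δ) Z` (class) and `n^(-1/2 + c3 + δ) Z` (force). So
with LCL: class sum `= 4 n (G Ta + O(n^(-1/2 - c2') Z))`, `card = 4 n (G Z + O(n^(-1/2 - c2') Z))`, `G ≥ n^(-1/2 - δ)`,
force sum `= 4 n (Ta + O(n^(-1/4) Z))`, `exp(-f n) forceZ = 4 n (Z + O(n^(-1/4) Z))`, `0 ≤ Ta ≤ Z`: the quotients agree up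
to `n^(-c3)` for `c3` small. `t (2 n + 2) ≤ 1` for large `n`. -/
def SAPL_Stmt : Prop := ∀ f1 : ℝ, ∃ c3 : ℝ, 0 < c3 ∧ ∃ c : ℝ, 0 < c ∧ ∃ N : ℕ,
  ∀ n : ℕ, N ≤ n → ∀ f : ℝ, (n : ℝ) ^ (-c) ≤ f → f ≤ f1 → ∀ h : ℕ, h ≤ n → Cen n f h →
    ∀ b : Bool, 0 < (cls n b h).card ∧ 0 < forceZ f n ∧
      ∀ t : ℝ, 0 ≤ t → t ≤ (n : ℝ) ^ (-(3 / 2) + c3) →
        |(∑ x ∈ cls n b h, Real.exp (-(t * (2 * area n x)))) / (cls n b h).card -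
          (∑ x ∈ SAP n, Real.exp (f * span n x) * Real.exp (-(t * (2 * area n x)))) /
            forceZ f n| ≤ (n : ℝ) ^ (-c3)

/-- SAPM (from LCL, BLC, FFA, FFP, NCB, TR, HG): moments in the frozen encoding. PROOF. TR as in SAPL.
`|dq|^p ≤ 2^p (a^p + δ(q)^p)`, `n^p ≤ sc^p`; words without cut: `|dbl w| ≤ 4 n^2` (`H66.abs_dbl_le`), so their part is at
most `(4 n^2)^p NCs ≤ Z` (NCB). `s^(n-h) card ≥ 4 n (G - n^(-1/2 - c2)) Z ≥ n^(1/2 - 2δ) Z`. Fourth: this and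
`forceZ ≤ 8 n exp(f n) Z`. Third: FFA (mean of `a`), `|dq| ≥ a - δ(q)`, FFP `p = 1`. -/
def SAPM_Stmt : Prop := ∀ (f1 : ℝ) (p : ℕ) (δ : ℝ), 0 < δ → ∃ c : ℝ, 0 < c ∧ ∃ N : ℕ,
  ∀ n : ℕ, N ≤ n → ∀ f : ℝ, (n : ℝ) ^ (-c) ≤ f → f ≤ f1 → ∀ h : ℕ, h ≤ n → Cen n f h →
    ∀ b : Bool,
      ∑ x ∈ cls n b h, (2 * area n x) ^ p ≤ (n : ℝ) ^ δ * (sc n ^ p * (cls n b h).card) ∧
      ∑ x ∈ SAP n, Real.exp (f * span n x) * (2 * area n x) ^ p ≤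
        (n : ℝ) ^ δ * (sc n ^ p * forceZ f n) ∧
      (n : ℝ) ^ (-δ) * (sc n * forceZ f n) ≤
        ∑ x ∈ SAP n, Real.exp (f * span n x) * (2 * area n x) ∧
      (n : ℝ) ^ (-(1 / 2) - δ) * forceZ f n ≤ Real.exp (f * h) * (cls n b h).card

/-! ### Abstract modules -/

/-- MOML (pure): moments from Laplace transforms. PROOF. For `y ≥ 0`: `y - y^2/2 ≤ 1 - exp(-y) ≤ y`, so
`0 ≤ y^r - (1 - exp(-y))^r ≤ r y^(r+1)/2`. `(1 - exp(-y))^r = ∑_j (-1)^j C(r,j) exp(-j y)`; with `y = lam S`,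
`lam T`: `|∑ v (1 - exp(-lam T))^r - ∑ w (1 - exp(-lam S))^r| ≤ 2^r e`. Divide by `lam^r`. -/
def MOML_Stmt : Prop := ∀ (α β : Type) (P : Finset α) (Q : Finset β) (w S : α → ℝ)
  (v T : β → ℝ) (r : ℕ) (lam e B : ℝ), 0 < lam → (∀ x ∈ P, 0 ≤ w x ∧ 0 ≤ S x) →
  (∀ y ∈ Q, 0 ≤ v y ∧ 0 ≤ T y) →
  (∀ j : ℕ, j ≤ r → |∑ y ∈ Q, v y * Real.exp (-(j * lam * T y)) -
    ∑ x ∈ P, w x * Real.exp (-(j * lam * S x))| ≤ e) →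
  ∑ x ∈ P, w x * S x ^ (r + 1) ≤ B → ∑ y ∈ Q, v y * T y ^ (r + 1) ≤ B →
    |∑ y ∈ Q, v y * T y ^ r - ∑ x ∈ P, w x * S x ^ r| ≤ 2 ^ r * e / lam ^ r + r * lam * B

/-- LIPL (pure): Lipschitz functions from Laplace transforms at the integers. PROOF. Let `R > 0`,
`G(u) = φ(min (-log u) R)` for `0 < u ≤ 1`, `G(0) = φ(R)`: continuous on `[0, 1]` (constant for `u ≤ exp(-R)`); a
polynomial `p` with `|G - p| ≤ ε` on `[0, 1]` (Weierstrass). For `x ≥ 0`: `|φ(min x R) - p(exp(-x))| ≤ ε`, and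
`|φ x - φ(min x R)| ≤ 2 [x > R] ≤ 2 x/R`. So the difference is at most `2 ε + 4 C/R` plus the difference for
`p(exp(-x))`, which tends to zero. -/
def LIPL_Stmt : Prop := ∀ (α β : ℕ → Type) (P : ∀ n, Finset (α n)) (Q : ∀ n, Finset (β n))
  (w S : ∀ n, α n → ℝ) (v T : ∀ n, β n → ℝ),
  (∀ n x, 0 ≤ w n x) → (∀ n x, 0 ≤ v n x) → (∀ n x, 0 ≤ S n x) → (∀ n x, 0 ≤ T n x) →
  (∀ᶠ n in atTop, ∑ x ∈ P n, w n x = 1) → (∀ᶠ n in atTop, ∑ x ∈ Q n, v n x = 1) →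
  (∃ C : ℝ, ∀ᶠ n in atTop, ∑ x ∈ P n, w n x * S n x ≤ C ∧ ∑ x ∈ Q n, v n x * T n x ≤ C) →
  (∀ j : ℕ, Tendsto (fun n => ∑ x ∈ Q n, v n x * Real.exp (-(j * T n x)) -
    ∑ x ∈ P n, w n x * Real.exp (-(j * S n x))) atTop (𝓝 0)) →
  ∀ φ : ℝ → ℝ, (∀ a, |φ a| ≤ 1) → LipschitzWith 1 φ →
    Tendsto (fun n => ∑ x ∈ Q n, v n x * φ (T n x) - ∑ x ∈ P n, w n x * φ (S n x))
      atTop (𝓝 0)

/-- CHOP (from the lemmas of `FS/CHOICE.lean`): choice of the force. PROOF. As `FS.CHOICE_thm` with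
`e = n^(-c)`: `FF_low` needs `8/e^2 = 8 n^(2c) ≤ n` (true for large `n`, `c ≤ 1/4`) and `e n = n^(1-c)`;
`FF_high` with `e = 1/2` at `f1 = max (1/2) (4 log 4)`; `n^(-c)/2 ≤ 1/2 ≤ f1`; intermediate value theorem. -/
def CHOP_Stmt : Prop := ∃ f1 : ℝ, 1 ≤ f1 ∧ ∀ c : ℝ, 0 < c → c ≤ 1 / 4 → ∃ N : ℕ,
  ∀ n : ℕ, N ≤ n → ∀ h : ℕ, 2 * h ≤ n →
    (((SAP n).filter (fun s => h ≤ span n s)).card : ℝ) ≤
      Real.exp (-((n : ℝ) ^ (1 - c))) * (SAP n).card →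
    ∃ f : ℝ, (n : ℝ) ^ (-c) / 2 ≤ f ∧ f ≤ f1 ∧ Cen n f h

/-! ### The final steps -/

/-- law and moments under a force in a polynomial window (a part of `PFW.FINAL4_Stmt`) -/
def FORCEP (μ : Measure ℝ) : Prop := IsProbabilityMeasure μ ∧
  (∃ c : ℝ, 0 < c ∧ ∀ f : ℕ → ℝ, (∀ᶠ n : ℕ in atTop, (n : ℝ) ^ (-c) ≤ f n) → ∀ x : ℝ,
    μ {x} = 0 → Tendsto (fun n : ℕ => forceCdf (f n) n x) atTop (𝓝 (μ (Set.Iic x)).toReal)) ∧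
  ∀ r : ℕ, ∃ c : ℝ, 0 < c ∧ ∀ f : ℕ → ℝ, (∀ᶠ n : ℕ in atTop, (n : ℝ) ^ (-c) ≤ f n) →
    Tendsto (fun n : ℕ => forceMoment (f n) n r) atTop (𝓝 (airyMoment r))

/-- admissible sequences of forces and centres -/
def Adm (f1 c : ℝ) (f : ℕ → ℝ) (h : ℕ → ℕ) : Prop := ∀ᶠ n : ℕ in atTop,
  (n : ℝ) ^ (-c) ≤ f n ∧ f n ≤ f1 ∧ h n ≤ n ∧ Cen n (f n) (h n)

/-- CLSF (from SAPL, SAPM, MOML, LIPL, CDF): law and moments in the classes. PROOF. `m = E_f[2 area] =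
∑ exp(f span) 2 area / forceZ`, `S = T = 2 area / m`, `w = exp(f span)/forceZ`, `v = 1/card`. SAPM (`p = 1`): `m ≥
n^(-δ) sc n`, so `t = j lam / m ≤ n^(-3/2 + c3)` for fixed `j` and `lam ≤ 1`, large `n` (`δ < c3`): SAPL gives
`|∑ v exp(-j lam T) - ∑ w exp(-j lam S)| ≤ n^(-c3)`. SAPM: `∑ v T^(r+1)`, `∑ w S^(r+1) ≤ n^(δ (r+2))`. MOML with
`lam = n^(-c3/(2r+2))`: `∑ v T^r - ∑ w S^r → 0` for `δ (r + 2) < c3/(2r+2)` (this fixes the window for given `r`).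
Law: `r = 1`: `∑ v T → 1 = ∑ w S`; LIPL (`lam = 1`), then CDF (`FS.CDF_Stmt`) as in `FS.conv_cls`
(`FS.areaCdf_eq`, `forceCdf_eq'`, there with `sc n` instead of `m`: the same proof). Moments: `∑ w S^r =
forceMoment (f n) n r → airyMoment r`, `areaMoment = ∑ v T^r / (∑ v T)^r`; `area = (2 area)/2`. -/
def CLSF_Stmt : Prop := ∀ μ : Measure ℝ, FORCEP μ → ∀ f1 : ℝ,
  (∃ c : ℝ, 0 < c ∧ ∀ (f : ℕ → ℝ) (h : ℕ → ℕ), Adm f1 c f h → ∀ (b : Bool) (x : ℝ),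
    μ {x} = 0 →
      Tendsto (fun n : ℕ => areaCdf n (cls n b (h n)) x) atTop (𝓝 (μ (Set.Iic x)).toReal)) ∧
  ∀ r : ℕ, ∃ c : ℝ, 0 < c ∧ ∀ (f : ℕ → ℝ) (h : ℕ → ℕ), Adm f1 c f h → ∀ b : Bool,
    Tendsto (fun n : ℕ => areaMoment n (cls n b (h n)) r) atTop (𝓝 (airyMoment r))

/-- DIAP (from `PFW.FERP`, SAPM, DMX, RFL): polygons of the class with large lateral span are
negligible. PROOF. `DIA.bad n b h`: `inC b h (span)` and `h ≤ lspan`. With `W = exp(f span)`, `W' = exp(f diam)`,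
pointwise `|W' - (W + W ∘ fl)| = exp(f min(span, lspan))` (DMX, RFL; first lines of `DIA.FER.pt`), which is at least
`exp(f h)` on `bad` (`f > 0`). So `exp(f h) #bad ≤ wErr`, and `exp(f h) #cls ≥ n^(-1/2-δ) forceZ`, `δ = 1/2` (SAPM),
`forceZ = wZ`: `n^j #bad/#cls ≤ n^(j+1) wErr/wZ → 0` (FERP). -/
def DIAP_Stmt : Prop := ∀ f1 : ℝ, ∃ c : ℝ, 0 < c ∧ ∀ (f : ℕ → ℝ) (h : ℕ → ℕ), Adm f1 c f h →
  ∀ (b : Bool) (j : ℕ), Tendsto (fun n : ℕ => (n : ℝ) ^ j *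
    ((DIA.bad n b (h n)).card / ((cls n b (h n)).card : ℝ))) atTop (𝓝 0)

/-- the theorem -/
def T1_Stmt : Prop := ∃ μ : Measure ℝ, IsProbabilityMeasure μ ∧
  (∀ r : ℕ, Integrable (fun x : ℝ => x ^ r) μ ∧ ∫ x, x ^ r ∂μ = airyMoment r) ∧
  (∀ x : ℝ, μ {x} = 0 →
    Tendsto (fun n : ℕ => areaCdf n (Staircase n) x) atTop (𝓝 (μ (Set.Iic x)).toReal)) ∧
  ∀ g : ∀ n : ℕ, (Fin (2 * n) → Fin 4) → ℕ, (g = span ∨ g = diam) →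
    (∃ c : ℝ, 0 < c ∧ ∀ h : ℕ → ℕ, (∀ᶠ n : ℕ in atTop, h n ≤ n ∧
        (((SAP n).filter (fun s => h n ≤ g n s)).card : ℝ) ≤
          Real.exp (-((n : ℝ) ^ (1 - c))) * (SAP n).card) → ∀ x : ℝ, μ {x} = 0 →
      Tendsto (fun n : ℕ => areaCdf n ((SAP n).filter (fun s => g n s = h n)) x) atTop
        (𝓝 (μ (Set.Iic x)).toReal) ∧
      Tendsto (fun n : ℕ => areaCdf n ((SAP n).filter (fun s => h n ≤ g n s)) x) atTop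
        (𝓝 (μ (Set.Iic x)).toReal)) ∧
    ∀ r : ℕ, ∃ c : ℝ, 0 < c ∧ ∀ h : ℕ → ℕ, (∀ᶠ n : ℕ in atTop, h n ≤ n ∧
        (((SAP n).filter (fun s => h n ≤ g n s)).card : ℝ) ≤
          Real.exp (-((n : ℝ) ^ (1 - c))) * (SAP n).card) →
      Tendsto (fun n : ℕ => areaMoment n ((SAP n).filter (fun s => g n s = h n)) r) atTop
        (𝓝 (airyMoment r)) ∧
      Tendsto (fun n : ℕ => areaMoment n ((SAP n).filter (fun s => h n ≤ g n s)) r) atTop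
        (𝓝 (airyMoment r))

end Pool.Agent.PFS
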