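import Pool.Agent.PFS.StmtsB
import Pool.Agent.PFS.StmtsC
import Pool.Agent.Lib_helper74.FS.ARM

/-!
# Project PFS (MP_f6626d_co): from the statements of part B to the interface of part C
-/

set_option autoImplicit false

namespace Pool.Agent.PFS

open Finset Filter Topology MeasureTheory
open Pool.Agent.Lib27 Pool.Agent.SapR Pool.Agent.Gap Pool.Agent.AreaLaw Pool.Agent.FL
open Pool.Agent.FS
open Pool.Agent.PFW (Mp)

/-- the local law -/
theorem t_LLP (h1 : LLAW_Stmt) (h2 : SLOWN_Stmt) : LLP_Stmt := by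
  intro f1
  obtain ⟨A, K, c0, c1, hA, hc0, hc1, N, hN⟩ := h1 (max f1 1) (lt_max_of_lt_right one_pos)
  refine ⟨c1, hc1, fun δ hδ => ?_⟩
  obtain ⟨c, hc, N2, hN2⟩ := h2 A K hA δ hδ
  refine ⟨min c c0, lt_min hc hc0, max (max N N2) 1, ?_⟩
  intro n hn f hf hff ρ hρ
  have n1 : 1 ≤ n := (le_max_right _ _).trans hn
  have nN : N ≤ n := (le_max_left _ _).trans ((le_max_left _ _).trans hn)
  have nN2 : N2 ≤ n := (le_max_right _ _).trans ((le_max_left _ _).trans hn)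
  have n0 : (0 : ℝ) < n := by exact_mod_cast n1
  obtain ⟨hf0, hM⟩ := hN2 n nN2 f (win_mono (min_le_left _ _) n1 hf)
  obtain ⟨v1, v2, k1, k2, -, hl⟩ := hN n f ρ nN (win_mono (min_le_right _ _) n1 hf)
    (hff.trans (le_max_left _ _)) hρ
  have hp : 0 < (n : ℝ) ^ δ := Real.rpow_pos_of_pos n0 _
  have hM0 : 0 < Mp A f ^ K := by
    have : 0 < Mp A f := by
      unfold Mp
      have : (0 : ℝ) < A := by exact_mod_cast (by omega : 0 < A)
      have h3 : 0 < min f 1 := lt_min hf0 one_pos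
      positivity
    positivity
  have hi : (n : ℝ) ^ (-δ) ≤ (Mp A f ^ K)⁻¹ := by
    rw [Real.rpow_neg n0.le]
    exact inv_anti₀ hM0 hM
  exact ⟨vf n f, kf n f, hi.trans v1, v2, hi.trans k1, k2.trans hM, hl⟩

/-- exponential decay beats powers -/
lemma exp_small (a : ℝ) : ∃ N : ℕ, ∀ n : ℕ, N ≤ n →
    (n : ℝ) ^ a * Real.exp (-((n : ℝ) ^ (1 / 2 : ℝ))) ≤ 1 := by
  have h1 : Tendsto (fun x : ℝ => x ^ (2 * a) * Real.exp (-1 * x)) atTop (𝓝 0) :=
    tendsto_rpow_mul_exp_neg_mul_atTop_nhds_zero (2 * a) 1 one_pos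
  have h2 : Tendsto (fun n : ℕ => ((n : ℝ) ^ (1 / 2 : ℝ))) atTop atTop :=
    (tendsto_rpow_atTop (by norm_num : (0 : ℝ) < 1 / 2)).comp tendsto_natCast_atTop_atTop
  have h3 := (h1.comp h2).eventually_le_const (by norm_num : (0 : ℝ) < 1)
  obtain ⟨N, hN⟩ := eventually_atTop.1 h3
  refine ⟨N, fun n hn => ?_⟩
  have h4 := hN n hn
  simp only [Function.comp] at h4
  rw [← Real.rpow_mul (Nat.cast_nonneg n)] at h4
  rw [show (1 / 2 : ℝ) * (2 * a) = a by ring, neg_one_mul] at h4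
  exact h4

/-- moments at fixed span -/
theorem t_BLP (h1 : BLU_Stmt) (h2 : SLOWN_Stmt) (h3 : FFA_Stmt) (h4 : FFP_Stmt) : BLP_Stmt := by
  intro f1 p δ hδ
  obtain ⟨A, hA, hA1⟩ := h1 (max f1 1) p (lt_max_of_lt_right one_pos)
  obtain ⟨K, N0, -, hK⟩ := hA1 A le_rfl
  set d : ℝ := min (δ / 4) (1 / 2) with hd
  have hd0 : 0 < d := lt_min (by linarith) (by norm_num)
  have hd1 : d ≤ δ / 4 := min_le_left _ _
  have hd2 : d ≤ 1 / 2 := min_le_right _ _
  obtain ⟨c2, hc2, N2, hN2⟩ := h2 A K hA d hd0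
  obtain ⟨c3, hc3, N3, hN3⟩ := h3 d hd0
  obtain ⟨c4, hc4, N4, hN4⟩ := h4 p d hd0
  obtain ⟨N5, hN5⟩ := exp_small 4
  obtain ⟨N6, hN6⟩ : ∃ N : ℕ, ∀ n : ℕ, N ≤ n → (4 : ℝ) ≤ (n : ℝ) ^ (δ / 4) := by
    have := ((tendsto_rpow_atTop (by linarith : 0 < δ / 4)).comp
      tendsto_natCast_atTop_atTop).eventually_ge_atTop (4 : ℝ)
    obtain ⟨N, hN⟩ := eventually_atTop.1 this
    exact ⟨N, fun n hn => hN n hn⟩
  refine ⟨min c2 (min c3 c4), lt_min hc2 (lt_min hc3 hc4),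
    max N0 (max N2 (max N3 (max N4 (max N5 (max N6 1))))), ?_⟩
  intro n hn f hf hff h
  simp only [max_le_iff] at hn
  obtain ⟨m0, m2, m3, m4, m5, m6, m1⟩ := hn
  have n1 : (1 : ℝ) ≤ n := by exact_mod_cast m1
  have n0 : (0 : ℝ) < n := by linarith
  obtain ⟨hf0, hM⟩ := hN2 n m2 f (win_mono (min_le_left _ _) m1 hf)
  obtain ⟨-, ρ, D, r1, r2, hcr, -, -, -, z1, z2, -⟩ := hN3 n m3 f
    (win_mono ((min_le_right _ _).trans (min_le_left _ _)) m1 hf)
  obtain ⟨q1, q2⟩ := hN4 n m4 f (win_mono ((min_le_right _ _).trans (min_le_right _ _)) m1 hf)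
  have hMn : Mp A f ^ K ≤ n := by
    refine hM.trans ?_
    calc (n : ℝ) ^ d ≤ (n : ℝ) ^ (1 : ℝ) := Real.rpow_le_rpow_of_exponent_le n1 (by linarith)
      _ = n := Real.rpow_one _
  obtain ⟨u1, u2⟩ := hK n f ρ m0 hf0 (hff.trans (le_max_left _ _)) hMn hcr h
  set Z : ℝ := Zq n (Real.exp (-f)) with hZ
  set M : ℝ := Mp A f ^ K with hMd
  have hM0 : 0 < M := by
    have : 0 < Mp A f := by
      unfold Mp
      have : (0 : ℝ) < A := by exact_mod_cast (by omega : 0 < A)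
      have h3 : 0 < min f 1 := lt_min hf0 one_pos
      positivity
    positivity
  have hZ0 : 0 ≤ Z := by
    rw [hZ]
    unfold Zq
    exact Finset.sum_nonneg fun q _ => by unfold wtq; positivity
  have hρ0 : 0 < ρ := by linarith
  have hsc1 : 1 ≤ sc n := by
    unfold sc
    have h5 : 1 ≤ Real.sqrt n := Real.one_le_sqrt.2 n1
    nlinarith
  have hscn : (n : ℝ) ≤ sc n := by
    unfold sc
    have h5 : 1 ≤ Real.sqrt n := Real.one_le_sqrt.2 n1
    nlinarith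
  have hsc2 : sc n ≤ (n : ℝ) ^ (2 : ℝ) := by
    unfold sc
    rw [Real.rpow_two, sq]
    have h5 : Real.sqrt n ≤ n := by
      rw [Real.sqrt_le_left (by linarith)]
      nlinarith
    exact mul_le_mul_of_nonneg_left h5 n0.le
  -- the small error term
  have hexp : Real.exp (-(n / M)) ≤ Real.exp (-((n : ℝ) ^ (1 / 2 : ℝ))) := by
    apply Real.exp_le_exp.2
    apply neg_le_neg
    rw [le_div_iff₀ hM0]
    calc (n : ℝ) ^ (1 / 2 : ℝ) * M ≤ (n : ℝ) ^ (1 / 2 : ℝ) * (n : ℝ) ^ d :=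
          mul_le_mul_of_nonneg_left hM (by positivity)
      _ = (n : ℝ) ^ (1 / 2 + d) := by rw [← Real.rpow_add n0]
      _ ≤ (n : ℝ) ^ (1 : ℝ) := Real.rpow_le_rpow_of_exponent_le n1 (by linarith)
      _ = n := Real.rpow_one _
  have hinv : 1 / ρ ^ n ≤ (n : ℝ) ^ d * (sc n * Z) := by
    rw [div_le_iff₀ (by positivity)]
    have h6 : (n : ℝ) ^ d * (n : ℝ) ^ (-d) = 1 := by
      rw [← Real.rpow_add n0]
      simp
    calc (1 : ℝ) = (n : ℝ) ^ d * (n : ℝ) ^ (-d) := h6.symm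
      _ ≤ (n : ℝ) ^ d * (sc n * ρ ^ n * Z) := mul_le_mul_of_nonneg_left z1 (by positivity)
      _ = _ := by ring
  have herr : M * Real.exp (-(n / M)) / ρ ^ n ≤ (n : ℝ) ^ (-(1 / 2 : ℝ)) * Z := by
    have e1 : M * Real.exp (-(n / M)) / ρ ^ n = M * Real.exp (-(n / M)) * (1 / ρ ^ n) := by ring
    have e2 : M ≤ (n : ℝ) ^ (1 / 2 : ℝ) :=
      hM.trans (Real.rpow_le_rpow_of_exponent_le n1 hd2)
    have e3 : (n : ℝ) ^ d ≤ (n : ℝ) ^ (1 / 2 : ℝ) := Real.rpow_le_rpow_of_exponent_le n1 hd2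
    rw [e1]
    calc M * Real.exp (-(n / M)) * (1 / ρ ^ n)
        ≤ ((n : ℝ) ^ (1 / 2 : ℝ) * Real.exp (-((n : ℝ) ^ (1 / 2 : ℝ)))) *
            ((n : ℝ) ^ (1 / 2 : ℝ) * ((n : ℝ) ^ (2 : ℝ) * Z)) := by
          apply mul_le_mul
          · exact mul_le_mul e2 hexp (Real.exp_pos _).le (by positivity)
          · refine hinv.trans ?_
            apply mul_le_mul e3 (mul_le_mul_of_nonneg_right hsc2 hZ0) _ (by positivity)
            exact mul_nonneg (by linarith) hZ0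
          · positivity
          · positivity
      _ = (n : ℝ) ^ (1 / 2 : ℝ) * (n : ℝ) ^ (1 / 2 : ℝ) * (n : ℝ) ^ (2 : ℝ) *
            Real.exp (-((n : ℝ) ^ (1 / 2 : ℝ))) * Z := by ring
      _ = (n : ℝ) ^ (3 : ℝ) * Real.exp (-((n : ℝ) ^ (1 / 2 : ℝ))) * Z := by
          rw [← Real.rpow_add n0, ← Real.rpow_add n0]
          norm_num
      _ ≤ (n : ℝ) ^ (-(1 / 2 : ℝ)) * Z := by
          apply mul_le_mul_of_nonneg_right _ hZ0
          have e4 := hN5 n m5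
          have e5 : (n : ℝ) ^ (3 : ℝ) = (n : ℝ) ^ (-(1 : ℝ)) * (n : ℝ) ^ (4 : ℝ) := by
            rw [← Real.rpow_add n0]
            norm_num
          rw [e5, mul_assoc]
          calc (n : ℝ) ^ (-(1 : ℝ)) * ((n : ℝ) ^ (4 : ℝ) *
                Real.exp (-((n : ℝ) ^ (1 / 2 : ℝ)))) ≤ (n : ℝ) ^ (-(1 : ℝ)) * 1 :=
                mul_le_mul_of_nonneg_left e4 (by positivity)
            _ ≤ (n : ℝ) ^ (-(1 / 2 : ℝ)) := by
                rw [mul_one]
                exact Real.rpow_le_rpow_of_exponent_le n1 (by norm_num)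
  have hsq : 1 / Real.sqrt n = (n : ℝ) ^ (-(1 / 2 : ℝ)) := by
    rw [Real.sqrt_eq_rpow, Real.rpow_neg n0.le, one_div]
  have hMs : M / Real.sqrt n ≤ (n : ℝ) ^ (-(1 / 2) + δ / 4) := by
    calc M / Real.sqrt n = M * (1 / Real.sqrt n) := by ring
      _ ≤ (n : ℝ) ^ (δ / 4) * (n : ℝ) ^ (-(1 / 2 : ℝ)) := by
          rw [hsq]
          exact mul_le_mul_of_nonneg_right
            (hM.trans (Real.rpow_le_rpow_of_exponent_le n1 hd1)) (by positivity)
      _ = _ := by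
          rw [← Real.rpow_add n0]
          congr 1
          ring
  have hdd : (n : ℝ) ^ d ≤ (n : ℝ) ^ (δ / 4) := Real.rpow_le_rpow_of_exponent_le n1 hd1
  have h64 := hN6 n m6
  have hMs0 : 0 ≤ M / Real.sqrt n := div_nonneg hM0.le (Real.sqrt_nonneg _)
  have hpow : ∀ X : ℝ, 0 ≤ X → (n : ℝ) ^ (-(1 / 2) + δ / 4) * ((n : ℝ) ^ (δ / 4) * X + X) +
      (n : ℝ) ^ (-(1 / 2 : ℝ)) * X ≤ (n : ℝ) ^ (-(1 / 2) + δ) * X := by
    intro X hX
    have g1 : (n : ℝ) ^ (-(1 / 2) + δ) = (n : ℝ) ^ (-(1 / 2 : ℝ)) * (n : ℝ) ^ (δ / 4) *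
        (n : ℝ) ^ (δ / 4) * ((n : ℝ) ^ (δ / 4) * (n : ℝ) ^ (δ / 4)) := by
      rw [← Real.rpow_add n0, ← Real.rpow_add n0, ← Real.rpow_add n0, ← Real.rpow_add n0]
      congr 1
      ring
    have g2 : (n : ℝ) ^ (-(1 / 2) + δ / 4) = (n : ℝ) ^ (-(1 / 2 : ℝ)) * (n : ℝ) ^ (δ / 4) := by
      rw [← Real.rpow_add n0]
    rw [g1, g2]
    set y : ℝ := (n : ℝ) ^ (δ / 4) with hy
    set a : ℝ := (n : ℝ) ^ (-(1 / 2 : ℝ)) with ha
    have ha0 : 0 ≤ a := by rw [ha]; positivity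
    have haX : 0 ≤ a * X := mul_nonneg ha0 hX
    have g4 : 16 ≤ y * y := by nlinarith
    have g5 : y ≤ y * y := by nlinarith
    have g3 : y * y + y + 1 ≤ y * y * (y * y) := by nlinarith
    calc a * y * (y * X + X) + a * X = (y * y + y + 1) * (a * X) := by ring
      _ ≤ (y * y * (y * y)) * (a * X) := mul_le_mul_of_nonneg_right g3 haX
      _ = _ := by ring
  constructor
  · refine u1.trans ?_
    have hX : 0 ≤ sc n ^ p * Z := mul_nonneg (by positivity) hZ0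
    refine le_trans (add_le_add (mul_le_mul hMs (q1.trans (?_ : _ ≤
      (n : ℝ) ^ (δ / 4) * (sc n ^ p * Z) + sc n ^ p * Z)) ?_ (by positivity))
      (herr.trans (?_ : _ ≤ (n : ℝ) ^ (-(1 / 2 : ℝ)) * (sc n ^ p * Z)))) (hpow _ hX)
    · have := mul_le_mul_of_nonneg_right hdd hX
      linarith
    · exact Finset.sum_nonneg fun q _ => by unfold wtq; positivity
    · apply mul_le_mul_of_nonneg_left _ (by positivity)
      exact le_mul_of_one_le_left hZ0 (one_le_pow₀ hsc1)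
  · have habs : ∀ q ∈ Omn n, |(dq q : ℝ)| = (dq q : ℝ) := by
      intro q hq
      have h5 : 0 < dq q := ARM.dq_pos hq
      exact abs_of_pos (by exact_mod_cast h5)
    have e1 : ∑ q ∈ (Omn n).filter (fun q => sp q = h), wtq n (Real.exp (-f)) q *
        |(|(dq q : ℝ)| - (arq n q : ℝ))| ^ p =
        ∑ q ∈ (Omn n).filter (fun q => sp q = h), wtq n (Real.exp (-f)) q *
        |(dq q : ℝ) - (arq n q : ℝ)| ^ p := by
      refine Finset.sum_congr rfl fun q hq => ?_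
      rw [habs q (Finset.mem_filter.1 hq).1]
    have e2 : ∑ q ∈ Omn n, wtq n (Real.exp (-f)) q * |(|(dq q : ℝ)| - (arq n q : ℝ))| ^ p =
        ∑ q ∈ Omn n, wtq n (Real.exp (-f)) q * |(dq q : ℝ) - (arq n q : ℝ)| ^ p := by
      refine Finset.sum_congr rfl fun q hq => ?_
      rw [habs q hq]
    rw [e1]
    rw [e2] at q2
    refine u2.trans ?_
    have hX : 0 ≤ (n : ℝ) ^ p * Z := mul_nonneg (by positivity) hZ0
    refine le_trans (add_le_add (mul_le_mul hMs (?_ : _ ≤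
      (n : ℝ) ^ (δ / 4) * ((n : ℝ) ^ p * Z) + (n : ℝ) ^ p * Z) ?_ (by positivity))
      (herr.trans (?_ : _ ≤ (n : ℝ) ^ (-(1 / 2 : ℝ)) * ((n : ℝ) ^ p * Z)))) (hpow _ hX)
    · have := mul_le_mul_of_nonneg_right hdd hX
      linarith
    · refine add_nonneg (Finset.sum_nonneg fun q _ => ?_) hX
      unfold wtq
      positivity
    · apply mul_le_mul_of_nonneg_left _ (by positivity)
      exact le_mul_of_one_le_left hZ0 (one_le_pow₀ n1)

end Pool.Agent.PFS
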