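import Pool.Agent.PFS.StmtsC
import Pool.Agent.EXW.QRAT

/-!
# Project PFS, module GUB: two-sided bound and mean of the area polynomials
-/

set_option autoImplicit false

namespace Pool.Agent.PFS

open Finset Filter Topology
open Pool.Agent.Gap Pool.Agent.FL
open Pool.Agent.PFW (CritW)
open Pool.Agent.EXW (Sc Sc0 PB LB par_bounds)

namespace GUBx

/-- Cauchy-Schwarz up to a factor 2 -/
theorem cs (P : Polynomial ℝ) (hP : ∀ k, 0 ≤ P.coeff k) (hP1 : 0 < P.eval 1) :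
    P.derivative.eval 1 ^ 2 ≤
      2 * P.eval 1 * (P.derivative.derivative.eval 1 + P.derivative.eval 1) := by
  have hP' : ∀ k, 0 ≤ P.derivative.coeff k := fun k => by
    rw [Polynomial.coeff_derivative]
    exact mul_nonneg (hP _) (by positivity)
  have hP'' : ∀ k, 0 ≤ P.derivative.derivative.coeff k := fun k => by
    rw [Polynomial.coeff_derivative]
    exact mul_nonneg (hP' _) (by positivity)
  have hd0 : 0 ≤ P.derivative.eval 1 := EXW.QRAT.eval_nonneg _ hP' zero_le_one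
  have hdd0 : 0 ≤ P.derivative.derivative.eval 1 := EXW.QRAT.eval_nonneg _ hP'' zero_le_one
  have h2 := EXW.QRAT.eval_nonneg P hP
    (Real.exp_pos (-(2 * P.eval 1 / P.derivative.eval 1))).le
  have h1 := fun h : 0 ≤ 2 * P.eval 1 / P.derivative.eval 1 => poly_bound P hP h
  obtain ⟨e, he⟩ : ∃ e, e = P.eval (Real.exp (-(2 * P.eval 1 / P.derivative.eval 1))) := ⟨_, rfl⟩
  rw [← he] at h1 h2
  obtain ⟨S, hS⟩ : ∃ S, S = P.derivative.derivative.eval 1 + P.derivative.eval 1 := ⟨_, rfl⟩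
  have hS0 : 0 ≤ S := by linarith
  rw [← hS] at h1
  rw [← hS]
  obtain ⟨d, hd⟩ : ∃ d, d = P.derivative.eval 1 := ⟨_, rfl⟩
  rw [← hd] at h1 hd0
  rw [← hd]
  obtain ⟨p, hp⟩ : ∃ p, p = P.eval 1 := ⟨_, rfl⟩
  rw [← hp] at h1 hP1
  rw [← hp]
  clear he hd hp hS
  rcases hd0.eq_or_lt with h | h
  · rw [← h]
    have : 0 ≤ 2 * p * S := by positivity
    linarith
  · have h3 := (abs_le.1 (h1 (by positivity))).2
    have h4 : 2 * p / d * d = 2 * p := by field_simp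
    have h5 : p ≤ (2 * p / d) ^ 2 / 2 * S := by linarith
    have h6 : (2 * p / d) ^ 2 / 2 * S = 2 * p ^ 2 * S / d ^ 2 := by
      field_simp
    rw [h6, le_div_iff₀ (by positivity)] at h5
    have h7 : p * d ^ 2 ≤ p * (2 * p * S) := by
      refine h5.trans (le_of_eq ?_)
      ring
    exact le_of_mul_le_mul_left h7 hP1

/-- the scale of the staircase polygons -/
theorem near {D : ℝ} (hD : 2 ≤ D) (G : GapKernel) (hG : Cls D (1 - D⁻¹) G) (n : ℕ) :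
    |((⌊2 * G.sig2 * n / G.mbar⌋₊ : ℕ) : ℝ) * G.mbar - 2 * G.sig2 * n| ≤ G.mbar := by
  obtain ⟨Kp, hpar⟩ := par_bounds
  obtain ⟨p1, -, -, -, p5, -⟩ := hpar D hD G hG
  have hDp : 0 < D := by linarith
  have hmb : 0 < G.mbar := by linarith
  have hsg : 0 < G.sig2 := lt_of_lt_of_le (inv_pos.2 hDp) p5
  obtain ⟨x, hx⟩ : ∃ x, x = 2 * G.sig2 * n / G.mbar := ⟨_, rfl⟩
  have hx0 : 0 ≤ x := by rw [hx]; positivity
  rw [← hx]
  have e : ((⌊x⌋₊ : ℕ) : ℝ) * G.mbar - 2 * G.sig2 * n = (((⌊x⌋₊ : ℕ) : ℝ) - x) * G.mbar := by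
    rw [hx]; field_simp
  rw [e, abs_mul, abs_of_pos hmb]
  refine mul_le_of_le_one_left hmb.le ?_
  rw [abs_le]
  constructor
  · have := Nat.lt_floor_add_one x
    linarith
  · have := Nat.floor_le hx0
    linarith

/-- the upper bound, from the mean and the second moment -/
theorem upper {R q P1 P' S a M : ℝ} (hR : 0 < R) (hq : 0 < q) (hP1 : 0 < P1) (ha : 0 < a)
    (h1 : a⁻¹ * R * P1 ≤ P') (h2 : P' ^ 2 ≤ 2 * P1 * S) (h3 : q * S ≤ M * R) :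
    R * q * P1 ≤ 2 * (a ^ 2 * M) := by
  have h4 : 0 ≤ a⁻¹ * R * P1 := by positivity
  have h5 : (a⁻¹ * R * P1) ^ 2 ≤ 2 * P1 * S := (pow_le_pow_left₀ h4 h1 2).trans h2
  have h6 : q * (a⁻¹ * R * P1) ^ 2 ≤ 2 * P1 * (M * R) := by
    calc q * (a⁻¹ * R * P1) ^ 2 ≤ q * (2 * P1 * S) := mul_le_mul_of_nonneg_left h5 hq.le
      _ = 2 * P1 * (q * S) := by ring
      _ ≤ 2 * P1 * (M * R) := mul_le_mul_of_nonneg_left h3 (by positivity)
  have h7 : q * (a⁻¹ * R * P1) ^ 2 = R * q * P1 * (R * P1 / a ^ 2) := by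
    field_simp
  have h8 : 2 * P1 * (M * R) = 2 * (a ^ 2 * M) * (R * P1 / a ^ 2) := by
    field_simp
  rw [h7, h8] at h6
  exact le_of_mul_le_mul_right h6 (by positivity)

/-- the lower bound of the mean -/
theorem lower {R R0 P1 P' Y c sg hb A B' Dp : ℝ} (hR0 : 0 < R0) (hP1 : 0 < P1) (hc : 0 < c)
    (hsg : 0 < sg) (hhb : 1 ≤ hb) (hsp : sg ≤ Dp) (hA : 0 < A) (hR : R ≤ A * R0)
    (hB : B' ≤ c / 2)
    (h1 : |2 * sg / (hb * R0) * (P' / P1) - Y| ≤ B') (h2 : c ≤ Y) :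
    c / (4 * Dp * A) * R * P1 ≤ P' := by
  have hDp : 0 < Dp := hsg.trans_le hsp
  have hb0 : 0 < hb := by linarith
  have h3 := (abs_le.1 h1).1
  have h4 : c / 2 ≤ 2 * sg / (hb * R0) * (P' / P1) := by linarith
  have h5 : 2 * sg / (hb * R0) * (P' / P1) = 2 * sg * P' / (hb * R0 * P1) := by
    field_simp
  rw [h5, le_div_iff₀ (by positivity)] at h4
  have h6 : 0 ≤ P' := by
    by_contra h
    rw [not_le] at h
    have : 2 * sg * P' < 0 := mul_neg_of_pos_of_neg (by positivity) h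
    have : 0 < c / 2 * (hb * R0 * P1) := by positivity
    linarith
  have h7 : c / 2 * (R0 * P1) ≤ 2 * Dp * P' := by
    calc c / 2 * (R0 * P1) ≤ c / 2 * (hb * R0 * P1) := by
          have : R0 * P1 ≤ hb * R0 * P1 := by
            have : 0 < R0 * P1 := by positivity
            nlinarith
          exact mul_le_mul_of_nonneg_left this (by positivity)
      _ ≤ 2 * sg * P' := h4
      _ ≤ 2 * Dp * P' := by gcongr
  calc c / (4 * Dp * A) * R * P1 ≤ c / (4 * Dp * A) * (A * R0) * P1 := by gcongr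
    _ = (c / 2 * (R0 * P1)) / (2 * Dp) := by
        field_simp
        ring
    _ ≤ P' := by
        rw [div_le_iff₀ (by positivity)]
        linarith

end GUBx

open GUBx in
theorem t_GUB (h1 : Pool.Agent.PFW.WRAT_Stmt) (h2 : Pool.Agent.Gap.BAL_Stmt)
    (h3 : Pool.Agent.EXW.QGM2_Stmt) (h4 : Pool.Agent.EXW.QPAR_Stmt) : GUB_Stmt := by
  obtain ⟨k0, k1, hRAT⟩ := h1
  obtain ⟨m2, hGM2⟩ := h3
  obtain ⟨j0, j1, hPAR⟩ := h4
  obtain ⟨c1, hc1, hBAL⟩ := h2 B0 B0_isSol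
  obtain ⟨p, hp⟩ := par_bounds
  obtain ⟨a1, ha1⟩ := LB.const hc1
  -- the exponents
  obtain ⟨j, hj⟩ : ∃ j : ℕ, j = k1 + (a1 + 3) := ⟨_, rfl⟩
  obtain ⟨k, hk⟩ : ∃ k : ℕ, k = 2 * (k1 + j + (a1 + 3)) + k0 + 3 := ⟨_, rfl⟩
  obtain ⟨b, hb⟩ : ∃ b : ℕ, b = (1 + k) * k1 + j + (a1 + 3) := ⟨_, rfl⟩
  obtain ⟨K, hK⟩ : ∃ K : ℕ, K = a1 + (p + 2 * j1 + 2) := ⟨_, rfl⟩
  refine ⟨(1 + k) * k0 + (1 + k) * j0 + 4 * b, k1 + 2 * K + m2 + 1, ?_⟩
  intro D hD G hG C0 s t Vs Vt B hs ht hVs hVt hB n hn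
  have hD1 : 1 ≤ D := by linarith
  have hD0 : 0 < D := by linarith
  have hDpos : ∀ k : ℕ, 0 < D ^ k := fun k => pow_pos hD0 k
  have hinv : ∀ k : ℕ, 0 < (D ^ k)⁻¹ := fun k => inv_pos.2 (hDpos k)
  have hDge1 : ∀ k : ℕ, 1 ≤ D ^ k := fun k => one_le_pow₀ hD1
  have hDmono : ∀ {i j : ℕ}, i ≤ j → D ^ i ≤ D ^ j := fun h => pow_le_pow_right₀ hD1 h
  obtain ⟨W, hW⟩ : ∃ W, W = D ^ k := ⟨_, rfl⟩
  have hW0 : 0 < W := by rw [hW]; exact hDpos k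
  have hW2 : 2 ≤ W := by
    rw [hW]
    calc (2 : ℝ) ≤ D ^ 1 := by rw [pow_one]; exact hD
      _ ≤ D ^ k := hDmono (by omega)
  have hDW : ∀ i : ℕ, (D * W) ^ i = D ^ ((1 + k) * i) := fun i => by
    rw [hW, pow_mul, pow_add, pow_one]
  obtain ⟨n0, hn0'⟩ : ∃ n0 : ℕ, n0 = ⌊2 * G.sig2 * n / G.mbar⌋₊ := ⟨_, rfl⟩
  have hnear : |(n0 : ℝ) * G.mbar - 2 * G.sig2 * n| ≤ G.mbar := by
    rw [hn0']
    exact near hD G hG n
  have hsc : Sc0 k0 D W G n n0 := ⟨hD, hW2, hG, by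
    rw [hDW]
    exact (hDmono (by omega)).trans hn, hnear⟩
  have hscj : Sc0 j0 D W G n n0 := ⟨hD, hW2, hG, by
    rw [hDW]
    exact (hDmono (by omega)).trans hn, hnear⟩
  obtain ⟨⟨hn1, hn01, -, hWn0, hnn0, hn0n⟩, -, -⟩ := hPAR D W G n n0 0 0
    ⟨hscj, le_rfl, by rw [zero_mul]; exact hW0.le, by ring⟩
  have hnr : (0 : ℝ) < n := by exact_mod_cast hn1
  have hn0 : (0 : ℝ) < n0 := by exact_mod_cast hn01
  obtain ⟨hmb1, -, hhb1, -, hsg1, hsg2⟩ := hp D hD G hG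
  have hsg0 : 0 < G.sig2 := G.sig2_pos
  have hsn : 0 < Real.sqrt n := Real.sqrt_pos.2 hnr
  have hsn0 : 0 < Real.sqrt n0 := Real.sqrt_pos.2 hn0
  have hkW : D ^ k0 ≤ W := by
    rw [hW]
    exact hDmono (by omega)
  obtain ⟨hA, -, hC⟩ := hRAT D hD G hG C0 s t Vs Vt B hs ht hVs hVt hB W n n0 hsc hkW
  have hC1 := hC (D ^ j)⁻¹ (hinv j) (inv_le_one_of_one_le₀ (hDge1 j))
  -- the staircase polynomial
  have hn03 : 3 ≤ n0 := by
    have h1 : D ^ 2 ≤ W := by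
      rw [hW]
      exact hDmono (by omega)
    have h2 : (2 : ℝ) ^ 2 ≤ D ^ 2 := pow_le_pow_left₀ (by norm_num) hD 2
    have h3 : (3 : ℝ) ≤ n0 := by nlinarith
    exact_mod_cast h3
  obtain ⟨hB1, hB2⟩ := hBAL n0 hn03
  have hS := hGM2 D hD G hG C0 s t hs ht B hB n
  -- abbreviations
  obtain ⟨R, hR⟩ : ∃ R, R = (n : ℝ) * Real.sqrt n := ⟨_, rfl⟩
  obtain ⟨R0, hR0⟩ : ∃ R, R = (n0 : ℝ) * Real.sqrt n0 := ⟨_, rfl⟩
  obtain ⟨P, hP⟩ : ∃ P, P = closeP C0 t B n := ⟨_, rfl⟩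
  obtain ⟨P0, hP0⟩ : ∃ P, P = closeP 1 cap1 B0 n0 := ⟨_, rfl⟩
  obtain ⟨q, hq⟩ : ∃ q, q = G.rho ^ n := ⟨_, rfl⟩
  obtain ⟨q0, hq0⟩ : ∃ q : ℝ, q = (1 / 4 : ℝ) ^ n0 := ⟨_, rfl⟩
  have hRpos : 0 < R := by rw [hR]; positivity
  have hR0pos : 0 < R0 := by rw [hR0]; positivity
  have hqpos : 0 < q := by rw [hq]; exact pow_pos G.rho_pos n
  have hq0pos : 0 < q0 := by rw [hq0]; positivity
  have hPc : ∀ k, 0 ≤ P.coeff k := fun k => by
    rw [hP]; exact closeP_coeff_nonneg hs.cap.nonneg ht.cap.nonneg hB n k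
  have hRR : R ≤ D ^ (2 * j1) * R0 := by
    have h4 : Real.sqrt n ≤ D ^ j1 * Real.sqrt n0 := by
      rw [Real.sqrt_le_left (by positivity), mul_pow, Real.sq_sqrt hn0.le]
      refine hnn0.trans ?_
      have h5 : D ^ j1 ≤ (D ^ j1) ^ 2 := by
        have := hDge1 j1
        nlinarith
      gcongr
    rw [hR, hR0]
    calc (n : ℝ) * Real.sqrt n ≤ (D ^ j1 * n0) * (D ^ j1 * Real.sqrt n0) := by gcongr
      _ = D ^ (2 * j1) * ((n0 : ℝ) * Real.sqrt n0) := by rw [two_mul, pow_add]; ring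
  rw [← hP, ← hR, ← hq] at hA hS
  rw [← hP, ← hP0, ← hR0] at hC1
  rw [← hP0, ← hR0, ← hq0] at hB1
  have hB2' : c1 * R0 * P0.eval 1 ≤ P0.derivative.eval 1 := by
    rw [hR0, hP0]
    exact hB2
  rw [← hP, ← hR, ← hq]
  clear hB2 hC
  have hP01 : 0 < P0.eval 1 := by
    by_contra hcon
    have : R0 * q0 * P0.eval 1 ≤ 0 :=
      mul_nonpos_of_nonneg_of_nonpos (by positivity) (not_lt.1 hcon)
    linarith
  have hP1 : 0 < P.eval 1 := by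
    by_contra hcon
    have h5 : R * q * P.eval 1 ≤ 0 :=
      mul_nonpos_of_nonneg_of_nonpos (by positivity) (not_lt.1 hcon)
    have := hinv k1
    linarith
  -- the error
  have hqn : D ^ b ≤ qn n := by
    unfold qn
    refine Real.le_sqrt_of_sq_le (Real.le_sqrt_of_sq_le ?_)
    rw [← pow_mul, ← pow_mul]
    exact (hDmono (by omega)).trans hn
  have hqn0 : 0 < qn n := (hDpos b).trans_le hqn
  have hsW : D ^ (k1 + j + (a1 + 3)) ≤ Real.sqrt W := by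
    refine Real.le_sqrt_of_sq_le ?_
    rw [← pow_mul, hW]
    exact hDmono (by omega)
  have hsW0 : 0 < Real.sqrt W := (hDpos _).trans_le hsW
  have hdel : (D ^ (a1 + 3))⁻¹ ≤ c1 / 8 := by
    rw [pow_add, mul_inv, div_eq_mul_inv]
    have h5 : (D ^ 3)⁻¹ ≤ (8 : ℝ)⁻¹ := by
      refine inv_anti₀ (by norm_num) ?_
      calc (8 : ℝ) = 2 ^ 3 := by norm_num
        _ ≤ D ^ 3 := pow_le_pow_left₀ (by norm_num) hD 3
    exact mul_le_mul (ha1 D hD) h5 (hinv 3).le hc1.le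
  have he1 : (D * W) ^ k1 / qn n / (D ^ j)⁻¹ ≤ (D ^ (a1 + 3))⁻¹ := by
    rw [div_inv_eq_mul, div_mul_eq_mul_div, div_le_iff₀ hqn0, hDW, ← pow_add]
    calc D ^ ((1 + k) * k1 + j) = (D ^ (a1 + 3))⁻¹ * D ^ b := by
          rw [hb, pow_add D ((1 + k) * k1 + j) (a1 + 3)]
          have := (hDpos (a1 + 3)).ne'
          field_simp
      _ ≤ (D ^ (a1 + 3))⁻¹ * qn n := mul_le_mul_of_nonneg_left hqn (hinv _).le
  have he2 : D ^ k1 / Real.sqrt W / (D ^ j)⁻¹ ≤ (D ^ (a1 + 3))⁻¹ := by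
    rw [div_inv_eq_mul, div_mul_eq_mul_div, div_le_iff₀ hsW0, ← pow_add]
    calc D ^ (k1 + j) = (D ^ (a1 + 3))⁻¹ * D ^ (k1 + j + (a1 + 3)) := by
          rw [pow_add D (k1 + j) (a1 + 3)]
          have := (hDpos (a1 + 3)).ne'
          field_simp
      _ ≤ (D ^ (a1 + 3))⁻¹ * Real.sqrt W := mul_le_mul_of_nonneg_left hsW (hinv _).le
  have he3 : D ^ k1 * (D ^ j)⁻¹ = (D ^ (a1 + 3))⁻¹ := by
    rw [hj, pow_add D k1 (a1 + 3), mul_inv]
    have := (hDpos k1).ne'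
    field_simp
  have herr : ((D * W) ^ k1 / qn n + D ^ k1 / Real.sqrt W) / (D ^ j)⁻¹ + D ^ k1 * (D ^ j)⁻¹ ≤
      c1 / 2 := by
    rw [add_div, he3]
    linarith
  -- the mean
  have hY : c1 ≤ P0.derivative.eval 1 / (R0 * P0.eval 1) := by
    rw [le_div_iff₀ (by positivity), ← mul_assoc]
    exact hB2'
  have hlow := lower (A := D ^ (2 * j1)) (Dp := D ^ p) hR0pos hP1 hc1 hsg0 hhb1 hsg2 (hDpos _)
    hRR herr hC1 hY
  have hKc : (D ^ K)⁻¹ ≤ c1 / (4 * D ^ p * D ^ (2 * j1)) := by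
    rw [hK, pow_add, mul_inv, div_eq_mul_inv]
    refine mul_le_mul (ha1 D hD) (inv_anti₀ (by positivity) ?_) (hinv _).le hc1.le
    rw [pow_add, pow_add]
    have h5 : (4 : ℝ) ≤ D ^ 2 := by nlinarith
    have h6 : 0 < D ^ p * D ^ (2 * j1) := by positivity
    nlinarith
  have hmean : (D ^ K)⁻¹ * R * P.eval 1 ≤ P.derivative.eval 1 := by
    refine le_trans ?_ hlow
    gcongr
  have hup := upper hRpos hqpos hP1 (hDpos K) hmean (cs P hPc hP1) hS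
  have hK1 : ∀ {i : ℕ}, i ≤ k1 + 2 * K + m2 + 1 → (D ^ (k1 + 2 * K + m2 + 1))⁻¹ ≤ (D ^ i)⁻¹ :=
    fun {i} hi => inv_anti₀ (hDpos i) (hDmono hi)
  refine ⟨(hK1 (by omega)).trans hA, hup.trans ?_, le_trans ?_ hmean⟩
  · calc 2 * ((D ^ K) ^ 2 * D ^ m2) ≤ D * ((D ^ K) ^ 2 * D ^ m2) := by gcongr
      _ = D ^ (2 * K + m2 + 1) := by ring
      _ ≤ _ := hDmono (by omega)
  · have := hK1 (i := K) (by omega)
    gcongr

end Pool.Agent.PFS
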