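import Pool.Agent.PFS.StmtsC
import Pool.Agent.Lib_helper74.FS.CLS

/-!
# Project PFS (MP_f6626d_co), module LCL: both classes, local form
-/

set_option autoImplicit false

namespace Pool.Agent.PFS

open Finset Filter Topology MeasureTheory
open Pool.Agent.Lib27 Pool.Agent.SapR Pool.Agent.Gap Pool.Agent.AreaLaw Pool.Agent.FL
open Pool.Agent.FS
open Pool.Agent.PFW (Mp CritW)

namespace LCLx

/-- geometric sums -/
theorem geo (s : ℝ) (h0 : 0 ≤ s) (h1 : s < 1) (m : ℕ) : ∑ i ∈ range m, s ^ i ≤ 1 / (1 - s) := by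
  have h2 := (summable_geometric_of_lt_one h0 h1).sum_le_tsum (range m)
    (fun i _ => pow_nonneg h0 i)
  rw [tsum_geometric_of_lt_one h0 h1] at h2
  rw [one_div]
  exact h2

theorem one_sub_exp (f : ℝ) (hf : 0 < f) : min f 1 / 2 ≤ 1 - Real.exp (-f) := by
  have h1 : 0 < min f 1 := lt_min hf one_pos
  have h2 : min f 1 ≤ 1 := min_le_right _ _
  have h3 : Real.exp (-f) ≤ Real.exp (-(min f 1)) :=
    Real.exp_le_exp.2 (neg_le_neg (min_le_left _ _))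
  generalize min f 1 = x at h1 h2 h3 ⊢
  have h4 : Real.exp (-x) ≤ 1 / (1 + x) := by
    rw [Real.exp_neg, ← one_div]
    refine one_div_le_one_div_of_le (by linarith) ?_
    linarith [Real.add_one_le_exp x]
  have h5 : 1 / (1 + x) ≤ 1 - x / 2 := by
    rw [div_le_iff₀ (by linarith)]
    nlinarith
  linarith

theorem inv_le (f : ℝ) (hf : 0 < f) : 1 / (1 - Real.exp (-f)) ≤ Mp 2 f := by
  have h := one_sub_exp f hf
  have h1 : 0 < min f 1 := lt_min hf one_pos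
  have h2 : min f 1 ≤ 1 := min_le_right _ _
  have h3 : 1 / (1 - Real.exp (-f)) ≤ 1 / (min f 1 / 2) :=
    one_div_le_one_div_of_le (by positivity) h
  have h4 : 1 / (min f 1 / 2) = 2 / min f 1 := by
    field_simp
  have h5 : (2 : ℝ) ≤ 2 / min f 1 := by
    rw [le_div_iff₀ h1]
    linarith
  unfold Mp
  rw [h4] at h3
  push_cast
  nlinarith

/-- lower bound of the Gaussian weight near the centre -/
theorem gau_ge (n : ℕ) (hn : 1 ≤ n) (v κ h δ d c2 : ℝ) (hκ1 : (n : ℝ) ^ (-d) ≤ κ)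
    (hκ2 : κ ≤ (n : ℝ) ^ d) (hd : d ≤ 2 * c2) (hdδ : d ≤ δ)
    (hc : |h - v * n| ≤ (n : ℝ) ^ (1 / 2 - c2))
    (hN : 2 * Real.sqrt Real.pi * Real.exp 1 ≤ (n : ℝ) ^ (δ / 2)) :
    (n : ℝ) ^ (-(1 / 2) - δ) ≤ gau n v κ h := by
  have hn1 : (1 : ℝ) ≤ n := by exact_mod_cast hn
  have hn0 : (0 : ℝ) < n := by linarith
  have hκ0 : 0 < κ := lt_of_lt_of_le (Real.rpow_pos_of_pos hn0 _) hκ1
  have hsq : (h - v * n) ^ 2 ≤ κ * n := by
    have h1 : (h - v * n) ^ 2 ≤ ((n : ℝ) ^ (1 / 2 - c2)) ^ 2 := by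
      rw [← sq_abs (h - v * n)]
      exact pow_le_pow_left₀ (abs_nonneg _) hc 2
    have h2 : ((n : ℝ) ^ (1 / 2 - c2)) ^ 2 = (n : ℝ) ^ (1 - 2 * c2) := by
      rw [← Real.rpow_natCast, ← Real.rpow_mul hn0.le]
      congr 1
      push_cast
      ring
    have h3 : (n : ℝ) ^ (1 - 2 * c2) ≤ (n : ℝ) ^ (-d + 1) :=
      Real.rpow_le_rpow_of_exponent_le hn1 (by linarith)
    rw [Real.rpow_add hn0, Real.rpow_one] at h3
    have h4 : (n : ℝ) ^ (-d) * n ≤ κ * n := mul_le_mul_of_nonneg_right hκ1 hn0.le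
    linarith
  have h5 : Real.exp (-1) ≤ Real.exp (-((h - v * n) ^ 2 / (4 * κ * n))) := by
    refine Real.exp_le_exp.2 (neg_le_neg ?_)
    rw [div_le_one (by positivity)]
    nlinarith [mul_pos hκ0 hn0]
  have h6 : Real.sqrt (Real.pi * κ * n) ≤
      Real.sqrt Real.pi * ((n : ℝ) ^ (δ / 2) * (n : ℝ) ^ (1 / 2 : ℝ)) := by
    rw [Real.sqrt_le_left (by positivity), mul_pow, Real.sq_sqrt Real.pi_pos.le, mul_pow,
      ← Real.rpow_natCast, ← Real.rpow_mul hn0.le, ← Real.rpow_natCast, ← Real.rpow_mul hn0.le]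
    have h7 : (n : ℝ) ^ (1 / 2 * ((2 : ℕ) : ℝ)) = n := by
      rw [show (1 / 2 * ((2 : ℕ) : ℝ)) = 1 by norm_num, Real.rpow_one]
    have h8 : (n : ℝ) ^ (δ / 2 * ((2 : ℕ) : ℝ)) = (n : ℝ) ^ δ := by
      congr 1
      push_cast
      ring
    rw [h7, h8]
    have h9 : κ ≤ (n : ℝ) ^ δ := hκ2.trans (Real.rpow_le_rpow_of_exponent_le hn1 hdδ)
    have h10 : Real.pi * κ ≤ Real.pi * (n : ℝ) ^ δ :=
      mul_le_mul_of_nonneg_left h9 Real.pi_pos.le
    nlinarith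
  unfold gau
  have hpos : 0 < 2 * Real.sqrt (Real.pi * κ * n) := by
    have := Real.pi_pos
    positivity
  rw [le_div_iff₀ hpos]
  refine le_trans ?_ h5
  have h7 : (n : ℝ) ^ (-(1 / 2) - δ) * (2 * Real.sqrt (Real.pi * κ * n)) ≤
      (n : ℝ) ^ (-(1 / 2) - δ) *
        (2 * (Real.sqrt Real.pi * ((n : ℝ) ^ (δ / 2) * (n : ℝ) ^ (1 / 2 : ℝ)))) :=
    mul_le_mul_of_nonneg_left (by linarith) (Real.rpow_nonneg hn0.le _)
  refine h7.trans ?_
  have h8 : (n : ℝ) ^ (-(1 / 2) - δ) *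
        (2 * (Real.sqrt Real.pi * ((n : ℝ) ^ (δ / 2) * (n : ℝ) ^ (1 / 2 : ℝ)))) =
      2 * Real.sqrt Real.pi * (n : ℝ) ^ (-(δ / 2)) := by
    have h9 : (n : ℝ) ^ (-(1 / 2) - δ) * ((n : ℝ) ^ (δ / 2) * (n : ℝ) ^ (1 / 2 : ℝ)) =
        (n : ℝ) ^ (-(δ / 2)) := by
      rw [← Real.rpow_add hn0, ← Real.rpow_add hn0]
      congr 1
      ring
    rw [← h9]
    ring
  rw [h8, Real.rpow_neg hn0.le, Real.exp_neg, ← div_eq_mul_inv,
    div_le_iff₀ (Real.rpow_pos_of_pos hn0 _), inv_mul_eq_div, le_div_iff₀ (Real.exp_pos 1)]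
  exact hN

theorem mm_pos (b : Bool) (n h : ℕ) (hh : h ≤ n) : 0 < CLS.mm b n h := by
  cases b with
  | true => exact Nat.one_pos
  | false =>
    show 0 < n + 1 - h
    omega

theorem gau_nonneg (n : ℕ) (v κ h : ℝ) : 0 ≤ gau n v κ h := by
  unfold gau
  positivity

theorem V_eq (n : ℕ) (s : ℝ) (k : ℕ) (eps : ℝ) :
    CLS.V n s k (fun q => Real.exp (-(eps * arq n q))) = Th n s k eps := rfl

theorem Zq_nonneg (n : ℕ) (s : ℝ) (hs : 0 ≤ s) : 0 ≤ Zq n s :=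
  Finset.sum_nonneg fun _ _ => pow_nonneg hs _

end LCLx

open LCLx in
theorem t_LCL (h1 : LLP_Stmt) (h2 : FFA_Stmt) (h3 : SECM_Stmt) (h4 : CENS_Stmt)
    (h5 : CENT_Stmt) (h6 : SLOWN_Stmt) (_h7 : FL.HG_Stmt) : LCL_Stmt := by
  classical
  intro f1
  obtain ⟨c1, hc1, hL⟩ := h1 f1
  obtain ⟨δ0, c2, hδ0, hc2, NC, hC⟩ := h5 c1 hc1
  refine ⟨c1 / 2, by positivity, fun δ hδ => ?_⟩
  obtain ⟨d, hd⟩ : ∃ d, d = min δ0 (min δ (min (2 * c2) (c1 / 4))) := ⟨_, rfl⟩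
  have hd0 : 0 < d := by
    rw [hd]
    exact lt_min hδ0 (lt_min hδ (lt_min (by positivity) (by positivity)))
  have hdδ0 : d ≤ δ0 := by rw [hd]; exact min_le_left _ _
  have hdδ : d ≤ δ := by
    rw [hd]
    exact (min_le_right _ _).trans (min_le_left _ _)
  have hdc2 : d ≤ 2 * c2 := by
    rw [hd]
    exact (min_le_right _ _).trans ((min_le_right _ _).trans (min_le_left _ _))
  have hdc1 : d ≤ c1 / 4 := by
    rw [hd]
    exact (min_le_right _ _).trans ((min_le_right _ _).trans (min_le_right _ _))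
  obtain ⟨ca, hca, Na, hA⟩ := hL d hd0
  obtain ⟨cb, hcb, Nb, hB⟩ := h2 d hd0
  obtain ⟨cc, hcc, Nc, hSe⟩ := h3 d hd0
  obtain ⟨cd, hcd, Nd, hCe⟩ := h4
  obtain ⟨ce, hce, Ne, hSl⟩ := h6 2 1 le_rfl d hd0
  have hlim : Tendsto (fun n : ℕ => (n : ℝ) ^ (δ / 2)) atTop atTop :=
    (tendsto_rpow_atTop (by positivity)).comp tendsto_natCast_atTop_atTop
  obtain ⟨Nf, hNf⟩ := eventually_atTop.1
    (hlim.eventually_ge_atTop (2 * Real.sqrt Real.pi * Real.exp 1))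
  refine ⟨min ca (min cb (min cc (min cd ce))),
    lt_min hca (lt_min hcb (lt_min hcc (lt_min hcd hce))),
    max 1 (max NC (max Na (max Nb (max Nc (max Nd (max Ne Nf)))))), ?_⟩
  intro n hn f hf hf1 h hh hcen b
  simp only [max_le_iff] at hn
  obtain ⟨hn1, hnC, hna, hnb, hnc, hnd, hne, hnf⟩ := hn
  have hnR : (1 : ℝ) ≤ n := by exact_mod_cast hn1
  have hn0 : (0 : ℝ) < n := by linarith
  have hfa := win_mono (min_le_left ca _) hn1 hf
  have hf' := win_mono (min_le_right ca _) hn1 hf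
  have hfb := win_mono (min_le_left cb _) hn1 hf'
  have hf'' := win_mono (min_le_right cb _) hn1 hf'
  have hfc := win_mono (min_le_left cc _) hn1 hf''
  have hf''' := win_mono (min_le_right cc _) hn1 hf''
  have hfd := win_mono (min_le_left cd _) hn1 hf'''
  have hfe := win_mono (min_le_right cd _) hn1 hf'''
  obtain ⟨hf0, ρ, D, hρ1, hρ2, hcrit, -, -, -, hlow, -, -⟩ := hB n hnb f hfb
  obtain ⟨v, κ, hv1, hv2, hκ1, hκ2, hLL⟩ := hA n hna f hfa hf1 ρ hcrit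
  have hsec := hSe n hnc f hfc h hcen
  have hcens := hCe n hnd f hfd h (Nat.cast_nonneg h) (by exact_mod_cast hh) hcen
  have hslow := (hSl n hne f hfe).2
  rw [pow_one] at hslow
  obtain ⟨s, hs⟩ : ∃ s, s = Real.exp (-f) := ⟨_, rfl⟩
  have hs0 : 0 < s := by rw [hs]; exact Real.exp_pos _
  have hs1 : s < 1 := by
    rw [hs, Real.exp_lt_one_iff]
    linarith
  have hρ0 : 0 < ρ := by linarith
  have hZ0 : 0 ≤ Zq n s := Zq_nonneg n s hs0.le
  have hmono : ∀ a b : ℝ, a ≤ b → (n : ℝ) ^ a ≤ (n : ℝ) ^ b := fun a b hab =>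
    Real.rpow_le_rpow_of_exponent_le hnR hab
  have hctr : |(h : ℝ) - v * n| ≤ (n : ℝ) ^ (1 / 2 - c2) := by
    refine hC n hnC f ρ v κ hρ0 ((hmono _ _ (by linarith)).trans hlow)
      ((hmono _ _ (by linarith)).trans hv1) hv2 ((hmono _ _ (by linarith)).trans hκ1)
      (hκ2.trans (hmono _ _ hdδ0)) hLL h hh (hsec.trans ?_) hcens
    rw [← hs]
    exact mul_le_mul_of_nonneg_right (hmono _ _ (by linarith)) hZ0
  rw [← hs] at hlow ⊢
  unfold LLat at hLL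
  rw [← hs] at hLL
  have hsc : 0 < sc n * ρ ^ n := by
    unfold sc
    have := Real.sqrt_pos.2 hn0
    positivity
  -- the error for one span
  have herr : ∀ (k : ℕ) (eps : ℝ), 0 ≤ eps → eps * (2 * n + 2) ≤ 1 →
      |Th n s k eps - gau n v κ k * Ta n s eps| ≤ (n : ℝ) ^ (-(1 / 2) - c1 + d) * Zq n s := by
    intro k eps he1 he2
    have e1 := hLL k eps he1 he2
    rw [abs_mul, abs_of_pos hsc] at e1
    have e2 : |Th n s k eps - gau n v κ k * Ta n s eps| ≤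
        (n : ℝ) ^ (-(1 / 2) - c1) / (sc n * ρ ^ n) := by
      rw [le_div_iff₀ hsc, mul_comm]
      exact e1
    refine e2.trans ?_
    rw [div_le_iff₀ hsc, Real.rpow_add hn0]
    have e3 : 1 ≤ (n : ℝ) ^ d * (sc n * ρ ^ n * Zq n s) := by
      have e4 : (n : ℝ) ^ d * (n : ℝ) ^ (-d) ≤ (n : ℝ) ^ d * (sc n * ρ ^ n * Zq n s) :=
        mul_le_mul_of_nonneg_left hlow (Real.rpow_nonneg hn0.le _)
      rwa [← Real.rpow_add hn0, add_neg_cancel, Real.rpow_zero] at e4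
    have e5 : (n : ℝ) ^ (-(1 / 2) - c1) * 1 ≤
        (n : ℝ) ^ (-(1 / 2) - c1) * ((n : ℝ) ^ d * (sc n * ρ ^ n * Zq n s)) :=
      mul_le_mul_of_nonneg_left e3 (Real.rpow_nonneg hn0.le _)
    rw [mul_one] at e5
    refine e5.trans (le_of_eq ?_)
    ring
  refine ⟨∑ i ∈ range (CLS.mm b n h), s ^ i * gau n v κ ((h + i : ℕ) : ℝ), ?_, ?_⟩
  · have e1 := gau_ge n hn1 v κ h δ d c2 hκ1 hκ2 hdc2 hdδ hctr (hNf n hnf)
    refine e1.trans ?_
    have e2 := Finset.single_le_sum (f := fun i => s ^ i * gau n v κ ((h + i : ℕ) : ℝ))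
      (fun i _ => mul_nonneg (pow_nonneg hs0.le i) (gau_nonneg _ _ _ _))
      (mem_range.2 (mm_pos b n h hh))
    simpa using e2
  · intro eps he1 he2
    have e0 := CLS.W_eq n h s b (fun q => Real.exp (-(eps * arq n q)))
    rw [e0, Finset.sum_mul, ← Finset.sum_sub_distrib]
    have hE0 : 0 ≤ (n : ℝ) ^ (-(1 / 2) - c1 + d) * Zq n s :=
      mul_nonneg (Real.rpow_nonneg hn0.le _) hZ0
    calc |∑ i ∈ range (CLS.mm b n h), (s ^ i * CLS.V n s (h + i)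
            (fun q => Real.exp (-(eps * arq n q))) -
          s ^ i * gau n v κ ((h + i : ℕ) : ℝ) * Ta n s eps)|
        ≤ ∑ i ∈ range (CLS.mm b n h), s ^ i * ((n : ℝ) ^ (-(1 / 2) - c1 + d) * Zq n s) := by
          refine (Finset.abs_sum_le_sum_abs _ _).trans (Finset.sum_le_sum fun i _ => ?_)
          rw [V_eq, mul_assoc, ← mul_sub, abs_mul, abs_of_nonneg (pow_nonneg hs0.le i)]
          exact mul_le_mul_of_nonneg_left (herr (h + i) eps he1 he2) (pow_nonneg hs0.le i)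
      _ = (∑ i ∈ range (CLS.mm b n h), s ^ i) * ((n : ℝ) ^ (-(1 / 2) - c1 + d) * Zq n s) := by
          rw [Finset.sum_mul]
      _ ≤ (n : ℝ) ^ d * ((n : ℝ) ^ (-(1 / 2) - c1 + d) * Zq n s) := by
          refine mul_le_mul_of_nonneg_right ?_ hE0
          refine (geo s hs0.le hs1 _).trans ?_
          rw [hs]
          exact (inv_le f hf0).trans hslow
      _ = (n : ℝ) ^ (d + (-(1 / 2) - c1 + d)) * Zq n s := by
          rw [← mul_assoc, ← Real.rpow_add hn0]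
      _ ≤ (n : ℝ) ^ (-(1 / 2) - c1 / 2) * Zq n s :=
          mul_le_mul_of_nonneg_right (hmono _ _ (by linarith)) hZ0

end Pool.Agent.PFS
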