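import Pool.Agent.PFS.StmtsC

/-!
# LIPL: Lipschitz functions from Laplace transforms at the integers (helper94)
-/

open Filter Topology Finset

namespace Pool.Agent.PFS

theorem LIPL_pt (φ : ℝ → ℝ) (h1 : ∀ a, |φ a| ≤ 1) (R : ℝ) (hR : 0 < R) (x : ℝ) (hx : 0 ≤ x) :
    |φ x - φ (min x R)| ≤ 2 * x / R := by
  rcases le_total x R with h | h
  · rw [min_eq_left h, sub_self, abs_zero]
    positivity
  · have h2 : |φ x - φ (min x R)| ≤ 2 := by
      have ha := abs_le.1 (h1 x)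
      have hb := abs_le.1 (h1 (min x R))
      rw [abs_le]
      constructor <;> linarith [ha.1, ha.2, hb.1, hb.2]
    refine h2.trans ?_
    rw [le_div_iff₀ hR]
    linarith

/-- the polynomial -/
theorem LIPL_poly (φ : ℝ → ℝ) (h1 : ∀ a, |φ a| ≤ 1) (h2 : LipschitzWith 1 φ) (R : ℝ)
    (hR : 0 < R) (ε : ℝ) (hε : 0 < ε) :
    ∃ p : Polynomial ℝ, ∀ x : ℝ, 0 ≤ x → |φ x - p.eval (Real.exp (-x))| ≤ ε + 2 * x / R := by
  have hc : Continuous (fun u : ℝ => φ (-Real.log (max u (Real.exp (-R))))) := by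
    refine h2.continuous.comp (Continuous.neg ?_)
    refine Continuous.log (continuous_id.max continuous_const) (fun u => ?_)
    exact (lt_of_lt_of_le (Real.exp_pos _) (le_max_right _ _)).ne'
  obtain ⟨p, hp⟩ := exists_polynomial_near_of_continuousOn 0 1 _ hc.continuousOn ε hε
  refine ⟨p, fun x hx => ?_⟩
  have h3 := hp (Real.exp (-x)) ⟨(Real.exp_pos _).le, by
    rw [← Real.exp_zero]; exact Real.exp_le_exp.2 (by linarith)⟩
  have h4 : -Real.log (max (Real.exp (-x)) (Real.exp (-R))) = min x R := by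
    rw [← Real.exp_monotone.map_max, Real.log_exp, max_neg_neg, neg_neg]
  simp only [h4] at h3
  have h5 := LIPL_pt φ h1 R hR x hx
  have h6 : φ x - p.eval (Real.exp (-x)) =
      (φ x - φ (min x R)) - (p.eval (Real.exp (-x)) - φ (min x R)) := by ring
  rw [h6]
  calc |(φ x - φ (min x R)) - (p.eval (Real.exp (-x)) - φ (min x R))|
      ≤ |φ x - φ (min x R)| + |p.eval (Real.exp (-x)) - φ (min x R)| := abs_sub _ _
    _ ≤ 2 * x / R + ε := add_le_add h5 h3.le
    _ = ε + 2 * x / R := by ring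

/-- one side -/
theorem LIPL_side {α : Type} (P : Finset α) (w S : α → ℝ) (hw : ∀ x, 0 ≤ w x)
    (hS : ∀ x, 0 ≤ S x) (h1 : ∑ x ∈ P, w x = 1) (C : ℝ) (hC : ∑ x ∈ P, w x * S x ≤ C)
    (φ g : ℝ → ℝ) (ε R : ℝ) (hR : 0 < R)
    (h : ∀ x : ℝ, 0 ≤ x → |φ x - g x| ≤ ε + 2 * x / R) :
    |∑ x ∈ P, w x * φ (S x) - ∑ x ∈ P, w x * g (S x)| ≤ ε + 2 * C / R := by
  rw [← sum_sub_distrib]
  calc |∑ x ∈ P, (w x * φ (S x) - w x * g (S x))|
      ≤ ∑ x ∈ P, |w x * φ (S x) - w x * g (S x)| := abs_sum_le_sum_abs _ _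
    _ ≤ ∑ x ∈ P, (ε * w x + 2 / R * (w x * S x)) := by
        refine sum_le_sum (fun x _ => ?_)
        rw [← mul_sub, abs_mul, abs_of_nonneg (hw x)]
        calc w x * |φ (S x) - g (S x)| ≤ w x * (ε + 2 * S x / R) :=
              mul_le_mul_of_nonneg_left (h _ (hS x)) (hw x)
          _ = ε * w x + 2 / R * (w x * S x) := by ring
    _ = ε + 2 / R * ∑ x ∈ P, w x * S x := by
        rw [sum_add_distrib, ← mul_sum, ← mul_sum, h1, mul_one]
    _ ≤ ε + 2 / R * C := by
        have : 0 ≤ 2 / R := by positivity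
        gcongr
    _ = ε + 2 * C / R := by ring

theorem t_LIPL : LIPL_Stmt := by
  intro α β P Q w S v T hw hv hS hT hP hQ hC hL φ h1 h2
  obtain ⟨C, hC⟩ := hC
  rw [Metric.tendsto_atTop]
  intro e he
  set D : ℝ := |C| + 1 with hD
  have hDpos : 0 < D := by positivity
  set R : ℝ := 16 * D / e with hRdef
  have hR : 0 < R := by positivity
  obtain ⟨p, hp⟩ := LIPL_poly φ h1 h2 R hR (e / 8) (by positivity)
  have hlim : Tendsto (fun n => ∑ x ∈ Q n, v n x * p.eval (Real.exp (-(T n x))) -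
      ∑ x ∈ P n, w n x * p.eval (Real.exp (-(S n x)))) atTop (𝓝 0) := by
    have h3 : Tendsto (fun n => ∑ j ∈ range (p.natDegree + 1), p.coeff j *
        (∑ x ∈ Q n, v n x * Real.exp (-(j * T n x)) -
          ∑ x ∈ P n, w n x * Real.exp (-(j * S n x)))) atTop (𝓝 0) := by
      have h4 := tendsto_finsetSum (range (p.natDegree + 1))
        (fun j _ => (hL j).const_mul (p.coeff j))
      simpa using h4
    refine h3.congr (fun n => ?_)
    have key : ∀ {γ : Type} (F : Finset γ) (a b : γ → ℝ),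
        ∑ x ∈ F, a x * p.eval (Real.exp (-(b x))) =
          ∑ j ∈ range (p.natDegree + 1), p.coeff j *
            ∑ x ∈ F, a x * Real.exp (-(j * b x)) := by
      intro γ F a b
      simp_rw [Polynomial.eval_eq_sum_range, mul_sum]
      rw [sum_comm]
      refine sum_congr rfl (fun j _ => sum_congr rfl (fun x _ => ?_))
      have : Real.exp (-(j * b x)) = Real.exp (-(b x)) ^ j := by
        rw [← Real.exp_nat_mul]; congr 1; ring
      rw [this]; ring
    rw [key, key, ← sum_sub_distrib]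
    exact sum_congr rfl (fun j _ => by ring)
  rw [Metric.tendsto_atTop] at hlim
  obtain ⟨N1, hN1⟩ := hlim (e / 4) (by positivity)
  obtain ⟨N2, hN2⟩ := eventually_atTop.1 (hP.and (hQ.and hC))
  refine ⟨max N1 N2, fun n hn => ?_⟩
  have hn1 : N1 ≤ n := (le_max_left _ _).trans hn
  have hn2 : N2 ≤ n := (le_max_right _ _).trans hn
  obtain ⟨hPn, hQn, hCP, hCQ⟩ := hN2 n hn2
  have hCD : C ≤ D := by rw [hD]; linarith [le_abs_self C]
  have hA := LIPL_side (P n) (w n) (S n) (hw n) (hS n) hPn D (hCP.trans hCD) φ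
    (fun x => p.eval (Real.exp (-x))) (e / 8) R hR hp
  have hB := LIPL_side (Q n) (v n) (T n) (hv n) (hT n) hQn D (hCQ.trans hCD) φ
    (fun x => p.eval (Real.exp (-x))) (e / 8) R hR hp
  have hE := hN1 n hn1
  rw [Real.dist_eq, sub_zero] at hE ⊢
  have hRR : 2 * D / R = e / 8 := by
    rw [hRdef]; field_simp; norm_num
  rw [hRR] at hA hB
  have a1 := abs_le.1 hA
  have b1 := abs_le.1 hB
  have e1 := abs_lt.1 hE
  rw [abs_lt]
  constructor <;> linarith [a1.1, a1.2, b1.1, b1.2, e1.1, e1.2]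

end Pool.Agent.PFS
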