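import Pool.Agent.PFS.StmtsB
import Pool.Agent.Lib_helper24.Gap.J1
import Pool.Agent.Lib_helper89.FL.FinB

/-!
# Project PFS (MP_f6626d_co), module LLAW: the local law of the span
-/

set_option autoImplicit false

namespace Pool.Agent.PFS

open Finset Pool.Agent.Lib27 Pool.Agent.SapR Pool.Agent.Gap Pool.Agent.FL Pool.Agent.EXW Filter
  Topology Pool.Agent.AreaLaw Pool.Agent.FS
open Pool.Agent.PFW (Mp)

namespace LLAWx

section Model

lemma sp_le (hg : FL.HG_Stmt) (n : ℕ) (q : QI) (hq : q ∈ Omn n) : sp q ≤ n := height_le hg n q hq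

lemma Th_zero (hg : FL.HG_Stmt) (n : ℕ) (s eps : ℝ) (h : ℕ) (hn : n < h) : Th n s h eps = 0 := by
  unfold Th
  apply sum_eq_zero
  intro q hq
  rw [mem_filter] at hq
  have := sp_le hg n q hq.1
  omega

lemma sum_Th (hg : FL.HG_Stmt) (n : ℕ) (s eps : ℝ) :
    ∑ h ∈ range (n + 1), Th n s h eps = Ta n s eps := by
  unfold Th Ta
  exact sum_fiberwise_of_maps_to
    (fun q hq => mem_range.2 (Nat.lt_succ_of_le (sp_le hg n q hq))) _

lemma sum_Th_ph (hg : FL.HG_Stmt) (n : ℕ) (s eps θ v : ℝ) :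
    ∑ h ∈ range (n + 1), ((Th n s h eps : ℝ) : ℂ) * ph θ v (n, h) = ZT n s θ v eps := by
  unfold ZT
  rw [← sum_fiberwise_of_maps_to (g := sp)
    (fun q hq => mem_range.2 (Nat.lt_succ_of_le (sp_le hg n q hq)))]
  apply sum_congr rfl
  intro h _
  unfold Th
  rw [Complex.ofReal_sum, sum_mul]
  apply sum_congr rfl
  intro q hq
  rw [(mem_filter.1 hq).2]

lemma ZT_zero (n : ℕ) (s v eps : ℝ) : ZT n s 0 v eps = ((Ta n s eps : ℝ) : ℂ) := by
  unfold ZT Ta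
  rw [Complex.ofReal_sum]
  apply sum_congr rfl
  intro q _
  rw [ph_zero, mul_one]

lemma capP_zero (n : ℕ) (s v : ℝ) :
    capP n s 0 v = fun m g => ((capW n s m g : ℝ) : ℂ) := by
  funext m g
  unfold capP capW
  split_ifs
  · rw [Complex.ofReal_sum]
    apply sum_congr rfl
    intro T _
    rw [ph_zero, mul_one]
  · simp

lemma wtq_nonneg {n : ℕ} {s : ℝ} (hs : 0 < s) (q : QI) : 0 ≤ wtq n s q := pow_nonneg hs.le _

lemma Ta_nonneg (n : ℕ) {s : ℝ} (hs : 0 < s) (eps : ℝ) : 0 ≤ Ta n s eps :=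
  sum_nonneg fun q _ => mul_nonneg (wtq_nonneg hs q) (Real.exp_pos _).le

lemma Ta_eq_Zq (n : ℕ) (s : ℝ) : Ta n s 0 = Zq n s := by
  unfold Ta Zq
  apply sum_congr rfl
  intro q _
  rw [zero_mul, neg_zero, Real.exp_zero, mul_one]

end Model

section Arrays

lemma arrT_of_arr {G : GapKernel} {s : ℕ → ℤ → ℝ} {eps : ℝ} {N : ℕ} {b : ℕ → ℤ → ℝ}
    (h : IsArr G s eps N b) {p : ℕ × ℕ → ℂ} (hp : ∀ i, p i = 1) :
    IsArrT G p (fun m g => ((s m g : ℝ) : ℂ)) eps N (fun m g => ((b m g : ℝ) : ℂ)) where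
  zero := by
    intro n g hg
    rw [h.zero n g hg, Complex.ofReal_zero]
  step := by
    intro n g h1 h2
    rw [h.step n g h1 h2, Complex.ofReal_add, Complex.ofReal_sum]
    congr 1
    apply sum_congr rfl
    intro i _
    split_ifs
    · rw [Complex.ofReal_sum]
      apply sum_congr rfl
      intro g' _
      rw [hp, one_mul, Complex.ofReal_mul]
    · simp

lemma closec_cast (C0 : ℕ) (t b : ℕ → ℤ → ℝ) (n : ℕ) :
    closec C0 (fun m g => ((t m g : ℝ) : ℂ)) (fun m g => ((b m g : ℝ) : ℂ)) n =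
      ((close C0 t b n : ℝ) : ℂ) := by
  unfold closec close
  rw [Complex.ofReal_sum]
  apply sum_congr rfl
  intro m _
  rw [Complex.ofReal_sum]
  apply sum_congr rfl
  intro g _
  rw [Complex.ofReal_mul]

lemma close_eq (h3 : BTW_Stmt) {n : ℕ} (hn : 2 ≤ n) (f : ℝ) {eps : ℝ} (heps : 0 ≤ eps)
    {b : ℕ → ℤ → ℝ} (hb : IsArr (Kf n f) (capW n (Real.exp (-f))) eps (2 * n) b) :
    close (2 * n) (capW n (Real.exp (-f))) b n = Ta n (Real.exp (-f)) eps := by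
  have h1 := h3 n (Real.exp (-f)) (Real.exp_pos _) 0 0 eps hn heps (2 * n) le_rfl
    (fun m g => ((b m g : ℝ) : ℂ)) (by
      rw [capP_zero]
      exact arrT_of_arr hb (fun i => ph_zero 0 i))
  rw [capP_zero, closec_cast, ZT_zero] at h1
  exact_mod_cast h1

/-- the closed arrays with phases -/
lemma low_bound (h2 : BCP_Stmt) (h3 : BTW_Stmt) (h8 : TJ1_Stmt) {K0 K1 : ℕ}
    (hT : ∀ (D W : ℝ) (G : GapKernel) (v κ θ : ℝ) (n : ℕ),
      ScT K0 D W G v κ θ n → ∀ (C0 : ℕ) (s t : ℕ → ℤ → ℝ) (cs ct : ℕ → ℤ → ℂ),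
      CapT D θ G C0 s cs → CapT D θ G C0 t ct → ∀ (N : ℕ) (eps : ℝ), 0 ≤ eps → C0 ≤ N →
      ∀ (b : ℕ → ℤ → ℝ) (bt : ℕ → ℤ → ℂ), IsArr G s eps N b → IsArrT G (ph θ v) cs eps N bt →
      ((n : ℝ) * Real.sqrt n) * G.rho ^ n *
        ‖closec C0 ct bt n - (Real.exp (-(κ * θ ^ 2 * n)) : ℂ) * ((close C0 t b n : ℝ) : ℂ)‖ ≤
        (D * W) ^ K1 / qn n + D ^ K1 / Real.sqrt W)
    {n : ℕ} (hn : 2 ≤ n) {f D W θ : ℝ} (hS : ScT K0 D W (Kf n f) (vf n f) (kf n f) θ n)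
    (hC : ClsCap D (1 - D⁻¹) (Kf n f) (2 * n) (capW n (Real.exp (-f))))
    (hv0 : 0 ≤ vf n f) (hv1 : vf n f ≤ 1) {eps : ℝ} (heps : 0 ≤ eps) :
    sc n * (Kf n f).rho ^ n * ‖ZT n (Real.exp (-f)) θ (vf n f) eps -
      (Real.exp (-(kf n f * θ ^ 2 * n)) : ℂ) * ((Ta n (Real.exp (-f)) eps : ℝ) : ℂ)‖ ≤
      (D * W) ^ K1 / qn n + D ^ K1 / Real.sqrt W := by
  have hcap : CapT D θ (Kf n f) (2 * n) (capW n (Real.exp (-f)))
      (capP n (Real.exp (-f)) θ (vf n f)) :=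
    ⟨hC, fun m g => (h2 n _ θ (vf n f) (Real.exp_pos _) hv0 hv1 m g).1,
      fun m g => (h2 n _ θ (vf n f) (Real.exp_pos _) hv0 hv1 m g).2⟩
  obtain ⟨b, hb⟩ := (J1 (Kf n f) (2 * n) (capW n (Real.exp (-f))) hC.cap (2 * n) eps heps).1
  obtain ⟨bt, hbt⟩ := (h8 (Kf n f) (ph θ (vf n f)) (fun i => (norm_ph θ (vf n f) i).le) (2 * n)
    (capW n (Real.exp (-f))) (capP n (Real.exp (-f)) θ (vf n f)) hC.cap hcap.le (2 * n) eps
    heps).1
  have h4 := hT D W (Kf n f) (vf n f) (kf n f) θ n hS (2 * n) _ _ _ _ hcap hcap (2 * n) eps heps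
    le_rfl b bt hb hbt
  rw [close_eq h3 hn f heps hb,
    h3 n (Real.exp (-f)) (Real.exp_pos _) θ (vf n f) eps hn heps (2 * n) le_rfl bt hbt] at h4
  exact h4

/-- the upper bound for the total weight -/
lemma up_bound (h3 : BTW_Stmt) {KU : ℕ}
    (hU : ∀ (D : ℝ) (G : GapKernel), 2 ≤ D → Cls D (1 - D⁻¹) G →
      ∀ (C0 : ℕ) (s t : ℕ → ℤ → ℝ), ClsCap D (1 - D⁻¹) G C0 s → ClsCap D (1 - D⁻¹) G C0 t →
      ∀ (N : ℕ) (eps : ℝ), 0 ≤ eps → C0 ≤ N → ∀ b : ℕ → ℤ → ℝ, IsArr G s eps N b →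
      ∀ n : ℕ, 1 ≤ n → ((n : ℝ) * Real.sqrt n) * G.rho ^ n * close C0 t b n ≤ D ^ KU)
    {n : ℕ} (hn : 2 ≤ n) {f D : ℝ} (hD : 2 ≤ D) (hG : Cls D (1 - D⁻¹) (Kf n f))
    (hC : ClsCap D (1 - D⁻¹) (Kf n f) (2 * n) (capW n (Real.exp (-f)))) {eps : ℝ}
    (heps : 0 ≤ eps) :
    sc n * (Kf n f).rho ^ n * Ta n (Real.exp (-f)) eps ≤ D ^ KU := by
  obtain ⟨b, hb⟩ := (J1 (Kf n f) (2 * n) (capW n (Real.exp (-f))) hC.cap (2 * n) eps heps).1
  have h4 := hU D (Kf n f) hD hG (2 * n) _ _ hC hC (2 * n) eps heps le_rfl b hb n (by omega)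
  rw [close_eq h3 hn f heps hb] at h4
  exact h4

end Arrays

section Numbers

lemma ev_ge (C : ℝ) {y : ℝ} (hy : 0 < y) : ∃ N : ℕ, ∀ n : ℕ, N ≤ n → C ≤ (n : ℝ) ^ y := by
  have h1 : Tendsto (fun n : ℕ => (n : ℝ) ^ y) atTop atTop :=
    (tendsto_rpow_atTop hy).comp tendsto_natCast_atTop_atTop
  obtain ⟨N, hN⟩ := Filter.eventually_atTop.1 (h1.eventually_ge_atTop C)
  exact ⟨N, hN⟩

lemma ev_exp {y : ℝ} (hy : 0 < y) : ∃ N : ℕ, ∀ n : ℕ, N ≤ n →
    (n : ℝ) ^ (3 : ℝ) * Real.exp (-(1 / 2 * (n : ℝ) ^ y)) ≤ 1 / 8 := by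
  have h1 : Tendsto (fun n : ℕ => (n : ℝ) ^ y) atTop atTop :=
    (tendsto_rpow_atTop hy).comp tendsto_natCast_atTop_atTop
  have h2 := (tendsto_rpow_mul_exp_neg_mul_atTop_nhds_zero (3 / y) (1 / 2) (by norm_num)).comp h1
  obtain ⟨N, hN⟩ := Filter.eventually_atTop.1
    (h2.eventually (eventually_le_nhds (show (0 : ℝ) < 1 / 8 by norm_num)))
  refine ⟨N, fun n hn => ?_⟩
  have h3 := hN n hn
  simp only [Function.comp_apply] at h3
  rw [← Real.rpow_mul (Nat.cast_nonneg n), mul_div_cancel₀ _ hy.ne'] at h3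
  rw [neg_mul] at h3
  exact h3

lemma Mp_le {A : ℕ} (hA : 2 ≤ A) {β : ℝ} (hβ : 0 < β) : ∃ N : ℕ, ∀ n : ℕ, N ≤ n → ∀ f : ℝ,
    (n : ℝ) ^ (-(β / (2 * A))) ≤ f → Mp A f ≤ (n : ℝ) ^ β := by
  obtain ⟨N, hN⟩ := ev_ge ((A : ℝ) ^ A) (half_pos hβ)
  refine ⟨max N 1, fun n hn f hf => ?_⟩
  have hn1 : (1 : ℝ) ≤ n := by exact_mod_cast (le_max_right N 1).trans hn
  have hn0 : (0 : ℝ) < n := by linarith
  have hA0 : (0 : ℝ) < A := by positivity
  have h1 := hN n ((le_max_left N 1).trans hn)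
  set y : ℝ := (n : ℝ) ^ (-(β / (2 * A))) with hy
  have hy0 : 0 < y := Real.rpow_pos_of_pos hn0 _
  have hy1 : y ≤ 1 := Real.rpow_le_one_of_one_le_of_nonpos hn1 (by
    have : 0 < β / (2 * A) := by positivity
    linarith)
  have h2 : y ≤ min f 1 := le_min hf hy1
  unfold Mp
  calc ((A : ℝ) / min f 1) ^ A ≤ (A / y) ^ A :=
        pow_le_pow_left₀ (div_nonneg hA0.le (hy0.le.trans h2))
          (div_le_div_of_nonneg_left hA0.le hy0 h2) _
    _ = (A : ℝ) ^ A * (n : ℝ) ^ (β / 2) := by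
        rw [div_pow, div_eq_mul_inv, ← inv_pow, hy, ← Real.rpow_neg hn0.le, neg_neg,
          ← Real.rpow_natCast ((n : ℝ) ^ (β / (2 * A))) A, ← Real.rpow_mul hn0.le]
        congr 2
        field_simp
    _ ≤ (n : ℝ) ^ (β / 2) * (n : ℝ) ^ (β / 2) :=
        mul_le_mul_of_nonneg_right h1 (Real.rpow_nonneg hn0.le _)
    _ = (n : ℝ) ^ β := by
        rw [← Real.rpow_add hn0]
        congr 1
        ring

/-- the final comparison of the numbers -/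
lemma final {x a D κ W θ1 q : ℝ} {k0 k1 kb ku k : ℕ} (hk0 : k0 ≤ k) (hk1 : k1 ≤ k) (hkb : kb ≤ k)
    (hku : ku ≤ k) (hx : 1 ≤ x) (ha : a = 1 / (16 * ((k : ℝ) + 1))) (hD1 : 1 ≤ D)
    (hD : D ≤ x ^ (a / (100 * ((k : ℝ) + 1)))) (hκ : D⁻¹ ≤ κ) (hW : W = x ^ a)
    (hθ : θ1 = x ^ (-(1 / 2) + a / 8)) (hq : q = x ^ ((1 : ℝ) / 4)) (h4 : 4 ≤ x ^ (a / 5))
    (he : x ^ (3 : ℝ) * Real.exp (-(1 / 2 * x ^ (a / 5))) ≤ 1 / 8) :
    2 ≤ W ∧ (D * W) ^ k0 ≤ x ∧ (θ1 ^ 2 * x * D ^ k0 ≤ W) ∧ 0 < θ1 ∧ θ1 ≤ 1 ∧ D ^ kb ≤ x ∧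
      D ≤ x ∧ 1 ≤ κ * x ∧
      θ1 * ((D * W) ^ k1 / q + D ^ k1 / Real.sqrt W) +
        (D ^ ku * Real.exp (-(θ1 ^ 2 * x / D ^ kb)) +
          x * Real.sqrt x * (D ^ kb * Real.exp (-(x / D ^ kb)))) +
        D ^ ku * Real.exp (-(κ * θ1 ^ 2 * x / 2)) ≤ x ^ (-(1 / 2) - a / 8) := by
  have hx0 : 0 < x := by linarith
  have hk1' : (0 : ℝ) < (k : ℝ) + 1 := by positivity
  have ha0 : 0 < a := by rw [ha]; positivity
  have hak : a * ((k : ℝ) + 1) = 1 / 16 := by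
    rw [ha]
    field_simp
  have hkge : (1 : ℝ) ≤ (k : ℝ) + 1 := by linarith [(Nat.cast_nonneg k : (0 : ℝ) ≤ k)]
  have ha16 : a ≤ 1 / 16 := by nlinarith
  have hmono : ∀ y z : ℝ, y ≤ z → x ^ y ≤ x ^ z := fun y z h =>
    Real.rpow_le_rpow_of_exponent_le hx h
  have hD0 : 0 < D := by linarith
  set β := a / (100 * ((k : ℝ) + 1)) with hβ
  have hβ0 : 0 < β := by positivity
  have hβk : β * ((k : ℝ) + 1) = a / 100 := by
    rw [hβ]
    field_simp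
  have hβa : β ≤ a := by nlinarith
  have hcast : ∀ {j : ℕ}, j ≤ k → (j : ℝ) ≤ (k : ℝ) + 1 := fun {j} hj => by
    have : (j : ℝ) ≤ k := by exact_mod_cast hj
    linarith
  have hDp : ∀ j : ℕ, j ≤ k → D ^ j ≤ x ^ (a / 100) := by
    intro j hj
    calc D ^ j ≤ (x ^ β) ^ j := pow_le_pow_left₀ hD0.le hD j
      _ = x ^ (β * j) := by rw [← Real.rpow_natCast, ← Real.rpow_mul hx0.le]
      _ ≤ x ^ (a / 100) := hmono _ _ (by
          rw [← hβk]
          exact mul_le_mul_of_nonneg_left (hcast hj) hβ0.le)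
  have hDWp : ∀ j : ℕ, j ≤ k → (D * W) ^ j ≤ x ^ ((1 : ℝ) / 8) := by
    intro j hj
    calc (D * W) ^ j ≤ (x ^ β * x ^ a) ^ j := by
          rw [hW]
          exact pow_le_pow_left₀ (by positivity)
            (mul_le_mul_of_nonneg_right hD (Real.rpow_nonneg hx0.le _)) j
      _ = x ^ ((β + a) * j) := by
          rw [← Real.rpow_add hx0, ← Real.rpow_natCast, ← Real.rpow_mul hx0.le]
      _ ≤ x ^ ((1 : ℝ) / 8) := hmono _ _ (by
          have h1 : (β + a) * j ≤ (2 * a) * ((k : ℝ) + 1) :=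
            mul_le_mul (by linarith) (hcast hj) (Nat.cast_nonneg _) (by positivity)
          nlinarith)
  have hDle : D ≤ x ^ (a / 100) := hD.trans (hmono _ _ (by rw [← hβk]; nlinarith))
  have hθ0 : 0 < θ1 := by rw [hθ]; exact Real.rpow_pos_of_pos hx0 _
  have hθ1 : θ1 ≤ 1 := by
    rw [hθ]
    exact Real.rpow_le_one_of_one_le_of_nonpos hx (by linarith)
  have hθ2 : θ1 ^ 2 * x = x ^ (a / 4) := by
    rw [hθ, ← Real.rpow_natCast, ← Real.rpow_mul hx0.le]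
    nth_rewrite 2 [← Real.rpow_one x]
    rw [← Real.rpow_add hx0]
    congr 1
    push_cast
    ring
  have hx1 : ∀ y : ℝ, 0 ≤ y → 1 ≤ x ^ y := fun y hy => Real.one_le_rpow hx hy
  have hkx : x ^ (-(a / 100)) ≤ κ := by
    rw [Real.rpow_neg hx0.le]
    exact (inv_anti₀ hD0 hDle).trans hκ
  have hκ0 : 0 < κ := lt_of_lt_of_le (Real.rpow_pos_of_pos hx0 _) hkx
  refine ⟨?_, ?_, ?_, hθ0, hθ1, ?_, ?_, ?_, ?_⟩
  · rw [hW]
    exact (by linarith : (2 : ℝ) ≤ x ^ (a / 5)).trans (hmono _ _ (by linarith))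
  · calc (D * W) ^ k0 ≤ x ^ ((1 : ℝ) / 8) := hDWp k0 hk0
      _ ≤ x ^ (1 : ℝ) := hmono _ _ (by norm_num)
      _ = x := Real.rpow_one x
  · rw [hθ2, hW]
    calc x ^ (a / 4) * D ^ k0 ≤ x ^ (a / 4) * x ^ (a / 100) :=
          mul_le_mul_of_nonneg_left (hDp k0 hk0) (Real.rpow_nonneg hx0.le _)
      _ = x ^ (a / 4 + a / 100) := (Real.rpow_add hx0 _ _).symm
      _ ≤ x ^ a := hmono _ _ (by linarith)
  · calc D ^ kb ≤ x ^ (a / 100) := hDp kb hkb
      _ ≤ x ^ (1 : ℝ) := hmono _ _ (by linarith)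
      _ = x := Real.rpow_one x
  · calc D ≤ x ^ (a / 100) := hDle
      _ ≤ x ^ (1 : ℝ) := hmono _ _ (by linarith)
      _ = x := Real.rpow_one x
  · calc (1 : ℝ) ≤ x ^ (-(a / 100) + 1) := hx1 _ (by linarith)
      _ = x ^ (-(a / 100)) * x := by rw [Real.rpow_add hx0, Real.rpow_one]
      _ ≤ κ * x := mul_le_mul_of_nonneg_right hkx hx0.le
  · -- the four terms
    have hE : ∀ y : ℝ, x ^ (a / 5) / 2 ≤ y → ∀ c : ℝ, c ≤ x ^ (2 : ℝ) → 0 ≤ c →
        c * Real.exp (-y) ≤ 1 / 8 * x ^ (-(1 : ℝ)) := by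
      intro y hy c hc hc0
      have h1 : c * Real.exp (-y) ≤ x ^ (2 : ℝ) * Real.exp (-(1 / 2 * x ^ (a / 5))) :=
        mul_le_mul hc (Real.exp_le_exp.2 (by linarith)) (Real.exp_pos _).le
          (Real.rpow_nonneg hx0.le _)
      refine h1.trans ?_
      have h2 : x ^ (2 : ℝ) * Real.exp (-(1 / 2 * x ^ (a / 5))) =
          (x ^ (3 : ℝ) * Real.exp (-(1 / 2 * x ^ (a / 5)))) * x ^ (-(1 : ℝ)) := by
        rw [mul_right_comm, ← Real.rpow_add hx0]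
        norm_num
      rw [h2]
      exact mul_le_mul_of_nonneg_right he (Real.rpow_nonneg hx0.le _)
    have hT1 : θ1 * ((D * W) ^ k1 / q + D ^ k1 / Real.sqrt W) ≤
        1 / 2 * x ^ (-(1 / 2) - a / 8) := by
      have h1 : (D * W) ^ k1 / q ≤ x ^ (-(49 * a / 100)) := by
        rw [hq, div_le_iff₀ (Real.rpow_pos_of_pos hx0 _), ← Real.rpow_add hx0]
        exact (hDWp k1 hk1).trans (hmono _ _ (by linarith))
      have h2 : D ^ k1 / Real.sqrt W ≤ x ^ (-(49 * a / 100)) := by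
        have h3 : Real.sqrt W = x ^ (a / 2) := by
          rw [hW, Real.sqrt_eq_rpow, ← Real.rpow_mul hx0.le]
          congr 1
          ring
        rw [h3, div_le_iff₀ (Real.rpow_pos_of_pos hx0 _), ← Real.rpow_add hx0]
        exact (hDp k1 hk1).trans (hmono _ _ (by linarith))
      calc θ1 * ((D * W) ^ k1 / q + D ^ k1 / Real.sqrt W)
          ≤ θ1 * (x ^ (-(49 * a / 100)) + x ^ (-(49 * a / 100))) :=
            mul_le_mul_of_nonneg_left (add_le_add h1 h2) hθ0.le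
        _ = 2 * x ^ (-(1 / 2) + a / 8 + -(49 * a / 100)) := by
            rw [hθ, Real.rpow_add hx0 (-(1 / 2) + a / 8) (-(49 * a / 100))]
            ring
        _ ≤ 1 / 2 * x ^ (-(1 / 2) - a / 8) := by
            have h5 : 4 * x ^ (-(1 / 2) + a / 8 + -(49 * a / 100)) ≤
                x ^ (-(1 / 2) - a / 8) := by
              calc 4 * x ^ (-(1 / 2) + a / 8 + -(49 * a / 100))
                  ≤ x ^ (a / 5) * x ^ (-(1 / 2) + a / 8 + -(49 * a / 100)) :=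
                    mul_le_mul_of_nonneg_right h4 (Real.rpow_nonneg hx0.le _)
                _ = x ^ (a / 5 + (-(1 / 2) + a / 8 + -(49 * a / 100))) :=
                    (Real.rpow_add hx0 _ _).symm
                _ ≤ x ^ (-(1 / 2) - a / 8) := hmono _ _ (by linarith)
            linarith
    have hsx : x * Real.sqrt x = x ^ ((3 : ℝ) / 2) := by
      rw [Real.sqrt_eq_rpow]
      nth_rewrite 1 [← Real.rpow_one x]
      rw [← Real.rpow_add hx0]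
      norm_num
    have hlow : ∀ j : ℕ, j ≤ k → ∀ z : ℝ, a / 5 + a / 100 ≤ z → x ^ (a / 5) / 2 ≤ x ^ z / D ^ j := by
      intro j hj z hz
      have h1 : x ^ (a / 5) ≤ x ^ z / D ^ j := by
        rw [le_div_iff₀ (by positivity)]
        calc x ^ (a / 5) * D ^ j ≤ x ^ (a / 5) * x ^ (a / 100) :=
              mul_le_mul_of_nonneg_left (hDp j hj) (Real.rpow_nonneg hx0.le _)
          _ = x ^ (a / 5 + a / 100) := (Real.rpow_add hx0 _ _).symm
          _ ≤ x ^ z := hmono _ _ hz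
      linarith [Real.rpow_nonneg hx0.le (a / 5)]
    have hT2 : D ^ ku * Real.exp (-(θ1 ^ 2 * x / D ^ kb)) ≤ 1 / 8 * x ^ (-(1 : ℝ)) := by
      refine hE _ ?_ _ ((hDp ku hku).trans (hmono _ _ (by linarith))) (by positivity)
      rw [hθ2]
      exact hlow kb hkb _ (by linarith)
    have hT3 : x * Real.sqrt x * (D ^ kb * Real.exp (-(x / D ^ kb))) ≤
        1 / 8 * x ^ (-(1 : ℝ)) := by
      rw [← mul_assoc]
      refine hE _ ?_ _ ?_ (by positivity)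
      · have h1 := hlow kb hkb 1 (by linarith)
        rwa [Real.rpow_one] at h1
      · rw [hsx]
        calc x ^ ((3 : ℝ) / 2) * D ^ kb ≤ x ^ ((3 : ℝ) / 2) * x ^ (a / 100) :=
              mul_le_mul_of_nonneg_left (hDp kb hkb) (Real.rpow_nonneg hx0.le _)
          _ = x ^ ((3 : ℝ) / 2 + a / 100) := (Real.rpow_add hx0 _ _).symm
          _ ≤ x ^ (2 : ℝ) := hmono _ _ (by linarith)
    have hT4 : D ^ ku * Real.exp (-(κ * θ1 ^ 2 * x / 2)) ≤ 1 / 8 * x ^ (-(1 : ℝ)) := by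
      refine hE _ ?_ _ ((hDp ku hku).trans (hmono _ _ (by linarith))) (by positivity)
      have h1 : x ^ (a / 5) ≤ κ * x ^ (a / 4) := by
        calc x ^ (a / 5) ≤ x ^ (-(a / 100) + a / 4) := hmono _ _ (by linarith)
          _ = x ^ (-(a / 100)) * x ^ (a / 4) := Real.rpow_add hx0 _ _
          _ ≤ κ * x ^ (a / 4) := mul_le_mul_of_nonneg_right hkx (Real.rpow_nonneg hx0.le _)
      rw [mul_assoc κ, hθ2]
      linarith
    have hxm : x ^ (-(1 : ℝ)) ≤ x ^ (-(1 / 2) - a / 8) := hmono _ _ (by linarith)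
    have hxp : 0 < x ^ (-(1 / 2) - a / 8) := Real.rpow_pos_of_pos hx0 _
    linarith

end Numbers

end LLAWx

open LLAWx in
theorem t_LLAW (h1 : BKER_Stmt) (h2 : BCP_Stmt) (h3 : BTW_Stmt) (h4 : BTK_Stmt) (h5 : FOU_Stmt)
    (h6 : TLT_Stmt) (h7 : TUB_Stmt) (h8 : TJ1_Stmt) (h9 : FL.HG_Stmt) : LLAW_Stmt := by
  intro f1 hf1
  obtain ⟨A1, hA1, hker⟩ := h1 f1 hf1
  obtain ⟨A2, hA2, hbtk⟩ := h4 f1 hf1
  obtain ⟨K0, K1, hTLT⟩ := h6
  obtain ⟨KU, hTUB⟩ := h7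
  set A := max A1 A2 with hA
  have hA2' : 2 ≤ A := hA1.trans (le_max_left _ _)
  obtain ⟨N1, hker⟩ := hker A (le_max_left _ _)
  obtain ⟨KB, N2, hN6, hbtk⟩ := hbtk A (le_max_right _ _)
  set k : ℕ := K0 + K1 + KB + KU with hk
  set a : ℝ := 1 / (16 * ((k : ℝ) + 1)) with ha
  have ha0 : 0 < a := by positivity
  set β : ℝ := a / (100 * ((k : ℝ) + 1)) with hβ
  have hβ0 : 0 < β := by positivity
  obtain ⟨N3, hN3⟩ := Mp_le hA2' hβ0
  obtain ⟨N4, hN4⟩ := ev_ge 4 (show 0 < a / 5 by positivity)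
  obtain ⟨N5, hN5⟩ := ev_exp (show 0 < a / 5 by positivity)
  refine ⟨A, KU + 1, β / (2 * A), a / 8, hA2', by positivity, by positivity,
    N1 + N2 + N3 + N4 + N5, ?_⟩
  intro n f rho hn hfn hf1' hcrit
  have hn6 : 6 ≤ n := by omega
  have hx : (1 : ℝ) ≤ n := by exact_mod_cast (by omega : 1 ≤ n)
  have hx0 : (0 : ℝ) < n := by linarith
  have hf0 : 0 < f := lt_of_lt_of_le (Real.rpow_pos_of_pos hx0 _) hfn
  set D : ℝ := Mp A f with hDdef
  have hD2 : 2 ≤ D := PFW.two_le_Mp hA2' hf0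
  have hDβ : D ≤ (n : ℝ) ^ β := hN3 n (by omega) f hfn
  have e4 := hN4 n (by omega)
  have e5 := hN5 n (by omega)
  set W : ℝ := (n : ℝ) ^ a with hW
  set θ1 : ℝ := (n : ℝ) ^ (-(1 / 2) + a / 8) with hθ1
  have hq : qn n = (n : ℝ) ^ ((1 : ℝ) / 4) := by
    unfold qn
    rw [Real.sqrt_eq_rpow, Real.sqrt_eq_rpow, ← Real.rpow_mul hx0.le]
    norm_num
  have hDn : D ≤ (n : ℝ) :=
    (final (k0 := K0) (k1 := K1) (kb := KB) (ku := KU) (k := k) (κ := D⁻¹) (by omega) (by omega)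
      (by omega) (by omega) hx ha (by linarith) hDβ le_rfl hW hθ1 hq e4 e5).2.2.2.2.2.2.1
  obtain ⟨htw, hcap, hv, hv1, hkD, -, huniq⟩ := hker n f (by omega) hf0 hf1' hDn
  have hrho := huniq rho hcrit
  subst hrho
  obtain ⟨w2, wbig, wth, ht0, ht1, hDB, -, hkx, hfin⟩ :=
    final (k0 := K0) (k1 := K1) (kb := KB) (ku := KU) (k := k) (κ := kf n f) (by omega) (by omega)
      (by omega) (by omega) hx ha (by linarith) hDβ htw.var_ge hW hθ1 hq e4 e5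
  have hD1 : 1 ≤ D := by linarith
  have hD0 : 0 < D := by linarith
  have hvn : 0 ≤ vf n f := (inv_pos.2 hD0).le.trans hv
  have hpow : (D ^ (KU + 1))⁻¹ ≤ D⁻¹ := inv_anti₀ hD0 (by
    calc D = D ^ 1 := (pow_one D).symm
      _ ≤ D ^ (KU + 1) := pow_le_pow_right₀ hD1 (by omega))
  have hsc0 : 0 ≤ sc n := by unfold sc; positivity
  have hrho0 : 0 < (Kf n f).rho := hcrit.1
  have hUp : ∀ eps : ℝ, 0 ≤ eps →
      sc n * (Kf n f).rho ^ n * Ta n (Real.exp (-f)) eps ≤ D ^ KU := fun eps heps =>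
    up_bound h3 hTUB (by omega) hD2 htw.cls hcap heps
  have hZ : sc n * (Kf n f).rho ^ n * Zq n (Real.exp (-f)) ≤ D ^ KU := by
    rw [← Ta_eq_Zq]
    exact hUp 0 le_rfl
  refine ⟨hpow.trans hv, hv1, hpow.trans htw.var_ge, hkD.trans ?_, hZ.trans ?_, ?_⟩
  · calc D = D ^ 1 := (pow_one D).symm
      _ ≤ D ^ (KU + 1) := pow_le_pow_right₀ hD1 (by omega)
  · exact pow_le_pow_right₀ hD1 (by omega)
  intro h eps heps heps1
  set c : ℝ := sc n * (Kf n f).rho ^ n with hc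
  have hc0 : 0 ≤ c := by positivity
  clear_value c
  have hsum : ∑ j ∈ range (n + 1), c * Th n (Real.exp (-f)) j eps =
      c * Ta n (Real.exp (-f)) eps := by
    rw [← mul_sum, sum_Th h9]
  have hsumph : ∀ θ : ℝ, ∑ j ∈ range (n + 1),
      ((c * Th n (Real.exp (-f)) j eps : ℝ) : ℂ) * ph θ (vf n f) (n, j) =
      (c : ℂ) * ZT n (Real.exp (-f)) θ (vf n f) eps := by
    intro θ
    rw [← sum_Th_ph h9, mul_sum]
    apply sum_congr rfl
    intro j _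
    push_cast
    ring
  have hF := h5 n (fun j => c * Th n (Real.exp (-f)) j eps) (vf n f) (kf n f) θ1
    ((D * W) ^ K1 / qn n + D ^ K1 / Real.sqrt W)
    (D ^ KU * Real.exp (-(θ1 ^ 2 * n / D ^ KB)) +
      (n : ℝ) * Real.sqrt n * (D ^ KB * Real.exp (-(n / D ^ KB))))
    (by omega) (lt_of_lt_of_le (inv_pos.2 hD0) htw.var_ge) ht0
    (ht1.trans (by linarith [Real.pi_gt_three])) (by
      have : 0 ≤ qn n := qn_nonneg n
      positivity) (by positivity)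
    (fun j hj => by rw [Th_zero h9 n _ _ j hj, mul_zero]) ?_ ?_ h
  · -- conclusion
    rw [hsum] at hF
    have e1 : c * (Th n (Real.exp (-f)) h eps - gau n (vf n f) (kf n f) h *
        Ta n (Real.exp (-f)) eps) = c * Th n (Real.exp (-f)) h eps -
        gau n (vf n f) (kf n f) h * (c * Ta n (Real.exp (-f)) eps) := by ring
    rw [e1]
    refine hF.trans (le_trans ?_ hfin)
    have hS0 : 0 ≤ c * Ta n (Real.exp (-f)) eps :=
      mul_nonneg hc0 (Ta_nonneg n (Real.exp_pos _) eps)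
    have hS1 : |c * Ta n (Real.exp (-f)) eps| * Real.exp (-(kf n f * θ1 ^ 2 * n / 2)) /
        Real.sqrt (kf n f * n) ≤ D ^ KU * Real.exp (-(kf n f * θ1 ^ 2 * n / 2)) := by
      rw [abs_of_nonneg hS0]
      have h10 : 1 ≤ Real.sqrt (kf n f * n) := Real.one_le_sqrt.2 hkx
      refine (div_le_self (by positivity) h10).trans ?_
      exact mul_le_mul_of_nonneg_right (hUp eps heps) (Real.exp_pos _).le
    linarith
  · -- small angles
    intro θ hθ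
    rw [hsum, hsumph]
    have hθ2 : θ ^ 2 ≤ θ1 ^ 2 := by
      rw [← sq_abs θ]
      exact pow_le_pow_left₀ (abs_nonneg θ) hθ 2
    have hS : ScT K0 D W (Kf n f) (vf n f) (kf n f) θ n :=
      ⟨hD2, w2, htw, wbig, le_trans (by gcongr) wth⟩
    have h10 := low_bound h2 h3 h8 hTLT (by omega) hS hcap hvn hv1 heps
    have e1 : (c : ℂ) * ZT n (Real.exp (-f)) θ (vf n f) eps -
        (Real.exp (-(kf n f * θ ^ 2 * n)) : ℂ) *
          ((c * Ta n (Real.exp (-f)) eps : ℝ) : ℂ) =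
        (c : ℂ) * (ZT n (Real.exp (-f)) θ (vf n f) eps -
          (Real.exp (-(kf n f * θ ^ 2 * n)) : ℂ) * ((Ta n (Real.exp (-f)) eps : ℝ) : ℂ)) := by
      rw [Complex.ofReal_mul]
      ring
    rw [e1, norm_mul, Complex.norm_real, Real.norm_of_nonneg hc0, hc]
    exact h10
  · -- large angles
    intro θ hθ hθπ
    rw [hsumph, norm_mul, Complex.norm_real, Real.norm_of_nonneg hc0]
    have h10 := hbtk n f (Kf n f).rho (by omega) hf0 hf1' hDB hcrit θ (vf n f) eps hθπ heps heps1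
    have hθ2 : θ1 ^ 2 ≤ θ ^ 2 := by
      rw [← sq_abs θ]
      exact pow_le_pow_left₀ ht0.le hθ 2
    have hDB0 : 0 < D ^ KB := by positivity
    have hrn : 0 < (Kf n f).rho ^ n := pow_pos hrho0 n
    calc c * ‖ZT n (Real.exp (-f)) θ (vf n f) eps‖
        ≤ c * (Real.exp (-(θ ^ 2 * n / D ^ KB)) * Zq n (Real.exp (-f)) +
            D ^ KB * Real.exp (-(n / D ^ KB)) / (Kf n f).rho ^ n) :=
          mul_le_mul_of_nonneg_left h10 hc0
      _ = Real.exp (-(θ ^ 2 * n / D ^ KB)) * (c * Zq n (Real.exp (-f))) +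
            sc n * (D ^ KB * Real.exp (-(n / D ^ KB))) := by
          rw [hc]
          field_simp
      _ ≤ D ^ KU * Real.exp (-(θ1 ^ 2 * n / D ^ KB)) +
            (n : ℝ) * Real.sqrt n * (D ^ KB * Real.exp (-(n / D ^ KB))) := by
          have h11 : Real.exp (-(θ ^ 2 * n / D ^ KB)) ≤ Real.exp (-(θ1 ^ 2 * n / D ^ KB)) := by
            apply Real.exp_le_exp.2
            have : θ1 ^ 2 * n / D ^ KB ≤ θ ^ 2 * n / D ^ KB := by gcongr
            linarith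
          have h12 : Real.exp (-(θ ^ 2 * n / D ^ KB)) * (c * Zq n (Real.exp (-f))) ≤
              D ^ KU * Real.exp (-(θ1 ^ 2 * n / D ^ KB)) := by
            rw [mul_comm (D ^ KU)]
            exact mul_le_mul h11 hZ (mul_nonneg hc0 (sum_nonneg fun q _ =>
              wtq_nonneg (Real.exp_pos _) q)) (Real.exp_pos _).le
          have h13 : sc n * (D ^ KB * Real.exp (-(n / D ^ KB))) =
              (n : ℝ) * Real.sqrt n * (D ^ KB * Real.exp (-(n / D ^ KB))) := rfl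
          rw [h13]
          linarith

end Pool.Agent.PFS
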