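import Pool.Agent.PFS.StmtsC

/-!
# Project PFS: moments from Laplace transforms (module MOML)
-/

set_option autoImplicit false

namespace Pool.Agent.PFS

namespace MOMLx

theorem exp_neg_le {y : ℝ} (hy : 0 ≤ y) : Real.exp (-y) ≤ 1 - y + y ^ 2 / 2 := by
  have h1 := Real.quadratic_le_exp_of_nonneg hy
  have h2 : 0 < Real.exp (-y) := Real.exp_pos _
  have h3 : Real.exp (-y) * Real.exp y = 1 := by rw [← Real.exp_add]; simp
  have h4 : Real.exp (-y) * (1 + y + y ^ 2 / 2) ≤ 1 := by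
    exact (mul_le_mul_of_nonneg_left h1 h2.le).trans h3.le
  have h5 : 0 < 1 + y + y ^ 2 / 2 := by positivity
  have h6 : (1 - y + y ^ 2 / 2) * (1 + y + y ^ 2 / 2) = 1 + y ^ 4 / 4 := by ring
  have h7 : (0 : ℝ) ≤ y ^ 4 / 4 := by positivity
  have h8 : Real.exp (-y) * (1 + y + y ^ 2 / 2) ≤ (1 - y + y ^ 2 / 2) * (1 + y + y ^ 2 / 2) := by
    rw [h6]; linarith
  exact le_of_mul_le_mul_right h8 h5

theorem pt {y : ℝ} (hy : 0 ≤ y) (r : ℕ) :
    0 ≤ y ^ r - (1 - Real.exp (-y)) ^ r ∧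
      y ^ r - (1 - Real.exp (-y)) ^ r ≤ r * y ^ (r + 1) / 2 := by
  have hu0 : 0 ≤ 1 - Real.exp (-y) := by
    have : Real.exp (-y) ≤ 1 := Real.exp_le_one_iff.2 (by linarith)
    linarith
  have huy : 1 - Real.exp (-y) ≤ y := by
    have := Real.add_one_le_exp (-y)
    linarith
  have hd : y - (1 - Real.exp (-y)) ≤ y ^ 2 / 2 := by
    have := exp_neg_le hy
    linarith
  refine ⟨by linarith [pow_le_pow_left₀ hu0 huy r], ?_⟩
  induction r with
  | zero => simp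
  | succ r ih =>
    have h0 : 0 ≤ y ^ r - (1 - Real.exp (-y)) ^ r := by
      linarith [pow_le_pow_left₀ hu0 huy r]
    have hyr : 0 ≤ y ^ r := pow_nonneg hy r
    have e1 : y ^ (r + 1) - (1 - Real.exp (-y)) ^ (r + 1) =
        y ^ r * (y - (1 - Real.exp (-y))) +
          (1 - Real.exp (-y)) * (y ^ r - (1 - Real.exp (-y)) ^ r) := by ring
    have e2 : y ^ r * (y - (1 - Real.exp (-y))) ≤ y ^ r * (y ^ 2 / 2) :=
      mul_le_mul_of_nonneg_left hd hyr
    have e3 : (1 - Real.exp (-y)) * (y ^ r - (1 - Real.exp (-y)) ^ r) ≤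
        y * (r * y ^ (r + 1) / 2) := mul_le_mul huy ih h0 hy
    rw [e1]
    refine (add_le_add e2 e3).trans (le_of_eq ?_)
    push_cast
    ring

theorem expand {γ : Type} (P : Finset γ) (w S : γ → ℝ) (r : ℕ) (lam : ℝ) :
    ∑ x ∈ P, w x * (1 - Real.exp (-(lam * S x))) ^ r =
      ∑ j ∈ Finset.range (r + 1), ((-1 : ℝ) ^ j * (r.choose j : ℝ)) *
        ∑ x ∈ P, w x * Real.exp (-(j * lam * S x)) := by
  simp_rw [Finset.mul_sum]
  rw [Finset.sum_comm]
  refine Finset.sum_congr rfl fun x _ => ?_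
  rw [sub_eq_neg_add, add_pow, Finset.mul_sum]
  refine Finset.sum_congr rfl fun j _ => ?_
  have h1 : (-Real.exp (-(lam * S x))) ^ j = (-1 : ℝ) ^ j * Real.exp (-(j * lam * S x)) := by
    rw [neg_pow, ← Real.exp_nat_mul]
    congr 2
    ring
  rw [h1, one_pow]
  ring

theorem side {γ : Type} (P : Finset γ) (w S : γ → ℝ) (r : ℕ) (lam B : ℝ) (hlam : 0 < lam)
    (hP : ∀ x ∈ P, 0 ≤ w x ∧ 0 ≤ S x) (hB : ∑ x ∈ P, w x * S x ^ (r + 1) ≤ B) :
    0 ≤ lam ^ r * (∑ x ∈ P, w x * S x ^ r) - ∑ x ∈ P, w x * (1 - Real.exp (-(lam * S x))) ^ r ∧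
    lam ^ r * (∑ x ∈ P, w x * S x ^ r) - ∑ x ∈ P, w x * (1 - Real.exp (-(lam * S x))) ^ r ≤
      r * lam ^ (r + 1) * B := by
  have e1 : lam ^ r * (∑ x ∈ P, w x * S x ^ r) -
      ∑ x ∈ P, w x * (1 - Real.exp (-(lam * S x))) ^ r =
      ∑ x ∈ P, w x * ((lam * S x) ^ r - (1 - Real.exp (-(lam * S x))) ^ r) := by
    rw [Finset.mul_sum, ← Finset.sum_sub_distrib]
    refine Finset.sum_congr rfl fun x _ => ?_
    rw [mul_pow]
    ring
  rw [e1]
  refine ⟨Finset.sum_nonneg fun x hx => mul_nonneg (hP x hx).1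
    (pt (mul_nonneg hlam.le (hP x hx).2) r).1, ?_⟩
  have hs0 : 0 ≤ ∑ x ∈ P, w x * S x ^ (r + 1) :=
    Finset.sum_nonneg fun x hx => mul_nonneg (hP x hx).1 (pow_nonneg (hP x hx).2 _)
  calc ∑ x ∈ P, w x * ((lam * S x) ^ r - (1 - Real.exp (-(lam * S x))) ^ r) ≤
      ∑ x ∈ P, w x * (r * (lam * S x) ^ (r + 1) / 2) :=
        Finset.sum_le_sum fun x hx => mul_le_mul_of_nonneg_left
          (pt (mul_nonneg hlam.le (hP x hx).2) r).2 (hP x hx).1
    _ = r * lam ^ (r + 1) / 2 * ∑ x ∈ P, w x * S x ^ (r + 1) := by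
        rw [Finset.mul_sum]
        refine Finset.sum_congr rfl fun x _ => ?_
        rw [mul_pow]
        ring
    _ ≤ r * lam ^ (r + 1) / 2 * B := mul_le_mul_of_nonneg_left hB (by positivity)
    _ ≤ r * lam ^ (r + 1) * B := by
        have : 0 ≤ (r : ℝ) * lam ^ (r + 1) * B := by
          have := hs0.trans hB
          positivity
        linarith

end MOMLx

theorem t_MOML : MOML_Stmt := by
  intro α β P Q w S v T r lam e B hlam hP hQ hL hBP hBQ
  obtain ⟨p1, p2⟩ := MOMLx.side P w S r lam B hlam hP hBP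
  obtain ⟨q1, q2⟩ := MOMLx.side Q v T r lam B hlam hQ hBQ
  have key : |∑ y ∈ Q, v y * (1 - Real.exp (-(lam * T y))) ^ r -
      ∑ x ∈ P, w x * (1 - Real.exp (-(lam * S x))) ^ r| ≤ 2 ^ r * e := by
    rw [MOMLx.expand, MOMLx.expand, ← Finset.sum_sub_distrib]
    refine (Finset.abs_sum_le_sum_abs _ _).trans ?_
    have h2 : (2 : ℝ) ^ r * e = ∑ j ∈ Finset.range (r + 1), (r.choose j : ℝ) * e := by
      rw [← Finset.sum_mul]
      congr 1
      have := Nat.sum_range_choose r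
      exact_mod_cast this.symm
    rw [h2]
    refine Finset.sum_le_sum fun j hj => ?_
    rw [← mul_sub, abs_mul, abs_mul, abs_pow, abs_neg, abs_one, one_pow, one_mul, Nat.abs_cast]
    exact mul_le_mul_of_nonneg_left (hL j (Nat.lt_succ_iff.1 (Finset.mem_range.1 hj)))
      (Nat.cast_nonneg _)
  have hl : 0 < lam ^ r := pow_pos hlam r
  have fin : |lam ^ r * (∑ y ∈ Q, v y * T y ^ r - ∑ x ∈ P, w x * S x ^ r)| ≤
      2 ^ r * e + r * lam ^ (r + 1) * B := by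
    rw [mul_sub]
    obtain ⟨k1, k2⟩ := abs_le.1 key
    rw [abs_le]
    constructor <;> linarith
  rw [abs_mul, abs_of_pos hl] at fin
  have : |∑ y ∈ Q, v y * T y ^ r - ∑ x ∈ P, w x * S x ^ r| ≤
      (2 ^ r * e + r * lam ^ (r + 1) * B) / lam ^ r := by
    rw [le_div_iff₀ hl, mul_comm]
    exact fin
  refine this.trans (le_of_eq ?_)
  rw [add_div]
  congr 1
  rw [pow_succ]
  field_simp

end Pool.Agent.PFS
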