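import Pool.Agent.PFS.StmtsC
import Pool.Agent.DIA.FER

/-!
# Project PFS (MP_f6626d_co): words without cut are negligible (module NCB)
-/

set_option autoImplicit false

namespace Pool.Agent.PFS

open Finset Filter Topology MeasureTheory
open Pool.Agent.Lib27 Pool.Agent.SapR Pool.Agent.Gap Pool.Agent.AreaLaw Pool.Agent.FL
open Pool.Agent.FS

namespace NCB

theorem Z_nonneg (n : ℕ) {s : ℝ} (hs : 0 ≤ s) : 0 ≤ Zq n s :=
  Finset.sum_nonneg fun _ _ => by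
    unfold wtq
    positivity

/-- `n^(j + 5) exp (-√n) ≤ 1` for large `n` -/
theorem ev (j : ℕ) : ∃ N : ℕ, ∀ n : ℕ, N ≤ n →
    (n : ℝ) ^ (j + 5) * Real.exp (-Real.sqrt n) ≤ 1 := by
  have h := (DIA.FER.lim (j + 5)).eventually (Iio_mem_nhds (zero_lt_one (α := ℝ)))
  obtain ⟨N, hN⟩ := eventually_atTop.mp h
  refine ⟨N, fun n hn => ?_⟩
  have h1 := hN n hn
  have h2 : 3 * ((n : ℝ) ^ (j + 5) * Real.exp (-Real.sqrt n)) < 1 := h1
  have h3 : 0 ≤ (n : ℝ) ^ (j + 5) * Real.exp (-Real.sqrt n) := by positivity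
  linarith

end NCB

open NCB in
theorem t_NCB (h1 : FFA_Stmt) : NCB_Stmt := by
  intro j
  obtain ⟨c, hc, N0, hN0⟩ := h1 (1 / 4) (by norm_num)
  obtain ⟨N1, hN1⟩ := ev j
  refine ⟨c, hc, max (max N0 N1) 1, fun n hn f hf => ?_⟩
  have hn0 : N0 ≤ n := (le_max_left _ _).trans ((le_max_left _ _).trans hn)
  have hn1 : N1 ≤ n := (le_max_right _ _).trans ((le_max_left _ _).trans hn)
  have hnp : 1 ≤ n := (le_max_right _ _).trans hn
  have hn' : (1 : ℝ) ≤ n := by exact_mod_cast hnp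
  have hnpos : (0 : ℝ) < n := by linarith
  obtain ⟨hfpos, ρ, D, hρ1, -, -, hD2, hDn, hTl, hlow, -, -⟩ := hN0 n hn0 f hf
  have hT := hTl.2.2
  have hE := hN1 n hn1
  set s := Real.exp (-f) with hs
  have hspos : 0 < s := Real.exp_pos _
  have hρ : 0 < ρ := by linarith
  have hρn : 0 < ρ ^ n := pow_pos hρ n
  have hZ : 0 ≤ Zq n s := Z_nonneg n hspos.le
  have hD : 0 < D := by linarith
  set E := Real.exp (-Real.sqrt n) with hEd
  have hEpos : 0 < E := Real.exp_pos _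
  -- the size of `D`
  have hsq : Real.sqrt n * Real.sqrt n = n := Real.mul_self_sqrt hnpos.le
  have hDs : D ≤ Real.sqrt n := by
    refine hDn.trans ?_
    rw [Real.sqrt_eq_rpow]
    exact Real.rpow_le_rpow_of_exponent_le hn' (by norm_num)
  have hsn : Real.sqrt n ≤ n := by
    have h2 : 1 ≤ Real.sqrt n := Real.one_le_sqrt.mpr hn'
    nlinarith
  have hDn1 : D ≤ n := hDs.trans hsn
  have hnD : Real.sqrt n ≤ D⁻¹ * n := by
    rw [inv_mul_eq_div, le_div_iff₀ hD]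
    calc Real.sqrt n * D ≤ Real.sqrt n * Real.sqrt n :=
          mul_le_mul_of_nonneg_left hDs (Real.sqrt_nonneg _)
      _ = n := hsq
  -- the upper bound
  have hpw : (1 - D⁻¹) ^ n ≤ E := by
    have h2 : 0 ≤ 1 - D⁻¹ := by
      have : D⁻¹ ≤ 1 := inv_le_one_of_one_le₀ (by linarith)
      linarith
    calc (1 - D⁻¹) ^ n ≤ Real.exp (-D⁻¹) ^ n :=
          pow_le_pow_left₀ h2 (Real.one_sub_le_exp_neg _) n
      _ = Real.exp (-(D⁻¹ * n)) := by
          rw [← Real.exp_nat_mul]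
          congr 1
          ring
      _ ≤ E := Real.exp_le_exp.mpr (by linarith)
  have hA : ρ ^ n * FS.EXPM.NCs n s ≤ (n : ℝ) * n * E := by
    have h2 : ρ ^ n * FS.EXPM.NCs n s ≤ D * n * (1 - D⁻¹) ^ n := by
      unfold FS.EXPM.NCs
      rw [Finset.mul_sum]
      exact hT
    refine h2.trans ?_
    calc D * n * (1 - D⁻¹) ^ n ≤ D * n * E :=
          mul_le_mul_of_nonneg_left hpw (by positivity)
      _ ≤ (n : ℝ) * n * E :=
          mul_le_mul_of_nonneg_right (mul_le_mul_of_nonneg_right hDn1 hnpos.le) hEpos.le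
  -- the lower bound
  have hB : 1 ≤ (n : ℝ) ^ 3 * (ρ ^ n * Zq n s) := by
    have h2 : (1 : ℝ) = (n : ℝ) ^ ((1 : ℝ) / 4) * (n : ℝ) ^ (-((1 : ℝ) / 4)) := by
      rw [← Real.rpow_add hnpos]
      simp
    have h3 : (n : ℝ) ^ ((1 : ℝ) / 4) ≤ n := by
      calc (n : ℝ) ^ ((1 : ℝ) / 4) ≤ (n : ℝ) ^ (1 : ℝ) :=
            Real.rpow_le_rpow_of_exponent_le hn' (by norm_num)
        _ = n := Real.rpow_one _
    have h4 : sc n ≤ (n : ℝ) * n := by
      unfold sc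
      exact mul_le_mul_of_nonneg_left hsn hnpos.le
    have h5 : 0 ≤ ρ ^ n * Zq n s := mul_nonneg hρn.le hZ
    have h6 : (n : ℝ) ^ (-((1 : ℝ) / 4)) ≤ (n : ℝ) * n * (ρ ^ n * Zq n s) := by
      refine hlow.trans ?_
      rw [mul_assoc]
      exact mul_le_mul_of_nonneg_right h4 h5
    calc (1 : ℝ) = (n : ℝ) ^ ((1 : ℝ) / 4) * (n : ℝ) ^ (-((1 : ℝ) / 4)) := h2
      _ ≤ (n : ℝ) * ((n : ℝ) * n * (ρ ^ n * Zq n s)) :=
          mul_le_mul h3 h6 (Real.rpow_nonneg hnpos.le _) hnpos.le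
      _ = (n : ℝ) ^ 3 * (ρ ^ n * Zq n s) := by ring
  -- together
  have hfin : ρ ^ n * ((n : ℝ) ^ j * FS.EXPM.NCs n s) ≤ ρ ^ n * Zq n s := by
    calc ρ ^ n * ((n : ℝ) ^ j * FS.EXPM.NCs n s)
        = (n : ℝ) ^ j * (ρ ^ n * FS.EXPM.NCs n s) := by ring
      _ ≤ (n : ℝ) ^ j * ((n : ℝ) * n * E) := mul_le_mul_of_nonneg_left hA (by positivity)
      _ = ((n : ℝ) ^ j * ((n : ℝ) * n * E)) * 1 := by ring
      _ ≤ ((n : ℝ) ^ j * ((n : ℝ) * n * E)) * ((n : ℝ) ^ 3 * (ρ ^ n * Zq n s)) :=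
          mul_le_mul_of_nonneg_left hB (by positivity)
      _ = ((n : ℝ) ^ (j + 5) * E) * (ρ ^ n * Zq n s) := by ring
      _ ≤ 1 * (ρ ^ n * Zq n s) :=
          mul_le_mul_of_nonneg_right hE (mul_nonneg hρn.le hZ)
      _ = ρ ^ n * Zq n s := one_mul _
  exact le_of_mul_le_mul_left hfin hρn

end Pool.Agent.PFS
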