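import Pool.Agent.PFS.StmtsC
import Pool.Agent.Lib_helper74.FS.SAPC

/-!
# Project PFS (MP_f6626d_co), module SAPL: Laplace transforms in the frozen encoding
-/

set_option autoImplicit false

namespace Pool.Agent.PFS.SAPLm

open Finset Filter Topology MeasureTheory
open Pool.Agent.Lib27 Pool.Agent.SapR Pool.Agent.Gap Pool.Agent.AreaLaw Pool.Agent.FL
open Pool.Agent.FS

/-- The comparison of the two quotients. -/
lemma core {S1 N1 S2 N2 Z A G e e' : ℝ} (hZ : 0 < Z) (hA0 : 0 ≤ A) (hAZ : A ≤ Z) (hG : 0 < G)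
    (he0 : 0 ≤ e) (he : 2 * e ≤ G) (he0' : 0 ≤ e') (h1 : |S1 - G * A| ≤ e * Z)
    (h2 : |N1 - G * Z| ≤ e * Z) (h3 : |S2 - A| ≤ e' * Z) (h4 : |N2 - Z| ≤ e' * Z)
    (h5 : Z ≤ N2) : 0 < N1 ∧ |S1 / N1 - S2 / N2| ≤ 4 * e / G + 2 * e' := by
  have hN1 : G * Z / 2 ≤ N1 := by
    have := (abs_le.1 h2).1
    nlinarith
  have hN1' : 0 < N1 := lt_of_lt_of_le (by positivity) hN1
  have hN2' : 0 < N2 := lt_of_lt_of_le hZ h5
  refine ⟨hN1', ?_⟩
  have e1 : S1 / N1 - A / Z = ((S1 - G * A) * Z - A * (N1 - G * Z)) / (N1 * Z) := by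
    field_simp
    ring
  have e2 : S2 / N2 - A / Z = ((S2 - A) * Z - A * (N2 - Z)) / (N2 * Z) := by
    field_simp
    ring
  have b1 : |S1 / N1 - A / Z| ≤ 4 * e / G := by
    rw [e1, abs_div, abs_of_pos (mul_pos hN1' hZ), div_le_div_iff₀ (mul_pos hN1' hZ) hG]
    have b2 : |(S1 - G * A) * Z - A * (N1 - G * Z)| ≤ 2 * e * Z * Z := by
      refine (abs_sub _ _).trans ?_
      rw [abs_mul, abs_mul, abs_of_pos hZ, abs_of_nonneg hA0]
      have := mul_le_mul hAZ h2 (abs_nonneg _) hZ.le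
      have := mul_le_mul_of_nonneg_right h1 hZ.le
      nlinarith
    calc |(S1 - G * A) * Z - A * (N1 - G * Z)| * G ≤ 2 * e * Z * Z * G :=
          mul_le_mul_of_nonneg_right b2 hG.le
      _ = 4 * e * ((G * Z / 2) * Z) := by ring
      _ ≤ 4 * e * (N1 * Z) := by
          refine mul_le_mul_of_nonneg_left ?_ (by linarith)
          exact mul_le_mul_of_nonneg_right hN1 hZ.le
  have b3 : |S2 / N2 - A / Z| ≤ 2 * e' := by
    rw [e2, abs_div, abs_of_pos (mul_pos hN2' hZ), div_le_iff₀ (mul_pos hN2' hZ)]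
    have b2 : |(S2 - A) * Z - A * (N2 - Z)| ≤ 2 * e' * Z * Z := by
      refine (abs_sub _ _).trans ?_
      rw [abs_mul, abs_mul, abs_of_pos hZ, abs_of_nonneg hA0]
      have := mul_le_mul hAZ h4 (abs_nonneg _) hZ.le
      have := mul_le_mul_of_nonneg_right h3 hZ.le
      nlinarith
    refine b2.trans ?_
    have := mul_le_mul_of_nonneg_right h5 hZ.le
    have h0 : 0 ≤ 2 * e' := by linarith
    calc 2 * e' * Z * Z = 2 * e' * (Z * Z) := by ring
      _ ≤ 2 * e' * (N2 * Z) := mul_le_mul_of_nonneg_left this h0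
  calc |S1 / N1 - S2 / N2| = |(S1 / N1 - A / Z) - (S2 / N2 - A / Z)| := by congr 1; ring
    _ ≤ |S1 / N1 - A / Z| + |S2 / N2 - A / Z| := abs_sub _ _
    _ ≤ _ := add_le_add b1 b3

lemma exp_diff (a b : ℝ) (ha : 0 ≤ a) (hab : a ≤ b) :
    |Real.exp (-a) - Real.exp (-b)| ≤ |a - b| := by
  have h1 : Real.exp (-b) ≤ Real.exp (-a) := Real.exp_le_exp.2 (by linarith)
  rw [abs_of_nonneg (by linarith), abs_of_nonpos (by linarith)]
  have h2 : Real.exp (-b) = Real.exp (-a) * Real.exp (-(b - a)) := by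
    rw [← Real.exp_add]
    congr 1
    ring
  have h3 : 1 - (b - a) ≤ Real.exp (-(b - a)) := Real.one_sub_le_exp_neg _
  have h4 : Real.exp (-a) ≤ 1 := Real.exp_le_one_iff.2 (by linarith)
  have h5 : 0 < Real.exp (-a) := Real.exp_pos _
  rw [h2]
  have h6 : Real.exp (-a) * (1 - (b - a)) ≤ Real.exp (-a) * Real.exp (-(b - a)) :=
    mul_le_mul_of_nonneg_left h3 h5.le
  have h7 : Real.exp (-a) * (b - a) ≤ 1 * (b - a) :=
    mul_le_mul_of_nonneg_right h4 (by linarith)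
  linarith

lemma exp_diff' (t u v : ℝ) (ht : 0 ≤ t) (hu : 0 ≤ u) (hv : 0 ≤ v) :
    |Real.exp (-(t * u)) - Real.exp (-(t * v))| ≤ t * |u - v| := by
  have e : |t * u - t * v| = t * |u - v| := by rw [← mul_sub, abs_mul, abs_of_nonneg ht]
  rw [← e]
  rcases le_total u v with h | h
  · exact exp_diff _ _ (mul_nonneg ht hu) (mul_le_mul_of_nonneg_left h ht)
  · rw [abs_sub_comm, abs_sub_comm (t * u)]
    exact exp_diff _ _ (mul_nonneg ht hv) (mul_le_mul_of_nonneg_left h ht)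

/-- The difference of two weighted sums. -/
lemma sum_diff {ι : Type} (P : Finset ι) (w u v : ι → ℝ) (t : ℝ) (ht : 0 ≤ t)
    (hw : ∀ i ∈ P, 0 ≤ w i) (hu : ∀ i ∈ P, 0 ≤ u i) (hv : ∀ i ∈ P, 0 ≤ v i) :
    |∑ i ∈ P, w i * Real.exp (-(t * u i)) - ∑ i ∈ P, w i * Real.exp (-(t * v i))| ≤
      t * ∑ i ∈ P, w i * |u i - v i| := by
  rw [← Finset.sum_sub_distrib, Finset.mul_sum]
  refine (Finset.abs_sum_le_sum_abs _ _).trans (Finset.sum_le_sum fun i hi => ?_)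
  rw [← mul_sub, abs_mul, abs_of_nonneg (hw i hi)]
  calc w i * |Real.exp (-(t * u i)) - Real.exp (-(t * v i))| ≤ w i * (t * |u i - v i|) :=
        mul_le_mul_of_nonneg_left (exp_diff' t _ _ ht (hu i hi) (hv i hi)) (hw i hi)
    _ = t * (w i * |u i - v i|) := by ring

open Classical in
/-- The words without cut of a class. -/
lemma nc_bound (n h : ℕ) (s : ℝ) (hs : 0 < s) (hs1 : s ≤ 1) (b : Bool) (g : Wd → ℝ)
    (hg0 : ∀ w, 0 ≤ g w) (hg1 : ∀ w, g w ≤ 1) :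
    0 ≤ s ^ (n - h) * ∑ w ∈ (NoCut n).filter (fun w => inC b h (spn w)), g w ∧
    s ^ (n - h) * ∑ w ∈ (NoCut n).filter (fun w => inC b h (spn w)), g w ≤ EXPM.NCs n s := by
  have hpw : 0 < s ^ (n - h) := pow_pos hs _
  refine ⟨mul_nonneg hpw.le (Finset.sum_nonneg fun w _ => hg0 w), ?_⟩
  rw [Finset.mul_sum]
  unfold EXPM.NCs
  refine (Finset.sum_le_sum fun w hw => ?_).trans
    (Finset.sum_le_sum_of_subset_of_nonneg (Finset.filter_subset _ _) fun w _ _ => by positivity)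
  have h3 := SAPC.inC_le b h _ (Finset.mem_filter.1 hw).2
  have h4 : s ^ (n - h) ≤ s ^ (n - spn w) := pow_le_pow_of_le_one hs.le hs1 (by omega)
  calc s ^ (n - h) * g w ≤ s ^ (n - h) * 1 := mul_le_mul_of_nonneg_left (hg1 w) hpw.le
    _ = s ^ (n - h) := mul_one _
    _ ≤ _ := h4

lemma sc_pos (n : ℕ) (hn : 1 ≤ n) : 0 < sc n := by
  have h1 : (1 : ℝ) ≤ n := by exact_mod_cast hn
  exact lt_of_lt_of_le (by linarith) (SAPC.sc_ge n hn)

open Classical in
/-- The Laplace transform of a class. -/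
lemma clsEst (hTR : FL.TR_Stmt) (n h : ℕ) (hn : 1 ≤ n) (s : ℝ) (hs : 0 < s) (hs1 : s ≤ 1)
    (b : Bool) (t Y e1 e2 e3 : ℝ) (ht : 0 ≤ t)
    (hL : |s ^ (n - h) * ∑ q ∈ (Omn n).filter (fun q => inC b h (sp q)),
      Real.exp (-(t * arq n q)) - Y| ≤ e1)
    (hB : t * (s ^ (n - h) * ∑ q ∈ (Omn n).filter (fun q => inC b h (sp q)),
      |(|(dq q : ℝ)| - (arq n q : ℝ))|) ≤ e2)
    (hN : EXPM.NCs n s / (4 * n) ≤ e3) :
    |s ^ (n - h) * (∑ x ∈ cls n b h, Real.exp (-(t * (2 * area n x)))) / (4 * n) - Y| ≤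
      e1 + e2 + e3 := by
  have hn1 : (0 : ℝ) < n := by exact_mod_cast hn
  have hsc : sc n ≠ 0 := (sc_pos n hn).ne'
  have hpw : 0 < s ^ (n - h) := pow_pos hs _
  have e : ∀ y : ℝ, sc n * (y / sc n) = y := fun y => by field_simp
  have hsum := SAPC.cls_sum hTR n hn (inC b h) (fun y => Real.exp (-(t * (sc n * y))))
  simp only [e] at hsum
  have hsum' : ∑ x ∈ cls n b h, Real.exp (-(t * (2 * area n x))) =
      4 * n * ∑ q ∈ (Omn n).filter (fun q => inC b h (sp q)), Real.exp (-(t * |(dq q : ℝ)|)) +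
        ∑ w ∈ (NoCut n).filter (fun w => inC b h (spn w)),
          Real.exp (-(t * |((dbl 0 w : ℤ) : ℝ)|)) := hsum
  rw [hsum']
  obtain ⟨hR0, hR1⟩ := nc_bound n h s hs hs1 b (fun w => Real.exp (-(t * |((dbl 0 w : ℤ) : ℝ)|)))
    (fun w => (Real.exp_pos _).le) (fun w => Real.exp_le_one_iff.2 (by
      have := mul_nonneg ht (abs_nonneg ((dbl 0 w : ℤ) : ℝ))
      linarith))
  have hD := sum_diff ((Omn n).filter (fun q => inC b h (sp q))) (fun _ => 1)
    (fun q => |(dq q : ℝ)|) (fun q => (arq n q : ℝ)) t ht (fun _ _ => zero_le_one)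
    (fun _ _ => abs_nonneg _) (fun _ _ => Nat.cast_nonneg _)
  simp only [one_mul] at hD
  set D := ∑ q ∈ (Omn n).filter (fun q => inC b h (sp q)), Real.exp (-(t * |(dq q : ℝ)|)) with hDd
  set E := ∑ q ∈ (Omn n).filter (fun q => inC b h (sp q)), Real.exp (-(t * (arq n q : ℝ))) with hEd
  set R := ∑ w ∈ (NoCut n).filter (fun w => inC b h (spn w)),
    Real.exp (-(t * |((dbl 0 w : ℤ) : ℝ)|)) with hRd
  set B := ∑ q ∈ (Omn n).filter (fun q => inC b h (sp q)), |(|(dq q : ℝ)| - (arq n q : ℝ))|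
    with hBd
  have h1 : s ^ (n - h) * (4 * n * D + R) / (4 * n) - Y =
      (s ^ (n - h) * E - Y) + s ^ (n - h) * (D - E) + s ^ (n - h) * R / (4 * n) := by
    field_simp
    ring
  rw [h1]
  have h2 : |s ^ (n - h) * (D - E)| ≤ e2 := by
    rw [abs_mul, abs_of_pos hpw]
    refine le_trans (mul_le_mul_of_nonneg_left hD hpw.le) ?_
    calc s ^ (n - h) * (t * B) = t * (s ^ (n - h) * B) := by ring
      _ ≤ e2 := hB
  have h3 : |s ^ (n - h) * R / (4 * n)| ≤ e3 := by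
    rw [abs_of_nonneg (by positivity)]
    exact (div_le_div_of_nonneg_right hR1 (by positivity)).trans hN
  calc |(s ^ (n - h) * E - Y) + s ^ (n - h) * (D - E) + s ^ (n - h) * R / (4 * n)|
      ≤ |s ^ (n - h) * E - Y| + |s ^ (n - h) * (D - E)| + |s ^ (n - h) * R / (4 * n)| :=
        abs_add_three _ _ _
    _ ≤ _ := add_le_add (add_le_add hL h2) h3

/-- The Laplace transform under a force. -/
lemma forceEst (hHG : FL.HG_Stmt) (hTR : FL.TR_Stmt) (n : ℕ) (hn : 1 ≤ n) (f t e2 e3 : ℝ)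
    (ht : 0 ≤ t)
    (hB : t * (∑ q ∈ Omn n, wtq n (Real.exp (-f)) q * |(|(dq q : ℝ)| - (arq n q : ℝ))|) ≤ e2)
    (hN : EXPM.NCs n (Real.exp (-f)) / (4 * n) ≤ e3) :
    |Real.exp (-(f * n)) * (∑ x ∈ SAP n, Real.exp (f * span n x) *
      Real.exp (-(t * (2 * area n x)))) / (4 * n) - Ta n (Real.exp (-f)) t| ≤ e2 + e3 := by
  have hn1 : (0 : ℝ) < n := by exact_mod_cast hn
  have hsc : sc n ≠ 0 := (sc_pos n hn).ne'
  have e : ∀ y : ℝ, sc n * (y / sc n) = y := fun y => by field_simp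
  have hsum := SAPC.force_sum hHG hTR n hn f (fun y => Real.exp (-(t * (sc n * y))))
  simp only [e] at hsum
  rw [hsum]
  have hs : 0 < Real.exp (-f) := Real.exp_pos _
  have hw : ∀ q ∈ Omn n, 0 ≤ wtq n (Real.exp (-f)) q := fun q _ => by
    unfold wtq
    positivity
  have hR0 : 0 ≤ ∑ w ∈ NoCut n, Real.exp (-f) ^ (n - spn w) *
      Real.exp (-(t * |((dbl 0 w : ℤ) : ℝ)|)) :=
    Finset.sum_nonneg fun w _ => by positivity
  have hR1 : ∑ w ∈ NoCut n, Real.exp (-f) ^ (n - spn w) *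
      Real.exp (-(t * |((dbl 0 w : ℤ) : ℝ)|)) ≤ EXPM.NCs n (Real.exp (-f)) := by
    unfold EXPM.NCs
    refine Finset.sum_le_sum fun w _ => ?_
    have h1 : Real.exp (-(t * |((dbl 0 w : ℤ) : ℝ)|)) ≤ 1 := Real.exp_le_one_iff.2 (by
      have := mul_nonneg ht (abs_nonneg ((dbl 0 w : ℤ) : ℝ))
      linarith)
    have h2 : 0 ≤ Real.exp (-f) ^ (n - spn w) := by positivity
    calc Real.exp (-f) ^ (n - spn w) * Real.exp (-(t * |((dbl 0 w : ℤ) : ℝ)|))
        ≤ Real.exp (-f) ^ (n - spn w) * 1 := mul_le_mul_of_nonneg_left h1 h2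
      _ = _ := mul_one _
  have hD := sum_diff (Omn n) (fun q => wtq n (Real.exp (-f)) q)
    (fun q => |(dq q : ℝ)|) (fun q => (arq n q : ℝ)) t ht hw
    (fun _ _ => abs_nonneg _) (fun _ _ => Nat.cast_nonneg _)
  unfold Ta
  set D := ∑ q ∈ Omn n, wtq n (Real.exp (-f)) q * Real.exp (-(t * |(dq q : ℝ)|)) with hDd
  set E := ∑ q ∈ Omn n, wtq n (Real.exp (-f)) q * Real.exp (-(t * (arq n q : ℝ))) with hEd
  set R := ∑ w ∈ NoCut n, Real.exp (-f) ^ (n - spn w) *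
      Real.exp (-(t * |((dbl 0 w : ℤ) : ℝ)|)) with hRd
  have hexp : Real.exp (-(f * n)) * Real.exp (f * n) = 1 := by
    rw [← Real.exp_add, neg_add_cancel, Real.exp_zero]
  have h1 : Real.exp (-(f * n)) * (Real.exp (f * n) * (4 * n * D + R)) / (4 * n) - E =
      (D - E) + R / (4 * n) := by
    rw [← mul_assoc, hexp, one_mul]
    field_simp
    ring
  rw [h1]
  have h3 : |R / (4 * n)| ≤ e3 := by
    rw [abs_of_nonneg (by positivity)]
    exact (div_le_div_of_nonneg_right hR1 (by positivity)).trans hN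
  exact (abs_add_le _ _).trans (add_le_add (hD.trans hB) h3)

lemma Ta_zero (n : ℕ) (s : ℝ) : Ta n s 0 = Zq n s := by
  unfold Ta Zq
  refine Finset.sum_congr rfl fun q _ => ?_
  rw [zero_mul, neg_zero, Real.exp_zero, mul_one]

lemma Ta_nonneg (n : ℕ) (s t : ℝ) (hs : 0 < s) : 0 ≤ Ta n s t := by
  unfold Ta
  refine Finset.sum_nonneg fun q _ => ?_
  unfold wtq
  positivity

lemma Ta_le (n : ℕ) (s t : ℝ) (hs : 0 < s) (ht : 0 ≤ t) : Ta n s t ≤ Zq n s := by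
  unfold Ta Zq
  refine Finset.sum_le_sum fun q _ => ?_
  have h1 : 0 ≤ wtq n s q := by
    unfold wtq
    positivity
  have h2 : Real.exp (-(t * arq n q)) ≤ 1 := Real.exp_le_one_iff.2 (by
    have := mul_nonneg ht (Nat.cast_nonneg (α := ℝ) (arq n q))
    linarith)
  calc wtq n s q * Real.exp (-(t * arq n q)) ≤ wtq n s q * 1 := mul_le_mul_of_nonneg_left h2 h1
    _ = _ := mul_one _

/-- A large power. -/
lemma big (c3 : ℝ) (hc3 : 0 < c3) : ∃ N : ℕ, ∀ n : ℕ, N ≤ n → (16 : ℝ) ≤ (n : ℝ) ^ c3 := by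
  refine ⟨⌈(16 : ℝ) ^ (1 / c3)⌉₊, fun n hn => ?_⟩
  have h1 : (16 : ℝ) ^ (1 / c3) ≤ n := (Nat.le_ceil _).trans (by exact_mod_cast hn)
  have h2 := Real.rpow_le_rpow (by positivity) h1 hc3.le
  rwa [← Real.rpow_mul (by norm_num), one_div_mul_cancel hc3.ne', Real.rpow_one] at h2

end Pool.Agent.PFS.SAPLm

namespace Pool.Agent.PFS

open Finset Filter Topology MeasureTheory
open Pool.Agent.Lib27 Pool.Agent.SapR Pool.Agent.Gap Pool.Agent.AreaLaw Pool.Agent.FL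
open Pool.Agent.FS SAPLm

theorem t_SAPL (h1 : LCL_Stmt) (h2 : BLC_Stmt) (h3 : FFA_Stmt) (h4 : FFP_Stmt) (h5 : NCB_Stmt)
    (h6 : FL.TR_Stmt) (h7 : FL.HG_Stmt) : SAPL_Stmt := by
  classical
  intro f1
  obtain ⟨c2, hc2, hL⟩ := h1 f1
  obtain ⟨c3, hc3d⟩ : ∃ c3 : ℝ, c3 = min (c2 / 4) (1 / 16) := ⟨_, rfl⟩
  have hc3 : 0 < c3 := by rw [hc3d]; positivity
  have hc3a : 4 * c3 ≤ c2 := by
    have : c3 ≤ c2 / 4 := by rw [hc3d]; exact min_le_left _ _
    linarith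
  have hc3b : c3 ≤ 1 / 16 := by rw [hc3d]; exact min_le_right _ _
  obtain ⟨ca, hca, Na, ha⟩ := hL c3 hc3
  obtain ⟨cb, hcb, Nb, hb⟩ := h2 f1 1 c3 hc3
  obtain ⟨cc, hcc, Nc, hc⟩ := h3 c3 hc3
  obtain ⟨cd, hcd, Nd, hd⟩ := h4 1 c3 hc3
  obtain ⟨ce, hce, Ne, he⟩ := h5 1
  obtain ⟨N0, hN0⟩ := big c3 hc3
  refine ⟨c3, hc3, min ca (min cb (min cc (min cd ce))), by positivity,
    max Na (max Nb (max Nc (max Nd (max Ne (max N0 1))))), ?_⟩
  intro n hn f hf hf1 h hh hcen b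
  have hnle : Na ≤ n ∧ Nb ≤ n ∧ Nc ≤ n ∧ Nd ≤ n ∧ Ne ≤ n ∧ N0 ≤ n ∧ 1 ≤ n := by
    simpa only [max_le_iff] using hn
  obtain ⟨hna, hnb, hnc, hnd, hne, hn0, hn1⟩ := hnle
  have hwin : ∀ c' : ℝ, min ca (min cb (min cc (min cd ce))) ≤ c' → (n : ℝ) ^ (-c') ≤ f :=
    fun c' hc' => win_mono hc' hn1 hf
  have wa := hwin ca (min_le_left _ _)
  have wb := hwin cb ((min_le_right _ _).trans (min_le_left _ _))
  have wc := hwin cc ((min_le_right _ _).trans ((min_le_right _ _).trans (min_le_left _ _)))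
  have wd := hwin cd ((min_le_right _ _).trans ((min_le_right _ _).trans
    ((min_le_right _ _).trans (min_le_left _ _))))
  have we := hwin ce ((min_le_right _ _).trans ((min_le_right _ _).trans
    ((min_le_right _ _).trans (min_le_right _ _))))
  obtain ⟨G, hG, hGL⟩ := ha n hna f wa hf1 h hh hcen b
  have hB := (hb n hnb f wb hf1 h hh b).2
  obtain ⟨hf0, ρ, Dd, hρ1, hρ2, hcrit, hD2, hDn, htails, hz1, hz2, hmean⟩ := hc n hnc f wc
  have hF := (hd n hnd f wd).2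
  have hNC := he n hne f we
  have h16 := hN0 n hn0
  -- numbers
  have hx1 : (1 : ℝ) ≤ n := by exact_mod_cast hn1
  have hx0 : (0 : ℝ) < n := by linarith
  obtain ⟨s, hsd⟩ : ∃ s : ℝ, s = Real.exp (-f) := ⟨_, rfl⟩
  have hs : 0 < s := by rw [hsd]; exact Real.exp_pos _
  have hs1 : s ≤ 1 := by rw [hsd]; exact Real.exp_le_one_iff.2 (by linarith)
  have hZ : 0 < Zq n s := by
    by_contra hneg
    push Not at hneg
    have hρ : 0 < ρ := by linarith
    have h8 : sc n * ρ ^ n * Zq n s ≤ 0 :=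
      mul_nonpos_of_nonneg_of_nonpos (mul_nonneg (sc_pos n hn1).le (pow_pos hρ n).le) hneg
    have h9 : 0 < (n : ℝ) ^ (-c3) := Real.rpow_pos_of_pos hx0 _
    rw [hsd] at h8
    linarith
  rw [← hsd] at hGL hB hF hNC
  simp only [pow_one] at hB hF hNC
  -- the powers of `n`
  have hmono : ∀ a b : ℝ, a ≤ b → (n : ℝ) ^ a ≤ (n : ℝ) ^ b := fun a b hab =>
    Real.rpow_le_rpow_of_exponent_le hx1 hab
  have hNCe : EXPM.NCs n s / (4 * n) ≤ (n : ℝ) ^ (-(1 / 2) - 3 * c3) * Zq n s := by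
    have h8 : EXPM.NCs n s ≤ Zq n s / n := by
      rw [le_div_iff₀ hx0, mul_comm]
      exact hNC
    have h9 : EXPM.NCs n s / (4 * n) ≤ Zq n s / n := by
      have h10 : 0 ≤ Zq n s / n := by positivity
      rw [div_le_iff₀ (by positivity)]
      nlinarith
    refine h9.trans ?_
    rw [div_eq_mul_inv, mul_comm]
    refine mul_le_mul_of_nonneg_right ?_ hZ.le
    rw [← Real.rpow_neg_one]
    exact hmono _ _ (by linarith)
  have hNCf : EXPM.NCs n s / (4 * n) ≤ (n : ℝ) ^ (-(2 * c3)) * Zq n s :=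
    hNCe.trans (mul_le_mul_of_nonneg_right (hmono _ _ (by linarith)) hZ.le)
  -- the class
  have hclass : ∀ t : ℝ, 0 ≤ t → t ≤ (n : ℝ) ^ (-(3 / 2) + c3) →
      |s ^ (n - h) * (∑ x ∈ cls n b h, Real.exp (-(t * (2 * area n x)))) / (4 * n) -
        G * Ta n s t| ≤ (3 * (n : ℝ) ^ (-(1 / 2) - 3 * c3)) * Zq n s := by
    intro t ht0 ht
    have h2n : t * (2 * n + 2) ≤ 1 := by
      have h8 : (2 * n + 2 : ℝ) ≤ 4 * n := by linarith
      have h9 : t * (2 * n + 2) ≤ (n : ℝ) ^ (-(3 / 2) + c3) * (4 * n) :=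
        mul_le_mul ht h8 (by positivity) (by positivity)
      have h10 : (n : ℝ) ^ (-(3 / 2) + c3) * (4 * n) = 4 * (n : ℝ) ^ (-(1 / 2) + c3) := by
        have : (n : ℝ) ^ (-(1 / 2) + c3) = (n : ℝ) ^ (-(3 / 2) + c3) * (n : ℝ) ^ (1 : ℝ) := by
          rw [← Real.rpow_add hx0]
          congr 1
          ring
        rw [this, Real.rpow_one]
        ring
      have h11 : (n : ℝ) ^ (-(1 / 2) + c3) ≤ (n : ℝ) ^ (-c3) := hmono _ _ (by linarith)
      have h12 : (n : ℝ) ^ (-c3) ≤ 1 / 16 := by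
        rw [Real.rpow_neg hx0.le, ← one_div]
        exact one_div_le_one_div_of_le (by norm_num) h16
      linarith
    have hL1 := hGL t ht0 h2n
    have hBt : t * (s ^ (n - h) * ∑ q ∈ (Omn n).filter (fun q => inC b h (sp q)),
        |(|(dq q : ℝ)| - (arq n q : ℝ))|) ≤ (n : ℝ) ^ (-(1 / 2) - 3 * c3) * Zq n s := by
      have h8 : 0 ≤ s ^ (n - h) * ∑ q ∈ (Omn n).filter (fun q => inC b h (sp q)),
          |(|(dq q : ℝ)| - (arq n q : ℝ))| :=
        mul_nonneg (pow_pos hs _).le (Finset.sum_nonneg fun _ _ => abs_nonneg _)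
      refine (mul_le_mul ht hB h8 (by positivity)).trans ?_
      have h9 : (n : ℝ) ^ (-(3 / 2) + c3) * ((n : ℝ) ^ (-(1 / 2) + c3) * (n * Zq n s)) =
          (n : ℝ) ^ (-1 + 2 * c3) * Zq n s := by
        have : (n : ℝ) ^ (-1 + 2 * c3) = (n : ℝ) ^ (-(3 / 2) + c3) *
            (n : ℝ) ^ (-(1 / 2) + c3) * (n : ℝ) ^ (1 : ℝ) := by
          rw [← Real.rpow_add hx0, ← Real.rpow_add hx0]
          congr 1
          ring
        rw [this, Real.rpow_one]
        ring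
      rw [h9]
      exact mul_le_mul_of_nonneg_right (hmono _ _ (by linarith)) hZ.le
    have hL2 : (n : ℝ) ^ (-(1 / 2) - c2) * Zq n s ≤ (n : ℝ) ^ (-(1 / 2) - 3 * c3) * Zq n s :=
      mul_le_mul_of_nonneg_right (hmono _ _ (by linarith)) hZ.le
    have h10 := clsEst h6 n h hn1 s hs hs1 b t _ _ _ _ ht0 (hL1.trans hL2) hBt hNCe
    refine h10.trans (le_of_eq ?_)
    ring
  -- the force
  have hforce : ∀ t : ℝ, 0 ≤ t → t ≤ (n : ℝ) ^ (-(3 / 2) + c3) →
      |Real.exp (-(f * n)) * (∑ x ∈ SAP n, Real.exp (f * span n x) *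
        Real.exp (-(t * (2 * area n x)))) / (4 * n) - Ta n s t| ≤
          (2 * (n : ℝ) ^ (-(2 * c3))) * Zq n s := by
    intro t ht0 ht
    have hBt : t * (∑ q ∈ Omn n, wtq n s q * |(|(dq q : ℝ)| - (arq n q : ℝ))|) ≤
        (n : ℝ) ^ (-(2 * c3)) * Zq n s := by
      have h8 : 0 ≤ ∑ q ∈ Omn n, wtq n s q * |(|(dq q : ℝ)| - (arq n q : ℝ))| :=
        Finset.sum_nonneg fun q _ => mul_nonneg (by unfold wtq; positivity) (abs_nonneg _)
      refine (mul_le_mul ht hF h8 (by positivity)).trans ?_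
      have h9 : (n : ℝ) ^ (-(3 / 2) + c3) * ((n : ℝ) ^ c3 * (n * Zq n s)) =
          (n : ℝ) ^ (-(1 / 2) + 2 * c3) * Zq n s := by
        have : (n : ℝ) ^ (-(1 / 2) + 2 * c3) = (n : ℝ) ^ (-(3 / 2) + c3) *
            (n : ℝ) ^ c3 * (n : ℝ) ^ (1 : ℝ) := by
          rw [← Real.rpow_add hx0, ← Real.rpow_add hx0]
          congr 1
          ring
        rw [this, Real.rpow_one]
        ring
      rw [h9]
      exact mul_le_mul_of_nonneg_right (hmono _ _ (by linarith)) hZ.le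
    subst hsd
    have h10 := forceEst h7 h6 n hn1 f t _ _ ht0 hBt hNCf
    refine h10.trans (le_of_eq ?_)
    ring
  have hpow0 : (0 : ℝ) ≤ (n : ℝ) ^ (-(3 / 2) + c3) := by positivity
  have hc0 := hclass 0 le_rfl hpow0
  have hf0' := hforce 0 le_rfl hpow0
  have hcard : ∑ x ∈ cls n b h, Real.exp (-(0 * (2 * area n x))) = (cls n b h).card := by
    simp
  have hfz : ∑ x ∈ SAP n, Real.exp (f * span n x) * Real.exp (-(0 * (2 * area n x))) =
      forceZ f n := by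
    unfold forceZ
    simp
  rw [hcard, Ta_zero] at hc0
  rw [hfz, Ta_zero] at hf0'
  have hexp : 0 < Real.exp (-(f * n)) := Real.exp_pos _
  have hZle : Zq n s ≤ Real.exp (-(f * n)) * forceZ f n / (4 * n) := by
    rw [EXPM.forceZ_eq h7 h6 n hn1 f, ← hsd, ← mul_assoc, ← Real.exp_add, neg_add_cancel,
      Real.exp_zero, one_mul, le_div_iff₀ (by positivity)]
    have : 0 ≤ EXPM.NCs n s := Finset.sum_nonneg fun w _ => by positivity
    linarith
  have hGpos : 0 < G := lt_of_lt_of_le (by positivity) hG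
  have hpc : (0 : ℝ) < (n : ℝ) ^ (-(2 * c3)) := by positivity
  have h2c : (n : ℝ) ^ (-(2 * c3)) * 16 ≤ (n : ℝ) ^ (-c3) := by
    have h8 : (n : ℝ) ^ (-c3) = (n : ℝ) ^ (-(2 * c3)) * (n : ℝ) ^ c3 := by
      rw [← Real.rpow_add hx0]
      congr 1
      ring
    rw [h8]
    exact mul_le_mul_of_nonneg_left h16 hpc.le
  have hsplit : (n : ℝ) ^ (-(1 / 2) - 3 * c3) = (n : ℝ) ^ (-(2 * c3)) *
      (n : ℝ) ^ (-(1 / 2) - c3) := by
    rw [← Real.rpow_add hx0]
    congr 1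
    ring
  have he2 : 2 * (3 * (n : ℝ) ^ (-(1 / 2) - 3 * c3)) ≤ G := by
    have h8 : (n : ℝ) ^ (-(2 * c3)) * 16 ≤ 1 := by
      refine h2c.trans ?_
      exact Real.rpow_le_one_of_one_le_of_nonpos hx1 (by linarith)
    have h9 : 0 < (n : ℝ) ^ (-(1 / 2) - c3) := by positivity
    rw [hsplit]
    nlinarith
  have hquot : 4 * (3 * (n : ℝ) ^ (-(1 / 2) - 3 * c3)) / G ≤ 12 * (n : ℝ) ^ (-(2 * c3)) := by
    rw [div_le_iff₀ hGpos, hsplit]
    have h9 : (n : ℝ) ^ (-(2 * c3)) * (n : ℝ) ^ (-(1 / 2) - c3) ≤ (n : ℝ) ^ (-(2 * c3)) * G :=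
      mul_le_mul_of_nonneg_left hG hpc.le
    linarith
  have hcorE : ∀ t : ℝ, 0 ≤ t → t ≤ (n : ℝ) ^ (-(3 / 2) + c3) →
      0 < s ^ (n - h) * (cls n b h).card / (4 * n) ∧
      |(s ^ (n - h) * (∑ x ∈ cls n b h, Real.exp (-(t * (2 * area n x)))) / (4 * n)) /
        (s ^ (n - h) * (cls n b h).card / (4 * n)) -
        (Real.exp (-(f * n)) * (∑ x ∈ SAP n, Real.exp (f * span n x) *
          Real.exp (-(t * (2 * area n x)))) / (4 * n)) /
          (Real.exp (-(f * n)) * forceZ f n / (4 * n))| ≤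
        4 * (3 * (n : ℝ) ^ (-(1 / 2) - 3 * c3)) / G + 2 * (2 * (n : ℝ) ^ (-(2 * c3))) :=
    fun t ht0 ht => core hZ (Ta_nonneg n s t hs) (Ta_le n s t hs ht0) hGpos (by positivity) he2
      (by positivity) (hclass t ht0 ht) hc0 (hforce t ht0 ht) hf0' hZle
  have hpos := (hcorE 0 le_rfl hpow0).1
  have hpw : 0 < s ^ (n - h) := pow_pos hs _
  have hcardpos : 0 < (cls n b h).card := by
    by_contra hneg
    have h8 : (cls n b h).card = 0 := by omega
    rw [h8] at hpos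
    simp at hpos
  have hfzpos : 0 < forceZ f n := by
    by_contra hneg
    push Not at hneg
    have h8 : Real.exp (-(f * n)) * forceZ f n / (4 * n) ≤ 0 :=
      div_nonpos_of_nonpos_of_nonneg (mul_nonpos_of_nonneg_of_nonpos hexp.le hneg) (by positivity)
    linarith
  refine ⟨hcardpos, hfzpos, fun t ht0 ht => ?_⟩
  have hmain := (hcorE t ht0 ht).2
  have q1 : ∀ u v : ℝ, (s ^ (n - h) * u / (4 * n)) / (s ^ (n - h) * v / (4 * n)) = u / v := by
    intro u v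
    rw [div_div_div_cancel_right₀ (by positivity), mul_div_mul_left _ _ hpw.ne']
  have q2 : ∀ u v : ℝ, (Real.exp (-(f * n)) * u / (4 * n)) /
      (Real.exp (-(f * n)) * v / (4 * n)) = u / v := by
    intro u v
    rw [div_div_div_cancel_right₀ (by positivity), mul_div_mul_left _ _ hexp.ne']
  rw [q1, q2] at hmain
  refine hmain.trans ?_
  linarith

end Pool.Agent.PFS
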