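import Pool.Agent.PFS.StmtsC
import Pool.Agent.Lib_helper74.FS.SAPC
import Pool.Agent.Lib_helper74.FS.Final

/-!
# Project PFS (MP_f6626d_co): module SAPM

Moments of the area in the frozen encoding.
-/

set_option autoImplicit false

namespace Pool.Agent.PFS.SAPM

open Finset Filter Topology MeasureTheory
open Pool.Agent.Lib27 Pool.Agent.SapR Pool.Agent.Gap Pool.Agent.AreaLaw Pool.Agent.FL
open Pool.Agent.FS

lemma big (e : ℝ) (he : 0 < e) (M : ℝ) : ∃ N : ℕ, ∀ n : ℕ, N ≤ n → M ≤ (n : ℝ) ^ e := by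
  have h := ((tendsto_rpow_atTop he).comp tendsto_natCast_atTop_atTop).eventually_ge_atTop M
  exact eventually_atTop.1 h

lemma pw (y a : ℝ) (p : ℕ) (hy : 0 ≤ y) (ha : 0 ≤ a) :
    y ^ p ≤ 2 ^ p * (a ^ p + |y - a| ^ p) := by
  have h1 : y ≤ a + |y - a| := by linarith [le_abs_self (y - a)]
  have h2 := pow_le_pow_left₀ hy h1 p
  have h3 := add_pow_le ha (abs_nonneg (y - a)) p
  have h4 : (2 : ℝ) ^ (p - 1) ≤ 2 ^ p := pow_le_pow_right₀ (by norm_num) (Nat.sub_le _ _)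
  have h5 : 0 ≤ a ^ p + |y - a| ^ p := by positivity
  calc y ^ p ≤ (a + |y - a|) ^ p := h2
    _ ≤ 2 ^ (p - 1) * (a ^ p + |y - a| ^ p) := h3
    _ ≤ _ := mul_le_mul_of_nonneg_right h4 h5

lemma rp1 (x e : ℝ) (hx : 0 < x) : x ^ (-(1 / 2) - e) * (Real.sqrt x * x ^ e) = 1 := by
  rw [Real.sqrt_eq_rpow, ← Real.rpow_add hx, ← Real.rpow_add hx]
  have : -(1 / 2) - e + (1 / 2 + e) = 0 := by ring
  rw [this, Real.rpow_zero]

lemma rp2 (x e : ℝ) (hx : 0 < x) : x ^ (-(1 / 2) + e) * Real.sqrt x = x ^ e := by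
  rw [Real.sqrt_eq_rpow, ← Real.rpow_add hx]
  congr 1
  ring

open Classical in
lemma cls_pow (hTR : TR_Stmt) (n : ℕ) (hn : 1 ≤ n) (b : Bool) (h p : ℕ) :
    ∑ x ∈ cls n b h, (2 * area n x) ^ p =
      4 * n * ∑ q ∈ (Omn n).filter (fun q => inC b h (sp q)), |(dq q : ℝ)| ^ p +
        ∑ w ∈ (NoCut n).filter (fun w => inC b h (spn w)), |((dbl 0 w : ℤ) : ℝ)| ^ p := by
  have hs : sc n ≠ 0 := (sc_pos hn).ne'
  have h1 := SAPC.cls_sum hTR n hn (inC b h) (fun y => (y * sc n) ^ p)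
  simp only [div_mul_cancel₀ _ hs] at h1
  exact h1

open Classical in
lemma cls_card (hTR : TR_Stmt) (n : ℕ) (hn : 1 ≤ n) (b : Bool) (h : ℕ) :
    4 * n * (((Omn n).filter (fun q => inC b h (sp q))).card : ℝ) ≤ (cls n b h).card := by
  have h1 := SAPC.cls_sum hTR n hn (inC b h) (fun _ => 1)
  simp only [Finset.sum_const, nsmul_eq_mul, mul_one] at h1
  have h2 : ((cls n b h).card : ℝ) = ((SAP n).filter (fun s => inC b h (span n s))).card := rfl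
  rw [h2, h1]
  have h3 : (0 : ℝ) ≤ (((NoCut n).filter (fun w => inC b h (spn w))).card : ℝ) :=
    Nat.cast_nonneg _
  linarith

lemma force_pow (hHG : HG_Stmt) (hTR : TR_Stmt) (n : ℕ) (hn : 1 ≤ n) (f : ℝ) (p : ℕ) :
    ∑ x ∈ SAP n, Real.exp (f * span n x) * (2 * area n x) ^ p =
      Real.exp (f * n) * (4 * n * ∑ q ∈ Omn n, wtq n (Real.exp (-f)) q * |(dq q : ℝ)| ^ p +
        ∑ w ∈ NoCut n, Real.exp (-f) ^ (n - spn w) * |((dbl 0 w : ℤ) : ℝ)| ^ p) := by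
  have hs : sc n ≠ 0 := (sc_pos hn).ne'
  have h1 := SAPC.force_sum hHG hTR n hn f (fun y => (y * sc n) ^ p)
  simp only [div_mul_cancel₀ _ hs] at h1
  exact h1

lemma dbl_pow (n p : ℕ) (w : Wd) (hw : w ∈ NoCut n) :
    |((dbl 0 w : ℤ) : ℝ)| ^ p ≤ (4 * (n : ℝ) ^ 2) ^ p :=
  pow_le_pow_left₀ (abs_nonneg _) (SAPC.dbl_le n w hw) p

lemma nc_force (n p : ℕ) (s : ℝ) (hs : 0 < s) :
    ∑ w ∈ NoCut n, s ^ (n - spn w) * |((dbl 0 w : ℤ) : ℝ)| ^ p ≤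
      (4 * (n : ℝ) ^ 2) ^ p * FS.EXPM.NCs n s := by
  unfold FS.EXPM.NCs
  rw [Finset.mul_sum]
  refine Finset.sum_le_sum fun w hw => ?_
  rw [mul_comm]
  exact mul_le_mul_of_nonneg_right (dbl_pow n p w hw) (by positivity)

open Classical in
lemma nc_cls (n h p : ℕ) (b : Bool) (s : ℝ) (hs : 0 < s) (hs1 : s ≤ 1) :
    s ^ (n - h) * ∑ w ∈ (NoCut n).filter (fun w => inC b h (spn w)),
        |((dbl 0 w : ℤ) : ℝ)| ^ p ≤ (4 * (n : ℝ) ^ 2) ^ p * FS.EXPM.NCs n s := by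
  unfold FS.EXPM.NCs
  rw [Finset.mul_sum, Finset.mul_sum]
  refine (Finset.sum_le_sum fun w hw => ?_).trans (Finset.sum_le_sum_of_subset_of_nonneg
    (Finset.filter_subset _ _) fun w _ _ => by positivity)
  rw [Finset.mem_filter] at hw
  have h1 := SAPC.inC_le b h _ hw.2
  have h2 : s ^ (n - h) ≤ s ^ (n - spn w) := pow_le_pow_of_le_one hs.le hs1 (by omega)
  rw [mul_comm]
  exact mul_le_mul (dbl_pow n p w hw.1) h2 (by positivity) (by positivity)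

lemma NCs_nonneg (n : ℕ) (s : ℝ) (hs : 0 < s) : 0 ≤ FS.EXPM.NCs n s :=
  Finset.sum_nonneg fun w _ => by positivity

/-- the numerical part -/
lemma num (p n : ℕ) (hn : 1 ≤ n) (Z NC : ℝ) (hNC : 0 ≤ NC)
    (hN : (n : ℝ) ^ (2 * p) * NC ≤ Z) :
    (n : ℝ) ^ p ≤ sc n ^ p ∧ 1 ≤ sc n ^ p ∧ (4 * (n : ℝ) ^ 2) ^ p * NC ≤ 4 ^ p * Z ∧ NC ≤ Z := by
  have hx : (1 : ℝ) ≤ n := by exact_mod_cast hn
  have h1 := SAPC.sc_ge n hn
  have h2 : (n : ℝ) ^ p ≤ sc n ^ p := pow_le_pow_left₀ (by linarith) h1 p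
  have h3 : (1 : ℝ) ≤ (n : ℝ) ^ p := one_le_pow₀ hx
  refine ⟨h2, h3.trans h2, ?_, ?_⟩
  · calc (4 * (n : ℝ) ^ 2) ^ p * NC = 4 ^ p * ((n : ℝ) ^ (2 * p) * NC) := by
          rw [mul_pow, ← pow_mul]
          ring
      _ ≤ 4 ^ p * Z := mul_le_mul_of_nonneg_left hN (by positivity)
  · have h4 : (1 : ℝ) ≤ (n : ℝ) ^ (2 * p) := one_le_pow₀ hx
    nlinarith

lemma a1 (S K G Z q A B P1 P2 C n : ℝ) (hqq : q * q = n) (hq : 0 < q) (hA : 2 ≤ A)
    (hB : A ^ 2 ≤ B) (hZ : 0 < Z) (hG : P1 ≤ G) (r1 : P1 * (q * A) = 1) (r2 : P2 * (q * B) = 1)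
    (hge : |S * K - G * Z| ≤ P2 * Z) (hC : 4 * n * K ≤ C) (hS : 0 ≤ S) :
    2 * q * Z ≤ A * (S * C) := by
  have hB0 : 0 < B := lt_of_lt_of_le (by positivity) hB
  have hP2 : 0 < P2 := by
    by_contra h
    have h1 : P2 * (q * B) ≤ 0 := mul_nonpos_of_nonpos_of_nonneg (not_lt.1 h) (by positivity)
    linarith
  have e1 : 2 * A ≤ B := by nlinarith
  have e2 : P2 * (q * (2 * A)) ≤ 1 := by
    rw [← r2]
    exact mul_le_mul_of_nonneg_left (mul_le_mul_of_nonneg_left e1 hq.le) hP2.le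
  have e3 : G * Z - P2 * Z ≤ S * K := by linarith [(abs_le.1 hge).1]
  have e4 : P1 * Z ≤ G * Z := mul_le_mul_of_nonneg_right hG hZ.le
  have e5 : (P1 * Z - P2 * Z) * (q * A) ≤ S * K * (q * A) :=
    mul_le_mul_of_nonneg_right (by linarith) (by positivity)
  have e6 : (P1 * Z - P2 * Z) * (q * A) = Z - (P2 * (q * (2 * A))) * Z / 2 := by
    have : (P1 * Z - P2 * Z) * (q * A) = (P1 * (q * A)) * Z - (P2 * (q * (2 * A))) * Z / 2 := by
      ring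
    rw [this, r1, one_mul]
  have e7 : (P2 * (q * (2 * A))) * Z ≤ 1 * Z := mul_le_mul_of_nonneg_right e2 hZ.le
  have e8 : Z / 2 ≤ S * K * (q * A) := by linarith
  have e9 : (4 * q) * (Z / 2) ≤ (4 * q) * (S * K * (q * A)) :=
    mul_le_mul_of_nonneg_left e8 (by positivity)
  have e10 : A * (S * (4 * n * K)) ≤ A * (S * C) :=
    mul_le_mul_of_nonneg_left (mul_le_mul_of_nonneg_left hC hS) (by linarith)
  have e11 : (4 * q) * (S * K * (q * A)) = A * (S * (4 * n * K)) := by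
    rw [← hqq]
    ring
  linarith

lemma a2 (p : ℕ) (S T M M1 M2 R Z q A C n D E N1 P4 W : ℝ) (hqq : q * q = n) (hq : 0 < q)
    (hA : 2 ≤ A) (hAq : 2 * A ^ 2 ≤ q) (hZ : 0 < Z) (hS : 0 < S)
    (hT : T = 4 * n * M + R) (hM : M ≤ 2 ^ p * (M1 + M2)) (hM1 : S * M1 ≤ P4 * (E * Z))
    (hM2 : S * M2 ≤ P4 * (N1 * Z)) (r4 : P4 * q = A) (hN : N1 ≤ E) (hE : 1 ≤ E)
    (hR : S * R ≤ W) (hW : W ≤ 4 ^ p * Z) (hC : 2 * q * Z ≤ A * (S * C))
    (hD : (2 ^ (p + 3) + 4 ^ p + 8) * A ^ 2 ≤ D) : T ≤ D * (E * C) := by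
  have hP4 : 0 < P4 := by
    by_contra h
    have h1 : P4 * q ≤ 0 := mul_nonpos_of_nonpos_of_nonneg (not_lt.1 h) hq.le
    linarith
  have hn : 0 < n := by rw [← hqq]; positivity
  have hSC : 0 < S * C := by
    by_contra h
    have h1 : A * (S * C) ≤ 0 := mul_nonpos_of_nonneg_of_nonpos (by linarith) (not_lt.1 h)
    have h2 : 0 < 2 * q * Z := by positivity
    linarith
  have e1 : S * M ≤ 2 ^ p * (2 * (P4 * (E * Z))) := by
    have h1 : S * M ≤ S * (2 ^ p * (M1 + M2)) := mul_le_mul_of_nonneg_left hM hS.le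
    have h2 : P4 * (N1 * Z) ≤ P4 * (E * Z) :=
      mul_le_mul_of_nonneg_left (mul_le_mul_of_nonneg_right hN hZ.le) hP4.le
    have h3 : S * (2 ^ p * (M1 + M2)) = 2 ^ p * (S * M1 + S * M2) := by ring
    have h4 : (2 : ℝ) ^ p * (S * M1 + S * M2) ≤ 2 ^ p * (2 * (P4 * (E * Z))) :=
      mul_le_mul_of_nonneg_left (by linarith) (by positivity)
    linarith
  have e2 : 4 * n * (S * M) ≤ 4 * n * (2 ^ p * (2 * (P4 * (E * Z)))) :=
    mul_le_mul_of_nonneg_left e1 (by positivity)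
  have e3 : 4 * n * (2 ^ p * (2 * (P4 * (E * Z)))) = 2 ^ (p + 3) * (A * E) * (q * Z) := by
    rw [← hqq, ← r4, pow_add]
    ring
  have e4 : S * R ≤ 4 ^ p * (A * E) * (q * Z) := by
    have h1 : (1 : ℝ) ≤ A * E * q := by
      have : 1 ≤ A * E := by nlinarith
      have : 1 ≤ q := by nlinarith
      nlinarith
    have h2 : (4 : ℝ) ^ p * Z * 1 ≤ 4 ^ p * Z * (A * E * q) :=
      mul_le_mul_of_nonneg_left h1 (by positivity)
    have h3 : (4 : ℝ) ^ p * Z * (A * E * q) = 4 ^ p * (A * E) * (q * Z) := by ring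
    linarith
  have e5 : S * T ≤ (2 ^ (p + 3) + 4 ^ p) * (A * E) * (q * Z) := by
    have : S * T = 4 * n * (S * M) + S * R := by rw [hT]; ring
    rw [this]
    have : (2 ^ (p + 3) + 4 ^ p) * (A * E) * (q * Z) =
      2 ^ (p + 3) * (A * E) * (q * Z) + 4 ^ p * (A * E) * (q * Z) := by ring
    linarith
  have e6 : q * Z ≤ A * (S * C) := by
    have : 0 < q * Z := by positivity
    linarith
  have e7 : (2 ^ (p + 3) + 4 ^ p) * (A * E) * (q * Z) ≤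
      (2 ^ (p + 3) + 4 ^ p) * (A * E) * (A * (S * C)) :=
    mul_le_mul_of_nonneg_left e6 (by positivity)
  have e8 : (2 ^ (p + 3) + 4 ^ p) * (A * E) * (A * (S * C)) =
      ((2 ^ (p + 3) + 4 ^ p) * A ^ 2) * (E * (S * C)) := by ring
  have e9 : ((2 ^ (p + 3) + 4 ^ p) * A ^ 2) * (E * (S * C)) ≤ D * (E * (S * C)) :=
    mul_le_mul_of_nonneg_right (by nlinarith [sq_nonneg A]) (by positivity)
  have e10 : S * T ≤ S * (D * (E * C)) := by
    have : S * (D * (E * C)) = D * (E * (S * C)) := by ring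
    linarith
  exact le_of_mul_le_mul_left e10 hS

lemma a3 (p : ℕ) (T M M1 M2 R Z A n D E N1 W E0 FZ NC : ℝ) (hn : 1 ≤ n)
    (hA : 2 ≤ A) (hZ : 0 < Z) (hE0 : 0 < E0)
    (hT : T = E0 * (4 * n * M + R)) (hM : M ≤ 2 ^ p * (M1 + M2)) (hM1 : M1 ≤ A * (E * Z))
    (hM2 : M2 ≤ A * (N1 * Z)) (hN : N1 ≤ E) (hE : 1 ≤ E)
    (hR : R ≤ W) (hW : W ≤ 4 ^ p * Z) (hFZ : FZ = E0 * (4 * n * Z + NC)) (hNC : 0 ≤ NC)
    (hD : (2 ^ (p + 3) + 4 ^ p + 8) * A ^ 2 ≤ D) : T ≤ D * (E * FZ) := by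
  have e1 : M ≤ 2 ^ p * (2 * (A * (E * Z))) := by
    have h2 : A * (N1 * Z) ≤ A * (E * Z) :=
      mul_le_mul_of_nonneg_left (mul_le_mul_of_nonneg_right hN hZ.le) (by linarith)
    have h4 : (2 : ℝ) ^ p * (M1 + M2) ≤ 2 ^ p * (2 * (A * (E * Z))) :=
      mul_le_mul_of_nonneg_left (by linarith) (by positivity)
    linarith
  have e2 : 4 * n * M ≤ 4 * n * (2 ^ p * (2 * (A * (E * Z)))) :=
    mul_le_mul_of_nonneg_left e1 (by positivity)
  have e3 : 4 * n * (2 ^ p * (2 * (A * (E * Z)))) = 2 ^ (p + 3) * A * (n * (E * Z)) := by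
    rw [pow_add]
    ring
  have e4 : R ≤ 4 ^ p * A * (n * (E * Z)) := by
    have h1 : (1 : ℝ) ≤ A * (n * E) := by
      have : 1 ≤ n * E := by nlinarith
      nlinarith
    have h2 : (4 : ℝ) ^ p * Z * 1 ≤ 4 ^ p * Z * (A * (n * E)) :=
      mul_le_mul_of_nonneg_left h1 (by positivity)
    have h3 : (4 : ℝ) ^ p * Z * (A * (n * E)) = 4 ^ p * A * (n * (E * Z)) := by ring
    linarith
  have e5 : (2 ^ (p + 3) + 4 ^ p) * A ≤ D := by
    have h1 : A ≤ A ^ 2 := by nlinarith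
    have h2 : (2 ^ (p + 3) + 4 ^ p) * A ≤ (2 ^ (p + 3) + 4 ^ p) * A ^ 2 :=
      mul_le_mul_of_nonneg_left h1 (by positivity)
    nlinarith [sq_nonneg A]
  have hD0 : 0 < D := lt_of_lt_of_le (by positivity) e5
  have e6 : 4 * n * M + R ≤ D * (n * (E * Z)) := by
    have h1 : ((2 ^ (p + 3) + 4 ^ p) * A) * (n * (E * Z)) ≤ D * (n * (E * Z)) :=
      mul_le_mul_of_nonneg_right e5 (by positivity)
    have h2 : ((2 ^ (p + 3) + 4 ^ p) * A) * (n * (E * Z)) =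
      2 ^ (p + 3) * A * (n * (E * Z)) + 4 ^ p * A * (n * (E * Z)) := by ring
    linarith
  have e7 : D * (n * (E * Z)) ≤ D * (E * (4 * n * Z + NC)) := by
    refine mul_le_mul_of_nonneg_left ?_ hD0.le
    have h1 : n * (E * Z) = E * (n * Z) := by ring
    rw [h1]
    refine mul_le_mul_of_nonneg_left ?_ (by linarith)
    have : 0 < n * Z := by positivity
    nlinarith
  calc T = E0 * (4 * n * M + R) := hT
    _ ≤ E0 * (D * (E * (4 * n * Z + NC))) := mul_le_mul_of_nonneg_left (e6.trans e7) hE0.le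
    _ = D * (E * FZ) := by rw [hFZ]; ring

lemma a4 (T M M1 M2 R Z q A n D SC E0 FZ NC P5 P6 : ℝ) (hn : 1 ≤ n) (hq : 0 < q)
    (hA : 2 ≤ A) (hAq : 2 * A ^ 2 ≤ q) (hZ : 0 < Z) (hE0 : 0 < E0) (hSC : SC = n * q)
    (hT : T = E0 * (4 * n * M + R)) (hR : 0 ≤ R) (hM : M1 - M2 ≤ M)
    (hM1 : P6 * (SC * Z) ≤ M1) (hM2 : M2 ≤ A * (n * Z)) (r6 : P6 * A = 1) (r5 : P5 * D = 1)
    (hFZ : FZ = E0 * (4 * n * Z + NC)) (hNC : NC ≤ Z) (hD : 8 * A ^ 2 ≤ D) :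
    P5 * (SC * FZ) ≤ T := by
  have hA0 : 0 < A := by linarith
  have hD0 : 0 < D := lt_of_lt_of_le (by positivity) hD
  have hP6 : P6 = 1 / A := by field_simp; linarith
  have hP5 : P5 = 1 / D := by field_simp; linarith
  have hnZ : 0 < n * Z := by positivity
  have e1 : (n * Z) * q / (2 * A) ≤ M := by
    have h1 : P6 * (SC * Z) - A * (n * Z) ≤ M := by linarith
    have h2 : P6 * (SC * Z) - A * (n * Z) = (n * Z) * (q - A ^ 2) / A := by
      rw [hP6, hSC]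
      field_simp
    have h3 : (n * Z) * q / (2 * A) ≤ (n * Z) * (q - A ^ 2) / A := by
      rw [div_le_div_iff₀ (by positivity) hA0]
      have h4 : (n * Z) * q * A ≤ (n * Z) * (2 * (q - A ^ 2)) * A :=
        mul_le_mul_of_nonneg_right (mul_le_mul_of_nonneg_left (by linarith) hnZ.le) hA0.le
      nlinarith
    linarith
  have e2 : FZ ≤ E0 * (8 * (n * Z)) := by
    rw [hFZ]
    refine mul_le_mul_of_nonneg_left ?_ hE0.le
    nlinarith
  have e3 : P5 * (SC * FZ) ≤ P5 * (SC * (E0 * (8 * (n * Z)))) := by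
    have : 0 < P5 := by rw [hP5]; positivity
    refine mul_le_mul_of_nonneg_left (mul_le_mul_of_nonneg_left e2 ?_) this.le
    rw [hSC]
    positivity
  have e4 : P5 * (SC * (E0 * (8 * (n * Z)))) ≤ E0 * (4 * n * ((n * Z) * q / (2 * A))) := by
    have h1 : P5 * (SC * (E0 * (8 * (n * Z)))) = E0 * n * q * (n * Z) * (8 / D) := by
      rw [hP5, hSC]
      ring
    have h2 : E0 * (4 * n * ((n * Z) * q / (2 * A))) = E0 * n * q * (n * Z) * (2 / A) := by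
      field_simp
      ring
    rw [h1, h2]
    refine mul_le_mul_of_nonneg_left ?_ (by positivity)
    rw [div_le_div_iff₀ hD0 hA0]
    nlinarith
  calc P5 * (SC * FZ) ≤ E0 * (4 * n * ((n * Z) * q / (2 * A))) := e3.trans e4
    _ ≤ E0 * (4 * n * M + R) := by
        refine mul_le_mul_of_nonneg_left ?_ hE0.le
        have : 4 * n * ((n * Z) * q / (2 * A)) ≤ 4 * n * M :=
          mul_le_mul_of_nonneg_left e1 (by positivity)
        linarith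
    _ = T := hT.symm

lemma a5 (S Z q A n D C E0 EH FZ NC P3 : ℝ) (hqq : q * q = n) (hn : 1 ≤ n) (hq : 0 < q)
    (hA : 2 ≤ A) (hE0 : 0 < E0) (hZ : 0 < Z)
    (hEH : EH = E0 * S) (r3 : P3 * (q * D) = 1) (hC : 2 * q * Z ≤ A * (S * C))
    (hFZ : FZ = E0 * (4 * n * Z + NC)) (hNC : NC ≤ Z) (hD : 8 * A ^ 2 ≤ D) :
    P3 * FZ ≤ EH * C := by
  have hA0 : 0 < A := by linarith
  have hD0 : 0 < D := lt_of_lt_of_le (by positivity) hD
  have hP3 : P3 = 1 / (q * D) := by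
    rw [eq_div_iff (by positivity)]
    exact r3
  have hSC : 0 < S * C := by
    by_contra h
    have h1 : A * (S * C) ≤ 0 := mul_nonpos_of_nonneg_of_nonpos (by linarith) (not_lt.1 h)
    have h2 : 0 < 2 * q * Z := by positivity
    linarith
  have hnZ : 0 < n * Z := by positivity
  have e2 : FZ ≤ E0 * (8 * (n * Z)) := by
    rw [hFZ]
    refine mul_le_mul_of_nonneg_left ?_ hE0.le
    nlinarith
  have e3 : P3 * FZ ≤ P3 * (E0 * (8 * (n * Z))) :=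
    mul_le_mul_of_nonneg_left e2 (by rw [hP3]; positivity)
  have e4 : P3 * (E0 * (8 * (n * Z))) = E0 * (4 * (2 * q * Z)) / D := by
    rw [hP3, ← hqq]
    field_simp
    ring
  have e5 : E0 * (4 * (2 * q * Z)) / D ≤ E0 * (S * C) := by
    rw [div_le_iff₀ hD0]
    have h1 : 4 * A ≤ D := by nlinarith
    have h2 : (4 * A) * (S * C) ≤ D * (S * C) := mul_le_mul_of_nonneg_right h1 hSC.le
    have h3 : 4 * (2 * q * Z) ≤ (S * C) * D := by linarith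
    have h4 := mul_le_mul_of_nonneg_left h3 hE0.le
    linarith
  calc P3 * FZ ≤ E0 * (S * C) := (e3.trans_eq e4).trans e5
    _ = EH * C := by rw [hEH]; ring

end Pool.Agent.PFS.SAPM

namespace Pool.Agent.PFS

open Finset Filter Topology MeasureTheory
open Pool.Agent.Lib27 Pool.Agent.SapR Pool.Agent.Gap Pool.Agent.AreaLaw Pool.Agent.FL
open Pool.Agent.FS

/-- PFS_SAPM -/
theorem t_SAPM (h1 : LCL_Stmt) (h2 : BLC_Stmt) (h3 : FFA_Stmt) (h4 : FFP_Stmt)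
    (h5 : NCB_Stmt) (h6 : FL.TR_Stmt) (h7 : FL.HG_Stmt) : SAPM_Stmt := by
  classical
  intro f1 p δ hδ
  obtain ⟨c2, hc2, hL⟩ := h1 f1
  obtain ⟨δ1, hδ1⟩ : ∃ d, d = min (min (δ / 4) (c2 / 2)) (1 / 8) := ⟨_, rfl⟩
  have hd0 : 0 < δ1 := by rw [hδ1]; positivity
  have hd1 : δ1 ≤ δ / 4 := by rw [hδ1]; exact (min_le_left _ _).trans (min_le_left _ _)
  have hd2 : δ1 ≤ c2 / 2 := by rw [hδ1]; exact (min_le_left _ _).trans (min_le_right _ _)
  have hd3 : δ1 ≤ 1 / 8 := by rw [hδ1]; exact min_le_right _ _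
  obtain ⟨ca, hca, Na, ha⟩ := hL δ1 hd0
  obtain ⟨cb, hcb, Nb, hb⟩ := h2 f1 p δ1 hd0
  obtain ⟨cc, hcc, Nc, hc⟩ := h3 δ1 hd0
  obtain ⟨cd, hcd, Nd, hd⟩ := h4 p δ1 hd0
  obtain ⟨ce, hce, Ne, he⟩ := h4 1 δ1 hd0
  obtain ⟨cg, hcg, Ng, hg⟩ := h5 (2 * p)
  obtain ⟨N1, hN1⟩ := SAPM.big δ1 hd0 2
  obtain ⟨N2, hN2⟩ := SAPM.big (δ / 2) (by positivity) (2 ^ (p + 3) + 4 ^ p + 8)
  obtain ⟨N3, hN3⟩ := SAPM.big (1 / 4) (by norm_num) 2
  refine ⟨min ca (min cb (min cc (min cd (min ce cg)))), by positivity,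
    Na + Nb + Nc + Nd + Ne + Ng + N1 + N2 + N3 + 1, ?_⟩
  intro n hn f hf hff h hh hcen b
  have hn1 : 1 ≤ n := by omega
  have hx : (1 : ℝ) ≤ n := by exact_mod_cast hn1
  have hx0 : (0 : ℝ) < n := by linarith
  have mono : ∀ c' : ℝ, min ca (min cb (min cc (min cd (min ce cg)))) ≤ c' →
      (n : ℝ) ^ (-c') ≤ f := fun c' hc' => win_mono hc' hn1 hf
  have m1 : min ca (min cb (min cc (min cd (min ce cg)))) ≤ ca := min_le_left _ _
  have m2' : min ca (min cb (min cc (min cd (min ce cg)))) ≤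
      min cb (min cc (min cd (min ce cg))) := min_le_right _ _
  have m2 := m2'.trans (min_le_left cb (min cc (min cd (min ce cg))))
  have m3' := m2'.trans (min_le_right cb (min cc (min cd (min ce cg))))
  have m3 := m3'.trans (min_le_left cc (min cd (min ce cg)))
  have m4' := m3'.trans (min_le_right cc (min cd (min ce cg)))
  have m4 := m4'.trans (min_le_left cd (min ce cg))
  have m5' := m4'.trans (min_le_right cd (min ce cg))
  have m5 := m5'.trans (min_le_left ce cg)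
  have m6 := m5'.trans (min_le_right ce cg)
  obtain ⟨G, hG, hGe⟩ := ha n (by omega) f (mono _ m1) hff h hh hcen b
  obtain ⟨b1, b2⟩ := hb n (by omega) f (mono _ m2) hff h hh b
  obtain ⟨hf0, ρ, D0, _, _, hcrit, _, _, _, hz1, _, hmean⟩ := hc n (by omega) f (mono _ m3)
  obtain ⟨d1, d2⟩ := hd n (by omega) f (mono _ m4)
  obtain ⟨_, e2⟩ := he n (by omega) f (mono _ m5)
  have g1 := hg n (by omega) f (mono _ m6)
  have hA2 := hN1 n (by omega)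
  have hM := hN2 n (by omega)
  have hq4 := hN3 n (by omega)
  have hge := hGe 0 le_rfl (by simp)
  simp only [zero_mul, neg_zero, Real.exp_zero, Finset.sum_const, nsmul_eq_mul, mul_one] at hge
  have hTa : Ta n (Real.exp (-f)) 0 = Zq n (Real.exp (-f)) := by
    unfold Ta Zq
    simp
  rw [hTa] at hge
  -- names
  obtain ⟨s, hs⟩ : ∃ s, s = Real.exp (-f) := ⟨_, rfl⟩
  have hs0 : 0 < s := by rw [hs]; exact Real.exp_pos _
  have hs1 : s ≤ 1 := by rw [hs, Real.exp_le_one_iff]; linarith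
  obtain ⟨A, hA⟩ : ∃ A, A = (n : ℝ) ^ δ1 := ⟨_, rfl⟩
  obtain ⟨D, hD⟩ : ∃ D, D = (n : ℝ) ^ δ := ⟨_, rfl⟩
  obtain ⟨q, hq⟩ : ∃ q, q = Real.sqrt n := ⟨_, rfl⟩
  have hq0 : 0 < q := by rw [hq]; exact Real.sqrt_pos.2 hx0
  have hqq : q * q = n := by rw [hq]; exact Real.mul_self_sqrt hx0.le
  have hA0 : 2 ≤ A := by rw [hA]; exact hA2
  have hAA : A ^ 2 = (n : ℝ) ^ (2 * δ1) := by
    rw [hA, ← Real.rpow_natCast, ← Real.rpow_mul hx0.le]
    congr 1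
    push_cast
    ring
  have hDA : (2 ^ (p + 3) + 4 ^ p + 8) * A ^ 2 ≤ D := by
    have e1 : (n : ℝ) ^ (δ / 2) * (n : ℝ) ^ (2 * δ1) ≤ D := by
      rw [hD, ← Real.rpow_add hx0]
      exact Real.rpow_le_rpow_of_exponent_le hx (by linarith)
    rw [hAA]
    exact (mul_le_mul_of_nonneg_right hM (by positivity)).trans e1
  have hAc : A ^ 2 ≤ (n : ℝ) ^ c2 := by
    rw [hAA]
    exact Real.rpow_le_rpow_of_exponent_le hx (by linarith)
  have hAq : 2 * A ^ 2 ≤ q := by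
    have e1 : A ^ 2 ≤ (n : ℝ) ^ (1 / 4 : ℝ) := by
      rw [hAA]
      exact Real.rpow_le_rpow_of_exponent_le hx (by linarith)
    have e2 : (n : ℝ) ^ (1 / 4 : ℝ) * (n : ℝ) ^ (1 / 4 : ℝ) = q := by
      rw [hq, Real.sqrt_eq_rpow, ← Real.rpow_add hx0]
      norm_num
    rw [← e2]
    exact mul_le_mul hq4 e1 (by positivity) (by positivity)
  have r1 := SAPM.rp1 n δ1 hx0
  have r2 := SAPM.rp1 n c2 hx0
  have r3 := SAPM.rp1 n δ hx0
  have r4 := SAPM.rp2 n δ1 hx0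
  have r5 : (n : ℝ) ^ (-δ) * D = 1 := by
    rw [hD, ← Real.rpow_add hx0]
    simp
  have r6 : (n : ℝ) ^ (-δ1) * A = 1 := by
    rw [hA, ← Real.rpow_add hx0]
    simp
  rw [← hq, ← hA] at r1 r4
  rw [← hq] at r2
  rw [← hq, ← hD] at r3
  rw [← hA] at d1 d2 e2
  rw [← hs] at hge b1 b2 hz1 hmean d1 d2 e2 g1
  have hZ0 : 0 ≤ Zq n s := SAPC.Zq_nonneg n s hs0
  have hZ : 0 < Zq n s := by
    rcases hZ0.lt_or_eq with e | e
    · exact e
    · rw [← e, mul_zero] at hz1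
      have : 0 < (n : ℝ) ^ (-δ1) := by positivity
      linarith
  obtain ⟨Z, hZZ⟩ : ∃ Z, Z = Zq n s := ⟨_, rfl⟩
  obtain ⟨NC, hNC⟩ : ∃ N, N = FS.EXPM.NCs n s := ⟨_, rfl⟩
  obtain ⟨k1, k2, k3, k4⟩ := SAPM.num p n hn1 Z NC
    (hNC ▸ SAPM.NCs_nonneg n s hs0) (by rw [hNC, hZZ]; exact g1)
  have hNC0 : 0 ≤ NC := hNC ▸ SAPM.NCs_nonneg n s hs0
  rw [← hZZ] at hge b1 b2 hmean d1 d2 e2 hZ
  have hS0 : 0 < s ^ (n - h) := pow_pos hs0 _
  have hscq : sc n = n * q := by rw [hq]; rfl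
  have h8 : 8 * A ^ 2 ≤ D := by
    refine (mul_le_mul_of_nonneg_right ?_ (sq_nonneg A)).trans hDA
    exact le_add_of_nonneg_left (by positivity)
  have hE0 : 0 < Real.exp (f * n) := Real.exp_pos _
  have hFZ : forceZ f n = Real.exp (f * n) * (4 * n * Z + NC) := by
    rw [FS.EXPM.forceZ_eq h7 h6 n hn1 f, ← hs, hZZ, hNC]
  have hEH : Real.exp (f * h) = Real.exp (f * n) * s ^ (n - h) := by
    rw [hs, ← Real.exp_nat_mul, ← Real.exp_add]
    congr 1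
    rw [Nat.cast_sub hh]
    ring
  have star := SAPM.a1 (s ^ (n - h)) _ G Z q A ((n : ℝ) ^ c2) _ _ ((cls n b h).card : ℝ) n hqq hq0
    hA0 hAc hZ hG r1 r2 hge (SAPM.cls_card h6 n hn1 b h) hS0.le
  have hM : ∀ (P : Finset QI), ∑ x ∈ P, |(dq x : ℝ)| ^ p ≤
      2 ^ p * (∑ x ∈ P, (arq n x : ℝ) ^ p + ∑ x ∈ P, |(|(dq x : ℝ)| - (arq n x : ℝ))| ^ p) := by
    intro P
    rw [← Finset.sum_add_distrib, Finset.mul_sum]
    exact Finset.sum_le_sum fun x _ => SAPM.pw _ _ p (abs_nonneg _) (Nat.cast_nonneg _)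
  have hMw : ∑ x ∈ Omn n, wtq n s x * |(dq x : ℝ)| ^ p ≤
      2 ^ p * (∑ x ∈ Omn n, wtq n s x * (arq n x : ℝ) ^ p +
        ∑ x ∈ Omn n, wtq n s x * |(|(dq x : ℝ)| - (arq n x : ℝ))| ^ p) := by
    rw [← Finset.sum_add_distrib, Finset.mul_sum]
    refine Finset.sum_le_sum fun x _ => ?_
    have hw : 0 ≤ wtq n s x := by unfold wtq; positivity
    have h1 := mul_le_mul_of_nonneg_left
      (SAPM.pw (|(dq x : ℝ)|) (arq n x : ℝ) p (abs_nonneg _) (Nat.cast_nonneg _)) hw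
    linarith
  refine ⟨?_, ?_, ?_, ?_⟩
  · rw [← hD]
    refine SAPM.a2 p (s ^ (n - h)) _ _ _ _ _ Z q A _ n D (sc n ^ p) ((n : ℝ) ^ p) _ _ hqq hq0 hA0 hAq
      hZ hS0 (SAPM.cls_pow h6 n hn1 b h p) (hM _) b1 b2 r4 k1 k2
      (SAPM.nc_cls n h p b s hs0 hs1) ?_ star hDA
    rw [← hNC]
    exact k3
  · rw [← hD]
    refine SAPM.a3 p _ _ _ _ _ Z A n D (sc n ^ p) ((n : ℝ) ^ p) _ _ _ NC hx hA0 hZ hE0
      (by rw [SAPM.force_pow h7 h6 n hn1 f p, ← hs]) hMw d1 d2 k1 k2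
      (SAPM.nc_force n p s hs0) ?_ hFZ hNC0 hDA
    rw [← hNC]
    exact k3
  · have hF1 := SAPM.force_pow h7 h6 n hn1 f 1
    simp only [pow_one] at hF1 e2
    rw [← hs] at hF1
    refine SAPM.a4 _ _ _ _ _ Z q A n D (sc n) _ _ NC _ _ hx hq0 hA0 hAq hZ hE0 hscq hF1 ?_ ?_ hmean
      e2 r6 r5 hFZ k4 h8
    · exact Finset.sum_nonneg fun w _ => by positivity
    · rw [← Finset.sum_sub_distrib]
      refine Finset.sum_le_sum fun x _ => ?_
      have hw : 0 ≤ wtq n s x := by unfold wtq; positivity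
      rw [← mul_sub]
      refine mul_le_mul_of_nonneg_left ?_ hw
      have := neg_abs_le (|(dq x : ℝ)| - (arq n x : ℝ))
      linarith
  · exact SAPM.a5 (s ^ (n - h)) Z q A n D _ _ _ _ NC _ hqq hx hq0 hA0 hE0 hZ hEH r3 star hFZ k4 h8

end Pool.Agent.PFS
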