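import Pool.Agent.PFS.StmtsC

/-!
# PFS, module SECM: second moment of the span
-/

set_option autoImplicit false

open Finset Filter Topology MeasureTheory

namespace Pool.Agent.PFS

open Pool.Agent.Lib27 Pool.Agent.SapR Pool.Agent.Gap Pool.Agent.AreaLaw Pool.Agent.FL
open Pool.Agent.FS Pool.Agent.FS.EXPM

namespace SECMaux

lemma one_sub_inv_pow_le {D : ℝ} (hD : 2 ≤ D) (k : ℕ) :
    (1 - D⁻¹) ^ k ≤ Real.exp (-(k / D)) := by
  have hD0 : 0 < D := by linarith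
  have h1 : 0 ≤ 1 - D⁻¹ := by
    have : D⁻¹ ≤ 1 := inv_le_one_of_one_le₀ (by linarith)
    linarith
  have h2 : 1 - D⁻¹ ≤ Real.exp (-D⁻¹) := by
    have := Real.add_one_le_exp (-D⁻¹)
    linarith
  refine (pow_le_pow_left₀ h1 h2 k).trans (le_of_eq ?_)
  rw [← Real.exp_nat_mul]
  congr 1
  rw [div_eq_mul_inv]
  ring

lemma sq_mul_exp_le {x : ℝ} (hx : 0 ≤ x) : x ^ 2 * Real.exp (-x) ≤ 2 := by
  have h1 := Real.quadratic_le_exp_of_nonneg hx
  have h2 : Real.exp (-x) * Real.exp x = 1 := by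
    rw [← Real.exp_add]
    simp
  have h3 : 0 < Real.exp (-x) := Real.exp_pos _
  have h4 : x ^ 2 ≤ 2 * Real.exp x := by linarith
  calc x ^ 2 * Real.exp (-x) ≤ 2 * Real.exp x * Real.exp (-x) :=
        mul_le_mul_of_nonneg_right h4 h3.le
    _ = 2 * (Real.exp (-x) * Real.exp x) := by ring
    _ = 2 := by rw [h2]; ring

/-- one term of the tail sum -/
lemma term_le {D u : ℝ} (hD : 2 ≤ D) (hu : |u| ≤ 1 / (2 * D)) (k : ℕ) :
    D * (1 - D⁻¹) ^ k * ((k : ℝ) ^ 2 * Real.exp (|u| * k)) ≤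
      32 * D ^ 3 * Real.exp (-(1 / (4 * D))) ^ k := by
  have hD0 : 0 < D := by linarith
  have h1 := one_sub_inv_pow_le hD k
  have h2 : Real.exp (|u| * k) ≤ Real.exp (k / (2 * D)) := by
    apply Real.exp_le_exp.2
    have := mul_le_mul_of_nonneg_right hu (Nat.cast_nonneg (α := ℝ) k)
    refine this.trans (le_of_eq ?_)
    ring
  have h3 := sq_mul_exp_le (x := k / (4 * D)) (by positivity)
  have h4 : (k : ℝ) ^ 2 * Real.exp (-(k / (4 * D))) ≤ 32 * D ^ 2 := by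
    have h5 : ((k : ℝ) / (4 * D)) ^ 2 = (k : ℝ) ^ 2 / (16 * D ^ 2) := by
      field_simp
      ring
    rw [h5, div_mul_eq_mul_div, div_le_iff₀ (by positivity)] at h3
    linarith
  calc D * (1 - D⁻¹) ^ k * ((k : ℝ) ^ 2 * Real.exp (|u| * k))
      ≤ D * Real.exp (-(k / D)) * ((k : ℝ) ^ 2 * Real.exp (k / (2 * D))) := by gcongr
    _ = D * ((k : ℝ) ^ 2 * Real.exp (-(k / (4 * D)))) * Real.exp (-(1 / (4 * D))) ^ k := by
        rw [← Real.exp_nat_mul]
        have h6 : Real.exp (-(k / D)) * Real.exp (k / (2 * D)) =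
            Real.exp (-(k / (4 * D))) * Real.exp (k * -(1 / (4 * D))) := by
          rw [← Real.exp_add, ← Real.exp_add]
          congr 1
          field_simp
          ring
        calc D * Real.exp (-(k / D)) * ((k : ℝ) ^ 2 * Real.exp (k / (2 * D))) =
            D * (k : ℝ) ^ 2 * (Real.exp (-(k / D)) * Real.exp (k / (2 * D))) := by ring
          _ = _ := by rw [h6]; ring
    _ ≤ D * (32 * D ^ 2) * Real.exp (-(1 / (4 * D))) ^ k := by gcongr
    _ = 32 * D ^ 3 * Real.exp (-(1 / (4 * D))) ^ k := by ring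

lemma geom_le {D : ℝ} (hD : 2 ≤ D) (S : Finset ℕ) :
    ∑ k ∈ S, Real.exp (-(1 / (4 * D))) ^ k ≤ 5 * D := by
  have hD0 : 0 < D := by linarith
  set r : ℝ := Real.exp (-(1 / (4 * D))) with hr
  have hr0 : 0 < r := Real.exp_pos _
  have h1 : r * (1 + 1 / (4 * D)) ≤ 1 := by
    have h2 := Real.add_one_le_exp (1 / (4 * D))
    have h3 : r * Real.exp (1 / (4 * D)) = 1 := by
      rw [hr, ← Real.exp_add]
      simp
    nlinarith
  have hr1 : r ≤ 1 - 1 / (5 * D) := by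
    have h2 : r ≤ 1 / (1 + 1 / (4 * D)) := by
      rw [le_div_iff₀ (by positivity)]
      exact h1
    refine h2.trans ?_
    rw [div_le_iff₀ (by positivity)]
    have h3 : (1 - 1 / (5 * D)) * (1 + 1 / (4 * D)) = 1 + (D - 1) / (20 * D ^ 2) := by
      field_simp
      ring
    rw [h3]
    have : 0 ≤ (D - 1) / (20 * D ^ 2) := div_nonneg (by linarith) (by positivity)
    linarith
  have hlt : r < 1 := by
    have : 0 < 1 / (5 * D) := by positivity
    linarith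
  have hs := summable_geometric_of_lt_one hr0.le hlt
  refine (hs.sum_le_tsum S (fun _ _ => by positivity)).trans ?_
  rw [tsum_geometric_of_lt_one hr0.le hlt]
  have h5 : 1 / (5 * D) ≤ 1 - r := by linarith
  have h6 := inv_anti₀ (by positivity) h5
  refine h6.trans (le_of_eq ?_)
  rw [one_div, inv_inv]

/-- the tail sum with explicit constants -/
lemma tail_sum' {D : ℝ} (hD : 2 ≤ D) (n : ℕ) (s rho u : ℝ) (hrho : 0 < rho) (hs : 0 < s)
    (hu : |u| ≤ 1 / (2 * D)) (hT : Tails D (1 - D⁻¹) n s rho) :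
    ∑ p ∈ Pc (2 * n - 1), rho ^ hl p * s ^ (hl p - htn p) *
      ((hl p : ℝ) ^ 2 * Real.exp (|u| * hl p)) ≤ 160 * D ^ 4 := by
  classical
  have hD0 : 0 < D := by linarith
  rw [← Finset.sum_fiberwise_of_maps_to (s := Pc (2 * n - 1)) (t := (Pc (2 * n - 1)).image hl)
    (g := hl) (fun i hi => Finset.mem_image_of_mem _ hi)]
  have h1 : ∀ k ∈ (Pc (2 * n - 1)).image hl,
      ∑ p ∈ (Pc (2 * n - 1)).filter (fun p => hl p = k), rho ^ hl p * s ^ (hl p - htn p) *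
        ((hl p : ℝ) ^ 2 * Real.exp (|u| * hl p)) ≤
          32 * D ^ 3 * Real.exp (-(1 / (4 * D))) ^ k := by
    intro k _
    have h2 : ∑ p ∈ (Pc (2 * n - 1)).filter (fun p => hl p = k),
        rho ^ hl p * s ^ (hl p - htn p) * ((hl p : ℝ) ^ 2 * Real.exp (|u| * hl p)) =
        (∑ p ∈ (Pc (2 * n - 1)).filter (fun p => hl p = k), rho ^ k * s ^ (k - htn p)) *
          ((k : ℝ) ^ 2 * Real.exp (|u| * k)) := by
      rw [Finset.sum_mul]
      refine Finset.sum_congr rfl fun p hp => ?_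
      rw [(Finset.mem_filter.1 hp).2]
    rw [h2]
    have h3 := hT.1 k
    calc _ ≤ (D * (1 - D⁻¹) ^ k) * ((k : ℝ) ^ 2 * Real.exp (|u| * k)) := by
          apply mul_le_mul_of_nonneg_right _ (by positivity)
          convert h3 using 1
      _ ≤ _ := term_le hD hu k
  refine (Finset.sum_le_sum h1).trans ?_
  rw [← Finset.mul_sum]
  have h2 := geom_le hD ((Pc (2 * n - 1)).image hl)
  calc 32 * D ^ 3 * ∑ k ∈ (Pc (2 * n - 1)).image hl, Real.exp (-(1 / (4 * D))) ^ k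
      ≤ 32 * D ^ 3 * (5 * D) := mul_le_mul_of_nonneg_left h2 (by positivity)
    _ = 160 * D ^ 4 := by ring

/-- the data at one force -/
def Dt (L : ℝ) (n : ℕ) (f ρ D : ℝ) : Prop := Crit n (Real.exp (-f)) ρ ∧ 2 ≤ D ∧ D ≤ L ∧
  Tails D (1 - D⁻¹) n (Real.exp (-f)) ρ ∧ L⁻¹ ≤ sc n * ρ ^ n * Zq n (Real.exp (-f)) ∧
  sc n * ρ ^ n * Zq n (Real.exp (-f)) ≤ L ∧ NCs n (Real.exp (-f)) ≤ Zq n (Real.exp (-f))

/-- exponential moment for one sign -/
lemma core (hTR : TR_Stmt) (hHG : HG_Stmt) {L : ℝ} {n : ℕ} {f m u : ℝ} (hn : 1 ≤ n)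
    (hL : 0 < L) (hu : |u| ≤ 1 / 2) (huL : |u| ≤ 1 / (2 * L)) (huB : 320 * (u ^ 2 * n * L ^ 4) ≤ 1)
    (hcen : Cen n f m) (h0 : ∃ ρ D, Dt L n f ρ D) (hp : ∃ ρ D, Dt L n (f + u) ρ D)
    (hm : ∃ ρ D, Dt L n (f - u) ρ D) :
    ∑ q ∈ Omn n, wtq n (Real.exp (-f)) q * Real.exp (u * ((sp q : ℝ) - m)) ≤
      8 * L ^ 4 * Zq n (Real.exp (-f)) := by
  obtain ⟨ρ, D, hcr, hD2, hDL, hT, hZl, hZu, hNC⟩ := h0
  obtain ⟨ρp, Dp, hcrp, -, -, -, hZlp, hZup, hNCp⟩ := hp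
  obtain ⟨ρm, Dm, hcrm, -, -, -, hZlm, hZum, hNCm⟩ := hm
  have hn0 : (0 : ℝ) < n := by exact_mod_cast hn
  set s := Real.exp (-f) with hs
  set sp' := Real.exp (-(f + u)) with hsp
  set sm := Real.exp (-(f - u)) with hsm
  have hs0 : 0 < s := Real.exp_pos _
  have hρ0 := hcr.1
  have hρp0 := hcrp.1
  have hρm0 := hcrm.1
  have hsc0 : 0 < sc n := by unfold sc; positivity
  have hD0 : 0 < D := by linarith
  have hsd : ρ ^ 2 ≤ Real.exp (2 * u ^ 2 * (160 * D ^ 4)) * (ρp * ρm) := by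
    refine second_diff (Pc (2 * n - 1)) hl (fun p => hl p - htn p) ?_ ?_ u _ hρ0 hs0 hρp0 hρm0
      hcr.2 ?_ ?_ ?_
    · intro p hp
      exact (hHG.2.2 _ p hp).1.trans (hHG.2.2 _ p hp).2
    · intro p _
      exact Nat.sub_le _ _
    · have : s * Real.exp (-u) = sp' := by
        rw [hs, hsp, ← Real.exp_add]
        congr 1
        ring
      rw [this]
      exact hcrp.2
    · have : s * Real.exp u = sm := by
        rw [hs, hsm, ← Real.exp_add]
        congr 1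
        ring
      rw [this]
      exact hcrm.2
    · refine tail_sum' hD2 n s ρ u hρ0 hs0 (huL.trans ?_) hT
      exact one_div_le_one_div_of_le (by positivity) (by linarith)
  have hsdn : ρ ^ (2 * n) ≤ 3 * (ρp ^ n * ρm ^ n) := by
    have h1 := pow_le_pow_left₀ (by positivity) hsd n
    rw [← pow_mul, mul_pow, ← Real.exp_nat_mul, mul_pow] at h1
    have h2 : (n : ℝ) * (2 * u ^ 2 * (160 * D ^ 4)) ≤ 1 := by
      have h3 : D ^ 4 ≤ L ^ 4 := pow_le_pow_left₀ hD0.le hDL 4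
      have h4 : (n : ℝ) * (2 * u ^ 2 * (160 * D ^ 4)) = 320 * (u ^ 2 * n * D ^ 4) := by ring
      rw [h4]
      refine le_trans ?_ huB
      gcongr
    have h5 : Real.exp ((n : ℝ) * (2 * u ^ 2 * (160 * D ^ 4))) ≤ 3 :=
      (Real.exp_le_exp.2 h2).trans (by have := Real.exp_one_lt_d9; linarith)
    refine h1.trans ?_
    gcongr
  have hE := tilt hHG n f u m
  have hJ := jensen n f u m hu hcen
  rw [forceZ_eq hHG hTR n hn f, forceZ_eq hHG hTR n hn (f - u)] at hJ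
  rw [← hs, ← hsp] at hE
  rw [← hs, ← hsm] at hJ
  set Z0 := Zq n s with hZ0
  set Zp := Zq n sp' with hZp
  set Zm := Zq n sm with hZm
  set F0 := 4 * n * Z0 + NCs n s with hF0
  set Fm := 4 * n * Zm + NCs n sm with hFm
  have hJ2 : Real.exp (u * (n - m)) * F0 ≤ 2 * Fm := by
    have h1 := mul_le_mul_of_nonneg_left hJ (Real.exp_pos (-((f - u) * n))).le
    have h2 : Real.exp (-((f - u) * n)) * (Real.exp (-(u * m)) * (Real.exp (f * n) * F0)) =
        Real.exp (u * (n - m)) * F0 := by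
      rw [← mul_assoc, ← mul_assoc, ← Real.exp_add, ← Real.exp_add]
      congr 2
      ring
    have h3 : Real.exp (-((f - u) * n)) * (2 * (Real.exp ((f - u) * n) * Fm)) = 2 * Fm := by
      have : Real.exp (-((f - u) * n)) * (2 * (Real.exp ((f - u) * n) * Fm)) =
        (Real.exp (-((f - u) * n)) * Real.exp ((f - u) * n)) * (2 * Fm) := by ring
      rw [this, ← Real.exp_add, neg_add_cancel, Real.exp_zero, one_mul]
    rw [h2, h3] at h1
    exact h1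
  have hNC0 : 0 ≤ NCs n s := Finset.sum_nonneg fun w _ => by positivity
  have hZ0pos : 0 < Z0 := by
    have h1 : 0 < L⁻¹ := by positivity
    have h2 : 0 < sc n * ρ ^ n * Z0 := lt_of_lt_of_le h1 hZl
    exact pos_of_mul_pos_right h2 (by positivity)
  have hZpnn : 0 ≤ Zp := by
    rw [hZp]
    exact Finset.sum_nonneg fun q _ => pow_nonneg (Real.exp_pos _).le _
  have hZmnn : 0 ≤ Zm := by
    rw [hZm]
    exact Finset.sum_nonneg fun q _ => pow_nonneg (Real.exp_pos _).le _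
  have hn1 : (1 : ℝ) ≤ n := by exact_mod_cast hn
  have hFmb : Fm ≤ 5 * n * Zm := by
    rw [hFm]
    have h1 : Zm ≤ n * Zm := le_mul_of_one_le_left hZmnn hn1
    linarith
  have hFm0 : 0 ≤ Fm := by
    rw [hFm]
    have h2 : 0 ≤ NCs n sm := Finset.sum_nonneg fun w _ => by positivity
    positivity
  have hcomb : Zp * Fm ≤ 15 * L ^ 4 * n * Z0 ^ 2 := by
    have hpos : 0 < sc n ^ 2 * (ρp ^ n * ρm ^ n) := by positivity
    refine le_of_mul_le_mul_left ?_ hpos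
    have h1 : sc n ^ 2 * (ρp ^ n * ρm ^ n) * (Zp * Fm) =
        (sc n * ρp ^ n * Zp) * (sc n * ρm ^ n * Fm) := by ring
    rw [h1]
    have h20 : sc n * ρm ^ n * Fm ≤ 5 * n * L := by
      calc sc n * ρm ^ n * Fm ≤ sc n * ρm ^ n * (5 * n * Zm) :=
            mul_le_mul_of_nonneg_left hFmb (by positivity)
        _ = 5 * n * (sc n * ρm ^ n * Zm) := by ring
        _ ≤ 5 * n * L := mul_le_mul_of_nonneg_left hZum (by positivity)
    have h2 : (sc n * ρp ^ n * Zp) * (sc n * ρm ^ n * Fm) ≤ L * (5 * n * L) :=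
      mul_le_mul hZup h20 (by positivity) hL.le
    refine h2.trans ?_
    have h3 : L⁻¹ ^ 2 ≤ (sc n * ρ ^ n * Z0) ^ 2 := pow_le_pow_left₀ (by positivity) hZl 2
    have h4 : (sc n * ρ ^ n * Z0) ^ 2 = sc n ^ 2 * ρ ^ (2 * n) * Z0 ^ 2 := by
      rw [mul_pow, mul_pow, ← pow_mul, mul_comm n 2]
    rw [h4] at h3
    have h5 : sc n ^ 2 * ρ ^ (2 * n) * Z0 ^ 2 ≤ sc n ^ 2 * (3 * (ρp ^ n * ρm ^ n)) * Z0 ^ 2 := by
      gcongr
    have h6 : 1 ≤ L ^ 2 * (sc n ^ 2 * (3 * (ρp ^ n * ρm ^ n)) * Z0 ^ 2) := by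
      have h7 := mul_le_mul_of_nonneg_left (h3.trans h5) (by positivity : 0 ≤ L ^ 2)
      have h8 : L ^ 2 * L⁻¹ ^ 2 = 1 := by
        field_simp
      rw [h8] at h7
      exact h7
    have h9 : L * (5 * n * L) ≤ L * (5 * n * L) *
        (L ^ 2 * (sc n ^ 2 * (3 * (ρp ^ n * ρm ^ n)) * Z0 ^ 2)) :=
      le_mul_of_one_le_right (by positivity) h6
    refine h9.trans (le_of_eq ?_)
    ring
  rw [hE]
  have hF0b : 4 * n * Z0 ≤ F0 := by rw [hF0]; linarith
  have hex : 0 < Real.exp (u * (n - m)) := Real.exp_pos _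
  have hfin : (4 * n * Z0) * (Real.exp (u * (n - m)) * Zp) ≤
      (4 * n * Z0) * (8 * L ^ 4 * Z0) := by
    calc (4 * n * Z0) * (Real.exp (u * (n - m)) * Zp) ≤ F0 * (Real.exp (u * (n - m)) * Zp) :=
          mul_le_mul_of_nonneg_right hF0b (by positivity)
      _ = (Real.exp (u * (n - m)) * F0) * Zp := by ring
      _ ≤ (2 * Fm) * Zp := mul_le_mul_of_nonneg_right hJ2 hZpnn
      _ = 2 * (Zp * Fm) := by ring
      _ ≤ 2 * (15 * L ^ 4 * n * Z0 ^ 2) := by linarith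
      _ ≤ (4 * n * Z0) * (8 * L ^ 4 * Z0) := by
        have : 0 ≤ L ^ 4 * n * Z0 ^ 2 := by positivity
        nlinarith
  exact le_of_mul_le_mul_left hfin (by positivity)

lemma sq_le_exp (y : ℝ) : y ^ 2 ≤ 2 * (Real.exp y + Real.exp (-y)) := by
  rcases le_total 0 y with h | h
  · have h1 := Real.quadratic_le_exp_of_nonneg h
    have h3 := Real.exp_pos (-y)
    linarith
  · have h1 := Real.quadratic_le_exp_of_nonneg (x := -y) (by linarith)
    have h3 := Real.exp_pos y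
    nlinarith

end SECMaux

open SECMaux

/-- SECM: second moment of the span. -/
theorem t_SECM (h1 : FFA_Stmt) (h2 : NCB_Stmt) (h3 : FL.TR_Stmt) (h4 : FL.HG_Stmt) :
    SECM_Stmt := by
  intro δ hδ
  set δ1 : ℝ := δ / 16 with hδ1
  have hδ10 : 0 < δ1 := by positivity
  obtain ⟨c1, hc1, N1, hN1⟩ := h1 δ1 hδ10
  obtain ⟨c2, hc2, N2, hN2⟩ := h2 0
  set c : ℝ := min (min c1 c2 / 2) (1 / 4) with hc
  have hc0 : 0 < c := lt_min (by have := lt_min hc1 hc2; linarith) (by norm_num)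
  have hcc1 : 2 * c ≤ c1 := by
    have h5 : c ≤ min c1 c2 / 2 := min_le_left _ _
    have h6 : min c1 c2 ≤ c1 := min_le_left _ _
    linarith
  have hcc2 : 2 * c ≤ c2 := by
    have h5 : c ≤ min c1 c2 / 2 := min_le_left _ _
    have h6 : min c1 c2 ≤ c2 := min_le_right _ _
    linarith
  have hc4 : c ≤ 1 / 4 := min_le_right _ _
  have ht1 : ∀ᶠ n : ℕ in atTop, (2 : ℝ) ≤ (n : ℝ) ^ c :=
    ((tendsto_rpow_atTop hc0).comp tendsto_natCast_atTop_atTop).eventually_ge_atTop 2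
  have ht2 : ∀ᶠ n : ℕ in atTop, (320 : ℝ) ≤ (n : ℝ) ^ (4 * δ1) :=
    ((tendsto_rpow_atTop (by positivity)).comp tendsto_natCast_atTop_atTop).eventually_ge_atTop 320
  obtain ⟨N3, hN3⟩ := eventually_atTop.1 (ht1.and ht2)
  refine ⟨c, hc0, max (max N1 N2) (max N3 4), fun n hn f hf m hcen => ?_⟩
  have hnN1 : N1 ≤ n := ((le_max_left _ _).trans (le_max_left _ _)).trans hn
  have hnN2 : N2 ≤ n := ((le_max_right _ _).trans (le_max_left _ _)).trans hn
  have hnN3 : N3 ≤ n := ((le_max_left _ _).trans (le_max_right _ _)).trans hn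
  have hn4 : 4 ≤ n := ((le_max_right _ _).trans (le_max_right _ _)).trans hn
  obtain ⟨hx1, hx2⟩ := hN3 n hnN3
  have hn1 : 1 ≤ n := by omega
  have hn1r : (1 : ℝ) ≤ n := by exact_mod_cast hn1
  have hn4r : (4 : ℝ) ≤ n := by exact_mod_cast hn4
  have hn0 : (0 : ℝ) < n := by linarith
  set L : ℝ := (n : ℝ) ^ δ1 with hL
  have hL0 : 0 < L := Real.rpow_pos_of_pos hn0 _
  have hL1 : 1 ≤ L := Real.one_le_rpow hn1r hδ10.le
  set U : ℝ := (n : ℝ) ^ (-(1 / 2) - 4 * δ1) with hU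
  have hU0 : 0 < U := Real.rpow_pos_of_pos hn0 _
  have hsq : (n : ℝ) ^ (-(1 / 2) : ℝ) ≤ 1 / 2 := by
    rw [Real.rpow_neg hn0.le, ← Real.sqrt_eq_rpow, ← one_div]
    have h5 : (2 : ℝ) ≤ √n := by
      rw [show (2 : ℝ) = √4 by
        rw [show (4 : ℝ) = 2 ^ 2 by norm_num, Real.sqrt_sq (by norm_num)]]
      exact Real.sqrt_le_sqrt hn4r
    exact one_div_le_one_div_of_le (by norm_num) h5
  have hUs : U ≤ (n : ℝ) ^ (-(1 / 2) : ℝ) :=
    Real.rpow_le_rpow_of_exponent_le hn1r (by linarith)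
  have hUh : U ≤ 1 / 2 := hUs.trans hsq
  have hUL : U ≤ 1 / (2 * L) := by
    rw [le_div_iff₀ (by positivity)]
    have h5 : U * (2 * L) = 2 * (n : ℝ) ^ (-(1 / 2) - 4 * δ1 + δ1) := by
      rw [hU, hL, Real.rpow_add hn0]
      ring
    rw [h5]
    have h6 : (n : ℝ) ^ (-(1 / 2) - 4 * δ1 + δ1) ≤ (n : ℝ) ^ (-(1 / 2) : ℝ) :=
      Real.rpow_le_rpow_of_exponent_le hn1r (by linarith)
    linarith
  have hU2 : U ^ 2 = (n : ℝ) ^ (-1 - 8 * δ1) := by
    rw [hU, ← Real.rpow_natCast, ← Real.rpow_mul hn0.le]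
    congr 1
    push_cast
    ring
  have hL4 : L ^ 4 = (n : ℝ) ^ (4 * δ1) := by
    rw [hL, ← Real.rpow_natCast, ← Real.rpow_mul hn0.le]
    congr 1
    push_cast
    ring
  have hUB : 320 * (U ^ 2 * n * L ^ 4) ≤ 1 := by
    have h5 : U ^ 2 * n * L ^ 4 = (n : ℝ) ^ (-(4 * δ1)) := by
      rw [hU2, hL4]
      nth_rewrite 2 [← Real.rpow_one (n : ℝ)]
      rw [← Real.rpow_add hn0, ← Real.rpow_add hn0]
      congr 1
      ring
    rw [h5, Real.rpow_neg hn0.le, ← div_eq_mul_inv, div_le_one (by linarith)]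
    exact hx2
  -- the data at the three forces
  have hdat : ∀ g : ℝ, (n : ℝ) ^ (-(2 * c)) ≤ g → ∃ ρ D, Dt L n g ρ D := by
    intro g hg
    have hg1 : (n : ℝ) ^ (-c1) ≤ g :=
      (Real.rpow_le_rpow_of_exponent_le hn1r (by linarith)).trans hg
    have hg2 : (n : ℝ) ^ (-c2) ≤ g :=
      (Real.rpow_le_rpow_of_exponent_le hn1r (by linarith)).trans hg
    obtain ⟨-, ρ, D, -, -, hcr, hD2, hDL, hT, hl, hu, -⟩ := hN1 n hnN1 g hg1
    have hnc := hN2 n hnN2 g hg2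
    rw [pow_zero, one_mul] at hnc
    refine ⟨ρ, D, hcr, hD2, hDL, hT, ?_, hu, hnc⟩
    rw [hL, ← Real.rpow_neg hn0.le]
    exact hl
  have hxc : (n : ℝ) ^ (-c) ≤ 1 / 2 := by
    rw [Real.rpow_neg hn0.le, ← one_div]
    exact one_div_le_one_div_of_le (by norm_num) hx1
  have hxc0 : 0 < (n : ℝ) ^ (-c) := Real.rpow_pos_of_pos hn0 _
  have hx2c : (n : ℝ) ^ (-(2 * c)) = ((n : ℝ) ^ (-c)) ^ 2 := by
    rw [← Real.rpow_natCast, ← Real.rpow_mul hn0.le]
    congr 1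
    push_cast
    ring
  have hUc : U ≤ (n : ℝ) ^ (-(2 * c)) :=
    hUs.trans (Real.rpow_le_rpow_of_exponent_le hn1r (by linarith))
  have hfU : (n : ℝ) ^ (-(2 * c)) ≤ f - U := by
    rw [hx2c] at hUc ⊢
    nlinarith
  have hf0 := hdat f (by linarith)
  have hfp := hdat (f + U) (by linarith)
  have hfm := hdat (f - U) hfU
  have hA := core h3 h4 (u := U) hn1 hL0 (by rw [abs_of_pos hU0]; exact hUh)
    (by rw [abs_of_pos hU0]; exact hUL) hUB hcen hf0 hfp hfm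
  have hB := core h3 h4 (u := -U) hn1 hL0 (by rw [abs_neg, abs_of_pos hU0]; exact hUh)
    (by rw [abs_neg, abs_of_pos hU0]; exact hUL) (by rw [neg_sq]; exact hUB) hcen hf0
    (by rw [← sub_eq_add_neg]; exact hfm) (by rw [sub_neg_eq_add]; exact hfp)
  set Z0 := Zq n (Real.exp (-f)) with hZ0
  have hZnn : 0 ≤ Z0 := by
    rw [hZ0]
    exact Finset.sum_nonneg fun q _ => pow_nonneg (Real.exp_pos _).le _
  have hsum : U ^ 2 * ∑ q ∈ Omn n, wtq n (Real.exp (-f)) q * ((sp q : ℝ) - m) ^ 2 ≤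
      32 * L ^ 4 * Z0 := by
    have h5 : U ^ 2 * ∑ q ∈ Omn n, wtq n (Real.exp (-f)) q * ((sp q : ℝ) - m) ^ 2 ≤
        ∑ q ∈ Omn n, 2 * (wtq n (Real.exp (-f)) q * Real.exp (U * ((sp q : ℝ) - m)) +
          wtq n (Real.exp (-f)) q * Real.exp (-U * ((sp q : ℝ) - m))) := by
      rw [Finset.mul_sum]
      refine Finset.sum_le_sum fun q _ => ?_
      have hw : 0 ≤ wtq n (Real.exp (-f)) q := pow_nonneg (Real.exp_pos _).le _
      have h6 := mul_le_mul_of_nonneg_left (sq_le_exp (U * ((sp q : ℝ) - m))) hw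
      have h7 : -(U * ((sp q : ℝ) - m)) = -U * ((sp q : ℝ) - m) := by ring
      rw [h7] at h6
      calc U ^ 2 * (wtq n (Real.exp (-f)) q * ((sp q : ℝ) - m) ^ 2) =
          wtq n (Real.exp (-f)) q * (U * ((sp q : ℝ) - m)) ^ 2 := by ring
        _ ≤ _ := h6
        _ = _ := by ring
    refine h5.trans ?_
    rw [← Finset.mul_sum, Finset.sum_add_distrib]
    linarith
  have hfin : (n : ℝ) ^ (1 + 12 * δ1) * 32 ≤ (n : ℝ) ^ (1 + δ) := by
    have h5 : (n : ℝ) ^ (1 + δ) = (n : ℝ) ^ (1 + 12 * δ1) * (n : ℝ) ^ (4 * δ1) := by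
      rw [← Real.rpow_add hn0]
      congr 1
      rw [hδ1]
      ring
    rw [h5]
    have : 0 < (n : ℝ) ^ (1 + 12 * δ1) := Real.rpow_pos_of_pos hn0 _
    nlinarith
  set S := ∑ q ∈ Omn n, wtq n (Real.exp (-f)) q * ((sp q : ℝ) - m) ^ 2 with hS
  have hV : (n : ℝ) ^ (1 + 8 * δ1) * U ^ 2 = 1 := by
    rw [hU2, ← Real.rpow_add hn0]
    have : 1 + 8 * δ1 + (-1 - 8 * δ1) = 0 := by ring
    rw [this, Real.rpow_zero]
  have hVL : (n : ℝ) ^ (1 + 8 * δ1) * L ^ 4 = (n : ℝ) ^ (1 + 12 * δ1) := by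
    rw [hL4, ← Real.rpow_add hn0]
    congr 1
    ring
  have hV0 : 0 < (n : ℝ) ^ (1 + 8 * δ1) := Real.rpow_pos_of_pos hn0 _
  calc S = ((n : ℝ) ^ (1 + 8 * δ1) * U ^ 2) * S := by rw [hV, one_mul]
    _ = (n : ℝ) ^ (1 + 8 * δ1) * (U ^ 2 * S) := by ring
    _ ≤ (n : ℝ) ^ (1 + 8 * δ1) * (32 * L ^ 4 * Z0) := mul_le_mul_of_nonneg_left hsum hV0.le
    _ = ((n : ℝ) ^ (1 + 8 * δ1) * L ^ 4) * 32 * Z0 := by ring
    _ ≤ (n : ℝ) ^ (1 + δ) * Z0 := by
        rw [hVL]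
        exact mul_le_mul_of_nonneg_right hfin hZnn

end Pool.Agent.PFS
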