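import Pool.Agent.PFS.BLC
import Pool.Agent.PFS.CENS
import Pool.Agent.PFS.CENT
import Pool.Agent.PFS.CHOP
import Pool.Agent.PFS.CLSF
import Pool.Agent.PFS.DIAP
import Pool.Agent.PFS.FFA
import Pool.Agent.PFS.FFP
import Pool.Agent.PFS.GUB
import Pool.Agent.PFS.LCL
import Pool.Agent.PFS.LIPL
import Pool.Agent.PFS.MOML
import Pool.Agent.PFS.NCB
import Pool.Agent.PFS.SAPL
import Pool.Agent.PFS.SAPM
import Pool.Agent.PFS.SECM
import Pool.Agent.PFS.SLOWN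
import Pool.Agent.PFS.GLU
import Pool.Agent.PFS.FIN
import Pool.Agent.PFW.MainF
import Pool.Agent.DIA.MainC
import Pool.Agent.NSP.UNQ
import Pool.Agent.Lib_helper74.FS.CDF

/-!
# Project PFS (MP_f6626d_co): assembly of part C
-/

set_option autoImplicit false

namespace Pool.Agent.PFS

open Finset Filter Topology MeasureTheory
open Pool.Agent.Lib27 Pool.Agent.SapR Pool.Agent.Gap Pool.Agent.AreaLaw Pool.Agent.FL
open Pool.Agent.FS Pool.Agent.EXW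

theorem m_GUB : GUB_Stmt := by
  obtain ⟨oLT, oLT1, oM2, oBAL, oST, oSUP, oW⟩ := old_gap
  have hW : QGW_Stmt := m_QGW
  have hM2 : QGM2_Stmt := t_QGM2 t_QGC m_QGRE m_QGSUP hW
  exact t_GUB PFW.m_WRAT oBAL hM2 t_QPAR

theorem m_FFA : FFA_Stmt := t_FFA PFW.m_DATP PFW.m_WCS m_GUB mgi2 t_SLOWN

theorem m_FFP : FFP_Stmt :=
  t_FFP PFW.m_DATP PFW.m_WCS (PFW.t_WMA PFW.m_WRAT t_CHA t_CHB) (t_PDIF (t_NEARP hg)) m_FFA t_SLOWN

theorem m_NCB : NCB_Stmt := t_NCB m_FFA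

theorem m_TR : FL.TR_Stmt := tr K1H.k1h

/-- part C from the local law and the upper bounds at fixed span -/
theorem finC (hL : LLP_Stmt) (hB : BLP_Stmt) : FINP_Stmt := by
  have hLCL : LCL_Stmt := t_LCL hL m_FFA (t_SECM m_FFA m_NCB m_TR hg) (t_CENS m_NCB m_TR hg)
    (t_CENT hg) t_SLOWN hg
  have hBLC : BLC_Stmt := t_BLC hB t_SLOWN hg
  have hSAPL : SAPL_Stmt := t_SAPL hLCL hBLC m_FFA m_FFP m_NCB m_TR hg
  have hSAPM : SAPM_Stmt := t_SAPM hLCL hBLC m_FFA m_FFP m_NCB m_TR hg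
  exact t_FINP PFW.main4 DIA.mainC NSP.t_UNQ t_CHOP
    (t_CLSF hSAPL hSAPM t_MOML t_LIPL CDF_thm)
    (t_DIAP PFW.m_FERP hSAPM DIA.t_DMX DIA.t_RFL) (DIA.t_CER DIA.t_DMX DIA.t_RFL) DIA.t_DMX
    DIA.m_TRW

theorem main_of (hL : LLAW_Stmt) (hB : BLU_Stmt) : FINP_Stmt :=
  finC (t_LLP hL t_SLOWN) (t_BLP hB t_SLOWN m_FFA m_FFP)

end Pool.Agent.PFS
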