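import Pool.Agent.PFS.MainAB
import Pool.Agent.PFS.MainC

/-!
# Project PFS (MP_f6626d_co): the theorem for prescribed span or diameter in the large deviation
regime
-/

set_option autoImplicit false

namespace Pool.Agent.PFS

/-- The area law of uniform self-avoiding polygons with prescribed span or diameter `h n`, for all
`h n ≤ n` with `h n ≥ e n * n` or `#{g ≥ h n} ≤ exp (-n ^ (1 - c)) #SAP`. -/
theorem main : FINP_Stmt := main_of m_LLAW m_BLU

end Pool.Agent.PFS
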