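import Pool.Agent.PFS.StmtsB
import Pool.Agent.PFW.DATP

/-!
# Project PFS, module PTL: tails at the critical weight, for all larger parameters (from `PFW/DATP.lean`)
-/

set_option autoImplicit false

namespace Pool.Agent.PFS

open Finset Pool.Agent.Lib27 Pool.Agent.SapR Pool.Agent.Gap Pool.Agent.FL Pool.Agent.EXW Filter
  Topology Pool.Agent.AreaLaw Pool.Agent.FS
open Pool.Agent.PFW (Mp)

theorem t_PTL (hQ : PWR.QMGP_Stmt) (hMG : MG_Stmt) : PTL_Stmt := by
  obtain ⟨A0, hA0, hQ⟩ := hQ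
  obtain ⟨C1, θ1, hC1, hθ1, hθ11, n1, h1⟩ := hMG (Real.exp (-1)) (Real.exp_pos _) (by
    rw [Real.exp_lt_one_iff]; norm_num)
  obtain ⟨a1, ha1⟩ := exists_nat_ge C1
  obtain ⟨a2, ha2⟩ := exists_nat_ge (1 - θ1)⁻¹
  refine ⟨max (max (A0 + 1) 100) (max a1 a2), ?_, max n1 2, le_max_right _ _,
    fun A hA n f rho hn hf hM hcr => ?_⟩
  · have h2 : 100 ≤ max (max (A0 + 1) 100) (max a1 a2) :=
      le_trans (le_max_right _ _) (le_max_left _ _)
    omega
  obtain ⟨hrho, hcrit⟩ := hcr
  have hA00 : A0 + 1 ≤ A := le_trans (le_trans (le_max_left _ _) (le_max_left _ _)) hA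
  have hA100 : 100 ≤ A := le_trans (le_trans (le_max_right _ _) (le_max_left _ _)) hA
  have hAa1 : a1 ≤ A := le_trans (le_trans (le_max_left _ _) (le_max_right _ _)) hA
  have hAa2 : a2 ≤ A := le_trans (le_trans (le_max_right _ _) (le_max_right _ _)) hA
  have hA2 : 2 ≤ A := by omega
  have hAM := PFW.A_le_Mp hA2 hf
  have hn1 : n1 ≤ n := (le_max_left _ _).trans hn
  have hM100 : 100 ≤ Mp A f := by
    have : (100 : ℝ) ≤ A := by exact_mod_cast hA100
    linarith
  have hM0 : 0 < Mp A f := by linarith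
  rcases le_or_gt f 1 with hf1 | hf1
  · have hle1 : PWR.Mp A0 f ≤ Mp A f := by
      rw [PFW.Mp_eq hf1]
      rcases Nat.lt_or_ge A0 2 with h2 | h2
      · have e : A0 = 1 := by omega
        subst e
        have h3 : Mp 1 f ≤ Mp 2 f := by
          unfold PFW.Mp
          have h4 : 0 < min f 1 := lt_min hf one_pos
          have h5 : 1 ≤ ((2 : ℕ) : ℝ) / min f 1 := by
            rw [le_div_iff₀ h4, one_mul]
            have := min_le_right f 1
            push_cast
            linarith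
          calc (((1 : ℕ) : ℝ) / min f 1) ^ 1 ≤ (((2 : ℕ) : ℝ) / min f 1) ^ 1 := by
                rw [pow_one, pow_one]
                exact div_le_div_of_nonneg_right (by norm_num) h4.le
            _ ≤ _ := pow_le_pow_right₀ h5 (by norm_num)
        exact h3.trans (PFW.Mp_mono le_rfl hA2 hf)
      · exact PFW.Mp_mono h2 (by omega) hf
    have h2 := hQ f hf hf1 n rho (hle1.trans hM) hrho hcrit
    have h3 : 1 ≤ PWR.Mp A0 f := by
      unfold PWR.Mp
      have h4 : 1 ≤ (A0 : ℝ) / f := by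
        rw [le_div_iff₀ hf, one_mul]
        have : (1 : ℝ) ≤ A0 := by exact_mod_cast hA0
        linarith
      exact one_le_pow₀ h4
    refine QDAT.tails_mono (by linarith) hle1 ?_ ?_ h2
    · have := inv_le_one_of_one_le₀ h3
      linarith
    · have := inv_anti₀ (by linarith : 0 < PWR.Mp A0 f) hle1
      linarith
  · have h2 := h1 n (Real.exp (-f)) rho hn1 (Real.exp_pos _) (by
      rw [Real.exp_le_exp]; linarith) hrho hcrit
    have e1 : C1 ≤ Mp A f := by
      have : (a1 : ℝ) ≤ A := by exact_mod_cast hAa1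
      linarith
    have e2 : (1 - θ1)⁻¹ ≤ Mp A f := by
      have : (a2 : ℝ) ≤ A := by exact_mod_cast hAa2
      linarith
    refine QDAT.tails_mono hC1.le e1 hθ1.le ?_ h2
    have h4 : 0 < (1 - θ1)⁻¹ := inv_pos.2 (by linarith)
    have h5 : (Mp A f)⁻¹ ≤ ((1 - θ1)⁻¹)⁻¹ := inv_anti₀ h4 e2
    rw [inv_inv] at h5
    linarith

end Pool.Agent.PFS
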