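import Pool.Agent.PFS.StmtsA
import Pool.Agent.Lib_helper22.Gap.J2

/-!
# Project PFS, module TCL: the closed generating functions with phases
-/

set_option autoImplicit false

open Finset Filter Topology

namespace Pool.Agent.PFS

open Pool.Agent.Gap Pool.Agent.FL Pool.Agent.EXW

namespace TCLx

lemma hasSum_gfc {b : ℕ → ℤ → ℂ} {z : ℂ}
    (hb : ∀ j g, Summable fun n : ℕ => ‖((n : ℂ)) ^ j * b n g * z ^ n‖) (j : ℕ) (g : ℤ) :
    HasSum (fun n : ℕ => ((n : ℂ)) ^ j * b n g * z ^ n) (gfc j b z g) :=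
  (hb j g).of_norm.hasSum

lemma shift_hasSum {b : ℕ → ℤ → ℂ} {z : ℂ}
    (hb : ∀ j g, Summable fun n : ℕ => ‖((n : ℂ)) ^ j * b n g * z ^ n‖)
    (j m : ℕ) (g : ℤ) : HasSum (fun n : ℕ => if m ≤ n then
      ((n : ℂ)) ^ j * b (n - m) g * z ^ n else 0)
      (∑ l ∈ range (j + 1), ((j.choose l : ℕ) : ℂ) *
        ((m : ℂ) ^ (j - l) * z ^ m * gfc l b z g)) := by
  rw [← hasSum_nat_add_iff' m]
  have h0 : ∑ n ∈ range m, (if m ≤ n then
      ((n : ℂ)) ^ j * b (n - m) g * z ^ n else 0) = 0 := by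
    refine sum_eq_zero fun n hn => ?_
    rw [mem_range] at hn
    rw [if_neg (by omega)]
  rw [h0, sub_zero]
  have h1 := hasSum_sum (s := range (j + 1)) (fun l _ =>
    (hasSum_gfc hb l g).mul_left (((j.choose l : ℕ) : ℂ) * ((m : ℂ) ^ (j - l) * z ^ m)))
  have h2 : (∑ l ∈ range (j + 1), ((j.choose l : ℕ) : ℂ) *
      ((m : ℂ) ^ (j - l) * z ^ m * gfc l b z g)) =
      ∑ l ∈ range (j + 1), ((j.choose l : ℕ) : ℂ) * ((m : ℂ) ^ (j - l) * z ^ m) *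
        gfc l b z g := by
    refine sum_congr rfl fun l _ => ?_
    ring
  rw [h2]
  have h3 : (fun n : ℕ => if m ≤ n + m then
      (((n + m : ℕ) : ℂ)) ^ j * b (n + m - m) g * z ^ (n + m) else 0) = fun n : ℕ =>
      ∑ i ∈ range (j + 1), ((j.choose i : ℕ) : ℂ) * ((m : ℂ) ^ (j - i) * z ^ m) *
        ((n : ℂ) ^ i * b n g * z ^ n) := by
    ext n
    rw [if_pos (Nat.le_add_left m n), Nat.add_sub_cancel, Nat.cast_add, add_pow, sum_mul, sum_mul]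
    refine sum_congr rfl fun l _ => ?_
    rw [pow_add]
    ring
  rw [h3]
  exact h1

lemma cap_m {C0 : ℕ} {s : ℕ → ℤ → ℝ} {cs : ℕ → ℤ → ℂ} (hs : IsCap C0 s)
    (h : ∀ m g, ‖cs m g‖ ≤ s m g) (m : ℕ) (g : ℤ) (hm : C0 < m) : cs m g = 0 := by
  have h1 := h m g
  rw [hs.supp_m m g hm] at h1
  exact norm_le_zero_iff.1 h1

lemma cap_g {C0 : ℕ} {s : ℕ → ℤ → ℝ} {cs : ℕ → ℤ → ℂ} (hs : IsCap C0 s)
    (h : ∀ m g, ‖cs m g‖ ≤ s m g) (m : ℕ) (g : ℤ) (hg : g < 1 ∨ (C0 : ℤ) < g) :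
    cs m g = 0 := by
  have h1 := h m g
  rw [hs.supp_g m g hg] at h1
  exact norm_le_zero_iff.1 h1

lemma capc_zero {C0 : ℕ} {s : ℕ → ℤ → ℝ} {cs : ℕ → ℤ → ℂ} (hs : IsCap C0 s)
    (h : ∀ m g, ‖cs m g‖ ≤ s m g) (j : ℕ) (z : ℂ) (g : ℤ)
    (hg : g < 1 ∨ (C0 : ℤ) < g) : capc C0 cs j z g = 0 := by
  unfold capc
  refine Finset.sum_eq_zero fun m _ => ?_
  rw [cap_g hs h m g hg, mul_zero]

lemma sum_capc_ext {C0 N : ℕ} {s : ℕ → ℤ → ℝ} {cs : ℕ → ℤ → ℂ} (hs : IsCap C0 s)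
    (h : ∀ m g, ‖cs m g‖ ≤ s m g) (hN : C0 ≤ N) (j : ℕ) (z : ℂ) (F : ℤ → ℂ) :
    ∑ g ∈ Icc (1 : ℤ) N, capc C0 cs j z g * F g =
      ∑ g ∈ Icc (1 : ℤ) C0, capc C0 cs j z g * F g := by
  symm
  refine Finset.sum_subset (Finset.Icc_subset_Icc le_rfl (by exact_mod_cast hN))
    fun g hg hg' => ?_
  rw [Finset.mem_Icc] at hg hg'
  rw [capc_zero hs h j z g (by omega), zero_mul]

lemma closec_eq {C0 : ℕ} {t : ℕ → ℤ → ℝ} {ct : ℕ → ℤ → ℂ} (ht : IsCap C0 t)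
    (h : ∀ m g, ‖ct m g‖ ≤ t m g) (b : ℕ → ℤ → ℂ) (n : ℕ) :
    closec C0 ct b n = ∑ m ∈ range (C0 + 1), ∑ g ∈ Icc (1 : ℤ) C0,
      ct m g * (if m ≤ n then b (n - m) g else 0) := by
  unfold closec
  have h1 : ∑ m ∈ range (n + 1), ∑ g ∈ Icc (1 : ℤ) C0, ct m g * b (n - m) g =
      ∑ m ∈ range (n + 1 + (C0 + 1)), ∑ g ∈ Icc (1 : ℤ) C0,
        ct m g * (if m ≤ n then b (n - m) g else 0) := by
    have h2 : range (n + 1) ⊆ range (n + 1 + (C0 + 1)) := range_subset_range.2 (by omega)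
    rw [← Finset.sum_subset h2]
    · refine Finset.sum_congr rfl fun m hm => Finset.sum_congr rfl fun g _ => ?_
      rw [mem_range] at hm
      rw [if_pos (by omega)]
    · intro m _ hm
      rw [mem_range] at hm
      refine Finset.sum_eq_zero fun g _ => ?_
      rw [if_neg (by omega), mul_zero]
  have h3 : ∑ m ∈ range (C0 + 1), ∑ g ∈ Icc (1 : ℤ) C0,
        ct m g * (if m ≤ n then b (n - m) g else 0) =
      ∑ m ∈ range (n + 1 + (C0 + 1)), ∑ g ∈ Icc (1 : ℤ) C0,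
        ct m g * (if m ≤ n then b (n - m) g else 0) := by
    have h2 : range (C0 + 1) ⊆ range (n + 1 + (C0 + 1)) := range_subset_range.2 (by omega)
    refine Finset.sum_subset h2 ?_
    intro m _ hm
    rw [mem_range] at hm
    refine Finset.sum_eq_zero fun g _ => ?_
    rw [cap_m ht h m g (by omega), zero_mul]
  rw [h1, h3]

lemma closec_hasSum {C0 : ℕ} {t : ℕ → ℤ → ℝ} {ct : ℕ → ℤ → ℂ} (ht : IsCap C0 t)
    (h : ∀ m g, ‖ct m g‖ ≤ t m g) {b : ℕ → ℤ → ℂ} {z : ℂ}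
    (hb : ∀ j g, Summable fun n : ℕ => ‖((n : ℂ)) ^ j * b n g * z ^ n‖) (j : ℕ) :
    HasSum (fun n : ℕ => ((n : ℂ)) ^ j * closec C0 ct b n * z ^ n)
      (∑ l ∈ range (j + 1), ((j.choose l : ℕ) : ℂ) *
        ∑ g ∈ Icc (1 : ℤ) C0, capc C0 ct (j - l) z g * gfc l b z g) := by
  have h1 : HasSum (fun n : ℕ => ∑ m ∈ range (C0 + 1), ∑ g ∈ Icc (1 : ℤ) C0,
      ct m g * (if m ≤ n then ((n : ℂ)) ^ j * b (n - m) g * z ^ n else 0))
      (∑ m ∈ range (C0 + 1), ∑ g ∈ Icc (1 : ℤ) C0, ct m g *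
        (∑ l ∈ range (j + 1), ((j.choose l : ℕ) : ℂ) *
          (((m : ℕ) : ℂ) ^ (j - l) * z ^ m * gfc l b z g))) := by
    refine hasSum_sum fun m _ => hasSum_sum fun g _ => ?_
    exact (shift_hasSum hb j m g).mul_left _
  have h2 : (fun n : ℕ => ((n : ℂ)) ^ j * closec C0 ct b n * z ^ n) =
      fun n : ℕ => ∑ m ∈ range (C0 + 1), ∑ g ∈ Icc (1 : ℤ) C0,
      ct m g * (if m ≤ n then ((n : ℂ)) ^ j * b (n - m) g * z ^ n else 0) := by
    funext n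
    rw [closec_eq ht h b n, Finset.mul_sum, Finset.sum_mul]
    refine Finset.sum_congr rfl fun m _ => ?_
    rw [Finset.mul_sum, Finset.sum_mul]
    refine Finset.sum_congr rfl fun g _ => ?_
    split_ifs with h
    · ring
    · simp
  have h3 : (∑ l ∈ range (j + 1), ((j.choose l : ℕ) : ℂ) *
        ∑ g ∈ Icc (1 : ℤ) C0, capc C0 ct (j - l) z g * gfc l b z g) =
      (∑ m ∈ range (C0 + 1), ∑ g ∈ Icc (1 : ℤ) C0, ct m g *
        (∑ l ∈ range (j + 1), ((j.choose l : ℕ) : ℂ) *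
          (((m : ℕ) : ℂ) ^ (j - l) * z ^ m * gfc l b z g))) := by
    simp_rw [Finset.mul_sum]
    rw [Finset.sum_comm]
    symm
    rw [Finset.sum_comm]
    refine Finset.sum_congr rfl fun g _ => ?_
    rw [Finset.sum_comm]
    refine Finset.sum_congr rfl fun l _ => ?_
    unfold capc
    rw [Finset.sum_mul, Finset.mul_sum]
    refine Finset.sum_congr rfl fun m _ => ?_
    ring
  rw [h2, h3]
  exact h1

lemma KzT_symm (G : GapKernel) (p : ℕ × ℕ → ℂ) (j : ℕ) (eps : ℝ) (z : ℂ) (g g' : ℤ) :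
    KzT G p j eps z g g' = KzT G p j eps z g' g := by
  unfold KzT
  refine Finset.sum_congr rfl fun i _ => ?_
  have h1 : GapKernel.wt eps i g g' = GapKernel.wt eps i g' g := by
    unfold GapKernel.wt
    rw [add_comm (g : ℝ) (g' : ℝ)]
  rw [G.K_symm i g g', h1]

lemma KapT_symm (G : GapKernel) (p : ℕ × ℕ → ℂ) (j : ℕ) (eps : ℝ) (z : ℂ) (N : ℕ)
    (f h : ℤ → ℂ) : ∑ g ∈ Icc (1 : ℤ) N, KapT G p j eps z N f g * h g =
      ∑ g ∈ Icc (1 : ℤ) N, f g * KapT G p j eps z N h g := by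
  unfold KapT
  simp_rw [Finset.sum_mul, Finset.mul_sum]
  rw [Finset.sum_comm]
  refine Finset.sum_congr rfl fun g _ => Finset.sum_congr rfl fun g' _ => ?_
  rw [KzT_symm G p j eps z g' g]
  ring

lemma LopT_symm (G : GapKernel) (p : ℕ × ℕ → ℂ) (eps : ℝ) (z : ℂ) (N : ℕ)
    (f h : ℤ → ℂ) : ∑ g ∈ Icc (1 : ℤ) N, LopT G p eps z N f g * h g =
      ∑ g ∈ Icc (1 : ℤ) N, f g * LopT G p eps z N h g := by
  unfold LopT
  simp_rw [sub_mul, mul_sub, Finset.sum_sub_distrib]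
  rw [KapT_symm]

/-- the closed generating function through the dual solution -/
lemma cgf_eq {G : GapKernel} {p : ℕ × ℕ → ℂ} {C0 : ℕ} {s t : ℕ → ℤ → ℝ}
    {cs ct : ℕ → ℤ → ℂ} (ht : IsCap C0 t) (hct : ∀ m g, ‖ct m g‖ ≤ t m g)
    {eps : ℝ} {N : ℕ} (hN : C0 ≤ N) {b b' : ℕ → ℤ → ℂ} {z : ℂ}
    (hb : ∀ j g, Summable fun n : ℕ => ‖((n : ℂ)) ^ j * b n g * z ^ n‖) (j : ℕ)
    (hV : SolvesT G p eps z N (gfc j b z)
      (fun g => capc C0 cs j z g + ∑ l ∈ range j, ((j.choose l : ℕ) : ℂ) *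
        KapT G p (j - l) eps z N (gfc l b z) g))
    (hW : SolvesT G p eps z N (gfc 0 b' z)
      (fun g => capc C0 ct 0 z g + ∑ l ∈ range 0, (((0 : ℕ).choose l : ℕ) : ℂ) *
        KapT G p (0 - l) eps z N (gfc l b' z) g)) :
    cgf j (closec C0 ct b) z =
      (∑ l ∈ range j, ((j.choose l : ℕ) : ℂ) *
        ∑ g ∈ Icc (1 : ℤ) N, capc C0 ct (j - l) z g * gfc l b z g) +
      (∑ g ∈ Icc (1 : ℤ) N, gfc 0 b' z g * capc C0 cs j z g) +
      ∑ l ∈ range j, ((j.choose l : ℕ) : ℂ) *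
        ∑ g ∈ Icc (1 : ℤ) N, gfc 0 b' z g * KapT G p (j - l) eps z N (gfc l b z) g := by
  have h1 : cgf j (closec C0 ct b) z = _ := (closec_hasSum ht hct hb j).tsum_eq
  rw [h1, Finset.sum_range_succ, Nat.choose_self, Nat.sub_self, Nat.cast_one, one_mul]
  have h2 : ∑ g ∈ Icc (1 : ℤ) C0, capc C0 ct 0 z g * gfc j b z g =
      ∑ g ∈ Icc (1 : ℤ) N, gfc 0 b' z g * (capc C0 cs j z g +
        ∑ l ∈ range j, ((j.choose l : ℕ) : ℂ) *
          KapT G p (j - l) eps z N (gfc l b z) g) := by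
    rw [← sum_capc_ext ht hct hN 0 z (gfc j b z)]
    have h3 : ∑ g ∈ Icc (1 : ℤ) N, capc C0 ct 0 z g * gfc j b z g =
        ∑ g ∈ Icc (1 : ℤ) N, LopT G p eps z N (gfc 0 b' z) g * gfc j b z g := by
      refine Finset.sum_congr rfl fun g hg => ?_
      rw [hW.2 g hg]
      simp
    rw [h3, LopT_symm]
    refine Finset.sum_congr rfl fun g hg => ?_
    rw [hV.2 g hg]
  have h4 : ∀ l : ℕ, ∑ g ∈ Icc (1 : ℤ) C0, capc C0 ct (j - l) z g * gfc l b z g =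
      ∑ g ∈ Icc (1 : ℤ) N, capc C0 ct (j - l) z g * gfc l b z g := fun l =>
    (sum_capc_ext ht hct hN (j - l) z (gfc l b z)).symm
  simp_rw [h4]
  rw [h2, add_assoc]
  congr 1
  simp_rw [mul_add, Finset.sum_add_distrib]
  congr 1
  simp_rw [Finset.mul_sum]
  rw [Finset.sum_comm]
  refine Finset.sum_congr rfl fun l _ => Finset.sum_congr rfl fun g _ => ?_
  ring

end TCLx

open TCLx in
/-- MODULE TCL -/
theorem t_TCL (h : TJ1_Stmt) : TCL_Stmt := by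
  intro G p hp C0 s t cs ct hs ht hcs hct N eps heps hN b b' hb hb' z hz
  obtain ⟨-, hsm, hsol⟩ := (h G p hp C0 s cs hs hcs N eps heps).2 b hb
  obtain ⟨-, -, hsol'⟩ := (h G p hp C0 t ct ht hct N eps heps).2 b' hb'
  have hbs := hsm z hz
  have hW := hsol' z hz 0
  refine ⟨fun j => ?_, ?_, ?_⟩
  · exact (closec_hasSum ht hct hbs j).summable.norm
  · rw [cgf_eq (s := s) ht hct hN hbs 1 (hsol z hz 1) hW]
    simp [Finset.sum_range_succ]
  · rw [cgf_eq (s := s) ht hct hN hbs 2 (hsol z hz 2) hW]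
    simp [Finset.sum_range_succ]

end Pool.Agent.PFS
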