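import Pool.Agent.PFS.StmtsA
import Pool.Agent.Lib_helper89.FL.GJ2

/-!
Module TCMP (project PFS, MP_f6626d_co, part A): comparison of the solution with phases and of the
solution without phases at the shifted point.
-/

set_option autoImplicit false

open Finset Filter Topology

namespace Pool.Agent.PFS

open Pool.Agent.Gap Pool.Agent.FL Pool.Agent.EXW

namespace TCMPx

open Pool.Agent.FL.GJ2

lemma pow_diff_le {z y : ℂ} {r : ℝ} (hr : 0 ≤ r) (hz : ‖z‖ ≤ r) (hy : ‖y‖ ≤ r) (m : ℕ) :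
    r * ‖z ^ m - y ^ m‖ ≤ m * r ^ m * ‖z - y‖ := by
  induction m with
  | zero => simp
  | succ m ih =>
    have e : z ^ (m + 1) - y ^ (m + 1) = z * (z ^ m - y ^ m) + (z - y) * y ^ m := by ring
    have h1 : ‖z ^ (m + 1) - y ^ (m + 1)‖ ≤ r * ‖z ^ m - y ^ m‖ + ‖z - y‖ * r ^ m := by
      rw [e]
      refine (norm_add_le _ _).trans (add_le_add ?_ ?_)
      · rw [norm_mul]
        exact mul_le_mul_of_nonneg_right hz (norm_nonneg _)
      · rw [norm_mul, norm_pow]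
        exact mul_le_mul_of_nonneg_left (pow_le_pow_left₀ (norm_nonneg _) hy m) (norm_nonneg _)
    calc r * ‖z ^ (m + 1) - y ^ (m + 1)‖
        ≤ r * (r * ‖z ^ m - y ^ m‖ + ‖z - y‖ * r ^ m) := mul_le_mul_of_nonneg_left h1 hr
      _ ≤ r * (m * r ^ m * ‖z - y‖ + ‖z - y‖ * r ^ m) := by gcongr
      _ = _ := by push_cast; ring

lemma lw_diff {D θ : ℝ} (hD : 2 ≤ D) {G : GapKernel} (hρ : D⁻¹ ≤ G.rho) {C0 : ℕ}
    {s : ℕ → ℤ → ℝ} {cs : ℕ → ℤ → ℂ} (hc : CapT D θ G C0 s cs) (N : ℕ) {z y : ℂ}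
    (hz : ‖z‖ ≤ G.rho) (hy : ‖y‖ ≤ G.rho) :
    lw 1 N (fun g => capc C0 cs 0 z g - capz C0 s 0 y g) ≤
      (|θ| + D * ‖z - y‖) * Sk D (1 - D⁻¹) := by
  have hr := G.rho_pos
  have hDp : (0 : ℝ) < D := by linarith
  have hDr : 1 ≤ D * G.rho := by
    have := mul_le_mul_of_nonneg_left hρ hDp.le
    rwa [mul_inv_cancel₀ hDp.ne'] at this
  have hpt : ∀ g : ℤ, ‖capc C0 cs 0 z g - capz C0 s 0 y g‖ ≤
      (|θ| + D * ‖z - y‖) * ‖capz C0 s 1 (G.rho : ℂ) g‖ := by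
    intro g
    have e1 : capz C0 s 1 (G.rho : ℂ) g =
        ((∑ m ∈ range (C0 + 1), (m : ℝ) * G.rho ^ m * s m g : ℝ) : ℂ) := by
      unfold capz
      push_cast
      exact Finset.sum_congr rfl fun m _ => by ring
    have hnn : ∀ m, 0 ≤ s m g := fun m => hc.cap.cap.nonneg m g
    have e2 : ‖capz C0 s 1 (G.rho : ℂ) g‖ =
        ∑ m ∈ range (C0 + 1), (m : ℝ) * G.rho ^ m * s m g := by
      rw [e1, Complex.norm_real, Real.norm_of_nonneg]
      exact Finset.sum_nonneg fun m _ => by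
        have := hnn m
        positivity
    rw [e2, Finset.mul_sum]
    unfold capc capz
    rw [← Finset.sum_sub_distrib]
    refine (norm_sum_le _ _).trans (Finset.sum_le_sum fun m _ => ?_)
    have e3 : (m : ℂ) ^ 0 * z ^ m * cs m g - (m : ℂ) ^ 0 * y ^ m * ((s m g : ℝ) : ℂ) =
        z ^ m * (cs m g - (s m g : ℂ)) + (z ^ m - y ^ m) * ((s m g : ℝ) : ℂ) := by ring
    rw [e3]
    have h1 : ‖z ^ m * (cs m g - (s m g : ℂ))‖ ≤ G.rho ^ m * (|θ| * m * s m g) := by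
      rw [norm_mul, norm_pow]
      exact mul_le_mul (pow_le_pow_left₀ (norm_nonneg _) hz m) (hc.near m g) (norm_nonneg _)
        (by positivity)
    have h2 : ‖(z ^ m - y ^ m) * ((s m g : ℝ) : ℂ)‖ ≤
        D * (m * G.rho ^ m * ‖z - y‖) * s m g := by
      rw [norm_mul, Complex.norm_real, Real.norm_of_nonneg (hnn m)]
      refine mul_le_mul_of_nonneg_right ?_ (hnn m)
      have h3 := pow_diff_le hr.le hz hy m
      calc ‖z ^ m - y ^ m‖ = 1 * ‖z ^ m - y ^ m‖ := (one_mul _).symm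
        _ ≤ (D * G.rho) * ‖z ^ m - y ^ m‖ := mul_le_mul_of_nonneg_right hDr (norm_nonneg _)
        _ = D * (G.rho * ‖z ^ m - y ^ m‖) := by ring
        _ ≤ _ := mul_le_mul_of_nonneg_left h3 hDp.le
    calc ‖z ^ m * (cs m g - (s m g : ℂ)) + (z ^ m - y ^ m) * ((s m g : ℝ) : ℂ)‖
        ≤ ‖z ^ m * (cs m g - (s m g : ℂ))‖ + ‖(z ^ m - y ^ m) * ((s m g : ℝ) : ℂ)‖ :=
          norm_add_le _ _
      _ ≤ G.rho ^ m * (|θ| * m * s m g) + D * (m * G.rho ^ m * ‖z - y‖) * s m g :=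
          add_le_add h1 h2
      _ = _ := by ring
  have h4 := lw_capz_le hDp (th_pos hD) (th_lt hD) hc.cap N 1 (by norm_num) 1 (by norm_num)
    (z := (G.rho : ℂ)) (by rw [Complex.norm_real, Real.norm_of_nonneg hr.le])
  calc lw 1 N (fun g => capc C0 cs 0 z g - capz C0 s 0 y g)
      ≤ (|θ| + D * ‖z - y‖) * lw 1 N (capz C0 s 1 (G.rho : ℂ)) := by
        unfold lw
        rw [Finset.mul_sum]
        refine Finset.sum_le_sum fun g hg => ?_
        have h0 : (0 : ℝ) ≤ (g : ℝ) ^ 1 := by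
          rw [pow_one]
          exact_mod_cast (by have := (Finset.mem_Icc.1 hg).1; omega : (0 : ℤ) ≤ g)
        calc (g : ℝ) ^ 1 * ‖capc C0 cs 0 z g - capz C0 s 0 y g‖
            ≤ (g : ℝ) ^ 1 * ((|θ| + D * ‖z - y‖) * ‖capz C0 s 1 (G.rho : ℂ) g‖) :=
              mul_le_mul_of_nonneg_left (hpt g) h0
          _ = _ := by ring
    _ ≤ _ := mul_le_mul_of_nonneg_left h4 (by positivity)

lemma form_lw {N : ℕ} {eps : ℝ} (heps : 0 ≤ eps) {f : ℤ → ℂ} (hf : Supp N f) (e : ℤ → ℂ) :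
    ‖form N f e‖ ≤ Real.sqrt (En N f + Pot eps N f) * lw 1 N e := by
  set D := En N f + Pot eps N f with hD
  have hE := H22.En_nonneg N f
  have hP := H22.Pot_nonneg heps N f
  have hD0 : 0 ≤ D := by linarith
  unfold form lw
  refine (norm_sum_le _ _).trans ?_
  rw [Finset.mul_sum]
  refine Finset.sum_le_sum fun g hg => ?_
  rw [Finset.mem_Icc] at hg
  rw [pow_one, norm_mul, RCLike.norm_conj, ← mul_assoc]
  refine mul_le_mul_of_nonneg_right ?_ (norm_nonneg _)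
  have hg1 : (1 : ℝ) ≤ g := by exact_mod_cast hg.1
  have h6 := H22.normsq_le_En hf g (by omega)
  have h7 : ‖f g‖ ^ 2 ≤ (Real.sqrt D * g) ^ 2 := by
    rw [mul_pow, Real.sq_sqrt hD0]
    have h8 : (g : ℝ) * En N f ≤ g * D := mul_le_mul_of_nonneg_left (by linarith) (by linarith)
    have h9 : (g : ℝ) * D ≤ D * (g : ℝ) ^ 2 := by
      have : 0 ≤ D * (g : ℝ) * ((g : ℝ) - 1) :=
        mul_nonneg (mul_nonneg hD0 (by linarith)) (by linarith)
      nlinarith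
    linarith
  have h10 : 0 ≤ Real.sqrt D * (g : ℝ) := mul_nonneg (Real.sqrt_nonneg _) (by linarith)
  exact (sq_le_sq₀ (norm_nonneg _) h10).1 h7

lemma tw_facts : ∃ K : ℕ, ∀ (D : ℝ) (G : GapKernel) (v κ : ℝ), 2 ≤ D → TwP D G v κ →
    0 < κ ∧ κ ≤ D ^ K := by
  obtain ⟨K, hK⟩ := sum_pow 2
  obtain ⟨K', hK'⟩ := par_bounds
  refine ⟨K, fun D G v κ hD hT => ?_⟩
  have hDp : (0 : ℝ) < D := by linarith
  have hκ : 0 < κ := lt_of_lt_of_le (inv_pos.2 hDp) hT.var_ge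
  refine ⟨hκ, ?_⟩
  obtain ⟨m1, -, m3, -, -, -⟩ := hK' D hD G hT.cls
  have hh2 : G.hbar ≤ G.mbar := by
    unfold GapKernel.hbar GapKernel.mbar
    refine Finset.sum_le_sum fun i hi => ?_
    have h1 : (i.2 : ℝ) ≤ i.1 := by exact_mod_cast hT.cls.loc.h_le i hi
    have h2 := GSum.rt_nonneg G i
    nlinarith
  have hv0 : 0 ≤ v := by
    by_contra hcon
    push Not at hcon
    have : v * G.mbar < 0 := mul_neg_of_neg_of_pos hcon (by linarith)
    rw [← hT.v_eq] at this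
    linarith
  have hv1 : v ≤ 1 := by
    by_contra hcon
    push Not at hcon
    have : 1 * G.mbar < v * G.mbar := mul_lt_mul_of_pos_right hcon (by linarith)
    rw [← hT.v_eq] at this
    linarith
  have h3 : 2 * κ * G.mbar ≤ D ^ K := by
    rw [← hT.var]
    refine le_trans (Finset.sum_le_sum fun i hi => ?_) (hK D hD G hT.cls)
    have h1 : (i.2 : ℝ) ≤ i.1 := by exact_mod_cast hT.cls.loc.h_le i hi
    have h2 := GSum.rt_nonneg G i
    have h4 : (0 : ℝ) ≤ i.1 := Nat.cast_nonneg _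
    have h5 : (0 : ℝ) ≤ i.2 := Nat.cast_nonneg _
    have h6 : v * i.1 ≤ i.1 := mul_le_of_le_one_left h4 hv1
    have h7 : 0 ≤ v * i.1 := mul_nonneg hv0 h4
    have h8 : ((i.2 : ℝ) - v * i.1) ^ 2 ≤ (i.1 : ℝ) ^ 2 := by
      rw [← sq_abs]
      refine pow_le_pow_left₀ (abs_nonneg _) ?_ 2
      rw [abs_le]
      constructor <;> linarith
    calc G.rho ^ i.1 * G.tot i * ((i.2 : ℝ) - v * i.1) ^ 2
        ≤ G.rho ^ i.1 * G.tot i * (i.1 : ℝ) ^ 2 := mul_le_mul_of_nonneg_left h8 h2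
      _ = _ := by ring
  have h4 : κ ≤ 2 * κ * G.mbar := by nlinarith
  linarith

lemma zn_sub_le (rho : ℝ) (hr : 0 < rho) (w : ℂ) (hw : 0 ≤ w.re) (γ : ℝ) (hγ : 0 ≤ γ) (n : ℕ) :
    ‖zn rho w n - zn rho (w + (γ : ℂ)) n‖ ≤ rho * (γ / n) := by
  have e : zn rho w n - zn rho (w + (γ : ℂ)) n = (rho : ℂ) * Complex.exp (-(w / n)) *
      ((1 - Real.exp (-(γ / n)) : ℝ) : ℂ) := by
    unfold zn
    have : -((w + (γ : ℂ)) / n) = -(w / n) + ((-(γ / n) : ℝ) : ℂ) := by push_cast; ring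
    rw [this, Complex.exp_add]
    push_cast
    ring
  have hgn : 0 ≤ γ / n := by positivity
  have h0 : Real.exp (-(γ / n)) ≤ 1 := Real.exp_le_one_iff.2 (by linarith)
  have h1 := Real.add_one_le_exp (-(γ / n))
  have h2 : Real.exp ((-(w / (n : ℂ))).re) ≤ 1 := by
    rw [Real.exp_le_one_iff, Complex.neg_re, Complex.div_natCast_re]
    have : 0 ≤ w.re / n := by positivity
    linarith
  rw [e, norm_mul, norm_mul, Complex.norm_exp, Complex.norm_real, Complex.norm_real,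
    Real.norm_of_nonneg hr.le, Real.norm_of_nonneg (by linarith)]
  calc rho * Real.exp ((-(w / (n : ℂ))).re) * (1 - Real.exp (-(γ / n)))
      ≤ rho * 1 * (γ / n) := by
        refine mul_le_mul (mul_le_mul_of_nonneg_left h2 hr.le) (by linarith) (by linarith)
          (by linarith)
    _ = _ := by ring

lemma zn_dist {D rho : ℝ} (hD : 0 < D) (hρ : D⁻¹ ≤ rho) (w : ℂ) (hw : 1 ≤ w.re) (n : ℕ)
    (hn : 1 ≤ n) : 1 / (2 * D * n) ≤ ‖(rho : ℂ) - zn rho w n‖ := by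
  have hr : 0 < rho := lt_of_lt_of_le (inv_pos.2 hD) hρ
  have hn' : (1 : ℝ) ≤ n := by exact_mod_cast hn
  have hn0 : (0 : ℝ) < n := by linarith
  have h1 : rho - rho * Real.exp (-(w.re / n)) ≤ ‖(rho : ℂ) - zn rho w n‖ := by
    have := norm_sub_norm_le (rho : ℂ) (zn rho w n)
    rw [zn_norm rho hr, Complex.norm_real, Real.norm_of_nonneg hr.le] at this
    exact this
  set t : ℝ := 1 / n with ht
  have ht0 : 0 < t := by positivity
  have ht1 : t ≤ 1 := by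
    rw [ht, div_le_one hn0]
    exact hn'
  have h3 : Real.exp (-(w.re / n)) ≤ Real.exp (-t) := by
    refine Real.exp_le_exp.2 (neg_le_neg ?_)
    rw [ht]
    exact div_le_div_of_nonneg_right hw hn0.le
  have h4 : Real.exp (-t) ≤ 1 - t / 2 := by
    have h5 := Real.add_one_le_exp t
    have h6 : Real.exp (-t) * Real.exp t = 1 := by
      rw [← Real.exp_add, neg_add_cancel, Real.exp_zero]
    have h7 := Real.exp_pos (-t)
    have h8 : Real.exp (-t) * (t + 1) ≤ 1 :=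
      (mul_le_mul_of_nonneg_left h5 h7.le).trans h6.le
    have h9 : 1 ≤ (1 - t / 2) * (t + 1) := by nlinarith
    have h10 : Real.exp (-t) * (t + 1) ≤ (1 - t / 2) * (t + 1) := h8.trans h9
    exact le_of_mul_le_mul_right h10 (by linarith)
  have h5 : rho * (t / 2) ≤ rho - rho * Real.exp (-(w.re / n)) := by
    have : rho * Real.exp (-(w.re / n)) ≤ rho * (1 - t / 2) :=
      mul_le_mul_of_nonneg_left (h3.trans h4) hr.le
    linarith
  have h6 : 1 / (2 * D * n) = D⁻¹ * (t / 2) := by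
    rw [ht]
    field_simp
  rw [h6]
  exact (mul_le_mul_of_nonneg_right hρ (by positivity)).trans (h5.trans h1)

lemma real_fin {L δ X Y a b D n : ℝ} (hL : 0 < L) (hDn : 0 < 2 * D * n)
    (hδ : 1 / (2 * D * n) ≤ δ) (h : L⁻¹ * (δ * X ^ 2 + Y ^ 2) ≤ a * X + b * Y) :
    X ^ 2 ≤ (2 * D * L * (n * a)) ^ 2 + D * L ^ 2 * (n * b ^ 2) := by
  have h1 : b * Y ≤ L⁻¹ * Y ^ 2 + L * b ^ 2 / 4 := by
    have h2 : 0 ≤ L⁻¹ * (Y - L * b / 2) ^ 2 := by positivity
    have h3 : L⁻¹ * (Y - L * b / 2) ^ 2 = L⁻¹ * Y ^ 2 - (L⁻¹ * L) * (b * Y) +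
        (L⁻¹ * L) * (L * b ^ 2 / 4) := by ring
    rw [h3, inv_mul_cancel₀ hL.ne'] at h2
    linarith
  have h2 : L⁻¹ * (δ * X ^ 2) ≤ a * X + L * b ^ 2 / 4 := by
    rw [mul_add] at h
    linarith
  have h3 : δ * X ^ 2 ≤ L * a * X + L ^ 2 * b ^ 2 / 4 := by
    have := mul_le_mul_of_nonneg_left h2 hL.le
    rw [← mul_assoc, mul_inv_cancel₀ hL.ne', one_mul] at this
    linarith
  have h4 : 1 ≤ 2 * D * n * δ := by
    have := mul_le_mul_of_nonneg_left hδ hDn.le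
    rwa [mul_one_div_cancel hDn.ne'] at this
  have h5 : X ^ 2 ≤ 2 * D * n * δ * X ^ 2 := le_mul_of_one_le_left (sq_nonneg _) h4
  have h6 : 2 * D * n * (δ * X ^ 2) ≤ 2 * D * n * (L * a * X + L ^ 2 * b ^ 2 / 4) :=
    mul_le_mul_of_nonneg_left h3 hDn.le
  have h7 : X ^ 2 ≤ (2 * D * L * (n * a)) * X + D * L ^ 2 * (n * b ^ 2) / 2 := by
    calc X ^ 2 ≤ 2 * D * n * δ * X ^ 2 := h5
      _ = 2 * D * n * (δ * X ^ 2) := by ring
      _ ≤ _ := h6
      _ = _ := by ring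
  set P := 2 * D * L * (n * a) with hP
  have h8 : 0 ≤ (P - X) ^ 2 := sq_nonneg _
  nlinarith

lemma sct_mono {K K' : ℕ} (hK : K ≤ K') {D W : ℝ} {G : GapKernel} {v κ θ : ℝ} {n : ℕ}
    (h : ScT K' D W G v κ θ n) : ScT K D W G v κ θ n where
  D2 := h.D2
  W2 := h.W2
  tw := h.tw
  big := by
    have h1 : (1 : ℝ) ≤ D * W := by
      have := h.D2
      have := h.W2
      nlinarith
    exact (pow_le_pow_right₀ h1 hK).trans h.big
  th := by
    have h1 : D ^ K ≤ D ^ K' := pow_le_pow_right₀ (by have := h.D2; linarith) hK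
    have h2 : 0 ≤ θ ^ 2 * n := by positivity
    exact (mul_le_mul_of_nonneg_left h1 h2).trans h.th

/-- consequences of the scales -/
lemma sct_facts {K : ℕ} {D W : ℝ} {G : GapKernel} {v κ θ : ℝ} {n : ℕ}
    (h : ScT (K + 1) D W G v κ θ n) : 1 ≤ n ∧ θ ^ 2 * n ≤ W ∧ |θ| * D ^ K ≤ 1 := by
  have hD := h.D2
  have hW := h.W2
  have hE : (1 : ℝ) ≤ D * W := by nlinarith
  have hn : (1 : ℝ) ≤ n := (one_le_pow₀ hE).trans h.big
  have hθ := h.th
  have hD1 : (1 : ℝ) ≤ D ^ (K + 1) := one_le_pow₀ (by linarith)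
  have hθn : 0 ≤ θ ^ 2 * n := by positivity
  have h1 : θ ^ 2 * n ≤ W := (le_mul_of_one_le_right hθn hD1).trans hθ
  refine ⟨by exact_mod_cast hn, h1, ?_⟩
  -- θ² (D W)^(K+1) D^(K+1) ≤ W
  have h2 : θ ^ 2 * (D * W) ^ (K + 1) * D ^ (K + 1) ≤ W := by
    refine le_trans ?_ hθ
    have := h.big
    gcongr
  have hDK : (0 : ℝ) < D ^ K := by positivity
  have hWK : (1 : ℝ) ≤ W ^ K := one_le_pow₀ (by linarith)
  have h3 : θ ^ 2 * D ^ K * D ^ K * (D * D * W ^ K) ≤ 1 := by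
    have e : θ ^ 2 * (D * W) ^ (K + 1) * D ^ (K + 1) =
        θ ^ 2 * D ^ K * D ^ K * (D * D * W ^ K) * W := by ring
    rw [e] at h2
    have hW0 : 0 < W := by linarith
    have : θ ^ 2 * D ^ K * D ^ K * (D * D * W ^ K) * W ≤ 1 * W := by rw [one_mul]; exact h2
    exact le_of_mul_le_mul_right this hW0
  have h4 : (|θ| * D ^ K) ^ 2 ≤ 1 := by
    rw [mul_pow, sq_abs]
    have h5 : 1 ≤ D * D * W ^ K := by
      have : 1 ≤ D * D := by nlinarith
      nlinarith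
    have h6 : 0 ≤ θ ^ 2 * D ^ K * D ^ K := by positivity
    calc θ ^ 2 * (D ^ K) ^ 2 = θ ^ 2 * D ^ K * D ^ K * 1 := by ring
      _ ≤ θ ^ 2 * D ^ K * D ^ K * (D * D * W ^ K) := mul_le_mul_of_nonneg_left h5 h6
      _ ≤ 1 := h3
  have h7 : 0 ≤ |θ| * D ^ K := by positivity
  nlinarith

lemma nsq_add_le (N : ℕ) (a b : ℤ → ℂ) :
    nsq N (fun g => a g + b g) ≤ 2 * (nsq N a + nsq N b) := by
  unfold nsq
  rw [← Finset.sum_add_distrib, Finset.mul_sum]
  refine Finset.sum_le_sum fun g _ => ?_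
  have h1 : ‖a g + b g‖ ≤ ‖a g‖ + ‖b g‖ := norm_add_le _ _
  have h2 : ‖a g + b g‖ ^ 2 ≤ (‖a g‖ + ‖b g‖) ^ 2 := by gcongr
  nlinarith [sq_nonneg (‖a g‖ - ‖b g‖)]

lemma lopT_sub (G : GapKernel) (p : ℕ × ℕ → ℂ) (eps : ℝ) (z y : ℂ) (N : ℕ) (u u0 : ℤ → ℂ)
    (e e0 : ℤ → ℂ) (h : SolvesT G p eps z N u e) (h0 : G.Solves eps y N u0 e0) (g : ℤ)
    (hg : g ∈ Icc (1 : ℤ) N) : LopT G p eps z N (fun g => u g - u0 g) g =
      (e g - e0 g) + (KapT G p 0 eps z N u0 g - G.Kap 0 eps y N u0 g) := by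
  have h1 := h.2 g hg
  have h2 := h0.2 g hg
  unfold LopT at h1 ⊢
  unfold GapKernel.Lop at h2
  have h3 : KapT G p 0 eps z N (fun g => u g - u0 g) g =
      KapT G p 0 eps z N u g - KapT G p 0 eps z N u0 g := by
    unfold KapT
    rw [← Finset.sum_sub_distrib]
    exact Finset.sum_congr rfl fun g' _ => by ring
  rw [h3, ← h1, ← h2]
  ring

end TCMPx

open TCMPx Pool.Agent.FL.GJ2 in
/-- MODULE TCMP -/
theorem t_TCMP (h1 : TGC_Stmt) (h2 : TDF_Stmt) (h3 : TMS_Stmt) (h4 : QGSUP_Stmt)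
    (h5 : QGW_Stmt) : TCMP_Stmt := by
  obtain ⟨KC, HC⟩ := h1
  obtain ⟨KD, HD⟩ := h2
  obtain ⟨-, K0', K1', HM⟩ := h3
  obtain ⟨KS, HS⟩ := h4
  obtain ⟨KW, HW⟩ := h5
  obtain ⟨KK, HK⟩ := tw_facts
  have pM : PB fun D => Sk D (1 - D⁻¹) :=
    PB.id.mul (PB.geo 7 (fun D hD => (th_pos hD).le) LB.inv_self fun D _ => le_rfl)
  have pB : PB fun D => (1 + D * D ^ KK) * Sk D (1 - D⁻¹) +
      D ^ KD * (D ^ KK + 1) * Real.sqrt (D ^ KS * Sk D (1 - D⁻¹) ^ 2) :=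
    (((PB.const 1).add (PB.id.mul (PB.pow_self KK))).mul pM).add
      (((PB.pow_self KD).mul ((PB.pow_self KK).add (PB.const 1))).mul
        ((PB.pow_self KS).mul (pM.pow 2)).sqrt)
  have pU : PB fun D => D ^ KW * Sk D (1 - D⁻¹) ^ 2 * Real.sqrt (2 * D) :=
    ((PB.pow_self KW).mul (pM.pow 2)).mul ((PB.const 2).mul PB.id).sqrt
  obtain ⟨KB, HB⟩ := pB.le
  obtain ⟨KU, HU⟩ := pU.le
  set T : ℕ := 2 * KC + 2 * K1' + 2 * KU + 2 * KB + 4 with hT
  refine ⟨max K0' (KC + 1), T + 2, ?_⟩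
  intro D W G v κ θ n hSc C0 s cs hcap N eps w u u0 heps hw hwW hu hu0
  have hD := hSc.D2
  have hW := hSc.W2
  have hDp : (0 : ℝ) < D := by linarith
  have hD1 : (1 : ℝ) ≤ D := by linarith
  have hE4 : (4 : ℝ) ≤ D * W := by nlinarith
  have hE1 : (1 : ℝ) ≤ D * W := by linarith
  have hDE : D ≤ D * W := le_mul_of_one_le_right hDp.le (by linarith)
  have hWE : W ≤ D * W := le_mul_of_one_le_left (by linarith) hD1
  obtain ⟨hn1, hθn, hθK⟩ := sct_facts (K := KC) (sct_mono (le_max_right K0' (KC + 1)) hSc)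
  have hM' := HM D W G v κ θ n (sct_mono (le_max_left K0' (KC + 1)) hSc) w hw hwW
  have hTw := hSc.tw
  obtain ⟨hκ0, hκ1⟩ := HK D G v κ hD hTw
  have hn1' : (1 : ℝ) ≤ n := by exact_mod_cast hn1
  have hn0 : (0 : ℝ) < n := by linarith
  have hρ := hTw.cls.rho_ge
  have hr := G.rho_pos
  have hr1 : G.rho ≤ 1 := by
    have := rho_le G
    linarith
  have hθ1 : |θ| ≤ 1 := by
    have : (1 : ℝ) ≤ D ^ KC := one_le_pow₀ hD1
    calc |θ| = |θ| * 1 := (mul_one _).symm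
      _ ≤ |θ| * D ^ KC := mul_le_mul_of_nonneg_left this (abs_nonneg _)
      _ ≤ 1 := hθK
  set γ : ℝ := κ * θ ^ 2 * n with hγ
  have hγ0 : 0 ≤ γ := by positivity
  set z : ℂ := zn G.rho w n with hz
  set y : ℂ := zn G.rho (w + (γ : ℂ)) n with hy
  have hwre : 1 ≤ (w + (γ : ℂ)).re := by
    rw [Complex.add_re, Complex.ofReal_re, hw]
    linarith
  have hzρ : ‖z‖ ≤ G.rho := zn_norm_le _ hr _ (by rw [hw]; norm_num) n
  have hyρ : ‖y‖ ≤ G.rho := zn_norm_le _ hr _ (by linarith) n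
  have hyne : y ≠ (G.rho : ℂ) := zn_ne _ hr _ (by linarith) n hn1
  have hzy : ‖z - y‖ ≤ D ^ KK * |θ| := by
    have h6 := zn_sub_le G.rho hr w (by rw [hw]; norm_num) γ hγ0 n
    have h7 : γ / n = κ * θ ^ 2 := by
      rw [hγ]
      field_simp
    rw [h7] at h6
    have h8 : θ ^ 2 ≤ |θ| := by
      rw [← sq_abs]
      nlinarith [abs_nonneg θ]
    calc ‖z - y‖ ≤ G.rho * (κ * θ ^ 2) := h6
      _ ≤ 1 * (D ^ KK * |θ|) := by
        refine mul_le_mul hr1 (mul_le_mul hκ1 h8 (sq_nonneg _) (by positivity)) (by positivity)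
          (by norm_num)
      _ = _ := one_mul _
  have hδz : 1 / (2 * D * n) ≤ ‖(G.rho : ℂ) - z‖ := zn_dist hDp hρ w (by rw [hw]) n hn1
  have hδy : 1 / (2 * D * n) ≤ ‖(G.rho : ℂ) - y‖ := zn_dist hDp hρ _ hwre n hn1
  set M : ℝ := Sk D (1 - D⁻¹) with hM
  have hM0 : 0 ≤ M := Sk_nonneg hDp (th_pos hD)
  -- the solution without phases
  have l1 : lw 1 N (capz C0 s 0 y) ≤ M :=
    lw_capz_le hDp (th_pos hD) (th_lt hD) hcap.cap N 1 (by norm_num) 0 (by norm_num) hyρ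
  have l4 : lw 4 N (capz C0 s 0 y) ≤ M :=
    lw_capz_le hDp (th_pos hD) (th_lt hD) hcap.cap N 4 le_rfl 0 (by norm_num) hyρ
  have hEu0 : En N u0 + Pot eps N u0 ≤ D ^ KS * M ^ 2 :=
    (HS D hD G hTw.cls N eps y u0 _ heps hyρ hu0).2.trans
      (mul_le_mul_of_nonneg_left (pow_le_pow_left₀ (GJ2.lw_nonneg _ _ _) l1 2) (by positivity))
  have hNu0 : nsq N u0 ≤ D ^ KU * Real.sqrt n := by
    have h6 := (HW D hD G hTw.cls N eps y u0 _ heps hyρ hyne hu0).1 0 (by norm_num)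
    have h7 : mulg 0 u0 = u0 := by
      funext g
      simp [mulg]
    rw [h7, pow_zero, mul_one] at h6
    have hδ0 : 0 < 1 / (2 * D * n) := by positivity
    have h8 : 1 / Real.sqrt ‖(G.rho : ℂ) - y‖ ≤ Real.sqrt (2 * D) * Real.sqrt n := by
      rw [← Real.sqrt_mul (by positivity), div_le_iff₀ (Real.sqrt_pos.2 (hδ0.trans_le hδy)),
        ← Real.sqrt_mul (by positivity)]
      rw [Real.one_le_sqrt]
      have h9 := mul_le_mul_of_nonneg_left hδy (by positivity : (0 : ℝ) ≤ 2 * D * n)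
      rwa [mul_one_div_cancel (by positivity)] at h9
    have h9 : (lw 4 N (capz C0 s 0 y)) ^ 2 ≤ M ^ 2 :=
      pow_le_pow_left₀ (GJ2.lw_nonneg _ _ _) l4 2
    calc nsq N u0 ≤ D ^ KW * (lw 4 N (capz C0 s 0 y)) ^ 2 / Real.sqrt ‖(G.rho : ℂ) - y‖ := h6
      _ = D ^ KW * (lw 4 N (capz C0 s 0 y)) ^ 2 * (1 / Real.sqrt ‖(G.rho : ℂ) - y‖) := by ring
      _ ≤ D ^ KW * M ^ 2 * (Real.sqrt (2 * D) * Real.sqrt n) := by
        refine mul_le_mul (mul_le_mul_of_nonneg_left h9 (by positivity)) h8 (by positivity)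
          (by positivity)
      _ = (D ^ KW * M ^ 2 * Real.sqrt (2 * D)) * Real.sqrt n := by ring
      _ ≤ D ^ KU * Real.sqrt n := mul_le_mul_of_nonneg_right (HU D hD) (Real.sqrt_nonneg _)
  have hsn : 1 ≤ Real.sqrt n := by
    rw [Real.one_le_sqrt]
    exact hn1'
  have hSu0 : Real.sqrt (nsq N u0) ≤ D ^ KU * Real.sqrt n := by
    rw [Real.sqrt_le_left (by positivity)]
    refine hNu0.trans ?_
    have h6 : 1 ≤ D ^ KU * Real.sqrt n := by
      have : (1 : ℝ) ≤ D ^ KU := one_le_pow₀ hD1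
      nlinarith
    rw [sq]
    exact le_mul_of_one_le_left (by linarith) h6
  -- the difference
  set x : ℤ → ℂ := fun g => u g - u0 g with hx
  have hxs : Supp N x := fun g hg => by
    rw [hx]
    show u g - u0 g = 0
    rw [hu.1 g hg, hu0.1 g hg, sub_zero]
  have hu0s : Supp N u0 := hu0.1
  set X : ℝ := Real.sqrt (nsq N x) with hX
  set Y : ℝ := Real.sqrt (En N x + Pot eps N x) with hY
  have hX2 : X ^ 2 = nsq N x := Real.sq_sqrt (H22.nsq_nonneg N x)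
  have hEx := H22.En_nonneg N x
  have hPx := H22.Pot_nonneg heps N x
  have hY2 : Y ^ 2 = En N x + Pot eps N x := Real.sq_sqrt (by linarith)
  have hX0 : 0 ≤ X := Real.sqrt_nonneg _
  have hY0 : 0 ≤ Y := Real.sqrt_nonneg _
  have hform : form N x (LopT G (ph θ v) eps z N x) =
      form N x (fun g => capc C0 cs 0 z g - capz C0 s 0 y g) +
      form N x (fun g => KapT G (ph θ v) 0 eps z N u0 g - G.Kap 0 eps y N u0 g) := by
    unfold form
    rw [← Finset.sum_add_distrib]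
    refine Finset.sum_congr rfl fun g hg => ?_
    rw [lopT_sub G (ph θ v) eps z y N u u0 _ _ hu hu0 g hg]
    ring
  have hlow := HC D G v κ θ hD hTw hθK N eps z x heps hzρ hxs
  have hup1 := (form_lw heps hxs (fun g => capc C0 cs 0 z g - capz C0 s 0 y g)).trans
    (mul_le_mul_of_nonneg_left (lw_diff hD hρ hcap N hzρ hyρ) (Real.sqrt_nonneg _))
  have hup2 := HD D G v κ θ hD hTw N eps z y x u0 heps hzρ hyρ hxs hu0s
  set ms : ℝ := (D * W) ^ K1' / ((n : ℝ) * Real.sqrt n) with hms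
  have hms0 : 0 ≤ ms := by positivity
  set B : ℝ := (1 + D * D ^ KK) * M + D ^ KD * (D ^ KK + 1) * Real.sqrt (D ^ KS * M ^ 2) with hB
  have hB0 : 0 ≤ B := by positivity
  have hBK : B ≤ D ^ KB := HB D hD
  have hmain : (D ^ KC)⁻¹ * (‖(G.rho : ℂ) - z‖ * X ^ 2 + Y ^ 2) ≤
      (ms * Real.sqrt (nsq N u0)) * X + (|θ| * B) * Y := by
    have i1 : ‖form N x (fun g => capc C0 cs 0 z g - capz C0 s 0 y g)‖ ≤
        (|θ| * ((1 + D * D ^ KK) * M)) * Y := by
      refine hup1.trans ?_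
      rw [← hY]
      have i2 : |θ| + D * ‖z - y‖ ≤ |θ| * (1 + D * D ^ KK) := by
        have := mul_le_mul_of_nonneg_left hzy hDp.le
        linarith
      calc Y * ((|θ| + D * ‖z - y‖) * M) ≤ Y * ((|θ| * (1 + D * D ^ KK)) * M) :=
            mul_le_mul_of_nonneg_left (mul_le_mul_of_nonneg_right i2 hM0) hY0
        _ = _ := by ring
    have i3 : ‖form N x (fun g => KapT G (ph θ v) 0 eps z N u0 g - G.Kap 0 eps y N u0 g)‖ ≤
        (ms * Real.sqrt (nsq N u0)) * X +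
          (|θ| * (D ^ KD * (D ^ KK + 1) * Real.sqrt (D ^ KS * M ^ 2))) * Y := by
      refine hup2.trans (add_le_add ?_ ?_)
      · calc _ ≤ ms * (Real.sqrt (nsq N x) * Real.sqrt (nsq N u0)) :=
              mul_le_mul_of_nonneg_right hM' (by positivity)
          _ = _ := by rw [← hX]; ring
      · have i4 : ‖z - y‖ + |θ| ≤ |θ| * (D ^ KK + 1) := by linarith
        have i5 : Real.sqrt (En N u0 + Pot eps N u0) ≤ Real.sqrt (D ^ KS * M ^ 2) :=
          Real.sqrt_le_sqrt hEu0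
        rw [← hY]
        calc D ^ KD * (‖z - y‖ + |θ|) * (Y * Real.sqrt (En N u0 + Pot eps N u0))
            ≤ D ^ KD * (|θ| * (D ^ KK + 1)) * (Y * Real.sqrt (D ^ KS * M ^ 2)) := by
              refine mul_le_mul (mul_le_mul_of_nonneg_left i4 (by positivity))
                (mul_le_mul_of_nonneg_left i5 hY0) (by positivity) (by positivity)
          _ = _ := by ring
    have i6 : (D ^ KC)⁻¹ * (‖(G.rho : ℂ) - z‖ * X ^ 2 + Y ^ 2) ≤
        ‖form N x (LopT G (ph θ v) eps z N x)‖ := by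
      rw [hX2, hY2, ← add_assoc]
      exact hlow
    refine i6.trans ?_
    rw [hform]
    refine (norm_add_le _ _).trans ((add_le_add i1 i3).trans (le_of_eq ?_))
    rw [hB]
    ring
  have hfin := real_fin (L := D ^ KC) (by positivity) (by positivity : 0 < 2 * D * (n : ℝ)) hδz
    hmain
  have hP : 2 * D * D ^ KC * (n * (ms * Real.sqrt (nsq N u0))) ≤ (D * W) ^ (2 + KC + K1' + KU) := by
    have j1 : n * (ms * Real.sqrt (nsq N u0)) ≤ (D * W) ^ K1' * D ^ KU := by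
      calc n * (ms * Real.sqrt (nsq N u0)) ≤ n * (ms * (D ^ KU * Real.sqrt n)) := by gcongr
        _ = (D * W) ^ K1' * D ^ KU := by
          rw [hms]
          field_simp
    calc 2 * D * D ^ KC * (n * (ms * Real.sqrt (nsq N u0)))
        ≤ 2 * D * D ^ KC * ((D * W) ^ K1' * D ^ KU) :=
          mul_le_mul_of_nonneg_left j1 (by positivity)
      _ ≤ (D * W) * (D * W) * (D * W) ^ KC * ((D * W) ^ K1' * (D * W) ^ KU) := by
          have : (2 : ℝ) ≤ D * W := by linarith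
          gcongr
      _ = _ := by ring
  have hQ : D * (D ^ KC) ^ 2 * (n * (|θ| * B) ^ 2) ≤ (D * W) ^ (2 + 2 * KC + 2 * KB) := by
    have j1 : n * (|θ| * B) ^ 2 ≤ W * (D ^ KB) ^ 2 := by
      calc n * (|θ| * B) ^ 2 = (θ ^ 2 * n) * B ^ 2 := by rw [mul_pow, sq_abs]; ring
        _ ≤ W * (D ^ KB) ^ 2 := by gcongr
    calc D * (D ^ KC) ^ 2 * (n * (|θ| * B) ^ 2) ≤ D * (D ^ KC) ^ 2 * (W * (D ^ KB) ^ 2) :=
          mul_le_mul_of_nonneg_left j1 (by positivity)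
      _ ≤ (D * W) * ((D * W) ^ KC) ^ 2 * ((D * W) * ((D * W) ^ KB) ^ 2) := by
          gcongr
      _ = _ := by ring
  have hXT : nsq N x ≤ (D * W) ^ (T + 1) := by
    rw [← hX2]
    have k1 : (2 * D * D ^ KC * (n * (ms * Real.sqrt (nsq N u0)))) ^ 2 ≤ (D * W) ^ T := by
      refine (pow_le_pow_left₀ (by positivity) hP 2).trans ?_
      rw [← pow_mul]
      exact pow_le_pow_right₀ hE1 (by omega)
    have k2 : D * (D ^ KC) ^ 2 * (n * (|θ| * B) ^ 2) ≤ (D * W) ^ T :=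
      hQ.trans (pow_le_pow_right₀ hE1 (by omega))
    have k3 : 0 ≤ (D * W) ^ T := by positivity
    calc X ^ 2 ≤ (D * W) ^ T + (D * W) ^ T := hfin.trans (add_le_add k1 k2)
      _ ≤ (D * W) ^ T * (D * W) := by nlinarith
      _ = _ := (pow_succ _ _).symm
  refine ⟨hXT.trans (pow_le_pow_right₀ hE1 (by omega)), ?_, ?_⟩
  · refine hNu0.trans (mul_le_mul_of_nonneg_right ?_ (Real.sqrt_nonneg _))
    exact pow_le_pow_right₀ hD1 (by omega)
  · have k1 : nsq N u ≤ 2 * (nsq N x + nsq N u0) := by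
      have : u = fun g => x g + u0 g := by
        funext g
        rw [hx]
        ring
      nth_rewrite 1 [this]
      exact nsq_add_le N x u0
    have k2 : D ^ KU ≤ (D * W) ^ (T + 1) :=
      (pow_le_pow_left₀ hDp.le hDE KU).trans (pow_le_pow_right₀ hE1 (by omega))
    have k3 : 0 ≤ (D * W) ^ (T + 1) := by positivity
    calc nsq N u ≤ 2 * (nsq N x + nsq N u0) := k1
      _ ≤ 2 * ((D * W) ^ (T + 1) * Real.sqrt n + (D * W) ^ (T + 1) * Real.sqrt n) := by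
        refine mul_le_mul_of_nonneg_left (add_le_add ?_ ?_) (by norm_num)
        · exact hXT.trans (le_mul_of_one_le_right k3 hsn)
        · exact hNu0.trans (mul_le_mul_of_nonneg_right k2 (Real.sqrt_nonneg _))
      _ = 4 * ((D * W) ^ (T + 1) * Real.sqrt n) := by ring
      _ ≤ (D * W) * ((D * W) ^ (T + 1) * Real.sqrt n) :=
        mul_le_mul_of_nonneg_right hE4 (by positivity)
      _ = _ := by ring

end Pool.Agent.PFS
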