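import Pool.Agent.PFS.StmtsA
import Pool.Agent.Lib_helper89.FL.GC
import Pool.Agent.Lib_helper89.FL.GC2

/-!
# Project PFS, module TDF: the form of the difference of two kernels with phases (helper39)
-/

set_option autoImplicit false

open Finset Filter Topology

namespace Pool.Agent.PFS

open Pool.Agent.Gap Pool.Agent.Gap.H62 Pool.Agent.FL Pool.Agent.EXW

namespace TDFx

lemma pow_diff {r : ℝ} {z y : ℂ} (hz : ‖z‖ ≤ r) (hy : ‖y‖ ≤ r) (m : ℕ) :
    r * ‖z ^ m - y ^ m‖ ≤ m * r ^ m * ‖z - y‖ := by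
  have hr : 0 ≤ r := (norm_nonneg z).trans hz
  induction m with
  | zero => simp
  | succ m ih =>
    have e : z ^ (m + 1) - y ^ (m + 1) = z ^ m * (z - y) + (z ^ m - y ^ m) * y := by ring
    have h1 : ‖z ^ m * (z - y)‖ ≤ r ^ m * ‖z - y‖ := by
      rw [norm_mul, norm_pow]
      exact mul_le_mul_of_nonneg_right (pow_le_pow_left₀ (norm_nonneg _) hz _) (norm_nonneg _)
    have h2 : r * ‖(z ^ m - y ^ m) * y‖ ≤ (m * r ^ m * ‖z - y‖) * r := by
      rw [norm_mul, ← mul_assoc]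
      exact mul_le_mul ih hy (norm_nonneg _) (by positivity)
    calc r * ‖z ^ (m + 1) - y ^ (m + 1)‖
        ≤ r * (‖z ^ m * (z - y)‖ + ‖(z ^ m - y ^ m) * y‖) := by
          rw [e]
          exact mul_le_mul_of_nonneg_left (norm_add_le _ _) hr
      _ = r * ‖z ^ m * (z - y)‖ + r * ‖(z ^ m - y ^ m) * y‖ := by ring
      _ ≤ r * (r ^ m * ‖z - y‖) + (m * r ^ m * ‖z - y‖) * r :=
          add_le_add (mul_le_mul_of_nonneg_left h1 hr) h2
      _ = ((m + 1 : ℕ) : ℝ) * r ^ (m + 1) * ‖z - y‖ := by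
          push_cast
          ring

lemma tot_nn (G : GapKernel) (i : ℕ × ℕ) : 0 ≤ G.tot i :=
  Finset.sum_nonneg fun d _ => G.T_nonneg i d

/-- the mean slope is between zero and one -/
lemma v_mem {D v κ : ℝ} {G : GapKernel} (h : TwP D G v κ) : 0 ≤ v ∧ v ≤ 1 := by
  have hr := G.rho_pos
  have hm : 0 < G.mbar := by
    refine Finset.sum_pos' (fun i _ => ?_) ⟨(1, 1), G.i0_mem, ?_⟩
    · exact mul_nonneg (by positivity) (tot_nn G i)
    · have h1 : 0 < G.tot (1, 1) := by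
        have : G.tot (1, 1) = 4 := tot_i0 G
        rw [this]
        norm_num
      have h2 : (0 : ℝ) < ((1, 1) : ℕ × ℕ).1 := by norm_num
      positivity
  have hh : 0 ≤ G.hbar := Finset.sum_nonneg fun i _ => mul_nonneg (by positivity) (tot_nn G i)
  have hle : G.hbar ≤ G.mbar := by
    refine Finset.sum_le_sum fun i hi => ?_
    have h3 : (i.2 : ℝ) ≤ i.1 := by exact_mod_cast h.cls.loc.h_le i hi
    have h4 : 0 ≤ G.rho ^ i.1 * G.tot i := mul_nonneg (by positivity) (tot_nn G i)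
    calc (i.2 : ℝ) * G.rho ^ i.1 * G.tot i = i.2 * (G.rho ^ i.1 * G.tot i) := by ring
      _ ≤ i.1 * (G.rho ^ i.1 * G.tot i) := mul_le_mul_of_nonneg_right h3 h4
      _ = _ := by ring
  rw [h.v_eq] at hh hle
  constructor
  · exact nonneg_of_mul_nonneg_left hh hm
  · by_contra hc
    rw [not_le] at hc
    have := mul_lt_mul_of_pos_right hc hm
    linarith

lemma ph_sub {θ v : ℝ} {i : ℕ × ℕ} (h0 : 0 ≤ v) (h1 : v ≤ 1) (hi : i.2 ≤ i.1) :
    ‖ph θ v i - 1‖ ≤ |θ| * i.1 := by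
  have h2 : (i.2 : ℝ) ≤ i.1 := by exact_mod_cast hi
  have h3 : (0 : ℝ) ≤ i.2 := Nat.cast_nonneg _
  have h4 : (0 : ℝ) ≤ i.1 := Nat.cast_nonneg _
  have h5 : |(i.2 : ℝ) - v * i.1| ≤ i.1 := by
    rw [abs_le]
    constructor
    · nlinarith
    · nlinarith
  calc ‖ph θ v i - 1‖ ≤ ‖θ * ((i.2 : ℝ) - v * i.1)‖ := by
        unfold ph
        rw [mul_comm]
        exact Real.norm_exp_I_mul_ofReal_sub_one_le
    _ = |θ| * |(i.2 : ℝ) - v * i.1| := by rw [Real.norm_eq_abs, abs_mul]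
    _ ≤ _ := mul_le_mul_of_nonneg_left h5 (abs_nonneg _)

lemma En_conj (N : ℕ) (f : ℤ → ℂ) : En N (fun g => (starRingEnd ℂ) (f g)) = En N f := by
  unfold En
  refine Finset.sum_congr rfl fun g _ => ?_
  rw [← map_sub, RCLike.norm_conj]

lemma Pot_conj (eps : ℝ) (N : ℕ) (f : ℤ → ℂ) :
    Pot eps N (fun g => (starRingEnd ℂ) (f g)) = Pot eps N f := by
  unfold Pot
  refine Finset.sum_congr rfl fun g _ => ?_
  rw [RCLike.norm_conj]

lemma form_cs (N : ℕ) (f h : ℤ → ℂ) :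
    ‖form N f h‖ ≤ Real.sqrt (nsq N f) * Real.sqrt (nsq N h) := by
  unfold form nsq
  refine (norm_sum_le _ _).trans ?_
  have h1 : ∀ g ∈ Icc (1 : ℤ) N, ‖(starRingEnd ℂ) (f g) * h g‖ = ‖f g‖ * ‖h g‖ := fun g _ => by
    rw [norm_mul, RCLike.norm_conj]
  rw [Finset.sum_congr rfl h1]
  exact Real.sum_mul_le_sqrt_mul_sqrt _ _ _

/-- the form of the difference in terms of the bilinear forms of the pieces -/
lemma form_diff (G : GapKernel) (p : ℕ × ℕ → ℂ) (N : ℕ) (eps : ℝ) (z y : ℂ) (f h : ℤ → ℂ) :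
    form N f (fun g => KapT G p 0 eps z N h g - G.Kap 0 eps y N h g) =
      ∑ i ∈ G.S, (z ^ i.1 * p i - y ^ i.1) *
        ∑ g ∈ Icc (1 : ℤ) N, ∑ g' ∈ Icc (1 : ℤ) N,
          ((G.K i g g' * GapKernel.wt eps i g g' : ℝ) : ℂ) * (starRingEnd ℂ) (f g) * h g' := by
  have h1 : ∀ g, KapT G p 0 eps z N h g - G.Kap 0 eps y N h g =
      ∑ i ∈ G.S, (z ^ i.1 * p i - y ^ i.1) * ∑ g' ∈ Icc (1 : ℤ) N,
        ((G.K i g g' * GapKernel.wt eps i g g' : ℝ) : ℂ) * h g' := by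
    intro g
    unfold KapT GapKernel.Kap KzT GapKernel.Kz
    rw [← Finset.sum_sub_distrib]
    simp only [Finset.sum_mul, Finset.mul_sum, pow_zero, one_mul]
    rw [Finset.sum_comm]
    refine Finset.sum_congr rfl fun g' _ => ?_
    rw [← Finset.sum_sub_distrib]
    exact Finset.sum_congr rfl fun i _ => by ring
  unfold form
  simp only [h1]
  simp only [Finset.mul_sum]
  rw [Finset.sum_comm]
  refine Finset.sum_congr rfl fun i _ => Finset.sum_congr rfl fun g _ =>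
    Finset.sum_congr rfl fun g' _ => ?_
  ring

end TDFx

open TDFx in
/-- MODULE TDF -/
theorem t_TDF : TDF_Stmt := by
  obtain ⟨C2, hC2, hC2'⟩ := gc2
  obtain ⟨K4, hK4⟩ := sum_pow 4
  have hPB : PB fun D : ℝ => C2 * D ^ K4 * D := ((PB.const C2).mul (PB.id.pow K4)).mul PB.id
  obtain ⟨K, hK⟩ := hPB.le
  refine ⟨K, fun D G v κ θ hD hT N eps z y f h he hz hy hf hh => ?_⟩
  have hr := G.rho_pos
  have hD0 : (0 : ℝ) < D := by linarith
  have hrho : 1 ≤ D * G.rho := by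
    have := mul_le_mul_of_nonneg_left hT.cls.rho_ge hD0.le
    rwa [mul_inv_cancel₀ hD0.ne'] at this
  obtain ⟨hv0, hv1⟩ := v_mem hT
  set Ef := Real.sqrt (En N f + Pot eps N f) with hEf
  set Eh := Real.sqrt (En N h + Pot eps N h) with hEh
  have hE0 : 0 ≤ Ef * Eh := mul_nonneg (Real.sqrt_nonneg _) (Real.sqrt_nonneg _)
  rw [form_diff]
  set c : ℕ × ℕ → ℂ := fun i => z ^ i.1 * ph θ v i - y ^ i.1 with hc
  set B : ℕ × ℕ → ℂ := fun i => ∑ g ∈ Icc (1 : ℤ) N, ∑ g' ∈ Icc (1 : ℤ) N,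
    ((G.K i g g' * GapKernel.wt eps i g g' : ℝ) : ℂ) * (starRingEnd ℂ) (f g) * h g' with hB
  have hform : form N f h = ∑ g ∈ Icc (1 : ℤ) N, (starRingEnd ℂ) (f g) * h g := rfl
  have hdiff : ∀ i ∈ G.S, ‖(G.tot i : ℂ) * form N f h - B i‖ ≤
      C2 * (i.1 : ℝ) ^ 3 * G.tot i * (Ef * Eh) := by
    intro i hi
    have hcs : Supp N (fun g => (starRingEnd ℂ) (f g)) := fun g hg => by simp [hf g hg]
    have h1 := hC2' G hT.cls.loc N eps i (fun g => (starRingEnd ℂ) (f g)) h hi he hcs hh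
    rw [En_conj, Pot_conj] at h1
    exact h1
  have hcb : ∀ i ∈ G.S, ‖c i‖ ≤ i.1 * G.rho ^ i.1 * (|θ| + D * ‖z - y‖) := by
    intro i hi
    have h1 : c i = z ^ i.1 * (ph θ v i - 1) + (z ^ i.1 - y ^ i.1) := by
      rw [hc]
      ring
    have h2 : ‖z ^ i.1 * (ph θ v i - 1)‖ ≤ G.rho ^ i.1 * (|θ| * i.1) := by
      rw [norm_mul, norm_pow]
      exact mul_le_mul (pow_le_pow_left₀ (norm_nonneg _) hz _)
        (ph_sub hv0 hv1 (by exact_mod_cast hT.cls.loc.h_le i hi)) (norm_nonneg _) (by positivity)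
    have h3 : ‖z ^ i.1 - y ^ i.1‖ ≤ D * (i.1 * G.rho ^ i.1 * ‖z - y‖) := by
      calc ‖z ^ i.1 - y ^ i.1‖ = 1 * ‖z ^ i.1 - y ^ i.1‖ := (one_mul _).symm
        _ ≤ D * G.rho * ‖z ^ i.1 - y ^ i.1‖ := mul_le_mul_of_nonneg_right hrho (norm_nonneg _)
        _ = D * (G.rho * ‖z ^ i.1 - y ^ i.1‖) := by ring
        _ ≤ _ := mul_le_mul_of_nonneg_left (pow_diff hz hy i.1) hD0.le
    calc ‖c i‖ ≤ ‖z ^ i.1 * (ph θ v i - 1)‖ + ‖z ^ i.1 - y ^ i.1‖ := by
          rw [h1]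
          exact norm_add_le _ _
      _ ≤ G.rho ^ i.1 * (|θ| * i.1) + D * (i.1 * G.rho ^ i.1 * ‖z - y‖) := add_le_add h2 h3
      _ = _ := by ring
  have hsum : ∑ i ∈ G.S, c i * B i = (∑ i ∈ G.S, c i * (G.tot i : ℂ)) * form N f h
      - ∑ i ∈ G.S, c i * ((G.tot i : ℂ) * form N f h - B i) := by
    rw [Finset.sum_mul, ← Finset.sum_sub_distrib]
    exact Finset.sum_congr rfl fun i _ => by ring
  have hlast : ‖∑ i ∈ G.S, c i * ((G.tot i : ℂ) * form N f h - B i)‖ ≤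
      D ^ K * (‖z - y‖ + |θ|) * (Ef * Eh) := by
    have hpos : 0 ≤ |θ| + D * ‖z - y‖ := by positivity
    calc ‖∑ i ∈ G.S, c i * ((G.tot i : ℂ) * form N f h - B i)‖
        ≤ ∑ i ∈ G.S, ‖c i * ((G.tot i : ℂ) * form N f h - B i)‖ := norm_sum_le _ _
      _ ≤ ∑ i ∈ G.S, (i.1 * G.rho ^ i.1 * (|θ| + D * ‖z - y‖)) *
            (C2 * (i.1 : ℝ) ^ 3 * G.tot i * (Ef * Eh)) := by
          refine Finset.sum_le_sum fun i hi => ?_
          rw [norm_mul]
          exact mul_le_mul (hcb i hi) (hdiff i hi) (norm_nonneg _) (by positivity)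
      _ = (∑ i ∈ G.S, (i.1 : ℝ) ^ 4 * (G.rho ^ i.1 * G.tot i)) *
            (C2 * (|θ| + D * ‖z - y‖) * (Ef * Eh)) := by
          rw [Finset.sum_mul]
          exact Finset.sum_congr rfl fun i _ => by ring
      _ ≤ D ^ K4 * (C2 * (|θ| + D * ‖z - y‖) * (Ef * Eh)) :=
          mul_le_mul_of_nonneg_right (hK4 D hD G hT.cls) (by positivity)
      _ ≤ D ^ K4 * (C2 * (D * (‖z - y‖ + |θ|)) * (Ef * Eh)) := by
          have h1 : |θ| + D * ‖z - y‖ ≤ D * (‖z - y‖ + |θ|) := by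
            nlinarith [abs_nonneg θ]
          have h2 : C2 * (|θ| + D * ‖z - y‖) ≤ C2 * (D * (‖z - y‖ + |θ|)) :=
            mul_le_mul_of_nonneg_left h1 hC2.le
          exact mul_le_mul_of_nonneg_left (mul_le_mul_of_nonneg_right h2 hE0) (by positivity)
      _ = (C2 * D ^ K4 * D) * ((‖z - y‖ + |θ|) * (Ef * Eh)) := by ring
      _ ≤ D ^ K * ((‖z - y‖ + |θ|) * (Ef * Eh)) :=
          mul_le_mul_of_nonneg_right (hK D hD) (by positivity)
      _ = _ := by ring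
  rw [hsum]
  refine (norm_sub_le _ _).trans (add_le_add ?_ hlast)
  rw [norm_mul]
  exact mul_le_mul_of_nonneg_left (form_cs N f h) (norm_nonneg _)

end Pool.Agent.PFS
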