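import Pool.Agent.PFS.StmtsA
import Pool.Agent.Lib_helper2.Gap.RE
import Pool.Agent.Lib_helper89.FL.GSUP

/-!
# Project PFS, module TEN (helper29): resolvent and energy bounds for the kernel with phases
-/

set_option autoImplicit false

open Finset Filter Topology

namespace Pool.Agent.PFS

open Pool.Agent.Gap Pool.Agent.FL Pool.Agent.EXW

namespace TENx

/-- the form of a solution -/
lemma form_eq {G : GapKernel} {p : ℕ × ℕ → ℂ} {eps : ℝ} {z : ℂ} {N : ℕ} {f e : ℤ → ℂ}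
    (hs : SolvesT G p eps z N f e) : form N f (LopT G p eps z N f) = form N f e := by
  unfold form
  refine Finset.sum_congr rfl fun g hg => ?_
  rw [hs.2 g hg]

/-- the form is bounded by the energy and the weighted norm of the source -/
lemma form_le_lw {N : ℕ} {f e : ℤ → ℂ} {E : ℝ} (hs : Supp N f) (hE : En N f ≤ E) :
    ‖form N f e‖ ≤ Real.sqrt E * lw 1 N e := by
  have hE0 : 0 ≤ E := (H22.En_nonneg N f).trans hE
  unfold form
  refine (norm_sum_le _ _).trans ?_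
  rw [GSUP.lw1, Finset.mul_sum]
  refine Finset.sum_le_sum fun g hg => ?_
  rw [Finset.mem_Icc] at hg
  rw [norm_mul, RCLike.norm_conj, ← mul_assoc]
  refine mul_le_mul_of_nonneg_right ?_ (norm_nonneg _)
  have hg1 : (1 : ℝ) ≤ g := by exact_mod_cast hg.1
  have h6 := H22.normsq_le_En hs g (by omega)
  have h7 : ‖f g‖ ^ 2 ≤ (Real.sqrt E * g) ^ 2 := by
    rw [mul_pow, Real.sq_sqrt hE0]
    have h8 : (g : ℝ) * En N f ≤ g * E := mul_le_mul_of_nonneg_left hE (by linarith)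
    have h9 : (g : ℝ) * E ≤ E * (g : ℝ) ^ 2 := by
      have : 0 ≤ E * (g : ℝ) * ((g : ℝ) - 1) :=
        mul_nonneg (mul_nonneg hE0 (by linarith)) (by linarith)
      nlinarith
    linarith
  have h10 : 0 ≤ Real.sqrt E * (g : ℝ) := mul_nonneg (Real.sqrt_nonneg _) (by linarith)
  exact (sq_le_sq₀ (norm_nonneg _) h10).1 h7

/-- `a x² ≤ x y` gives `a x ≤ y` -/
lemma cancel {a x y : ℝ} (hx : 0 ≤ x) (hy : 0 ≤ y) (h : a * x ^ 2 ≤ x * y) : a * x ≤ y := by
  rcases hx.eq_or_lt with h0 | h0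
  · rw [← h0, mul_zero]
    exact hy
  · have h1 : x * (a * x) ≤ x * y := by
      calc x * (a * x) = a * x ^ 2 := by ring
        _ ≤ x * y := h
    exact le_of_mul_le_mul_left h1 h0

end TENx

open TENx in
/-- MODULE TEN -/
theorem t_TEN (h : TGC_Stmt) : TEN_Stmt := by
  obtain ⟨K, HK⟩ := h
  refine ⟨2 * K, ?_⟩
  intro D G v κ θ hD hT hθ N eps z f e heps hz hs
  have hDp : 0 < D ^ K := by positivity
  have hD1 : (1 : ℝ) ≤ D ^ K := one_le_pow₀ (by linarith)
  have h2K : D ^ (2 * K) = D ^ K * D ^ K := by ring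
  have hKK : D ^ K ≤ D ^ (2 * K) := by
    rw [h2K]
    nlinarith
  have hθ' : |θ| * D ^ K ≤ 1 := (mul_le_mul_of_nonneg_left hKK (abs_nonneg θ)).trans hθ
  have hsupp : Supp N f := hs.1
  have hmain := HK D G v κ θ hD hT hθ' N eps z f heps hz hsupp
  rw [form_eq hs, inv_mul_le_iff₀ hDp] at hmain
  obtain ⟨E, hEdef⟩ : ∃ E, E = En N f + Pot eps N f := ⟨_, rfl⟩
  have hEn := H22.En_nonneg N f
  have hPot := H22.Pot_nonneg heps N f
  have hnsq := H22.nsq_nonneg N f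
  have hd : 0 ≤ ‖(G.rho : ℂ) - z‖ * nsq N f := mul_nonneg (norm_nonneg _) hnsq
  have hE0 : 0 ≤ E := by rw [hEdef]; linarith
  have hl := GSUP.lw_nonneg 1 N e
  have hEle : E ≤ D ^ (2 * K) * lw 1 N e ^ 2 := by
    have h1 : E ≤ D ^ K * (Real.sqrt E * lw 1 N e) := by
      have h2 := form_le_lw (E := E) (e := e) hsupp (by rw [hEdef]; linarith)
      have h3 : E ≤ ‖(G.rho : ℂ) - z‖ * nsq N f + En N f + Pot eps N f := by
        rw [hEdef]; linarith
      exact h3.trans (hmain.trans (mul_le_mul_of_nonneg_left h2 hDp.le))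
    have h4 : Real.sqrt E ≤ D ^ K * lw 1 N e := by
      have h5 := cancel (a := 1) (Real.sqrt_nonneg E) (mul_nonneg hDp.le hl) (by
        rw [Real.sq_sqrt hE0, one_mul]
        calc E ≤ D ^ K * (Real.sqrt E * lw 1 N e) := h1
          _ = Real.sqrt E * (D ^ K * lw 1 N e) := by ring)
      rwa [one_mul] at h5
    calc E = Real.sqrt E ^ 2 := (Real.sq_sqrt hE0).symm
      _ ≤ (D ^ K * lw 1 N e) ^ 2 := pow_le_pow_left₀ (Real.sqrt_nonneg E) h4 2
      _ = D ^ (2 * K) * lw 1 N e ^ 2 := by rw [h2K]; ring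
  refine ⟨?_, ?_, ?_⟩
  · have h1 : ‖(G.rho : ℂ) - z‖ * nsq N f ≤
        D ^ K * (Real.sqrt (nsq N f) * Real.sqrt (nsq N e)) := by
      have h2 : ‖(G.rho : ℂ) - z‖ * nsq N f ≤
          ‖(G.rho : ℂ) - z‖ * nsq N f + En N f + Pot eps N f := by linarith
      exact h2.trans (hmain.trans (mul_le_mul_of_nonneg_left (form_le N f e) hDp.le))
    have h3 : ‖(G.rho : ℂ) - z‖ * Real.sqrt (nsq N f) ≤ D ^ K * Real.sqrt (nsq N e) := by
      refine cancel (Real.sqrt_nonneg _) (mul_nonneg hDp.le (Real.sqrt_nonneg _)) ?_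
      rw [Real.sq_sqrt hnsq]
      calc ‖(G.rho : ℂ) - z‖ * nsq N f
          ≤ D ^ K * (Real.sqrt (nsq N f) * Real.sqrt (nsq N e)) := h1
        _ = Real.sqrt (nsq N f) * (D ^ K * Real.sqrt (nsq N e)) := by ring
    exact h3.trans (mul_le_mul_of_nonneg_right hKK (Real.sqrt_nonneg _))
  · rw [← hEdef]
    exact hEle
  · intro g hg
    have hg0 : (0 : ℝ) ≤ g := by exact_mod_cast (by omega : (0 : ℤ) ≤ g)
    have h6 := H22.normsq_le_En hsupp g (by omega)
    have h7 : (g : ℝ) * En N f ≤ g * (D ^ (2 * K) * lw 1 N e ^ 2) :=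
      mul_le_mul_of_nonneg_left (le_trans (by rw [hEdef]; linarith) hEle) hg0
    calc ‖f g‖ ^ 2 ≤ g * En N f := h6
      _ ≤ g * (D ^ (2 * K) * lw 1 N e ^ 2) := h7
      _ = D ^ (2 * K) * g * lw 1 N e ^ 2 := by ring

end Pool.Agent.PFS
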