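import Pool.Agent.PFS.StmtsA
import Pool.Agent.Lib_helper24.Gap.J1

/-! MODULE TJ1: coefficient arrays with phases and their generating functions. -/

set_option autoImplicit false

open Finset Filter Topology

namespace Pool.Agent.PFS

open Pool.Agent.Gap Pool.Agent.FL Pool.Agent.EXW

namespace TJ1x

/-- the recursive array -/
noncomputable def arrT (G : GapKernel) (p : ℕ × ℕ → ℂ) (cs : ℕ → ℤ → ℂ) (eps : ℝ) (N : ℕ) (n : ℕ)
    (g : ℤ) : ℂ :=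
  if 1 ≤ g ∧ g ≤ (N : ℤ) then
    cs n g + ∑ i ∈ G.S, if _h : 1 ≤ i.1 ∧ i.1 ≤ n then
      ∑ g' ∈ Icc (1 : ℤ) N, p i * ((G.K i g g' * GapKernel.wt eps i g g' : ℝ) : ℂ) *
        arrT G p cs eps N (n - i.1) g' else 0
  else 0
termination_by n
decreasing_by omega

lemma arrT_isArrT (G : GapKernel) (p : ℕ × ℕ → ℂ) (cs : ℕ → ℤ → ℂ) (eps : ℝ) (N : ℕ) :
    IsArrT G p cs eps N (arrT G p cs eps N) := by
  constructor
  · intro n g hg
    rw [arrT, if_neg]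
    omega
  · intro n g h1 h2
    rw [arrT, if_pos ⟨h1, h2⟩]
    congr 1
    refine sum_congr rfl fun i hi => ?_
    have := (G.pos_mem i hi).1
    by_cases h : i.1 ≤ n
    · rw [dif_pos ⟨this, h⟩, if_pos h]
    · rw [dif_neg (by omega), if_neg h]

/-- domination by the real array -/
lemma arrT_le {G : GapKernel} {p : ℕ × ℕ → ℂ} (hp : ∀ i, ‖p i‖ ≤ 1) {s : ℕ → ℤ → ℝ}
    {cs : ℕ → ℤ → ℂ} (hcs : ∀ m g, ‖cs m g‖ ≤ s m g) {eps : ℝ} {N : ℕ} {b : ℕ → ℤ → ℂ}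
    (hb : IsArrT G p cs eps N b) {b0 : ℕ → ℤ → ℝ} (hb0 : IsArr G s eps N b0) (n : ℕ) :
    ∀ g, ‖b n g‖ ≤ b0 n g := by
  induction n using Nat.strong_induction_on with
  | _ n ih =>
    intro g
    by_cases hg : 1 ≤ g ∧ g ≤ (N : ℤ)
    · rw [hb.step n g hg.1 hg.2, hb0.step n g hg.1 hg.2]
      refine (norm_add_le _ _).trans (add_le_add (hcs n g) ?_)
      refine (norm_sum_le _ _).trans (sum_le_sum fun i hi => ?_)
      split_ifs with h
      · refine (norm_sum_le _ _).trans (sum_le_sum fun g' _ => ?_)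
        have h1 := ih (n - i.1) (by have := (G.pos_mem i hi).1; omega) g'
        have h2 : 0 ≤ G.K i g g' * GapKernel.wt eps i g g' :=
          mul_nonneg (G.K_nonneg _ _ _) (wt_nonneg _ _ _ _)
        rw [norm_mul, norm_mul, Complex.norm_real, Real.norm_of_nonneg h2]
        have h3 : ‖p i‖ * (G.K i g g' * GapKernel.wt eps i g g') ≤
            G.K i g g' * GapKernel.wt eps i g g' := mul_le_of_le_one_left h2 (hp i)
        exact mul_le_mul h3 h1 (norm_nonneg _) h2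
      · rw [norm_zero]
    · rw [hb.zero n g (by omega), hb0.zero n g (by omega), norm_zero]

lemma arrT_summable {G : GapKernel} {p : ℕ × ℕ → ℂ} (hp : ∀ i, ‖p i‖ ≤ 1) {C0 : ℕ}
    {s : ℕ → ℤ → ℝ} {cs : ℕ → ℤ → ℂ} (hs : IsCap C0 s) (hcs : ∀ m g, ‖cs m g‖ ≤ s m g) {eps : ℝ}
    (heps : 0 ≤ eps) {N : ℕ} {b : ℕ → ℤ → ℂ} (hb : IsArrT G p cs eps N b) (z : ℂ)
    (hz : ‖z‖ < G.rho) (j : ℕ) (g : ℤ) :
    Summable fun n : ℕ => ‖((n : ℂ)) ^ j * b n g * z ^ n‖ := by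
  have hb0 := arr_isArr G s eps N
  refine Summable.of_nonneg_of_le (fun n => norm_nonneg _) (fun n => ?_)
    (arr_summable hs heps hb0 z hz j g)
  rw [norm_mul, norm_mul, norm_mul, norm_mul, Complex.norm_real,
    Real.norm_of_nonneg (arr_nonneg hs hb0 n g)]
  exact mul_le_mul_of_nonneg_right (mul_le_mul_of_nonneg_left (arrT_le hp hcs hb hb0 n g)
    (norm_nonneg _)) (norm_nonneg _)

lemma arrT_hasSum {G : GapKernel} {p : ℕ × ℕ → ℂ} (hp : ∀ i, ‖p i‖ ≤ 1) {C0 : ℕ}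
    {s : ℕ → ℤ → ℝ} {cs : ℕ → ℤ → ℂ} (hs : IsCap C0 s) (hcs : ∀ m g, ‖cs m g‖ ≤ s m g) {eps : ℝ}
    (heps : 0 ≤ eps) {N : ℕ} {b : ℕ → ℤ → ℂ} (hb : IsArrT G p cs eps N b) (z : ℂ)
    (hz : ‖z‖ < G.rho) (j : ℕ) (g : ℤ) :
    HasSum (fun n : ℕ => ((n : ℂ)) ^ j * b n g * z ^ n) (gfc j b z g) :=
  (arrT_summable hp hs hcs heps hb z hz j g).of_norm.hasSum

lemma shiftT_hasSum {b : ℕ → ℤ → ℂ} (z : ℂ) (g : ℤ)
    (hsum : ∀ j : ℕ, HasSum (fun n : ℕ => ((n : ℂ)) ^ j * b n g * z ^ n) (gfc j b z g))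
    (j m : ℕ) : HasSum (fun n : ℕ => if m ≤ n then
      ((n : ℂ)) ^ j * b (n - m) g * z ^ n else 0)
      (∑ l ∈ range (j + 1), ((j.choose l : ℕ) : ℂ) *
        ((m : ℂ) ^ (j - l) * z ^ m * gfc l b z g)) := by
  rw [← hasSum_nat_add_iff' m]
  have h0 : ∑ n ∈ range m, (if m ≤ n then
      ((n : ℂ)) ^ j * b (n - m) g * z ^ n else 0) = 0 := by
    refine sum_eq_zero fun n hn => ?_
    rw [mem_range] at hn
    rw [if_neg (by omega)]
  rw [h0, sub_zero]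
  have h1 := hasSum_sum (s := range (j + 1)) (fun l _ =>
    (hsum l).mul_left (((j.choose l : ℕ) : ℂ) * ((m : ℂ) ^ (j - l) * z ^ m)))
  have h2 : (∑ l ∈ range (j + 1), ((j.choose l : ℕ) : ℂ) *
      ((m : ℂ) ^ (j - l) * z ^ m * gfc l b z g)) =
      ∑ l ∈ range (j + 1), ((j.choose l : ℕ) : ℂ) * ((m : ℂ) ^ (j - l) * z ^ m) * gfc l b z g := by
    refine sum_congr rfl fun l _ => ?_
    ring
  rw [h2]
  have h3 : (fun n : ℕ => if m ≤ n + m then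
      (((n + m : ℕ) : ℂ)) ^ j * b (n + m - m) g * z ^ (n + m) else 0) = fun n : ℕ =>
      ∑ i ∈ range (j + 1), ((j.choose i : ℕ) : ℂ) * ((m : ℂ) ^ (j - i) * z ^ m) *
        ((n : ℂ) ^ i * b n g * z ^ n) := by
    ext n
    rw [if_pos (Nat.le_add_left m n), Nat.add_sub_cancel, Nat.cast_add, add_pow, sum_mul, sum_mul]
    refine sum_congr rfl fun l _ => ?_
    rw [pow_add]
    ring
  rw [h3]
  exact h1

/-- the equation of the generating functions -/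
lemma gfc_eq {G : GapKernel} {p : ℕ × ℕ → ℂ} {C0 : ℕ} {s : ℕ → ℤ → ℝ} {cs : ℕ → ℤ → ℂ}
    (hs : IsCap C0 s) (hcs : ∀ m g, ‖cs m g‖ ≤ s m g) {eps : ℝ} {N : ℕ} {b : ℕ → ℤ → ℂ}
    (hb : IsArrT G p cs eps N b) (z : ℂ)
    (hsum : ∀ (j : ℕ) (g : ℤ),
      HasSum (fun n : ℕ => ((n : ℂ)) ^ j * b n g * z ^ n) (gfc j b z g))
    (j : ℕ) (g : ℤ) (hg : g ∈ Icc (1 : ℤ) N) :
    gfc j b z g = capc C0 cs j z g + ∑ l ∈ range (j + 1), ((j.choose l : ℕ) : ℂ) *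
      KapT G p (j - l) eps z N (gfc l b z) g := by
  rw [mem_Icc] at hg
  have h1 : HasSum (fun n : ℕ => ((n : ℂ)) ^ j * z ^ n * cs n g) (capc C0 cs j z g) := by
    unfold capc
    refine hasSum_sum_of_ne_finset_zero fun n hn => ?_
    rw [mem_range, not_lt] at hn
    have h7 : ‖cs n g‖ ≤ 0 := (hcs n g).trans_eq (hs.supp_m n g (by omega))
    rw [norm_le_zero_iff.1 h7, mul_zero]
  have h2 : HasSum (fun n : ℕ => ∑ i ∈ G.S, ∑ g' ∈ Icc (1 : ℤ) N,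
      (p i * ((G.K i g g' * GapKernel.wt eps i g g' : ℝ) : ℂ)) * (if i.1 ≤ n then
        ((n : ℂ)) ^ j * b (n - i.1) g' * z ^ n else 0))
      (∑ i ∈ G.S, ∑ g' ∈ Icc (1 : ℤ) N,
        (p i * ((G.K i g g' * GapKernel.wt eps i g g' : ℝ) : ℂ)) *
        (∑ l ∈ range (j + 1), ((j.choose l : ℕ) : ℂ) *
          (((i.1 : ℕ) : ℂ) ^ (j - l) * z ^ i.1 * gfc l b z g'))) := by
    refine hasSum_sum fun i _ => hasSum_sum fun g' _ => ?_
    exact (shiftT_hasSum z g' (fun j => hsum j g') j i.1).mul_left _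
  have h3 := h1.add h2
  have h4 := hsum j g
  have h5 : (fun n : ℕ => ((n : ℂ)) ^ j * b n g * z ^ n) = fun n : ℕ =>
      ((n : ℂ)) ^ j * z ^ n * cs n g + ∑ i ∈ G.S, ∑ g' ∈ Icc (1 : ℤ) N,
      (p i * ((G.K i g g' * GapKernel.wt eps i g g' : ℝ) : ℂ)) * (if i.1 ≤ n then
        ((n : ℂ)) ^ j * b (n - i.1) g' * z ^ n else 0) := by
    ext n
    rw [hb.step n g hg.1 hg.2, mul_add, add_mul]
    congr 1
    · ring
    · rw [mul_sum, sum_mul]
      refine sum_congr rfl fun i _ => ?_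
      split_ifs with h
      · rw [mul_sum, sum_mul]
        refine sum_congr rfl fun g' _ => ?_
        ring
      · simp
  rw [h5] at h4
  rw [h4.unique h3]
  congr 1
  have h6 : ∀ l ∈ range (j + 1),
      ((j.choose l : ℕ) : ℂ) * KapT G p (j - l) eps z N (gfc l b z) g =
      ∑ i ∈ G.S, ∑ g' ∈ Icc (1 : ℤ) N,
        (p i * ((G.K i g g' * GapKernel.wt eps i g g' : ℝ) : ℂ)) *
        (((j.choose l : ℕ) : ℂ) * (((i.1 : ℕ) : ℂ) ^ (j - l) * z ^ i.1 * gfc l b z g')) := by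
    intro l _
    unfold KapT KzT
    rw [sum_comm, mul_sum]
    refine sum_congr rfl fun g' _ => ?_
    rw [sum_mul, mul_sum]
    refine sum_congr rfl fun i _ => ?_
    ring
  symm
  rw [sum_congr rfl h6, sum_comm]
  refine sum_congr rfl fun i _ => ?_
  rw [sum_comm]
  refine sum_congr rfl fun g' _ => ?_
  rw [mul_sum]

lemma gfc_supp {G : GapKernel} {p : ℕ × ℕ → ℂ} {cs : ℕ → ℤ → ℂ} {eps : ℝ} {N : ℕ}
    {b : ℕ → ℤ → ℂ} (hb : IsArrT G p cs eps N b) (z : ℂ) (j : ℕ) (g : ℤ)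
    (hg : g < 1 ∨ (N : ℤ) < g) : gfc j b z g = 0 := by
  unfold gfc
  have : (fun n : ℕ => ((n : ℂ)) ^ j * b n g * z ^ n) = fun _ => 0 := by
    ext n
    rw [hb.zero n g hg]
    simp
  rw [this, tsum_zero]

end TJ1x

/-- TJ1 -/
theorem t_TJ1 : TJ1_Stmt := by
  intro G p hp C0 s cs hs hcs N eps heps
  refine ⟨⟨TJ1x.arrT G p cs eps N, TJ1x.arrT_isArrT G p cs eps N⟩, fun b hb =>
    ⟨fun b0 hb0 n g => TJ1x.arrT_le hp hcs hb hb0 n g, fun z hz j g =>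
      TJ1x.arrT_summable hp hs hcs heps hb z hz j g, fun z hz j => ⟨?_, ?_⟩⟩⟩
  · exact fun g hg => TJ1x.gfc_supp hb z j g hg
  · intro g hg
    unfold LopT
    rw [TJ1x.gfc_eq hs hcs hb z (fun j g => TJ1x.arrT_hasSum hp hs hcs heps hb z hz j g) j g hg,
      sum_range_succ, Nat.choose_self, Nat.sub_self]
    simp only [Nat.cast_one, one_mul]
    ring

end Pool.Agent.PFS
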