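import Pool.Agent.PFS.StmtsA
import Pool.Agent.EXW.QGJ2

/-!
# Project PFS, module TJT: the closed generating functions away from the critical point
-/

set_option autoImplicit false

open Finset Filter Topology

namespace Pool.Agent.PFS

open Pool.Agent.Gap Pool.Agent.FL Pool.Agent.EXW Pool.Agent.Gap.H22 Pool.Agent.FL.GJ2

namespace TJTx

/-- complex caps are bounded by the real caps at the point `ρ` -/
theorem norm_capc_le {C0 : ℕ} {s : ℕ → ℤ → ℝ} {cs : ℕ → ℤ → ℂ} (hs : IsCap C0 s)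
    (hcs : ∀ m g, ‖cs m g‖ ≤ s m g) {rho : ℝ} (hr : 0 ≤ rho) (j : ℕ) {z : ℂ} (hz : ‖z‖ ≤ rho)
    (g : ℤ) : ‖capc C0 cs j z g‖ ≤ ‖capz C0 s j (rho : ℂ) g‖ := by
  have e : capz C0 s j (rho : ℂ) g =
      ((∑ m ∈ range (C0 + 1), (m : ℝ) ^ j * rho ^ m * s m g : ℝ) : ℂ) := by
    unfold capz
    push_cast
    rfl
  have h0 : (0 : ℝ) ≤ ∑ m ∈ range (C0 + 1), (m : ℝ) ^ j * rho ^ m * s m g :=
    Finset.sum_nonneg fun m _ => by
      have := hs.nonneg m g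
      positivity
  rw [e, Complex.norm_real, Real.norm_eq_abs, abs_of_nonneg h0]
  unfold capc
  refine (norm_sum_le _ _).trans (Finset.sum_le_sum fun m _ => ?_)
  rw [norm_mul, norm_mul, norm_pow, norm_pow, Complex.norm_natCast]
  have h2 : ‖z‖ ^ m ≤ rho ^ m := pow_le_pow_left₀ (norm_nonneg _) hz _
  exact mul_le_mul (mul_le_mul_of_nonneg_left h2 (by positivity)) (hcs m g) (norm_nonneg _)
    (by positivity)

theorem nrm_capc_le {C θ' : ℝ} (hC : 0 < C) (h0 : 0 < θ') (h1 : θ' < 1) {G : GapKernel} {C0 : ℕ}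
    {s : ℕ → ℤ → ℝ} {cs : ℕ → ℤ → ℂ} (hs : ClsCap C θ' G C0 s) (hcs : ∀ m g, ‖cs m g‖ ≤ s m g)
    (N : ℕ) (j : ℕ) (hj : j ≤ 3) {z : ℂ} (hz : ‖z‖ ≤ G.rho) :
    nrm N (capc C0 cs j z) ≤ Sk C θ' := by
  have hρ := G.rho_pos
  have hz0 : ‖(G.rho : ℂ)‖ ≤ G.rho := by
    rw [Complex.norm_real, Real.norm_eq_abs, abs_of_pos hρ]
  refine (nrm_le_sum N _).trans (le_trans (Finset.sum_le_sum fun g _ => ?_)
    (sum_norm_capz_le hC h0 h1 hs N j hj hz0))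
  exact norm_capc_le hs.cap hcs hρ.le j hz g

theorem norm_KzT_le3 (G : GapKernel) (p : ℕ × ℕ → ℂ) (hp : ∀ i, ‖p i‖ ≤ 1) {eps : ℝ}
    (h : 0 ≤ eps) {z : ℂ} (hz : ‖z‖ ≤ G.rho) (j : ℕ) (hj : j ≤ 3)
    (g g' : ℤ) (hg : 0 ≤ g) (hg' : 0 ≤ g') : ‖KzT G p j eps z g g'‖ ≤ G.k3 (g' - g) := by
  refine (norm_sum_le _ _).trans (Finset.sum_le_sum fun i hi => ?_)
  have hρ := G.rho_pos
  have hK := G.K_nonneg i g g'
  rw [norm_mul, norm_mul, norm_mul, norm_pow, norm_pow, Complex.norm_natCast, Complex.norm_real,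
    Real.norm_eq_abs, abs_of_nonneg (mul_nonneg hK (GapKernel.wt_nonneg _ _ _ _))]
  have hm : (1 : ℝ) ≤ i.1 := by exact_mod_cast (G.pos_mem i hi).1
  have h1 : (i.1 : ℝ) ^ j ≤ (i.1 : ℝ) ^ 3 := pow_le_pow_right₀ hm hj
  have h2 : ‖z‖ ^ i.1 * ‖p i‖ ≤ G.rho ^ i.1 := by
    have h5 : ‖z‖ ^ i.1 ≤ G.rho ^ i.1 := pow_le_pow_left₀ (norm_nonneg _) hz _
    calc ‖z‖ ^ i.1 * ‖p i‖ ≤ G.rho ^ i.1 * 1 :=
          mul_le_mul h5 (hp i) (norm_nonneg _) (by positivity)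
      _ = _ := mul_one _
  have h3 : G.K i g g' * GapKernel.wt eps i g g' ≤ G.T i (g' - g) :=
    (mul_le_of_le_one_right hK (GapKernel.wt_le_one h i g g' hg hg')).trans (G.K_le i g g')
  have h4 : 0 ≤ G.K i g g' * GapKernel.wt eps i g g' :=
    mul_nonneg hK (GapKernel.wt_nonneg _ _ _ _)
  exact mul_le_mul (mul_le_mul h1 h2 (by positivity) (by positivity)) h3 h4 (by positivity)

theorem nrm_KapT_le (G : GapKernel) (p : ℕ × ℕ → ℂ) (hp : ∀ i, ‖p i‖ ≤ 1) {eps : ℝ}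
    (h : 0 ≤ eps) {z : ℂ} (hz : ‖z‖ ≤ G.rho) (j : ℕ) (hj : j ≤ 3) (N : ℕ)
    (f : ℤ → ℂ) : nrm N (KapT G p j eps z N f) ≤ G.m3 * nrm N f := by
  refine nrm_schur N (fun g g' => KzT G p j eps z g g') G.k3 G.m3 G.m3_nonneg ?_
    (fun g => G.sum_k3_shift g _) (fun g' => G.sum_k3_shift' g' _) G.k3_nonneg f
  intro g hg g' hg'
  rw [Finset.mem_Icc] at hg hg'
  exact norm_KzT_le3 G p hp h hz j hj g g' (by omega) (by omega)

/-- the constant of the module -/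
noncomputable def Bd (M A CR : ℝ) : ℝ :=
  (M * A + A * M + A * (M * A)) +
    (M * A + 2 * (M * (CR * (M + M * A))) + A * M + A * (M * A) +
      2 * (A * (M * (CR * (M + M * A)))))

theorem core (h1 : TJ1_Stmt) (h2 : TCL_Stmt) {D : ℝ} {KE KT : ℕ}
    (h3 : ∀ (G : GapKernel) (v κ θ : ℝ), 2 ≤ D → TwP D G v κ →
      |θ| * D ^ KE ≤ 1 → ∀ (N : ℕ) (eps : ℝ) (z : ℂ) (f e : ℤ → ℂ), 0 ≤ eps → ‖z‖ ≤ G.rho →
        SolvesT G (ph θ v) eps z N f e →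
        ‖(G.rho : ℂ) - z‖ * Real.sqrt (nsq N f) ≤ D ^ KE * Real.sqrt (nsq N e) ∧
        En N f + Pot eps N f ≤ D ^ KE * (lw 1 N e) ^ 2 ∧
        ∀ g : ℤ, 1 ≤ g → ‖f g‖ ^ 2 ≤ D ^ KE * g * (lw 1 N e) ^ 2)
    (h4 : ∀ (G : GapKernel) (v κ θ : ℝ), 2 ≤ D → TwP D G v κ →
      |θ| * D ^ KT ≤ 1 → ∀ (C0 : ℕ) (s : ℕ → ℤ → ℝ) (cs : ℕ → ℤ → ℂ), CapT D θ G C0 s cs →
      ∀ (N : ℕ) (eps : ℝ) (z : ℂ) (u : ℤ → ℂ), 0 ≤ eps → ‖z‖ ≤ G.rho → z ≠ (G.rho : ℂ) →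
        θ ^ 2 ≤ ‖(G.rho : ℂ) - z‖ → SolvesT G (ph θ v) eps z N u (capc C0 cs 0 z) →
        nsq N u * Real.sqrt ‖(G.rho : ℂ) - z‖ ≤ D ^ KT)
    (G : GapKernel) (v κ θ : ℝ) (hD : 2 ≤ D) (hT : TwP D G v κ) (hE1 : |θ| * D ^ KE ≤ 1)
    (hT1 : |θ| * D ^ KT ≤ 1) (C0 : ℕ) (s t : ℕ → ℤ → ℝ) (cs ct : ℕ → ℤ → ℂ)
    (hs' : CapT D θ G C0 s cs) (ht' : CapT D θ G C0 t ct) (N : ℕ) (eps : ℝ) (heps : 0 ≤ eps)
    (hN : C0 ≤ N) (b : ℕ → ℤ → ℂ) (hb : IsArrT G (ph θ v) cs eps N b) (z : ℂ)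
    (hz : ‖z‖ < G.rho) (hθz : θ ^ 2 ≤ ‖(G.rho : ℂ) - z‖) :
    ‖cgf 1 (closec C0 ct b) z‖ * Real.sqrt ‖(G.rho : ℂ) - z‖ ≤
      Bd (Sk D (1 - D⁻¹)) (Real.sqrt (D ^ KT)) (D ^ KE) ∧
    ‖cgf 2 (closec C0 ct b) z‖ * (‖(G.rho : ℂ) - z‖ * Real.sqrt ‖(G.rho : ℂ) - z‖) ≤
      Bd (Sk D (1 - D⁻¹)) (Real.sqrt (D ^ KT)) (D ^ KE) := by
  have hC0 : 0 < D := by linarith
  have hθ0 : 0 < 1 - D⁻¹ := th_pos hD
  have hθ1 : 1 - D⁻¹ < 1 := th_lt hD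
  have hG : Cls D (1 - D⁻¹) G := hT.cls
  unfold Bd
  set M : ℝ := Sk D (1 - D⁻¹) with hM
  have hM0 : 0 ≤ M := Sk_nonneg hC0 hθ0
  set CR : ℝ := D ^ KE with hCR'
  have hCR : 0 < CR := pow_pos hC0 _
  set A0 : ℝ := Real.sqrt (D ^ KT) with hA0
  have hA00 : 0 ≤ A0 := Real.sqrt_nonneg _
  set A1 : ℝ := CR * (M + M * A0) with hA1
  have hA10 : 0 ≤ A1 := by positivity
  set D1 : ℝ := M * A0 + A0 * M + A0 * (M * A0) with hD1
  have hD10 : 0 ≤ D1 := by positivity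
  set D2 : ℝ := M * A0 + 2 * (M * A1) + A0 * M + A0 * (M * A0) + 2 * (A0 * (M * A1)) with hD2
  have hD20 : 0 ≤ D2 := by positivity
  have hs : IsCap C0 s := hs'.cap.cap
  have ht : IsCap C0 t := ht'.cap.cap
  have hρ := G.rho_pos
  have hz' : ‖z‖ ≤ G.rho := hz.le
  have hzne : z ≠ (G.rho : ℂ) := by
    rintro rfl
    rw [Complex.norm_real, Real.norm_eq_abs, abs_of_pos hρ] at hz
    exact lt_irrefl _ hz
  set δ : ℝ := ‖(G.rho : ℂ) - z‖ with hδ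
  have hδ0 : 0 < δ := norm_pos_iff.mpr (sub_ne_zero.mpr (Ne.symm hzne))
  have hδ2 : δ ≤ 1 := by
    have h5 : δ ≤ 2 * G.rho := delta_le hz'
    have h6 := rho_le G
    linarith
  set q : ℝ := Real.sqrt (Real.sqrt δ) with hq
  have hqpos : 0 < q := Real.sqrt_pos.mpr (Real.sqrt_pos.mpr hδ0)
  have hq2 : Real.sqrt δ = q ^ 2 := (Real.sq_sqrt (Real.sqrt_nonneg _)).symm
  have hq4 : δ = q ^ 4 := by
    have : δ = Real.sqrt δ ^ 2 := (Real.sq_sqrt hδ0.le).symm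
    rw [this, hq2]
    ring
  have hqq0 : q ≤ 1 := Real.sqrt_le_one.2 (Real.sqrt_le_one.2 hδ2)
  have hqk : ∀ k : ℕ, q ^ k ≤ 1 := fun k => pow_le_one₀ hqpos.le hqq0
  set p : ℕ × ℕ → ℂ := ph θ v with hp'
  have hp : ∀ i, ‖p i‖ ≤ 1 := fun i => (norm_ph θ v i).le
  obtain ⟨b', hb'⟩ := (h1 G p hp C0 t ct ht ht'.le N eps heps).1
  set V : ℕ → ℤ → ℂ := fun j => gfc j b z with hV
  set U : ℤ → ℂ := gfc 0 b' z with hU
  have sV : ∀ j, SolvesT G p eps z N (V j) (fun g => capc C0 cs j z g +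
      ∑ l ∈ range j, ((j.choose l : ℕ) : ℂ) * KapT G p (j - l) eps z N (V l) g) :=
    ((h1 G p hp C0 s cs hs hs'.le N eps heps).2 b hb).2.2 z hz
  have sU : SolvesT G p eps z N U (capc C0 ct 0 z) := by
    have := ((h1 G p hp C0 t ct ht ht'.le N eps heps).2 b' hb').2.2 z hz 0
    simpa using this
  have sV0 : SolvesT G p eps z N (V 0) (capc C0 cs 0 z) := by
    have := sV 0
    simpa using this
  have nS : ∀ j : ℕ, j ≤ 3 → nrm N (capc C0 cs j z) ≤ M := fun j hj =>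
    nrm_capc_le hC0 hθ0 hθ1 hs'.cap hs'.le N j hj hz'
  have nT : ∀ j : ℕ, j ≤ 3 → nrm N (capc C0 ct j z) ≤ M := fun j hj =>
    nrm_capc_le hC0 hθ0 hθ1 ht'.cap ht'.le N j hj hz'
  have nK : ∀ (j : ℕ) (f : ℤ → ℂ), j ≤ 3 → nrm N (KapT G p j eps z N f) ≤ M * nrm N f :=
    fun j f hj => (nrm_KapT_le G p hp heps hz' j hj N f).trans
      (mul_le_mul_of_nonneg_right (m3_le hC0 hθ0 hθ1 hG) (nrm_nonneg _ _))
  -- L2 bounds at level 0
  have lev0 : ∀ f : ℤ → ℂ, nsq N f * Real.sqrt δ ≤ D ^ KT → nrm N f * q ≤ A0 := by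
    intro f hf
    rw [hq2, ← nrm_sq] at hf
    have h5 : (nrm N f * q) ^ 2 ≤ A0 ^ 2 := by
      rw [mul_pow, hA0, Real.sq_sqrt (pow_pos hC0 KT).le]
      exact hf
    exact (pow_le_pow_iff_left₀ (mul_nonneg (nrm_nonneg _ _) hqpos.le) hA00
      two_ne_zero).mp h5
  set a0 : ℝ := nrm N (V 0) with ha0
  set a1 : ℝ := nrm N (V 1) with ha1
  set w0 : ℝ := nrm N U with hw0
  have a00 : 0 ≤ a0 := nrm_nonneg _ _
  have a10 : 0 ≤ a1 := nrm_nonneg _ _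
  have w00 : 0 ≤ w0 := nrm_nonneg _ _
  have b0 : a0 * q ≤ A0 := lev0 _ (h4 G v κ θ hD hT hT1 C0 s cs hs' N eps z (V 0) heps hz' hzne
    hθz sV0)
  have bw : w0 * q ≤ A0 := lev0 _ (h4 G v κ θ hD hT hT1 C0 t ct ht' N eps z U heps hz' hzne
    hθz sU)
  -- level 1
  have b1 : a1 * q ^ 5 ≤ A1 := by
    have h5 := (h3 G v κ θ hD hT hE1 N eps z _ _ heps hz' (sV 1)).1
    have h6 : nrm N (fun g => capc C0 cs 1 z g +
      ∑ l ∈ range 1, (((1 : ℕ).choose l : ℕ) : ℂ) * KapT G p (1 - l) eps z N (V l) g) ≤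
        M + M * a0 := by
      refine (nrm_add N _ _).trans (add_le_add (nS 1 (by norm_num)) ?_)
      have h7 : (fun g => ∑ l ∈ range 1, (((1 : ℕ).choose l : ℕ) : ℂ) *
          KapT G p (1 - l) eps z N (V l) g) = KapT G p 1 eps z N (V 0) := by
        funext g
        simp
      rw [h7]
      exact nK 1 (V 0) (by norm_num)
    have h8 : q ^ 4 * a1 ≤ CR * (M + M * a0) := by
      rw [← hq4]
      exact h5.trans (mul_le_mul_of_nonneg_left h6 hCR.le)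
    have h9 := mul_le_mul_of_nonneg_right h8 hqpos.le
    have h10 : M * q ≤ M := mul_le_of_le_one_right hM0 hqq0
    calc a1 * q ^ 5 = q ^ 4 * a1 * q := by ring
      _ ≤ CR * (M + M * a0) * q := h9
      _ = CR * (M * q + M * (a0 * q)) := by ring
      _ ≤ A1 := by
        rw [hA1]
        exact mul_le_mul_of_nonneg_left (add_le_add h10
          (mul_le_mul_of_nonneg_left b0 hM0)) hCR.le
  -- pairings
  have P1 : ∀ (k : ℕ) (f : ℤ → ℂ), k ≤ 3 → ‖∑ g ∈ Icc (1 : ℤ) N, capc C0 ct k z g * f g‖ ≤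
      M * nrm N f := fun k f hk =>
    (pair_le N _ _).trans (mul_le_mul_of_nonneg_right (nT k hk) (nrm_nonneg _ _))
  have P2 : ∀ (k : ℕ), k ≤ 3 → ‖∑ g ∈ Icc (1 : ℤ) N, U g * capc C0 cs k z g‖ ≤ w0 * M :=
    fun k hk => (pair_le N _ _).trans (mul_le_mul_of_nonneg_left (nS k hk) w00)
  have P3 : ∀ (k : ℕ) (f : ℤ → ℂ), k ≤ 3 → ‖∑ g ∈ Icc (1 : ℤ) N, U g * KapT G p k eps z N f g‖ ≤
      w0 * (M * nrm N f) := fun k f hk =>
    (pair_le N _ _).trans (mul_le_mul_of_nonneg_left (nK k f hk) w00)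
  obtain ⟨-, e1, e2⟩ := h2 G p hp C0 s t cs ct hs ht hs'.le ht'.le N eps heps hN b b' hb hb' z hz
  have n2 : ‖(2 : ℂ)‖ = 2 := by norm_num
  constructor
  · have h5 : ‖cgf 1 (closec C0 ct b) z‖ ≤ M * a0 + w0 * M + w0 * (M * a0) := by
      rw [e1]
      exact (norm_add_le _ _).trans (add_le_add ((norm_add_le _ _).trans (add_le_add
        (P1 1 _ (by norm_num)) (P2 1 (by norm_num)))) (P3 1 _ (by norm_num)))
    have h6 : ‖cgf 1 (closec C0 ct b) z‖ * q ^ 2 ≤ D1 := by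
      have h7 := mul_le_mul_of_nonneg_right h5 (pow_nonneg hqpos.le 2)
      have i1 : (a0 * q) * q ≤ A0 * 1 := mul_le_mul b0 hqq0 hqpos.le hA00
      have i3 : (w0 * q) * M * q ≤ A0 * M * 1 :=
        mul_le_mul (mul_le_mul_of_nonneg_right bw hM0) hqq0 hqpos.le (by positivity)
      have i4 : (w0 * q) * (M * (a0 * q)) ≤ A0 * (M * A0) :=
        mul_le_mul bw (mul_le_mul_of_nonneg_left b0 hM0) (by positivity) hA00
      have i1' := mul_le_mul_of_nonneg_left i1 hM0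
      refine h7.trans ?_
      rw [hD1]
      have h8 : (M * a0 + w0 * M + w0 * (M * a0)) * q ^ 2 =
          M * ((a0 * q) * q) + (w0 * q) * M * q + (w0 * q) * (M * (a0 * q)) := by ring
      rw [h8]
      linarith
    rw [hq2]
    linarith
  · have h5 : ‖cgf 2 (closec C0 ct b) z‖ ≤ M * a0 + 2 * (M * a1) + w0 * M +
        (w0 * (M * a0) + 2 * (w0 * (M * a1))) := by
      rw [e2]
      refine (norm_add_le _ _).trans (add_le_add ((norm_add_le _ _).trans (add_le_add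
        ((norm_add_le _ _).trans (add_le_add (P1 2 _ (by norm_num)) ?_)) (P2 2 (by norm_num))))
        ((norm_add_le _ _).trans (add_le_add (P3 2 _ (by norm_num)) ?_)))
      · rw [norm_mul, n2]
        exact mul_le_mul_of_nonneg_left (P1 1 _ (by norm_num)) (by norm_num)
      · rw [norm_mul, n2]
        exact mul_le_mul_of_nonneg_left (P3 1 _ (by norm_num)) (by norm_num)
    have h6 : ‖cgf 2 (closec C0 ct b) z‖ * q ^ 6 ≤ D2 := by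
      have h7 := mul_le_mul_of_nonneg_right h5 (pow_nonneg hqpos.le 6)
      have i1 : (a0 * q) * q ^ 5 ≤ A0 * 1 := mul_le_mul b0 (hqk 5) (by positivity) hA00
      have i2 : (a1 * q ^ 5) * q ≤ A1 * 1 := mul_le_mul b1 hqq0 (by positivity) hA10
      have i3 : (w0 * q) * M * q ^ 5 ≤ A0 * M * 1 :=
        mul_le_mul (mul_le_mul_of_nonneg_right bw hM0) (hqk 5) (by positivity) (by positivity)
      have i4 : (w0 * q) * (M * (a0 * q)) * q ^ 4 ≤ A0 * (M * A0) * 1 :=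
        mul_le_mul (mul_le_mul bw (mul_le_mul_of_nonneg_left b0 hM0) (by positivity) hA00)
          (hqk 4) (by positivity) (by positivity)
      have i5 : (w0 * q) * (M * (a1 * q ^ 5)) ≤ A0 * (M * A1) :=
        mul_le_mul bw (mul_le_mul_of_nonneg_left b1 hM0) (by positivity) hA00
      have i1' := mul_le_mul_of_nonneg_left i1 hM0
      have i2' := mul_le_mul_of_nonneg_left i2 hM0
      refine h7.trans ?_
      rw [hD2]
      have h8 : (M * a0 + 2 * (M * a1) + w0 * M + (w0 * (M * a0) + 2 * (w0 * (M * a1)))) * q ^ 6 =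
          M * ((a0 * q) * q ^ 5) + 2 * (M * ((a1 * q ^ 5) * q)) + (w0 * q) * M * q ^ 5 +
          (w0 * q) * (M * (a0 * q)) * q ^ 4 + 2 * ((w0 * q) * (M * (a1 * q ^ 5))) := by ring
      rw [h8]
      linarith
    rw [hq2]
    have h9 : δ * q ^ 2 = q ^ 6 := by rw [hq4]; ring
    rw [h9]
    linarith

end TJTx

open TJTx in
/-- MODULE TJT. -/
theorem t_TJT (h1 : TJ1_Stmt) (h2 : TCL_Stmt) (h3 : TEN_Stmt) (h4 : TTL_Stmt) : TJT_Stmt := by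
  obtain ⟨KE, hE⟩ := h3
  obtain ⟨KT, hT⟩ := h4
  have pM : PB fun D => Sk D (1 - D⁻¹) :=
    PB.id.mul (PB.geo 7 (fun D hD => (th_pos hD).le) LB.inv_self fun D _ => le_rfl)
  have pA : PB fun D => Real.sqrt (D ^ KT) := (PB.pow_self KT).sqrt
  have pR : PB fun D => D ^ KE := PB.pow_self KE
  have p2 : PB fun _ => (2 : ℝ) := PB.const 2
  have pA1 : PB fun D => D ^ KE * (Sk D (1 - D⁻¹) + Sk D (1 - D⁻¹) * Real.sqrt (D ^ KT)) :=
    pR.mul (pM.add (pM.mul pA))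
  have pBd : PB fun D => Bd (Sk D (1 - D⁻¹)) (Real.sqrt (D ^ KT)) (D ^ KE) :=
    (((pM.mul pA).add (pA.mul pM)).add (pA.mul (pM.mul pA))).add
      (((((pM.mul pA).add (p2.mul (pM.mul pA1))).add (pA.mul pM)).add
        (pA.mul (pM.mul pA))).add (p2.mul (pA.mul (pM.mul pA1))))
  obtain ⟨Kc, hK⟩ := pBd.le
  refine ⟨KE + KT + Kc, ?_⟩
  intro D G v κ θ hD hTw hθ C0 s t cs ct hs ht N eps heps hN b hb z hz hθz
  have hD1 : (1 : ℝ) ≤ D := by linarith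
  have m1 : |θ| * D ^ KE ≤ 1 := (mul_le_mul_of_nonneg_left
    (pow_le_pow_right₀ hD1 (by omega)) (abs_nonneg θ)).trans hθ
  have m2 : |θ| * D ^ KT ≤ 1 := (mul_le_mul_of_nonneg_left
    (pow_le_pow_right₀ hD1 (by omega)) (abs_nonneg θ)).trans hθ
  have m3 : D ^ Kc ≤ D ^ (KE + KT + Kc) := pow_le_pow_right₀ hD1 (by omega)
  obtain ⟨r1, r2⟩ := core h1 h2 (hE D) (hT D) G v κ θ hD hTw m1 m2 C0 s t cs ct hs ht N eps heps
    hN b hb z hz hθz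
  exact ⟨r1.trans ((hK D hD).trans m3), r2.trans ((hK D hD).trans m3)⟩

end Pool.Agent.PFS
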