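import Pool.Agent.PFS.StmtsA
import Pool.Agent.EXW.QLT
import Pool.Agent.Lib_helper89.FL.GJ2
import Pool.Agent.Lib_helper84.Gap.XLim

/-!
# Project PFS (MP_f6626d_co), module TLT: the phases factor out

Coefficient extraction (TX) for the closed array with phases and the closed array without phases, at
points which differ by `κ θ² n`.
-/

set_option autoImplicit false

open Finset Filter Topology

namespace Pool.Agent.PFS

open Pool.Agent.Gap Pool.Agent.FL Pool.Agent.EXW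

namespace TLTx

/-- lower bound of `1 - e^(-ζ)` by the imaginary part -/
lemma norm_one_sub_exp_ge {x y : ℝ} (hx1 : x ≤ 1) (hy : |y| ≤ Real.pi) :
    |y| / 3 ≤ ‖1 - Complex.exp (-((x : ℂ) + (y : ℂ) * Complex.I))‖ := by
  have hE : Complex.exp (-((x : ℂ) + (y : ℂ) * Complex.I)) =
      ((Real.exp (-x) * Real.cos y : ℝ) : ℂ) - ((Real.exp (-x) * Real.sin y : ℝ) : ℂ) * Complex.I := by
    have h1 : -((x : ℂ) + (y : ℂ) * Complex.I) = ((-x : ℝ) : ℂ) + ((-y : ℝ) : ℂ) * Complex.I := by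
      push_cast; ring
    rw [h1, Complex.exp_add_mul_I, ← Complex.ofReal_exp, ← Complex.ofReal_cos,
      ← Complex.ofReal_sin, Real.cos_neg, Real.sin_neg]
    push_cast
    ring
  have hsq : ‖1 - Complex.exp (-((x : ℂ) + (y : ℂ) * Complex.I))‖ ^ 2 =
      (1 - Real.exp (-x)) ^ 2 + 2 * Real.exp (-x) * (1 - Real.cos y) := by
    rw [hE, ← Complex.normSq_eq_norm_sq]
    have h2 : (1 : ℂ) - (((Real.exp (-x) * Real.cos y : ℝ) : ℂ) -
        ((Real.exp (-x) * Real.sin y : ℝ) : ℂ) * Complex.I) =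
        ((1 - Real.exp (-x) * Real.cos y : ℝ) : ℂ) +
          ((Real.exp (-x) * Real.sin y : ℝ) : ℂ) * Complex.I := by
      push_cast; ring
    rw [h2, Complex.normSq_add_mul_I]
    have := Real.sin_sq_add_cos_sq y
    linear_combination (Real.exp (-x)) ^ 2 * this
  have he2 : (1 / 3 : ℝ) ≤ Real.exp (-x) := by
    have h5 : Real.exp (-1) ≤ Real.exp (-x) := Real.exp_le_exp.2 (by linarith)
    have h6 : (1 / 3 : ℝ) ≤ Real.exp (-1) := by
      rw [Real.exp_neg, ← one_div]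
      apply one_div_le_one_div_of_le (Real.exp_pos 1)
      have := Real.exp_one_lt_d9
      linarith
    linarith
  have hc : 2 / Real.pi ^ 2 * y ^ 2 ≤ 1 - Real.cos y := by
    have := Real.cos_le_one_sub_mul_cos_sq hy
    linarith
  have hpi : Real.pi ^ 2 ≤ 12 := by
    have h7 := Real.pi_lt_d2
    have h8 := Real.pi_pos
    nlinarith
  have hc2 : (1 / 6 : ℝ) * y ^ 2 ≤ 1 - Real.cos y := by
    have h9 : (1 / 6 : ℝ) ≤ 2 / Real.pi ^ 2 := by
      rw [le_div_iff₀ (by positivity)]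
      linarith
    nlinarith [sq_nonneg y]
  have hmain : (|y| / 3) ^ 2 ≤ ‖1 - Complex.exp (-((x : ℂ) + (y : ℂ) * Complex.I))‖ ^ 2 := by
    rw [hsq, div_pow, sq_abs]
    have h12 : 2 * (1 / 3 : ℝ) * ((1 / 6 : ℝ) * y ^ 2) ≤
        2 * Real.exp (-x) * (1 - Real.cos y) := by
      apply mul_le_mul _ hc2 (by positivity) (by positivity)
      linarith
    nlinarith [sq_nonneg (1 - Real.exp (-x)), sq_nonneg y]
  exact le_of_sq_le_sq hmain (norm_nonneg _)

/-- distance to the critical point -/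
lemma norm_rho_sub_ge {rho : ℝ} (hrho : 0 < rho) {n : ℕ} (hn : 1 ≤ n) {w : ℂ}
    (hw1 : w.re ≤ n) (hw2 : |w.im| ≤ Real.pi * n) :
    rho * (|w.im| / n) / 3 ≤ ‖(rho : ℂ) - zn rho w n‖ := by
  have hn' : (0 : ℝ) < n := by exact_mod_cast hn
  have h1 : w / (n : ℂ) = ((w.re / n : ℝ) : ℂ) + ((w.im / n : ℝ) : ℂ) * Complex.I := by
    have h2 := Complex.re_add_im w
    push_cast
    nth_rewrite 1 [← h2]
    ring
  have h3 : |w.im / n| ≤ Real.pi := by
    rw [abs_div, abs_of_pos hn', div_le_iff₀ hn']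
    exact hw2
  have h4 := norm_one_sub_exp_ge (x := w.re / n) (y := w.im / n)
    ((div_le_one hn').2 hw1) h3
  have h5 : (rho : ℂ) - zn rho w n = (rho : ℂ) * (1 - Complex.exp (-(w / n))) := by
    unfold zn; ring
  rw [h5, norm_mul, Complex.norm_real, Real.norm_eq_abs, abs_of_pos hrho, h1]
  rw [abs_div, abs_of_pos hn'] at h4
  calc rho * (|w.im| / n) / 3 = rho * (|w.im| / n / 3) := by ring
    _ ≤ _ := mul_le_mul_of_nonneg_left h4 hrho.le

/-- the array with phases is bounded by the array without phases -/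
lemma arr_le {G : GapKernel} {p : ℕ × ℕ → ℂ} (hp : ∀ i, ‖p i‖ ≤ 1) {s : ℕ → ℤ → ℝ}
    {cs : ℕ → ℤ → ℂ} (hcs : ∀ m g, ‖cs m g‖ ≤ s m g) {eps : ℝ} {N : ℕ} {b : ℕ → ℤ → ℝ}
    {bt : ℕ → ℤ → ℂ} (hb : IsArr G s eps N b) (hbt : IsArrT G p cs eps N bt) :
    ∀ n g, ‖bt n g‖ ≤ b n g := by
  intro n
  induction n using Nat.strong_induction_on with
  | _ n ih =>
    intro g
    by_cases hg : 1 ≤ g ∧ g ≤ N
    · rw [hbt.step n g hg.1 hg.2, hb.step n g hg.1 hg.2]
      refine (norm_add_le _ _).trans (add_le_add (hcs n g) ?_)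
      refine (norm_sum_le _ _).trans (Finset.sum_le_sum fun i hi => ?_)
      split_ifs with hin
      · refine (norm_sum_le _ _).trans (Finset.sum_le_sum fun g' _ => ?_)
        have h1 : 1 ≤ i.1 := (G.pos_mem i hi).1
        have h2 := ih (n - i.1) (by omega) g'
        have h3 : 0 ≤ G.K i g g' * GapKernel.wt eps i g g' :=
          mul_nonneg (G.K_nonneg i g g') (Real.exp_pos _).le
        rw [norm_mul, norm_mul, Complex.norm_real, Real.norm_of_nonneg h3]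
        calc ‖p i‖ * (G.K i g g' * GapKernel.wt eps i g g') * ‖bt (n - i.1) g'‖
            ≤ 1 * (G.K i g g' * GapKernel.wt eps i g g') * b (n - i.1) g' := by
              refine mul_le_mul (mul_le_mul_of_nonneg_right (hp i) h3) h2 (norm_nonneg _)
                (by rw [one_mul]; exact h3)
          _ = _ := by rw [one_mul]
      · rw [norm_zero]
    · have hg' : g < 1 ∨ (N : ℤ) < g := by
        by_contra hcon
        push Not at hcon
        exact hg hcon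
      rw [hbt.zero n g hg', hb.zero n g hg', norm_zero]

/-- the closed array with phases is bounded by the closed array without phases -/
lemma close_le {C0 : ℕ} {t b : ℕ → ℤ → ℝ} {ct bt : ℕ → ℤ → ℂ} (ht : ∀ m g, ‖ct m g‖ ≤ t m g)
    (hb : ∀ m g, ‖bt m g‖ ≤ b m g) (n : ℕ) : ‖closec C0 ct bt n‖ ≤ close C0 t b n := by
  unfold closec close
  refine (norm_sum_le _ _).trans (Finset.sum_le_sum fun m _ => ?_)
  refine (norm_sum_le _ _).trans (Finset.sum_le_sum fun g _ => ?_)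
  rw [norm_mul]
  exact mul_le_mul (ht m g) (hb _ g) (norm_nonneg _) ((norm_nonneg _).trans (ht m g))

/-- summability of the closed array with phases -/
lemma summ {a : ℕ → ℂ} {c : ℕ → ℝ} (h : ∀ n, ‖a n‖ ≤ c n) {z : ℂ} {j : ℕ}
    (hs : Summable fun n : ℕ => ‖((n : ℂ)) ^ j * ((c n : ℝ) : ℂ) * z ^ n‖) :
    Summable fun n : ℕ => ‖((n : ℂ)) ^ j * a n * z ^ n‖ := by
  refine Summable.of_nonneg_of_le (fun n => norm_nonneg _) (fun n => ?_) hs
  rw [norm_mul, norm_mul, norm_mul, norm_mul, Complex.norm_real,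
    Real.norm_of_nonneg ((norm_nonneg _).trans (h n))]
  gcongr
  exact h n

/-- the variance parameter is bounded -/
lemma kappa_le : ∃ K : ℕ, ∀ (D : ℝ) (G : GapKernel) (v κ : ℝ), 2 ≤ D → TwP D G v κ →
    κ ≤ D ^ K := by
  obtain ⟨K, hK⟩ := sum_pow 2
  obtain ⟨Kp, hKp⟩ := par_bounds
  refine ⟨K, fun D G v κ hD h => ?_⟩
  obtain ⟨m1, -, h1, -, -, -⟩ := hKp D hD G h.cls
  have h2 := hK D hD G h.cls
  have hm0 : 0 < G.mbar := by linarith
  have hhm : G.hbar ≤ G.mbar := by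
    unfold GapKernel.hbar GapKernel.mbar
    refine Finset.sum_le_sum fun i hi => ?_
    have h1 : (i.2 : ℝ) ≤ i.1 := by exact_mod_cast h.cls.loc.h_le i hi
    have h2 := GSum.rt_nonneg G i
    have h3 : (i.2 : ℝ) * G.rho ^ i.1 * G.tot i = (i.2 : ℝ) * (G.rho ^ i.1 * G.tot i) := by ring
    have h4 : (i.1 : ℝ) * G.rho ^ i.1 * G.tot i = (i.1 : ℝ) * (G.rho ^ i.1 * G.tot i) := by ring
    rw [h3, h4]
    exact mul_le_mul_of_nonneg_right h1 h2
  have hv0 : 0 ≤ v := by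
    by_contra hcon
    push Not at hcon
    have : v * G.mbar < 0 := mul_neg_of_neg_of_pos hcon hm0
    rw [← h.v_eq] at this
    linarith
  have hv1 : v ≤ 1 := by
    by_contra hcon
    push Not at hcon
    have : 1 * G.mbar < v * G.mbar := mul_lt_mul_of_pos_right hcon hm0
    rw [← h.v_eq] at this
    linarith
  have h3 : 2 * κ * G.mbar ≤ D ^ K := by
    rw [← h.var]
    refine le_trans (Finset.sum_le_sum fun i hi => ?_) h2
    have e1 := GSum.rt_nonneg G i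
    have e2 : ((i.2 : ℝ) - v * i.1) ^ 2 ≤ (i.1 : ℝ) ^ 2 := by
      have g1 : (i.2 : ℝ) ≤ i.1 := by exact_mod_cast h.cls.loc.h_le i hi
      have g2 : (0 : ℝ) ≤ i.2 := Nat.cast_nonneg _
      have g3 : (0 : ℝ) ≤ i.1 := Nat.cast_nonneg _
      have g4 : v * i.1 ≤ i.1 := by nlinarith
      have g5 : 0 ≤ v * i.1 := by positivity
      refine sq_le_sq' (by linarith) (by linarith)
    calc G.rho ^ i.1 * G.tot i * ((i.2 : ℝ) - v * i.1) ^ 2
        ≤ G.rho ^ i.1 * G.tot i * (i.1 : ℝ) ^ 2 := mul_le_mul_of_nonneg_left e2 e1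
      _ = _ := by ring
  have hκ0 : 0 < κ := lt_of_lt_of_le (inv_pos.2 (by linarith)) h.var_ge
  nlinarith

/-- the bounds of the closed generating functions without phases -/
lemma sgf_le (hJ : QGJ2_Stmt) (hW : QGW_Stmt) : ∃ K : ℕ, ∀ (D : ℝ) (G : GapKernel), 2 ≤ D →
    Cls D (1 - D⁻¹) G → ∀ (C0 : ℕ) (s t : ℕ → ℤ → ℝ), ClsCap D (1 - D⁻¹) G C0 s →
    ClsCap D (1 - D⁻¹) G C0 t → ∀ (N : ℕ) (eps : ℝ), 0 ≤ eps → C0 ≤ N →
    ∀ b : ℕ → ℤ → ℝ, IsArr G s eps N b → ∀ z : ℂ, ‖z‖ < G.rho →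
    (∀ j, Summable fun n : ℕ => ‖((n : ℂ)) ^ j * ((close C0 t b n : ℝ) : ℂ) * z ^ n‖) ∧
    ‖sgf 1 (close C0 t b) z‖ * Real.sqrt ‖(G.rho : ℂ) - z‖ ≤ D ^ K ∧
    ‖sgf 2 (close C0 t b) z‖ * (‖(G.rho : ℂ) - z‖ * Real.sqrt ‖(G.rho : ℂ) - z‖) ≤ D ^ K := by
  obtain ⟨KJ, HJ⟩ := hJ
  obtain ⟨KW, HW⟩ := hW
  obtain ⟨Km, Hm⟩ := par_bounds
  have pM : PB fun D => GJ2.Sk D (1 - D⁻¹) :=
    PB.id.mul (PB.geo 7 (fun D hD => (th_pos hD).le) LB.inv_self fun D _ => le_rfl)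
  have pA : PB fun D => D ^ KJ + D ^ Km * (D ^ KW * GJ2.Sk D (1 - D⁻¹) ^ 2) :=
    (PB.pow_self KJ).add ((PB.pow_self Km).mul ((PB.pow_self KW).mul (pM.pow 2)))
  obtain ⟨K, hK⟩ := (pA.max (PB.pow_self KJ)).le
  refine ⟨K, ?_⟩
  intro D G hD hG C0 s t hs ht N eps heps hN b hb z hz
  have hD0 : (0 : ℝ) < D := by linarith
  obtain ⟨b', hb'⟩ := (J1 G C0 t ht.cap N eps heps).1
  obtain ⟨a1, a2, a3⟩ := HJ D hD G hG C0 s t hs ht N eps heps hN b b' hb hb' z hz
  have hKD := hK D hD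
  refine ⟨a1, ?_, a3.trans ((le_max_right _ _).trans hKD)⟩
  refine le_trans ?_ ((le_max_left _ _).trans hKD)
  have hρ := G.rho_pos
  have hz' : ‖z‖ ≤ G.rho := hz.le
  have hzne : z ≠ (G.rho : ℂ) := by
    rintro rfl
    rw [Complex.norm_real, Real.norm_eq_abs, abs_of_pos hρ] at hz
    exact lt_irrefl _ hz
  set δ : ℝ := ‖(G.rho : ℂ) - z‖ with hδ
  have hδ0 : 0 < δ := norm_pos_iff.mpr (sub_ne_zero.mpr (Ne.symm hzne))
  have hδ2 : δ ≤ 1 := by
    have h5 : δ ≤ 2 * G.rho := by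
      have h6 := norm_sub_le (G.rho : ℂ) z
      rw [Complex.norm_real, Real.norm_of_nonneg hρ.le] at h6
      linarith
    have h6 := GJ2.rho_le G
    linarith
  have hsδ : 0 < Real.sqrt δ := Real.sqrt_pos.mpr hδ0
  have hsδ1 : Real.sqrt δ ≤ 1 := Real.sqrt_le_one.2 hδ2
  set M : ℝ := GJ2.Sk D (1 - D⁻¹) with hM
  -- solutions
  have sU : G.Solves eps z N (gf 0 b' z) (capz C0 t 0 z) := by
    have := (((J1 G C0 t ht.cap N eps heps).2 b' hb').2.2.2) z hz 0
    simpa using this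
  have sV : G.Solves eps z N (gf 0 b z) (capz C0 s 0 z) := by
    have := (((J1 G C0 s hs.cap N eps heps).2 b hb).2.2.2) z hz 0
    simpa using this
  have lev0 : ∀ (f e : ℤ → ℂ), G.Solves eps z N f e → lw 4 N e ≤ M →
      nsq N f * Real.sqrt δ ≤ D ^ KW * M ^ 2 := by
    intro f e hs1 hl
    have h1 := (HW D hD G hG N eps z f e heps hz' hzne hs1).1 0 (by norm_num)
    have h3 : mulg 0 f = f := by funext g; simp [mulg]
    rw [h3, pow_zero, mul_one, ← hδ, le_div_iff₀ hsδ] at h1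
    refine h1.trans (mul_le_mul_of_nonneg_left (pow_le_pow_left₀ ?_ hl 2) (by positivity))
    exact GJ2.lw_nonneg _ _ _
  have nU := lev0 _ _ sU (GJ2.lw_capz_le hD0 (th_pos hD) (th_lt hD) ht N 4 le_rfl 0
    (by norm_num) hz')
  have nV := lev0 _ _ sV (GJ2.lw_capz_le hD0 (th_pos hD) (th_lt hD) hs N 4 le_rfl 0
    (by norm_num) hz')
  set Q : ℂ := ∑ g ∈ Icc (1 : ℤ) N, gf 0 b z g * gf 0 b' z g with hQ
  have hB0 : 0 ≤ D ^ KW * M ^ 2 := by positivity
  have hQn : ‖Q‖ * Real.sqrt δ ≤ D ^ KW * M ^ 2 := by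
    have h5 : ‖Q‖ ≤ Real.sqrt (nsq N (gf 0 b z)) * Real.sqrt (nsq N (gf 0 b' z)) :=
      H22.pair_le N _ _
    have h6 : Real.sqrt (nsq N (gf 0 b z) * Real.sqrt δ) ≤ Real.sqrt (D ^ KW * M ^ 2) :=
      Real.sqrt_le_sqrt nV
    have h7 : Real.sqrt (nsq N (gf 0 b' z) * Real.sqrt δ) ≤ Real.sqrt (D ^ KW * M ^ 2) :=
      Real.sqrt_le_sqrt nU
    have h8 := mul_le_mul h6 h7 (Real.sqrt_nonneg _) (Real.sqrt_nonneg _)
    rw [Real.mul_self_sqrt hB0, Real.sqrt_mul' _ hsδ.le, Real.sqrt_mul' _ hsδ.le] at h8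
    have h9 : Real.sqrt (Real.sqrt δ) * Real.sqrt (Real.sqrt δ) = Real.sqrt δ :=
      Real.mul_self_sqrt hsδ.le
    calc ‖Q‖ * Real.sqrt δ
        ≤ Real.sqrt (nsq N (gf 0 b z)) * Real.sqrt (nsq N (gf 0 b' z)) * Real.sqrt δ :=
          mul_le_mul_of_nonneg_right h5 hsδ.le
      _ = Real.sqrt (nsq N (gf 0 b z)) * Real.sqrt (Real.sqrt δ) *
          (Real.sqrt (nsq N (gf 0 b' z)) * Real.sqrt (Real.sqrt δ)) := by
          calc Real.sqrt (nsq N (gf 0 b z)) * Real.sqrt (nsq N (gf 0 b' z)) * Real.sqrt δ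
              = Real.sqrt (nsq N (gf 0 b z)) * Real.sqrt (nsq N (gf 0 b' z)) *
                (Real.sqrt (Real.sqrt δ) * Real.sqrt (Real.sqrt δ)) := by rw [h9]
            _ = _ := by ring
      _ ≤ _ := h8
  obtain ⟨hm1, hm2, -, -, -, -⟩ := Hm D hD G hG
  have h10 : ‖sgf 1 (close C0 t b) z‖ ≤ D ^ KJ + G.mbar * ‖Q‖ := by
    have e1 : sgf 1 (close C0 t b) z = (sgf 1 (close C0 t b) z - (G.mbar : ℂ) * Q) +
        (G.mbar : ℂ) * Q := by ring
    rw [e1]
    refine (norm_add_le _ _).trans (add_le_add a2 (le_of_eq ?_))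
    rw [norm_mul, Complex.norm_real, Real.norm_of_nonneg (by linarith)]
  calc ‖sgf 1 (close C0 t b) z‖ * Real.sqrt δ ≤ (D ^ KJ + G.mbar * ‖Q‖) * Real.sqrt δ :=
        mul_le_mul_of_nonneg_right h10 hsδ.le
    _ = D ^ KJ * Real.sqrt δ + G.mbar * (‖Q‖ * Real.sqrt δ) := by ring
    _ ≤ D ^ KJ * 1 + D ^ Km * (D ^ KW * M ^ 2) := by
        refine add_le_add (mul_le_mul_of_nonneg_left hsδ1 (by positivity)) ?_
        exact mul_le_mul hm2 hQn (by positivity) (by positivity)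
    _ = _ := by rw [mul_one]

/-- from the distance to the critical point to the imaginary part -/
lemma conv1 {D δ σ A B : ℝ} (hD : 2 ≤ D) (hA : 0 ≤ A)
    (hδ : σ ≤ 3 * D * δ) (h : A * Real.sqrt δ ≤ B) :
    A * Real.sqrt σ ≤ 3 * D * B := by
  have h1 : Real.sqrt σ ≤ 3 * D * Real.sqrt δ := by
    refine (Real.sqrt_le_sqrt hδ).trans ?_
    rw [Real.sqrt_mul (by positivity)]
    refine mul_le_mul_of_nonneg_right ?_ (Real.sqrt_nonneg _)
    rw [Real.sqrt_le_left (by positivity)]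
    nlinarith
  calc A * Real.sqrt σ ≤ A * (3 * D * Real.sqrt δ) := mul_le_mul_of_nonneg_left h1 hA
    _ = 3 * D * (A * Real.sqrt δ) := by ring
    _ ≤ _ := mul_le_mul_of_nonneg_left h (by positivity)

lemma conv2 {D δ σ A B : ℝ} (hD : 2 ≤ D) (hA : 0 ≤ A)
    (hδ : σ ≤ 3 * D * δ) (h : A * (δ * Real.sqrt δ) ≤ B) (hδ0 : 0 ≤ δ) :
    A * (σ * Real.sqrt σ) ≤ 3 * D * (3 * D * B) := by
  have h1 : A * δ * Real.sqrt σ ≤ 3 * D * B := conv1 hD (mul_nonneg hA hδ0) hδ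
    (by rw [mul_assoc]; exact h)
  calc A * (σ * Real.sqrt σ) ≤ A * (3 * D * δ * Real.sqrt σ) := by
        refine mul_le_mul_of_nonneg_left ?_ hA
        exact mul_le_mul_of_nonneg_right hδ (Real.sqrt_nonneg _)
    _ = 3 * D * (A * δ * Real.sqrt σ) := by ring
    _ ≤ _ := mul_le_mul_of_nonneg_left h1 (by positivity)

end TLTx

open TLTx in
/-- **Module TLT.** -/
theorem t_TLT (h1 : TX_Stmt) (h2 : TPT_Stmt) (h3 : TJT_Stmt) (h4 : QGJ2_Stmt)
    (_h5 : QGSUP_Stmt) (h6 : QGW_Stmt) : TLT_Stmt := by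
  obtain ⟨CX, hCX, hX⟩ := h1
  obtain ⟨KP0, KP, hP⟩ := h2
  obtain ⟨KT, hT⟩ := h3
  obtain ⟨KS, hS⟩ := sgf_le h4 h6
  obtain ⟨Kκ, hκ'⟩ := kappa_le
  obtain ⟨K1, hK1P, hK1⟩ := QLT.fin_bound hCX one_pos KP 0 (KT + KS + 6)
  refine ⟨KP0 + 2 * KT + Kκ + 5, K1, ?_⟩
  intro D W G v κ θ n hSc C0 s t cs ct hcs hct N eps heps hN b bt hb hbt
  have hD := hSc.D2
  have hW := hSc.W2
  have hD0 : (0 : ℝ) < D := by linarith
  have hD1 : (1 : ℝ) ≤ D := by linarith
  have hW0 : (0 : ℝ) < W := by linarith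
  have hW1 : (1 : ℝ) ≤ W := by linarith
  have hDW1 : (1 : ℝ) ≤ D * W := by nlinarith
  have hρ := G.rho_pos
  have hG := hSc.tw.cls
  have hκ0 : 0 < κ := lt_of_lt_of_le (inv_pos.2 hD0) hSc.tw.var_ge
  set K : ℕ := KP0 + 2 * KT + Kκ + 5 with hK
  -- the size of `n`
  have hbig := hSc.big
  have hDWn : (D * W) ^ 2 ≤ n := (pow_le_pow_right₀ hDW1 (by omega)).trans hbig
  have hn2W : 2 * W ≤ n := by nlinarith
  have hn1' : (1 : ℝ) ≤ n := by linarith
  have hn1 : 1 ≤ n := by exact_mod_cast hn1'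
  have hn0 : (0 : ℝ) < n := by linarith
  -- the size of `θ`
  have hth := hSc.th
  have hth0 : 0 ≤ θ ^ 2 * n := by positivity
  have hγ0 : 0 ≤ κ * θ ^ 2 * n := by positivity
  have hγW : κ * θ ^ 2 * n ≤ W := by
    have e1 : κ ≤ D ^ K := (hκ' D G v κ hD hSc.tw).trans (pow_le_pow_right₀ hD1 (by omega))
    calc κ * θ ^ 2 * n = κ * (θ ^ 2 * n) := by ring
      _ ≤ D ^ K * (θ ^ 2 * n) := mul_le_mul_of_nonneg_right e1 hth0
      _ = θ ^ 2 * n * D ^ K := by ring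
      _ ≤ W := hth
  have hθT : |θ| * D ^ KT ≤ 1 := by
    have e1 : W * D ^ (2 * KT) ≤ n * D ^ K := by
      have g1 : W ≤ n := by linarith
      have g2 : D ^ (2 * KT) ≤ D ^ K := pow_le_pow_right₀ hD1 (by omega)
      exact mul_le_mul g1 g2 (by positivity) hn0.le
    have e2 : (|θ| * D ^ KT) ^ 2 ≤ 1 := by
      have g3 : (|θ| * D ^ KT) ^ 2 * (n * D ^ K) ≤ 1 * (n * D ^ K) := by
        calc (|θ| * D ^ KT) ^ 2 * (n * D ^ K) = |θ| ^ 2 * n * D ^ K * D ^ (2 * KT) := by ring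
          _ = θ ^ 2 * n * D ^ K * D ^ (2 * KT) := by rw [sq_abs]
          _ ≤ W * D ^ (2 * KT) := mul_le_mul_of_nonneg_right hth (by positivity)
          _ ≤ n * D ^ K := e1
          _ = _ := (one_mul _).symm
      exact le_of_mul_le_mul_right g3 (by positivity)
    have e3 : 0 ≤ |θ| * D ^ KT := by positivity
    nlinarith
  have hScP : ScT KP0 D W G v κ θ n :=
    { D2 := hSc.D2
      W2 := hSc.W2
      tw := hSc.tw
      big := (pow_le_pow_right₀ hDW1 (by omega)).trans hbig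
      th := by
        refine le_trans ?_ hth
        exact mul_le_mul_of_nonneg_left (pow_le_pow_right₀ hD1 (by omega)) hth0 }
  -- the arrays
  have hbt_le := arr_le (fun i => (norm_ph θ v i).le) hcs.le hb hbt
  have ha_le := close_le (C0 := C0) hct.le hbt_le
  have hsum0 : ∀ z : ℂ, ‖z‖ < G.rho → ∀ j, Summable fun m : ℕ =>
      ‖((m : ℂ)) ^ j * ((close C0 t b m : ℝ) : ℂ) * z ^ m‖ := fun z hz =>
    (hS D G hD hG C0 s t hcs.cap hct.cap N eps heps hN b hb z hz).1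
  have hρD : D⁻¹ ≤ G.rho := hG.rho_ge
  have hρD' : 1 ≤ D * G.rho := by
    have := mul_le_mul_of_nonneg_left hρD hD0.le
    rwa [mul_inv_cancel₀ hD0.ne'] at this
  -- the imaginary part and the distance to the critical point
  have hdist : ∀ w : ℂ, w.re ≤ n → |w.im| ≤ Real.pi * n →
      |w.im| / n ≤ 3 * D * ‖(G.rho : ℂ) - zn G.rho w n‖ := by
    intro w hw1 hw2
    have e1 := norm_rho_sub_ge hρ hn1 hw1 hw2
    have e2 : 0 ≤ |w.im| / n := by positivity
    have e3 : 3 * D * (G.rho * (|w.im| / n) / 3) ≤ 3 * D * ‖(G.rho : ℂ) - zn G.rho w n‖ :=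
      mul_le_mul_of_nonneg_left e1 (by positivity)
    have e4 : 1 * (|w.im| / n) ≤ (D * G.rho) * (|w.im| / n) :=
      mul_le_mul_of_nonneg_right hρD' e2
    calc |w.im| / n = 1 * (|w.im| / n) := (one_mul _).symm
      _ ≤ (D * G.rho) * (|w.im| / n) := e4
      _ = 3 * D * (G.rho * (|w.im| / n) / 3) := by ring
      _ ≤ _ := e3
  have hM0 : D ^ KT ≤ D ^ (KT + KS) := pow_le_pow_right₀ hD1 (by omega)
  have hM1 : D ^ KS ≤ D ^ (KT + KS) := pow_le_pow_right₀ hD1 (by omega)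
  have h3D : 3 * D ≤ D ^ 3 := by
    have e1 : (3 : ℝ) ≤ D ^ 2 := by nlinarith
    calc 3 * D ≤ D ^ 2 * D := mul_le_mul_of_nonneg_right e1 hD0.le
      _ = D ^ 3 := by ring
  have hbd1 : ∀ B : ℝ, 0 ≤ B → B ≤ D ^ (KT + KS) → 3 * D * B ≤ D ^ (KT + KS + 6) := by
    intro B hB0 hB
    calc 3 * D * B ≤ D ^ 3 * D ^ (KT + KS) := mul_le_mul h3D hB hB0 (by positivity)
      _ = D ^ (KT + KS + 3) := by ring
      _ ≤ _ := pow_le_pow_right₀ hD1 (by omega)
  have hbd2 : ∀ B : ℝ, 0 ≤ B → B ≤ D ^ (KT + KS) → 3 * D * (3 * D * B) ≤ D ^ (KT + KS + 6) := by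
    intro B hB0 hB
    calc 3 * D * (3 * D * B) ≤ D ^ 3 * (D ^ 3 * D ^ (KT + KS)) :=
          mul_le_mul h3D (mul_le_mul h3D hB hB0 (by positivity)) (by positivity) (by positivity)
      _ = _ := by ring
  have hq := qn_pos n hn1
  have hqs : qn n * qn n = Real.sqrt n := by rw [← qn_sq n]; ring
  have key := hX G.rho (κ * θ ^ 2 * n) (D ^ (KT + KS + 6)) ((D * W) ^ KP / qn n) (W / 2) n
    (closec C0 ct bt) (fun m => ((close C0 t b m : ℝ) : ℂ)) hρ hγ0 (by positivity)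
    (by positivity) (by linarith) (by linarith)
    (fun z hz j => summ ha_le (hsum0 z hz j))
    (fun z hz j => hsum0 z hz j)
    (by
      intro w hw hwY hwn
      have hre1 : w.re ≤ n := by rw [hw]; exact hn1'
      set w' : ℂ := w + ((κ * θ ^ 2 * n : ℝ) : ℂ) with hw'
      have him' : w'.im = w.im := by
        rw [hw', Complex.add_im, Complex.ofReal_im, add_zero]
      have hre' : w'.re = 1 + κ * θ ^ 2 * n := by
        rw [hw', Complex.add_re, Complex.ofReal_re, hw]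
      have d1 := hdist w hre1 hwn
      have d2 := hdist w' (by rw [hre']; linarith) (by rw [him']; exact hwn)
      rw [him'] at d2
      have z1 : ‖zn G.rho w n‖ < G.rho := norm_zn_lt hρ (by rw [hw]; norm_num) hn1
      have z2 : ‖zn G.rho w' n‖ < G.rho := norm_zn_lt hρ (by rw [hre']; linarith) hn1
      have hθδ : θ ^ 2 ≤ ‖(G.rho : ℂ) - zn G.rho w n‖ := by
        -- `θ² n D^4 ≤ W ≤ 2 |Im w| ≤ 6 D n δ`
        have g1 : θ ^ 2 * n * (6 * D) ≤ W := by
          refine le_trans (mul_le_mul_of_nonneg_left ?_ hth0) hth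
          have g2 : 6 * D ≤ D ^ 4 := by
            have g3 : (6 : ℝ) ≤ D ^ 3 := by
              have : (2 : ℝ) ^ 3 ≤ D ^ 3 := pow_le_pow_left₀ (by norm_num) hD 3
              linarith
            calc 6 * D ≤ D ^ 3 * D := mul_le_mul_of_nonneg_right g3 hD0.le
              _ = D ^ 4 := by ring
          exact g2.trans (pow_le_pow_right₀ hD1 (by omega))
        have g4 : W / 2 / n ≤ 3 * D * ‖(G.rho : ℂ) - zn G.rho w n‖ :=
          (div_le_div_of_nonneg_right hwY hn0.le).trans d1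
        rw [div_le_iff₀ hn0] at g4
        have g5 : θ ^ 2 * (6 * D * n) ≤ ‖(G.rho : ℂ) - zn G.rho w n‖ * (6 * D * n) := by
          nlinarith
        exact le_of_mul_le_mul_right g5 (by positivity)
      obtain ⟨t1, t2⟩ := hT D G v κ θ hD hSc.tw hθT C0 s t cs ct hcs hct N eps heps hN bt hbt
        (zn G.rho w n) z1 hθδ
      obtain ⟨-, t3, t4⟩ := hS D G hD hG C0 s t hcs.cap hct.cap N eps heps hN b hb
        (zn G.rho w' n) z2
      refine ⟨?_, ?_, ?_, ?_⟩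
      · exact (conv1 hD (norm_nonneg _) d1 t1).trans
          (hbd1 _ (by positivity) hM0)
      · exact (conv2 hD (norm_nonneg _) d1 t2 (norm_nonneg _)).trans
          (hbd2 _ (by positivity) hM0)
      · exact (conv1 hD (norm_nonneg _) d2 t3).trans
          (hbd1 _ (by positivity) hM1)
      · exact (conv2 hD (norm_nonneg _) d2 t4 (norm_nonneg _)).trans
          (hbd2 _ (by positivity) hM1))
    (by
      intro w hw hwY
      have hwW : ‖w‖ ≤ W := by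
        refine (Complex.norm_le_abs_re_add_abs_im w).trans ?_
        rw [hw, abs_one]
        linarith
      refine (hP D W G v κ θ n hScP C0 s t cs ct hcs hct N eps heps hN b bt hb hbt w hw
        hwW).trans (le_of_eq ?_)
      rw [← hqs]
      field_simp)
  refine key.trans ?_
  have fin := hK1 D W 0 0 (qn n) hD hW hq le_rfl (by positivity) le_rfl (by positivity)
  refine le_trans ?_ fin
  have hfin2 : D ^ (KT + KS + 6) ≤ D ^ (KT + KS + 6 + 2) := pow_le_pow_right₀ hD1 (by omega)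
  have hsW : 0 < Real.sqrt (W / 2) := Real.sqrt_pos.2 (by linarith)
  rw [zero_mul, zero_mul, add_zero]
  gcongr

end Pool.Agent.PFS
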