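import Pool.Agent.PFS.StmtsA

set_option autoImplicit false

open Finset Filter Topology

namespace Pool.Agent.PFS

open Pool.Agent.Gap Pool.Agent.FL Pool.Agent.EXW

namespace TMSx

theorem norm_exp_le_one {x : ℂ} (hx : x.re ≤ 0) : ‖Complex.exp x‖ ≤ 1 := by
  rw [Complex.norm_exp]
  exact Real.exp_le_one_iff.2 hx

theorem exp1 {x : ℂ} (hx : x.re ≤ 0) : ‖Complex.exp x - 1‖ ≤ 2 * ‖x‖ := by
  rcases le_or_gt ‖x‖ 1 with h | h
  · exact Complex.norm_exp_sub_one_le h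
  · have h1 := norm_exp_le_one hx
    have h2 := norm_sub_le (Complex.exp x) 1
    rw [norm_one] at h2
    linarith

theorem exp2 {x : ℂ} (hx : x.re ≤ 0) : ‖Complex.exp x - 1 - x‖ ≤ 3 * ‖x‖ ^ 2 := by
  have h0 := norm_nonneg x
  rcases le_or_gt ‖x‖ 1 with h | h
  · have := Complex.norm_exp_sub_one_sub_id_le h
    nlinarith [sq_nonneg ‖x‖]
  · have h1 := norm_exp_le_one hx
    have h2 := norm_sub_le (Complex.exp x) 1
    have h3 := norm_sub_le (Complex.exp x - 1) x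
    rw [norm_one] at h2
    nlinarith

theorem exp3 {x : ℂ} (hx : x.re ≤ 0) : ‖Complex.exp x - 1 - x - x ^ 2 / 2‖ ≤ 4 * ‖x‖ ^ 3 := by
  have h0 := norm_nonneg x
  rcases le_or_gt ‖x‖ 1 with h | h
  · have h1 := Complex.exp_bound h (n := 3) (by norm_num)
    have h2 : Complex.exp x - ∑ m ∈ range 3, x ^ m / (m.factorial : ℂ) =
        Complex.exp x - 1 - x - x ^ 2 / 2 := by
      simp [Finset.sum_range_succ, Nat.factorial]
      ring
    rw [h2] at h1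
    refine h1.trans ?_
    have h3 : 0 ≤ ‖x‖ ^ 3 := by positivity
    have h4 : (((3 : ℕ).succ : ℝ) * (((3 : ℕ).factorial : ℝ) * ((3 : ℕ) : ℝ))⁻¹) ≤ 4 := by
      norm_num [Nat.factorial]
    rw [mul_comm 4]
    exact mul_le_mul_of_nonneg_left h4 h3
  · have h1 := norm_exp_le_one hx
    have h2 := norm_sub_le (Complex.exp x) 1
    have h3 := norm_sub_le (Complex.exp x - 1) x
    have h4 := norm_sub_le (Complex.exp x - 1 - x) (x ^ 2 / 2)
    rw [norm_one] at h2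
    have h5 : ‖x ^ 2 / 2‖ = ‖x‖ ^ 2 / 2 := by
      rw [norm_div, norm_pow]
      simp
    rw [h5] at h4
    have h6 : 1 ≤ ‖x‖ ^ 3 := one_le_pow₀ h.le
    have h7 : ‖x‖ ≤ ‖x‖ ^ 3 := le_self_pow₀ h.le (by norm_num)
    have h8 : ‖x‖ ^ 2 ≤ ‖x‖ ^ 3 := pow_le_pow_right₀ h.le (by norm_num)
    linarith

/-- the probability -/
noncomputable def q (G : GapKernel) (i : ℕ × ℕ) : ℝ := G.rho ^ i.1 * G.tot i

theorem q_nonneg (G : GapKernel) (i : ℕ × ℕ) : 0 ≤ q G i := GSum.rt_nonneg G i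

theorem sum_q (G : GapKernel) : ∑ i ∈ G.S, q G i = 1 := GSum.crit' G

theorem mbar_eq (G : GapKernel) : G.mbar = ∑ i ∈ G.S, q G i * i.1 := by
  unfold GapKernel.mbar q
  exact Finset.sum_congr rfl fun i _ => by ring

theorem hbar_eq (G : GapKernel) : G.hbar = ∑ i ∈ G.S, q G i * i.2 := by
  unfold GapKernel.hbar q
  exact Finset.sum_congr rfl fun i _ => by ring

theorem one_le_mbar (G : GapKernel) : 1 ≤ G.mbar := by
  rw [mbar_eq, ← sum_q G]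
  refine Finset.sum_le_sum fun i hi => ?_
  have h1 : (1 : ℝ) ≤ i.1 := by exact_mod_cast (G.pos_mem i hi).1
  nlinarith [q_nonneg G i]

section

variable {D v κ : ℝ} {G : GapKernel} (hT : TwP D G v κ)

include hT

theorem sum_qd : ∑ i ∈ G.S, q G i * ((i.2 : ℝ) - v * i.1) = 0 := by
  have h1 := hT.v_eq
  rw [hbar_eq, mbar_eq, Finset.mul_sum] at h1
  rw [← sub_eq_zero.2 h1, ← Finset.sum_sub_distrib]
  exact Finset.sum_congr rfl fun i _ => by ring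

theorem v_nonneg : 0 ≤ v := by
  have h1 := one_le_mbar G
  have h2 : 0 ≤ G.hbar := by
    rw [hbar_eq]
    exact Finset.sum_nonneg fun i _ => mul_nonneg (q_nonneg G i) (by positivity)
  rw [hT.v_eq] at h2
  by_contra h
  push Not at h
  nlinarith

theorem v_le : v ≤ 1 := by
  have h1 := one_le_mbar G
  have h2 : G.hbar ≤ G.mbar := by
    rw [hbar_eq, mbar_eq]
    refine Finset.sum_le_sum fun i hi => ?_
    have h3 : (i.2 : ℝ) ≤ i.1 := by exact_mod_cast hT.cls.loc.h_le i hi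
    exact mul_le_mul_of_nonneg_left h3 (q_nonneg G i)
  rw [hT.v_eq] at h2
  by_contra h
  push Not at h
  nlinarith

theorem abs_d_le {i : ℕ × ℕ} (hi : i ∈ G.S) : |(i.2 : ℝ) - v * i.1| ≤ i.1 := by
  have h1 : (i.2 : ℝ) ≤ i.1 := by exact_mod_cast hT.cls.loc.h_le i hi
  have h2 : (0 : ℝ) ≤ i.2 := by positivity
  have h3 : (0 : ℝ) ≤ i.1 := by positivity
  have h4 := v_nonneg hT
  have h5 := v_le hT
  rw [abs_le]
  constructor
  · nlinarith
  · nlinarith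

theorem sum_qdd : ∑ i ∈ G.S, q G i * ((i.2 : ℝ) - v * i.1) ^ 2 = 2 * κ * G.mbar := hT.var

theorem kappa_le (hD : 2 ≤ D) : κ ≤ ∑ i ∈ G.S, (i.1 : ℝ) ^ 2 * (G.rho ^ i.1 * G.tot i) := by
  have h1 := sum_qdd hT
  have h2 := one_le_mbar G
  have h3 : 0 < κ := lt_of_lt_of_le (inv_pos.2 (by linarith)) hT.var_ge
  have h4 : ∑ i ∈ G.S, q G i * ((i.2 : ℝ) - v * i.1) ^ 2 ≤
      ∑ i ∈ G.S, (i.1 : ℝ) ^ 2 * (G.rho ^ i.1 * G.tot i) := by
    refine Finset.sum_le_sum fun i hi => ?_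
    have h5 := abs_d_le hT hi
    have h6 : ((i.2 : ℝ) - v * i.1) ^ 2 ≤ (i.1 : ℝ) ^ 2 := by
      rw [← sq_abs]
      exact pow_le_pow_left₀ (abs_nonneg _) h5 2
    have h7 := q_nonneg G i
    show q G i * _ ≤ _ * q G i
    nlinarith
  nlinarith

end

theorem pow_sub_one_le {ζ : ℂ} (h : ‖ζ‖ ≤ 1) (m : ℕ) : ‖ζ ^ m - 1‖ ≤ m * ‖ζ - 1‖ := by
  induction m with
  | zero => simp
  | succ m ih =>
    have h1 : ζ ^ (m + 1) - 1 = ζ ^ m * (ζ - 1) + (ζ ^ m - 1) := by ring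
    have h2 : ‖ζ ^ m‖ ≤ 1 := by
      rw [norm_pow]
      exact pow_le_one₀ (norm_nonneg _) h
    rw [h1]
    refine (norm_add_le _ _).trans ?_
    rw [norm_mul]
    have h3 := norm_nonneg (ζ - 1)
    push_cast
    nlinarith

theorem part1 : ∃ K : ℕ, ∀ (D : ℝ) (G : GapKernel) (v κ θ : ℝ), 2 ≤ D → TwP D G v κ → ∀ z : ℂ,
    ‖z‖ ≤ G.rho → ‖∑ i ∈ G.S, (z ^ i.1 * ph θ v i - z ^ i.1) * (G.tot i : ℂ)‖ ≤
      D ^ K * (θ ^ 2 + |θ| * ‖(G.rho : ℂ) - z‖) := by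
  obtain ⟨K2, hK2⟩ := sum_pow 2
  refine ⟨K2 + 2, ?_⟩
  intro D G v κ θ hD hT z hz
  have hρ := G.rho_pos
  have hρC : (G.rho : ℂ) ≠ 0 := by exact_mod_cast hρ.ne'
  have hM := hK2 D hD G hT.cls
  set M2 : ℝ := ∑ i ∈ G.S, (i.1 : ℝ) ^ 2 * (G.rho ^ i.1 * G.tot i) with hM2
  have hM0 : 0 ≤ M2 := Finset.sum_nonneg fun i _ =>
    mul_nonneg (by positivity) (GSum.rt_nonneg G i)
  set ζ : ℂ := z / G.rho with hζ
  have hζ1 : ‖ζ‖ ≤ 1 := by
    rw [hζ, norm_div, Complex.norm_real, Real.norm_of_nonneg hρ.le]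
    exact (div_le_one hρ).2 hz
  have hζd : ‖ζ - 1‖ ≤ D * ‖(G.rho : ℂ) - z‖ := by
    have h1 : ζ - 1 = (z - G.rho) / G.rho := by
      rw [hζ]
      field_simp
    have h2 : (G.rho)⁻¹ ≤ D := by
      have := inv_anti₀ (inv_pos.2 (by linarith : (0 : ℝ) < D)) hT.cls.rho_ge
      rwa [inv_inv] at this
    rw [h1, norm_div, Complex.norm_real, Real.norm_of_nonneg hρ.le, div_eq_inv_mul,
      norm_sub_rev]
    exact mul_le_mul_of_nonneg_right h2 (norm_nonneg _)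
  have hterm : ∀ i ∈ G.S, (z ^ i.1 * ph θ v i - z ^ i.1) * (G.tot i : ℂ) =
      (q G i : ℂ) * (ph θ v i - 1 - ((θ * ((i.2 : ℝ) - v * i.1) : ℝ) : ℂ) * Complex.I) +
      (q G i : ℂ) * ((ζ ^ i.1 - 1) * (ph θ v i - 1)) +
      Complex.I * θ * ((q G i * ((i.2 : ℝ) - v * i.1) : ℝ) : ℂ) := by
    intro i _
    have h1 : z ^ i.1 = (G.rho : ℂ) ^ i.1 * ζ ^ i.1 := by
      rw [hζ, div_pow, mul_div_cancel₀ _ (pow_ne_zero _ hρC)]
    rw [h1]
    unfold q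
    push_cast
    ring
  rw [Finset.sum_congr rfl hterm, Finset.sum_add_distrib, Finset.sum_add_distrib]
  have h0 : ∑ i ∈ G.S, Complex.I * θ * ((q G i * ((i.2 : ℝ) - v * i.1) : ℝ) : ℂ) = 0 := by
    rw [← Finset.mul_sum, ← Complex.ofReal_sum, sum_qd hT]
    simp
  rw [h0, add_zero]
  have hre : ∀ i : ℕ × ℕ, (((θ * ((i.2 : ℝ) - v * i.1) : ℝ) : ℂ) * Complex.I).re ≤ 0 := by
    intro i
    simp
  have hnx : ∀ i ∈ G.S, ‖((θ * ((i.2 : ℝ) - v * i.1) : ℝ) : ℂ) * Complex.I‖ ≤ |θ| * i.1 := by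
    intro i hi
    rw [norm_mul, Complex.norm_I, mul_one, Complex.norm_real, Real.norm_eq_abs, abs_mul]
    exact mul_le_mul_of_nonneg_left (abs_d_le hT hi) (abs_nonneg _)
  have hA : ‖∑ i ∈ G.S, (q G i : ℂ) *
      (ph θ v i - 1 - ((θ * ((i.2 : ℝ) - v * i.1) : ℝ) : ℂ) * Complex.I)‖ ≤ 3 * θ ^ 2 * M2 := by
    refine (norm_sum_le _ _).trans ?_
    rw [hM2, Finset.mul_sum]
    refine Finset.sum_le_sum fun i hi => ?_
    rw [norm_mul, Complex.norm_real, Real.norm_of_nonneg (q_nonneg G i)]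
    have h1 := exp2 (hre i)
    have h2 := hnx i hi
    have h3 : ‖((θ * ((i.2 : ℝ) - v * i.1) : ℝ) : ℂ) * Complex.I‖ ^ 2 ≤ (|θ| * i.1) ^ 2 :=
      pow_le_pow_left₀ (norm_nonneg _) h2 2
    have h4 : (|θ| * (i.1 : ℝ)) ^ 2 = θ ^ 2 * (i.1 : ℝ) ^ 2 := by rw [mul_pow, sq_abs]
    rw [h4] at h3
    have h5 : ‖ph θ v i - 1 - ((θ * ((i.2 : ℝ) - v * i.1) : ℝ) : ℂ) * Complex.I‖ ≤
        3 * (θ ^ 2 * (i.1 : ℝ) ^ 2) := h1.trans (by linarith)
    calc q G i * _ ≤ q G i * (3 * (θ ^ 2 * (i.1 : ℝ) ^ 2)) :=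
          mul_le_mul_of_nonneg_left h5 (q_nonneg G i)
      _ = 3 * θ ^ 2 * ((i.1 : ℝ) ^ 2 * (G.rho ^ i.1 * G.tot i)) := by
          unfold q
          ring
  have hB : ‖∑ i ∈ G.S, (q G i : ℂ) * ((ζ ^ i.1 - 1) * (ph θ v i - 1))‖ ≤
      2 * (D * ‖(G.rho : ℂ) - z‖) * |θ| * M2 := by
    refine (norm_sum_le _ _).trans ?_
    rw [hM2, Finset.mul_sum]
    refine Finset.sum_le_sum fun i hi => ?_
    rw [norm_mul, norm_mul, Complex.norm_real, Real.norm_of_nonneg (q_nonneg G i)]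
    have h1 : ‖ph θ v i - 1‖ ≤ 2 * (|θ| * i.1) := (exp1 (hre i)).trans (by
      have := hnx i hi
      linarith)
    have h2 : ‖ζ ^ i.1 - 1‖ ≤ i.1 * (D * ‖(G.rho : ℂ) - z‖) :=
      (pow_sub_one_le hζ1 i.1).trans (mul_le_mul_of_nonneg_left hζd (by positivity))
    have h3 : ‖ζ ^ i.1 - 1‖ * ‖ph θ v i - 1‖ ≤
        (i.1 * (D * ‖(G.rho : ℂ) - z‖)) * (2 * (|θ| * i.1)) :=
      mul_le_mul h2 h1 (norm_nonneg _) (by positivity)
    calc q G i * _ ≤ q G i * ((i.1 * (D * ‖(G.rho : ℂ) - z‖)) * (2 * (|θ| * i.1))) :=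
          mul_le_mul_of_nonneg_left h3 (q_nonneg G i)
      _ = 2 * (D * ‖(G.rho : ℂ) - z‖) * |θ| * ((i.1 : ℝ) ^ 2 * (G.rho ^ i.1 * G.tot i)) := by
          unfold q
          ring
  refine (norm_add_le _ _).trans ((add_le_add hA hB).trans ?_)
  have hr := norm_nonneg ((G.rho : ℂ) - z)
  have hθ := abs_nonneg θ
  have hX : 0 ≤ θ ^ 2 := sq_nonneg θ
  have hY : 0 ≤ |θ| * ‖(G.rho : ℂ) - z‖ := mul_nonneg hθ hr
  have h3D : (3 : ℝ) ≤ D ^ 2 := by nlinarith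
  have h2D : 2 * D ≤ D ^ 2 := by nlinarith
  have hc : 3 * M2 ≤ D ^ (K2 + 2) := by
    rw [pow_add, mul_comm (D ^ K2)]
    exact mul_le_mul h3D hM hM0 (by positivity)
  have hd : 2 * D * M2 ≤ D ^ (K2 + 2) := by
    rw [pow_add, mul_comm (D ^ K2)]
    exact mul_le_mul h2D hM hM0 (by positivity)
  calc 3 * θ ^ 2 * M2 + 2 * (D * ‖(G.rho : ℂ) - z‖) * |θ| * M2
      = (3 * M2) * θ ^ 2 + (2 * D * M2) * (|θ| * ‖(G.rho : ℂ) - z‖) := by ring
    _ ≤ D ^ (K2 + 2) * θ ^ 2 + D ^ (K2 + 2) * (|θ| * ‖(G.rho : ℂ) - z‖) :=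
        add_le_add (mul_le_mul_of_nonneg_right hc hX) (mul_le_mul_of_nonneg_right hd hY)
    _ = _ := by ring

theorem core {D v κ θ : ℝ} {G : GapKernel} (hT : TwP D G v κ) {n : ℕ} (hn : 0 < n) (w : ℂ) :
    ∑ i ∈ G.S, (q G i : ℂ) * ((-(w * i.1 / n) + ((θ * ((i.2 : ℝ) - v * i.1) : ℝ) : ℂ) * Complex.I) -
      (-((w + ((κ * θ ^ 2 * n : ℝ) : ℂ)) * i.1 / n)) +
      (-(w * i.1 / n) + ((θ * ((i.2 : ℝ) - v * i.1) : ℝ) : ℂ) * Complex.I) ^ 2 / 2) =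
    w ^ 2 / (2 * n ^ 2) * ((∑ i ∈ G.S, (i.1 : ℝ) ^ 2 * (G.rho ^ i.1 * G.tot i) : ℝ) : ℂ) -
      Complex.I * (w * θ / n) *
        ((∑ i ∈ G.S, q G i * (i.1 * ((i.2 : ℝ) - v * i.1)) : ℝ) : ℂ) := by
  have hn' : (n : ℂ) ≠ 0 := by exact_mod_cast hn.ne'
  have h1 : ∀ i ∈ G.S, (q G i : ℂ) * ((-(w * i.1 / n) +
      ((θ * ((i.2 : ℝ) - v * i.1) : ℝ) : ℂ) * Complex.I) -
      (-((w + ((κ * θ ^ 2 * n : ℝ) : ℂ)) * i.1 / n)) +
      (-(w * i.1 / n) + ((θ * ((i.2 : ℝ) - v * i.1) : ℝ) : ℂ) * Complex.I) ^ 2 / 2) =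
      (κ * θ ^ 2 : ℂ) * ((q G i * i.1 : ℝ) : ℂ) +
      (θ * Complex.I) * ((q G i * ((i.2 : ℝ) - v * i.1) : ℝ) : ℂ) +
      w ^ 2 / (2 * n ^ 2) * (((i.1 : ℝ) ^ 2 * (G.rho ^ i.1 * G.tot i) : ℝ) : ℂ) -
      Complex.I * (w * θ / n) * ((q G i * (i.1 * ((i.2 : ℝ) - v * i.1)) : ℝ) : ℂ) -
      (θ ^ 2 / 2 : ℂ) * ((q G i * ((i.2 : ℝ) - v * i.1) ^ 2 : ℝ) : ℂ) := by
    intro i _
    have hq : (((i.1 : ℝ) ^ 2 * (G.rho ^ i.1 * G.tot i) : ℝ) : ℂ) =
        (i.1 : ℂ) ^ 2 * (q G i : ℂ) := by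
      unfold q
      push_cast
      ring
    rw [hq]
    have hI : Complex.I ^ 2 = -1 := Complex.I_sq
    push_cast
    field_simp
    ring_nf
    rw [hI]
    ring
  rw [Finset.sum_congr rfl h1, Finset.sum_sub_distrib, Finset.sum_sub_distrib,
    Finset.sum_add_distrib, Finset.sum_add_distrib, ← Finset.mul_sum, ← Finset.mul_sum,
    ← Finset.mul_sum, ← Finset.mul_sum, ← Finset.mul_sum, ← Complex.ofReal_sum,
    ← Complex.ofReal_sum, ← Complex.ofReal_sum, ← Complex.ofReal_sum, ← Complex.ofReal_sum,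
    sum_qd hT, sum_qdd hT, ← mbar_eq]
  push_cast
  ring

end TMSx

open TMSx in
theorem t_TMS : TMS_Stmt := by
  refine ⟨part1, ?_⟩
  obtain ⟨K2, hK2⟩ := sum_pow 2
  obtain ⟨K3, hK3⟩ := sum_pow 3
  refine ⟨1, 3 * K2 + K3 + 20, ?_⟩
  intro D W G v κ θ n hS w hw1 hwW
  have hD := hS.D2
  have hW := hS.W2
  have hT := hS.tw
  have hρ := G.rho_pos
  have hκ : 0 < κ := lt_of_lt_of_le (inv_pos.2 (by linarith)) hT.var_ge
  have hM := hK2 D hD G hT.cls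
  have hM3' := hK3 D hD G hT.cls
  have hκM := kappa_le hT hD
  set M2 : ℝ := ∑ i ∈ G.S, (i.1 : ℝ) ^ 2 * (G.rho ^ i.1 * G.tot i) with hM2
  set M3 : ℝ := ∑ i ∈ G.S, (i.1 : ℝ) ^ 3 * (G.rho ^ i.1 * G.tot i) with hM3
  have hM0 : 0 ≤ M2 := Finset.sum_nonneg fun i _ =>
    mul_nonneg (by positivity) (GSum.rt_nonneg G i)
  have hM30 : 0 ≤ M3 := Finset.sum_nonneg fun i _ =>
    mul_nonneg (by positivity) (GSum.rt_nonneg G i)
  have hnr : (1 : ℝ) ≤ n := by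
    have := hS.big
    rw [pow_one] at this
    nlinarith
  have hn : 0 < n := by exact_mod_cast (by linarith : (0 : ℝ) < n)
  have hn0 : (0 : ℝ) < n := by linarith
  have hnC : (n : ℂ) ≠ 0 := by exact_mod_cast hn.ne'
  set s : ℝ := Real.sqrt n with hs
  have hs1 : 1 ≤ s := Real.one_le_sqrt.2 hnr
  have hss : s * s = n := Real.mul_self_sqrt hn0.le
  have hθn : θ ^ 2 * n ≤ W := by
    have := hS.th
    rw [pow_one] at this
    have h1 : 0 ≤ θ ^ 2 * n := by positivity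
    nlinarith
  have hθs : |θ| * s ≤ W := by
    have h1 : (|θ| * s) ^ 2 ≤ W ^ 2 := by
      have h2 : (|θ| * s) ^ 2 = θ ^ 2 * n := by
        rw [mul_pow, sq_abs, ← hss]
        ring
      rw [h2]
      nlinarith
    exact le_of_sq_le_sq h1 (by linarith)
  set γ : ℝ := κ * θ ^ 2 * n with hγ
  have hγ0 : 0 ≤ γ := by positivity
  have hγle : γ ≤ M2 * W := by
    have h1 : 0 ≤ θ ^ 2 * n := by positivity
    calc γ = κ * (θ ^ 2 * n) := by rw [hγ]; ring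
      _ ≤ M2 * W := mul_le_mul hκM hθn h1 hM0
  let x : ℕ × ℕ → ℂ := fun i =>
    -(w * i.1 / n) + ((θ * ((i.2 : ℝ) - v * i.1) : ℝ) : ℂ) * Complex.I
  let x' : ℕ × ℕ → ℂ := fun i => -((w + (γ : ℂ)) * i.1 / n)
  have hxdef : ∀ i, x i = -(w * i.1 / n) + ((θ * ((i.2 : ℝ) - v * i.1) : ℝ) : ℂ) * Complex.I :=
    fun i => rfl
  have hx'def : ∀ i, x' i = -((w + (γ : ℂ)) * i.1 / n) := fun i => rfl
  have hxre : ∀ i, (x i).re ≤ 0 := by
    intro i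
    have h1 : (w * i.1 / n).re = w.re * i.1 / n := by
      have : w * i.1 / n = w * ((i.1 / n : ℝ) : ℂ) := by
        push_cast
        ring
      rw [this, Complex.re_mul_ofReal]
      ring
    have h2 : (x i).re = -(w.re * i.1 / n) := by
      rw [hxdef, Complex.add_re, Complex.neg_re, h1]
      simp
    rw [h2, hw1]
    have : (0 : ℝ) ≤ 1 * i.1 / n := by positivity
    linarith
  have hx're : ∀ i, (x' i).re ≤ 0 := by
    intro i
    have h1 : ((w + (γ : ℂ)) * i.1 / n).re = (w.re + γ) * i.1 / n := by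
      have : (w + (γ : ℂ)) * i.1 / n = (w + (γ : ℂ)) * ((i.1 / n : ℝ) : ℂ) := by
        push_cast
        ring
      rw [this, Complex.re_mul_ofReal, Complex.add_re, Complex.ofReal_re]
      ring
    have h2 : (x' i).re = -((w.re + γ) * i.1 / n) := by
      rw [hx'def, Complex.neg_re, h1]
    rw [h2, hw1]
    have : (0 : ℝ) ≤ (1 + γ) * i.1 / n := by positivity
    linarith
  have hnx : ∀ i ∈ G.S, ‖x i‖ ≤ (W / n + |θ|) * i.1 := by
    intro i hi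
    rw [hxdef]
    refine (norm_add_le _ _).trans ?_
    rw [norm_neg, norm_div, norm_mul, Complex.norm_natCast, Complex.norm_natCast, norm_mul,
      Complex.norm_I, mul_one, Complex.norm_real, Real.norm_eq_abs, abs_mul]
    have h1 := mul_le_mul_of_nonneg_left (abs_d_le hT hi) (abs_nonneg θ)
    have h2 : ‖w‖ * (i.1 : ℝ) / n ≤ W * i.1 / n := by gcongr
    calc ‖w‖ * (i.1 : ℝ) / n + |θ| * |(i.2 : ℝ) - v * i.1| ≤ W * i.1 / n + |θ| * i.1 :=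
          add_le_add h2 h1
      _ = _ := by ring
  have hnx' : ∀ i : ℕ × ℕ, ‖x' i‖ ≤ (W + γ) / n * i.1 := by
    intro i
    rw [hx'def, norm_neg, norm_div, norm_mul, Complex.norm_natCast, Complex.norm_natCast]
    have h1 : ‖w + (γ : ℂ)‖ ≤ W + γ := by
      refine (norm_add_le _ _).trans ?_
      rw [Complex.norm_real, Real.norm_of_nonneg hγ0]
      linarith
    calc ‖w + (γ : ℂ)‖ * (i.1 : ℝ) / n ≤ (W + γ) * i.1 / n := by gcongr
      _ = _ := by ring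
  have hterm : ∀ i ∈ G.S, ((zn G.rho w n) ^ i.1 * ph θ v i -
        (zn G.rho (w + ((κ * θ ^ 2 * n : ℝ) : ℂ)) n) ^ i.1) * (G.tot i : ℂ) =
      (q G i : ℂ) * (Complex.exp (x i) - 1 - x i - x i ^ 2 / 2) -
      (q G i : ℂ) * (Complex.exp (x' i) - 1 - x' i) +
      (q G i : ℂ) * (x i - x' i + x i ^ 2 / 2) := by
    intro i _
    have h1 : (zn G.rho w n) ^ i.1 * ph θ v i = (G.rho : ℂ) ^ i.1 * Complex.exp (x i) := by
      unfold zn ph
      rw [mul_pow, ← Complex.exp_nat_mul, mul_assoc, ← Complex.exp_add]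
      congr 2
      rw [hxdef]
      ring
    have h2 : (zn G.rho (w + ((κ * θ ^ 2 * n : ℝ) : ℂ)) n) ^ i.1 =
        (G.rho : ℂ) ^ i.1 * Complex.exp (x' i) := by
      unfold zn
      rw [mul_pow, ← Complex.exp_nat_mul]
      congr 2
      rw [hx'def]
      ring
    rw [h1, h2]
    unfold q
    push_cast
    ring
  rw [Finset.sum_congr rfl hterm, Finset.sum_add_distrib, Finset.sum_sub_distrib]
  have hcore := core (θ := θ) hT hn w
  have hcore' : ∑ i ∈ G.S, (q G i : ℂ) * (x i - x' i + x i ^ 2 / 2) =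
      w ^ 2 / (2 * n ^ 2) * (M2 : ℂ) - Complex.I * (w * θ / n) *
        ((∑ i ∈ G.S, q G i * (i.1 * ((i.2 : ℝ) - v * i.1)) : ℝ) : ℂ) := hcore
  rw [hcore']
  -- the bounds
  have B1 : ‖∑ i ∈ G.S, (q G i : ℂ) * (Complex.exp (x i) - 1 - x i - x i ^ 2 / 2)‖ ≤
      4 * (W / n + |θ|) ^ 3 * M3 := by
    refine (norm_sum_le _ _).trans ?_
    rw [hM3, Finset.mul_sum]
    refine Finset.sum_le_sum fun i hi => ?_
    rw [norm_mul, Complex.norm_real, Real.norm_of_nonneg (q_nonneg G i)]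
    have h1 := exp3 (hxre i)
    have h2 : ‖x i‖ ^ 3 ≤ ((W / n + |θ|) * i.1) ^ 3 :=
      pow_le_pow_left₀ (norm_nonneg _) (hnx i hi) 3
    calc q G i * _ ≤ q G i * (4 * ((W / n + |θ|) * i.1) ^ 3) :=
          mul_le_mul_of_nonneg_left (h1.trans (by linarith)) (q_nonneg G i)
      _ = _ := by
          unfold q
          ring
  have B2 : ‖∑ i ∈ G.S, (q G i : ℂ) * (Complex.exp (x' i) - 1 - x' i)‖ ≤
      3 * ((W + γ) / n) ^ 2 * M2 := by
    refine (norm_sum_le _ _).trans ?_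
    rw [hM2, Finset.mul_sum]
    refine Finset.sum_le_sum fun i hi => ?_
    rw [norm_mul, Complex.norm_real, Real.norm_of_nonneg (q_nonneg G i)]
    have h1 := exp2 (hx're i)
    have h2 : ‖x' i‖ ^ 2 ≤ ((W + γ) / n * i.1) ^ 2 :=
      pow_le_pow_left₀ (norm_nonneg _) (hnx' i) 2
    calc q G i * _ ≤ q G i * (3 * ((W + γ) / n * i.1) ^ 2) :=
          mul_le_mul_of_nonneg_left (h1.trans (by linarith)) (q_nonneg G i)
      _ = _ := by
          unfold q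
          ring
  have B3 : ‖w ^ 2 / (2 * n ^ 2) * (M2 : ℂ)‖ ≤ W ^ 2 / n ^ 2 * M2 := by
    rw [norm_mul, norm_div, norm_pow, norm_mul, norm_pow, Complex.norm_natCast,
      Complex.norm_real, Real.norm_of_nonneg hM0]
    refine mul_le_mul_of_nonneg_right ?_ hM0
    have h1 : ‖w‖ ^ 2 ≤ W ^ 2 := pow_le_pow_left₀ (norm_nonneg _) hwW 2
    have h2 : ‖(2 : ℂ)‖ = 2 := by simp
    rw [h2]
    have h3 : (0 : ℝ) < (n : ℝ) ^ 2 := by positivity
    calc ‖w‖ ^ 2 / (2 * (n : ℝ) ^ 2) ≤ ‖w‖ ^ 2 / (n : ℝ) ^ 2 :=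
          div_le_div_of_nonneg_left (by positivity) h3 (by linarith)
      _ ≤ _ := div_le_div_of_nonneg_right h1 h3.le
  have B4 : ‖Complex.I * (w * θ / n) *
        ((∑ i ∈ G.S, q G i * (i.1 * ((i.2 : ℝ) - v * i.1)) : ℝ) : ℂ)‖ ≤
      W * |θ| / n * M2 := by
    have h1 : |∑ i ∈ G.S, q G i * (i.1 * ((i.2 : ℝ) - v * i.1))| ≤ M2 := by
      refine (Finset.abs_sum_le_sum_abs _ _).trans ?_
      refine Finset.sum_le_sum fun i hi => ?_
      rw [abs_mul, abs_mul, abs_of_nonneg (q_nonneg G i), abs_of_nonneg (by positivity : (0 : ℝ) ≤ i.1)]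
      have h2 := abs_d_le hT hi
      have h3 : (0 : ℝ) ≤ i.1 := by positivity
      calc q G i * (i.1 * |(i.2 : ℝ) - v * i.1|) ≤ q G i * (i.1 * i.1) :=
            mul_le_mul_of_nonneg_left (mul_le_mul_of_nonneg_left h2 h3) (q_nonneg G i)
        _ = _ := by
            unfold q
            ring
    rw [norm_mul, norm_mul, Complex.norm_I, one_mul, norm_div, norm_mul, Complex.norm_natCast,
      Complex.norm_real, Complex.norm_real, Real.norm_eq_abs, Real.norm_eq_abs]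
    refine mul_le_mul ?_ h1 (abs_nonneg _) (by positivity)
    gcongr
  have hsum : ‖∑ i ∈ G.S, (q G i : ℂ) * (Complex.exp (x i) - 1 - x i - x i ^ 2 / 2) -
      ∑ i ∈ G.S, (q G i : ℂ) * (Complex.exp (x' i) - 1 - x' i) +
      (w ^ 2 / (2 * n ^ 2) * (M2 : ℂ) - Complex.I * (w * θ / n) *
        ((∑ i ∈ G.S, q G i * (i.1 * ((i.2 : ℝ) - v * i.1)) : ℝ) : ℂ))‖ ≤
      4 * (W / n + |θ|) ^ 3 * M3 + 3 * ((W + γ) / n) ^ 2 * M2 +
        (W ^ 2 / n ^ 2 * M2 + W * |θ| / n * M2) := by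
    refine (norm_add_le _ _).trans (add_le_add ?_ ?_)
    · exact (norm_sub_le _ _).trans (add_le_add B1 B2)
    · exact (norm_sub_le _ _).trans (add_le_add B3 B4)
  refine hsum.trans ?_
  rw [le_div_iff₀ (by positivity)]
  -- everything in terms of s
  have hsp : 0 < s := by linarith
  have hn3 : (n : ℝ) * s = s ^ 3 := by rw [← hss]; ring
  rw [hn3, ← hss]
  have e1 : 4 * (W / (s * s) + |θ|) ^ 3 * M3 * s ^ 3 = 4 * M3 * (W / s + |θ| * s) ^ 3 := by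
    have : (W / (s * s) + |θ|) ^ 3 * s ^ 3 = (W / s + |θ| * s) ^ 3 := by
      rw [← mul_pow]
      congr 1
      field_simp
    calc 4 * (W / (s * s) + |θ|) ^ 3 * M3 * s ^ 3 = 4 * M3 * ((W / (s * s) + |θ|) ^ 3 * s ^ 3) := by
          ring
      _ = _ := by rw [this]
  have e2 : 3 * ((W + γ) / (s * s)) ^ 2 * M2 * s ^ 3 = 3 * M2 * (W + γ) ^ 2 / s := by
    field_simp
  have e3 : W ^ 2 / (s * s) ^ 2 * M2 * s ^ 3 = M2 * W ^ 2 / s := by
    field_simp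
  have e4 : W * |θ| / (s * s) * M2 * s ^ 3 = M2 * W * (|θ| * s) := by
    field_simp
  have hWs : W / s ≤ W := div_le_self (by linarith) hs1
  have f1 : 4 * M3 * (W / s + |θ| * s) ^ 3 ≤ 32 * M3 * W ^ 3 := by
    have h1 : (W / s + |θ| * s) ^ 3 ≤ (2 * W) ^ 3 :=
      pow_le_pow_left₀ (by positivity) (by linarith) 3
    calc 4 * M3 * (W / s + |θ| * s) ^ 3 ≤ 4 * M3 * (2 * W) ^ 3 :=
          mul_le_mul_of_nonneg_left h1 (by positivity)
      _ = _ := by ring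
  have f2 : 3 * M2 * (W + γ) ^ 2 / s ≤ 3 * M2 * (W + M2 * W) ^ 2 := by
    refine (div_le_self (by positivity) hs1).trans ?_
    refine mul_le_mul_of_nonneg_left ?_ (by positivity)
    exact pow_le_pow_left₀ (by positivity) (by linarith) 2
  have f3 : M2 * W ^ 2 / s ≤ M2 * W ^ 2 := div_le_self (by positivity) hs1
  have f4 : M2 * W * (|θ| * s) ≤ M2 * W * W :=
    mul_le_mul_of_nonneg_left hθs (by positivity)
  have htot : (4 * (W / (s * s) + |θ|) ^ 3 * M3 + 3 * ((W + γ) / (s * s)) ^ 2 * M2 +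
        (W ^ 2 / (s * s) ^ 2 * M2 + W * |θ| / (s * s) * M2)) * s ^ 3 ≤
      32 * M3 * W ^ 3 + 3 * M2 * (W + M2 * W) ^ 2 + (M2 * W ^ 2 + M2 * W * W) := by
    have h1 : (4 * (W / (s * s) + |θ|) ^ 3 * M3 + 3 * ((W + γ) / (s * s)) ^ 2 * M2 +
        (W ^ 2 / (s * s) ^ 2 * M2 + W * |θ| / (s * s) * M2)) * s ^ 3 =
        4 * (W / (s * s) + |θ|) ^ 3 * M3 * s ^ 3 + 3 * ((W + γ) / (s * s)) ^ 2 * M2 * s ^ 3 +
        (W ^ 2 / (s * s) ^ 2 * M2 * s ^ 3 + W * |θ| / (s * s) * M2 * s ^ 3) := by ring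
    rw [h1, e1, e2, e3, e4]
    linarith
  refine htot.trans ?_
  -- powers
  have hD1 : (1 : ℝ) ≤ D := by linarith
  have hW1 : (1 : ℝ) ≤ W := by linarith
  set P : ℝ := D ^ (3 * K2 + K3) with hP
  have hP1 : 1 ≤ P := one_le_pow₀ hD1
  have hM3P : M3 ≤ P := hM3'.trans (pow_le_pow_right₀ hD1 (by omega))
  have hM2P : M2 ≤ P := hM.trans (pow_le_pow_right₀ hD1 (by omega))
  have hM2c : M2 * (1 + M2) ^ 2 ≤ 4 * P := by
    have h1 : 1 + M2 ≤ 2 * D ^ K2 := by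
      have : 1 ≤ D ^ K2 := one_le_pow₀ hD1
      linarith
    have h2 : (1 + M2) ^ 2 ≤ (2 * D ^ K2) ^ 2 := pow_le_pow_left₀ (by positivity) h1 2
    calc M2 * (1 + M2) ^ 2 ≤ D ^ K2 * (2 * D ^ K2) ^ 2 :=
          mul_le_mul hM h2 (by positivity) (by positivity)
      _ = 4 * D ^ (3 * K2) := by ring
      _ ≤ 4 * P := by
          refine mul_le_mul_of_nonneg_left ?_ (by norm_num)
          exact pow_le_pow_right₀ hD1 (by omega)
  have hW23 : W ^ 2 ≤ W ^ 3 := pow_le_pow_right₀ hW1 (by norm_num)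
  have hW3 : 0 < W ^ 3 := by positivity
  have hfin : 32 * M3 * W ^ 3 + 3 * M2 * (W + M2 * W) ^ 2 + (M2 * W ^ 2 + M2 * W * W) ≤
      64 * P * W ^ 3 := by
    have g1 : 32 * M3 * W ^ 3 ≤ 32 * P * W ^ 3 := by
      refine mul_le_mul_of_nonneg_right ?_ hW3.le
      linarith
    have g2 : 3 * M2 * (W + M2 * W) ^ 2 ≤ 12 * P * W ^ 3 := by
      calc 3 * M2 * (W + M2 * W) ^ 2 = 3 * (M2 * (1 + M2) ^ 2) * W ^ 2 := by ring
        _ ≤ 3 * (4 * P) * W ^ 3 := by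
            refine mul_le_mul ?_ hW23 (by positivity) (by positivity)
            linarith
        _ = _ := by ring
    have g3 : M2 * W ^ 2 ≤ P * W ^ 3 := mul_le_mul hM2P hW23 (by positivity) (by positivity)
    have g4 : M2 * W * W ≤ P * W ^ 3 := by
      calc M2 * W * W = M2 * W ^ 2 := by ring
        _ ≤ _ := g3
    have g5 : 0 ≤ P * W ^ 3 := by positivity
    linarith
  refine hfin.trans ?_
  have h64 : (64 : ℝ) ≤ D ^ 6 := by
    calc (64 : ℝ) = 2 ^ 6 := by norm_num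
      _ ≤ D ^ 6 := pow_le_pow_left₀ (by norm_num) hD 6
  calc 64 * P * W ^ 3 ≤ D ^ 6 * P * W ^ 3 := by gcongr
    _ = D ^ (3 * K2 + K3 + 6) * W ^ 3 := by rw [hP]; ring
    _ ≤ D ^ (3 * K2 + K3 + 20) * W ^ (3 * K2 + K3 + 20) := by
        refine mul_le_mul (pow_le_pow_right₀ hD1 (by omega)) (pow_le_pow_right₀ hW1 (by omega))
          hW3.le (by positivity)
    _ = (D * W) ^ (3 * K2 + K3 + 20) := (mul_pow _ _ _).symm

end Pool.Agent.PFS
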