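import Pool.Agent.PFS.StmtsA
import Pool.Agent.Lib_helper89.FL.GJ2
import Pool.Agent.Lib_helper89.FL.GC2

/-!
# Module TPT: comparison of the closed generating functions, kernel with phases
-/

set_option autoImplicit false

open Finset Filter Topology

namespace Pool.Agent.PFS

open Pool.Agent.Gap Pool.Agent.FL Pool.Agent.EXW Pool.Agent.Gap.H22 Pool.Agent.FL.GJ2

namespace TPTx

/-- monotonicity of the scales in the exponent -/
lemma scT_mono {K K' : ℕ} (h : K ≤ K') {D W : ℝ} {G : GapKernel} {v κ θ : ℝ} {n : ℕ}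
    (hS : ScT K' D W G v κ θ n) : ScT K D W G v κ θ n where
  D2 := hS.D2
  W2 := hS.W2
  tw := hS.tw
  big := by
    have h1 := hS.D2
    have h2 := hS.W2
    have h3 : 1 ≤ D * W := by nlinarith
    exact (pow_le_pow_right₀ h3 h).trans hS.big
  th := by
    have h1 := hS.D2
    refine le_trans ?_ hS.th
    have h3 : D ^ K ≤ D ^ K' := pow_le_pow_right₀ (by linarith) h
    exact mul_le_mul_of_nonneg_left h3 (by positivity)

/-- the angle is small -/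
lemma theta_le {K : ℕ} (hK : 1 ≤ K) {D W : ℝ} {G : GapKernel} {v κ θ : ℝ} {n : ℕ}
    (hS : ScT K D W G v κ θ n) : |θ| * D ^ K ≤ 1 := by
  have hD := hS.D2
  have hW := hS.W2
  have hD1 : 1 ≤ D ^ K := one_le_pow₀ (by linarith)
  have hW1 : W ≤ W ^ K := by
    calc W = W ^ 1 := (pow_one W).symm
      _ ≤ W ^ K := pow_le_pow_right₀ (by linarith) hK
  have h1 : D ^ K * W ≤ n := by
    calc D ^ K * W ≤ D ^ K * W ^ K := mul_le_mul_of_nonneg_left hW1 (by positivity)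
      _ = (D * W) ^ K := (mul_pow _ _ _).symm
      _ ≤ n := hS.big
  have h2 : θ ^ 2 * (D ^ K * W) * D ^ K ≤ W := by
    refine le_trans ?_ hS.th
    exact mul_le_mul_of_nonneg_right (mul_le_mul_of_nonneg_left h1 (sq_nonneg _)) (by positivity)
  have h3 : (|θ| * D ^ K) ^ 2 * W ≤ 1 * W := by
    rw [mul_pow, sq_abs]
    calc θ ^ 2 * (D ^ K) ^ 2 * W = θ ^ 2 * (D ^ K * W) * D ^ K := by ring
      _ ≤ W := h2
      _ = 1 * W := (one_mul _).symm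
  have h4 : (|θ| * D ^ K) ^ 2 ≤ 1 ^ 2 := by
    rw [one_pow]
    exact le_of_mul_le_mul_right h3 (by linarith)
  exact (pow_le_pow_iff_left₀ (by positivity) zero_le_one two_ne_zero).1 h4

/-- the size of the angle at the scale `n` -/
lemma theta_sqrt {K : ℕ} {D W : ℝ} {G : GapKernel} {v κ θ : ℝ} {n : ℕ}
    (hS : ScT K D W G v κ θ n) : |θ| * Real.sqrt n ≤ W := by
  have hD := hS.D2
  have hW := hS.W2
  have hD1 : 1 ≤ D ^ K := one_le_pow₀ (by linarith)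
  have hn : (0 : ℝ) ≤ n := Nat.cast_nonneg n
  have h1 : θ ^ 2 * n ≤ W := by
    refine le_trans ?_ hS.th
    exact le_mul_of_one_le_right (by positivity) hD1
  have h2 : (|θ| * Real.sqrt n) ^ 2 ≤ W ^ 2 := by
    rw [mul_pow, sq_abs, Real.sq_sqrt hn]
    nlinarith
  exact (pow_le_pow_iff_left₀ (by positivity) (by linarith) two_ne_zero).1 h2

lemma v_mem {D : ℝ} {G : GapKernel} {v κ : ℝ} (h : TwP D G v κ) : 0 ≤ v ∧ v ≤ 1 := by
  have hm := G.mbar_pos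
  have hh := G.hbar_pos
  have hle : G.hbar ≤ G.mbar := by
    unfold GapKernel.hbar GapKernel.mbar
    refine Finset.sum_le_sum fun i hi => ?_
    have h1 : (i.2 : ℝ) ≤ i.1 := by exact_mod_cast h.cls.loc.h_le i hi
    have h2 := G.tot_nonneg i
    have h3 := G.rho_pos
    have h4 : 0 ≤ G.rho ^ i.1 * G.tot i := by positivity
    nlinarith
  have he := h.v_eq
  constructor
  · by_contra hc
    push Not at hc
    nlinarith
  · by_contra hc
    push Not at hc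
    nlinarith

/-- the phases are close to one -/
lemma norm_ph_sub_one {D : ℝ} {G : GapKernel} {v κ : ℝ} (h : TwP D G v κ) (θ : ℝ) {i : ℕ × ℕ}
    (hi : i ∈ G.S) : ‖ph θ v i - 1‖ ≤ |θ| * i.1 := by
  have h1 : ph θ v i = Complex.exp (Complex.I * ((θ * ((i.2 : ℝ) - v * i.1) : ℝ) : ℂ)) := by
    unfold ph
    rw [mul_comm]
  rw [h1]
  refine (Real.norm_exp_I_mul_ofReal_sub_one_le).trans ?_
  rw [Real.norm_eq_abs, abs_mul]
  refine mul_le_mul_of_nonneg_left ?_ (abs_nonneg _)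
  obtain ⟨hv0, hv1⟩ := v_mem h
  have h2 : (i.2 : ℝ) ≤ i.1 := by exact_mod_cast h.cls.loc.h_le i hi
  have h3 : (0 : ℝ) ≤ i.2 := Nat.cast_nonneg _
  have h4 : (0 : ℝ) ≤ i.1 := Nat.cast_nonneg _
  rw [abs_le]
  constructor
  · nlinarith
  · nlinarith

/-- complex caps are bounded by the real ones at the critical point -/
lemma norm_capc_le {D θ : ℝ} {G : GapKernel} {C0 : ℕ} {s : ℕ → ℤ → ℝ} {cs : ℕ → ℤ → ℂ}
    (h : CapT D θ G C0 s cs) (j : ℕ) {z : ℂ} (hz : ‖z‖ ≤ G.rho) (g : ℤ) :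
    ‖capc C0 cs j z g‖ ≤ ‖capz C0 s j (G.rho : ℂ) g‖ := by
  have hr := G.rho_pos
  have h1 : capz C0 s j (G.rho : ℂ) g =
      ((∑ m ∈ range (C0 + 1), ((m : ℝ)) ^ j * G.rho ^ m * s m g : ℝ) : ℂ) := by
    unfold capz
    push_cast
    rfl
  have h2 : 0 ≤ ∑ m ∈ range (C0 + 1), ((m : ℝ)) ^ j * G.rho ^ m * s m g :=
    Finset.sum_nonneg fun m _ => by
      have := h.cap.cap.nonneg m g
      positivity
  rw [h1, Complex.norm_real, Real.norm_of_nonneg h2]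
  unfold capc
  refine (norm_sum_le _ _).trans (Finset.sum_le_sum fun m _ => ?_)
  rw [norm_mul, norm_mul, norm_pow, norm_pow, Complex.norm_natCast]
  have h3 := h.le m g
  have h4 : ‖z‖ ^ m ≤ G.rho ^ m := pow_le_pow_left₀ (norm_nonneg _) hz m
  have h5 : (0 : ℝ) ≤ (m : ℝ) ^ j := by positivity
  exact mul_le_mul (mul_le_mul_of_nonneg_left h4 h5) h3 (norm_nonneg _) (by positivity)

lemma lw_capc_le {D θ : ℝ} (hD : 2 ≤ D) {G : GapKernel} {C0 : ℕ} {s : ℕ → ℤ → ℝ}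
    {cs : ℕ → ℤ → ℂ} (h : CapT D θ G C0 s cs) (N p : ℕ) (hp : p ≤ 4) (j : ℕ) (hj : j ≤ 3) {z : ℂ}
    (hz : ‖z‖ ≤ G.rho) : lw p N (capc C0 cs j z) ≤ Sk D (1 - D⁻¹) := by
  have hr := G.rho_pos
  have h1 : ‖(G.rho : ℂ)‖ ≤ G.rho := by
    rw [Complex.norm_real, Real.norm_of_nonneg hr.le]
  refine le_trans ?_ (lw_capz_le (by linarith) (th_pos hD) (th_lt hD) h.cap N p hp j hj h1)
  unfold lw
  refine Finset.sum_le_sum fun g hg => ?_
  have h2 : (1 : ℤ) ≤ g := (Finset.mem_Icc.1 hg).1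
  have h3 : (0 : ℝ) ≤ g := by exact_mod_cast (by omega : (0 : ℤ) ≤ g)
  exact mul_le_mul_of_nonneg_left (norm_capc_le h j hz g) (by positivity)

/-- the kernel with phases in the pairing -/
lemma KapT_sum (G : GapKernel) (p : ℕ × ℕ → ℂ) (eps : ℝ) (z : ℂ) (N : ℕ) (U W : ℤ → ℂ) (j : ℕ) :
    ∑ g ∈ Icc (1 : ℤ) N, W g * KapT G p j eps z N U g =
      ∑ i ∈ G.S, ((i.1 : ℂ)) ^ j * (z ^ i.1 * p i) * ∑ g ∈ Icc (1 : ℤ) N, ∑ g' ∈ Icc (1 : ℤ) N,
          ((G.K i g g' * GapKernel.wt eps i g g' : ℝ) : ℂ) * W g * U g' := by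
  unfold KapT KzT
  simp_rw [Finset.mul_sum, Finset.sum_mul, Finset.mul_sum]
  symm
  rw [Finset.sum_comm]
  refine Finset.sum_congr rfl fun g _ => ?_
  rw [Finset.sum_comm]
  refine Finset.sum_congr rfl fun g' _ => Finset.sum_congr rfl fun i _ => ?_
  ring

/-- the coefficient of a piece type -/
lemma coef_le {D : ℝ} (hD : 2 ≤ D) {G : GapKernel} {v κ : ℝ} (h : TwP D G v κ) (θ : ℝ)
    {i : ℕ × ℕ} (hi : i ∈ G.S) {z : ℂ} (hz : ‖z‖ ≤ G.rho) :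
    ‖z ^ i.1 * ph θ v i - (G.rho : ℂ) ^ i.1‖ ≤
      i.1 * G.rho ^ i.1 * (D * ‖(G.rho : ℂ) - z‖ + |θ|) := by
  have hr := G.rho_pos
  have e : z ^ i.1 * ph θ v i - (G.rho : ℂ) ^ i.1 =
      (z ^ i.1 - (G.rho : ℂ) ^ i.1) * ph θ v i + (G.rho : ℂ) ^ i.1 * (ph θ v i - 1) := by ring
  rw [e]
  refine (norm_add_le _ _).trans ?_
  rw [norm_mul, norm_mul, norm_ph, mul_one, norm_pow, Complex.norm_real, Real.norm_of_nonneg hr.le]
  have h1 := norm_pow_sub_le hr.le hz i.1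
  have h8 : G.rho ^ (i.1 - 1) ≤ D * G.rho ^ i.1 := by
    have h9 : 1 ≤ i.1 := (G.pos_mem i hi).1
    have hD0 : (0 : ℝ) < D := by linarith
    have h10 : 1 ≤ D * G.rho := by
      have h11 := mul_le_mul_of_nonneg_left h.cls.rho_ge hD0.le
      rwa [mul_inv_cancel₀ hD0.ne'] at h11
    obtain ⟨k, hk⟩ := Nat.exists_eq_add_of_le' h9
    rw [hk, Nat.add_sub_cancel, pow_succ]
    have h12 : 0 ≤ G.rho ^ k := by positivity
    nlinarith
  have h2 := norm_ph_sub_one h θ hi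
  have h3 : (0 : ℝ) ≤ i.1 := Nat.cast_nonneg _
  calc ‖z ^ i.1 - (G.rho : ℂ) ^ i.1‖ + G.rho ^ i.1 * ‖ph θ v i - 1‖
      ≤ i.1 * (D * G.rho ^ i.1) * ‖(G.rho : ℂ) - z‖ + G.rho ^ i.1 * (|θ| * i.1) := by
        refine add_le_add (h1.trans ?_) (mul_le_mul_of_nonneg_left h2 (by positivity))
        exact mul_le_mul_of_nonneg_right (mul_le_mul_of_nonneg_left h8 h3) (norm_nonneg _)
    _ = _ := by ring

/-- the sums with one mark -/
lemma cap_term {X M : ℝ} (hX : 0 ≤ X) {N : ℕ} {e f : ℤ → ℂ} (hf : ∀ g : ℤ, 1 ≤ g → ‖f g‖ ≤ X * g)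
    (he : lw 1 N e ≤ M) : ‖∑ g ∈ Icc (1 : ℤ) N, e g * f g‖ ≤ X * M := by
  refine (norm_sum_le _ _).trans ?_
  calc ∑ g ∈ Icc (1 : ℤ) N, ‖e g * f g‖ ≤ ∑ g ∈ Icc (1 : ℤ) N, X * ((g : ℝ) ^ 1 * ‖e g‖) := by
        refine Finset.sum_le_sum fun g hg => ?_
        have h2 : (1 : ℤ) ≤ g := (Finset.mem_Icc.1 hg).1
        rw [norm_mul, pow_one]
        calc ‖e g‖ * ‖f g‖ ≤ ‖e g‖ * (X * g) := mul_le_mul_of_nonneg_left (hf g h2) (norm_nonneg _)
          _ = _ := by ring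
    _ = X * lw 1 N e := by rw [← Finset.mul_sum]; rfl
    _ ≤ X * M := mul_le_mul_of_nonneg_left he hX

/-- pointwise bound from the squares -/
lemma point_le {X M : ℝ} (hX : 1 ≤ X) (hM : 0 ≤ M) {L : ℝ} (hL0 : 0 ≤ L) (hL : L ≤ M) {f : ℤ → ℂ}
    (h : ∀ g : ℤ, 1 ≤ g → ‖f g‖ ^ 2 ≤ X * g * L ^ 2) (g : ℤ) (hg : 1 ≤ g) :
    ‖f g‖ ≤ X * M * g := by
  have h1 : (1 : ℝ) ≤ g := by exact_mod_cast hg
  have h2 := h g hg
  have h3 : ‖f g‖ ^ 2 ≤ (X * M * g) ^ 2 := by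
    refine h2.trans ?_
    have h4 : L ^ 2 ≤ M ^ 2 := pow_le_pow_left₀ hL0 hL 2
    have h5 : X * g ≤ (X * g) ^ 2 := by
      have : 1 ≤ X * g := one_le_mul_of_one_le_of_one_le hX h1
      nlinarith
    calc X * g * L ^ 2 ≤ (X * g) ^ 2 * M ^ 2 :=
          mul_le_mul h5 h4 (sq_nonneg _) (sq_nonneg _)
      _ = _ := by ring
  exact (pow_le_pow_iff_left₀ (norm_nonneg _) (by positivity) two_ne_zero).1 h3

/-- the pairing with the kernel with one mark -/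
lemma pair_one {D θ : ℝ} (hD : 2 ≤ D) {G : GapKernel} {v κ : ℝ} (h : TwP D G v κ) {Cc : ℝ}
    (hCc : 0 < Cc)
    (H2 : ∀ G : GapKernel, Loc G →
      ∀ (N : ℕ) (eps : ℝ) (i : ℕ × ℕ) (f h : ℤ → ℂ), i ∈ G.S → 0 ≤ eps → Supp N f → Supp N h →
        ‖(G.tot i : ℂ) * ∑ g ∈ Icc (1 : ℤ) N, f g * h g
          - ∑ g ∈ Icc (1 : ℤ) N, ∑ g' ∈ Icc (1 : ℤ) N,
              ((G.K i g g' * GapKernel.wt eps i g g' : ℝ) : ℂ) * f g * h g'‖
          ≤ Cc * (i.1 : ℝ) ^ 3 * G.tot i *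
            (Real.sqrt (En N f + Pot eps N f) * Real.sqrt (En N h + Pot eps N h)))
    {N : ℕ} {eps : ℝ} (heps : 0 ≤ eps) {z : ℂ} (hz : ‖z‖ ≤ G.rho) {U V : ℤ → ℂ}
    (hU : Supp N U) (hV : Supp N V) {X : ℝ} (hEU : En N U + Pot eps N U ≤ X)
    (hEV : En N V + Pot eps N V ≤ X) :
    ‖(∑ g ∈ Icc (1 : ℤ) N, U g * KapT G (ph θ v) 1 eps z N V g)
        - (G.mbar : ℂ) * ∑ g ∈ Icc (1 : ℤ) N, U g * V g‖
      ≤ Sk D (1 - D⁻¹) * (Cc * X) + Sk D (1 - D⁻¹) *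
        ((D * ‖(G.rho : ℂ) - z‖ + |θ|) * ‖∑ g ∈ Icc (1 : ℤ) N, U g * V g‖) := by
  have hr := G.rho_pos
  set Q : ℂ := ∑ g ∈ Icc (1 : ℤ) N, U g * V g with hQ
  set c : ℝ := D * ‖(G.rho : ℂ) - z‖ + |θ| with hc
  have hc0 : 0 ≤ c := by positivity
  set Bi : ℕ × ℕ → ℂ := fun i => ∑ g ∈ Icc (1 : ℤ) N, ∑ g' ∈ Icc (1 : ℤ) N,
        ((G.K i g g' * GapKernel.wt eps i g g' : ℝ) : ℂ) * U g * V g' with hBi
  have hX0 : 0 ≤ X := (add_nonneg (Gap.H22.En_nonneg N U) (Gap.H22.Pot_nonneg heps N U)).trans hEU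
  have hBi2 : ∀ i ∈ G.S, ‖(G.tot i : ℂ) * Q - Bi i‖ ≤ (i.1 : ℝ) ^ 3 * G.tot i * (Cc * X) := by
    intro i hi
    have h5 := H2 G h.cls.loc N eps i U V hi heps hU hV
    have h9 : Real.sqrt (En N U + Pot eps N U) * Real.sqrt (En N V + Pot eps N V) ≤ X := by
      calc Real.sqrt (En N U + Pot eps N U) * Real.sqrt (En N V + Pot eps N V)
          ≤ Real.sqrt X * Real.sqrt X := mul_le_mul (Real.sqrt_le_sqrt hEU)
            (Real.sqrt_le_sqrt hEV) (Real.sqrt_nonneg _) (Real.sqrt_nonneg _)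
        _ = X := Real.mul_self_sqrt hX0
    have h10 := G.tot_nonneg i
    calc _ ≤ Cc * (i.1 : ℝ) ^ 3 * G.tot i *
          (Real.sqrt (En N U + Pot eps N U) * Real.sqrt (En N V + Pot eps N V)) := h5
      _ ≤ Cc * (i.1 : ℝ) ^ 3 * G.tot i * X := mul_le_mul_of_nonneg_left h9 (by positivity)
      _ = _ := by ring
  have t4 : ‖(∑ g ∈ Icc (1 : ℤ) N, U g * KapT G (ph θ v) 1 eps z N V g) - (G.mbar : ℂ) * Q‖ ≤
      ∑ i ∈ G.S, ((i.1 : ℝ) ^ 4 * G.rho ^ i.1 * G.tot i * (Cc * X) +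
        ((i.1 : ℝ) ^ 2 * G.rho ^ i.1 * G.tot i) * (c * ‖Q‖)) := by
    rw [KapT_sum, mbar_eq, Finset.sum_mul, ← Finset.sum_sub_distrib]
    refine (norm_sum_le _ _).trans (Finset.sum_le_sum fun i hi => ?_)
    have h5 : ((i.1 : ℂ)) ^ 1 * (z ^ i.1 * ph θ v i) * Bi i -
        (i.1 : ℂ) * (G.rho : ℂ) ^ i.1 * (G.tot i : ℂ) * Q =
        -((i.1 : ℂ) * (z ^ i.1 * ph θ v i) * ((G.tot i : ℂ) * Q - Bi i)) +
          (i.1 : ℂ) * (z ^ i.1 * ph θ v i - (G.rho : ℂ) ^ i.1) * (G.tot i : ℂ) * Q := by ring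
    rw [h5]
    have h7 := G.tot_nonneg i
    refine (norm_add_le _ _).trans (add_le_add ?_ ?_)
    · rw [norm_neg, norm_mul, norm_mul, norm_mul, norm_pow, norm_ph, mul_one,
        Complex.norm_natCast]
      calc (i.1 : ℝ) * ‖z‖ ^ i.1 * ‖(G.tot i : ℂ) * Q - Bi i‖
          ≤ (i.1 : ℝ) * G.rho ^ i.1 * ((i.1 : ℝ) ^ 3 * G.tot i * (Cc * X)) := by
            refine mul_le_mul (mul_le_mul_of_nonneg_left
              (pow_le_pow_left₀ (norm_nonneg _) hz _) (Nat.cast_nonneg _)) (hBi2 i hi)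
              (norm_nonneg _) (by positivity)
        _ = _ := by ring
    · rw [norm_mul, norm_mul, norm_mul, Complex.norm_natCast, Complex.norm_real,
        Real.norm_eq_abs, abs_of_nonneg (G.tot_nonneg i)]
      have h6 := coef_le hD h θ hi hz
      rw [← hc] at h6
      calc (i.1 : ℝ) * ‖z ^ i.1 * ph θ v i - (G.rho : ℂ) ^ i.1‖ * G.tot i * ‖Q‖
          ≤ (i.1 : ℝ) * (i.1 * G.rho ^ i.1 * c) * G.tot i * ‖Q‖ := by gcongr
        _ = _ := by ring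
  refine t4.trans ?_
  rw [Finset.sum_add_distrib, ← Finset.sum_mul, ← Finset.sum_mul]
  have hD0 : 0 < D := by linarith
  exact add_le_add (mul_le_mul_of_nonneg_right
    (mass_le hD0 (th_pos hD) (th_lt hD) h.cls 4 (by norm_num)) (by positivity))
    (mul_le_mul_of_nonneg_right (mass_le hD0 (th_pos hD) (th_lt hD) h.cls 2 (by norm_num))
      (by positivity))

/-- comparison of two pairings -/
lemma pair_diff (N : ℕ) (U V U0 V0 : ℤ → ℂ) {a q : ℝ}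
    (h1 : nrm N (fun g => U g - U0 g) ≤ a) (h2 : nrm N (fun g => V g - V0 g) ≤ a)
    (h3 : nrm N V ≤ q) (h4 : nrm N U0 ≤ q) :
    ‖(∑ g ∈ Icc (1 : ℤ) N, U g * V g) - ∑ g ∈ Icc (1 : ℤ) N, V0 g * U0 g‖ ≤ 2 * (a * q) := by
  have e1 : (∑ g ∈ Icc (1 : ℤ) N, U g * V g) - ∑ g ∈ Icc (1 : ℤ) N, V0 g * U0 g =
      (∑ g ∈ Icc (1 : ℤ) N, (U g - U0 g) * V g) +
        ∑ g ∈ Icc (1 : ℤ) N, (V g - V0 g) * U0 g := by
    rw [← Finset.sum_sub_distrib, ← Finset.sum_add_distrib]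
    refine Finset.sum_congr rfl fun g _ => ?_
    ring
  rw [e1]
  have ha : 0 ≤ a := (nrm_nonneg _ _).trans h1
  have t1 := (pair_le N (fun g => U g - U0 g) V).trans (mul_le_mul h1 h3 (nrm_nonneg _ _) ha)
  have t2 := (pair_le N (fun g => V g - V0 g) U0).trans (mul_le_mul h2 h4 (nrm_nonneg _ _) ha)
  refine (norm_add_le _ _).trans ?_
  linarith

/-- distance of the point from the critical point -/
lemma dist_le {W : ℝ} {G : GapKernel} {w : ℂ} {n : ℕ} (hw : ‖w‖ ≤ W) (hn : 0 < n)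
    (hWn : W ≤ n) : ‖(G.rho : ℂ) - zn G.rho w n‖ ≤ W / n := by
  have hn' : (0 : ℝ) < n := by exact_mod_cast hn
  have hr := G.rho_pos
  have hr4 := rho_le G
  have hW0 : 0 ≤ W := (norm_nonneg _).trans hw
  have h1 : ‖-(w / (n : ℂ))‖ ≤ W / n := by
    rw [norm_neg, norm_div, Complex.norm_natCast]
    exact div_le_div_of_nonneg_right hw hn'.le
  have h2 : ‖-(w / (n : ℂ))‖ ≤ 1 := h1.trans ((div_le_one hn').2 hWn)
  have h3 := Complex.norm_exp_sub_one_le h2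
  have e : (G.rho : ℂ) - zn G.rho w n = -((G.rho : ℂ) * (Complex.exp (-(w / n)) - 1)) := by
    unfold zn
    ring
  rw [e, norm_neg, norm_mul, Complex.norm_real, Real.norm_of_nonneg hr.le]
  have h4 : 0 ≤ W / n := by positivity
  have h5 : ‖Complex.exp (-(w / n)) - 1‖ ≤ 2 * (W / n) := by linarith
  calc G.rho * ‖Complex.exp (-(w / n)) - 1‖ ≤ (1 / 4) * (2 * (W / n)) :=
        mul_le_mul hr4 h5 (norm_nonneg _) (by norm_num)
    _ ≤ W / n := by linarith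

lemma one_le_qn {n : ℕ} (hn : 1 ≤ n) : 1 ≤ qn n := by
  refine (pow_le_pow_iff_left₀ (zero_le_one) (qn_nonneg n) (four_ne_zero)).1 ?_
  rw [one_pow, qn_four]
  exact_mod_cast hn

/-- `√x ≤ y` for `x ≤ y` and `1 ≤ y` -/
lemma sqrt_le_of {x y : ℝ} (h : x ≤ y) (hy : 1 ≤ y) : Real.sqrt x ≤ y := by
  rw [Real.sqrt_le_left (by linarith)]
  nlinarith

/-- `√x ≤ y qn n` for `x ≤ y √n` and `1 ≤ y` -/
lemma sqrt_le_qn {x y : ℝ} {n : ℕ} (h : x ≤ y * Real.sqrt n) (hy : 1 ≤ y) :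
    Real.sqrt x ≤ y * qn n := by
  have hq := qn_nonneg n
  rw [Real.sqrt_le_left (by positivity), mul_pow, qn_sq]
  refine h.trans (mul_le_mul_of_nonneg_right ?_ (Real.sqrt_nonneg _))
  nlinarith

end TPTx

open TPTx in
/-- **Module TPT.** -/
theorem t_TPT (h1 : TJ1_Stmt) (h2 : TCL_Stmt) (h3 : TEN_Stmt) (h4 : TCMP_Stmt)
    (h5 : QGJ2_Stmt) : TPT_Stmt := by
  obtain ⟨KT, hT⟩ := h3
  obtain ⟨KC0, KC, hC⟩ := h4
  obtain ⟨KJ, hJ⟩ := h5
  obtain ⟨Km, hm⟩ := par_bounds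
  obtain ⟨Cc, hCc, H2⟩ := FL.gc2
  have pM : PB fun D => Sk D (1 - D⁻¹) :=
    PB.id.mul (PB.geo 7 (fun D hD => (th_pos hD).le) LB.inv_self fun D _ => le_rfl)
  obtain ⟨KM, hKM⟩ := pM.le
  have hPB : PB fun E => 2 * (E ^ KT * E ^ KM * E ^ KM)
      + (E ^ KM * (Cc * (E ^ KT * (E ^ KM) ^ 2)) + E ^ KM * ((E + E) * (E ^ KC * E ^ KC)))
      + E ^ KJ + E ^ Km * (2 * (E ^ KC * E ^ KC)) :=
    ((((PB.const 2).mul (((PB.pow_self KT).mul (PB.pow_self KM)).mul (PB.pow_self KM))).add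
      (((PB.pow_self KM).mul ((PB.const Cc).mul ((PB.pow_self KT).mul
        ((PB.pow_self KM).pow 2)))).add
        ((PB.pow_self KM).mul ((PB.id.add PB.id).mul
          ((PB.pow_self KC).mul (PB.pow_self KC)))))).add
      (PB.pow_self KJ)).add ((PB.pow_self Km).mul ((PB.const 2).mul
        ((PB.pow_self KC).mul (PB.pow_self KC))))
  obtain ⟨K1, hK1⟩ := hPB.le
  refine ⟨max KC0 (KT + 1), K1, ?_⟩
  intro D W G v κ θ n hS C0 s t cs ct hs ht N eps heps hC0N b bt hb hbt w hw hwW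
  have hSC : ScT KC0 D W G v κ θ n := scT_mono (le_max_left _ _) hS
  have hST : ScT (KT + 1) D W G v κ θ n := scT_mono (le_max_right _ _) hS
  have hD := hS.D2
  have hW2 := hS.W2
  have htw := hS.tw
  have hD1 : (1 : ℝ) ≤ D := by linarith
  have hD0 : (0 : ℝ) < D := by linarith
  have hθ : |θ| * D ^ KT ≤ 1 := by
    refine le_trans ?_ (theta_le (by omega) hST)
    exact mul_le_mul_of_nonneg_left (pow_le_pow_right₀ hD1 (by omega)) (abs_nonneg _)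
  set E : ℝ := D * W with hEdef
  have hDE : D ≤ E := by nlinarith
  have hWE : W ≤ E := by nlinarith
  have hE2 : 2 ≤ E := by linarith
  have hE1 : 1 ≤ E := by linarith
  have hE0 : 0 < E := by linarith
  have hpow : ∀ k : ℕ, D ^ k ≤ E ^ k := fun k => pow_le_pow_left₀ hD0.le hDE k
  have hone : ∀ k : ℕ, 1 ≤ E ^ k := fun k => one_le_pow₀ hE1
  have hEn : E ≤ n := by
    calc E = E ^ 1 := (pow_one E).symm
      _ ≤ E ^ (KT + 1) := pow_le_pow_right₀ hE1 (by omega)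
      _ ≤ n := hST.big
  have hn0' : (0 : ℝ) < n := by linarith
  have hn0 : 0 < n := by exact_mod_cast hn0'
  have hn1 : 1 ≤ n := hn0
  have hWn : W ≤ n := hWE.trans hEn
  -- the two points
  have hκ : 0 ≤ κ := (inv_pos.2 hD0).le.trans htw.var_ge
  set γ : ℝ := κ * θ ^ 2 * n with hγ
  have hγ0 : 0 ≤ γ := by positivity
  have hw0 : 0 < w.re := by rw [hw]; norm_num
  have hwγ : 0 < (w + (γ : ℂ)).re := by
    rw [Complex.add_re, Complex.ofReal_re, hw]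
    linarith
  set z : ℂ := zn G.rho w n with hz
  set y : ℂ := zn G.rho (w + (γ : ℂ)) n with hy
  have hz1 : ‖z‖ < G.rho := zn_norm_lt _ G.rho_pos w hw0 n hn1
  have hy1 : ‖y‖ < G.rho := zn_norm_lt _ G.rho_pos _ hwγ n hn1
  have hp : ∀ i, ‖ph θ v i‖ ≤ 1 := fun i => (norm_ph θ v i).le
  -- the second arrays
  obtain ⟨bt', hbt'⟩ := (h1 G (ph θ v) hp C0 t ct ht.cap.cap ht.le N eps heps).1
  obtain ⟨b', hb'⟩ := (J1 G C0 t ht.cap.cap N eps heps).1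
  set V : ℤ → ℂ := gfc 0 bt z with hV
  set U : ℤ → ℂ := gfc 0 bt' z with hU
  set V0 : ℤ → ℂ := gf 0 b y with hV0
  set U0 : ℤ → ℂ := gf 0 b' y with hU0
  have sV : SolvesT G (ph θ v) eps z N V (capc C0 cs 0 z) := by
    have := ((h1 G (ph θ v) hp C0 s cs hs.cap.cap hs.le N eps heps).2 bt hbt).2.2 z hz1 0
    simpa using this
  have sU : SolvesT G (ph θ v) eps z N U (capc C0 ct 0 z) := by
    have := ((h1 G (ph θ v) hp C0 t ct ht.cap.cap ht.le N eps heps).2 bt' hbt').2.2 z hz1 0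
    simpa using this
  have sV0 : G.Solves eps y N V0 (capz C0 s 0 y) := by
    have := ((J1 G C0 s hs.cap.cap N eps heps).2 b hb).2.2.2 y hy1 0
    simpa using this
  have sU0 : G.Solves eps y N U0 (capz C0 t 0 y) := by
    have := ((J1 G C0 t ht.cap.cap N eps heps).2 b' hb').2.2.2 y hy1 0
    simpa using this
  obtain ⟨cV1, cV2, cV3⟩ := hC D W G v κ θ n hSC C0 s cs hs N eps w V V0 heps hw hwW sV sV0
  obtain ⟨cU1, cU2, cU3⟩ := hC D W G v κ θ n hSC C0 t ct ht N eps w U U0 heps hw hwW sU sU0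
  obtain ⟨_, eV, dV⟩ := hT D G v κ θ hD htw hθ N eps z V _ heps hz1.le sV
  obtain ⟨_, eU, dU⟩ := hT D G v κ θ hD htw hθ N eps z U _ heps hz1.le sU
  have e1 := (h2 G (ph θ v) hp C0 s t cs ct hs.cap.cap ht.cap.cap hs.le ht.le N eps heps hC0N
    bt bt' hbt hbt' z hz1).2.1
  obtain ⟨_, a2, _⟩ := hJ D hD G htw.cls C0 s t hs.cap ht.cap N eps heps hC0N b b' hb hb' y hy1
  obtain ⟨hm1, hm2, -, -, -, -⟩ := hm D hD G htw.cls
  have hm0 : 0 ≤ G.mbar := by linarith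
  set M : ℝ := Sk D (1 - D⁻¹) with hM
  have hM0 : 0 ≤ M := Sk_nonneg hD0 (th_pos hD)
  have hME : M ≤ E ^ KM := (hKM D hD).trans (hpow KM)
  have hmE : G.mbar ≤ E ^ Km := hm2.trans (hpow Km)
  set Q : ℂ := ∑ g ∈ Icc (1 : ℤ) N, U g * V g with hQ
  set Q0 : ℂ := ∑ g ∈ Icc (1 : ℤ) N, V0 g * U0 g with hQ0
  have hqn1 := one_le_qn hn1
  have hqn0 : 0 < qn n := by linarith
  -- the caps
  have lS0 : lw 1 N (capc C0 cs 0 z) ≤ M := lw_capc_le hD hs N 1 (by norm_num) 0 (by norm_num)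
    hz1.le
  have lT0 : lw 1 N (capc C0 ct 0 z) ≤ M := lw_capc_le hD ht N 1 (by norm_num) 0 (by norm_num)
    hz1.le
  have lS1 : lw 1 N (capc C0 cs 1 z) ≤ M := lw_capc_le hD hs N 1 (by norm_num) 1 (by norm_num)
    hz1.le
  have lT1 : lw 1 N (capc C0 ct 1 z) ≤ M := lw_capc_le hD ht N 1 (by norm_num) 1 (by norm_num)
    hz1.le
  have hX1 : 1 ≤ D ^ KT := one_le_pow₀ hD1
  have pV := point_le hX1 hM0 (lw_nonneg _ _ _) lS0 dV
  have pU := point_le hX1 hM0 (lw_nonneg _ _ _) lT0 dU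
  have t1 : ‖∑ g ∈ Icc (1 : ℤ) N, capc C0 ct 1 z g * V g‖ ≤ D ^ KT * M * M :=
    cap_term (by positivity) pV lT1
  have t2 : ‖∑ g ∈ Icc (1 : ℤ) N, U g * capc C0 cs 1 z g‖ ≤ D ^ KT * M * M := by
    have e : ∑ g ∈ Icc (1 : ℤ) N, U g * capc C0 cs 1 z g =
        ∑ g ∈ Icc (1 : ℤ) N, capc C0 cs 1 z g * U g := Finset.sum_congr rfl fun g _ => mul_comm _ _
    rw [e]
    exact cap_term (by positivity) pU lS1
  have hEV : En N V + Pot eps N V ≤ D ^ KT * M ^ 2 := eV.trans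
    (mul_le_mul_of_nonneg_left (pow_le_pow_left₀ (lw_nonneg _ _ _) lS0 2) (by positivity))
  have hEU : En N U + Pot eps N U ≤ D ^ KT * M ^ 2 := eU.trans
    (mul_le_mul_of_nonneg_left (pow_le_pow_left₀ (lw_nonneg _ _ _) lT0 2) (by positivity))
  have t3 := pair_one (θ := θ) hD htw hCc H2 heps hz1.le sU.1 sV.1 hEU hEV
  rw [← hM, ← hQ] at t3
  -- the size of the pairing
  have nV : nrm N V ≤ E ^ KC * qn n := sqrt_le_qn cV3 (hone KC)
  have nU : nrm N U ≤ E ^ KC * qn n := sqrt_le_qn cU3 (hone KC)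
  have nU0 : nrm N U0 ≤ E ^ KC * qn n := sqrt_le_qn
    (cU2.trans (mul_le_mul_of_nonneg_right (hpow KC) (Real.sqrt_nonneg _))) (hone KC)
  have dV' : nrm N (fun g => V g - V0 g) ≤ E ^ KC := sqrt_le_of cV1 (hone KC)
  have dU' : nrm N (fun g => U g - U0 g) ≤ E ^ KC := sqrt_le_of cU1 (hone KC)
  have hd := pair_diff N U V U0 V0 dU' dV' nV nU0
  rw [← hQ, ← hQ0] at hd
  set Y : ℝ := E ^ KC with hY
  have hY0 : 0 ≤ Y := by positivity
  have hQV : ‖Q‖ ≤ Y * Y * Real.sqrt n := by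
    have h6 := (pair_le N U V).trans (mul_le_mul nU nV (nrm_nonneg _ _) (by positivity))
    rw [← hQ] at h6
    refine h6.trans (le_of_eq ?_)
    rw [← qn_sq]
    ring
  have hdist : ‖(G.rho : ℂ) - z‖ ≤ W / n := dist_le hwW hn0 hWn
  have hsn : Real.sqrt n ≤ n := by
    rw [Real.sqrt_le_left hn0'.le]
    have : (1 : ℝ) ≤ n := by exact_mod_cast hn1
    nlinarith
  have hcQ : (D * ‖(G.rho : ℂ) - z‖ + |θ|) * ‖Q‖ ≤ (E + E) * (Y * Y) := by
    have hθn := theta_sqrt hS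
    have h6 : D * (W / n) * Real.sqrt n ≤ E := by
      have : D * (W / n) * Real.sqrt n = E * (Real.sqrt n / n) := by
        rw [hEdef]
        ring
      rw [this]
      have h7 : Real.sqrt n / n ≤ 1 := (div_le_one hn0').2 hsn
      nlinarith
    have h8 : (D * ‖(G.rho : ℂ) - z‖ + |θ|) * Real.sqrt n ≤ E + E := by
      have h9 : D * ‖(G.rho : ℂ) - z‖ * Real.sqrt n ≤ D * (W / n) * Real.sqrt n :=
        mul_le_mul_of_nonneg_right (mul_le_mul_of_nonneg_left hdist hD0.le) (Real.sqrt_nonneg _)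
      rw [add_mul]
      linarith
    calc (D * ‖(G.rho : ℂ) - z‖ + |θ|) * ‖Q‖
        ≤ (D * ‖(G.rho : ℂ) - z‖ + |θ|) * (Y * Y * Real.sqrt n) :=
          mul_le_mul_of_nonneg_left hQV (by positivity)
      _ = ((D * ‖(G.rho : ℂ) - z‖ + |θ|) * Real.sqrt n) * (Y * Y) := by ring
      _ ≤ (E + E) * (Y * Y) := mul_le_mul_of_nonneg_right h8 (by positivity)
  -- the sum of the errors
  have e2 : cgf 1 (closec C0 ct bt) z - sgf 1 (close C0 t b) y =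
      (∑ g ∈ Icc (1 : ℤ) N, capc C0 ct 1 z g * V g + ∑ g ∈ Icc (1 : ℤ) N, U g * capc C0 cs 1 z g)
      + ((∑ g ∈ Icc (1 : ℤ) N, U g * KapT G (ph θ v) 1 eps z N V g) - (G.mbar : ℂ) * Q)
      + (-(sgf 1 (close C0 t b) y - (G.mbar : ℂ) * Q0)) + (G.mbar : ℂ) * (Q - Q0) := by
    rw [e1]
    ring
  rw [e2]
  have hkey := hK1 E hE2
  have b1 : ‖∑ g ∈ Icc (1 : ℤ) N, capc C0 ct 1 z g * V g +
      ∑ g ∈ Icc (1 : ℤ) N, U g * capc C0 cs 1 z g‖ ≤ 2 * (E ^ KT * E ^ KM * E ^ KM) := by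
    refine (norm_add_le _ _).trans ?_
    have h6 : D ^ KT * M * M ≤ E ^ KT * E ^ KM * E ^ KM := by
      have := hpow KT
      gcongr
    linarith
  have b2 : ‖(∑ g ∈ Icc (1 : ℤ) N, U g * KapT G (ph θ v) 1 eps z N V g) - (G.mbar : ℂ) * Q‖ ≤
      E ^ KM * (Cc * (E ^ KT * (E ^ KM) ^ 2)) + E ^ KM * ((E + E) * (Y * Y)) := by
    refine t3.trans (add_le_add ?_ ?_)
    · have := hpow KT
      gcongr
    · exact mul_le_mul hME hcQ (by positivity) (by positivity)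
  have b3 : ‖-(sgf 1 (close C0 t b) y - (G.mbar : ℂ) * Q0)‖ ≤ E ^ KJ := by
    rw [norm_neg]
    exact a2.trans (hpow KJ)
  have b4 : ‖(G.mbar : ℂ) * (Q - Q0)‖ ≤ E ^ Km * (2 * (Y * Y)) * qn n := by
    rw [norm_mul, Complex.norm_real, Real.norm_of_nonneg hm0]
    calc G.mbar * ‖Q - Q0‖ ≤ E ^ Km * (2 * (Y * (Y * qn n))) :=
          mul_le_mul hmE hd (norm_nonneg _) (by positivity)
      _ = _ := by ring
  have hB0 : 0 ≤ 2 * (E ^ KT * E ^ KM * E ^ KM)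
      + (E ^ KM * (Cc * (E ^ KT * (E ^ KM) ^ 2)) + E ^ KM * ((E + E) * (Y * Y))) + E ^ KJ := by
    positivity
  calc _ ≤ 2 * (E ^ KT * E ^ KM * E ^ KM)
        + (E ^ KM * (Cc * (E ^ KT * (E ^ KM) ^ 2)) + E ^ KM * ((E + E) * (Y * Y)))
        + E ^ KJ + E ^ Km * (2 * (Y * Y)) * qn n :=
        (norm_add_le _ _).trans (add_le_add ((norm_add_le _ _).trans (add_le_add
          ((norm_add_le _ _).trans (add_le_add b1 b2)) b3)) b4)
    _ ≤ (2 * (E ^ KT * E ^ KM * E ^ KM)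
        + (E ^ KM * (Cc * (E ^ KT * (E ^ KM) ^ 2)) + E ^ KM * ((E + E) * (Y * Y)))
        + E ^ KJ) * qn n + E ^ Km * (2 * (Y * Y)) * qn n := by
        refine add_le_add ?_ le_rfl
        exact le_mul_of_one_le_right hB0 hqn1
    _ = (2 * (E ^ KT * E ^ KM * E ^ KM)
        + (E ^ KM * (Cc * (E ^ KT * (E ^ KM) ^ 2)) + E ^ KM * ((E + E) * (Y * Y)))
        + E ^ KJ + E ^ Km * (2 * (Y * Y))) * qn n := by ring
    _ ≤ E ^ K1 * qn n := mul_le_mul_of_nonneg_right hkey hqn0.le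

end Pool.Agent.PFS
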