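import Pool.Agent.PFS.StmtsA
import Pool.Agent.PFS.TEN
import Pool.Agent.Lib_helper89.FL.GJ2

/-!
# Project PFS, module TTL: the solution away from the critical point
-/

set_option autoImplicit false

open Finset Filter Topology

namespace Pool.Agent.PFS

open Pool.Agent.Gap Pool.Agent.FL Pool.Agent.EXW

namespace TTLx

/-- the difference of the sources -/
lemma diff_le {G : GapKernel} {C0 : ℕ} {s : ℕ → ℤ → ℝ} {cs : ℕ → ℤ → ℂ} {θ : ℝ}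
    (hs : ∀ m g, 0 ≤ s m g) (near : ∀ m g, ‖cs m g - (s m g : ℂ)‖ ≤ |θ| * m * s m g)
    {z : ℂ} (hz : ‖z‖ ≤ G.rho) (g : ℤ) :
    ‖capc C0 cs 0 z g - capz C0 s 0 z g‖ ≤ |θ| * ‖capz C0 s 1 (G.rho : ℂ) g‖ := by
  have hρ := G.rho_pos
  have h1 : capz C0 s 1 (G.rho : ℂ) g =
      ((∑ m ∈ range (C0 + 1), (m : ℝ) * G.rho ^ m * s m g : ℝ) : ℂ) := by
    unfold capz
    push_cast
    exact Finset.sum_congr rfl fun m _ => by ring
  have h2 : 0 ≤ ∑ m ∈ range (C0 + 1), (m : ℝ) * G.rho ^ m * s m g :=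
    Finset.sum_nonneg fun m _ => by
      have := hs m g
      positivity
  rw [h1, Complex.norm_real, Real.norm_of_nonneg h2]
  unfold capc capz
  rw [← Finset.sum_sub_distrib, Finset.mul_sum]
  refine (norm_sum_le _ _).trans (Finset.sum_le_sum fun m _ => ?_)
  have h3 : ((m : ℂ)) ^ 0 * z ^ m * cs m g - ((m : ℂ)) ^ 0 * z ^ m * ((s m g : ℝ) : ℂ) =
      z ^ m * (cs m g - (s m g : ℂ)) := by ring
  rw [h3, norm_mul, norm_pow]
  have h4 : ‖z‖ ^ m ≤ G.rho ^ m := pow_le_pow_left₀ (norm_nonneg _) hz m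
  calc ‖z‖ ^ m * ‖cs m g - (s m g : ℂ)‖ ≤ G.rho ^ m * (|θ| * m * s m g) :=
        mul_le_mul h4 (near m g) (norm_nonneg _) (by positivity)
    _ = |θ| * ((m : ℝ) * G.rho ^ m * s m g) := by ring

/-- the weighted norm of the difference of the sources -/
lemma lw_diff {D : ℝ} (hD : 2 ≤ D) {G : GapKernel} {C0 : ℕ} {s : ℕ → ℤ → ℝ}
    {cs : ℕ → ℤ → ℂ} {θ : ℝ} (hs : ClsCap D (1 - D⁻¹) G C0 s)
    (near : ∀ m g, ‖cs m g - (s m g : ℂ)‖ ≤ |θ| * m * s m g) (N : ℕ) {z : ℂ}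
    (hz : ‖z‖ ≤ G.rho) :
    lw 1 N (fun g => capc C0 cs 0 z g - capz C0 s 0 z g) ≤ |θ| * GJ2.Sk D (1 - D⁻¹) := by
  have hρ := G.rho_pos
  have h1 : lw 1 N (capz C0 s 1 (G.rho : ℂ)) ≤ GJ2.Sk D (1 - D⁻¹) :=
    GJ2.lw_capz_le (by linarith) (th_pos hD) (th_lt hD) hs N 1 (by norm_num) 1 (by norm_num)
      (by rw [Complex.norm_real, Real.norm_of_nonneg hρ.le])
  refine le_trans ?_ (mul_le_mul_of_nonneg_left h1 (abs_nonneg θ))
  unfold lw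
  rw [Finset.mul_sum]
  refine Finset.sum_le_sum fun g hg => ?_
  have hg1 : (0 : ℝ) ≤ g := by
    have := (Finset.mem_Icc.1 hg).1
    exact_mod_cast (by omega : (0 : ℤ) ≤ g)
  calc (g : ℝ) ^ 1 * ‖capc C0 cs 0 z g - capz C0 s 0 z g‖
      ≤ (g : ℝ) ^ 1 * (|θ| * ‖capz C0 s 1 (G.rho : ℂ) g‖) :=
        mul_le_mul_of_nonneg_left (diff_le hs.cap.nonneg near hz g) (by positivity)
    _ = |θ| * ((g : ℝ) ^ 1 * ‖capz C0 s 1 (G.rho : ℂ) g‖) := by ring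

/-- the operator on the difference of two solutions -/
lemma form_diff {G : GapKernel} {p : ℕ × ℕ → ℂ} {eps : ℝ} {z : ℂ} {N : ℕ}
    {u u0 e e0 f : ℤ → ℂ} (hu : SolvesT G p eps z N u e) (hu0 : G.Solves eps z N u0 e0) :
    form N f (LopT G p eps z N (fun g => u g - u0 g)) =
      form N f (fun g => e g - e0 g) +
        form N f (fun g => KapT G p 0 eps z N u0 g - G.Kap 0 eps z N u0 g) := by
  unfold form
  rw [← Finset.sum_add_distrib]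
  refine Finset.sum_congr rfl fun g hg => ?_
  rw [← mul_add]
  congr 1
  have h1 := hu.2 g hg
  have h2 := hu0.2 g hg
  have h3 : KapT G p 0 eps z N (fun g => u g - u0 g) g =
      KapT G p 0 eps z N u g - KapT G p 0 eps z N u0 g := by
    unfold KapT
    rw [← Finset.sum_sub_distrib]
    exact Finset.sum_congr rfl fun g' _ => by ring
  unfold LopT at h1 ⊢
  unfold GapKernel.Lop at h2
  rw [h3]
  dsimp only
  rw [← h1, ← h2]
  ring

/-- the inequality for the two norms -/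
lemma alg {c δ X Y A U B t : ℝ} (hc : 0 < c) (hδ : 0 < δ) (ht : t ^ 2 ≤ δ)
    (h : c * (δ * X ^ 2 + Y ^ 2) ≤ A * δ * (X * U) + B * (t * Y)) :
    c ^ 2 * X ^ 2 ≤ A ^ 2 * U ^ 2 + B ^ 2 := by
  have h1 : 0 ≤ δ * (c * X - A * U) ^ 2 := mul_nonneg hδ.le (sq_nonneg _)
  have h2 : 0 ≤ (c * Y - B * t) ^ 2 := sq_nonneg _
  have h3 : B ^ 2 * t ^ 2 ≤ B ^ 2 * δ := mul_le_mul_of_nonneg_left ht (sq_nonneg _)
  have h4 : 2 * c * (c * (δ * X ^ 2 + Y ^ 2)) ≤ 2 * c * (A * δ * (X * U) + B * (t * Y)) :=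
    mul_le_mul_of_nonneg_left h (by positivity)
  have h5 : 0 ≤ c ^ 2 * Y ^ 2 := by positivity
  have h6 : δ * (c ^ 2 * X ^ 2) ≤ δ * (A ^ 2 * U ^ 2 + B ^ 2) := by nlinarith
  exact le_of_mul_le_mul_left h6 hδ

lemma nsq_le (N : ℕ) (u u0 : ℤ → ℂ) :
    nsq N u ≤ 2 * nsq N (fun g => u g - u0 g) + 2 * nsq N u0 := by
  unfold nsq
  rw [Finset.mul_sum, Finset.mul_sum, ← Finset.sum_add_distrib]
  refine Finset.sum_le_sum fun g _ => ?_
  have h1 : ‖u g‖ ≤ ‖u g - u0 g‖ + ‖u0 g‖ := by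
    calc ‖u g‖ = ‖(u g - u0 g) + u0 g‖ := by rw [sub_add_cancel]
      _ ≤ _ := norm_add_le _ _
  have h2 := pow_le_pow_left₀ (norm_nonneg _) h1 2
  nlinarith [sq_nonneg (‖u g - u0 g‖ - ‖u0 g‖)]

lemma pb_Sk : PB fun D => GJ2.Sk D (1 - D⁻¹) :=
  PB.id.mul (PB.geo 7 (fun _ hD => (th_pos hD).le) LB.inv_self fun _ _ => le_rfl)

end TTLx

open TTLx in
/-- MODULE TTL -/
theorem t_TTL (h1 : TGC_Stmt) (h2 : TDF_Stmt) (h3 : TMS_Stmt) (h4 : QGRE_Stmt)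
    (h5 : QGSUP_Stmt) (h6 : QGW_Stmt) : TTL_Stmt := by
  obtain ⟨K1, H1⟩ := h1
  obtain ⟨K2, H2⟩ := h2
  obtain ⟨⟨K3, H3⟩, _⟩ := h3
  obtain ⟨K4, H4⟩ := h4
  obtain ⟨K5, H5⟩ := h5
  obtain ⟨K6, H6⟩ := h6
  have hPB : PB fun D => 2 * ((D ^ K1) ^ 2 * ((2 * D ^ K3) ^ 2 *
      (D ^ K6 * GJ2.Sk D (1 - D⁻¹) ^ 2) +
      (GJ2.Sk D (1 - D⁻¹) + D ^ K2 * (D ^ K5 * GJ2.Sk D (1 - D⁻¹))) ^ 2)) +
      2 * (D ^ K6 * GJ2.Sk D (1 - D⁻¹) ^ 2) := by
    have p1 : ∀ k : ℕ, PB fun D => D ^ k := fun k => PB.id.pow k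
    have p2 : PB fun D => D ^ K6 * GJ2.Sk D (1 - D⁻¹) ^ 2 := (p1 K6).mul (pb_Sk.pow 2)
    exact ((PB.const 2).mul (((p1 K1).pow 2).mul
      (((((PB.const 2).mul (p1 K3)).pow 2).mul p2).add
        ((pb_Sk.add ((p1 K2).mul ((p1 K5).mul pb_Sk))).pow 2)))).add ((PB.const 2).mul p2)
  obtain ⟨K, hK⟩ := hPB.le
  refine ⟨max K1 K, fun D G v κ θ hD hT hθ C0 s cs hcap N eps z u heps hz hzne hδ hu => ?_⟩
  have hD1 : (1 : ℝ) ≤ D := by linarith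
  have hD0 : 0 < D ^ K1 := by positivity
  have hG := hT.cls
  have hρ := G.rho_pos
  have hθ1 : |θ| * D ^ K1 ≤ 1 :=
    (mul_le_mul_of_nonneg_left (PB.pow_mono hD (le_max_left K1 K)) (abs_nonneg θ)).trans hθ
  have hθ0 : |θ| ≤ 1 := by
    have h7 : (1 : ℝ) ≤ D ^ K1 := one_le_pow₀ hD1
    have h8 := abs_nonneg θ
    nlinarith
  obtain ⟨M, hM⟩ : ∃ M, M = GJ2.Sk D (1 - D⁻¹) := ⟨_, rfl⟩
  have hM0 : 0 ≤ M := by rw [hM]; exact GJ2.Sk_nonneg (by linarith) (th_pos hD)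
  obtain ⟨δ, hδd⟩ : ∃ δ, δ = ‖(G.rho : ℂ) - z‖ := ⟨_, rfl⟩
  have hδ0 : 0 < δ := by
    rw [hδd]
    exact norm_pos_iff.mpr (sub_ne_zero.mpr (Ne.symm hzne))
  have hδ1 : δ ≤ 1 := by
    have h7 : δ ≤ 2 * G.rho := by rw [hδd]; exact H22.delta_le hz
    have h8 := GJ2.rho_le G
    linarith
  rw [← hδd] at hδ ⊢
  -- the solution without phases
  obtain ⟨u0, hu0⟩ := (H4 D hD G hG N eps z heps hz).1 (capz C0 s 0 z)
  obtain ⟨x, hx⟩ : ∃ x : ℤ → ℂ, x = fun g => u g - u0 g := ⟨_, rfl⟩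
  have hxs : Supp N x := by
    intro g hg
    rw [hx]
    show u g - u0 g = 0
    rw [hu.1 g hg, hu0.1 g hg, sub_zero]
  have hE := H22.En_nonneg N x
  have hP := H22.Pot_nonneg heps N x
  have hE0 := H22.En_nonneg N u0
  have hP0 := H22.Pot_nonneg heps N u0
  have hX := H22.nsq_nonneg N x
  have hU := H22.nsq_nonneg N u0
  -- bounds for `u0`
  have bE : En N u0 + Pot eps N u0 ≤ D ^ K5 * M ^ 2 := by
    refine (H5 D hD G hG N eps z u0 _ heps hz hu0).2.trans ?_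
    refine mul_le_mul_of_nonneg_left (pow_le_pow_left₀ (GJ2.lw_nonneg _ _ _) ?_ 2) (by positivity)
    rw [hM]
    exact GJ2.lw_capz_le (by linarith) (th_pos hD) (th_lt hD) hcap.cap N 1 (by norm_num) 0
      (by norm_num) hz
  have bN : nsq N u0 * Real.sqrt δ ≤ D ^ K6 * M ^ 2 := by
    have h7 := (H6 D hD G hG N eps z u0 _ heps hz hzne hu0).1 0 (by norm_num)
    have h8 : mulg 0 u0 = u0 := by funext g; simp [mulg]
    rw [h8, pow_zero, mul_one, ← hδd, le_div_iff₀ (Real.sqrt_pos.2 hδ0)] at h7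
    refine h7.trans ?_
    refine mul_le_mul_of_nonneg_left (pow_le_pow_left₀ (GJ2.lw_nonneg _ _ _) ?_ 2) (by positivity)
    rw [hM]
    exact GJ2.lw_capz_le (by linarith) (th_pos hD) (th_lt hD) hcap.cap N 4 le_rfl 0
      (by norm_num) hz
  -- the three terms
  obtain ⟨Y, hY⟩ : ∃ Y, Y = Real.sqrt (En N x + Pot eps N x) := ⟨_, rfl⟩
  have hY0 : 0 ≤ Y := by rw [hY]; exact Real.sqrt_nonneg _
  have hY2 : Y ^ 2 = En N x + Pot eps N x := by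
    rw [hY]
    exact Real.sq_sqrt (by linarith)
  have t1 := H1 D G v κ θ hD hT hθ1 N eps z x heps hz hxs
  rw [hx, form_diff hu hu0, ← hx, ← hδd] at t1
  have t2 : ‖form N x (fun g => capc C0 cs 0 z g - capz C0 s 0 z g)‖ ≤ Y * (|θ| * M) := by
    have h7 := TENx.form_le_lw (e := fun g => capc C0 cs 0 z g - capz C0 s 0 z g) hxs
      (show En N x ≤ En N x + Pot eps N x by linarith)
    rw [← hY] at h7
    refine h7.trans (mul_le_mul_of_nonneg_left ?_ hY0)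
    rw [hM]
    exact lw_diff hD hcap.cap hcap.near N hz
  have t3 := H2 D G v κ θ hD hT N eps z z x u0 heps hz hz hxs hu0.1
  have t4 : ‖∑ i ∈ G.S, (z ^ i.1 * ph θ v i - z ^ i.1) * (G.tot i : ℂ)‖ ≤ 2 * D ^ K3 * δ := by
    refine (H3 D G v κ θ hD hT z hz).trans ?_
    rw [← hδd]
    have h7 : θ ^ 2 + |θ| * δ ≤ 2 * δ := by nlinarith
    calc D ^ K3 * (θ ^ 2 + |θ| * δ) ≤ D ^ K3 * (2 * δ) :=
          mul_le_mul_of_nonneg_left h7 (by positivity)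
      _ = _ := by ring
  rw [sub_self, norm_zero, zero_add, ← hY] at t3
  have t5 : Real.sqrt (En N u0 + Pot eps N u0) ≤ D ^ K5 * M := by
    rw [Real.sqrt_le_left (by positivity)]
    refine bE.trans ?_
    rw [mul_pow]
    refine mul_le_mul_of_nonneg_right ?_ (sq_nonneg _)
    have h7 : (1 : ℝ) ≤ D ^ K5 := one_le_pow₀ hD1
    nlinarith
  have main : (D ^ K1)⁻¹ * (δ * Real.sqrt (nsq N x) ^ 2 + Y ^ 2) ≤
      2 * D ^ K3 * δ * (Real.sqrt (nsq N x) * Real.sqrt (nsq N u0)) +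
        (M + D ^ K2 * (D ^ K5 * M)) * (|θ| * Y) := by
    rw [Real.sq_sqrt hX, hY2, ← add_assoc]
    refine t1.trans ((norm_add_le _ _).trans ((add_le_add t2 t3).trans ?_))
    have h7 : ‖∑ i ∈ G.S, (z ^ i.1 * ph θ v i - z ^ i.1) * (G.tot i : ℂ)‖ *
        (Real.sqrt (nsq N x) * Real.sqrt (nsq N u0)) ≤
        2 * D ^ K3 * δ * (Real.sqrt (nsq N x) * Real.sqrt (nsq N u0)) :=
      mul_le_mul_of_nonneg_right t4 (by positivity)
    have h8 : D ^ K2 * |θ| * (Y * Real.sqrt (En N u0 + Pot eps N u0)) ≤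
        D ^ K2 * |θ| * (Y * (D ^ K5 * M)) :=
      mul_le_mul_of_nonneg_left (mul_le_mul_of_nonneg_left t5 hY0) (by positivity)
    linarith
  have hfin := alg (inv_pos.2 hD0) hδ0 (by rw [sq_abs]; exact hδ) main
  rw [Real.sq_sqrt hX, Real.sq_sqrt hU, inv_pow, inv_mul_le_iff₀ (by positivity)] at hfin
  -- conclusion
  have hs0 : 0 ≤ Real.sqrt δ := Real.sqrt_nonneg δ
  have hs1 : Real.sqrt δ ≤ 1 := Real.sqrt_le_one.2 hδ1
  have e1 : nsq N x * Real.sqrt δ ≤ (D ^ K1) ^ 2 * ((2 * D ^ K3) ^ 2 * (D ^ K6 * M ^ 2) +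
      (M + D ^ K2 * (D ^ K5 * M)) ^ 2) := by
    calc nsq N x * Real.sqrt δ ≤ (D ^ K1) ^ 2 * ((2 * D ^ K3) ^ 2 * nsq N u0 +
          (M + D ^ K2 * (D ^ K5 * M)) ^ 2) * Real.sqrt δ := mul_le_mul_of_nonneg_right hfin hs0
      _ = (D ^ K1) ^ 2 * ((2 * D ^ K3) ^ 2 * (nsq N u0 * Real.sqrt δ) +
          (M + D ^ K2 * (D ^ K5 * M)) ^ 2 * Real.sqrt δ) := by ring
      _ ≤ _ := by
          refine mul_le_mul_of_nonneg_left (add_le_add ?_ ?_) (by positivity)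
          · exact mul_le_mul_of_nonneg_left bN (by positivity)
          · exact mul_le_of_le_one_right (sq_nonneg _) hs1
  have e2 := mul_le_mul_of_nonneg_right (nsq_le N u u0) hs0
  rw [← hx] at e2
  have e3 := (hK D hD).trans (PB.pow_mono hD (le_max_right K1 K))
  rw [← hM] at e3
  linarith

end Pool.Agent.PFS
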