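import Pool.Agent.PFS.StmtsA
import Pool.Agent.Lib_helper89.FL.GJ2
import Pool.Agent.Lib_helper24.Gap.J1
import Pool.Agent.Lib_helper84.Gap.XLim

/-!
# Project PFS, module TUB: upper bound of the coefficients
-/

set_option autoImplicit false

open Finset Filter Topology

namespace Pool.Agent.PFS

open Pool.Agent.Gap Pool.Agent.FL Pool.Agent.EXW Pool.Agent.Gap.H22 Pool.Agent.FL.GJ2

namespace TUBx

lemma cgf_cast (j : ℕ) (a : ℕ → ℝ) (z : ℂ) : cgf j (fun m => ((a m : ℝ) : ℂ)) z = sgf j a z := rfl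

lemma cgf_zero (j : ℕ) (z : ℂ) : cgf j (fun _ => (0 : ℂ)) z = 0 := by
  unfold cgf
  simp

/-- the bound of the first derivative at one point of the disc -/
lemma first {M mb CJ CW : ℝ} {G : GapKernel} {N : ℕ} {z S : ℂ} {V U e e' : ℤ → ℂ}
    (hCW : 0 ≤ CW) (hmb : 0 ≤ mb) (hCJ : 0 ≤ CJ)
    (hδ0 : 0 < ‖(G.rho : ℂ) - z‖) (hδ1 : ‖(G.rho : ℂ) - z‖ ≤ 1)
    (hV : nsq N V ≤ CW * (lw 4 N e) ^ 2 / Real.sqrt ‖(G.rho : ℂ) - z‖)
    (hU : nsq N U ≤ CW * (lw 4 N e') ^ 2 / Real.sqrt ‖(G.rho : ℂ) - z‖)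
    (he : lw 4 N e ≤ M) (he' : lw 4 N e' ≤ M)
    (hJ : ‖S - (mb : ℂ) * ∑ g ∈ Icc (1 : ℤ) N, V g * U g‖ ≤ CJ) :
    ‖S‖ * Real.sqrt ‖(G.rho : ℂ) - z‖ ≤ CJ + mb * (CW * M ^ 2) := by
  set q : ℝ := Real.sqrt ‖(G.rho : ℂ) - z‖ with hq
  have hq0 : 0 < q := Real.sqrt_pos.2 hδ0
  have hq1 : q ≤ 1 := Real.sqrt_le_one.2 hδ1
  have hb : ∀ (f u : ℤ → ℂ), nsq N f ≤ CW * (lw 4 N u) ^ 2 / q → lw 4 N u ≤ M →
      nsq N f * q ≤ CW * M ^ 2 := by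
    intro f u h1 h2
    rw [le_div_iff₀ hq0] at h1
    exact h1.trans (mul_le_mul_of_nonneg_left (pow_le_pow_left₀ (GJ2.lw_nonneg _ _ _) h2 2) hCW)
  have h1 := hb V e hV he
  have h2 := hb U e' hU he'
  have h3 : ‖∑ g ∈ Icc (1 : ℤ) N, V g * U g‖ * q ≤ CW * M ^ 2 := by
    have h4 : ‖∑ g ∈ Icc (1 : ℤ) N, V g * U g‖ ≤ (nsq N V + nsq N U) / 2 := by
      refine (norm_sum_le _ _).trans ?_
      have h5 : (nsq N V + nsq N U) / 2 =
          ∑ g ∈ Icc (1 : ℤ) N, (‖V g‖ ^ 2 + ‖U g‖ ^ 2) / 2 := by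
        unfold nsq
        rw [← Finset.sum_add_distrib, Finset.sum_div]
      rw [h5]
      refine Finset.sum_le_sum fun g _ => ?_
      rw [norm_mul]
      nlinarith [sq_nonneg (‖V g‖ - ‖U g‖)]
    nlinarith [mul_le_mul_of_nonneg_right h4 hq0.le]
  have h6 : ‖S‖ ≤ CJ + mb * ‖∑ g ∈ Icc (1 : ℤ) N, V g * U g‖ := by
    have h7 : ‖S‖ ≤ ‖S - (mb : ℂ) * ∑ g ∈ Icc (1 : ℤ) N, V g * U g‖ +
        ‖(mb : ℂ) * ∑ g ∈ Icc (1 : ℤ) N, V g * U g‖ := by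
      have := norm_add_le (S - (mb : ℂ) * ∑ g ∈ Icc (1 : ℤ) N, V g * U g)
        ((mb : ℂ) * ∑ g ∈ Icc (1 : ℤ) N, V g * U g)
      rwa [sub_add_cancel] at this
    rw [norm_mul (mb : ℂ), Complex.norm_real, Real.norm_eq_abs, abs_of_nonneg hmb] at h7
    linarith
  calc ‖S‖ * q ≤ (CJ + mb * ‖∑ g ∈ Icc (1 : ℤ) N, V g * U g‖) * q :=
        mul_le_mul_of_nonneg_right h6 hq0.le
    _ = CJ * q + mb * (‖∑ g ∈ Icc (1 : ℤ) N, V g * U g‖ * q) := by ring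
    _ ≤ CJ * 1 + mb * (CW * M ^ 2) := add_le_add (mul_le_mul_of_nonneg_left hq1 hCJ)
        (mul_le_mul_of_nonneg_left h3 hmb)
    _ = _ := by rw [mul_one]

/-- from the weight `x` to the distance `δ` -/
lemma wt1 {D x δ : ℝ} (hx : x ≤ 3 * D * δ) (hD : 0 ≤ D) :
    Real.sqrt x ≤ Real.sqrt (3 * D) * Real.sqrt δ := by
  rw [← Real.sqrt_mul (by positivity)]
  exact Real.sqrt_le_sqrt hx

/-- the point of the circle: distance to `ρ` -/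
lemma dist_ge {D rho : ℝ} (hD : 0 < D) (hr : D⁻¹ ≤ rho) {n : ℕ} (hn : 1 ≤ n) {w : ℂ}
    (hw : w.re = 1) (hτ : |w.im| ≤ Real.pi * n) :
    |w.im| / n ≤ 3 * D * ‖(rho : ℂ) - zn rho w n‖ ∧ 1 / (n : ℝ) ≤ 3 * D * ‖(rho : ℂ) - zn rho w n‖ := by
  have hn' : (0 : ℝ) < n := by exact_mod_cast hn
  have hr0 : 0 < rho := lt_of_lt_of_le (inv_pos.2 hD) hr
  have e : w = 1 + w.im * Complex.I := by
    apply Complex.ext <;> simp [hw]
  have h1 := norm_rho_sub_ge' hr0 hn hτ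
  rw [← e] at h1
  have h2 : 1 ≤ rho * D := by
    have := mul_le_mul_of_nonneg_right hr hD.le
    rwa [inv_mul_cancel₀ hD.ne'] at this
  have key : ∀ t : ℝ, 0 ≤ t → t ≤ ‖w‖ → t / n ≤ 3 * D * ‖(rho : ℂ) - zn rho w n‖ := by
    intro t ht0 ht
    calc t / n ≤ (rho * D) * (t / n) := le_mul_of_one_le_left (by positivity) h2
      _ = 3 * D * (rho / 3 / n * t) := by ring
      _ ≤ 3 * D * (rho / 3 / n * ‖w‖) := by gcongr
      _ ≤ _ := by gcongr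
  refine ⟨key _ (abs_nonneg _) (Complex.abs_im_le_norm w), key 1 (by norm_num) ?_⟩
  have := Complex.abs_re_le_norm w
  rwa [hw, abs_one] at this

/-- the coefficients from the two bounds on the disc -/
lemma coef {CX D B1 B2 : ℝ} (hD : 2 ≤ D) (hB1 : 0 ≤ B1) (hB2 : 0 ≤ B2)
    (H : ∀ (rho γ M E Y : ℝ) (n : ℕ) (a a' : ℕ → ℂ),
      0 < rho → 0 ≤ γ → 0 ≤ M → 0 ≤ E → 1 ≤ Y → Y ≤ n →
      (∀ z : ℂ, ‖z‖ < rho → ∀ j, Summable fun m : ℕ => ‖((m : ℂ)) ^ j * a m * z ^ m‖) →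
      (∀ z : ℂ, ‖z‖ < rho → ∀ j, Summable fun m : ℕ => ‖((m : ℂ)) ^ j * a' m * z ^ m‖) →
      (∀ w : ℂ, w.re = 1 → Y ≤ |w.im| → |w.im| ≤ Real.pi * n →
        ‖cgf 1 a (zn rho w n)‖ * Real.sqrt (|w.im| / n) ≤ M ∧
        ‖cgf 2 a (zn rho w n)‖ * ((|w.im| / n) * Real.sqrt (|w.im| / n)) ≤ M ∧
        ‖cgf 1 a' (zn rho (w + (γ : ℂ)) n)‖ * Real.sqrt (|w.im| / n) ≤ M ∧
        ‖cgf 2 a' (zn rho (w + (γ : ℂ)) n)‖ * ((|w.im| / n) * Real.sqrt (|w.im| / n)) ≤ M) →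
      (∀ w : ℂ, w.re = 1 → |w.im| ≤ Y →
        ‖cgf 1 a (zn rho w n) - cgf 1 a' (zn rho (w + (γ : ℂ)) n)‖ ≤ E * Real.sqrt n) →
      ((n : ℝ) * Real.sqrt n) * rho ^ n * ‖a n - (Real.exp (-γ) : ℂ) * a' n‖ ≤
        CX * (Y * E + M / Real.sqrt Y))
    {rho : ℝ} (hr : D⁻¹ ≤ rho) {c : ℕ → ℝ}
    (hs : ∀ z : ℂ, ‖z‖ < rho → ∀ j, Summable fun n : ℕ => ‖((n : ℂ)) ^ j * ((c n : ℝ) : ℂ) * z ^ n‖)
    (h1 : ∀ z : ℂ, ‖z‖ < rho → ‖sgf 1 c z‖ * Real.sqrt ‖(rho : ℂ) - z‖ ≤ B1)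
    (h2 : ∀ z : ℂ, ‖z‖ < rho →
      ‖sgf 2 c z‖ * (‖(rho : ℂ) - z‖ * Real.sqrt ‖(rho : ℂ) - z‖) ≤ B2)
    {n : ℕ} (hn : 1 ≤ n) :
    ((n : ℝ) * Real.sqrt n) * rho ^ n * c n ≤
      CX * (1 * (Real.sqrt (3 * D) * B1) +
        (Real.sqrt (3 * D) * B1 + 3 * D * Real.sqrt (3 * D) * B2) / Real.sqrt 1) := by
  have hn' : (0 : ℝ) < n := by exact_mod_cast hn
  have hD0 : 0 < D := by linarith
  have hr0 : 0 < rho := lt_of_lt_of_le (inv_pos.2 hD0) hr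
  have hlt : ∀ w : ℂ, w.re = 1 → ‖zn rho w n‖ < rho := fun w hw =>
    norm_zn_lt hr0 (by rw [hw]; norm_num) hn
  have hs3 : 0 ≤ Real.sqrt (3 * D) := Real.sqrt_nonneg _
  have hd1 : 0 ≤ Real.sqrt (3 * D) * B1 := by positivity
  have hd2 : 0 ≤ 3 * D * Real.sqrt (3 * D) * B2 := by positivity
  have b1 : ∀ (w : ℂ) (x : ℝ), w.re = 1 → x ≤ 3 * D * ‖(rho : ℂ) - zn rho w n‖ →
      ‖sgf 1 c (zn rho w n)‖ * Real.sqrt x ≤ Real.sqrt (3 * D) * B1 := by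
    intro w x hw hx
    calc ‖sgf 1 c (zn rho w n)‖ * Real.sqrt x
        ≤ ‖sgf 1 c (zn rho w n)‖ * (Real.sqrt (3 * D) * Real.sqrt ‖(rho : ℂ) - zn rho w n‖) :=
          mul_le_mul_of_nonneg_left (wt1 hx hD0.le) (norm_nonneg _)
      _ = Real.sqrt (3 * D) * (‖sgf 1 c (zn rho w n)‖ * Real.sqrt ‖(rho : ℂ) - zn rho w n‖) := by
          ring
      _ ≤ _ := mul_le_mul_of_nonneg_left (h1 _ (hlt w hw)) hs3
  have b2 : ∀ (w : ℂ) (x : ℝ), w.re = 1 → 0 ≤ x → x ≤ 3 * D * ‖(rho : ℂ) - zn rho w n‖ →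
      ‖sgf 2 c (zn rho w n)‖ * (x * Real.sqrt x) ≤ 3 * D * Real.sqrt (3 * D) * B2 := by
    intro w x hw hx0 hx
    calc ‖sgf 2 c (zn rho w n)‖ * (x * Real.sqrt x)
        ≤ ‖sgf 2 c (zn rho w n)‖ * ((3 * D * ‖(rho : ℂ) - zn rho w n‖) *
            (Real.sqrt (3 * D) * Real.sqrt ‖(rho : ℂ) - zn rho w n‖)) := by
          refine mul_le_mul_of_nonneg_left (mul_le_mul hx (wt1 hx hD0.le) (Real.sqrt_nonneg _)
            (by positivity)) (norm_nonneg _)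
      _ = 3 * D * Real.sqrt (3 * D) * (‖sgf 2 c (zn rho w n)‖ *
            (‖(rho : ℂ) - zn rho w n‖ * Real.sqrt ‖(rho : ℂ) - zn rho w n‖)) := by
          ring
      _ ≤ _ := mul_le_mul_of_nonneg_left (h2 _ (hlt w hw)) (by positivity)
  have key := H rho 0 (Real.sqrt (3 * D) * B1 + 3 * D * Real.sqrt (3 * D) * B2)
    (Real.sqrt (3 * D) * B1) 1 n (fun m => ((c m : ℝ) : ℂ)) (fun _ => 0) hr0 le_rfl
    (by positivity) hd1 le_rfl (by exact_mod_cast hn) hs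
    (fun z _ j => by simp [summable_zero])
    (by
      intro w hw hY hπ
      obtain ⟨g1, g2⟩ := dist_ge hD0 hr hn hw hπ
      have hx0 : 0 ≤ |w.im| / n := by positivity
      rw [cgf_cast, cgf_cast, cgf_zero, cgf_zero, norm_zero, zero_mul, zero_mul]
      refine ⟨?_, ?_, by positivity, by positivity⟩
      · have := b1 w _ hw g1
        linarith
      · have := b2 w _ hw hx0 g1
        linarith)
    (by
      intro w hw hY
      have hπ : |w.im| ≤ Real.pi * n := by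
        have h3 := Real.pi_gt_three
        have h4 : (1 : ℝ) ≤ n := by exact_mod_cast hn
        nlinarith
      obtain ⟨g1, g2⟩ := dist_ge hD0 hr hn hw hπ
      rw [cgf_cast, cgf_zero, sub_zero]
      have h5 := b1 w _ hw g2
      rw [Real.sqrt_div zero_le_one, Real.sqrt_one, mul_one_div, div_le_iff₀
        (Real.sqrt_pos.2 hn')] at h5
      exact h5)
  rw [mul_zero, sub_zero, Complex.norm_real, Real.norm_eq_abs] at key
  refine le_trans ?_ key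
  exact mul_le_mul_of_nonneg_left (le_abs_self _) (by positivity)

end TUBx

open TUBx in
/-- MODULE TUB -/
theorem t_TUB (h1 : TX_Stmt) (h2 : QGJ2_Stmt) (h3 : QGW_Stmt) : TUB_Stmt := by
  obtain ⟨CX, hCX, HX⟩ := h1
  obtain ⟨KJ, HJ⟩ := h2
  obtain ⟨KW, HW⟩ := h3
  obtain ⟨KM, HM⟩ := par_bounds
  have pM : PB fun D => Sk D (1 - D⁻¹) :=
    PB.id.mul (PB.geo 7 (fun D hD => (th_pos hD).le) LB.inv_self fun D _ => le_rfl)
  have pB1 : PB fun D => D ^ KJ + D ^ KM * (D ^ KW * Sk D (1 - D⁻¹) ^ 2) :=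
    (PB.pow_self KJ).add ((PB.pow_self KM).mul ((PB.pow_self KW).mul (pM.pow 2)))
  have p3 : PB fun D => 3 * D := (PB.const 3).mul PB.id
  have pX : PB fun D => Real.sqrt (3 * D) * (D ^ KJ + D ^ KM * (D ^ KW * Sk D (1 - D⁻¹) ^ 2)) :=
    p3.sqrt.mul pB1
  have pT : PB fun D => CX * (1 * (Real.sqrt (3 * D) *
        (D ^ KJ + D ^ KM * (D ^ KW * Sk D (1 - D⁻¹) ^ 2))) +
        (Real.sqrt (3 * D) * (D ^ KJ + D ^ KM * (D ^ KW * Sk D (1 - D⁻¹) ^ 2)) +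
          3 * D * Real.sqrt (3 * D) * D ^ KJ) / Real.sqrt 1) := by
    have h4 : PB fun D => CX * (1 * (Real.sqrt (3 * D) *
        (D ^ KJ + D ^ KM * (D ^ KW * Sk D (1 - D⁻¹) ^ 2))) +
        (Real.sqrt (3 * D) * (D ^ KJ + D ^ KM * (D ^ KW * Sk D (1 - D⁻¹) ^ 2)) +
          3 * D * Real.sqrt (3 * D) * D ^ KJ)) :=
      (PB.const CX).mul (((PB.const 1).mul pX).add (pX.add ((p3.mul p3.sqrt).mul (PB.pow_self KJ))))
    simpa only [Real.sqrt_one, div_one] using h4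
  obtain ⟨K, hK⟩ := pT.le
  refine ⟨K, ?_⟩
  intro D G hD hG C0 s t hs ht N eps heps hN b hb n hn
  have hD0 : (0 : ℝ) < D := by linarith
  obtain ⟨b', hb'⟩ := (J1 G C0 t ht.cap N eps heps).1
  have hmb := HM D hD G hG
  have hSk : 0 ≤ Sk D (1 - D⁻¹) := Sk_nonneg hD0 (th_pos hD)
  refine (coef hD (B1 := D ^ KJ + D ^ KM * (D ^ KW * Sk D (1 - D⁻¹) ^ 2)) (B2 := D ^ KJ)
    (by positivity) (by positivity) HX hG.rho_ge (c := close C0 t b) ?_ ?_ ?_ hn).trans (hK D hD)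
  · intro z hz
    exact (HJ D hD G hG C0 s t hs ht N eps heps hN b b' hb hb' z hz).1
  · intro z hz
    have hzne : z ≠ (G.rho : ℂ) := by
      rintro rfl
      rw [Complex.norm_real, Real.norm_eq_abs, abs_of_pos G.rho_pos] at hz
      exact lt_irrefl _ hz
    have hδ0 : 0 < ‖(G.rho : ℂ) - z‖ := norm_pos_iff.mpr (sub_ne_zero.mpr (Ne.symm hzne))
    have hδ1 : ‖(G.rho : ℂ) - z‖ ≤ 1 := by
      have h5 : ‖(G.rho : ℂ) - z‖ ≤ 2 * G.rho := delta_le hz.le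
      have h6 := rho_le G
      linarith
    have sV : G.Solves eps z N (gf 0 b z) (capz C0 s 0 z) := by
      have := (((J1 G C0 s hs.cap N eps heps).2 b hb).2.2.2) z hz 0
      simpa using this
    have sU : G.Solves eps z N (gf 0 b' z) (capz C0 t 0 z) := by
      have := (((J1 G C0 t ht.cap N eps heps).2 b' hb').2.2.2) z hz 0
      simpa using this
    have hm : ∀ f e : ℤ → ℂ, G.Solves eps z N f e →
        nsq N f ≤ D ^ KW * (lw 4 N e) ^ 2 / Real.sqrt ‖(G.rho : ℂ) - z‖ := by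
      intro f e hf
      have h4 := (HW D hD G hG N eps z f e heps hz.le hzne hf).1 0 (by norm_num)
      have h5 : mulg 0 f = f := by funext g; simp [mulg]
      rwa [h5, pow_zero, mul_one] at h4
    have h6 := first (M := Sk D (1 - D⁻¹)) (mb := G.mbar) (CJ := D ^ KJ)
      (CW := D ^ KW) (G := G) (by positivity) (by linarith [hmb.1]) (by positivity) hδ0 hδ1
      (hm _ _ sV) (hm _ _ sU)
      (lw_capz_le hD0 (th_pos hD) (th_lt hD) hs N 4 le_rfl 0 (by norm_num) hz.le)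
      (lw_capz_le hD0 (th_pos hD) (th_lt hD) ht N 4 le_rfl 0 (by norm_num) hz.le)
      (HJ D hD G hG C0 s t hs ht N eps heps hN b b' hb hb' z hz).2.1
    refine h6.trans (add_le_add le_rfl (mul_le_mul_of_nonneg_right hmb.2.1 (by positivity)))
  · intro z hz
    exact (HJ D hD G hG C0 s t hs ht N eps heps hN b b' hb hb' z hz).2.2

end Pool.Agent.PFS
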