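import Pool.Agent.PFS.StmtsA

/-!
# PFS, module TX: coefficient extraction on two circles
-/

set_option autoImplicit false

open Finset Filter Topology MeasureTheory

namespace Pool.Agent.PFS

open Pool.Agent.Gap Pool.Agent.FL Pool.Agent.EXW

namespace TXaux

/-- the phase of order `m` -/
noncomputable def e (n m : ℕ) (τ : ℝ) : ℂ := Complex.exp ((((-(m : ℝ) / n) * τ : ℝ) : ℂ) * Complex.I)

lemma norm_e (n m : ℕ) (τ : ℝ) : ‖e n m τ‖ = 1 := Complex.norm_exp_ofReal_mul_I _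

lemma hasDerivAt_e (n m : ℕ) (τ : ℝ) :
    HasDerivAt (e n m) (-(((m : ℂ) / n) * Complex.I) * e n m τ) τ := by
  have h1 : HasDerivAt (fun τ : ℝ => ((((-(m : ℝ) / n) * τ : ℝ) : ℂ) * Complex.I))
      ((((-(m : ℝ) / n) : ℝ) : ℂ) * Complex.I) τ := by
    have h0 : HasDerivAt (fun τ : ℝ => (-(m : ℝ) / n) * τ) (-(m : ℝ) / n) τ := by
      simpa using (hasDerivAt_id τ).const_mul (-(m : ℝ) / n)
    exact (h0.ofReal_comp).mul_const Complex.I
  have h2 := h1.cexp
  have h3 : Complex.exp ((((-(m : ℝ) / n) * τ : ℝ) : ℂ) * Complex.I) *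
      ((((-(m : ℝ) / n) : ℝ) : ℂ) * Complex.I) = -(((m : ℂ) / n) * Complex.I) * e n m τ := by
    unfold e
    push_cast
    ring
  rw [← h3]
  exact h2

lemma continuous_e (n m : ℕ) : Continuous (e n m) :=
  continuous_iff_continuousAt.2 fun τ => (hasDerivAt_e n m τ).continuousAt

/-- the Fourier series with `j` marks -/
noncomputable def Fs (n j : ℕ) (c : ℕ → ℂ) (τ : ℝ) : ℂ := ∑' m : ℕ, ((m : ℂ) ^ j * c m) * e n m τ

/-- summability with all polynomial weights -/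
def Sm (c : ℕ → ℂ) : Prop := ∀ j : ℕ, Summable fun m : ℕ => ‖((m : ℂ)) ^ j * c m‖

lemma Sm.sub {c d : ℕ → ℂ} (hc : Sm c) (hd : Sm d) : Sm (fun m => c m - d m) := by
  intro j
  refine Summable.of_nonneg_of_le (fun _ => norm_nonneg _) (fun m => ?_) ((hc j).add (hd j))
  rw [mul_sub]
  exact norm_sub_le _ _

lemma norm_term {n j m : ℕ} {c : ℕ → ℂ} (τ : ℝ) :
    ‖((m : ℂ) ^ j * c m) * e n m τ‖ = ‖((m : ℂ)) ^ j * c m‖ := by
  rw [norm_mul, norm_e, mul_one]

lemma summable_term {n j : ℕ} {c : ℕ → ℂ} (hc : Sm c) (τ : ℝ) :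
    Summable fun m : ℕ => ((m : ℂ) ^ j * c m) * e n m τ := by
  refine Summable.of_norm ?_
  simpa only [norm_term] using hc j

lemma Fs_sub {n j : ℕ} {c d : ℕ → ℂ} (hc : Sm c) (hd : Sm d) (τ : ℝ) :
    Fs n j (fun m => c m - d m) τ = Fs n j c τ - Fs n j d τ := by
  unfold Fs
  rw [← (summable_term hc τ).tsum_sub (summable_term hd τ)]
  refine tsum_congr fun m => ?_
  ring

lemma hasDerivAt_Fs {n j : ℕ} {c : ℕ → ℂ} (hc : Sm c) (τ : ℝ) :
    HasDerivAt (Fs n j c) (-(Complex.I / n) * Fs n (j + 1) c τ) τ := by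
  have h1 : ∀ m : ℕ, ∀ y : ℝ, HasDerivAt (fun y : ℝ => ((m : ℂ) ^ j * c m) * e n m y)
      (-(Complex.I / n) * (((m : ℂ) ^ (j + 1) * c m) * e n m y)) y := by
    intro m y
    have h := (hasDerivAt_e n m y).const_mul ((m : ℂ) ^ j * c m)
    have h2 : (m : ℂ) ^ j * c m * (-(((m : ℂ) / n) * Complex.I) * e n m y) =
        (-(Complex.I / n) * (((m : ℂ) ^ (j + 1) * c m) * e n m y)) := by
      rw [pow_succ]
      ring
    rw [← h2]
    exact h
  have h2 : Summable fun m : ℕ => ‖(Complex.I / n : ℂ)‖ * ‖((m : ℂ)) ^ (j + 1) * c m‖ :=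
    (hc (j + 1)).mul_left _
  have h3 := hasDerivAt_tsum (𝕜 := ℝ) h2 h1 (fun m y => by
    rw [norm_mul, norm_term, norm_neg]) (summable_term hc 0) τ
  have h4 : (∑' m : ℕ, -(Complex.I / n) * (((m : ℂ) ^ (j + 1) * c m) * e n m τ)) =
      -(Complex.I / n) * Fs n (j + 1) c τ := by
    rw [tsum_mul_left]
    rfl
  rw [← h4]
  exact h3

lemma continuous_Fs {n j : ℕ} {c : ℕ → ℂ} (hc : Sm c) : Continuous (Fs n j c) :=
  continuous_iff_continuousAt.2 fun τ => (hasDerivAt_Fs hc τ).continuousAt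

/-- the phase `e^(iτ)` -/
noncomputable def ex (τ : ℝ) : ℂ := Complex.exp ((τ : ℂ) * Complex.I)

lemma norm_ex (τ : ℝ) : ‖ex τ‖ = 1 := Complex.norm_exp_ofReal_mul_I _

lemma hasDerivAt_ex (τ : ℝ) : HasDerivAt ex (ex τ * Complex.I) τ := by
  have h1 : HasDerivAt (fun τ : ℝ => (τ : ℂ) * Complex.I) Complex.I τ := by
    have := (Complex.ofRealCLM.hasDerivAt (x := τ)).mul_const Complex.I
    simpa using this
  exact h1.cexp

lemma continuous_ex : Continuous ex :=
  continuous_iff_continuousAt.2 fun τ => (hasDerivAt_ex τ).continuousAt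

/-- the integral of one term -/
lemma int_term {n : ℕ} (hn : 1 ≤ n) (m : ℕ) :
    ∫ τ in (-(Real.pi * n))..(Real.pi * n), e n m τ * ex τ =
      if m = n then ((2 * Real.pi * n : ℝ) : ℂ) else 0 := by
  have hn' : (n : ℝ) ≠ 0 := by
    have : (0 : ℝ) < n := by exact_mod_cast hn
    exact this.ne'
  have hnc : (n : ℂ) ≠ 0 := by exact_mod_cast hn'
  have h1 : ∀ τ : ℝ, e n m τ * ex τ =
      Complex.exp (((((n : ℂ) - m) / n) * Complex.I) * τ) := by
    intro τ
    unfold e ex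
    rw [← Complex.exp_add]
    congr 1
    push_cast
    field_simp
    ring
  simp only [h1]
  split_ifs with hm
  · subst hm
    simp only [sub_self, zero_div, zero_mul, Complex.exp_zero]
    rw [intervalIntegral.integral_const]
    simp
    ring
  · have hmn : (n : ℂ) - m ≠ 0 := by
      rw [sub_ne_zero]
      exact fun h => hm (by exact_mod_cast h.symm)
    have hc : (((n : ℂ) - m) / n) * Complex.I ≠ 0 :=
      mul_ne_zero (div_ne_zero hmn hnc) Complex.I_ne_zero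
    rw [integral_exp_mul_complex hc]
    have h2 : Complex.exp (((((n : ℂ) - m) / n) * Complex.I) * ((Real.pi * n : ℝ) : ℂ)) =
        Complex.exp (((((n : ℂ) - m) / n) * Complex.I) * ((-(Real.pi * n) : ℝ) : ℂ)) := by
      rw [Complex.exp_eq_exp_iff_exists_int]
      refine ⟨(n : ℤ) - m, ?_⟩
      push_cast
      field_simp
      ring
    rw [h2, sub_self, zero_div]

/-- the coefficient -/
lemma int_Fs {n : ℕ} (hn : 1 ≤ n) {c : ℕ → ℂ} (hc : Sm c) (j : ℕ) :
    ∫ τ in (-(Real.pi * n))..(Real.pi * n), Fs n j c τ * ex τ =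
      ((2 * Real.pi * n : ℝ) : ℂ) * ((n : ℂ) ^ j * c n) := by
  have h1 : ∀ τ : ℝ, Fs n j c τ * ex τ =
      ∑' m : ℕ, ((m : ℂ) ^ j * c m) * (e n m τ * ex τ) := by
    intro τ
    unfold Fs
    rw [← tsum_mul_right]
    refine tsum_congr fun m => ?_
    ring
  simp only [h1]
  let f : ℕ → C(ℝ, ℂ) := fun m => ⟨fun τ => ((m : ℂ) ^ j * c m) * (e n m τ * ex τ),
    continuous_const.mul ((continuous_e n m).mul continuous_ex)⟩
  have hs := intervalIntegral.hasSum_intervalIntegral_of_summable_norm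
    (a := -(Real.pi * n)) (b := Real.pi * n) (f := f) (by
      refine Summable.of_nonneg_of_le (fun _ => norm_nonneg _) (fun m => ?_) (hc j)
      rw [ContinuousMap.norm_le _ (norm_nonneg _)]
      intro x
      show ‖((m : ℂ) ^ j * c m) * (e n m x * ex x)‖ ≤ _
      rw [norm_mul, norm_mul (e n m x), norm_e, norm_ex, mul_one, mul_one])
  have h2 : ∀ m : ℕ, ∫ τ in (-(Real.pi * n))..(Real.pi * n), f m τ =
      if m = n then ((2 * Real.pi * n : ℝ) : ℂ) * ((n : ℂ) ^ j * c n) else 0 := by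
    intro m
    show ∫ τ in (-(Real.pi * n))..(Real.pi * n), ((m : ℂ) ^ j * c m) * (e n m τ * ex τ) = _
    rw [intervalIntegral.integral_const_mul, int_term hn m]
    split_ifs with hm
    · subst hm
      ring
    · ring
  have h3 := hs.tsum_eq
  have h4 : (∑' m : ℕ, ∫ τ in (-(Real.pi * n))..(Real.pi * n), f m τ) =
      ((2 * Real.pi * n : ℝ) : ℂ) * ((n : ℂ) ^ j * c n) := by
    simp only [h2]
    rw [tsum_ite_eq]
  rw [← h4, h3]
  rfl

/-- a tail by partial integration -/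
lemma tail_le {H H' : ℝ → ℂ} {A B R a b : ℝ} (hab : a ≤ b) (hH : ∀ τ, HasDerivAt H (H' τ) τ)
    (hc : Continuous H') (hA : ‖H a‖ ≤ A) (hB : ‖H b‖ ≤ B)
    (hR : ∫ τ in a..b, ‖H' τ‖ ≤ R) :
    ‖∫ τ in a..b, H τ * ex τ‖ ≤ A + B + R := by
  have hHc : Continuous H := continuous_iff_continuousAt.2 fun τ => (hH τ).continuousAt
  have hd : ∀ τ, HasDerivAt (fun τ => -(Complex.I) * (H τ * ex τ))
      (H τ * ex τ - Complex.I * (H' τ * ex τ)) τ := by
    intro τ
    have h1 := ((hH τ).mul (hasDerivAt_ex τ)).const_mul (-(Complex.I))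
    have h2 : -(Complex.I) * (H' τ * ex τ + H τ * (ex τ * Complex.I)) =
        H τ * ex τ - Complex.I * (H' τ * ex τ) := by
      linear_combination (-(H τ * ex τ)) * Complex.I_mul_I
    rw [← h2]
    exact h1
  have hc1 : Continuous fun τ => H τ * ex τ := hHc.mul continuous_ex
  have hc2 : Continuous fun τ => Complex.I * (H' τ * ex τ) :=
    continuous_const.mul (hc.mul continuous_ex)
  have h3 : ∫ τ in a..b, (H τ * ex τ - Complex.I * (H' τ * ex τ)) =
      -(Complex.I) * (H b * ex b) - -(Complex.I) * (H a * ex a) :=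
    intervalIntegral.integral_eq_sub_of_hasDerivAt (fun τ _ => hd τ)
      ((hc1.sub hc2).intervalIntegrable _ _)
  rw [intervalIntegral.integral_sub (hc1.intervalIntegrable _ _)
    (hc2.intervalIntegrable _ _)] at h3
  have h4 : ∫ τ in a..b, H τ * ex τ = (-(Complex.I) * (H b * ex b) - -(Complex.I) * (H a * ex a)) +
      ∫ τ in a..b, Complex.I * (H' τ * ex τ) := by
    rw [← h3]
    ring
  rw [h4]
  have h5 : ‖∫ τ in a..b, Complex.I * (H' τ * ex τ)‖ ≤ R := by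
    refine (intervalIntegral.norm_integral_le_integral_norm hab).trans ?_
    refine le_trans (le_of_eq ?_) hR
    refine intervalIntegral.integral_congr fun τ _ => ?_
    show ‖Complex.I * (H' τ * ex τ)‖ = ‖H' τ‖
    rw [norm_mul, norm_mul, Complex.norm_I, norm_ex, one_mul, mul_one]
  have h6 : ∀ τ, ‖-(Complex.I) * (H τ * ex τ)‖ = ‖H τ‖ := by
    intro τ
    rw [norm_mul, norm_mul, norm_neg, Complex.norm_I, norm_ex, one_mul, mul_one]
  calc ‖(-(Complex.I) * (H b * ex b) - -(Complex.I) * (H a * ex a)) +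
      ∫ τ in a..b, Complex.I * (H' τ * ex τ)‖
      ≤ ‖(-(Complex.I) * (H b * ex b) - -(Complex.I) * (H a * ex a))‖ +
        ‖∫ τ in a..b, Complex.I * (H' τ * ex τ)‖ := norm_add_le _ _
    _ ≤ (‖-(Complex.I) * (H b * ex b)‖ + ‖-(Complex.I) * (H a * ex a)‖) + R :=
        add_le_add (norm_sub_le _ _) h5
    _ ≤ (B + A) + R := by
        rw [h6, h6]
        gcongr
    _ = A + B + R := by ring

/-- the integral of `τ^(-3/2)` -/
lemma int_pow_le {g : ℝ → ℝ} {B Y Z : ℝ} (hB : 0 ≤ B) (hY : 0 < Y) (hYZ : Y ≤ Z)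
    (hg : Continuous g) (hle : ∀ τ, Y ≤ τ → τ ≤ Z → g τ ≤ B * τ ^ (-(3 / 2) : ℝ)) :
    ∫ τ in Y..Z, g τ ≤ 2 * B / √Y := by
  have h0 : (0 : ℝ) ∉ Set.uIcc Y Z := by
    rw [Set.uIcc_of_le hYZ]
    exact fun h => absurd h.1 (not_le.2 hY)
  have hint : IntervalIntegrable (fun τ : ℝ => B * τ ^ (-(3 / 2) : ℝ)) volume Y Z :=
    (intervalIntegral.intervalIntegrable_rpow (Or.inr h0)).const_mul B
  have h1 : ∫ τ in Y..Z, g τ ≤ ∫ τ in Y..Z, B * τ ^ (-(3 / 2) : ℝ) :=
    intervalIntegral.integral_mono_on hYZ (hg.intervalIntegrable _ _) hint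
      (fun τ hτ => hle τ hτ.1 hτ.2)
  refine h1.trans ?_
  rw [intervalIntegral.integral_const_mul, integral_rpow (Or.inr ⟨by norm_num, h0⟩)]
  have hZ : 0 < Z := hY.trans_le hYZ
  have h2 : Y ^ (-(3 / 2) + 1 : ℝ) = (√Y)⁻¹ := by
    rw [Real.sqrt_eq_rpow, ← Real.rpow_neg hY.le]
    norm_num
  have h3 : 0 ≤ Z ^ (-(3 / 2) + 1 : ℝ) := Real.rpow_nonneg hZ.le _
  rw [h2]
  have h4 : B * ((Z ^ (-(3 / 2) + 1 : ℝ) - (√Y)⁻¹) / (-(3 / 2) + 1)) =
      2 * B / √Y - 2 * B * Z ^ (-(3 / 2) + 1 : ℝ) := by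
    have : (0 : ℝ) < √Y := Real.sqrt_pos.2 hY
    field_simp
    ring
  rw [h4]
  have : 0 ≤ 2 * B * Z ^ (-(3 / 2) + 1 : ℝ) := by positivity
  linarith

lemma cgf_eq {rho : ℝ} {n : ℕ} (a : ℕ → ℂ) (j : ℕ) (x τ : ℝ) :
    cgf j a (zn rho (x + τ * Complex.I) n) =
      Fs n j (fun m => a m * ((rho * Real.exp (-(x / n)) : ℝ) : ℂ) ^ m) τ := by
  unfold cgf Fs
  refine tsum_congr fun m => ?_
  have h1 : zn rho (x + τ * Complex.I) n ^ m =
      ((rho * Real.exp (-(x / n)) : ℝ) : ℂ) ^ m * e n m τ := by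
    have h2 : zn rho (x + τ * Complex.I) n = ((rho * Real.exp (-(x / n)) : ℝ) : ℂ) *
        Complex.exp (-(τ * Complex.I / n)) := by
      unfold zn
      push_cast
      rw [mul_assoc, ← Complex.exp_add]
      congr 2
      ring
    rw [h2, mul_pow, ← Complex.exp_nat_mul]
    congr 1
    unfold e
    congr 1
    push_cast
    ring
  rw [h1]
  ring

lemma sm_of {rho : ℝ} (hrho : 0 < rho) {n : ℕ} (hn : 1 ≤ n) {a : ℕ → ℂ}
    (ha : ∀ z : ℂ, ‖z‖ < rho → ∀ j : ℕ, Summable fun m : ℕ => ‖((m : ℂ)) ^ j * a m * z ^ m‖)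
    {x : ℝ} (hx : 0 < x) :
    Sm (fun m => a m * ((rho * Real.exp (-(x / n)) : ℝ) : ℂ) ^ m) := by
  intro j
  have hn' : (0 : ℝ) < n := by exact_mod_cast hn
  have h1 : ‖((rho * Real.exp (-(x / n)) : ℝ) : ℂ)‖ < rho := by
    rw [Complex.norm_real, Real.norm_eq_abs, abs_of_pos (by positivity)]
    have : Real.exp (-(x / n)) < 1 := by
      rw [Real.exp_lt_one_iff]
      have : 0 < x / n := by positivity
      linarith
    nlinarith
  refine (ha _ h1 j).congr fun m => ?_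
  rw [mul_assoc]

end TXaux

open TXaux

/-- TX: coefficient extraction on two circles. -/
theorem t_TX : TX_Stmt := by
  refine ⟨8, by norm_num, ?_⟩
  intro rho γ M E Y n a a' hrho hγ hM hE hY hYn ha ha' hfar hnear
  have hY0 : 0 < Y := by linarith
  have hn1 : (1 : ℝ) ≤ n := hY.trans hYn
  have hn : 1 ≤ n := by exact_mod_cast hn1
  have hn' : (0 : ℝ) < n := by linarith
  have hπ : (3 : ℝ) < Real.pi := Real.pi_gt_three
  have hYp : Y ≤ Real.pi * n := by nlinarith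
  set c : ℕ → ℂ := fun m => a m * ((rho * Real.exp (-(1 / n)) : ℝ) : ℂ) ^ m with hc
  set d : ℕ → ℂ := fun m => a' m * ((rho * Real.exp (-((1 + γ) / n)) : ℝ) : ℂ) ^ m with hd
  have hcs : Sm c := sm_of hrho hn ha one_pos
  have hds : Sm d := sm_of hrho hn ha' (by linarith)
  have hce : ∀ (j : ℕ) (τ : ℝ), cgf j a (zn rho (1 + τ * Complex.I) n) = Fs n j c τ := by
    intro j τ
    have := cgf_eq (rho := rho) (n := n) a j 1 τ
    rw [Complex.ofReal_one] at this
    exact this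
  have hde : ∀ (j : ℕ) (τ : ℝ), cgf j a' (zn rho ((1 + τ * Complex.I) + (γ : ℂ)) n) =
      Fs n j d τ := by
    intro j τ
    have := cgf_eq (rho := rho) (n := n) a' j (1 + γ) τ
    rw [← this]
    congr 2
    push_cast
    ring
  set b : ℕ → ℂ := fun m => c m - d m with hb
  have hbs : Sm b := hcs.sub hds
  have hH : ∀ τ, HasDerivAt (Fs n 1 b) (-(Complex.I / n) * Fs n 2 b τ) τ := fun τ =>
    hasDerivAt_Fs hbs τ
  have hH'c : Continuous fun τ => -(Complex.I / n) * Fs n 2 b τ :=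
    continuous_const.mul (continuous_Fs hbs)
  have hHc : Continuous (Fs n 1 b) := continuous_Fs hbs
  -- far bounds
  have hre : ∀ τ : ℝ, (1 + τ * Complex.I : ℂ).re = 1 := by intro τ; simp
  have him : ∀ τ : ℝ, (1 + τ * Complex.I : ℂ).im = τ := by intro τ; simp
  have hF1 : ∀ τ : ℝ, Y ≤ |τ| → |τ| ≤ Real.pi * n → ‖Fs n 1 b τ‖ ≤ 2 * M / √(|τ| / n) := by
    intro τ h1 h2
    have h3 := hfar (1 + τ * Complex.I) (hre τ) (by rw [him]; exact h1) (by rw [him]; exact h2)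
    rw [hce, hce, hde, hde, him] at h3
    have hs : 0 < √(|τ| / n) := Real.sqrt_pos.2 (div_pos (hY0.trans_le h1) hn')
    rw [le_div_iff₀ hs, Fs_sub hcs hds]
    calc ‖Fs n 1 c τ - Fs n 1 d τ‖ * √(|τ| / n) ≤ (‖Fs n 1 c τ‖ + ‖Fs n 1 d τ‖) * √(|τ| / n) := by
          gcongr
          exact norm_sub_le _ _
      _ = ‖Fs n 1 c τ‖ * √(|τ| / n) + ‖Fs n 1 d τ‖ * √(|τ| / n) := by ring
      _ ≤ M + M := add_le_add h3.1 h3.2.2.1
      _ = 2 * M := by ring
  have hF2 : ∀ τ : ℝ, Y ≤ |τ| → |τ| ≤ Real.pi * n →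
      ‖-(Complex.I / n) * Fs n 2 b τ‖ ≤ 2 * M * √n * |τ| ^ (-(3 / 2) : ℝ) := by
    intro τ h1 h2
    have hτ : 0 < |τ| := hY0.trans_le h1
    have h3 := hfar (1 + τ * Complex.I) (hre τ) (by rw [him]; exact h1) (by rw [him]; exact h2)
    rw [hce, hce, hde, hde, him] at h3
    have hs : 0 < √(|τ| / n) := Real.sqrt_pos.2 (div_pos hτ hn')
    have hs2 : 0 < |τ| / n * √(|τ| / n) := mul_pos (div_pos hτ hn') hs
    have h4 : ‖Fs n 2 b τ‖ * (|τ| / n * √(|τ| / n)) ≤ 2 * M := by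
      rw [Fs_sub hcs hds]
      calc ‖Fs n 2 c τ - Fs n 2 d τ‖ * (|τ| / n * √(|τ| / n)) ≤
          (‖Fs n 2 c τ‖ + ‖Fs n 2 d τ‖) * (|τ| / n * √(|τ| / n)) := by
            gcongr
            exact norm_sub_le _ _
        _ = ‖Fs n 2 c τ‖ * (|τ| / n * √(|τ| / n)) + ‖Fs n 2 d τ‖ * (|τ| / n * √(|τ| / n)) := by
            ring
        _ ≤ M + M := add_le_add h3.2.1 h3.2.2.2
        _ = 2 * M := by ring
    have h5 : |τ| ^ (-(3 / 2) : ℝ) = (|τ| * √|τ|)⁻¹ := by
      rw [Real.rpow_neg hτ.le]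
      congr 1
      rw [Real.sqrt_eq_rpow, ← Real.rpow_one_add' hτ.le (by norm_num)]
      norm_num
    have h6 : ‖-(Complex.I / n) * Fs n 2 b τ‖ = ‖Fs n 2 b τ‖ / n := by
      rw [norm_mul, norm_neg, norm_div, Complex.norm_I, Complex.norm_natCast]
      ring
    rw [h6, h5]
    have hsn : 0 < √(n : ℝ) := Real.sqrt_pos.2 hn'
    have hst : 0 < √|τ| := Real.sqrt_pos.2 hτ
    have hnn : √(n : ℝ) * √n = n := Real.mul_self_sqrt hn'.le
    rw [Real.sqrt_div hτ.le] at h4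
    rw [← div_eq_mul_inv, le_div_iff₀ (by positivity), div_mul_eq_mul_div, div_le_iff₀ hn']
    have h7 : ‖Fs n 2 b τ‖ * (|τ| / n * (√|τ| / √n)) = ‖Fs n 2 b τ‖ * (|τ| * √|τ|) / (n * √n) := by
      field_simp
    rw [h7, div_le_iff₀ (by positivity)] at h4
    calc ‖Fs n 2 b τ‖ * (|τ| * √|τ|) ≤ 2 * M * (n * √n) := h4
      _ = 2 * M * √n * n := by ring
  -- end points
  have hsY : 0 < √Y := Real.sqrt_pos.2 hY0
  have hsn : 0 < √(n : ℝ) := Real.sqrt_pos.2 hn'
  set Q : ℝ := M * √n / √Y with hQ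
  have hQ0 : 0 ≤ Q := by positivity
  have hEY : ∀ τ : ℝ, |τ| = Y → ‖Fs n 1 b τ‖ ≤ 2 * Q := by
    intro τ hτ
    have h1 := hF1 τ hτ.ge (hτ.le.trans hYp)
    rw [hτ, Real.sqrt_div hY0.le] at h1
    refine h1.trans (le_of_eq ?_)
    rw [hQ]
    field_simp
  have hEp : ∀ τ : ℝ, |τ| = Real.pi * n → ‖Fs n 1 b τ‖ ≤ 2 * Q := by
    intro τ hτ
    have h1 := hF1 τ (hYp.trans hτ.ge) hτ.le
    have hpn : Real.pi * (n : ℝ) / n = Real.pi := mul_div_cancel_right₀ _ hn'.ne'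
    rw [hτ, hpn] at h1
    refine h1.trans ?_
    have h2 : 1 ≤ √Real.pi := by
      rw [Real.one_le_sqrt]
      linarith
    have h3 : 2 * M / √Real.pi ≤ 2 * M := div_le_self (by positivity) h2
    refine h3.trans ?_
    rw [hQ]
    have h4 : √Y ≤ √n := Real.sqrt_le_sqrt hYn
    have h5 : M ≤ M * √n / √Y := by
      rw [le_div_iff₀ hsY]
      exact mul_le_mul_of_nonneg_left h4 hM
    linarith
  -- tails
  have hT1 : ‖∫ τ in Y..(Real.pi * n), Fs n 1 b τ * ex τ‖ ≤ 2 * Q + 2 * Q + 4 * Q := by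
    refine tail_le hYp hH hH'c (hEY Y (abs_of_pos hY0)) (hEp _ (abs_of_pos (by positivity))) ?_
    refine (int_pow_le (B := 2 * M * √n) (by positivity) hY0 hYp hH'c.norm ?_).trans ?_
    · intro τ h1 h2
      have hτ : |τ| = τ := abs_of_pos (hY0.trans_le h1)
      have := hF2 τ (by rw [hτ]; exact h1) (by rw [hτ]; exact h2)
      rwa [hτ] at this
    · rw [hQ]
      apply le_of_eq
      ring
  have hT2 : ‖∫ τ in (-(Real.pi * n))..(-Y), Fs n 1 b τ * ex τ‖ ≤ 2 * Q + 2 * Q + 4 * Q := by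
    refine tail_le (by linarith) hH hH'c (hEp _ (by rw [abs_neg, abs_of_pos (by positivity)]))
      (hEY _ (by rw [abs_neg, abs_of_pos hY0])) ?_
    rw [← intervalIntegral.integral_comp_neg (fun τ => ‖-(Complex.I / n) * Fs n 2 b τ‖)]
    refine (int_pow_le (B := 2 * M * √n) (by positivity) hY0 hYp
      (hH'c.norm.comp continuous_neg) ?_).trans ?_
    · intro τ h1 h2
      have hτ : |-τ| = τ := by rw [abs_neg]; exact abs_of_pos (hY0.trans_le h1)
      have := hF2 (-τ) (by rw [hτ]; exact h1) (by rw [hτ]; exact h2)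
      rwa [hτ] at this
    · rw [hQ]
      apply le_of_eq
      ring
  -- middle
  have hMid : ‖∫ τ in (-Y)..Y, Fs n 1 b τ * ex τ‖ ≤ 2 * Y * (E * √n) := by
    have h1 : ‖∫ τ in (-Y)..Y, Fs n 1 b τ * ex τ‖ ≤ E * √n * |Y - (-Y)| := by
      refine intervalIntegral.norm_integral_le_of_norm_le_const fun τ hτ => ?_
      rw [Set.uIoc_of_le (by linarith)] at hτ
      rw [norm_mul, norm_ex, mul_one, Fs_sub hcs hds, ← hce, ← hde]
      refine hnear _ (hre τ) ?_
      rw [him]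
      exact abs_le.2 ⟨hτ.1.le, hτ.2⟩
    rw [abs_of_pos (by linarith)] at h1
    refine h1.trans (le_of_eq ?_)
    ring
  -- total
  have hint : ∀ x y : ℝ, IntervalIntegrable (fun τ => Fs n 1 b τ * ex τ) volume x y :=
    fun x y => (hHc.mul continuous_ex).intervalIntegrable _ _
  have hsum : ∫ τ in (-(Real.pi * n))..(Real.pi * n), Fs n 1 b τ * ex τ =
      (∫ τ in (-(Real.pi * n))..(-Y), Fs n 1 b τ * ex τ) + (∫ τ in (-Y)..Y, Fs n 1 b τ * ex τ) +
        ∫ τ in Y..(Real.pi * n), Fs n 1 b τ * ex τ := by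
    rw [intervalIntegral.integral_add_adjacent_intervals (hint _ _) (hint _ _),
      intervalIntegral.integral_add_adjacent_intervals (hint _ _) (hint _ _)]
  have hcoef := int_Fs hn hbs 1
  have htot : ‖∫ τ in (-(Real.pi * n))..(Real.pi * n), Fs n 1 b τ * ex τ‖ ≤
      16 * Q + 2 * Y * (E * √n) := by
    rw [hsum]
    refine (norm_add₃_le ..).trans ?_
    linarith
  rw [hcoef, pow_one] at htot
  have hbn : b n = ((rho ^ n * Real.exp (-1) : ℝ) : ℂ) *
      (a n - (Real.exp (-γ) : ℂ) * a' n) := by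
    have h1 : ∀ x : ℝ, ((rho * Real.exp (-(x / n)) : ℝ) : ℂ) ^ n =
        ((rho ^ n * Real.exp (-x) : ℝ) : ℂ) := by
      intro x
      rw [← Complex.ofReal_pow, mul_pow, ← Real.exp_nat_mul]
      congr 3
      field_simp
    simp only [hb, hc, hd]
    rw [h1, h1]
    have h2 : Real.exp (-(1 + γ)) = Real.exp (-1) * Real.exp (-γ) := by
      rw [← Real.exp_add]
      congr 1
      ring
    rw [h2]
    push_cast
    ring
  rw [hbn, norm_mul, norm_mul, norm_mul, Complex.norm_natCast, Complex.norm_real,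
    Complex.norm_real, Real.norm_eq_abs, Real.norm_eq_abs, abs_of_pos (by positivity),
    abs_of_pos (by positivity)] at htot
  set X : ℝ := ‖a n - (Real.exp (-γ) : ℂ) * a' n‖ with hX
  have hX0 : 0 ≤ X := norm_nonneg _
  have he : Real.exp (-1) * Real.exp 1 = 1 := by
    rw [← Real.exp_add]
    simp
  have he3 : Real.exp 1 < Real.pi := by
    have := Real.exp_one_lt_d9
    linarith
  have hnn : √(n : ℝ) * √n = n := Real.mul_self_sqrt hn'.le
  have hR : 0 ≤ rho ^ n * X := by positivity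
  -- 2πn · n · ρ^n e⁻¹ X ≤ 16 Q + 2 Y E √n
  have h1 : 2 * Real.pi * n * (n * (rho ^ n * X)) ≤
      Real.exp 1 * (16 * Q + 2 * Y * (E * √n)) := by
    have h2 := mul_le_mul_of_nonneg_left htot (Real.exp_pos 1).le
    have h3 : Real.exp 1 * (2 * Real.pi * n * (n * (rho ^ n * Real.exp (-1) * X))) =
        (Real.exp (-1) * Real.exp 1) * (2 * Real.pi * n * (n * (rho ^ n * X))) := by ring
    rw [h3, he, one_mul] at h2
    exact h2
  have h2 : Real.exp 1 * (16 * Q + 2 * Y * (E * √n)) ≤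
      Real.pi * (16 * Q + 2 * Y * (E * √n)) :=
    mul_le_mul_of_nonneg_right he3.le (by positivity)
  have h3 : n * (n * (rho ^ n * X)) ≤ 8 * Q + Y * (E * √n) := by
    have h4 : Real.pi * (2 * (n * (n * (rho ^ n * X)))) ≤
        Real.pi * (16 * Q + 2 * Y * (E * √n)) := by
      refine le_trans (le_of_eq ?_) (h1.trans h2)
      ring
    have h5 := le_of_mul_le_mul_left h4 Real.pi_pos
    linarith
  have h6 : √n * (n * √n * rho ^ n * X) ≤ √n * (8 * (Y * E + M / √Y)) := by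
    have h7 : √n * (n * √n * rho ^ n * X) = n * (n * (rho ^ n * X)) := by
      calc √n * (n * √n * rho ^ n * X) = (√n * √n) * (n * (rho ^ n * X)) := by ring
        _ = n * (n * (rho ^ n * X)) := by rw [hnn]
    rw [h7]
    refine h3.trans ?_
    have h8 : √n * (8 * (Y * E + M / √Y)) = 8 * Q + 8 * (Y * (E * √n)) := by
      rw [hQ]
      ring
    rw [h8]
    have : 0 ≤ Y * (E * √n) := by positivity
    linarith
  exact le_of_mul_le_mul_left h6 hsn

end Pool.Agent.PFS
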