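import Pool.Agent.PFS.TGC
import Pool.Agent.PFS.TEN
import Pool.Agent.PFS.TJ1
import Pool.Agent.PFS.TCL
import Pool.Agent.PFS.TDF
import Pool.Agent.PFS.TMS
import Pool.Agent.PFS.TCMP
import Pool.Agent.PFS.TTL
import Pool.Agent.PFS.TJT
import Pool.Agent.PFS.TPT
import Pool.Agent.PFS.TX
import Pool.Agent.PFS.TLT
import Pool.Agent.PFS.TUB
import Pool.Agent.PFS.PTL
import Pool.Agent.PFS.BKER
import Pool.Agent.PFS.BCP
import Pool.Agent.PFS.BTW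
import Pool.Agent.PFS.BKB
import Pool.Agent.PFS.BTK
import Pool.Agent.PFS.BLU
import Pool.Agent.PFS.FOU
import Pool.Agent.PFS.LLAW
import Pool.Agent.PFW.Main
import Pool.Agent.Lib_helper74.FS.MainPre

/-!
# Project PFS (MP_f6626d_co): assembly of parts A and B
-/

set_option autoImplicit false

namespace Pool.Agent.PFS

open Finset Filter Topology MeasureTheory
open Pool.Agent.Lib27 Pool.Agent.SapR Pool.Agent.Gap Pool.Agent.AreaLaw Pool.Agent.FL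
open Pool.Agent.FS Pool.Agent.EXW

theorem m_QGJ2 : QGJ2_Stmt := t_QGJ2 t_QGC m_QGRE m_QGSUP m_QGW

theorem m_TLT : TLT_Stmt := by
  have hGC : TGC_Stmt := t_TGC
  have hEN : TEN_Stmt := t_TEN hGC
  have hCL : TCL_Stmt := t_TCL t_TJ1
  have hCMP : TCMP_Stmt := t_TCMP hGC t_TDF t_TMS m_QGSUP m_QGW
  have hTL : TTL_Stmt := t_TTL hGC t_TDF t_TMS m_QGRE m_QGSUP m_QGW
  exact t_TLT t_TX (t_TPT t_TJ1 hCL hEN hCMP m_QGJ2) (t_TJT t_TJ1 hCL hEN hTL) m_QGJ2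
    m_QGSUP m_QGW

theorem m_PTL : PTL_Stmt := t_PTL PWR.m_QMGP mg_main

theorem m_BKB : BKB_Stmt := t_BKB m_PTL mgi2

theorem m_LLAW : LLAW_Stmt :=
  t_LLAW (t_BKER m_PTL mgi2 hg) (t_BCP hg) (t_BTW hg) (t_BTK m_BKB (SKEL_thm hg)) t_FOU m_TLT
    (t_TUB t_TX m_QGJ2 m_QGW) t_TJ1 hg

theorem m_BLU : BLU_Stmt := t_BLU m_BKB (SKEL_thm hg) BIN_thm

end Pool.Agent.PFS
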