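import Pool.Agent.PFS.Main
import Pool.Agent.PFS.FINQ
import Pool.Agent.QSB.Main

/-!
# Project PFS (MP_f6626d_co): the theorem with an explicit window (with project QSB)
-/

set_option autoImplicit false

namespace Pool.Agent.PFS

/-- The area law of uniform self-avoiding polygons with prescribed span or diameter `h n`, for all
`h n ≤ n` with `h n ≥ n / (log n) ^ a` or `#{g ≥ h n} ≤ exp (-n ^ (1 - c)) #SAP`. -/
theorem mainQ : FINQ_Stmt := t_FINQ main QSB.m_POL DIA.t_DMX DIA.t_RFL

end Pool.Agent.PFS
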