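import Pool.Agent.PFS.StmtsC

/-!
# Project PFS, module SLOWN: powers of the class parameter in a window
-/

set_option autoImplicit false

namespace Pool.Agent.PFS

open Filter Topology

theorem t_SLOWN : SLOWN_Stmt := by
  intro A K hA δ hδ
  have hAK : (0 : ℝ) ≤ (A : ℝ) * K := by positivity
  have hc : 0 < δ / (2 * ((A : ℝ) * K + 1)) := by positivity
  have hev : ∀ᶠ n : ℕ in atTop, (A : ℝ) ^ (A * K) ≤ (n : ℝ) ^ (δ / 2) :=
    ((tendsto_rpow_atTop (half_pos hδ)).comp tendsto_natCast_atTop_atTop).eventually_ge_atTop _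
  obtain ⟨N, hN⟩ := eventually_atTop.1 hev
  refine ⟨δ / (2 * ((A : ℝ) * K + 1)), hc, max N 1, fun n hn f hf => ?_⟩
  obtain ⟨c, hcd⟩ : ∃ c : ℝ, c = δ / (2 * ((A : ℝ) * K + 1)) := ⟨_, rfl⟩
  rw [← hcd] at hf hc
  have hcc : c * ((A : ℝ) * K) ≤ δ / 2 := by
    have h1 : c * (2 * ((A : ℝ) * K + 1)) = δ := by
      rw [hcd]
      field_simp
    nlinarith
  have hn1 : (1 : ℝ) ≤ n := by exact_mod_cast (le_max_right N 1).trans hn
  have hn0 : (0 : ℝ) < n := by linarith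
  have hp : 0 < (n : ℝ) ^ (-c) := Real.rpow_pos_of_pos hn0 _
  have hp1 : (n : ℝ) ^ (-c) ≤ 1 := Real.rpow_le_one_of_one_le_of_nonpos hn1 (by linarith)
  have hmin : (n : ℝ) ^ (-c) ≤ min f 1 := le_min hf hp1
  refine ⟨hp.trans_le hf, ?_⟩
  have h1 : (A : ℝ) / min f 1 ≤ (A : ℝ) * (n : ℝ) ^ c := by
    calc (A : ℝ) / min f 1 ≤ (A : ℝ) / (n : ℝ) ^ (-c) :=
          div_le_div_of_nonneg_left (Nat.cast_nonneg A) hp hmin
      _ = (A : ℝ) * (n : ℝ) ^ c := by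
          rw [Real.rpow_neg hn0.le, div_inv_eq_mul]
  have h0 : 0 ≤ (A : ℝ) / min f 1 := div_nonneg (Nat.cast_nonneg A) (hp.le.trans hmin)
  unfold PFW.Mp
  rw [← pow_mul]
  calc ((A : ℝ) / min f 1) ^ (A * K) ≤ ((A : ℝ) * (n : ℝ) ^ c) ^ (A * K) :=
        pow_le_pow_left₀ h0 h1 _
    _ = (A : ℝ) ^ (A * K) * (n : ℝ) ^ (c * ((A : ℝ) * K)) := by
        rw [mul_pow, ← Real.rpow_natCast ((n : ℝ) ^ c) (A * K), ← Real.rpow_mul hn0.le]
        push_cast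
        rfl
    _ ≤ (n : ℝ) ^ (δ / 2) * (n : ℝ) ^ (δ / 2) :=
        mul_le_mul (hN n ((le_max_left _ _).trans hn))
          (Real.rpow_le_rpow_of_exponent_le hn1 hcc) (Real.rpow_nonneg hn0.le _)
          (Real.rpow_nonneg hn0.le _)
    _ = (n : ℝ) ^ δ := by
        rw [← Real.rpow_add hn0]
        congr 1
        ring

end Pool.Agent.PFS
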