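import Pool.Agent.PFS.DefsA

/-!
# Project PFS, part A: the kernel with phases (statements of the modules)

Let `q i = ρ^i.1 tot i` (a probability on the piece types, `crit`), `δ i = i.2 - v i.1`, so
`∑ q δ = 0` (`v_eq`), `|δ i| ≤ i.1` (`1 ≤ i.2 ≤ i.1` on `G.S`, `0 ≤ v ≤ 1`) and `∑ q δ² = 2 κ mbar`,
`1 ≤ mbar`. All moments `∑ i.1^k q i` are at most `D^K` (`EXW.sum_pow`). The solution with phases at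
`z = zn ρ w n` is compared with the solution WITHOUT phases of the same kernel at the shifted point
`zn ρ (w + κ θ² n) n`: the operators differ by coefficients `c i` with `∑ c i tot i = O(n^(-3/2))`, and
by the old GC2 the form of the difference is at most `|θ| D^K` times the energies.
Every doc string contains the proof.
-/

set_option autoImplicit false

open Finset Filter Topology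

namespace Pool.Agent.PFS

open Pool.Agent.Gap Pool.Agent.FL Pool.Agent.EXW

/-- TGC (from the old GC2): coercivity. PROOF. Copy `EXW/QGC.lean` (`qgc_core`). Symbols there: `n2`, `D`
(`= En + Pot`, here `E0`), `b i` real with `|b i| ≤ tot i n2`, so `ε i := tot i n2 - b i ∈ [0, C2 i.1^3 tot i E0]`
(`hbl`); `form = n2 - ∑ z^i.1 p i b i` with `p = ph θ v`. Put `ζ = z/ρ`, `F = ∑ z^i.1 p i tot i`.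
FAR case `‖z - ρ‖ ≥ η` (`η = D^(-K')`): `‖z‖ ≤ ρ` gives `Re z ≤ ρ - η²/(2ρ)`, and `|z p_(1,1) - z| ≤ ρ |θ|`, so
`x' := Re (z p_(1,1)) ≤ ρ - η²/(4ρ)`; as in the old proof `Re form ≥ 4 ρ n2 - x' b_(1,1) ≥ min (4ρ) (η²/ρ) n2`
(`0 ≤ b_(1,1) ≤ 4 n2`), and `‖ρ - z‖ n2 + E0 ≤ (2ρ + 5) n2`.
NEAR case: `form = n2 (1 - F) + ∑ z^i.1 p i ε i = n2 (1 - F) + E + E'`, `E = ∑ ρ^i.1 ε i ≥ ρ ε_(1,1) ≥ ρ E0 / 7`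
(`hDQ`), `|E'| ≤ ∑ ρ^i.1 i.1 (|1 - ζ| + |θ|) C2 i.1^3 tot i E0 ≤ E/8` if `η`, `|θ|` are small powers
(`‖z^m p - ρ^m‖ ≤ m ρ^m (|1 - ζ| + |θ|)`). `Re (1 - F) ≥ 0` as `‖F‖ ≤ ∑ ρ^i.1 tot i = 1`. Hence
`‖form‖ ≥ (7/8) E` and `‖form‖ ≥ n2 ‖1 - F‖ - (9/8) E`, so `3 ‖form‖ ≥ n2 ‖1 - F‖`.
`‖1 - F‖ ≥ (9/20) mbar |1 - ζ|`: `1 - F = mbar (1 - ζ) + r + e`, `r = ∑ q (1 - cos θδ) ≥ θ² κ mbar / 2` for small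
`θ` (`1 - cos x ≥ x²/2 - x⁴/24`), `‖e‖ ≤ M2 |1 - ζ|²/2 + M2 |1 - ζ| |θ| + |θ|³ M3/6 ≤ mbar |1 - ζ|/4 + r/8` (the
imaginary part of `∑ q (1 - e^(iθδ))` is `-∑ q (sin θδ - θδ)`), and `|mbar (1 - ζ) + r| ≥
(mbar |1 - ζ| + r)/√2` since `Re (1 - ζ) ≥ 0`, `r ≥ 0`. -/
def TGC_Stmt : Prop := ∃ K : ℕ, ∀ (D : ℝ) (G : GapKernel) (v κ θ : ℝ), 2 ≤ D → TwP D G v κ →
  |θ| * D ^ K ≤ 1 → ∀ (N : ℕ) (eps : ℝ) (z : ℂ) (f : ℤ → ℂ), 0 ≤ eps → ‖z‖ ≤ G.rho → Supp N f →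
    (D ^ K)⁻¹ * (‖(G.rho : ℂ) - z‖ * nsq N f + En N f + Pot eps N f)
      ≤ ‖form N f (LopT G (ph θ v) eps z N f)‖

/-- TEN (from TGC): resolvent and energy bounds. PROOF. First: `form_le` (as in `EXW/QGRE.lean`). Second:
`|f g|² ≤ g En N f` for `1 ≤ g ≤ N` (Cauchy-Schwarz, `f 0 = 0`), so `‖form N f e‖ ≤ ∑ |f g| |e g| ≤
√(En N f) ∑ √g |e g| ≤ √(En + Pot) lw 1 N e`; TGC. -/
def TEN_Stmt : Prop := ∃ K : ℕ, ∀ (D : ℝ) (G : GapKernel) (v κ θ : ℝ), 2 ≤ D → TwP D G v κ →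
  |θ| * D ^ K ≤ 1 → ∀ (N : ℕ) (eps : ℝ) (z : ℂ) (f e : ℤ → ℂ), 0 ≤ eps → ‖z‖ ≤ G.rho →
    SolvesT G (ph θ v) eps z N f e →
    ‖(G.rho : ℂ) - z‖ * Real.sqrt (nsq N f) ≤ D ^ K * Real.sqrt (nsq N e) ∧
    En N f + Pot eps N f ≤ D ^ K * (lw 1 N e) ^ 2 ∧
    ∀ g : ℤ, 1 ≤ g → ‖f g‖ ^ 2 ≤ D ^ K * g * (lw 1 N e) ^ 2

/-- TJ1: the arrays and their generating functions. PROOF. The text of `Lib_helper24/Gap/J1.lean`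
(`arr`, `arr_hasSum`, `shift_hasSum`, `gf_eq`); the bound by the real array is by strong induction on
`n` (`‖p i‖ ≤ 1`, `wt ≥ 0`, `K ≥ 0`), and it gives the summability from the old `J1`. -/
def TJ1_Stmt : Prop := ∀ (G : GapKernel) (p : ℕ × ℕ → ℂ), (∀ i, ‖p i‖ ≤ 1) →
  ∀ (C0 : ℕ) (s : ℕ → ℤ → ℝ) (cs : ℕ → ℤ → ℂ), IsCap C0 s → (∀ m g, ‖cs m g‖ ≤ s m g) →
  ∀ (N : ℕ) (eps : ℝ), 0 ≤ eps →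
  (∃ b, IsArrT G p cs eps N b) ∧
  ∀ b, IsArrT G p cs eps N b →
    (∀ b0, IsArr G s eps N b0 → ∀ n g, ‖b n g‖ ≤ b0 n g) ∧
    (∀ z : ℂ, ‖z‖ < G.rho → ∀ j g, Summable fun n : ℕ => ‖((n : ℂ)) ^ j * b n g * z ^ n‖) ∧
    ∀ z : ℂ, ‖z‖ < G.rho → ∀ j : ℕ, SolvesT G p eps z N (gfc j b z)
      (fun g => capc C0 cs j z g + ∑ l ∈ range j, ((j.choose l : ℕ) : ℂ) *
        KapT G p (j - l) eps z N (gfc l b z) g)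

/-- TCL (from TJ1): the closed generating functions. PROOF. The text of `close_hasSum`, `sgf_eq` in
`Lib_helper22/Gap/J2.lean` (`KzT` is symmetric in `g`, `g'` by `K_symm` and `wt`). -/
def TCL_Stmt : Prop := ∀ (G : GapKernel) (p : ℕ × ℕ → ℂ), (∀ i, ‖p i‖ ≤ 1) →
  ∀ (C0 : ℕ) (s t : ℕ → ℤ → ℝ) (cs ct : ℕ → ℤ → ℂ), IsCap C0 s → IsCap C0 t →
  (∀ m g, ‖cs m g‖ ≤ s m g) → (∀ m g, ‖ct m g‖ ≤ t m g) →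
  ∀ (N : ℕ) (eps : ℝ), 0 ≤ eps → C0 ≤ N →
  ∀ b b' : ℕ → ℤ → ℂ, IsArrT G p cs eps N b → IsArrT G p ct eps N b' → ∀ z : ℂ, ‖z‖ < G.rho →
    (∀ j, Summable fun n : ℕ => ‖((n : ℂ)) ^ j * closec C0 ct b n * z ^ n‖) ∧
    cgf 1 (closec C0 ct b) z = ∑ g ∈ Icc (1 : ℤ) N, capc C0 ct 1 z g * gfc 0 b z g +
      ∑ g ∈ Icc (1 : ℤ) N, gfc 0 b' z g * capc C0 cs 1 z g +
      ∑ g ∈ Icc (1 : ℤ) N, gfc 0 b' z g * KapT G p 1 eps z N (gfc 0 b z) g ∧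
    cgf 2 (closec C0 ct b) z = ∑ g ∈ Icc (1 : ℤ) N, capc C0 ct 2 z g * gfc 0 b z g +
      2 * ∑ g ∈ Icc (1 : ℤ) N, capc C0 ct 1 z g * gfc 1 b z g +
      ∑ g ∈ Icc (1 : ℤ) N, gfc 0 b' z g * capc C0 cs 2 z g +
      (∑ g ∈ Icc (1 : ℤ) N, gfc 0 b' z g * KapT G p 2 eps z N (gfc 0 b z) g +
        2 * ∑ g ∈ Icc (1 : ℤ) N, gfc 0 b' z g * KapT G p 1 eps z N (gfc 1 b z) g)

/-- TDF (from the old GC2): the form of the difference of two kernels with phases. PROOF.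
`∑ conj (f g) ∑_i (z^i.1 p i - y^i.1) ∑_{g'} K_i wt h g' = ∑_i c i B_i`, `c i = z^i.1 p i - y^i.1`,
`B_i = tot i ⟨f, h⟩ - (tot i ⟨f, h⟩ - B_i)`; GC2 (with `conj f`, as in `EXW/QGC.lean`) for the second term,
`|c i| ≤ ρ^i.1 i.1 (‖z - y‖/ρ + |θ|)` (`‖z‖, ‖y‖ ≤ ρ`, `‖p i - 1‖ ≤ |θ| |δ i| ≤ |θ| i.1`), `ρ⁻¹ ≤ D`,
`∑ i.1^4 ρ^i.1 tot i ≤ D^K'`. -/
def TDF_Stmt : Prop := ∃ K : ℕ, ∀ (D : ℝ) (G : GapKernel) (v κ θ : ℝ), 2 ≤ D → TwP D G v κ →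
  ∀ (N : ℕ) (eps : ℝ) (z y : ℂ) (f h : ℤ → ℂ), 0 ≤ eps → ‖z‖ ≤ G.rho → ‖y‖ ≤ G.rho →
    Supp N f → Supp N h →
    ‖form N f (fun g => KapT G (ph θ v) 0 eps z N h g - G.Kap 0 eps y N h g)‖ ≤
      ‖∑ i ∈ G.S, (z ^ i.1 * ph θ v i - y ^ i.1) * (G.tot i : ℂ)‖ *
          (Real.sqrt (nsq N f) * Real.sqrt (nsq N h)) +
        D ^ K * (‖z - y‖ + |θ|) *
          (Real.sqrt (En N f + Pot eps N f) * Real.sqrt (En N h + Pot eps N h))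

/-- TMS: the total mass of the difference. PROOF. (1) `∑ z^i.1 (p i - 1) tot i = ∑ q (p - 1) +
∑ (z^i.1 - ρ^i.1)(p - 1) tot`; `‖∑ q (p - 1)‖ = ‖∑ q (p - 1 - iθδ)‖ ≤ θ²/2 ∑ q δ²` (`∑ q δ = 0`), the second is
at most `∑ i.1 ρ^(i.1-1) ‖z - ρ‖ |θ| i.1 tot`. (2) `z = zn ρ w n`, `y = zn ρ (w + γ) n`, `γ = κ θ² n`; with
`x i = -w i.1/n + iθδ i` (`Re x ≤ 0`) and `x' i = -(w + γ) i.1/n`: `‖e^x - 1 - x - x²/2‖ ≤ ‖x‖³` and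
`‖e^(x') - 1 - x'‖ ≤ ‖x'‖²`; `∑ q x = -w mbar/n`, `∑ q x²/2 = w² M2/(2n²) - i (wθ/n) ∑ q i.1 δ - θ² κ mbar`,
`∑ q x' = -(w + γ) mbar/n`, and `γ mbar/n = κ θ² mbar`: the terms of order `θ²` cancel. The rest is at most
`D^K (W²/n² + W|θ|/n + (W/n + |θ|)³ + (W + γ)²/n²)` with `θ² n ≤ W`, `γ ≤ D^K W`: at most `(D W)^K1 / n^(3/2)`.
(`e^(3)`: use `Complex.norm_exp_sub_sum_le_norm_mul_exp` or the integral form for `Re x ≤ 0`.) -/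
def TMS_Stmt : Prop :=
  (∃ K : ℕ, ∀ (D : ℝ) (G : GapKernel) (v κ θ : ℝ), 2 ≤ D → TwP D G v κ → ∀ z : ℂ,
    ‖z‖ ≤ G.rho → ‖∑ i ∈ G.S, (z ^ i.1 * ph θ v i - z ^ i.1) * (G.tot i : ℂ)‖ ≤
      D ^ K * (θ ^ 2 + |θ| * ‖(G.rho : ℂ) - z‖)) ∧
  ∃ K0 K1 : ℕ, ∀ (D W : ℝ) (G : GapKernel) (v κ θ : ℝ) (n : ℕ), ScT K0 D W G v κ θ n →
    ∀ w : ℂ, w.re = 1 → ‖w‖ ≤ W →
      ‖∑ i ∈ G.S, ((zn G.rho w n) ^ i.1 * ph θ v i -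
        (zn G.rho (w + ((κ * θ ^ 2 * n : ℝ) : ℂ)) n) ^ i.1) * (G.tot i : ℂ)‖ ≤
        (D * W) ^ K1 / ((n : ℝ) * Real.sqrt n)

/-- TCMP (from TGC, TDF, TMS, QGSUP, QGW): comparison of the solutions. PROOF. `z = zn ρ w n`,
`y = zn ρ (w + γ) n`, `γ = κ θ² n`; `u`, `u0` the solutions, `x = u - u0`. `LopT x = (capc cs - capz s) +
(KapT z u0 - Kap y u0)` on `1..N`. TGC for `x` (`|θ| D^K ≤ 1` from `ScT`), TDF, TMS (2), and the source term: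
`‖form N x (capc - capz)‖ ≤ √(En x) ∑_g √g ‖capc C0 cs 0 z g - capz C0 s 0 y g‖ ≤ √(En x) D^K (|θ| + ‖z - y‖)`
(`‖cs z^m - s y^m‖ ≤ ρ^m s m (|θ| + ‖z - y‖/ρ)`, `ClsCap.dec`, `g ≤ m`). `‖z - y‖ ≤ ρ γ/n ≤ D^K θ²`.
`En u0 + Pot u0 ≤ D^K` (QGSUP), `nsq u0 ≤ D^K / √‖ρ - y‖ ≤ D^K √n` (QGW, `k = 0`; `‖ρ - y‖ ≥ (D^K n)⁻¹`
since `Re (w + γ) ≥ 1`). With `X = √nsq x`, `Y = √(En x + Pot x)`, `a = (D W)^K' n^(-5/4)`, `b = D^K |θ|`: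
`(D^K n)⁻¹ X² + D^(-K) Y² ≤ a X + b Y`, so `X² ≤ D^K n (a X + D^K b²)`, `n a ≤ (D W)^K'`,
`n b² ≤ D^K W`: `X² ≤ (D W)^K1`. -/
def TCMP_Stmt : Prop := ∃ K0 K1 : ℕ, ∀ (D W : ℝ) (G : GapKernel) (v κ θ : ℝ) (n : ℕ),
  ScT K0 D W G v κ θ n → ∀ (C0 : ℕ) (s : ℕ → ℤ → ℝ) (cs : ℕ → ℤ → ℂ), CapT D θ G C0 s cs →
  ∀ (N : ℕ) (eps : ℝ) (w : ℂ) (u u0 : ℤ → ℂ), 0 ≤ eps → w.re = 1 → ‖w‖ ≤ W →
    SolvesT G (ph θ v) eps (zn G.rho w n) N u (capc C0 cs 0 (zn G.rho w n)) →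
    G.Solves eps (zn G.rho (w + ((κ * θ ^ 2 * n : ℝ) : ℂ)) n) N u0
      (capz C0 s 0 (zn G.rho (w + ((κ * θ ^ 2 * n : ℝ) : ℂ)) n)) →
    nsq N (fun g => u g - u0 g) ≤ (D * W) ^ K1 ∧ nsq N u0 ≤ D ^ K1 * Real.sqrt n ∧
      nsq N u ≤ (D * W) ^ K1 * Real.sqrt n

/-- TTL (from TGC, TDF, TMS (1), QGRE, QGSUP, QGW): the solution away from the critical point. PROOF.
`u0` the solution without phases at the SAME `z` (QGRE), `x = u - u0`, `δ = ‖ρ - z‖ ≥ θ²`. As in TCMP: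
`D^(-K) (δ X² + Y²) ≤ D^K δ X √nsq u0 + D^K |θ| Y` (mass at most `D^K (θ² + |θ| δ) ≤ 2 D^K δ`, `|θ| ≤ 1`), so
`X² ≤ D^K' (nsq u0 + θ²/δ) ≤ D^K' (nsq u0 + 1)`, `nsq u0 ≤ D^K/√δ` (QGW, `k = 0`), `δ ≤ 1`. -/
def TTL_Stmt : Prop := ∃ K : ℕ, ∀ (D : ℝ) (G : GapKernel) (v κ θ : ℝ), 2 ≤ D → TwP D G v κ →
  |θ| * D ^ K ≤ 1 → ∀ (C0 : ℕ) (s : ℕ → ℤ → ℝ) (cs : ℕ → ℤ → ℂ), CapT D θ G C0 s cs →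
  ∀ (N : ℕ) (eps : ℝ) (z : ℂ) (u : ℤ → ℂ), 0 ≤ eps → ‖z‖ ≤ G.rho → z ≠ (G.rho : ℂ) →
    θ ^ 2 ≤ ‖(G.rho : ℂ) - z‖ → SolvesT G (ph θ v) eps z N u (capc C0 cs 0 z) →
    nsq N u * Real.sqrt ‖(G.rho : ℂ) - z‖ ≤ D ^ K

/-- TJT (from TJ1, TCL, TEN, TTL): the closed generating functions away from the critical point. PROOF.
The text of `EXW/QGJ2.lean`: `V j = gfc j b z`, `U = gfc 0 b' z`, all norms of `capc ct j z`, `capc cs j z`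
and of `KapT j` are bounded as there (`‖capc‖ ≤` the real ones, `‖p i‖ = 1`). First: all three terms of
TCL are at most `M ‖V 0‖`, `‖U‖ M`, `‖U‖ M ‖V 0‖ ≤ D^K/√δ` (TTL). Second: `‖V 1‖ δ ≤ D^K (M + M ‖V 0‖)` (TEN). -/
def TJT_Stmt : Prop := ∃ K : ℕ, ∀ (D : ℝ) (G : GapKernel) (v κ θ : ℝ), 2 ≤ D → TwP D G v κ →
  |θ| * D ^ K ≤ 1 → ∀ (C0 : ℕ) (s t : ℕ → ℤ → ℝ) (cs ct : ℕ → ℤ → ℂ), CapT D θ G C0 s cs →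
  CapT D θ G C0 t ct → ∀ (N : ℕ) (eps : ℝ), 0 ≤ eps → C0 ≤ N →
  ∀ b : ℕ → ℤ → ℂ, IsArrT G (ph θ v) cs eps N b → ∀ z : ℂ, ‖z‖ < G.rho →
    θ ^ 2 ≤ ‖(G.rho : ℂ) - z‖ →
    ‖cgf 1 (closec C0 ct b) z‖ * Real.sqrt ‖(G.rho : ℂ) - z‖ ≤ D ^ K ∧
    ‖cgf 2 (closec C0 ct b) z‖ * (‖(G.rho : ℂ) - z‖ * Real.sqrt ‖(G.rho : ℂ) - z‖) ≤ D ^ K

/-- TPT (from TJ1, TCL, TEN, TCMP, the old GC2, QGJ2): comparison of the closed generating functions.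
PROOF. `z = zn ρ w n`, `y = zn ρ (w + κθ²n) n`; `V = gfc 0 bt z`, `U = gfc 0 bt' z` (`bt'` the array of the caps
`ct`, TJ1), `V0 = gf 0 b y`, `U0 = gf 0 b' y` (old J1). (a) `‖cgf 1 (closec) z - mbar ∑ U V‖ ≤ (D W)^K`: as for the
first derivative in `EXW/QGJ2.lean`: the two cap terms are at most `D^K` (`‖V g‖² ≤ D^K g`, TEN), and
`∑ U KapT 1 V = ∑_i i.1 z^i.1 p i B_i`, `‖tot i ⟨U,V⟩ - B_i‖ ≤ C i.1^3 tot i D^K` (GC2, TEN),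
`‖z^i.1 p i - ρ^i.1‖ ≤ i.1 ρ^i.1 (‖z - ρ‖/ρ + |θ|)`, `(‖z - ρ‖ + |θ|) ‖U‖ ‖V‖ ≤ (D W)^K`
(`‖U‖ ‖V‖ ≤ (D W)^K √n`, `|θ| √n ≤ √W`, `‖z - ρ‖ ≤ W/n`). (b) QGJ2 at `y`: `‖sgf 1 (close) y - mbar ∑ U0 V0‖ ≤ D^K`.
(c) `‖∑ U V - ∑ U0 V0‖ ≤ ‖U - U0‖ ‖V‖ + ‖U0‖ ‖V - V0‖ ≤ (D W)^K qn n` (TCMP twice), `mbar ≤ D^K`. -/
def TPT_Stmt : Prop := ∃ K0 K1 : ℕ, ∀ (D W : ℝ) (G : GapKernel) (v κ θ : ℝ) (n : ℕ),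
  ScT K0 D W G v κ θ n → ∀ (C0 : ℕ) (s t : ℕ → ℤ → ℝ) (cs ct : ℕ → ℤ → ℂ), CapT D θ G C0 s cs →
  CapT D θ G C0 t ct → ∀ (N : ℕ) (eps : ℝ), 0 ≤ eps → C0 ≤ N →
  ∀ (b : ℕ → ℤ → ℝ) (bt : ℕ → ℤ → ℂ), IsArr G s eps N b → IsArrT G (ph θ v) cs eps N bt →
  ∀ w : ℂ, w.re = 1 → ‖w‖ ≤ W →
    ‖cgf 1 (closec C0 ct bt) (zn G.rho w n) -
      sgf 1 (close C0 t b) (zn G.rho (w + ((κ * θ ^ 2 * n : ℝ) : ℂ)) n)‖ ≤ (D * W) ^ K1 * qn n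

/-- TX: coefficient extraction on two circles (pure analysis). PROOF (compare `EXW/QX.lean`).
`n a n ρ^n e^(-1) = (2πn)⁻¹ ∫_{-πn}^{πn} cgf 1 a (zn ρ (1+iy) n) e^(iy) dy` (Cauchy on the circle of radius
`ρ e^(-1/n)`, termwise integration of the series), and `n a' n ρ^n e^(-1-γ) =
(2πn)⁻¹ ∫ cgf 1 a' (zn ρ (1+γ+iy) n) e^(iy) dy`. Subtract: `|y| ≤ Y` contributes at most `2 Y E √n`. For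
`Y ≤ |y| ≤ πn` integrate each function by parts: `d/dy cgf 1 a (zn ρ (1+iy) n) = -(i/n) cgf 2 a (..)`, so each
tail is at most `M √(n/Y) + M + ∫_Y^∞ M (n/y)^(3/2) dy/n ≤ 4 M √n/√Y` (`1 ≤ Y ≤ n`). Multiply by
`e √n / n · n`. -/
def TX_Stmt : Prop := ∃ C : ℝ, 0 < C ∧ ∀ (rho γ M E Y : ℝ) (n : ℕ) (a a' : ℕ → ℂ),
  0 < rho → 0 ≤ γ → 0 ≤ M → 0 ≤ E → 1 ≤ Y → Y ≤ n →
  (∀ z : ℂ, ‖z‖ < rho → ∀ j, Summable fun m : ℕ => ‖((m : ℂ)) ^ j * a m * z ^ m‖) →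
  (∀ z : ℂ, ‖z‖ < rho → ∀ j, Summable fun m : ℕ => ‖((m : ℂ)) ^ j * a' m * z ^ m‖) →
  (∀ w : ℂ, w.re = 1 → Y ≤ |w.im| → |w.im| ≤ Real.pi * n →
    ‖cgf 1 a (zn rho w n)‖ * Real.sqrt (|w.im| / n) ≤ M ∧
    ‖cgf 2 a (zn rho w n)‖ * ((|w.im| / n) * Real.sqrt (|w.im| / n)) ≤ M ∧
    ‖cgf 1 a' (zn rho (w + (γ : ℂ)) n)‖ * Real.sqrt (|w.im| / n) ≤ M ∧
    ‖cgf 2 a' (zn rho (w + (γ : ℂ)) n)‖ * ((|w.im| / n) * Real.sqrt (|w.im| / n)) ≤ M) →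
  (∀ w : ℂ, w.re = 1 → |w.im| ≤ Y →
    ‖cgf 1 a (zn rho w n) - cgf 1 a' (zn rho (w + (γ : ℂ)) n)‖ ≤ E * Real.sqrt n) →
  ((n : ℝ) * Real.sqrt n) * rho ^ n * ‖a n - (Real.exp (-γ) : ℂ) * a' n‖ ≤
    C * (Y * E + M / Real.sqrt Y)

/-- TLT (from TX, TPT, TJT, QGJ2, QGSUP, QGW and the old J1): the phases factor out. PROOF. TX with
`a = closec C0 ct bt`, `a' = close C0 t b` (cast; `cgf j (↑a') = sgf j a'`), `γ = κ θ² n`, `Y = W/2`,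
`E = (D W)^K qn n / √n = (D W)^K / qn n`. For `|w.im| ≤ W/2` (`‖w‖ ≤ W`): TPT. For `W/2 ≤ |w.im| ≤ πn`:
`‖ρ - zn ρ w n‖ ≥ ρ ‖w‖ / (10 n)` and the same for `w + γ` with `‖w + γ‖` replaced by `|w.im|`
(`‖1 - e^(-ζ)‖ ≥ ‖ζ‖ / 4` for `0 ≤ Re ζ ≤ 1`, `|Im ζ| ≤ π`: `(1-e^(-x))² + 4 e^(-x) sin²(y/2)`), so `θ² ≤ ‖ρ - z‖` (ScT) and TJT applies; for `a'`:
QGJ2 (second derivative) and `‖sgf 1‖ ≤ mbar ‖U‖ ‖V‖ + D^K ≤ D^K / √‖ρ - z‖` (QGJ2, QGW with `k = 0`). -/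
def TLT_Stmt : Prop := ∃ K0 K1 : ℕ, ∀ (D W : ℝ) (G : GapKernel) (v κ θ : ℝ) (n : ℕ),
  ScT K0 D W G v κ θ n → ∀ (C0 : ℕ) (s t : ℕ → ℤ → ℝ) (cs ct : ℕ → ℤ → ℂ), CapT D θ G C0 s cs →
  CapT D θ G C0 t ct → ∀ (N : ℕ) (eps : ℝ), 0 ≤ eps → C0 ≤ N →
  ∀ (b : ℕ → ℤ → ℝ) (bt : ℕ → ℤ → ℂ), IsArr G s eps N b → IsArrT G (ph θ v) cs eps N bt →
    ((n : ℝ) * Real.sqrt n) * G.rho ^ n *
      ‖closec C0 ct bt n - (Real.exp (-(κ * θ ^ 2 * n)) : ℂ) * ((close C0 t b n : ℝ) : ℂ)‖ ≤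
      (D * W) ^ K1 / qn n + D ^ K1 / Real.sqrt W

/-- TUB (from TX, QGJ2, QGW and the old J1): upper bound of the coefficients. PROOF. TX with
`a = close C0 t b`, `a' = 0`, `γ = 0`, `Y = 1`; `‖sgf 1‖ ≤ D^K/√‖ρ - z‖` (QGJ2, QGW with `k = 0`), and
`‖ρ - zn ρ w n‖ ≥ ρ max 1 |w.im| / (10 n)`. -/
def TUB_Stmt : Prop := ∃ K : ℕ, ∀ (D : ℝ) (G : GapKernel), 2 ≤ D → Cls D (1 - D⁻¹) G →
  ∀ (C0 : ℕ) (s t : ℕ → ℤ → ℝ), ClsCap D (1 - D⁻¹) G C0 s → ClsCap D (1 - D⁻¹) G C0 t →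
  ∀ (N : ℕ) (eps : ℝ), 0 ≤ eps → C0 ≤ N → ∀ b : ℕ → ℤ → ℝ, IsArr G s eps N b →
  ∀ n : ℕ, 1 ≤ n → ((n : ℝ) * Real.sqrt n) * G.rho ^ n * close C0 t b n ≤ D ^ K

end Pool.Agent.PFS
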