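import Pool.Agent.PFS.StmtsA
import Pool.Agent.PFS.DefsC
import Pool.Agent.PFW.StmtsC
import Pool.Agent.Lib_helper74.FS.Stmts
import Pool.Agent.Lib_helper89.FL.KW

/-!
# Project PFS, part B: the model (statements of the modules)

The sums over the canonical polygon words with the factor `exp (i θ (sp q - v n))`, their comparison
with the sums without phases (from part A), large `θ` (tokens), Fourier inversion: the local law of the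
span jointly with the Laplace transform of the area functional (`LLAW`). `D = Mp A f` everywhere.
Every doc string contains the proof.
-/

set_option autoImplicit false

namespace Pool.Agent.PFS

open Finset Pool.Agent.Lib27 Pool.Agent.SapR Pool.Agent.Gap Pool.Agent.FL Pool.Agent.EXW Filter
  Topology Pool.Agent.AreaLaw Pool.Agent.FS
open Pool.Agent.PFW (Mp)

/-- the kernel of the force `f`, half perimeter `n` -/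
noncomputable def Kf (n : ℕ) (f : ℝ) : GapKernel :=
  FL.KW.kern (2 * n - 1) (Real.exp (-f)) (Real.exp_pos _)

/-- mean height per half length -/
noncomputable def vf (n : ℕ) (f : ℝ) : ℝ := (Kf n f).hbar / (Kf n f).mbar

/-- half the variance per half length -/
noncomputable def kf (n : ℕ) (f : ℝ) : ℝ :=
  (∑ i ∈ (Kf n f).S, (Kf n f).rho ^ i.1 * (Kf n f).tot i * ((i.2 : ℝ) - vf n f * i.1) ^ 2) /
    (2 * (Kf n f).mbar)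

/-- caps with phases -/
noncomputable def capP (n : ℕ) (s θ v : ℝ) (m : ℕ) (g : ℤ) : ℂ :=
  if 1 ≤ g then ∑ T ∈ CapSet (2 * n - 1) g (2 * m), ((s ^ (m - hgt T) : ℝ) : ℂ) * ph θ v (m, hgt T)
  else 0

/-- the sum over the canonical words with phases -/
noncomputable def ZT (n : ℕ) (s θ v eps : ℝ) : ℂ :=
  ∑ q ∈ Omn n, ((wtq n s q * Real.exp (-(eps * arq n q)) : ℝ) : ℂ) * ph θ v (n, sp q)

/-- PTL (from `PWR.QMGP`, MG): tails at the critical weight. PROOF: it is inside `PFW/DATP.lean`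
(`t_DATP`), for all larger `A` (`QDAT.tails_mono`, `Mp_mono`). -/
def PTL_Stmt : Prop := ∃ A0 : ℕ, 2 ≤ A0 ∧ ∃ N0 : ℕ, 2 ≤ N0 ∧ ∀ A : ℕ, A0 ≤ A →
  ∀ (n : ℕ) (f rho : ℝ), N0 ≤ n → 0 < f → Mp A f ≤ n → Crit n (Real.exp (-f)) rho →
    Tails (Mp A f) (1 - (Mp A f)⁻¹) n (Real.exp (-f)) rho

/-- BKER (from PTL, MGI2, HG): the kernel is in the class. PROOF. `rho` of the kernel is critical
(`KW.kern_crit`), unique (the sum is strictly increasing in `rho`). `Cls`, `ClsCap` as in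
`QDAT.core` (`EXW/QDAT.lean`) with `KW.kern_loc`, `KW.kern_level`, `KW.isCap`, `KW.cap_one`,
`KW.cap_supp`. `1 ≤ i.2 ≤ i.1` on `S` gives `1 ≤ hbar ≤ mbar`, so `vf ≥ 1/mbar`. `kf`: the tokens `tk1`, `tk2` of
`FS.Defs` are pieces of half length `6` and heights `4`, `3` (`n ≥ 6`; see `FS/Arch.lean`, `FS/SKEL.lean`), so the
variance is at least `ρ^6 s^3 ((4 - 6v)² + (3 - 6v)²) ≥ ρ^6 s^3 / 2`, `ρ ≥ 1/100`, `s ≥ exp(-f1)`;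
`mbar ≤ D^K`; `kf ≤ D^K` from the second moment (`|i.2 - v i.1| ≤ i.1`, `mbar ≥ 1`). `Mp A f ≥ A^A`; to
get `(Mp A f)⁻¹ ≤ kf` and not a power: use PTL for `A1` fixed, everything is a power of
`Mp A1 f` times a constant depending on `f1`, and this is at most `Mp A f` for `A ≥ A0(f1)`
(`PFW.Mp_pow`, `PFW.poly_le_Mp`). -/
def BKER_Stmt : Prop := ∀ f1 : ℝ, 0 < f1 → ∃ A0 : ℕ, 2 ≤ A0 ∧ ∀ A : ℕ, A0 ≤ A →
  ∃ N0 : ℕ, ∀ (n : ℕ) (f : ℝ), N0 ≤ n → 0 < f → f ≤ f1 → Mp A f ≤ n →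
    TwP (Mp A f) (Kf n f) (vf n f) (kf n f) ∧
    ClsCap (Mp A f) (1 - (Mp A f)⁻¹) (Kf n f) (2 * n) (capW n (Real.exp (-f))) ∧
    (Mp A f)⁻¹ ≤ vf n f ∧ vf n f ≤ 1 ∧ kf n f ≤ Mp A f ∧
    Crit n (Real.exp (-f)) (Kf n f).rho ∧
    ∀ rho : ℝ, Crit n (Real.exp (-f)) rho → rho = (Kf n f).rho

/-- BCP (from HG): the caps with phases. PROOF. `‖ph‖ = 1`, `‖ph θ v (m, h) - 1‖ ≤ |θ| |h - v m| ≤ |θ| m`
for `h ≤ m` (`2 hgt T ≤ 2 m` by HG, see `KW.count`), `0 ≤ v ≤ 1`. -/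
def BCP_Stmt : Prop := ∀ (n : ℕ) (s θ v : ℝ), 0 < s → 0 ≤ v → v ≤ 1 → ∀ (m : ℕ) (g : ℤ),
  ‖capP n s θ v m g‖ ≤ capW n s m g ∧
  ‖capP n s θ v m g - (capW n s m g : ℂ)‖ ≤ |θ| * m * capW n s m g

/-- BTW (from HG, the old K2): the arrays with phases of the model. PROOF. Put `Wm m g = ∑ w ∈ ArchSet
(2n-1) g (2m), s^(m - hgt w) exp(-(eps Ar w)) ph θ v (m, hgt w)` for `1 ≤ g`, `0` otherwise. The recursion
of `Wm` without truncation: the text of `KW.k2_poly`, `KW.sol` (`Lib_helper89/FL/KW.lean`) with the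
complex numbers `exp(-(eps Ar))` instead of powers of `X` (`Ar_cap`, `Ar_step`:
`exp(-(eps i.2 (g + g'))) = wt eps i g g'`), `ph θ v (m, h + h') = ph θ v (i.1, h) ph θ v (m - i.1, h')`. `Wm m g = 0`
for `g > 2 m` (caps: `g ≤ m`; a piece changes the gap by at most `2 i.1`: `kern_loc`), so for `2 n ≤ N` the
truncated recursion `IsArrT` gives the same values for `m ≤ n` (strong induction). Closing: the text
of `KW.count`. -/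
def BTW_Stmt : Prop := ∀ (n : ℕ) (s : ℝ) (hs : 0 < s) (θ v eps : ℝ), 2 ≤ n → 0 ≤ eps →
  ∀ N : ℕ, 2 * n ≤ N → ∀ bt : ℕ → ℤ → ℂ,
    IsArrT (FL.KW.kern (2 * n - 1) s hs) (ph θ v) (capP n s θ v) eps N bt →
    closec (2 * n) (capP n s θ v) bt n = ZT n s θ v eps

/-- BKB (from PTL, MGI2): skeletons with few tokens. PROOF. `τ = 1/2`, `ρ' = ρ (1 + d)`, `d = D^(-K')`:
`∑_p ρ'^hl s^(hl - htn) ≤ 1 + d ∑_m m (1+d)^m D θ^m ≤ 1 + d D^K1 ≤ 1 + (1/2) ρ^6 s²` (tails of the pieces,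
`ρ ≥ 1/100`, `s ≥ exp(-f1)`), `capK n s ρ' ≤ ∑_m (1+d)^m D θ^m ≤ D^K1`. `IsSkel.count`:
`∑_{len < k0} vsk ≤ 2^k0 ∑ s^(n-H) ((1+s)/2)^len ≤ 2^k0 ρ'^(-n) D^(2 K1)`, `(1+d)^(-n) ≤ exp(-d n/2)`,
`k0 = n / D^K ≤ d n / 4`. -/
def BKB_Stmt : Prop := ∀ f1 : ℝ, 0 < f1 → ∃ A0 : ℕ, 2 ≤ A0 ∧ ∀ A : ℕ, A0 ≤ A →
  ∃ K N0 : ℕ, 6 ≤ N0 ∧ ∀ (n : ℕ) (f rho : ℝ), N0 ≤ n → 0 < f → f ≤ f1 → Mp A f ^ K ≤ n →
    Crit n (Real.exp (-f)) rho → ∀ (k : ℕ) (σ : Fin k → Sk), IsSkel n k σ →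
    ∑ i ∈ univ.filter (fun i : Fin k => ((σ i).l.length : ℝ) < n / Mp A f ^ K),
      vsk n (Real.exp (-f)) (σ i) ≤ Mp A f ^ K * Real.exp (-(n / Mp A f ^ K)) / rho ^ n

/-- BTK (from BKB, SKEL): large `θ`. PROOF. `σ` from SKEL. By `repr` (real and imaginary parts)
`ZT = ∑_i c_i s^(n-H) e^(-eps A) ∏_{y ∈ l} (1 + s e^(-iθ) e^(eps y))`, `|c_i| = 1`. `eps y ≤ 1`, so with
`s' = s e^(eps y) ∈ [s, 3]`: `|1 + s' e^(-iθ)|² = (1+s')² - 2 s'(1 - cos θ) ≤ (1+s')² (1 - s θ²/40)`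
(`1 - cos θ ≥ 2θ²/π²`). Skeletons with `len ≥ k0 = n/D^K'`: factor `exp(-s θ² k0/80)`, and without it the
sum is `Ta ≤ Zq`; `s ≥ exp(-f1)`. The others: `e^(-eps A) ∏ (1 + s e^(eps y)) ≤ e^(-eps A + eps ∑ y) (1+s)^len
≤ (1+s)^len` (`sum_le`), BKB. -/
def BTK_Stmt : Prop := ∀ f1 : ℝ, 0 < f1 → ∃ A0 : ℕ, 2 ≤ A0 ∧ ∀ A : ℕ, A0 ≤ A →
  ∃ K N0 : ℕ, 6 ≤ N0 ∧ ∀ (n : ℕ) (f rho : ℝ), N0 ≤ n → 0 < f → f ≤ f1 → Mp A f ^ K ≤ n →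
    Crit n (Real.exp (-f)) rho → ∀ θ v eps : ℝ, |θ| ≤ Real.pi → 0 ≤ eps →
    eps * (2 * n + 2) ≤ 1 →
    ‖ZT n (Real.exp (-f)) θ v eps‖ ≤
      Real.exp (-(θ ^ 2 * n / Mp A f ^ K)) * Zq n (Real.exp (-f)) +
        Mp A f ^ K * Real.exp (-(n / Mp A f ^ K)) / rho ^ n

/-- BLU (from BKB, SKEL, BIN): upper bounds at fixed span. PROOF. `k0 = n/D^K'`. (1) `a = A - t`,
`t ≤ ∑ y ≤ A/4` so `A^p ≤ (4/3)^p a^p`; the words of a skeleton with span `h` have `j = H - h` tokens of the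
second kind, total weight `vsk bp(len, s/(1+s), j) ≤ vsk C/√k0` (BIN, `s/(1+s) ∈ [e^(-f1)/2, 1/2]`). So
`∑_{sp = h} w a^p ≤ C/√k0 ∑_i A_i^p vsk ≤ (4/3)^p C/√k0 ∑ w a^p` over the skeletons with `len ≥ k0`, the
others: `(2n²)^p ∑ vsk`, BKB, and `(2n²)^p exp(-n/D^K') ≤ exp(-n/D^K)` for `n ≥ D^K`, `n ≥ N0`. (2) `dq - arq` of
the words of a skeleton is `L - A + dlt j` (it depends on `j` only), and `|x_j|^p ≤ 2^p (|x_j'|^p + (|dlt| n)^p)`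
for all `j'`: average over `j'` with the binomial weights (compare `FS/LOC.lean`). -/
def BLU_Stmt : Prop := ∀ (f1 : ℝ) (p : ℕ), 0 < f1 → ∃ A0 : ℕ, 2 ≤ A0 ∧ ∀ A : ℕ, A0 ≤ A →
  ∃ K N0 : ℕ, 6 ≤ N0 ∧ ∀ (n : ℕ) (f rho : ℝ), N0 ≤ n → 0 < f → f ≤ f1 → Mp A f ^ K ≤ n →
    Crit n (Real.exp (-f)) rho → ∀ h : ℕ,
    ∑ q ∈ (Omn n).filter (fun q => sp q = h), wtq n (Real.exp (-f)) q * (arq n q : ℝ) ^ p ≤
      Mp A f ^ K / Real.sqrt n * ∑ q ∈ Omn n, wtq n (Real.exp (-f)) q * (arq n q : ℝ) ^ p +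
        Mp A f ^ K * Real.exp (-(n / Mp A f ^ K)) / rho ^ n ∧
    ∑ q ∈ (Omn n).filter (fun q => sp q = h), wtq n (Real.exp (-f)) q *
        |(dq q : ℝ) - (arq n q : ℝ)| ^ p ≤
      Mp A f ^ K / Real.sqrt n * (∑ q ∈ Omn n, wtq n (Real.exp (-f)) q *
        |(dq q : ℝ) - (arq n q : ℝ)| ^ p + (n : ℝ) ^ p * Zq n (Real.exp (-f))) +
        Mp A f ^ K * Real.exp (-(n / Mp A f ^ K)) / rho ^ n

/-- FOU: Fourier inversion (pure analysis). PROOF. `u h = (2π)⁻¹ ∫_{-π}^{π} a(θ) e^(-iθ(h-m)) dθ` for every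
`h : ℕ` (`0` for `h > n`), `a(θ) = ∑ u h e^(iθ(h-m))`; `gau n v κ h = (2π)⁻¹ ∫_ℝ e^(-iθ(h-m)) e^(-κθ²n) dθ`
(`m = v n`; `fourierIntegral_gaussian`). The difference: `|θ| ≤ θ1` at most `(2π)⁻¹ 2 θ1 δ`,
`θ1 ≤ |θ| ≤ π` at most `η`, and `|S| π⁻¹ ∫_{θ1}^∞ e^(-κnθ²) dθ ≤ |S| e^(-κnθ1²/2) / √(κn)`. -/
def FOU_Stmt : Prop := ∀ (n : ℕ) (u : ℕ → ℝ) (v κ θ1 δ η : ℝ), 1 ≤ n → 0 < κ → 0 < θ1 →
  θ1 ≤ Real.pi → 0 ≤ δ → 0 ≤ η → (∀ h, n < h → u h = 0) →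
  (∀ θ : ℝ, |θ| ≤ θ1 → ‖∑ h ∈ range (n + 1), (u h : ℂ) * ph θ v (n, h) -
    (Real.exp (-(κ * θ ^ 2 * n)) : ℂ) * ((∑ h ∈ range (n + 1), u h : ℝ) : ℂ)‖ ≤ δ) →
  (∀ θ : ℝ, θ1 ≤ |θ| → |θ| ≤ Real.pi →
    ‖∑ h ∈ range (n + 1), (u h : ℂ) * ph θ v (n, h)‖ ≤ η) →
  ∀ h : ℕ, |u h - gau n v κ h * ∑ k ∈ range (n + 1), u k| ≤
    θ1 * δ + η + |∑ k ∈ range (n + 1), u k| * Real.exp (-(κ * θ1 ^ 2 * n / 2)) /
      Real.sqrt (κ * n)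

/-- LLAW (from BKER, BCP, BTW, BTK, FOU, TLT, TUB, TJ1 and the old J1): local law of the span jointly
with the Laplace transform of the area functional. PROOF. `A` from BKER and BTK; `K3` larger than all
exponents; `a = 1/(16 (K3 + 1))`, `W = n^a`, `c0` so small that `D^(K3+1) ≤ n^(a/100)` (`D = Mp A f ≤
A^A n^(A c0)`). `θ1 = √(W^(1/4)/n)`. `N = 2 n`, arrays from J1, TJ1; `closec = ZT` (BTW), the real
case is `θ = 0` (`IsArr` gives `IsArrT` for `ph 0 v = 1`, `capP n s 0 v = capW`): `close = Ta`. For `|θ| ≤ θ1`: `ScT`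
holds (`θ² n D^K3 ≤ W`, `(D W)^K3 ≤ n^(1/8)`), TLT: `sc ρ^n ‖ZT - e^(-κθ²n) Ta‖ ≤ n^(-1/8) + n^(a/100 - a/2)`;
times `θ1 = n^(-1/2 + a/8)`. For `θ1 ≤ |θ| ≤ π`: BTK, `sc n ρ^n Zq ≤ D^K3` (TUB), `θ1² n/D^K3 ≥ n^(a/5)`.
FOU with `u h = sc n ρ^n Th n s h eps` (`sp q ≤ n` by HG); `c1 = a/8`. -/
def LLAW_Stmt : Prop := ∀ f1 : ℝ, 0 < f1 → ∃ (A K : ℕ) (c0 c1 : ℝ), 2 ≤ A ∧ 0 < c0 ∧ 0 < c1 ∧
  ∃ N : ℕ, ∀ (n : ℕ) (f rho : ℝ), N ≤ n → (n : ℝ) ^ (-c0) ≤ f → f ≤ f1 →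
    Crit n (Real.exp (-f)) rho →
    (Mp A f ^ K)⁻¹ ≤ vf n f ∧ vf n f ≤ 1 ∧ (Mp A f ^ K)⁻¹ ≤ kf n f ∧ kf n f ≤ Mp A f ^ K ∧
    sc n * rho ^ n * Zq n (Real.exp (-f)) ≤ Mp A f ^ K ∧
    ∀ (h : ℕ) (eps : ℝ), 0 ≤ eps → eps * (2 * n + 2) ≤ 1 →
      |sc n * rho ^ n * (Th n (Real.exp (-f)) h eps -
        gau n (vf n f) (kf n f) h * Ta n (Real.exp (-f)) eps)| ≤ (n : ℝ) ^ (-(1 / 2) - c1)

end Pool.Agent.PFS
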