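import Pool.Agent.PFS.StmtsA
import Pool.Agent.Lib_helper89.FL.GC
import Pool.Agent.Lib_helper89.FL.GC2

/-!
# Project PFS, module TGC: coercivity of the kernel with phases
-/

set_option autoImplicit false

open Finset Filter Topology

namespace Pool.Agent.PFS

open Pool.Agent.Gap Pool.Agent.Gap.H62 Pool.Agent.FL Pool.Agent.EXW

namespace TGCx

/-- the form of the operator with phases -/
lemma form_eqT (G : GapKernel) (p : ℕ × ℕ → ℂ) (eps : ℝ) (z : ℂ) (N : ℕ) (f : ℤ → ℂ) :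
    form N f (LopT G p eps z N f) =
      (nsq N f : ℂ) - ∑ i ∈ G.S, (z ^ i.1 * p i) * B G eps N i f := by
  unfold form LopT KapT KzT nsq B
  push_cast
  have h1 : ∀ g : ℤ, (starRingEnd ℂ) (f g) * (f g - ∑ g' ∈ Icc (1 : ℤ) N,
      (∑ i ∈ G.S, ((i.1 : ℂ)) ^ 0 * (z ^ i.1 * p i) *
        ((G.K i g g' : ℂ) * (GapKernel.wt eps i g g' : ℂ))) * f g')
      = (‖f g‖ : ℂ) ^ 2 - ∑ i ∈ G.S, (z ^ i.1 * p i) * ∑ g' ∈ Icc (1 : ℤ) N,
        ((G.K i g g' : ℂ) * (GapKernel.wt eps i g g' : ℂ)) * (starRingEnd ℂ) (f g) * f g' := by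
    intro g
    rw [mul_sub, Complex.conj_mul']
    congr 1
    rw [Finset.mul_sum]
    simp only [Finset.sum_mul, Finset.mul_sum]
    rw [Finset.sum_comm]
    refine Finset.sum_congr rfl fun i _ => Finset.sum_congr rfl fun g' _ => ?_
    rw [pow_zero]
    ring
  simp only [h1]
  rw [Finset.sum_sub_distrib]
  congr 1
  rw [Finset.sum_comm]
  refine Finset.sum_congr rfl fun i _ => ?_
  rw [Finset.mul_sum]

lemma one_sub_pow_le {ζ : ℂ} (hζ : ‖ζ‖ ≤ 1) (m : ℕ) : ‖1 - ζ ^ m‖ ≤ (m : ℝ) * ‖1 - ζ‖ := by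
  induction m with
  | zero => simp
  | succ m ih =>
    have e : 1 - ζ ^ (m + 1) = (1 - ζ ^ m) + ζ ^ m * (1 - ζ) := by ring
    rw [e]
    refine (norm_add_le _ _).trans ?_
    rw [norm_mul, norm_pow]
    have h1 : ‖ζ‖ ^ m ≤ 1 := pow_le_one₀ (norm_nonneg _) hζ
    have h2 := norm_nonneg (1 - ζ)
    push_cast
    nlinarith

lemma one_sub_pow_le2 {ζ : ℂ} (hζ : ‖ζ‖ ≤ 1) (m : ℕ) :
    ‖1 - ζ ^ m - (m : ℂ) * (1 - ζ)‖ ≤ (m : ℝ) ^ 2 * ‖1 - ζ‖ ^ 2 := by
  induction m with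
  | zero => simp
  | succ m ih =>
    have e : 1 - ζ ^ (m + 1) - ((m + 1 : ℕ) : ℂ) * (1 - ζ) =
        (1 - ζ ^ m - (m : ℂ) * (1 - ζ)) - (1 - ζ ^ m) * (1 - ζ) := by
      push_cast
      ring
    rw [e]
    refine (norm_sub_le _ _).trans ?_
    rw [norm_mul]
    have h1 := one_sub_pow_le hζ m
    have h2 := norm_nonneg (1 - ζ)
    have h3 : ‖1 - ζ ^ m‖ * ‖1 - ζ‖ ≤ (m : ℝ) * ‖1 - ζ‖ * ‖1 - ζ‖ :=
      mul_le_mul_of_nonneg_right h1 h2
    have h4 : (0 : ℝ) ≤ (m + 1) * ‖1 - ζ‖ ^ 2 := by positivity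
    push_cast
    nlinarith

lemma cos_le (x : ℝ) : Real.cos x ≤ 1 - x ^ 2 / 2 + x ^ 4 / 2 := by
  rcases le_or_gt |x| 1 with h | h
  · have h1 := (abs_le.1 (Real.cos_bound h)).2
    have h2 : |x| ^ 4 = x ^ 4 := by rw [← abs_pow]; exact abs_of_nonneg (by positivity)
    rw [h2] at h1
    have : 0 ≤ x ^ 4 := by positivity
    linarith
  · have h1 := Real.cos_le_one x
    have h2 : 1 ≤ x ^ 2 := by rw [← sq_abs]; nlinarith
    have h3 : x ^ 4 = x ^ 2 * x ^ 2 := by ring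
    nlinarith

lemma sin_sub_le (x : ℝ) : |Real.sin x - x| ≤ 2 * |x| ^ 3 := by
  rcases le_or_gt |x| 1 with h | h
  · have h1 := Real.sin_bound h
    have h2 : |x| ^ 5 ≤ |x| ^ 3 := pow_le_pow_of_le_one (abs_nonneg _) h (by norm_num)
    have e : Real.sin x - x = (Real.sin x - (x - x ^ 3 / 6)) - x ^ 3 / 6 := by ring
    have h3 : |x ^ 3 / 6| = |x| ^ 3 / 6 := by rw [abs_div, abs_pow]; norm_num
    have h4 : 0 ≤ |x| ^ 3 := by positivity
    calc |Real.sin x - x| = |(Real.sin x - (x - x ^ 3 / 6)) - x ^ 3 / 6| := by rw [← e]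
      _ ≤ |Real.sin x - (x - x ^ 3 / 6)| + |x ^ 3 / 6| := abs_sub _ _
      _ ≤ 2 * |x| ^ 3 := by
        rw [h3]
        linarith
  · have h1 := Real.abs_sin_le_one x
    have h2 : |x| ≤ |x| ^ 3 := by
      have : |x| ^ 1 ≤ |x| ^ 3 := pow_le_pow_right₀ h.le (by norm_num)
      rwa [pow_one] at this
    calc |Real.sin x - x| ≤ |Real.sin x| + |x| := abs_sub _ _
      _ ≤ 2 * |x| ^ 3 := by linarith

/-- the total mass of the kernel with phases near the critical point -/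
lemma mass {ι : Type*} (S : Finset ι) (q : ι → ℝ) (m : ι → ℕ) (δ : ι → ℝ)
    (hq : ∀ i ∈ S, 0 ≤ q i) (hδ : ∀ i ∈ S, |δ i| ≤ m i) (hδ0 : ∑ i ∈ S, q i * δ i = 0)
    {V M2 M3 M4 mb θ : ℝ} (hV : ∑ i ∈ S, q i * δ i ^ 2 = 2 * V)
    (hmb : ∑ i ∈ S, (m i : ℝ) * q i = mb) (hmb1 : 1 ≤ mb)
    (hM2 : ∑ i ∈ S, (m i : ℝ) ^ 2 * q i ≤ M2) (hM3 : ∑ i ∈ S, (m i : ℝ) ^ 3 * q i ≤ M3)
    (hM4 : ∑ i ∈ S, (m i : ℝ) ^ 4 * q i ≤ M4) {ζ : ℂ} (hζ : ‖ζ‖ ≤ 1)
    (c1 : M2 * (‖1 - ζ‖ + |θ|) ≤ 1 / 4) (c2 : θ ^ 2 * M4 ≤ V) (c3 : 32 * M3 * |θ| ≤ V) :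
    (9 / 20) * ‖1 - ζ‖ ≤ ‖∑ i ∈ S, (q i : ℂ) *
      (1 - ζ ^ (m i) * Complex.exp (((θ * δ i : ℝ) : ℂ) * Complex.I))‖ := by
  set s : ℂ := 1 - ζ with hs
  set sn : ℝ := ‖s‖ with hsn
  have hsn0 : 0 ≤ sn := norm_nonneg _
  have hsre : 0 ≤ s.re := by
    have h1 : ζ.re ≤ 1 := (Complex.re_le_norm ζ).trans hζ
    rw [hs, Complex.sub_re, Complex.one_re]
    linarith
  have hθ0 := abs_nonneg θ
  set p : ι → ℂ := fun i => Complex.exp (((θ * δ i : ℝ) : ℂ) * Complex.I) with hp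
  set r : ℝ := ∑ i ∈ S, q i * (1 - Real.cos (θ * δ i)) with hr
  set σ : ℝ := ∑ i ∈ S, q i * Real.sin (θ * δ i) with hσ
  set e' : ℂ := ∑ i ∈ S, (q i : ℂ) * ((1 - ζ ^ (m i) - (m i : ℂ) * s) -
    (1 - p i) * (1 - ζ ^ (m i))) with he'
  -- the decomposition
  have hdec : ∑ i ∈ S, (q i : ℂ) * (1 - ζ ^ (m i) * p i) =
      ((mb : ℂ) * s + (r : ℂ)) + (e' - (σ : ℂ) * Complex.I) := by
    rw [← hmb, hr, hσ, he']
    push_cast
    rw [Finset.sum_mul, Finset.sum_mul, ← Finset.sum_add_distrib, ← Finset.sum_sub_distrib,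
      ← Finset.sum_add_distrib]
    refine Finset.sum_congr rfl fun i _ => ?_
    have h1 : p i = Complex.cos ((θ : ℂ) * (δ i : ℂ)) +
        Complex.sin ((θ : ℂ) * (δ i : ℂ)) * Complex.I := by
      rw [hp]
      simp only
      rw [Complex.exp_mul_I]
      push_cast
      ring
    rw [h1]
    ring
  -- `r`
  have hr1 : θ ^ 2 * V / 2 ≤ r := by
    have h1 : ∑ i ∈ S, q i * ((θ * δ i) ^ 2 / 2 - (θ * δ i) ^ 4 / 2) ≤ r := by
      refine Finset.sum_le_sum fun i hi => mul_le_mul_of_nonneg_left ?_ (hq i hi)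
      have := cos_le (θ * δ i)
      linarith
    have h2 : ∑ i ∈ S, q i * ((θ * δ i) ^ 2 / 2 - (θ * δ i) ^ 4 / 2) =
        θ ^ 2 / 2 * ∑ i ∈ S, q i * δ i ^ 2 - θ ^ 4 / 2 * ∑ i ∈ S, q i * δ i ^ 4 := by
      rw [Finset.mul_sum, Finset.mul_sum, ← Finset.sum_sub_distrib]
      exact Finset.sum_congr rfl fun i _ => by ring
    have h3 : ∑ i ∈ S, q i * δ i ^ 4 ≤ M4 := by
      refine le_trans (Finset.sum_le_sum fun i hi => ?_) hM4
      rw [mul_comm]
      refine mul_le_mul_of_nonneg_right ?_ (hq i hi)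
      have h4 : δ i ^ 4 = |δ i| ^ 4 := by
        rw [← abs_pow]
        exact (abs_of_nonneg (by positivity)).symm
      rw [h4]
      exact pow_le_pow_left₀ (abs_nonneg _) (hδ i hi) 4
    have h5 : θ ^ 4 / 2 * ∑ i ∈ S, q i * δ i ^ 4 ≤ θ ^ 2 * V / 2 := by
      calc θ ^ 4 / 2 * ∑ i ∈ S, q i * δ i ^ 4 ≤ θ ^ 4 / 2 * M4 :=
            mul_le_mul_of_nonneg_left h3 (by positivity)
        _ = θ ^ 2 / 2 * (θ ^ 2 * M4) := by ring
        _ ≤ θ ^ 2 / 2 * V := mul_le_mul_of_nonneg_left c2 (by positivity)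
        _ = _ := by ring
    rw [h2, hV] at h1
    linarith
  have hV0 : 0 ≤ V := by
    have h1 : 0 ≤ ∑ i ∈ S, q i * δ i ^ 2 :=
      Finset.sum_nonneg fun i hi => mul_nonneg (hq i hi) (sq_nonneg _)
    rw [hV] at h1
    linarith
  have hr0 : 0 ≤ r := le_trans (by positivity) hr1
  -- `σ`
  have hσ1 : |σ| ≤ θ ^ 2 * V / 16 := by
    have h1 : σ = ∑ i ∈ S, q i * (Real.sin (θ * δ i) - θ * δ i) := by
      have h2 : ∑ i ∈ S, q i * (Real.sin (θ * δ i) - θ * δ i) =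
          σ - θ * ∑ i ∈ S, q i * δ i := by
        rw [hσ, Finset.mul_sum, ← Finset.sum_sub_distrib]
        exact Finset.sum_congr rfl fun i _ => by ring
      rw [h2, hδ0, mul_zero, sub_zero]
    rw [h1]
    calc |∑ i ∈ S, q i * (Real.sin (θ * δ i) - θ * δ i)|
        ≤ ∑ i ∈ S, |q i * (Real.sin (θ * δ i) - θ * δ i)| := Finset.abs_sum_le_sum_abs _ _
      _ ≤ ∑ i ∈ S, (2 * |θ| ^ 3) * ((m i : ℝ) ^ 3 * q i) := by
          refine Finset.sum_le_sum fun i hi => ?_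
          rw [abs_mul, abs_of_nonneg (hq i hi)]
          have h2 := sin_sub_le (θ * δ i)
          rw [abs_mul, mul_pow] at h2
          have h3 : |δ i| ^ 3 ≤ (m i : ℝ) ^ 3 := pow_le_pow_left₀ (abs_nonneg _) (hδ i hi) 3
          calc q i * |Real.sin (θ * δ i) - θ * δ i| ≤ q i * (2 * (|θ| ^ 3 * |δ i| ^ 3)) :=
                mul_le_mul_of_nonneg_left h2 (hq i hi)
            _ ≤ q i * (2 * (|θ| ^ 3 * (m i : ℝ) ^ 3)) := by
                refine mul_le_mul_of_nonneg_left ?_ (hq i hi)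
                refine mul_le_mul_of_nonneg_left ?_ (by norm_num)
                exact mul_le_mul_of_nonneg_left h3 (by positivity)
            _ = _ := by ring
      _ = (2 * |θ| ^ 3) * ∑ i ∈ S, (m i : ℝ) ^ 3 * q i := by rw [Finset.mul_sum]
      _ ≤ (2 * |θ| ^ 3) * M3 := mul_le_mul_of_nonneg_left hM3 (by positivity)
      _ = |θ| ^ 2 / 16 * (32 * M3 * |θ|) := by ring
      _ ≤ |θ| ^ 2 / 16 * V := mul_le_mul_of_nonneg_left c3 (by positivity)
      _ = _ := by rw [sq_abs]; ring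
  -- `e'`
  have he1 : ‖e'‖ ≤ sn / 4 := by
    calc ‖e'‖ ≤ ∑ i ∈ S, ‖(q i : ℂ) * ((1 - ζ ^ (m i) - (m i : ℂ) * s) -
          (1 - p i) * (1 - ζ ^ (m i)))‖ := norm_sum_le _ _
      _ ≤ ∑ i ∈ S, ((m i : ℝ) ^ 2 * q i) * (sn * (sn + |θ|)) := by
          refine Finset.sum_le_sum fun i hi => ?_
          rw [norm_mul, Complex.norm_real, Real.norm_of_nonneg (hq i hi)]
          have h1 := one_sub_pow_le2 hζ (m i)
          have h2 := one_sub_pow_le hζ (m i)
          have h3 : ‖1 - p i‖ ≤ |θ| * (m i : ℝ) := by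
            have h4 := Real.norm_exp_I_mul_ofReal_sub_one_le (x := θ * δ i)
            rw [norm_sub_rev, hp]
            simp only
            rw [mul_comm (((θ * δ i : ℝ) : ℂ)) Complex.I]
            refine h4.trans ?_
            rw [Real.norm_eq_abs, abs_mul]
            exact mul_le_mul_of_nonneg_left (hδ i hi) hθ0
          have h5 : ‖(1 - ζ ^ (m i) - (m i : ℂ) * s) - (1 - p i) * (1 - ζ ^ (m i))‖ ≤
              (m i : ℝ) ^ 2 * (sn * (sn + |θ|)) := by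
            refine (norm_sub_le _ _).trans ?_
            rw [norm_mul]
            have h6 : ‖1 - p i‖ * ‖1 - ζ ^ (m i)‖ ≤ (|θ| * (m i : ℝ)) * ((m i : ℝ) * sn) :=
              mul_le_mul h3 h2 (norm_nonneg _) (by positivity)
            have h7 : ‖1 - ζ ^ (m i) - (m i : ℂ) * s‖ ≤ (m i : ℝ) ^ 2 * sn ^ 2 := h1
            calc _ ≤ (m i : ℝ) ^ 2 * sn ^ 2 + (|θ| * (m i : ℝ)) * ((m i : ℝ) * sn) :=
                  add_le_add h7 h6
              _ = _ := by ring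
          calc q i * ‖(1 - ζ ^ (m i) - (m i : ℂ) * s) - (1 - p i) * (1 - ζ ^ (m i))‖
              ≤ q i * ((m i : ℝ) ^ 2 * (sn * (sn + |θ|))) :=
                mul_le_mul_of_nonneg_left h5 (hq i hi)
            _ = _ := by ring
      _ = (∑ i ∈ S, (m i : ℝ) ^ 2 * q i) * (sn * (sn + |θ|)) := by rw [Finset.sum_mul]
      _ ≤ M2 * (sn * (sn + |θ|)) := mul_le_mul_of_nonneg_right hM2 (by positivity)
      _ = sn * (M2 * (sn + |θ|)) := by ring
      _ ≤ sn * (1 / 4) := mul_le_mul_of_nonneg_left c1 hsn0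
      _ = _ := by ring
  -- the main part
  have hmain : (7 / 10) * (mb * sn + r) ≤ ‖(mb : ℂ) * s + (r : ℂ)‖ := by
    have h1 : ‖(mb : ℂ) * s + (r : ℂ)‖ ^ 2 = mb ^ 2 * sn ^ 2 + r ^ 2 + 2 * (mb * s.re * r) := by
      rw [hsn, ← Complex.normSq_eq_norm_sq, ← Complex.normSq_eq_norm_sq, Complex.normSq_apply,
        Complex.normSq_apply]
      simp only [Complex.add_re, Complex.mul_re, Complex.ofReal_re, Complex.ofReal_im,
        Complex.add_im, Complex.mul_im]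
      ring
    have h2 : 0 ≤ mb * s.re * r := by positivity
    have h3 : ((7 / 10) * (mb * sn + r)) ^ 2 ≤ ‖(mb : ℂ) * s + (r : ℂ)‖ ^ 2 := by
      rw [h1]
      nlinarith [sq_nonneg (mb * sn - r), sq_nonneg (mb * sn + r)]
    exact abs_le_of_sq_le_sq' h3 (norm_nonneg _) |>.2
  have htot : ‖(mb : ℂ) * s + (r : ℂ)‖ - ‖e' - (σ : ℂ) * Complex.I‖ ≤
      ‖∑ i ∈ S, (q i : ℂ) * (1 - ζ ^ (m i) * p i)‖ := by
    rw [hdec]
    have h1 := norm_sub_le (((mb : ℂ) * s + (r : ℂ)) + (e' - (σ : ℂ) * Complex.I))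
      (e' - (σ : ℂ) * Complex.I)
    rw [add_sub_cancel_right] at h1
    linarith
  have he2 : ‖e' - (σ : ℂ) * Complex.I‖ ≤ sn / 4 + θ ^ 2 * V / 16 := by
    refine (norm_sub_le _ _).trans (add_le_add he1 ?_)
    rw [norm_mul, Complex.norm_real, Complex.norm_I, mul_one, Real.norm_eq_abs]
    exact hσ1
  have h3 : sn ≤ mb * sn := by nlinarith
  have h4 : 0 ≤ θ ^ 2 * V := by positivity
  linarith

/-- the deviations of the heights -/
lemma dev {D v κ : ℝ} {G : GapKernel} (hG : TwP D G v κ) :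
    (∀ i ∈ G.S, |(i.2 : ℝ) - v * i.1| ≤ (i.1 : ℝ)) ∧ 1 ≤ G.mbar ∧
      ∑ i ∈ G.S, (G.rho ^ i.1 * G.tot i) * ((i.2 : ℝ) - v * i.1) = 0 := by
  have hrt : ∀ i : ℕ × ℕ, 0 ≤ G.rho ^ i.1 * G.tot i := fun i => GSum.rt_nonneg G i
  have hm1 : 1 ≤ G.mbar := by
    rw [← GSum.crit' G]
    unfold GapKernel.mbar
    refine Finset.sum_le_sum fun i hi => ?_
    have h1 : (1 : ℝ) ≤ i.1 := by exact_mod_cast (G.pos_mem i hi).1
    have h2 := hrt i
    nlinarith
  have hh1 : 0 ≤ G.hbar := by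
    unfold GapKernel.hbar
    refine Finset.sum_nonneg fun i _ => ?_
    have h2 := hrt i
    rw [mul_assoc]
    positivity
  have hh2 : G.hbar ≤ G.mbar := by
    unfold GapKernel.hbar GapKernel.mbar
    refine Finset.sum_le_sum fun i hi => ?_
    have h1 : (i.2 : ℝ) ≤ i.1 := by exact_mod_cast hG.cls.loc.h_le i hi
    have h2 := hrt i
    nlinarith
  have hv0 : 0 ≤ v := by
    by_contra hcon
    push Not at hcon
    rw [hG.v_eq] at hh1
    nlinarith
  have hv1 : v ≤ 1 := by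
    by_contra hcon
    push Not at hcon
    rw [hG.v_eq] at hh2
    nlinarith
  refine ⟨fun i hi => ?_, hm1, ?_⟩
  · have h1 : (i.2 : ℝ) ≤ i.1 := by exact_mod_cast hG.cls.loc.h_le i hi
    have h2 : (1 : ℝ) ≤ i.2 := by exact_mod_cast (G.pos_mem i hi).2
    have h3 : (0 : ℝ) ≤ i.1 := Nat.cast_nonneg _
    rw [abs_le]
    constructor <;> nlinarith
  · have h1 : ∑ i ∈ G.S, (G.rho ^ i.1 * G.tot i) * ((i.2 : ℝ) - v * i.1) =
        G.hbar - v * G.mbar := by
      unfold GapKernel.hbar GapKernel.mbar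
      rw [Finset.mul_sum, ← Finset.sum_sub_distrib]
      exact Finset.sum_congr rfl fun i _ => by ring
    rw [h1, hG.v_eq]
    ring

/-- coercivity with the explicit constant -/
lemma core {C2 M2 M3 M4 : ℝ} (hC2 : 0 < C2) (hM2 : 0 ≤ M2) (hM3 : 0 ≤ M3) (hM4 : 0 ≤ M4)
    (hC2' : ∀ G : GapKernel, Loc G →
      ∀ (N : ℕ) (eps : ℝ) (i : ℕ × ℕ) (f h : ℤ → ℂ), i ∈ G.S → 0 ≤ eps → Supp N f → Supp N h →
      ‖(G.tot i : ℂ) * ∑ g ∈ Icc (1 : ℤ) N, f g * h g
        - ∑ g ∈ Icc (1 : ℤ) N, ∑ g' ∈ Icc (1 : ℤ) N,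
            ((G.K i g g' * GapKernel.wt eps i g g' : ℝ) : ℂ) * f g * h g'‖
        ≤ C2 * (i.1 : ℝ) ^ 3 * G.tot i *
          (Real.sqrt (En N f + Pot eps N f) * Real.sqrt (En N h + Pot eps N h)))
    {Dc T : ℝ} (hD : 2 ≤ Dc) (hT : 1000 * Dc ^ 2 * ((1 + C2) * (1 + M2 + M3 + M4)) ≤ T)
    {G : GapKernel} {v κ θ : ℝ} (hG : TwP Dc G v κ)
    (hK2 : ∑ i ∈ G.S, (i.1 : ℝ) ^ 2 * (G.rho ^ i.1 * G.tot i) ≤ M2)
    (hK3 : ∑ i ∈ G.S, (i.1 : ℝ) ^ 3 * (G.rho ^ i.1 * G.tot i) ≤ M3)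
    (hK4 : ∑ i ∈ G.S, (i.1 : ℝ) ^ 4 * (G.rho ^ i.1 * G.tot i) ≤ M4)
    (hθ : |θ| * T ^ 2 ≤ 1) (N : ℕ) (eps : ℝ) (z : ℂ) (f : ℤ → ℂ) (he : 0 ≤ eps)
    (hz : ‖z‖ ≤ G.rho) (hf : Supp N f) :
    (T ^ 2 * Dc)⁻¹ * (‖(G.rho : ℂ) - z‖ * nsq N f + En N f + Pot eps N f)
      ≤ ‖form N f (LopT G (ph θ v) eps z N f)‖ := by
  classical
  obtain ⟨hδ, hmb1, hδ0⟩ := dev hG
  have hr := G.rho_pos
  have hrho : Dc⁻¹ ≤ G.rho := hG.cls.rho_ge
  have hrho4 : G.rho ≤ 1 / 4 := GSum.rho_le G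
  have hD0 : 0 < Dc := by linarith
  have hrinv : 1 ≤ Dc * G.rho := by
    have := mul_le_mul_of_nonneg_left hrho hD0.le
    rwa [mul_inv_cancel₀ hD0.ne'] at this
  have hinv : G.rho⁻¹ ≤ Dc := by
    rw [inv_le_comm₀ hr hD0]
    exact hrho
  -- the constant `T`
  have q2 := mul_nonneg hC2.le hM2
  have q3 := mul_nonneg hC2.le hM3
  have q4 := mul_nonneg hC2.le hM4
  have hPe : (1 + C2) * (1 + M2 + M3 + M4) =
      1 + M2 + M3 + M4 + (C2 + C2 * M2 + C2 * M3 + C2 * M4) := by ring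
  have hP1 : 1 ≤ (1 + C2) * (1 + M2 + M3 + M4) := by linarith
  have hPa : C2 * M4 ≤ (1 + C2) * (1 + M2 + M3 + M4) := by linarith
  have hPb : M2 ≤ (1 + C2) * (1 + M2 + M3 + M4) := by linarith
  have hPc : M3 ≤ (1 + C2) * (1 + M2 + M3 + M4) := by linarith
  have hPd : M4 ≤ (1 + C2) * (1 + M2 + M3 + M4) := by linarith
  set P : ℝ := (1 + C2) * (1 + M2 + M3 + M4) with hP
  have hDD : Dc ≤ Dc ^ 2 := by
    rw [sq]
    exact le_mul_of_one_le_left hD0.le (by linarith)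
  have hDD' : 1000 * Dc ≤ 1000 * Dc ^ 2 := by linarith
  have hTa : 1000 * Dc ^ 2 * (C2 * M4) ≤ T :=
    (mul_le_mul_of_nonneg_left hPa (by positivity)).trans hT
  have hTb : 1000 * Dc * M2 ≤ T := by
    refine le_trans ?_ ((mul_le_mul_of_nonneg_left hPb (by positivity :
      (0 : ℝ) ≤ 1000 * Dc ^ 2)).trans hT)
    exact mul_le_mul_of_nonneg_right hDD' hM2
  have hTc : 1000 * Dc * M3 ≤ T := by
    refine le_trans ?_ ((mul_le_mul_of_nonneg_left hPc (by positivity :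
      (0 : ℝ) ≤ 1000 * Dc ^ 2)).trans hT)
    exact mul_le_mul_of_nonneg_right hDD' hM3
  have hTd : 1000 * Dc * M4 ≤ T := by
    refine le_trans ?_ ((mul_le_mul_of_nonneg_left hPd (by positivity :
      (0 : ℝ) ≤ 1000 * Dc ^ 2)).trans hT)
    exact mul_le_mul_of_nonneg_right hDD' hM4
  have hTe : 1000 * Dc ^ 2 ≤ T := by
    refine le_trans ?_ hT
    exact le_mul_of_one_le_right (by positivity) hP1
  have hT9 : 1000 * Dc ≤ T := hDD'.trans hTe
  have hT1 : 1 ≤ T := by linarith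
  have hTT : T ≤ T ^ 2 := by
    rw [sq]
    exact le_mul_of_one_le_left (by linarith) hT1
  have hT0 : 0 < T := by linarith
  set η : ℝ := T⁻¹ with hη
  have hη0 : 0 < η := inv_pos.2 hT0
  have hηT : η * T = 1 := inv_mul_cancel₀ hT0.ne'
  have hη1 : η ≤ 1 := inv_le_one_of_one_le₀ hT1
  have hθ0 := abs_nonneg θ
  have hθ2 : |θ| ≤ η ^ 2 := by
    have h1 : |θ| * T ^ 2 * η ^ 2 ≤ 1 * η ^ 2 := mul_le_mul_of_nonneg_right hθ (by positivity)
    have h2 : |θ| * T ^ 2 * η ^ 2 = |θ| * (η * T) ^ 2 := by ring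
    rw [h2, hηT] at h1
    linarith
  have hθη : |θ| ≤ η := by
    refine hθ2.trans ?_
    rw [sq]
    exact mul_le_of_le_one_left hη0.le hη1
  -- the form
  set del := ‖(G.rho : ℂ) - z‖ with hdel
  set n2 := nsq N f with hn2
  set D := En N f + Pot eps N f with hDdef
  have hn2n : 0 ≤ n2 := H62.nsq_nonneg N f
  have hDn : 0 ≤ D := add_nonneg (H62.En_nonneg N f) (Pot_nonneg he N f)
  have hdeln : 0 ≤ del := norm_nonneg _
  rw [add_assoc, ← hDdef]
  set p : ℕ × ℕ → ℂ := ph θ v with hp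
  have hpn : ∀ i, ‖p i‖ = 1 := norm_ph θ v
  set A := form N f (LopT G p eps z N f) with hA
  have hAeq : A = (n2 : ℂ) - ∑ i ∈ G.S, (z ^ i.1 * p i) * B G eps N i f :=
    form_eqT G p eps z N f
  set b : ℕ × ℕ → ℝ := fun i => (B G eps N i f).re with hb
  have hBb : ∀ i, B G eps N i f = (b i : ℂ) := by
    intro i
    apply Complex.ext
    · simp [b]
    · rw [B_im, Complex.ofReal_im]
  have hbn : ∀ i, |b i| ≤ G.tot i * n2 := by
    intro i
    exact (Complex.abs_re_le_norm _).trans (B_norm G he i hf)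
  have hbl : ∀ i ∈ G.S, G.tot i * n2 - C2 * (i.1 : ℝ) ^ 3 * G.tot i * D ≤ b i := by
    intro i hi
    have hcs : Supp N (fun g => (starRingEnd ℂ) (f g)) := fun g hg => by simp [hf g hg]
    have h1 := hC2' G hG.cls.loc N eps i (fun g => (starRingEnd ℂ) (f g)) f hi he hcs hf
    have e1 : En N (fun g => (starRingEnd ℂ) (f g)) = En N f := by
      unfold En
      refine Finset.sum_congr rfl fun g _ => ?_
      rw [← map_sub, RCLike.norm_conj]
    have e2 : Pot eps N (fun g => (starRingEnd ℂ) (f g)) = Pot eps N f := by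
      unfold Pot
      refine Finset.sum_congr rfl fun g _ => ?_
      rw [RCLike.norm_conj]
    rw [e1, e2, ← hDdef, Real.mul_self_sqrt hDn] at h1
    have e3 : ∑ g ∈ Icc (1 : ℤ) N, (starRingEnd ℂ) (f g) * f g = (n2 : ℂ) := by
      rw [hn2]
      unfold nsq
      push_cast
      exact Finset.sum_congr rfl fun g _ => Complex.conj_mul' _
    rw [e3] at h1
    have e4 : ∑ g ∈ Icc (1 : ℤ) N, ∑ g' ∈ Icc (1 : ℤ) N,
        ((G.K i g g' * GapKernel.wt eps i g g' : ℝ) : ℂ) * (starRingEnd ℂ) (f g) * f g'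
        = (b i : ℂ) := hBb i
    rw [e4, ← Complex.ofReal_mul, ← Complex.ofReal_sub, Complex.norm_real, Real.norm_eq_abs] at h1
    have := (abs_le.1 h1).2
    linarith
  have hre : A.re = n2 - ∑ i ∈ G.S, (z ^ i.1 * p i).re * b i := by
    rw [hAeq, Complex.sub_re, Complex.ofReal_re, Complex.re_sum]
    congr 1
    refine Finset.sum_congr rfl fun i _ => ?_
    rw [hBb, Complex.re_mul_ofReal]
  -- real part
  set x := (z * p (1, 1)).re with hx
  set n2u := nsq N (damp eps f) with hn2u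
  set Eu := En N (damp eps f) with hEu
  have hb0 : b (1, 1) = 4 * n2u - Eu := B_i0 G hf
  have hb0n : 0 ≤ b (1, 1) := by
    have := En_le (damp_supp eps hf)
    rw [hb0]
    linarith
  have hreal : 4 * G.rho * n2 - x * b (1, 1) ≤ A.re := by
    rw [hre, ← Finset.add_sum_erase _ _ G.i0_mem]
    have hcrit := G.crit
    rw [← Finset.add_sum_erase _ _ G.i0_mem] at hcrit
    have h40 : ∑ d ∈ Icc (-(G.R : ℤ)) G.R, G.T (1, 1) d = 4 := tot_i0 G
    rw [h40] at hcrit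
    simp only [pow_one] at hcrit ⊢
    have h5 : ∑ i ∈ G.S.erase (1, 1), (z ^ i.1 * p i).re * b i
        ≤ ∑ i ∈ G.S.erase (1, 1), (G.rho ^ i.1 * ∑ d ∈ Icc (-(G.R : ℤ)) G.R, G.T i d) * n2 := by
      refine Finset.sum_le_sum fun i _ => ?_
      have h6 : |(z ^ i.1 * p i).re| ≤ G.rho ^ i.1 := by
        refine (Complex.abs_re_le_norm _).trans ?_
        rw [norm_mul, norm_pow, hpn, mul_one]
        exact pow_le_pow_left₀ (norm_nonneg _) hz _
      calc (z ^ i.1 * p i).re * b i ≤ |(z ^ i.1 * p i).re * b i| := le_abs_self _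
        _ = |(z ^ i.1 * p i).re| * |b i| := abs_mul _ _
        _ ≤ G.rho ^ i.1 * (G.tot i * n2) := mul_le_mul h6 (hbn i) (abs_nonneg _) (by positivity)
        _ = _ := by unfold GapKernel.tot; ring
    rw [← Finset.sum_mul] at h5
    have h7 : ∑ i ∈ G.S.erase (1, 1), G.rho ^ i.1 * ∑ d ∈ Icc (-(G.R : ℤ)) G.R, G.T i d
        = 1 - G.rho * 4 := by linarith
    rw [h7] at h5
    rw [← hx]
    linarith
  have hnu : n2u ≤ n2 := nsq_damp_le he f
  set Q := 4 * n2 - 4 * n2u + Eu with hQ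
  have hQn : 0 ≤ Q := by
    have := H62.En_nonneg N (damp eps f)
    rw [← hEu] at this
    linarith
  have hDQ : D ≤ 7 * Q := D_le_Q he hf
  have hAre : A.re ≤ ‖A‖ := Complex.re_le_norm A
  have hD5 : D ≤ 5 * n2 := by
    have h1 := En_le hf
    have h2 := Pot_le (eps := eps) (N := N) f
    rw [hDdef]
    linarith
  have hzp : ‖1 - p (1, 1)‖ ≤ |θ| := by
    have h4 := Real.norm_exp_I_mul_ofReal_sub_one_le (x := θ * ((((1, 1) : ℕ × ℕ).2 : ℝ) -
      v * ((1, 1) : ℕ × ℕ).1))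
    rw [norm_sub_rev, hp]
    unfold ph
    rw [mul_comm _ Complex.I]
    refine h4.trans ?_
    rw [Real.norm_eq_abs, abs_mul]
    have h5 := hδ (1, 1) G.i0_mem
    calc |θ| * |(((1, 1) : ℕ × ℕ).2 : ℝ) - v * ((1, 1) : ℕ × ℕ).1| ≤
          |θ| * (((1, 1) : ℕ × ℕ).1 : ℝ) := mul_le_mul_of_nonneg_left h5 hθ0
      _ = |θ| := by norm_num
  have hc0 : 0 < (T ^ 2 * Dc)⁻¹ := by positivity
  rcases le_or_gt η del with hcase | hcase
  · -- away from the critical point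
    have hxz : x ≤ z.re + G.rho * |θ| := by
      have h1 : (z - z * p (1, 1)).re ≥ -(G.rho * |θ|) := by
        have h2 := Complex.abs_re_le_norm (z - z * p (1, 1))
        have h3 : ‖z - z * p (1, 1)‖ ≤ G.rho * |θ| := by
          have e : z - z * p (1, 1) = z * (1 - p (1, 1)) := by ring
          rw [e, norm_mul]
          exact mul_le_mul hz hzp (norm_nonneg _) hr.le
        have := (abs_le.1 (h2.trans h3)).1
        linarith
      rw [Complex.sub_re] at h1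
      linarith
    have hzre : η ^ 2 ≤ 2 * G.rho * (G.rho - z.re) := by
      have h1 : del ^ 2 ≤ 2 * G.rho * (G.rho - z.re) := by
        have h2 : del ^ 2 = (G.rho - z.re) ^ 2 + z.im ^ 2 := by
          rw [hdel, ← Complex.normSq_eq_norm_sq, Complex.normSq_apply, Complex.sub_re,
            Complex.sub_im, Complex.ofReal_re, Complex.ofReal_im]
          ring
        have h3 : ‖z‖ ^ 2 = z.re ^ 2 + z.im ^ 2 := by
          rw [← Complex.normSq_eq_norm_sq, Complex.normSq_apply]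
          ring
        have h4 : ‖z‖ ^ 2 ≤ G.rho ^ 2 := pow_le_pow_left₀ (norm_nonneg _) hz 2
        have h5 : 2 * G.rho * (G.rho - z.re) =
          (G.rho - z.re) ^ 2 + (G.rho ^ 2 - z.re ^ 2) := by ring
        rw [h5, h2]
        linarith
      exact (pow_le_pow_left₀ hη0.le hcase 2).trans h1
    have hxr : η ^ 2 ≤ G.rho - x := by
      -- `2 ρ (ρ - Re z) ≥ η²`, `ρ ≤ 1/4`, so `ρ - Re z ≥ 2 η²`
      have h0 : 0 ≤ G.rho - z.re := by
        have := (Complex.re_le_norm z).trans hz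
        linarith
      have h1 : η ^ 2 ≤ (G.rho - z.re) / 2 := by
        have h3 : 2 * G.rho * (G.rho - z.re) ≤ 1 / 2 * (G.rho - z.re) :=
          mul_le_mul_of_nonneg_right (by linarith) h0
        linarith
      have h2 : G.rho * |θ| ≤ 1 / 4 * η ^ 2 := mul_le_mul hrho4 hθ2 hθ0 (by norm_num)
      linarith
    have hmain : 4 * η ^ 2 * n2 ≤ ‖A‖ := by
      rcases le_total 0 x with hx0 | hx0
      · have h1 : 4 * (G.rho - x) * n2 + x * Q ≤ A.re := by
          refine le_trans (le_of_eq ?_) hreal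
          rw [hb0, hQ]
          ring
        have h2 : 4 * η ^ 2 * n2 ≤ 4 * (G.rho - x) * n2 := by
          apply mul_le_mul_of_nonneg_right _ hn2n
          linarith
        have h3 : 0 ≤ x * Q := mul_nonneg hx0 hQn
        linarith
      · have hηρ : η ^ 2 ≤ G.rho := by
          refine le_trans ?_ hrho
          rw [hη, ← one_div, ← one_div, div_pow, one_pow]
          apply one_div_le_one_div_of_le hD0
          linarith
        have h2 : 4 * η ^ 2 * n2 ≤ 4 * G.rho * n2 := by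
          apply mul_le_mul_of_nonneg_right _ hn2n
          linarith
        have h3 : 0 ≤ (-x) * b (1, 1) := mul_nonneg (by linarith) hb0n
        linarith
    have hdel2 : del ≤ 2 * G.rho := by
      have h1 := norm_sub_le (G.rho : ℂ) z
      rw [Complex.norm_real, Real.norm_of_nonneg hr.le] at h1
      linarith
    have h1 : del * n2 + D ≤ 6 * n2 := by
      have := mul_le_mul_of_nonneg_right (hdel2.trans (by linarith : 2 * G.rho ≤ 1)) hn2n
      linarith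
    have h2 : (T ^ 2 * Dc)⁻¹ * 6 ≤ 4 * η ^ 2 := by
      rw [mul_inv, ← inv_pow, ← hη]
      have h3 : Dc⁻¹ ≤ 1 / 2 := by
        rw [← one_div]
        exact one_div_le_one_div_of_le (by norm_num) hD
      have h4 := mul_le_mul_of_nonneg_left h3 (sq_nonneg η)
      have h5 := sq_nonneg η
      linarith
    calc (T ^ 2 * Dc)⁻¹ * (del * n2 + D) ≤ (T ^ 2 * Dc)⁻¹ * (6 * n2) :=
          mul_le_mul_of_nonneg_left h1 hc0.le
      _ = ((T ^ 2 * Dc)⁻¹ * 6) * n2 := by ring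
      _ ≤ 4 * η ^ 2 * n2 := mul_le_mul_of_nonneg_right h2 hn2n
      _ ≤ ‖A‖ := hmain
  · -- near the critical point
    set ζ : ℂ := z / (G.rho : ℂ) with hζ
    have hrc : (G.rho : ℂ) ≠ 0 := by exact_mod_cast hr.ne'
    have hzζ : z = (G.rho : ℂ) * ζ := by rw [hζ]; field_simp
    have hζ1 : ‖ζ‖ ≤ 1 := by
      rw [hζ, norm_div, Complex.norm_real, Real.norm_of_nonneg hr.le]
      exact (div_le_one hr).2 hz
    have hsn : ‖1 - ζ‖ = del / G.rho := by
      have e : 1 - ζ = ((G.rho : ℂ) - z) / (G.rho : ℂ) := by rw [hζ]; field_simp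
      rw [e, norm_div, Complex.norm_real, Real.norm_of_nonneg hr.le]
    have hsn0 : 0 ≤ ‖1 - ζ‖ := norm_nonneg _
    have hsnD : ‖1 - ζ‖ ≤ Dc * η := by
      rw [hsn, div_eq_mul_inv, mul_comm]
      exact mul_le_mul hinv hcase.le hdeln hD0.le
    have hsnd : 4 * del ≤ ‖1 - ζ‖ := by
      rw [hsn, le_div_iff₀ hr]
      have := mul_le_mul_of_nonneg_left hrho4 hdeln
      linarith
    -- the mass
    have hV : ∑ i ∈ G.S, (G.rho ^ i.1 * G.tot i) * ((i.2 : ℝ) - v * i.1) ^ 2 =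
        2 * (κ * G.mbar) := by
      rw [hG.var]
      ring
    have hVge : Dc⁻¹ ≤ κ * G.mbar := by
      have h1 := hG.var_ge
      have h2 : 0 < Dc⁻¹ := inv_pos.2 hD0
      calc Dc⁻¹ ≤ κ * 1 := by rw [mul_one]; exact h1
        _ ≤ κ * G.mbar := mul_le_mul_of_nonneg_left hmb1 (h2.le.trans h1)
    have hDη : Dc⁻¹ * Dc = 1 := inv_mul_cancel₀ hD0.ne'
    have hDi0 : 0 < Dc⁻¹ := inv_pos.2 hD0
    have hsθ : ‖1 - ζ‖ + |θ| ≤ 2 * Dc * η := by
      have h1 : 1 * η ≤ Dc * η := mul_le_mul_of_nonneg_right (by linarith) hη0.le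
      linarith
    have c1 : M2 * (‖1 - ζ‖ + |θ|) ≤ 1 / 4 := by
      have h1 := hsθ
      calc M2 * (‖1 - ζ‖ + |θ|) ≤ M2 * (2 * Dc * η) := mul_le_mul_of_nonneg_left h1 hM2
        _ = (1000 * Dc * M2) * η / 500 := by ring
        _ ≤ T * η / 500 := by
            have := mul_le_mul_of_nonneg_right hTb hη0.le
            linarith
        _ ≤ 1 / 4 := by rw [mul_comm T η, hηT]; norm_num
    have hηc : ∀ M : ℝ, 0 ≤ M → 1000 * Dc * M ≤ T → M * |θ| ≤ Dc⁻¹ / 1000 := by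
      intro M hM hMT
      have h1 : M * |θ| ≤ M * η := mul_le_mul_of_nonneg_left hθη hM
      have h2 : 1000 * Dc * M * η ≤ 1 := by
        have := mul_le_mul_of_nonneg_right hMT hη0.le
        rw [mul_comm T η, hηT] at this
        exact this
      have h3 : M * η = Dc⁻¹ / 1000 * (1000 * Dc * M * η) := by
        have : Dc⁻¹ / 1000 * (1000 * Dc * M * η) = (Dc⁻¹ * Dc) * (M * η) := by ring
        rw [this, hDη, one_mul]
      have h4 : Dc⁻¹ / 1000 * (1000 * Dc * M * η) ≤ Dc⁻¹ / 1000 * 1 :=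
        mul_le_mul_of_nonneg_left h2 (by positivity)
      linarith
    have c2 : θ ^ 2 * M4 ≤ κ * G.mbar := by
      have h1 := hηc M4 hM4 hTd
      have h2 : θ ^ 2 = |θ| * |θ| := by rw [← sq_abs]; ring
      have h3 : |θ| ≤ 1 := hθη.trans hη1
      have h4 : θ ^ 2 * M4 ≤ M4 * |θ| := by
        rw [h2]
        have h5 : 0 ≤ M4 * |θ| := mul_nonneg hM4 hθ0
        calc |θ| * |θ| * M4 = |θ| * (M4 * |θ|) := by ring
          _ ≤ 1 * (M4 * |θ|) := mul_le_mul_of_nonneg_right h3 h5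
          _ = _ := one_mul _
      linarith
    have c3 : 32 * M3 * |θ| ≤ κ * G.mbar := by
      have h1 := hηc M3 hM3 hTc
      linarith
    have hmass := mass G.S (fun i => G.rho ^ i.1 * G.tot i) (fun i => i.1)
      (fun i => (i.2 : ℝ) - v * i.1) (fun i _ => GSum.rt_nonneg G i) hδ hδ0 hV
      (mb := G.mbar) (by
        unfold GapKernel.mbar
        exact Finset.sum_congr rfl fun i _ => by ring) hmb1 hK2 hK3 hK4 hζ1 c1 c2 c3
    set MF : ℂ := ∑ i ∈ G.S, ((G.rho ^ i.1 * G.tot i : ℝ) : ℂ) *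
      (1 - ζ ^ i.1 * Complex.exp (((θ * ((i.2 : ℝ) - v * i.1) : ℝ) : ℂ) * Complex.I)) with hMF
    -- the decomposition of the form
    set ee : ℕ × ℕ → ℝ := fun i => G.tot i * n2 - b i with hee
    have hee0 : ∀ i, 0 ≤ ee i := fun i => by
      have := (abs_le.1 (hbn i)).2
      simp only [ee]
      linarith
    have heel : ∀ i ∈ G.S, ee i ≤ C2 * (i.1 : ℝ) ^ 3 * G.tot i * D := fun i hi => by
      have := hbl i hi
      simp only [ee]
      linarith
    set E : ℝ := ∑ i ∈ G.S, G.rho ^ i.1 * ee i with hE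
    set E' : ℂ := ∑ i ∈ G.S, (z ^ i.1 * p i - (G.rho : ℂ) ^ i.1) * (ee i : ℂ) with hE'
    have hAdec : A = (n2 : ℂ) * MF + (E : ℂ) + E' := by
      have h1 : (∑ i ∈ G.S, ((G.rho ^ i.1 * G.tot i : ℝ) : ℂ)) = 1 := by
        rw [← Complex.ofReal_sum, GSum.crit', Complex.ofReal_one]
      have h2 : (n2 : ℂ) = (n2 : ℂ) * ∑ i ∈ G.S, ((G.rho ^ i.1 * G.tot i : ℝ) : ℂ) := by
        rw [h1, mul_one]
      rw [hAeq]
      conv_lhs => rw [h2]
      rw [hMF, hE, hE', Complex.ofReal_sum, Finset.mul_sum, Finset.mul_sum,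
        ← Finset.sum_sub_distrib, ← Finset.sum_add_distrib, ← Finset.sum_add_distrib]
      refine Finset.sum_congr rfl fun i _ => ?_
      have h3 : Complex.exp (((θ * ((i.2 : ℝ) - v * i.1) : ℝ) : ℂ) * Complex.I) = p i := rfl
      rw [h3, hBb i, hzζ, mul_pow]
      simp only [ee]
      push_cast
      ring
    have hE0 : 0 ≤ E := Finset.sum_nonneg fun i _ => mul_nonneg (by positivity) (hee0 i)
    have hEQ : G.rho * Q ≤ E := by
      have h1 : G.rho ^ ((1, 1) : ℕ × ℕ).1 * ee (1, 1) ≤ E :=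
        Finset.single_le_sum (f := fun i : ℕ × ℕ => G.rho ^ i.1 * ee i)
          (fun i _ => mul_nonneg (by positivity) (hee0 i)) G.i0_mem
      have h2 : ee (1, 1) = Q := by
        simp only [ee]
        rw [tot_i0, hb0, hQ]
        ring
      rw [h2] at h1
      simpa using h1
    have hED : D ≤ 7 * Dc * E := by
      have h1 : Q ≤ Dc * E := by
        calc Q = 1 * Q := (one_mul _).symm
          _ ≤ (Dc * G.rho) * Q := mul_le_mul_of_nonneg_right hrinv hQn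
          _ = Dc * (G.rho * Q) := by ring
          _ ≤ Dc * E := mul_le_mul_of_nonneg_left hEQ hD0.le
      linarith
    have hE'1 : ‖E'‖ ≤ E / 8 := by
      have h1 : ‖E'‖ ≤ (‖1 - ζ‖ + |θ|) * (C2 * M4 * D) := by
        calc ‖E'‖ ≤ ∑ i ∈ G.S, ‖(z ^ i.1 * p i - (G.rho : ℂ) ^ i.1) * (ee i : ℂ)‖ :=
              norm_sum_le _ _
          _ ≤ ∑ i ∈ G.S, ((i.1 : ℝ) ^ 4 * (G.rho ^ i.1 * G.tot i)) *
                ((‖1 - ζ‖ + |θ|) * (C2 * D)) := by
              refine Finset.sum_le_sum fun i hi => ?_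
              rw [norm_mul, Complex.norm_real, Real.norm_of_nonneg (hee0 i)]
              have h2 : ‖z ^ i.1 * p i - (G.rho : ℂ) ^ i.1‖ ≤
                  G.rho ^ i.1 * ((i.1 : ℝ) * (‖1 - ζ‖ + |θ|)) := by
                have e : z ^ i.1 * p i - (G.rho : ℂ) ^ i.1 =
                    (G.rho : ℂ) ^ i.1 * (-((1 - ζ ^ i.1) * p i) + (p i - 1)) := by
                  rw [hzζ, mul_pow]
                  ring
                rw [e, norm_mul, norm_pow, Complex.norm_real, Real.norm_of_nonneg hr.le]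
                refine mul_le_mul_of_nonneg_left ?_ (by positivity)
                refine (norm_add_le _ _).trans ?_
                rw [norm_neg, norm_mul, hpn, mul_one]
                have h3 := one_sub_pow_le hζ1 i.1
                have h4 : ‖p i - 1‖ ≤ |θ| * (i.1 : ℝ) := by
                  have h5 := Real.norm_exp_I_mul_ofReal_sub_one_le
                    (x := θ * ((i.2 : ℝ) - v * i.1))
                  rw [hp]
                  unfold ph
                  rw [mul_comm _ Complex.I]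
                  refine h5.trans ?_
                  rw [Real.norm_eq_abs, abs_mul]
                  exact mul_le_mul_of_nonneg_left (hδ i hi) hθ0
                linarith
              calc ‖z ^ i.1 * p i - (G.rho : ℂ) ^ i.1‖ * ee i
                  ≤ (G.rho ^ i.1 * ((i.1 : ℝ) * (‖1 - ζ‖ + |θ|))) *
                    (C2 * (i.1 : ℝ) ^ 3 * G.tot i * D) :=
                    mul_le_mul h2 (heel i hi) (hee0 i) (by positivity)
                _ = _ := by ring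
          _ = (∑ i ∈ G.S, (i.1 : ℝ) ^ 4 * (G.rho ^ i.1 * G.tot i)) *
                ((‖1 - ζ‖ + |θ|) * (C2 * D)) := by rw [Finset.sum_mul]
          _ ≤ M4 * ((‖1 - ζ‖ + |θ|) * (C2 * D)) :=
              mul_le_mul_of_nonneg_right hK4 (by positivity)
          _ = _ := by ring
      have h2 := hsθ
      have h3 : (‖1 - ζ‖ + |θ|) * (C2 * M4 * D) ≤ (2 * Dc * η) * (C2 * M4 * (7 * Dc * E)) := by
        refine mul_le_mul h2 ?_ (by positivity) (by positivity)
        exact mul_le_mul_of_nonneg_left hED (by positivity)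
      have h4 : (2 * Dc * η) * (C2 * M4 * (7 * Dc * E)) =
          (1000 * Dc ^ 2 * (C2 * M4)) * η * E * (14 / 1000) := by ring
      have h5 : (1000 * Dc ^ 2 * (C2 * M4)) * η * E * (14 / 1000) ≤ T * η * E * (14 / 1000) := by
        refine mul_le_mul_of_nonneg_right ?_ (by norm_num)
        refine mul_le_mul_of_nonneg_right ?_ hE0
        exact mul_le_mul_of_nonneg_right hTa hη0.le
      rw [mul_comm T η, hηT] at h5
      linarith
    -- the real part of the mass is nonnegative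
    have hMFre : 0 ≤ MF.re := by
      rw [hMF, Complex.re_sum]
      refine Finset.sum_nonneg fun i _ => ?_
      rw [Complex.re_ofReal_mul]
      refine mul_nonneg (GSum.rt_nonneg G i) ?_
      rw [Complex.sub_re, Complex.one_re]
      have h1 : ‖ζ ^ i.1 * Complex.exp (((θ * ((i.2 : ℝ) - v * i.1) : ℝ) : ℂ) * Complex.I)‖ ≤
          1 := by
        rw [norm_mul, Complex.norm_exp_ofReal_mul_I, mul_one, norm_pow]
        exact pow_le_one₀ (norm_nonneg _) hζ1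
      have h2 := (Complex.re_le_norm _).trans h1
      linarith
    have hA1 : (7 / 8) * E ≤ ‖A‖ := by
      have h1 : A.re = n2 * MF.re + E + E'.re := by
        rw [hAdec, Complex.add_re, Complex.add_re, Complex.re_ofReal_mul, Complex.ofReal_re]
      have h2 := (abs_le.1 (Complex.abs_re_le_norm E')).1
      have h3 : 0 ≤ n2 * MF.re := mul_nonneg hn2n hMFre
      linarith
    have hA2 : n2 * ‖MF‖ - (9 / 8) * E ≤ ‖A‖ := by
      have h1 : ‖(n2 : ℂ) * MF‖ ≤ ‖A‖ + ‖(E : ℂ) + E'‖ := by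
        have e : (n2 : ℂ) * MF = A - ((E : ℂ) + E') := by rw [hAdec]; ring
        rw [e]
        exact norm_sub_le _ _
      have h2 : ‖(E : ℂ) + E'‖ ≤ E + E / 8 := by
        refine (norm_add_le _ _).trans ?_
        rw [Complex.norm_real, Real.norm_of_nonneg hE0]
        linarith
      rw [norm_mul, Complex.norm_real, Real.norm_of_nonneg hn2n] at h1
      linarith
    have hA3 : n2 * ‖MF‖ ≤ 3 * ‖A‖ := by linarith [norm_nonneg A]
    have hA4 : del * n2 ≤ 2 * ‖A‖ := by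
      have h1 : (9 / 20) * (4 * del) ≤ ‖MF‖ := le_trans (by linarith) hmass
      have h2 := mul_le_mul_of_nonneg_left h1 hn2n
      have h3 : n2 * ((9 / 20) * (4 * del)) = (9 / 5) * (del * n2) := by ring
      rw [h3] at h2
      linarith [norm_nonneg A]
    have hA5 : D ≤ 8 * Dc * ‖A‖ := by
      have h1 : 7 * Dc * E = 8 * Dc * ((7 / 8) * E) := by ring
      have h2 := mul_le_mul_of_nonneg_left hA1 (by positivity : (0 : ℝ) ≤ 8 * Dc)
      linarith
    have hA6 : del * n2 + D ≤ (T ^ 2 * Dc) * ‖A‖ := by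
      have h1 : 2 + 8 * Dc ≤ T ^ 2 * Dc := by
        have h3 : 9 * Dc ≤ T ^ 2 * Dc := mul_le_mul_of_nonneg_right (by linarith) hD0.le
        linarith
      have h2 := mul_le_mul_of_nonneg_right h1 (norm_nonneg A)
      linarith
    calc (T ^ 2 * Dc)⁻¹ * (del * n2 + D) ≤ (T ^ 2 * Dc)⁻¹ * ((T ^ 2 * Dc) * ‖A‖) :=
          mul_le_mul_of_nonneg_left hA6 hc0.le
      _ = ‖A‖ := by
          rw [← mul_assoc, inv_mul_cancel₀ (by positivity), one_mul]

end TGCx

/-- MODULE TGC -/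
theorem t_TGC : TGC_Stmt := by
  obtain ⟨C2, hC2, hC2'⟩ := gc2
  obtain ⟨K2, hK2⟩ := sum_pow 2
  obtain ⟨K3, hK3⟩ := sum_pow 3
  obtain ⟨K4, hK4⟩ := sum_pow 4
  have h1 : PB fun D : ℝ => 1000 * D ^ 2 * ((1 + C2) * (1 + D ^ K2 + D ^ K3 + D ^ K4)) :=
    ((PB.const 1000).mul (PB.id.pow 2)).mul ((PB.const (1 + C2)).mul
      ((((PB.const 1).add (PB.id.pow K2)).add (PB.id.pow K3)).add (PB.id.pow K4)))
  obtain ⟨J, hJ⟩ := h1.le
  refine ⟨2 * J + 1, fun D G v κ θ hD hG hθ N eps z f he hz hf => ?_⟩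
  have hD0 : (0 : ℝ) < D := by linarith
  have hD1 : (1 : ℝ) ≤ D := by linarith
  have e : D ^ (2 * J + 1) = (D ^ J) ^ 2 * D := by rw [← pow_mul, ← pow_succ, mul_comm J 2]
  have hθ' : |θ| * (D ^ J) ^ 2 ≤ 1 := by
    refine le_trans ?_ hθ
    refine mul_le_mul_of_nonneg_left ?_ (abs_nonneg _)
    rw [← pow_mul]
    exact pow_le_pow_right₀ hD1 (by omega)
  have h6 := TGCx.core hC2 (pow_pos hD0 K2).le (pow_pos hD0 K3).le (pow_pos hD0 K4).le hC2' hD
    (hJ D hD) hG (hK2 D hD G hG.cls) (hK3 D hD G hG.cls) (hK4 D hD G hG.cls) hθ' N eps z f he hz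
    hf
  rw [e]
  exact h6

end Pool.Agent.PFS
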